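import Mathlib
import Pool.Agent.H805R2.Defs

/-!
# Project MD: no solution of `(dd^c u)² = λ ⊗ δ₀` in the Cegrell class `𝓕` of the bidisc

Definitions.  Everything is on `C2 = Cn 2 = EuclideanSpace ℂ (Fin 2)`; coordinates `x = z 0`, `y = z 1`.
The library `Pool.Agent.H805R2.*` (Base, Defs, IBP, Path, Glue, Compare, Approx, Lite, PartM, Final)
contains: `hess`, `levi`, `hess_eq_sesq`, `hess_posSemidef_iff`, `ibp` (trilinear integration by parts,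
compact support), `path_formula`, `stokes`, `compare`, `compare_on`, `hess_congr`, `trace_adj_nonneg`,
`extract` (smooth approximants of an `E₀` function), `bdry_compact`, `cutoff`, `dini_lt`, `glue`.
-/

set_option autoImplicit false

open MeasureTheory Metric Set Filter Topology
open scoped ContDiff ComplexOrder

namespace Pool.Agent.H53M

open Pool.Agent.H805R2

abbrev C2 : Type := Cn 2

/-- the bidisc -/
def Om : Set C2 := {z | ‖z 0‖ < 1 ∧ ‖z 1‖ < 1}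

/-- the point `(x, y)` -/
noncomputable def pt (x y : ℂ) : C2 := WithLp.toLp 2 ![x, y]

/-- `c • λ ⊗ δ₀` -/
noncomputable def muD (c : ℝ) : Measure C2 :=
  ENNReal.ofReal c • Measure.map (fun x : ℂ => pt x 0) (volume.restrict (ball (0 : ℂ) 1))

/-- determinant of the complex Hessian -/
noncomputable def dt (a : C2 → ℝ) (z : C2) : ℝ := (hess a z).det.re

/-- mixed determinant `tr(adj(hess a) hess b)`; `DD a a = 2 dt a` -/
noncomputable def DD (a b : C2 → ℝ) (z : C2) : ℝ := (((hess a z).adjugate * hess b z).trace).re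

/-- smooth convex version of `max x 0`: it is `0` for `x ≤ -1/2` and `x` for `x ≥ 1/2` -/
noncomputable def mm (x : ℝ) : ℝ := ∫ t in (0 : ℝ)..(x + 1 / 2), Real.smoothTransition t

/-- smooth version of `max a b`: equals `b` where `a ≤ b - η/2` and `a` where `a ≥ b + η/2` -/
noncomputable def mx (η : ℝ) (a b : C2 → ℝ) (z : C2) : ℝ := b z + η * mm ((a z - b z) / η)

/-- smooth plurisubharmonic on the bidisc -/
def SP (a : C2 → ℝ) : Prop := ContDiffOn ℝ ∞ a Om ∧ ∀ z ∈ Om, (hess a z).PosSemidef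

/-- the exhaustion function used as germ at the boundary and as weight -/
structure Rho (ρ : C2 → ℝ) : Prop where
  sp : SP ρ
  neg : ∀ z ∈ Om, ρ z < 0
  ge : ∀ z ∈ Om, -3 ≤ ρ z
  /-- `ρ → 0` at the boundary -/
  bdry : ∀ t : ℝ, 0 < t → ∃ K : Set C2, IsCompact K ∧ K ⊆ Om ∧ ∀ z ∈ Om, z ∉ K → -t < ρ z
  /-- `(dd^c ρ)² = 0` near the boundary -/
  ma0 : ∃ K : Set C2, IsCompact K ∧ K ⊆ Om ∧ ∀ z ∈ Om, z ∉ K → (hess ρ z).det = 0
  /-- near `y = 0` the function depends only on `x`, and is `log |x|` near `|x| = 1` -/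
  flat : ∀ z ∈ Om, ‖z 1‖ < Real.exp (-15) → ρ z = ρ (pt (z 0) 0) ∧
    (Real.exp (-(1 : ℝ)) < ‖z 0‖ → ρ z = Real.log ‖z 0‖)
  /-- where `hess ρ ≠ 0` one has `min (-log |y|) 1 ≤ C (-ρ)` -/
  cone : ∃ C : ℝ, 0 < C ∧ ∀ z ∈ Om, hess ρ z = 0 ∨ z 1 = 0 ∨ min (-Real.log ‖z 1‖) 1 ≤ C * (-ρ z)

/-- admissible functions: smooth, plurisubharmonic, `B ρ ≤ a ≤ 0`, and `a = B ρ` off a compact set -/
structure Adm (ρ : C2 → ℝ) (B : ℝ) (a : C2 → ℝ) : Prop where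
  sp : SP a
  nonpos : ∀ z ∈ Om, a z ≤ 0
  ge : ∀ z ∈ Om, B * ρ z ≤ a z
  germ : ∃ K : Set C2, IsCompact K ∧ K ⊆ Om ∧ ∀ z ∈ Om, z ∉ K → a z = B * ρ z

/-- smooth version of `log |y|`, nonpositive on the bidisc -/
noncomputable def vv (ε : ℝ) (z : C2) : ℝ := Real.log ((‖z 1‖ ^ 2 + ε ^ 2) / (1 + ε ^ 2)) / 2

/-- horizontal energy of the slice `y`: `∫_{|x|<1} (-a) a_{x x̄}` -/
noncomputable def LE (a : C2 → ℝ) (y : ℂ) : ℝ :=
  ∫ x in ball (0 : ℂ) 1, (-a (pt x y)) * (hess a (pt x y) 0 0).re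

/-- smooth approximants of `u ∈ E₀` (output of `H805R2.extract`) -/
def Appr (u : C2 → ℝ) (ν : Measure C2) (U : Set C2) (v : ℕ → C2 → ℝ) : Prop :=
  IsOpen U ∧ U ⊆ Om ∧ (∀ k, ContDiff ℝ ∞ (v k)) ∧ (∀ k, HasCompactSupport (v k)) ∧
  (∀ k, ∀ z ∈ U, (hess (v k) z).PosSemidef) ∧
  (∀ k z, z ∉ Om → v k z = 0) ∧ (∀ k, ∀ z ∈ Om, u z ≤ v k z) ∧
  (∀ η > 0, ∃ k0, ∀ k ≥ k0, ∀ z, v k z < η) ∧
  (∀ z ∈ U, Antitone fun k => v k z) ∧
  (∀ z ∈ U, Tendsto (fun k => v k z) atTop (𝓝 (u z))) ∧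
  ∀ χ : C2 → ℝ, Continuous χ → HasCompactSupport χ → tsupport χ ⊆ U →
    Tendsto (fun k => ∫ z, χ z * maDensity (v k) z) atTop (𝓝 (∫ z, χ z ∂ν))

/-- one quarter of the Laplacian, `∂²U/∂x∂x̄` -/
noncomputable def lap4 (U : ℂ → ℝ) (x : ℂ) : ℝ :=
  (fderiv ℝ (fderiv ℝ U) x 1 1 + fderiv ℝ (fderiv ℝ U) x Complex.I Complex.I) / 4

/-- Green function of the unit disc -/
noncomputable def gg (x x' : ℂ) : ℝ := Real.log (‖1 - (starRingEnd ℂ) x * x'‖ / ‖x - x'‖)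

/-- `1 - |φ_x(x')|²`, a positive definite kernel; `gg = -log(1-KK)/2 = ∑ KK^n/(2n)` -/
noncomputable def KK (x x' : ℂ) : ℝ :=
  (1 - ‖x‖ ^ 2) * (1 - ‖x'‖ ^ 2) / ‖1 - (starRingEnd ℂ) x * x'‖ ^ 2

/-- truncated Green function -/
noncomputable def gT (T : ℕ) (x x' : ℂ) : ℝ := (∑ n ∈ Finset.range T, KK x x' ^ (n + 1) / (n + 1)) / 2

/-- block Toeplitz matrix of the symbol `W` -/
noncomputable def Toep (n d : ℕ) (W : ℝ → Matrix (Fin d) (Fin d) ℂ) :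
    Matrix (Fin n × Fin d) (Fin n × Fin d) ℂ :=
  Matrix.of fun p q => (1 / (2 * Real.pi) : ℂ) * ∫ t in (0 : ℝ)..(2 * Real.pi),
    W t p.2 q.2 * Complex.exp (Complex.I * (((q.1 : ℕ) : ℂ) - ((p.1 : ℕ) : ℂ)) * t)

/-- the point `r e^{iθ}` -/
noncomputable def cp (r θ : ℝ) : ℂ := r * Complex.exp (Complex.I * θ)

/-- weighted energy of `f` on `|y| = r` with weight `e^{-2 m a}` -/
noncomputable def WE (a : C2 → ℝ) (m : ℕ) (r : ℝ) (f : ℂ → ℂ → ℂ) : ℝ :=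
  (1 / (2 * Real.pi)) * ∫ θ in (0 : ℝ)..(2 * Real.pi), ∫ x in ball (0 : ℂ) 1,
    ‖f x (cp r θ)‖ ^ 2 * Real.exp (-2 * m * a (pt x (cp r θ)))

end Pool.Agent.H53M
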