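import Mathlib
import Pool.Agent.H53M.Defs

/-!
# Project MD (helper53): stubs, phase 1

`MP_4eb3f9_an`: no `u ∈ 𝓕(𝔻²)` with `(dd^c u)² = λ ⊗ δ₀`.
Each stub `X` is to be proved as `theorem Pool.Agent.H53M.X.t : Pool.Agent.H53M.X` (or from the
hypotheses written in the table `mdstubs`, e.g. `theorem t : Pool.Agent.H53M.SYM → Pool.Agent.H53M.ENE`)
in `Pool/Agent/H53M/X.lean`.  `DD a b` is bilinear and symmetric in the Hessians (2x2 matrices,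
`tr(adj A · B) = A₀₀B₁₁ + A₁₁B₀₀ - A₀₁B₁₀ - A₁₀B₀₁`), `DD a a = 2 dt a`, and `DD a b ≥ 0` if both
Hessians are positive semidefinite (`H805R2.trace_adj_nonneg`).
-/

set_option autoImplicit false

open MeasureTheory Metric Set Filter Topology
open scoped ContDiff ComplexOrder

namespace Pool.Agent.H53M

open Pool.Agent.H805R2

/-! ## A. Tools -/

/-- **MXL** (facts on `mm` and `mx`; adapt `H805R2/Glue.lean`, `Lite.lean`; `mm x = sm (x + 1/2)`, and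
`smoothTransition (1 - t) = 1 - smoothTransition t` gives `∫₀¹ smoothTransition = 1/2`). -/
def MXL : Prop :=
  ContDiff ℝ ∞ mm ∧ (∀ x, x ≤ -(1 / 2) → mm x = 0) ∧ (∀ x, 1 / 2 ≤ x → mm x = x) ∧
  (∀ x, max x 0 ≤ mm x ∧ mm x ≤ max x 0 + 1 / 4) ∧
  (∀ x, 0 ≤ deriv mm x ∧ deriv mm x ≤ 1 ∧ 0 ≤ deriv (deriv mm) x) ∧
  (∀ (η : ℝ) (a b : C2 → ℝ), 0 < η → ∀ z,
    (a z ≤ b z - η / 2 → mx η a b z = b z) ∧ (b z + η / 2 ≤ a z → mx η a b z = a z) ∧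
    max (a z) (b z) ≤ mx η a b z ∧ mx η a b z ≤ max (a z) (b z) + η / 4) ∧
  (∀ (η : ℝ) (a b a' b' : C2 → ℝ) (z : C2), 0 < η → a z ≤ a' z → b z ≤ b' z →
    mx η a b z ≤ mx η a' b' z) ∧
  (∀ (η : ℝ) (a b : C2 → ℝ) (S : Set C2), IsOpen S → 0 < η →
    ContDiffOn ℝ ∞ a S → ContDiffOn ℝ ∞ b S → (∀ z ∈ S, (hess a z).PosSemidef) →
    (∀ z ∈ S, (hess b z).PosSemidef) →
    ContDiffOn ℝ ∞ (mx η a b) S ∧ ∀ z ∈ S, (hess (mx η a b) z).PosSemidef)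

/-- **HES** (Hessians of functions smooth near a point are additive and homogeneous; one-variable
functions; chain rule inequality: for concave nondecreasing `θ` and psh `w` the matrix
`θ'(w) hess w - hess (θ ∘ w)` is positive semidefinite.  Use `H805R2.hess_eq_sesq`, `levi_comp`,
`psd_iff` after replacing the function by a global smooth one near the point (`H805R2.cutoff`,
`hess_congr`)). -/
def HES : Prop :=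
  (∀ (f g : C2 → ℝ) (z : C2), ContDiffAt ℝ ∞ f z → ContDiffAt ℝ ∞ g z →
    hess (fun w => f w + g w) z = hess f z + hess g z) ∧
  (∀ (f : C2 → ℝ) (c : ℝ) (z : C2), ContDiffAt ℝ ∞ f z → hess (fun w => c * f w) z = (c : ℂ) • hess f z) ∧
  (∀ (f : C2 → ℝ) (z : C2), ContDiffAt ℝ ∞ f z → (hess f z).IsHermitian) ∧
  (∀ (f : C2 → ℝ) (S : Set C2), IsOpen S → ContDiffOn ℝ ∞ f S → ContinuousOn (hess f) S) ∧
  (∀ (f : C2 → ℝ) (x y : ℂ), ContDiffAt ℝ ∞ f (pt x y) →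
    (hess f (pt x y) 0 0).re = lap4 (fun x' => f (pt x' y)) x ∧
    (hess f (pt x y) 1 1).re = lap4 (fun y' => f (pt x y')) y) ∧
  (∀ (q : ℂ → ℝ) (z : C2), ContDiff ℝ ∞ q →
    hess (fun w => q (w 1)) z = !![0, 0; 0, ((lap4 q (z 1) : ℝ) : ℂ)]) ∧
  (∀ (G : ℝ → ℝ) (f : C2 → ℝ) (z : C2), ContDiff ℝ ∞ G → ContDiffAt ℝ ∞ f z → 0 ≤ deriv (deriv G) (f z) →
    (hess (fun w => G (f w)) z - ((deriv G (f z) : ℝ) : ℂ) • hess f z).PosSemidef) ∧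
  (∀ A B : Matrix (Fin 2) (Fin 2) ℂ, (A.adjugate * B).trace = (B.adjugate * A).trace) ∧
  (∀ A B C : Matrix (Fin 2) (Fin 2) ℂ, ((A + B).adjugate * C).trace =
    (A.adjugate * C).trace + (B.adjugate * C).trace) ∧
  (∀ A : Matrix (Fin 2) (Fin 2) ℂ, (A.adjugate * A).trace = 2 * A.det)

/-- **IBT** (trilinear integration by parts on the bidisc with one compactly supported factor: replace
`f`, `g` by global smooth functions equal to them near `tsupport χ` (`H805R2.cutoff`,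
`cutoff_mul_smooth`, `hess_congr`) and use `H805R2.ibp` and the symmetry of the mixed determinant). -/
def IBT : Prop := ∀ χ f g : C2 → ℝ, ContDiff ℝ ∞ χ → HasCompactSupport χ → tsupport χ ⊆ Om →
  ContDiffOn ℝ ∞ f Om → ContDiffOn ℝ ∞ g Om →
    ∫ z in Om, χ z * DD f g z = ∫ z in Om, f z * DD χ g z

/-! ## B. Integral identities on admissible functions
Write `a = B ρ + χ` with `χ` smooth with compact support in `Om` (extended by zero); all integrals below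
have compactly supported continuous integrands because `(hess ρ z).det = 0` near the boundary. -/

/-- **STK** (Stokes; from `IBT` with the constant function `1`, since
`2 (dt b - dt a) = DD (b - a) (a + b)`). -/
def STK : Prop := ∀ (ρ : C2 → ℝ) (B : ℝ) (a b : C2 → ℝ), Rho ρ → Adm ρ B a → Adm ρ B b →
  ∫ z in Om, dt a z = ∫ z in Om, dt b z

/-- **MSS** (`∫ DD (a - Bρ) ρ = 0` by `IBT` with the constant function `1`). -/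
def MSS : Prop := ∀ (ρ : C2 → ℝ) (B : ℝ) (a : C2 → ℝ), Rho ρ → Adm ρ B a →
  ∫ z in Om, DD a ρ z = B * ∫ z in Om, DD ρ ρ z

/-- **SYM** (both sides are equal to `-B∫ρ DD a ρ - ∫ χ_b DD a ρ`, `b = Bρ + χ_b`, by `IBT`). -/
def SYM : Prop := ∀ (ρ : C2 → ℝ) (B : ℝ) (a b : C2 → ℝ), Rho ρ → Adm ρ B a → Adm ρ B b →
  ∫ z in Om, (-b z) * DD a ρ z = ∫ z in Om, (-ρ z) * DD a b z

/-- **CMP** (comparison: `2 (dt b - dt a) = DD (b - a) (a + b)` and `IBT` give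
`2 ∫ ψ (dt b - dt a) = ∫ (b - a) DD ψ (a + b) ≥ 0`). -/
def CMP : Prop := ∀ (ρ : C2 → ℝ) (B : ℝ) (a b ψ : C2 → ℝ), Rho ρ → Adm ρ B a → Adm ρ B b →
  (∀ z ∈ Om, a z ≤ b z) → SP ψ → ∫ z in Om, (-ψ z) * dt b z ≤ ∫ z in Om, (-ψ z) * dt a z

/-- **QPO** (positivity of the energy form).  For `δ > 0` let `θ : ℝ → ℝ` be smooth, `θ(t) = 0` for
`|t| ≤ δ`, `0 ≤ θ' ≤ 1`, `|θ(t) - t| ≤ 2δ`, and `G' = θ`, `G(0) = 0`.  Then `G ∘ f`, `θ ∘ f` have compact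
support in `Om` (`f = Bρ → 0` at the boundary), `∫ DD (G ∘ f) ρ = 0` by `IBT`, and
`DD (G ∘ f) ρ ≥ θ(f) DD f ρ` by `HES` (`G'' ≥ 0`), so `∫ -θ(f) DD f ρ ≥ 0`.  Let `δ → 0`:
`DD f ρ` is continuous with compact support. -/
def QPO : Prop := ∀ (ρ : C2 → ℝ) (B : ℝ) (f : C2 → ℝ), Rho ρ → ContDiffOn ℝ ∞ f Om →
  (∃ K : Set C2, IsCompact K ∧ K ⊆ Om ∧ ∀ z ∈ Om, z ∉ K → f z = B * ρ z) →
    0 ≤ ∫ z in Om, (-f z) * DD f ρ z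

/-- **ENE**.  Put `h = ai - ak ≥ 0` (compact support), `X = ∫ (-g) DD g ρ = 2 ∫ (-ρ) dt g` (SYM).
(1) `X ≤ ∫ (-g) DD ak ρ` since `∫ (-g) DD (ak - g) ρ = ∫ (g - ak) DD g ρ ≥ 0` (IBT).
(2) `∫ (-g) DD ak ρ = ∫ (-g) DD ai ρ + ∫ h DD g ρ` (IBT).
(3) QPO for `f = g - h`: `0 ≤ ∫ (-(g-h)) DD (g-h) ρ = X + ∫ (-h) DD h ρ - 2 ∫ h DD g ρ·(-1)...`; with signs:
`2 ∫ h DD g ρ ≤ X + ∫ (-h) DD h ρ` is QPO for `f = g + h`: `0 ≤ ∫ -(g+h) DD (g+h) ρ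
 = X + ∫ (-h) DD h ρ - 2 ∫ h DD g ρ`.
(4) `∫ (-h) DD h ρ = ∫ h DD ak ρ - ∫ h DD ai ρ ≤ ∫ h DD (ak + ai) ρ = 2 ∫ (-ρ)(dt ak - dt ai)` (IBT).
Hence `X ≤ ∫ (-g) DD ai ρ + X/2 + ∫ (-ρ)(dt ak - dt ai)`. -/
def ENE : Prop := ∀ (ρ : C2 → ℝ) (B : ℝ) (ak ai g : C2 → ℝ), Rho ρ →
  Adm ρ B ak → Adm ρ B ai → Adm ρ B g → (∀ z ∈ Om, ak z ≤ ai z) → (∀ z ∈ Om, ak z ≤ g z) →
    (∫ z in Om, (-ρ z) * dt g z) ≤ (∫ z in Om, (-g z) * DD ai ρ z) +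
      ((∫ z in Om, (-ρ z) * dt ak z) - (∫ z in Om, (-ρ z) * dt ai z))

/-- **XTW**.  Let `r₀ = e⁻¹⁵`.  Let `q₁ = mx 1 (vv ε) (-17)`-like truncation depending only on `y`, so that
`q₁ - vv ε ≥ 0` is supported in `|y| ≤ r₀` (up to adjusting the constant `-17`), `-q₁ ≤ 17`.
(1) By `Rho.cone` (and `-q₁ ≤ 17 min(-log|y|,1)`-type bound, note `-vv ε ≤ -log |y|`), `-q₁ ≤ C(-ρ)` wherever
`hess ρ ≠ 0`; so `∫ (-q₁) DD a ρ ≤ C ∫ (-ρ) DD a ρ = C ∫ (-a) DD ρ ρ ≤ C M ∫ DD ρ ρ` (SYM-type identity by IBT).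
(2) For `|y| ≤ r₀`, `ρ = p(x)` depends only on `x` and `p_{x x̄} = 0` for `e⁻¹ < |x| < 1` (`Rho.flat`), so with a
cutoff `χ(x)` equal to one for `|x| ≤ 1/2` the function `f = χ(x)(q₁ - vv ε)(y)` is smooth with compact support,
`∫ (q₁ - vv) DD a ρ = ∫ f DD a ρ = ∫ a DD f ρ = ∫ a f_{y ȳ} p_{x x̄} ≤ M ∫ |f_{yȳ}| p_{x x̄} ≤ C M`
because `∫_{|y|<1} (vv ε)_{y ȳ} ≤ π/2` and `∫ (q₁)_{yȳ} ≤ π/2`.  The constant does not depend on `ε`, `B`, `a`. -/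
def XTW : Prop := ∀ ρ : C2 → ℝ, Rho ρ → ∃ C : ℝ, 0 < C ∧ ∀ (B M ε : ℝ) (a : C2 → ℝ), 0 < B → 0 ≤ M →
  0 < ε → Adm ρ B a → (∀ z ∈ Om, -M ≤ a z) → ∫ z in Om, (-vv ε z) * DD a ρ z ≤ C * M

/-! ## C. Construction of admissible functions -/

/-- **RHO** (existence of the weight).  With `ξ = log|x|`, `ζ = log|y|`, `τ = -(ξ+ζ) > 0` put
`Φ = ζ + (τ/4) mm((ξ-ζ)/(τ/4))` (convex, nondecreasing in each variable, homogeneous of degree one;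
`= ξ` where `ξ - ζ ≥ τ/8`, `= ζ` where `ξ - ζ ≤ -τ/8`, so it extends by `log|x|` across `y = 0` and by `log|y|`
across `x = 0`), and `ρ = -2 + mm (Φ + 2)` (`= -2` where `Φ ≤ -5/2`, `= Φ` where `Φ ≥ -3/2`; also `-2` at `0`).
Hessian of `F(log|x|, log|y|)`: entries `F_{ξξ}/(4|x|²)`, `F_{ζζ}/(4|y|²)`, `F_{ξζ}/(4 x ȳ)`; positive semidefinite as
`F'' ≥ 0`, determinant `0` where `F` is homogeneous of degree one.  `max(ξ,ζ) ≤ Φ ≤ max(ξ,ζ) + τ/16`; in the cone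
`|ξ-ζ| < τ/8` one has `τ ≤ (16/7) min(|ξ|,|ζ|)`, so `Φ ≤ -(6/7) min`. -/
def RHO : Prop := ∃ ρ : C2 → ℝ, Rho ρ

/-- **AD1**.  Where `v k - η ≤ Bρ - τ/2` the function equals `Bρ`; for `k` large `v k < η/4` everywhere, so this
holds in the open set `{Bρ > -η/2}` (a neighbourhood of the boundary by `Rho.bdry`); on the complement `v k` is psh. -/
def AD1 : Prop := ∀ (ρ u : C2 → ℝ) (ν : Measure C2) (B η τ : ℝ) (U : Set C2) (v : ℕ → C2 → ℝ),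
  Rho ρ → IsE0 Om u ν → 0 < B → 0 < η → 0 < τ → τ ≤ η / 4 → (∀ z ∈ Om, B * ρ z ≤ -η / 2 → z ∈ U) →
  Appr u ν U v → ∃ k0, ∀ k ≥ k0, Adm ρ B (mx τ (fun z => v k z - η) (fun z => B * ρ z)) ∧
    ∀ z ∈ Om, u z - η ≤ mx τ (fun z => v k z - η) (fun z => B * ρ z) z

/-- **AD2** truncation at depth `-N`. -/
def AD2 : Prop := ∀ (ρ a : C2 → ℝ) (B N : ℝ), Rho ρ → 0 < B → Adm ρ B a → 1 ≤ N →
  Adm ρ B (mx (1 / 2) a (fun _ => -N))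

/-- **AD3** maximum with `s log|y| - τ` (smoothed).  `vv ε` is smooth, psh and `≤ 0` on `Om`. -/
def AD3 : Prop := ∀ (ρ b : C2 → ℝ) (B s τ ε : ℝ), Rho ρ → 0 < B → Adm ρ B b → 0 ≤ s → 0 < τ → 0 < ε →
  Adm ρ B (mx (τ / 2) (fun z => s * vv ε z - τ) b)

/-- **AD4**. -/
def AD4 : Prop := ∀ (ρ ψ₁ : C2 → ℝ) (B κ : ℝ), Rho ρ → 0 < B → Adm ρ B ψ₁ → 0 < κ →
  SP (mx (1 / 2) (fun z => κ * ψ₁ z) (fun _ => -4)) ∧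
  ∀ z ∈ Om, mx (1 / 2) (fun z => κ * ψ₁ z) (fun _ => -4) z ≤ 0 ∧
    κ * ψ₁ z ≤ mx (1 / 2) (fun z => κ * ψ₁ z) (fun _ => -4) z ∧
    (κ * ψ₁ z ≤ -(17 / 4) → mx (1 / 2) (fun z => κ * ψ₁ z) (fun _ => -4) z = -4) ∧
    -(mx (1 / 2) (fun z => κ * ψ₁ z) (fun _ => -4) z) ≤ (κ * B) * (-ρ z)

/-! ## D. Relations with a general `u ∈ 𝓔₀` -/

/-- **UPG** (adapt the proof of `H805R2.mass_step`).  Let `Kc ⊆ Om` be a large compact set: it contains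
`{z : u z < -3η/(4 lam)}`, all points where `dt a ≠ 0` or `a < -4 lam η/(lam-1)`.  Take smooth approximants `w = v l` of `u`
psh near `Kc` (`H805R2.extract`), `w < a + 2η` on `Kc` (Dini).  `ĉ = mx (η/2) (a - η) (lam w) ≥ lam w` equals `lam w` off
`Kc` (there `a - η ≤ -η ≤ lam w - η/4`), and equals `a - η` where `a - η > lam w + η/4`.  `H805R2.compare_on` (with `h = ψ`):
`∫ (-ψ) MA(ĉ) ≤ lam² ∫ (-ψ) MA(w)` on `Kc`, and the right side is `≤ lam² ∫ χ(-ψ) MA(w) → lam² ∫ χ(-ψ) dν`.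
Where `a - η ≤ lam w + η/4` one has `(lam-1) a ≥ -4 lam η`, so `-ρ ≤ ω` there and the contribution is at most
`C ω ∫ MA(a) = C ω B² ∫ MA(ρ)` (STK). -/
def UPG : Prop := ∀ (ρ a u ψ : C2 → ℝ) (ν : Measure C2) (B η lam om C : ℝ), Rho ρ → 0 < B → Adm ρ B a →
  IsE0 Om u ν → 0 < η → (∀ z ∈ Om, u z ≤ a z + η) → 1 < lam → 0 ≤ om →
  (∀ z ∈ Om, -(4 * lam * η / (lam - 1)) ≤ a z → -ρ z ≤ om) → 0 ≤ C → SP ψ →
  (∀ z ∈ Om, ψ z ≤ 0 ∧ -ψ z ≤ C * (-ρ z)) →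
    (∫ z in Om, (-ψ z) * maDensity a z) ≤ lam ^ 2 * (∫ z in Om, (-ψ z) ∂ν) +
      C * om * B ^ 2 * (∫ z in Om, maDensity ρ z)

/-- **FIB** (energy bound).  `q̂(z) = q(z 1)`; `DD a q̂` has compact support (for `|y| < e⁻¹⁵` and `|x|` near `1`,
`a = B log|x|`).  Let `w` be an approximant of `u` psh on a large compact set, `u ≤ w < η/4`, `w < a + 2η` there, and
`θ_η(t) = -η mm(-t/η - 3/2)` (`= 0` for `t ≥ -η`, `= t + 3η/2` for `t ≤ -2η`, concave, `0 ≤ θ' ≤ 1`, `-t ≤ -θ(t) + 3η/2`).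
`∫(-a)DD a q̂ ≤ ∫(-w+2η)DD a q̂ ≤ ∫(-θ(w))DD a q̂ + 4η B ∫DD ρ q̂ = ∫(-a)DD θ(w) q̂ + … ≤ ∫(-a)θ'(w)DD w q̂ + …
 ≤ ∫(-θ(w))DD w q̂ + 4η∫θ'(w)DD w q̂ + …`; `∫(-θ(w))DD w q̂ = ∫(-q̂)DD θ(w) w ≤ 2Q∫_{w<-η/2} dt w`, and
`η θ_η'(w) ≤ -4 θ_{η/2}(w)` bounds the other term in the same way; finally `∫_{w<-η/2} dt w ≤ ∫χ dt w → (π²/8) ∫χ dν`.
`η₀` is chosen so that `4 η₀ B ∫ DD ρ q̂ ≤ Q`. -/
def FIB : Prop := ∃ C : ℝ, 0 < C ∧ ∀ (ρ : C2 → ℝ) (q : ℂ → ℝ) (Q B : ℝ), Rho ρ → ContDiff ℝ ∞ q →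
  (∀ y : ℂ, ‖y‖ < 1 → -Q ≤ q y ∧ q y ≤ 0 ∧ 0 ≤ lap4 q y) →
  (∀ y : ℂ, Real.exp (-15) ≤ ‖y‖ → ‖y‖ < 1 → lap4 q y = 0) → 0 < Q → 0 < B →
  ∃ η₀ : ℝ, 0 < η₀ ∧ ∀ (a u : C2 → ℝ) (ν : Measure C2) (M η : ℝ), Adm ρ B a → IsE0 Om u ν → 0 < η → η ≤ η₀ →
    (∀ z ∈ Om, u z ≤ a z + η) → (ν Om).toReal ≤ M → 1 ≤ M →
    ∫ z in Om, (-a z) * DD a (fun w => q (w 1)) z ≤ C * Q * M

/-- **C0C** (weak convergence tested with functions vanishing at the boundary: cut off near the boundary, where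
`-ψ ≤ C(-ρ)` is small, and use the uniform bound of the masses; `ψ` is only controlled on `Om`). -/
def C0C : Prop := ∀ (ρ : C2 → ℝ) (ν : ℕ → Measure C2) (μ : Measure C2) (M : ℝ), Rho ρ →
  (∀ j, ν j Om ≤ ENNReal.ofReal M) → μ Om < ⊤ →
  (∀ χ : C2 → ℝ, Continuous χ → HasCompactSupport χ → tsupport χ ⊆ Om →
    Tendsto (fun j => ∫ z, χ z ∂(ν j)) atTop (𝓝 (∫ z, χ z ∂μ))) →
  ∀ (ψ : C2 → ℝ) (C : ℝ), 0 ≤ C → ContinuousOn ψ Om → (∀ z ∈ Om, ψ z ≤ 0 ∧ -ψ z ≤ C * (-ρ z)) →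
    Tendsto (fun j => ∫ z in Om, (-ψ z) ∂(ν j)) atTop (𝓝 (∫ z in Om, (-ψ z) ∂μ))

/-- **NEG** (strong maximum principle `H805R2.strong_max` and upper semicontinuity). -/
def NEG : Prop := ∀ (u : C2 → ℝ) (ν : Measure C2), IsE0 Om u ν → (∃ z ∈ Om, u z < 0) →
  ∀ K : Set C2, IsCompact K → K ⊆ Om → ∃ c : ℝ, 0 < c ∧ ∀ z ∈ K, u z ≤ -c

/-- **HAR** (Harnack for the negative subharmonic function `x ↦ ψ(x,0)`: sub-mean value inequality composed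
with the Moebius map `φ(ζ) = (ζ + x₀)/(1 + x̄₀ ζ)`: `ψ(x₀) ≤ (1/π)∫_𝔻 ψ(φ(ζ)) dλ(ζ) = (1/π)∫_𝔻 ψ(x)|(φ⁻¹)'(x)|² dλ(x)` and
`|(φ⁻¹)'(x)|² ≥ ((1-|x₀|²)/(1+|x₀|)²)² ≥ 1/49`; or any other proof, e.g. chains of discs). -/
def HAR : Prop := ∃ C : ℝ, 0 < C ∧ ∀ (ρ ψ : C2 → ℝ) (B δ : ℝ) (x₀ : ℂ), Rho ρ → 0 < B → Adm ρ B ψ →
  ‖x₀‖ ≤ 3 / 4 → -δ ≤ ψ (pt x₀ 0) → ∫ x in ball (0 : ℂ) 1, (-ψ (pt x 0)) ≤ C * δ

/-- **RAD** (choice of the radius).  `q(y) = mm(log|y| + R + 1/2) - (R + 1/2)` (`= log|y|` for `|y| ≥ e^{-R}`, constant for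
`|y| ≤ e^{-R-1}`), `q_{yȳ} ≥ 0`, `∫ q_{yȳ} = π/2`; by Fubini `∫(-a)DD a q̂ = ∫ q_{yȳ}(y) LE a y dλ(y)`, and `LE a ≥ 0`.
If the mean of `LE a` over every circle of radius in `[e^{-R-1}, e^{-R}]` exceeded `J = ∫(-a)DD a q̂` then
`J ≥ (π/2)·(larger than J)`, a contradiction when `J ≥ 0` (strictness: if the mean exceeds `J` for all radii, then
`J > J` unless the annulus has zero mass). -/
def RAD : Prop := ∀ R : ℝ, 15 ≤ R → ∃ q : ℂ → ℝ, ContDiff ℝ ∞ q ∧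
  (∀ y : ℂ, ‖y‖ < 1 → -(R + 1) ≤ q y ∧ q y ≤ 0 ∧ 0 ≤ lap4 q y) ∧
  (∀ y : ℂ, Real.exp (-15) ≤ ‖y‖ → ‖y‖ < 1 → lap4 q y = 0) ∧
  ∀ (ρ a : C2 → ℝ) (B : ℝ), Rho ρ → 0 < B → Adm ρ B a →
    ∃ r₁ : ℝ, Real.exp (-(R + 1)) ≤ r₁ ∧ r₁ ≤ Real.exp (-R) ∧
      (1 / (2 * Real.pi)) * ∫ θ in (0 : ℝ)..(2 * Real.pi), LE a (cp r₁ θ) ≤
        ∫ z in Om, (-a z) * DD a (fun w => q (w 1)) z

/-! ## E. One-variable potential theory and determinants (independent of the rest) -/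

/-- **GRN** Green representation in the disc for smooth `U` with `U = B log|x|` near the circle.
(Moebius change of variables to `x = 0`; then polar coordinates / Jensen; or integrate by parts outside a small disc.) -/
def GRN : Prop := ∀ (U : ℂ → ℝ) (B δ : ℝ), 0 < δ → δ < 1 → ContDiffOn ℝ ∞ U (ball 0 1) →
  (∀ x : ℂ, 1 - δ < ‖x‖ → ‖x‖ < 1 → U x = B * Real.log ‖x‖) → ∀ x ∈ ball (0 : ℂ) 1,
    -U x = (2 / Real.pi) * ∫ x' in ball (0 : ℂ) 1, gg x x' * lap4 U x'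

/-- **PDK** the truncated Green kernel is positive definite, in integrated form:
`0 ≤ ∑_{ij} gT(x_i,x_j) - 2m ∑_i ∫ gT(x_i,x')F(x') + m² ∬ gT F F` for bounded measurable `F ≥ 0` on the disc.
Proof: `KK(x,x')^n = ∑_{k,l} c_k c_l φ_{kl}(x) conj(φ_{kl}(x'))`, `φ_{kl}(x) = (1-|x|²)^n x̄^k x^l`, `c_k = C(n+k-1,k)`;
so the form is `∑_{n,k,l} (c_k c_l/2n)|∑_i φ(x_i) - m∫φ F|²`; absolute convergence from
`(1-a²)(1-b²) ≤ (1-ab)²`. -/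
def PDK : Prop := ∀ (T d : ℕ) (x : Fin d → ℂ) (F : ℂ → ℝ) (m L : ℝ), (∀ i, ‖x i‖ < 1) → Measurable F →
  (∀ t ∈ ball (0 : ℂ) 1, 0 ≤ F t ∧ F t ≤ L) → 0 ≤ m →
    0 ≤ (∑ i, ∑ j, gT T (x i) (x j)) - 2 * m * (∑ i, ∫ t in ball (0 : ℂ) 1, gT T (x i) t * F t) +
      m ^ 2 * (∫ s in ball (0 : ℂ) 1, ∫ t in ball (0 : ℂ) 1, gT T s t * F s * F t)

/-- **GTF** facts on the truncated kernel: `0 ≤ gT ≤ gg` off the diagonal (`gg = -log(1-KK)/2`,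
`1 - KK(x,x') = |x-x'|²/|1-x̄x'|²`), `gT T x x = (∑_{n≤T} 1/n)/2`, and uniform smallness of `∫ (gg - gT)`:
split at `|φ_x(t)| < δ` (small disc, area `≤ πδ'²`, integral of `log(2/|x-t|)`) and its complement
(`KK ≤ 1-δ²`, geometric tail). -/
def GTF : Prop :=
  (∀ (T : ℕ) (x t : ℂ), ‖x‖ < 1 → ‖t‖ < 1 → x ≠ t → 0 ≤ gT T x t ∧ gT T x t ≤ gg x t) ∧
  (∀ (T : ℕ) (x : ℂ), ‖x‖ < 1 → gT T x x = (∑ n ∈ Finset.range T, (1 : ℝ) / (n + 1)) / 2) ∧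
  (∀ x t : ℂ, ‖x‖ < 1 → ‖t‖ < 1 → 0 ≤ KK x t ∧ KK x t ≤ 1) ∧
  (∀ ε : ℝ, 0 < ε → ∃ T : ℕ, ∀ x ∈ ball (0 : ℂ) 1, ∫ t in ball (0 : ℂ) 1, (gg x t - gT T x t) ≤ ε) ∧
  (∀ x ∈ ball (0 : ℂ) 1, IntegrableOn (fun t => gg x t) (ball (0 : ℂ) 1))

/-- **ENS** energy inequality for points (from GRN, PDK, GTF with `F = (2/π) lap4 U`, `T = T(ε/L)`, `c = (∑_{n≤T} 1/n)/2`):
`2m∑(-U(x_i)) ≤ 2m∑∫gT F + 2mdε`, `∬gT F F ≤ ∬ gg F F = (2/π)∫(-U) lap4 U ≤ (2/π) H`,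
`∑_{i≠j} gT(x_i,x_j) ≤ ∑_{i≠j} gg(x_i,x_j)`, and `log|x_i-x_j| = -gg(x_i,x_j) + log|1 - x̄_i x_j| ≤ -gg + log 2`. -/
def ENS : Prop := ∀ L ε : ℝ, 0 < L → 0 < ε → ∃ c : ℝ, 0 ≤ c ∧ ∀ (U : ℂ → ℝ) (B H δ : ℝ), 0 < δ → δ < 1 →
  ContDiffOn ℝ ∞ U (ball 0 1) → (∀ x ∈ ball (0 : ℂ) 1, 0 ≤ lap4 U x ∧ lap4 U x ≤ L) →
  (∀ x : ℂ, 1 - δ < ‖x‖ → ‖x‖ < 1 → U x = B * Real.log ‖x‖) →
  ∫ x in ball (0 : ℂ) 1, (-U x) * lap4 U x ≤ H →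
  ∀ (d : ℕ) (x : Fin d → ℂ) (m : ℝ), (∀ i, ‖x i‖ < 1) → Function.Injective x → 0 ≤ m →
    2 * m * (∑ i, (-U (x i))) + (∑ i, ∑ j ∈ Finset.univ.erase i, Real.log ‖x i - x j‖) ≤
      (d : ℝ) ^ 2 * Real.log 2 + c * d + (2 / Real.pi) * m ^ 2 * H + 2 * m * d * ε

/-- **AND** bound of a Gram determinant (Andreief: `det ∫φ_i φ̄_j = (1/d!) ∫ |det φ_i(x_j)|² dμ^d`). -/
def ANDR : Prop := ∀ (μ : Measure ℂ) (S : Set ℂ) (d : ℕ) (φ : Fin d → ℂ → ℂ) (K Cb : ℝ),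
  IsFiniteMeasure μ → MeasurableSet S → μ Sᶜ = 0 → (∀ i, Measurable (φ i)) → (∀ i, ∀ x ∈ S, ‖φ i x‖ ≤ Cb) → 0 ≤ K →
  (∀ x : Fin d → ℂ, (∀ j, x j ∈ S) → ‖(Matrix.of fun i j => φ i (x j)).det‖ ^ 2 ≤ K) →
    ((Matrix.of fun i j : Fin d => ∫ x, φ i x * (starRingEnd ℂ) (φ j x) ∂μ).det).re ≤ K * (μ univ).toReal ^ d

/-- **FIS** Fischer's inequality for block matrices. -/
def FIS : Prop := ∀ (n d : ℕ) (T : Matrix (Fin n × Fin d) (Fin n × Fin d) ℂ), T.PosDef →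
  T.det.re ≤ ∏ k : Fin n, ((Matrix.of fun i j : Fin d => T (k, i) (k, j)).det).re

/-- **TOE** upper half of Szegoe's limit theorem (from FIS).  In the orthonormal basis
`e_ω = n^{-1/2} ∑_j e^{ijω} y^j`, `ω ∈ (2π/n)ℤ`, (unitary block change of basis by the DFT matrix) the diagonal blocks of
`Toep n d W` are the Fejer means `(1/2π)∫ W_t F_n(t-ω) dt` (up to conjugation), which converge uniformly to `W_ω`; by FIS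
`(1/n) log det ≤ (1/n) ∑_ω log det (W*F_n)(ω) → (1/2π)∫ log det W`. -/
def TOE : Prop := ∀ (d : ℕ) (W : ℝ → Matrix (Fin d) (Fin d) ℂ), Continuous W →
  (∀ t, W (t + 2 * Real.pi) = W t) → (∀ t, (W t).PosDef) → ∀ ε : ℝ, 0 < ε → ∃ N : ℕ, ∀ n ≥ N, 1 ≤ n →
    (Toep n d W).PosDef ∧ (1 / (n : ℝ)) * Real.log ((Toep n d W).det.re) ≤
      (1 / (2 * Real.pi)) * (∫ t in (0 : ℝ)..(2 * Real.pi), Real.log ((W t).det.re)) + ε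

/-- **SZS** (from TOE).  `det (Toep (k+1)) = det S_k · det (Toep k)` with `S_k` the Schur complement of the lower right block
(which is `Toep k` by Toeplitz invariance), `S_k(p) = min {f* Toep(k+1) f : f_0 = p}`.  So some `k < n` has
`det S_k ≤ (det Toep n)^{1/n}`; simultaneous diagonalisation of `R`, `S_k` gives `p` with `p*Rp = 1`,
`p*S_k p ≤ (det S_k/det R)^{1/d}`. -/
def SZS : Prop := ∀ (d : ℕ) (W : ℝ → Matrix (Fin d) (Fin d) ℂ) (R : Matrix (Fin d) (Fin d) ℂ), 0 < d →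
  Continuous W → (∀ t, W (t + 2 * Real.pi) = W t) → (∀ t, (W t).PosDef) → R.PosDef → ∀ ε : ℝ, 0 < ε →
  ∃ (n : ℕ) (f : Fin (n + 1) → Fin d → ℂ), (star (f 0) ⬝ᵥ (R.mulVec (f 0))).re = 1 ∧
    (1 / (2 * Real.pi)) * (∫ t in (0 : ℝ)..(2 * Real.pi),
      (star (∑ j : Fin (n + 1), Complex.exp (Complex.I * ((j : ℕ) : ℂ) * t) • f j) ⬝ᵥ
        ((W t).mulVec (∑ j : Fin (n + 1), Complex.exp (Complex.I * ((j : ℕ) : ℂ) * t) • f j))).re) ≤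
      Real.exp ((1 / (d : ℝ)) * ((1 / (2 * Real.pi)) * (∫ t in (0 : ℝ)..(2 * Real.pi), Real.log ((W t).det.re)) -
        Real.log (R.det.re)) + ε)

/-- **POL** (from ENS, ANDR, SZS).  `U_θ(x) = a(x, r₁e^{iθ})`, `d = ⌈A m⌉`, `W_θ` = Gram matrix of `1, x, …, x^{d-1}` in
`L²(𝔻, e^{-2mU_θ} dλ)` (index so that `f* W f = ∫ |∑ f_i x^i|² e^{-2mU}`), `R = diag(4^{-i})` (norm on `|x| = 1/2`).
ANDR with `φ_i = x^i e^{-mU_θ}` and ENS (Vandermonde) give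
`log det W_θ ≤ d log π + d² log 2 + c d + (2/π) m² LE a (r₁e^{iθ}) + 2mdε'`; `-log det R = d(d-1) log 2`; so
`(1/d)(mean log det W - log det R) ≤ 2m (A (log 2 + 1/π) + ε/2)` for `m` large, and `f(x,y) = ∑ f_{j,i} x^i (y/r₁)^j`.
`LE a (y) = ∫ (-U) lap4 U` (HES); `lap4 U_θ` is bounded uniformly in `θ`, and `U_θ = B log|x|` for `|x| > 1 - δ`, uniformly in
`θ` (`Adm.germ` and `Rho.flat`; where `log|x|` is harmonic, `lap4 = 0`). -/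
def POL : Prop := ∀ (ρ a : C2 → ℝ) (B r₁ A : ℝ), Rho ρ → 0 < B → Adm ρ B a → 0 < r₁ → r₁ < Real.exp (-15) → 1 ≤ A →
  (1 / (2 * Real.pi)) * ∫ θ in (0 : ℝ)..(2 * Real.pi), LE a (cp r₁ θ) ≤ A ^ 2 →
  ∀ (ε : ℝ) (m₀ : ℕ), 0 < ε → ∃ (m : ℕ) (f : ℂ → ℂ → ℂ), m₀ ≤ m ∧ 1 ≤ m ∧
    Differentiable ℂ (fun p : ℂ × ℂ => f p.1 p.2) ∧ (∃ x₀ : ℂ, ‖x₀‖ = 1 / 2 ∧ 1 ≤ ‖f x₀ 0‖) ∧
    WE a m r₁ f ≤ Real.exp (2 * m * (3 / 2 * A + ε))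

/-- **PWB** pointwise bound.  Fix small `σ`.  `U*(x,θ) = sup_{|x'-(1-σ)x| ≤ σ} a(x', r₁e^{iθ})` is uniformly close to
`a(x, r₁e^{iθ})` (`a` extends continuously by `0` to `|x| = 1`, `|y| ≤ r₁`).  For each of finitely many `x`'s choose a polynomial
`h` with `U* ≤ Re h(r₁e^{iθ}) ≤ U* + ε` (Fejer / Stone-Weierstrass); then `|f(x',y)e^{-m h(y)}|²` is subharmonic in `y`:
for `|y| ≤ r' < r₁` it is at most `C_{r'}` times its mean over `|y| = r₁`, which is `≤ C ∫|f|²e^{-2ma}` after integrating over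
the disc `|x' - (1-σ)x| ≤ σ` (sub-mean value in `x'`).  So `|f((1-σ)x,y)| ≤ C e^{m(Re h(y) + J)}`, and `Re h(y)` is close to `a(x,y)`
for `|y|` close to `r₁`, and `≤ ε` for all `|y| ≤ r₁`. -/
def PWB : Prop := ∀ (ρ a : C2 → ℝ) (B r₁ ε : ℝ), Rho ρ → 0 < B → Adm ρ B a → 0 < r₁ → r₁ < Real.exp (-15) → 0 < ε →
  ∃ (σ r₂ : ℝ) (m₁ : ℕ), 0 < σ ∧ σ < 1 / 4 ∧ 0 < r₂ ∧ r₂ < r₁ ∧ ∀ (m : ℕ) (f : ℂ → ℂ → ℂ) (J : ℝ), m₁ ≤ m → 1 ≤ m →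
    Differentiable ℂ (fun p : ℂ × ℂ => f p.1 p.2) → 0 ≤ J → WE a m r₁ f ≤ Real.exp (2 * m * J) →
    (∀ x y : ℂ, ‖x‖ < 1 → r₂ ≤ ‖y‖ → ‖y‖ ≤ (r₂ + r₁) / 2 →
      ‖f ((1 - σ) * x) y‖ ≤ Real.exp (m * (a (pt x y) + J + ε))) ∧
    (∀ x y : ℂ, ‖x‖ < 1 → ‖y‖ ≤ (r₂ + r₁) / 2 → ‖f ((1 - σ) * x) y‖ ≤ Real.exp (m * (J + ε)))

/-- **GLU** (from PWB, MXL).  With `ε` small, `m` large, `b(x,y) = (1/2m) log(|f((1-σ)x,y)|² + δ) - Λ - 3ε` (smooth psh),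
`b ≤ a - ε/2` for `r₂ ≤ |y| ≤ (r₂+r₁)/2`, `b ≤ -ε/2 < a` near `|x| = 1`; put `ψ = mx (ε/2) b a` for `|y| < (r₂+r₁)/2` and `ψ = a` for
`|y| ≥ r₂` (they agree on the overlap).  At `x₀/(1-σ)`: `ψ ≥ b ≥ -Λ - 3ε`. -/
def GLU : Prop := ∀ (ρ a : C2 → ℝ) (B r₁ Λ : ℝ), Rho ρ → 0 < B → Adm ρ B a → 0 < r₁ → r₁ < Real.exp (-15) → 0 ≤ Λ →
  (∀ (ε : ℝ) (m₀ : ℕ), 0 < ε → ∃ (m : ℕ) (f : ℂ → ℂ → ℂ), m₀ ≤ m ∧ 1 ≤ m ∧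
    Differentiable ℂ (fun p : ℂ × ℂ => f p.1 p.2) ∧ (∃ x₀ : ℂ, ‖x₀‖ = 1 / 2 ∧ 1 ≤ ‖f x₀ 0‖) ∧
    WE a m r₁ f ≤ Real.exp (2 * m * (Λ + ε))) →
  ∃ ψ : C2 → ℝ, Adm ρ B ψ ∧ (∀ z ∈ Om, a z ≤ ψ z) ∧ (∀ z ∈ Om, r₁ ≤ ‖z 1‖ → ψ z = a z) ∧
    ∃ x₀ : ℂ, ‖x₀‖ ≤ 3 / 4 ∧ -(Λ + 1) ≤ ψ (pt x₀ 0)

end Pool.Agent.H53M
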