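import Mathlib
import Pool.Agent.H53M.Stm

/-!
# Project MD (helper53): stubs, phase 2 (for the final assembly)
-/

set_option autoImplicit false

open MeasureTheory Metric Set Filter Topology
open scoped ContDiff ComplexOrder

namespace Pool.Agent.H53M

open Pool.Agent.H805R2

/-- **ITG** (integrability; the densities are continuous on `Om` (HES) and vanish off a compact set, where
`a = Bρ` and `(hess ρ z).det = 0`; nonnegativity: `PosSemidef.det_nonneg`, `trace_adj_nonneg`). -/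
def ITG : Prop := ∀ (ρ a f : C2 → ℝ) (B : ℝ), Rho ρ → 0 < B → Adm ρ B a → ContinuousOn f Om →
  IntegrableOn (fun z => f z * dt a z) Om ∧ IntegrableOn (fun z => f z * DD a ρ z) Om ∧
  IntegrableOn (fun z => f z * maDensity a z) Om ∧
  ∀ z ∈ Om, 0 ≤ dt a z ∧ 0 ≤ DD a ρ z ∧ maDensity a z = 8 / Real.pi ^ 2 * dt a z

/-- **MUI** (`x ↦ pt x 0` is a closed measurable embedding: `MeasurableEmbedding.integral_map`; `ρ(x,0) < 0`). -/
def MUI : Prop := ∀ c : ℝ, 0 < c →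
  (∀ f : C2 → ℝ, ∫ z in Om, f z ∂(muD c) = c * ∫ x in ball (0 : ℂ) 1, f (pt x 0)) ∧
  (∀ f : C2 → ℝ, (∀ z, z ∉ Om → f z = 0) → ∫ z, f z ∂(muD c) = c * ∫ x in ball (0 : ℂ) 1, f (pt x 0)) ∧
  (∀ ρ : C2 → ℝ, Rho ρ → 0 < ∫ z in Om, (-ρ z) ∂(muD c)) ∧ muD c Om < ⊤

/-- **NEX** (elementary: the left side is `O(N^{-1/2})`). -/
def NEX : Prop := ∀ (c s CH CF M e N₀ : ℝ), 0 < c → 0 < s → 0 < CH → 0 < CF → 1 ≤ M → 0 < e → ∃ N : ℝ, N₀ ≤ N ∧ 16 ≤ N ∧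
  1 ≤ Real.sqrt (CF * (N / s + 2) * M) ∧
  c * (5 / (N - 1)) * (CH * (2 * Real.sqrt (CF * (N / s + 2) * M) + 1)) ≤ e

/-- **CUT** (test functions; `H805R2.cutoff`; the third item: multiply by a cutoff `κ(y)`). -/
def CUT : Prop :=
  (∀ K : Set C2, IsCompact K → K ⊆ Om → ∃ χ : C2 → ℝ, ContDiff ℝ ∞ χ ∧ HasCompactSupport χ ∧ tsupport χ ⊆ Om ∧
    (∀ z ∈ K, χ z = 1) ∧ ∀ z, 0 ≤ χ z ∧ χ z ≤ 1) ∧
  (∀ (χ f : C2 → ℝ), Continuous χ → HasCompactSupport χ → tsupport χ ⊆ Om → ContinuousOn f Om →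
    Continuous (fun z => χ z * f z) ∧ HasCompactSupport (fun z => χ z * f z) ∧
      tsupport (fun z => χ z * f z) ⊆ tsupport χ) ∧
  (∀ (χ : C2 → ℝ) (r : ℝ), Continuous χ → HasCompactSupport χ → tsupport χ ⊆ Om → (∀ z, 0 ≤ χ z ∧ χ z ≤ 1) → 0 < r →
    ∃ χ₂ : C2 → ℝ, Continuous χ₂ ∧ HasCompactSupport χ₂ ∧ tsupport χ₂ ⊆ tsupport χ ∧ (∀ z, 0 ≤ χ₂ z ∧ χ₂ z ≤ χ z) ∧
      (∀ z, r ≤ ‖z 1‖ → χ₂ z = 0) ∧ ∀ x : ℂ, χ₂ (pt x 0) = χ (pt x 0))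

/-- **LOW** (on `tsupport χ` one has `Bρ < u - η - τ ≤ v k - η - τ`, so `mx τ (v k - η) (Bρ) = v k - η` near each point of
`tsupport χ` (ρ is continuous on Om, v k continuous) and the densities agree; then `Appr`). -/
def LOW : Prop := ∀ (ρ u : C2 → ℝ) (ν : Measure C2) (B η τ : ℝ) (U : Set C2) (v : ℕ → C2 → ℝ) (χ : C2 → ℝ), Rho ρ →
  0 < B → 0 < η → 0 < τ → Appr u ν U v → Continuous χ → HasCompactSupport χ → tsupport χ ⊆ U →
  (∀ z ∈ tsupport χ, B * ρ z < u z - η - τ) →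
    Tendsto (fun k => ∫ z in Om, χ z * maDensity (mx τ (fun z => v k z - η) (fun z => B * ρ z)) z) atTop
      (𝓝 (∫ z, χ z ∂ν))

/-- **DIN** (Dini: `H805R2.dini_lt`). -/
def DIN : Prop := ∀ (u : C2 → ℝ) (ν : Measure C2) (U K : Set C2) (v : ℕ → C2 → ℝ) (F : C2 → ℝ), Appr u ν U v →
  IsCompact K → K ⊆ U → ContinuousOn F K → (∀ z ∈ K, u z < F z) → ∃ k0, ∀ k ≥ k0, ∀ z ∈ K, v k z < F z

/-- **EXT** (`H805R2.extract`; `Om` is open and bounded). -/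
def EXT : Prop := ∀ (u : C2 → ℝ) (ν : Measure C2) (K : Set C2), IsE0 Om u ν → IsCompact K → K ⊆ Om →
  ∃ (U : Set C2) (v : ℕ → C2 → ℝ), K ⊆ U ∧ Appr u ν U v

/-- **DEG** (degenerate case).  An `E₀` function which vanishes identically has zero measure: the approximants `v k` are psh
near any compact set and decrease to `0`, uniformly on compact sets (Dini), and for a cutoff `χ ≥ 0`:
`∫ χ DD v v = ∫ v DD χ v ≤ sup v · C_χ ∫_{tsupport χ} trace(hess v) ≤ C sup v · ∫ χ' trace(hess v) = C sup v ∫ v trace(hess χ')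
 ≤ C' (sup v)² → 0` (with `trace (hess v) = DD v (‖z‖²)`), so `∫ χ dν = 0` for all cutoffs `χ`. -/
def DEG : Prop := ∀ (ρ u : C2 → ℝ) (ν : Measure C2), Rho ρ → IsE0 Om u ν → (∀ z ∈ Om, u z = 0) →
  ∫ z in Om, (-ρ z) ∂ν = 0

end Pool.Agent.H53M
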