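import Mathlib
import Pool.Agent.H53M.StmB
import Pool.Agent.H805R2.Compare

set_option autoImplicit false
set_option maxHeartbeats 1000000

open MeasureTheory Metric Set Filter Topology
open scoped ContDiff ComplexOrder

namespace Pool.Agent.H53M.AD1

open Pool.Agent.H805R2

lemma hO : IsOpen Om := by
  have h0 : Continuous fun z : C2 => ‖z 0‖ := by fun_prop
  have h1 : Continuous fun z : C2 => ‖z 1‖ := by fun_prop
  exact (isOpen_lt h0 continuous_const).inter (isOpen_lt h1 continuous_const)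

theorem t (hM : Pool.Agent.H53M.MXL) (hH : Pool.Agent.H53M.HES) : Pool.Agent.H53M.AD1 := by
  intro ρ u ν B η τ U v hρ hu hB hη hτ hτη hUB hA
  obtain ⟨hm1, hm2, hm3, hm4, hm5, hmx, hmono, hmsp⟩ := hM
  obtain ⟨e1, e2, e3, e4, e5, e6, e7, e8, e9, e10⟩ := hH
  obtain ⟨a1, a2, a3, a4, a5, a6, a7, a8, a9, a10, a11⟩ := hA
  obtain ⟨k0, hk0⟩ := a8 (η / 4) (by positivity)
  have hρc : ContinuousOn ρ Om := hρ.sp.1.continuousOn
  refine ⟨k0, fun k hk => ?_⟩
  have hlt := hk0 k hk
  have hm := fun z => hmx τ (fun z => v k z - η) (fun z => B * ρ z) hτ z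
  have hB1 : ContDiffOn ℝ ∞ (fun z => B * ρ z) Om := contDiffOn_const.mul hρ.sp.1
  have hB2 : ∀ z ∈ Om, (hess (fun z => B * ρ z) z).PosSemidef := by
    intro z hz
    rw [e2 ρ B z (hρ.sp.1.contDiffAt (hO.mem_nhds hz))]
    exact (hρ.sp.2 z hz).smul (by exact_mod_cast hB.le)
  have hW : IsOpen {z | z ∈ Om ∧ -η / 2 < B * ρ z} := by
    have := (continuousOn_const.mul hρc : ContinuousOn (fun z => B * ρ z) Om).isOpen_inter_preimage hO
      (isOpen_Ioi (a := -η / 2))
    exact this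
  have hWeq : ∀ z ∈ {z | z ∈ Om ∧ -η / 2 < B * ρ z},
      mx τ (fun z => v k z - η) (fun z => B * ρ z) z = B * ρ z := by
    intro z hz
    apply (hm z).1
    have h1 := hlt z
    have h2 := hz.2
    linarith
  have hWev : ∀ z ∈ {z | z ∈ Om ∧ -η / 2 < B * ρ z},
      mx τ (fun z => v k z - η) (fun z => B * ρ z) =ᶠ[𝓝 z] fun z => B * ρ z := by
    intro z hz
    filter_upwards [hW.mem_nhds hz] with w hw
    exact hWeq w hw
  have hv1 : ContDiffOn ℝ ∞ (fun z => v k z - η) U := ((a3 k).sub contDiff_const).contDiffOn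
  have hv2 : ∀ z ∈ U, (hess (fun z => v k z - η) z).PosSemidef := by
    intro z hz
    have h1 : (fun z => v k z - η) = fun z => v k z + (fun _ : C2 => -η) z := by funext z; ring
    rw [h1, e1 (v k) (fun _ => -η) z (a3 k).contDiffAt contDiffAt_const, hess_const_zero, add_zero]
    exact a5 k z hz
  have hU := hmsp τ (fun z => v k z - η) (fun z => B * ρ z) U a1 hτ hv1 (hB1.mono a2) hv2
    (fun z hz => hB2 z (a2 hz))
  have hcov : ∀ z ∈ Om, z ∈ U ∨ z ∈ {z | z ∈ Om ∧ -η / 2 < B * ρ z} := by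
    intro z hz
    by_cases h : B * ρ z ≤ -η / 2
    · exact Or.inl (hUB z hz h)
    · exact Or.inr ⟨hz, not_le.1 h⟩
  refine ⟨⟨⟨?_, ?_⟩, ?_, ?_, ?_⟩, ?_⟩
  · intro z hz
    rcases hcov z hz with h | h
    · exact (hU.1.contDiffAt (a1.mem_nhds h)).contDiffWithinAt
    · exact ((hB1.contDiffAt (hO.mem_nhds hz)).congr_of_eventuallyEq (hWev z h)).contDiffWithinAt
  · intro z hz
    rcases hcov z hz with h | h
    · exact hU.2 z h
    · rw [hess_congr (hWev z h)]
      exact hB2 z hz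
  · intro z hz
    by_cases h : v k z - η ≤ B * ρ z - τ / 2
    · rw [(hm z).1 h]
      have := hρ.neg z hz
      nlinarith
    · have h1 := (hm z).2.2.2
      have h2 := hlt z
      have h3 : max (v k z - η) (B * ρ z) ≤ -(3 * η / 4) + τ / 2 := max_le (by linarith) (by linarith)
      linarith
  · intro z hz
    exact (le_max_right _ _).trans (hm z).2.2.1
  · obtain ⟨K, hK, hKO, hKb⟩ := hρ.bdry (η / (2 * B)) (by positivity)
    refine ⟨K, hK, hKO, fun z hz hzK => ?_⟩
    apply hWeq z ⟨hz, ?_⟩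
    have h2 := hKb z hz hzK
    have h3 : B * (-(η / (2 * B))) < B * ρ z := mul_lt_mul_of_pos_left h2 hB
    have h4 : B * (-(η / (2 * B))) = -η / 2 := by field_simp
    linarith
  · intro z hz
    have h1 := a7 k z hz
    have h2 := (le_max_left _ _).trans (hm z).2.2.1
    linarith

end Pool.Agent.H53M.AD1
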