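import Mathlib
import Pool.Agent.H53M.StmB
import Pool.Agent.H805R2.Compare

set_option autoImplicit false
set_option maxHeartbeats 1000000

open MeasureTheory Metric Set Filter Topology
open scoped ContDiff ComplexOrder

namespace Pool.Agent.H53M.AD2

open Pool.Agent.H805R2

lemma hO : IsOpen Om := by
  have h0 : Continuous fun z : C2 => ‖z 0‖ := by fun_prop
  have h1 : Continuous fun z : C2 => ‖z 1‖ := by fun_prop
  exact (isOpen_lt h0 continuous_const).inter (isOpen_lt h1 continuous_const)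

theorem t (hM : Pool.Agent.H53M.MXL) : Pool.Agent.H53M.AD2 := by
  intro ρ a B N hρ hB hA hN
  obtain ⟨hm1, hm2, hm3, hm4, hm5, hmx, hmono, hmsp⟩ := hM
  have hp2 : ∀ z ∈ Om, (hess (fun _ : C2 => (-N : ℝ)) z).PosSemidef := by
    intro z hz
    rw [hess_const_zero]
    exact Matrix.PosSemidef.zero
  have hm := fun z => hmx (1 / 2) a (fun _ => -N) (by norm_num) z
  refine ⟨hmsp (1 / 2) _ _ Om hO (by norm_num) hA.sp.1 contDiffOn_const hA.sp.2 hp2, ?_, ?_, ?_⟩
  · intro z hz
    by_cases h : -N + 1 / 4 ≤ a z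
    · rw [(hm z).2.1 (by linarith)]
      exact hA.nonpos z hz
    · have := (hm z).2.2.2
      have h' : max (a z) (-N) ≤ -N + 1 / 4 := max_le (not_le.1 h).le (by linarith)
      linarith
  · intro z hz
    exact (hA.ge z hz).trans ((le_max_left _ _).trans (hm z).2.2.1)
  · obtain ⟨K1, hK1, hK1O, hK1a⟩ := hA.germ
    obtain ⟨K2, hK2, hK2O, hK2a⟩ := hρ.bdry (1 / (2 * B)) (by positivity)
    refine ⟨K1 ∪ K2, hK1.union hK2, union_subset hK1O hK2O, ?_⟩
    intro z hz hzK
    have h1 := hK1a z hz (fun h => hzK (Or.inl h))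
    have h2 := hK2a z hz (fun h => hzK (Or.inr h))
    have h3 : B * (-(1 / (2 * B))) < B * ρ z := mul_lt_mul_of_pos_left h2 hB
    have h4 : B * (-(1 / (2 * B))) = -(1 / 2) := by field_simp
    rw [← h1]
    apply (hm z).2.1
    rw [h1]
    linarith

end Pool.Agent.H53M.AD2
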