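import Mathlib
import Pool.Agent.H53M.StmB
import Pool.Agent.H805R2.Compare

set_option autoImplicit false
set_option maxHeartbeats 1000000

open MeasureTheory Metric Set Filter Topology
open scoped ContDiff ComplexOrder RealInnerProductSpace

namespace Pool.Agent.H53M.AD3

open Pool.Agent.H805R2

lemma hO : IsOpen Om := by
  have h0 : Continuous fun z : C2 => ‖z 0‖ := by fun_prop
  have h1 : Continuous fun z : C2 => ‖z 1‖ := by fun_prop
  exact (isOpen_lt h0 continuous_const).inter (isOpen_lt h1 continuous_const)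

/-- the one variable function -/
noncomputable def qv (ε : ℝ) (y : ℂ) : ℝ := Real.log ((‖y‖ ^ 2 + ε ^ 2) / (1 + ε ^ 2)) / 2

lemma qv_smooth (ε : ℝ) (hε : 0 < ε) : ContDiff ℝ ∞ (qv ε) := by
  unfold qv
  apply ContDiff.div_const
  apply ContDiff.log
  · apply ContDiff.div_const
    exact (contDiff_norm_sq ℝ).add contDiff_const
  · intro y
    positivity

lemma qv_lap (ε : ℝ) (hε : 0 < ε) (y : ℂ) : lap4 (qv ε) y = ε ^ 2 / (2 * (‖y‖ ^ 2 + ε ^ 2) ^ 2) := by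
  have hN : ∀ y : ℂ, HasFDerivAt (fun y : ℂ => ‖y‖ ^ 2) ((2 : ℝ) • innerSL ℝ y) y := by
    intro y
    have := (hasStrictFDerivAt_norm_sq y).hasFDerivAt
    refine this.congr_fderiv ?_
    ext v
    simp
    ring
  have hpos : ∀ y : ℂ, 0 < ‖y‖ ^ 2 + ε ^ 2 := fun y => by positivity
  have h1 : ∀ y : ℂ, HasFDerivAt (qv ε) ((‖y‖ ^ 2 + ε ^ 2)⁻¹ • innerSL ℝ y) y := by
    intro y
    have e1 : qv ε = fun y => (Real.log (‖y‖ ^ 2 + ε ^ 2) - Real.log (1 + ε ^ 2)) * (1 / 2) := by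
      funext y
      unfold qv
      rw [Real.log_div (hpos y).ne' (by positivity)]
      ring
    rw [e1]
    have e2 := (((hN y).add_const (ε ^ 2)).log (hpos y).ne').sub_const (Real.log (1 + ε ^ 2)) |>.mul_const (1 / 2)
    refine e2.congr_fderiv ?_
    ext v
    simp
    ring
  have h2 : fderiv ℝ (qv ε) = fun y => (‖y‖ ^ 2 + ε ^ 2)⁻¹ • innerSL ℝ y := funext fun y => (h1 y).fderiv
  have h3 : HasFDerivAt (fun y : ℂ => (‖y‖ ^ 2 + ε ^ 2)⁻¹)
      (-((‖y‖ ^ 2 + ε ^ 2) ^ 2)⁻¹ • ((2 : ℝ) • innerSL ℝ y)) y := by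
    have := (hasDerivAt_inv (hpos y).ne').comp_hasFDerivAt y ((hN y).add_const (ε ^ 2))
    exact this
  have h4 : HasFDerivAt (fun y : ℂ => innerSL ℝ y) (innerSL ℝ : ℂ →L[ℝ] ℂ →L[ℝ] ℝ) y :=
    (innerSL ℝ : ℂ →L[ℝ] ℂ →L[ℝ] ℝ).hasFDerivAt
  have h5 := h3.smul h4
  have h6 : fderiv ℝ (fun y : ℂ => (‖y‖ ^ 2 + ε ^ 2)⁻¹ • (innerSL ℝ) y) y = _ := h5.fderiv
  unfold lap4
  rw [h2, h6]
  have hy : ‖y‖ ^ 2 = y.re ^ 2 + y.im ^ 2 := by
    rw [Complex.sq_norm, Complex.normSq_apply]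
    ring
  have i1 : inner ℝ y (1 : ℂ) = y.re := by simp [Complex.inner]
  have i2 : inner ℝ y Complex.I = y.im := by simp [Complex.inner]
  have i3 : inner ℝ (1 : ℂ) (1 : ℂ) = (1 : ℝ) := by simp [Complex.inner]
  have i4 : inner ℝ Complex.I Complex.I = (1 : ℝ) := by simp [Complex.inner]
  have hp := hpos y
  have j3 : ((innerSL ℝ : ℂ →L[ℝ] ℂ →L[ℝ] ℝ) 1) 1 = 1 := i3
  have j4 : ((innerSL ℝ : ℂ →L[ℝ] ℂ →L[ℝ] ℝ) Complex.I) Complex.I = 1 := i4
  simp only [add_apply, smul_apply, ContinuousLinearMap.smulRight_apply, innerSL_apply_apply, smul_eq_mul, i1, i2,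
    j3, j4]
  rw [hy] at hp ⊢
  field_simp
  ring

theorem t (hM : Pool.Agent.H53M.MXL) (hH : Pool.Agent.H53M.HES) : Pool.Agent.H53M.AD3 := by
  intro ρ b B s τ ε hρ hB hA hs hτ hε
  obtain ⟨hm1, hm2, hm3, hm4, hm5, hmx, hmono, hmsp⟩ := hM
  obtain ⟨e1, e2, e3, e4, e5, e6, e7, e8, e9, e10⟩ := hH
  have hvq : vv ε = fun z => qv ε (z 1) := rfl
  have hvs : ContDiff ℝ ∞ (vv ε) := by
    rw [hvq]
    have : ContDiff ℝ ∞ fun z : C2 => z 1 := by fun_prop
    exact (qv_smooth ε hε).comp this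
  have hvh : ∀ z, (hess (vv ε) z).PosSemidef := by
    intro z
    rw [hvq, e6 (qv ε) z (qv_smooth ε hε), qv_lap ε hε]
    have h0 : 0 ≤ ε ^ 2 / (2 * (‖z 1‖ ^ 2 + ε ^ 2) ^ 2) := by positivity
    have h1 : (!![0, 0; 0, ((ε ^ 2 / (2 * (‖z 1‖ ^ 2 + ε ^ 2) ^ 2) : ℝ) : ℂ)] : Matrix (Fin 2) (Fin 2) ℂ) =
        Matrix.diagonal ![0, ((ε ^ 2 / (2 * (‖z 1‖ ^ 2 + ε ^ 2) ^ 2) : ℝ) : ℂ)] := by
      ext i j
      fin_cases i <;> fin_cases j <;> simp
    rw [h1]
    apply Matrix.PosSemidef.diagonal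
    intro i
    fin_cases i
    · simp
    · simp only [Fin.mk_one, Matrix.cons_val_one, Matrix.cons_val_fin_one, Pi.zero_apply]
      exact_mod_cast h0
  have hv0 : ∀ z ∈ Om, vv ε z ≤ 0 := by
    intro z hz
    unfold vv
    have h1 : (‖z 1‖ ^ 2 + ε ^ 2) / (1 + ε ^ 2) ≤ 1 := by
      rw [div_le_one (by positivity)]
      have h2 := norm_nonneg (z 1)
      have h3 := hz.2
      nlinarith
    have h2 := Real.log_nonpos (by positivity) h1
    linarith
  have hfs : ContDiff ℝ ∞ (fun z => s * vv ε z - τ) := (contDiff_const.mul hvs).sub contDiff_const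
  have hfp : ∀ z ∈ Om, (hess (fun z => s * vv ε z - τ) z).PosSemidef := by
    intro z hz
    have h1 : (fun z => s * vv ε z - τ) = fun z => (fun w => s * vv ε w) z + (fun _ : C2 => -τ) z := by
      funext z; ring
    rw [h1, e1 (fun w => s * vv ε w) (fun _ => -τ) z (contDiff_const.mul hvs).contDiffAt contDiffAt_const,
      hess_const_zero, add_zero, e2 (vv ε) s z hvs.contDiffAt]
    exact (hvh z).smul (by exact_mod_cast hs)
  have hm := fun z => hmx (τ / 2) (fun z => s * vv ε z - τ) b (by positivity) z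
  have hsv : ∀ z ∈ Om, s * vv ε z - τ ≤ -τ := by
    intro z hz
    have := mul_nonpos_of_nonneg_of_nonpos hs (hv0 z hz)
    linarith
  refine ⟨hmsp (τ / 2) _ _ Om hO (by positivity) hfs.contDiffOn hA.sp.1 hfp hA.sp.2, ?_, ?_, ?_⟩
  · intro z hz
    have h0 := hsv z hz
    by_cases h : s * vv ε z - τ ≤ b z - τ / 2 / 2
    · rw [(hm z).1 h]
      exact hA.nonpos z hz
    · have h1 := (hm z).2.2.2
      have h2 : max (s * vv ε z - τ) (b z) ≤ -τ + τ / 4 := max_le (by linarith) (by linarith)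
      linarith
  · intro z hz
    exact (hA.ge z hz).trans ((le_max_right _ _).trans (hm z).2.2.1)
  · obtain ⟨K1, hK1, hK1O, hK1a⟩ := hA.germ
    obtain ⟨K2, hK2, hK2O, hK2a⟩ := hρ.bdry (τ / (2 * B)) (by positivity)
    refine ⟨K1 ∪ K2, hK1.union hK2, union_subset hK1O hK2O, ?_⟩
    intro z hz hzK
    have h1 := hK1a z hz (fun h => hzK (Or.inl h))
    have h2 := hK2a z hz (fun h => hzK (Or.inr h))
    have h3 : B * (-(τ / (2 * B))) < B * ρ z := mul_lt_mul_of_pos_left h2 hB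
    have h4 : B * (-(τ / (2 * B))) = -(τ / 2) := by field_simp
    rw [← h1]
    apply (hm z).1
    rw [h1]
    have h0 := hsv z hz
    linarith

end Pool.Agent.H53M.AD3
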