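import Mathlib
import Pool.Agent.H53M.StmB
import Pool.Agent.H805R2.Compare

set_option autoImplicit false
set_option maxHeartbeats 1000000

open MeasureTheory Metric Set Filter Topology
open scoped ContDiff ComplexOrder

namespace Pool.Agent.H53M.AD4

open Pool.Agent.H805R2

lemma hO : IsOpen Om := by
  have h0 : Continuous fun z : C2 => ‖z 0‖ := by fun_prop
  have h1 : Continuous fun z : C2 => ‖z 1‖ := by fun_prop
  exact (isOpen_lt h0 continuous_const).inter (isOpen_lt h1 continuous_const)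

theorem t (hM : Pool.Agent.H53M.MXL) (hH : Pool.Agent.H53M.HES) : Pool.Agent.H53M.AD4 := by
  intro ρ ψ₁ B κ hρ hB hA hκ
  obtain ⟨hm1, hm2, hm3, hm4, hm5, hmx, hmono, hmsp⟩ := hM
  obtain ⟨h1, h2, h3, h4, h5, h6, h7, h8, h9, h10⟩ := hH
  have hs1 : ContDiffOn ℝ ∞ (fun z => κ * ψ₁ z) Om := contDiffOn_const.mul hA.sp.1
  have hp1 : ∀ z ∈ Om, (hess (fun z => κ * ψ₁ z) z).PosSemidef := by
    intro z hz
    rw [h2 ψ₁ κ z (hA.sp.1.contDiffAt (hO.mem_nhds hz))]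
    exact (hA.sp.2 z hz).smul (by exact_mod_cast hκ.le)
  have hp2 : ∀ z ∈ Om, (hess (fun _ : C2 => (-4 : ℝ)) z).PosSemidef := by
    intro z hz
    rw [hess_const_zero]
    exact Matrix.PosSemidef.zero
  refine ⟨hmsp (1 / 2) _ _ Om hO (by norm_num) hs1 contDiffOn_const hp1 hp2, ?_⟩
  intro z hz
  have hm := hmx (1 / 2) (fun z => κ * ψ₁ z) (fun _ => -4) (by norm_num) z
  have hn := hA.nonpos z hz
  have hg := hA.ge z hz
  have hκn : κ * ψ₁ z ≤ 0 := mul_nonpos_of_nonneg_of_nonpos hκ.le hn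
  have hge : κ * ψ₁ z ≤ mx (1 / 2) (fun z => κ * ψ₁ z) (fun _ => -4) z := (le_max_left _ _).trans hm.2.2.1
  refine ⟨?_, hge, ?_, ?_⟩
  · by_cases h : -4 + 1 / 4 ≤ κ * ψ₁ z
    · rw [hm.2.1 (by linarith)]
      exact hκn
    · have := hm.2.2.2
      have h' : max (κ * ψ₁ z) (-4) ≤ -4 + 1 / 4 := max_le (not_le.1 h).le (by norm_num)
      linarith
  · intro h
    exact hm.1 (by linarith)
  · have h' : κ * (B * ρ z) ≤ κ * ψ₁ z := mul_le_mul_of_nonneg_left hg hκ.le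
    nlinarith

end Pool.Agent.H53M.AD4
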