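import Pool.Agent.H53M.Stm

/-!
Project MD (helper53), stub ANDR (helper67): Andreief's identity and the bound of a Gram determinant.
-/

set_option autoImplicit false

open MeasureTheory Metric Set Filter Topology
open scoped ContDiff ComplexOrder

namespace Pool.Agent.H53M.ANDR

theorem t : ANDR := by
  classical
  intro μ S d φ K Cb hμ hS hS0 hφ hCb hK hdet
  set ν : Measure (Fin d → ℂ) := Measure.pi fun _ => μ with hν
  have hae : ∀ᵐ x ∂μ, x ∈ S := by
    rw [ae_iff]
    exact hS0
  have haeν : ∀ᵐ x ∂ν, ∀ j, x j ∈ S := by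
    rw [ae_all_iff]
    intro j
    exact (Measure.tendsto_eval_ae_ae (μ := fun _ : Fin d => μ) (i := j)).eventually hae
  have hint : ∀ i j, Integrable (fun x => φ i x * (starRingEnd ℂ) (φ j x)) μ := by
    intro i j
    refine Integrable.of_bound (C := Cb * Cb) ?_ ?_
    · exact ((hφ i).mul (Complex.continuous_conj.measurable.comp (hφ j))).aestronglyMeasurable
    · filter_upwards [hae] with x hx
      rw [norm_mul, RCLike.norm_conj]
      have h1 := hCb i x hx
      have h2 := hCb j x hx
      exact mul_le_mul h1 h2 (norm_nonneg _) ((norm_nonneg _).trans h1)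
  -- the determinant as an integral
  set F : (Fin d → ℂ) → ℂ := fun x => (∏ i, φ i (x i)) *
    (Matrix.of fun i j : Fin d => (starRingEnd ℂ) (φ j (x i))).det with hF
  have hFm : Measurable F := by
    have hm : ∀ i j : Fin d, Measurable fun x : Fin d → ℂ => φ i (x j) := fun i j =>
      (hφ i).comp (measurable_pi_apply j)
    refine (Finset.measurable_prod _ fun i _ => hm i i).mul ?_
    simp only [Matrix.det_apply, Matrix.of_apply]
    refine Finset.measurable_sum _ fun σ _ => ?_
    refine Measurable.const_smul ?_ _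
    exact Finset.measurable_prod _ fun i _ => Complex.continuous_conj.measurable.comp (hm _ _)
  have h1 : (Matrix.of fun i j : Fin d => ∫ x, φ i x * (starRingEnd ℂ) (φ j x) ∂μ).det = ∫ x, F x ∂ν := by
    have e1 : ∀ x, F x = ∑ σ : Equiv.Perm (Fin d), ((Equiv.Perm.sign σ : ℤ) : ℂ) *
        ∏ i, (φ (σ i) (x (σ i)) * (starRingEnd ℂ) (φ i (x (σ i)))) := by
      intro x
      rw [hF]
      simp only [Matrix.det_apply', Matrix.of_apply, Finset.mul_sum]
      refine Finset.sum_congr rfl fun σ _ => ?_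
      rw [Finset.prod_mul_distrib, Equiv.prod_comp σ (fun i => φ i (x i))]
      ring
    simp only [e1]
    rw [integral_finsetSum]
    · rw [Matrix.det_apply']
      refine Finset.sum_congr rfl fun σ _ => ?_
      rw [integral_const_mul]
      congr 1
      have e2 : ∀ x : Fin d → ℂ, ∏ i, (φ (σ i) (x (σ i)) * (starRingEnd ℂ) (φ i (x (σ i)))) =
          ∏ i, (φ i (x i) * (starRingEnd ℂ) (φ (σ.symm i) (x i))) := by
        intro x
        rw [← Equiv.prod_comp σ (fun i => φ i (x i) * (starRingEnd ℂ) (φ (σ.symm i) (x i)))]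
        simp
      simp only [e2, Matrix.of_apply]
      rw [integral_fintype_prod_eq_prod (μ := fun _ : Fin d => μ)
        (f := fun i x => φ i x * (starRingEnd ℂ) (φ (σ.symm i) x))]
      rw [← Equiv.prod_comp σ (fun i => ∫ x, φ i x * (starRingEnd ℂ) (φ (σ.symm i) x) ∂μ)]
      simp
    · intro σ _
      refine Integrable.const_mul ?_ _
      have e2 : ∀ x : Fin d → ℂ, ∏ i, (φ (σ i) (x (σ i)) * (starRingEnd ℂ) (φ i (x (σ i)))) =
          ∏ i, (φ i (x i) * (starRingEnd ℂ) (φ (σ.symm i) (x i))) := by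
        intro x
        rw [← Equiv.prod_comp σ (fun i => φ i (x i) * (starRingEnd ℂ) (φ (σ.symm i) (x i)))]
        simp
      simp only [e2]
      exact Integrable.fintype_prod (μ := fun _ : Fin d => μ)
        (f := fun i x => φ i x * (starRingEnd ℂ) (φ (σ.symm i) x)) fun i => hint _ _
  have hFi : Integrable F ν := by
    obtain ⟨C, hC⟩ : ∃ C : ℝ, ∀ x : Fin d → ℂ, (∀ j, x j ∈ S) → ‖F x‖ ≤ C := by
      refine ⟨(∏ _i : Fin d, Cb) * (∑ _σ : Equiv.Perm (Fin d), ∏ _i : Fin d, Cb), fun x hx => ?_⟩
      rw [hF]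
      simp only [norm_mul, norm_prod]
      have hb : ∏ i, ‖φ i (x i)‖ ≤ ∏ _i : Fin d, Cb :=
        Finset.prod_le_prod (fun i _ => norm_nonneg _) fun i _ => hCb i _ (hx i)
      refine mul_le_mul hb ?_ (norm_nonneg _) ((Finset.prod_nonneg fun i _ => norm_nonneg _).trans hb)
      rw [Matrix.det_apply']
      refine (norm_sum_le _ _).trans (Finset.sum_le_sum fun σ _ => ?_)
      rw [norm_mul, norm_prod]
      have h3 : ‖(((Equiv.Perm.sign σ : ℤˣ) : ℤ) : ℂ)‖ = 1 := by
        rcases Int.units_eq_one_or (Equiv.Perm.sign σ) with h | h <;> rw [h] <;> simp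
      rw [h3, one_mul]
      refine Finset.prod_le_prod (fun i _ => norm_nonneg _) fun i _ => ?_
      rw [Matrix.of_apply, RCLike.norm_conj]
      exact hCb i _ (hx _)
    refine Integrable.of_bound (C := C) hFm.aestronglyMeasurable ?_
    filter_upwards [haeν] with x hx
    exact hC x hx
  -- permutation of the variables
  have h2 : ∀ τ : Equiv.Perm (Fin d), MeasurePreserving (fun (x : Fin d → ℂ) (i : Fin d) => x (τ i)) ν ν := by
    intro τ
    have := measurePreserving_piCongrLeft (fun _ : Fin d => μ) τ.symm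
    convert this using 1
    ext x i
    obtain ⟨j, rfl⟩ := τ.symm.surjective i
    rw [MeasurableEquiv.piCongrLeft_apply_apply, Equiv.apply_symm_apply]
  have h3 : ∀ τ : Equiv.Perm (Fin d), ∫ x, F (fun i => x (τ i)) ∂ν = ∫ x, F x ∂ν := by
    intro τ
    have hmp := h2 τ
    have e1 : ∫ y, F y ∂(Measure.map (fun (x : Fin d → ℂ) (i : Fin d) => x (τ i)) ν) =
        ∫ x, F (fun i => x (τ i)) ∂ν :=
      integral_map hmp.measurable.aemeasurable hFm.aestronglyMeasurable
    rw [← e1, hmp.map_eq]
  have h4 : ∀ x : Fin d → ℂ, ∑ τ : Equiv.Perm (Fin d), F (fun i => x (τ i)) =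
      ((‖(Matrix.of fun i j => φ i (x j)).det‖ ^ 2 : ℝ) : ℂ) := by
    intro x
    have e1 : ∀ τ : Equiv.Perm (Fin d), F (fun i => x (τ i)) =
        (((Equiv.Perm.sign τ : ℤ) : ℂ) * ∏ i, φ i (x (τ i))) *
        (Matrix.of fun i j : Fin d => (starRingEnd ℂ) (φ j (x i))).det := by
      intro τ
      rw [hF]
      simp only
      have e2 : (Matrix.of fun i j : Fin d => (starRingEnd ℂ) (φ j (x (τ i)))) =
          (Matrix.of fun i j : Fin d => (starRingEnd ℂ) (φ j (x i))).submatrix τ id := by
        ext i j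
        rfl
      rw [e2, Matrix.det_permute]
      ring
    simp only [e1]
    rw [← Finset.sum_mul]
    have e3 : ∑ τ : Equiv.Perm (Fin d), ((Equiv.Perm.sign τ : ℤ) : ℂ) * ∏ i, φ i (x (τ i)) =
        (Matrix.of fun i j => φ i (x j)).det := by
      rw [← Matrix.det_transpose, Matrix.det_apply']
      rfl
    have e4 : (Matrix.of fun i j : Fin d => (starRingEnd ℂ) (φ j (x i))).det =
        (starRingEnd ℂ) (Matrix.of fun i j => φ i (x j)).det := by
      rw [← Matrix.det_transpose (Matrix.of fun i j => φ i (x j)), RingHom.map_det]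
      rfl
    rw [e3, e4, Complex.mul_conj, Complex.normSq_eq_norm_sq]
  have h5 : ((d.factorial : ℕ) : ℂ) * ∫ x, F x ∂ν =
      ((∫ x, ‖(Matrix.of fun i j => φ i (x j)).det‖ ^ 2 ∂ν : ℝ) : ℂ) := by
    rw [← integral_complex_ofReal]
    simp only [← h4]
    rw [integral_finsetSum]
    · simp only [h3, Finset.sum_const, Finset.card_univ, Fintype.card_perm, Fintype.card_fin, nsmul_eq_mul]
    · intro τ _
      exact (h2 τ).integrable_comp_of_integrable hFi
  have h6 : ∫ x, ‖(Matrix.of fun i j => φ i (x j)).det‖ ^ 2 ∂ν ≤ K * (μ univ).toReal ^ d := by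
    have e1 : ∫ x, ‖(Matrix.of fun i j => φ i (x j)).det‖ ^ 2 ∂ν ≤ ∫ _x, K ∂ν := by
      refine integral_mono_of_nonneg (Eventually.of_forall fun x => by positivity) (integrable_const _) ?_
      filter_upwards [haeν] with x hx
      exact hdet x hx
    refine e1.trans (le_of_eq ?_)
    rw [integral_const, smul_eq_mul, mul_comm]
    congr 1
    rw [Measure.real, hν, Measure.pi_univ, Finset.prod_const, Finset.card_univ, Fintype.card_fin, ENNReal.toReal_pow]
  rw [h1]
  have h7 := congrArg Complex.re h5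
  rw [Complex.ofReal_re, Complex.mul_re, Complex.natCast_re, Complex.natCast_im, zero_mul, sub_zero] at h7
  have h8 : (1 : ℝ) ≤ (d.factorial : ℝ) := by exact_mod_cast Nat.one_le_iff_ne_zero.2 (Nat.factorial_ne_zero d)
  have h9 : 0 ≤ K * (μ univ).toReal ^ d := by positivity
  nlinarith

end Pool.Agent.H53M.ANDR
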