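import Mathlib
import Pool.Agent.H53M.Stm
import Pool.Agent.H805R2.Approx

set_option autoImplicit false

open MeasureTheory Metric Set Filter Topology
open scoped ContDiff ComplexOrder

namespace Pool.Agent.H53M.C0C

open Pool.Agent.H805R2 Pool.Agent.H53M

lemma Om_open : IsOpen Om := by
  have h0 : Continuous fun z : C2 => ‖z 0‖ := by fun_prop
  have h1 : Continuous fun z : C2 => ‖z 1‖ := by fun_prop
  exact (isOpen_lt h0 continuous_const).inter (isOpen_lt h1 continuous_const)

/-- a bounded continuous function on `Om` is integrable -/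
lemma integ {m : Measure C2} (hm : m Om < ⊤) {f : C2 → ℝ} (hf : ContinuousOn f Om) {b : ℝ}
    (hb : ∀ z ∈ Om, ‖f z‖ ≤ b) : IntegrableOn f Om m := by
  have : IsFiniteMeasure (m.restrict Om) := ⟨by rw [Measure.restrict_apply_univ]; exact hm⟩
  refine Integrable.of_bound (hf.aestronglyMeasurable Om_open.measurableSet) b ?_
  filter_upwards [ae_restrict_mem Om_open.measurableSet] with z hz using hb z hz

/-- the estimate for one measure -/
lemma est {m : Measure C2} (hm : m Om < ⊤) {f χ : C2 → ℝ} (hf : ContinuousOn f Om) {b ε M : ℝ} (hε : 0 ≤ ε)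
    (hM : (m Om).toReal ≤ M)
    (hf0 : ∀ z ∈ Om, 0 ≤ f z ∧ f z ≤ b) (hχ : Continuous χ) (hs : tsupport χ ⊆ Om) {K : Set C2}
    (h1 : ∀ z ∈ K, χ z = 1) (h01 : ∀ z, χ z ∈ Icc (0 : ℝ) 1) (hK : ∀ z ∈ Om, z ∉ K → f z ≤ ε) :
    |(∫ z in Om, f z ∂m) - ∫ z, χ z * f z ∂m| ≤ ε * M := by
  have e1 : ∫ z, χ z * f z ∂m = ∫ z in Om, χ z * f z ∂m := by
    rw [setIntegral_eq_integral_of_forall_compl_eq_zero]
    intro z hz
    have : χ z = 0 := by
      by_contra h
      exact hz (hs (subset_tsupport χ h))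
    rw [this, zero_mul]
  have i1 : IntegrableOn f Om m := integ hm hf (b := b) (fun z hz => by
    rw [Real.norm_eq_abs, abs_of_nonneg (hf0 z hz).1]; exact (hf0 z hz).2)
  have i2 : IntegrableOn (fun z => χ z * f z) Om m := integ hm (hχ.continuousOn.mul hf) (b := b) (fun z hz => by
    rw [Real.norm_eq_abs, abs_of_nonneg (mul_nonneg (h01 z).1 (hf0 z hz).1)]
    have := mul_le_mul_of_nonneg_right (h01 z).2 (hf0 z hz).1
    linarith [(hf0 z hz).2])
  rw [e1, ← integral_sub i1 i2]
  have : IsFiniteMeasure (m.restrict Om) := ⟨by rw [Measure.restrict_apply_univ]; exact hm⟩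
  have h2 : ‖∫ z in Om, (f z - χ z * f z) ∂m‖ ≤ ε * (m Om).toReal := by
    have := norm_setIntegral_le_of_norm_le_const (μ := m) (s := Om) (f := fun z => f z - χ z * f z) (C := ε) hm
      (fun z hz => by
        have ha : f z - χ z * f z = (1 - χ z) * f z := by ring
        rw [ha, Real.norm_eq_abs, abs_of_nonneg (mul_nonneg (by linarith [(h01 z).2]) (hf0 z hz).1)]
        by_cases hzK : z ∈ K
        · rw [h1 z hzK]; simpa using hε
        · have h3 := hK z hz hzK
          have h4 : (1 - χ z) * f z ≤ 1 * f z :=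
            mul_le_mul_of_nonneg_right (by linarith [(h01 z).1]) (hf0 z hz).1
          linarith)
    simpa [Measure.real] using this
  rw [← Real.norm_eq_abs]
  exact h2.trans (mul_le_mul_of_nonneg_left hM hε)

lemma ctn {χ f : C2 → ℝ} (hχ : Continuous χ) (hs : tsupport χ ⊆ Om) (hf : ContinuousOn f Om) :
    Continuous fun z => χ z * f z := by
  rw [continuous_iff_continuousAt]
  intro z
  by_cases hz : z ∈ tsupport χ
  · exact hχ.continuousAt.mul (hf.continuousAt (Om_open.mem_nhds (hs hz)))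
  · have : (fun z => χ z * f z) =ᶠ[𝓝 z] fun _ => 0 := by
      filter_upwards [notMem_tsupport_iff_eventuallyEq.1 hz] with y hy
      rw [hy]
      simp
    exact continuousAt_const.congr this.symm

theorem t : Pool.Agent.H53M.C0C := by
  intro ρ ν μ M hρ hν hμ hw ψ C hC hψ hψC
  have hbd : ∀ z ∈ Om, 0 ≤ -ψ z ∧ -ψ z ≤ C * 3 := by
    intro z hz
    refine ⟨by linarith [(hψC z hz).1], (hψC z hz).2.trans ?_⟩
    exact mul_le_mul_of_nonneg_left (by linarith [hρ.ge z hz]) hC
  have hνt : ∀ j, ν j Om < ⊤ := fun j => (hν j).trans_lt ENNReal.ofReal_lt_top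
  set M' : ℝ := max M 0 + (μ Om).toReal with hM'
  have hM0 : 0 ≤ M' := by positivity
  have hνM : ∀ j, (ν j Om).toReal ≤ M' := by
    intro j
    have h1 : (ν j Om).toReal ≤ max M 0 := by
      have := ENNReal.toReal_mono ENNReal.ofReal_ne_top (hν j)
      rwa [ENNReal.toReal_ofReal'] at this
    have h2 : 0 ≤ (μ Om).toReal := ENNReal.toReal_nonneg
    linarith
  have hμM : (μ Om).toReal ≤ M' := by
    have : 0 ≤ max M 0 := le_max_right _ _
    linarith
  rw [Metric.tendsto_atTop]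
  intro e he
  -- choose ε and t
  set ε : ℝ := e / (4 * (M' + 1)) with hεd
  have hε : 0 < ε := by positivity
  have hεM : ε * M' ≤ e / 4 := by
    rw [hεd, div_mul_eq_mul_div, div_le_div_iff₀ (by positivity) (by norm_num)]
    nlinarith
  obtain ⟨K, hKc, hKO, hK⟩ := hρ.bdry (ε / (C + 1)) (by positivity)
  have hKψ : ∀ z ∈ Om, z ∉ K → -ψ z ≤ ε := by
    intro z hz hzK
    have h1 := hK z hz hzK
    have h2 := (hψC z hz).2
    have h3 : C * (-ρ z) ≤ C * (ε / (C + 1)) := mul_le_mul_of_nonneg_left (by linarith) hC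
    have h4 : C * (ε / (C + 1)) ≤ ε := by
      rw [mul_div_assoc', div_le_iff₀ (by positivity)]
      nlinarith
    linarith
  obtain ⟨χ, hχs, hχc, hχO, hχ1, hχ01⟩ := cutoff hKc Om_open hKO
  have hχ := hχs.continuous
  have hψn : ContinuousOn (fun z => -ψ z) Om := hψ.neg
  have hg : Continuous fun z => χ z * (-ψ z) := ctn hχ hχO hψn
  have hgc : HasCompactSupport fun z => χ z * (-ψ z) := hχc.mul_right
  have hgO : tsupport (fun z => χ z * (-ψ z)) ⊆ Om := (tsupport_mul_subset_left).trans hχO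
  have hlim := hw _ hg hgc hgO
  rw [Metric.tendsto_atTop] at hlim
  obtain ⟨N, hN⟩ := hlim (e / 4) (by positivity)
  refine ⟨N, fun j hj => ?_⟩
  have h1 := est (hνt j) hψn hε.le (hνM j) hbd hχ hχO hχ1 hχ01 hKψ
  have h2 := est hμ hψn hε.le hμM hbd hχ hχO hχ1 hχ01 hKψ
  have h3 := hN j hj
  rw [Real.dist_eq] at h3 ⊢
  rw [abs_le] at h1 h2
  rw [abs_lt] at h3 ⊢
  constructor <;> linarith [h1.1, h1.2, h2.1, h2.2, h3.1, h3.2]

end Pool.Agent.H53M.C0C
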