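import Mathlib
import Pool.Agent.H53M.Stm
import Pool.Agent.H805R2.Approx

/-!
# Stub IBT: trilinear integration by parts on the bidisc
-/

set_option autoImplicit false

open MeasureTheory Metric Set Filter Topology
open scoped ContDiff ComplexOrder

namespace Pool.Agent.H53M.IBT

open Pool.Agent.H805R2

lemma tr_symm (A B : Matrix (Fin 2) (Fin 2) ℂ) : (A.adjugate * B).trace = (B.adjugate * A).trace := by
  rw [Matrix.adjugate_fin_two, Matrix.adjugate_fin_two, Matrix.trace_fin_two, Matrix.trace_fin_two]
  simp only [Matrix.mul_apply, Fin.sum_univ_two, Matrix.of_apply, Matrix.cons_val', Matrix.cons_val_zero,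
    Matrix.cons_val_one]
  ring

lemma DD_symm (a b : C2 → ℝ) (z : C2) : DD a b z = DD b a z := by
  unfold DD
  rw [tr_symm]

lemma Om_open : IsOpen Om := by
  have h : ∀ i : Fin 2, Continuous fun z : C2 => ‖z i‖ := fun i => by fun_prop
  exact (isOpen_lt (h 0) continuous_const).inter (isOpen_lt (h 1) continuous_const)

/-- the Hessian vanishes off the support -/
lemma hess_off {χ : C2 → ℝ} {z : C2} (hz : z ∉ tsupport χ) : hess χ z = 0 := by
  have h1 : χ =ᶠ[𝓝 z] fun _ => (0 : ℝ) := notMem_tsupport_iff_eventuallyEq.1 hz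
  rw [hess_congr h1, hess_const_zero]

lemma DD_off_left {χ : C2 → ℝ} (g : C2 → ℝ) {z : C2} (hz : z ∉ tsupport χ) : DD χ g z = 0 := by
  unfold DD
  rw [tr_symm, hess_off hz, mul_zero, Matrix.trace_zero, Complex.zero_re]

/-- the identity for global smooth functions -/
lemma glob (χ F G : C2 → ℝ) (hχ : ContDiff ℝ ∞ χ) (hχc : HasCompactSupport χ) (hF : ContDiff ℝ ∞ F)
    (hG : ContDiff ℝ ∞ G) : ∫ z, χ z * DD F G z = ∫ z, F z * DD χ G z := by
  have h := ibp G χ F hG hχ hF hχc
  have c1 : Continuous fun z => (F z : ℂ) * ((hess G z).adjugate * hess χ z).trace :=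
    (Complex.continuous_ofReal.comp hF.continuous).mul
      ((hess_continuous (hG.of_le ss_le)).matrix_adjugate.matrix_mul (hess_continuous (hχ.of_le ss_le))).matrix_trace
  have c2 : Continuous fun z => (χ z : ℂ) * ((hess G z).adjugate * hess F z).trace :=
    (Complex.continuous_ofReal.comp hχ.continuous).mul
      ((hess_continuous (hG.of_le ss_le)).matrix_adjugate.matrix_mul (hess_continuous (hF.of_le ss_le))).matrix_trace
  have s1 : HasCompactSupport fun z => (F z : ℂ) * ((hess G z).adjugate * hess χ z).trace := by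
    refine HasCompactSupport.intro hχc fun z hz => ?_
    rw [hess_off hz, mul_zero, Matrix.trace_zero, mul_zero]
  have s2 : HasCompactSupport fun z => (χ z : ℂ) * ((hess G z).adjugate * hess F z).trace := by
    refine HasCompactSupport.intro hχc fun z hz => ?_
    rw [image_eq_zero_of_notMem_tsupport hz, Complex.ofReal_zero, zero_mul]
  have i1 := c1.integrable_of_hasCompactSupport (μ := volume) s1
  have i2 := c2.integrable_of_hasCompactSupport (μ := volume) s2
  have r1 := integral_re i1
  have r2 := integral_re i2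
  have h' := congrArg Complex.re h
  have e1 : ∀ z, χ z * DD F G z = RCLike.re ((χ z : ℂ) * ((hess G z).adjugate * hess F z).trace) := by
    intro z
    rw [DD_symm]
    change _ = ((χ z : ℂ) * _).re
    rw [Complex.re_ofReal_mul]
    rfl
  have e2 : ∀ z, F z * DD χ G z = RCLike.re ((F z : ℂ) * ((hess G z).adjugate * hess χ z).trace) := by
    intro z
    rw [DD_symm]
    change _ = ((F z : ℂ) * _).re
    rw [Complex.re_ofReal_mul]
    rfl
  simp_rw [e1, e2]
  rw [r1, r2]
  exact h'.symm

theorem t : Pool.Agent.H53M.IBT := by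
  intro χ f g hχ hχc hχs hf hg
  obtain ⟨L, hL, hKL, hLV⟩ := exists_compact_between hχc Om_open hχs
  obtain ⟨φ, hφ, -, hφs, hφ1, -⟩ := cutoff hL Om_open hLV
  have hF : ContDiff ℝ ∞ fun z => φ z * f z := cutoff_mul_smooth Om_open hφ hf hφs
  have hG : ContDiff ℝ ∞ fun z => φ z * g z := cutoff_mul_smooth Om_open hφ hg hφs
  have near : ∀ (u : C2 → ℝ) (z : C2), z ∈ tsupport χ → (fun z => φ z * u z) =ᶠ[𝓝 z] u := by
    intro u z hz
    have h1 : interior L ∈ 𝓝 z := isOpen_interior.mem_nhds (hKL hz)
    filter_upwards [h1] with w hw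
    rw [hφ1 w (interior_subset hw), one_mul]
  have hnot : ∀ z, z ∉ Om → z ∉ tsupport χ := fun z hz h => hz (hχs h)
  rw [setIntegral_eq_integral_of_forall_compl_eq_zero (fun z hz => by
      rw [image_eq_zero_of_notMem_tsupport (hnot z hz), zero_mul]),
    setIntegral_eq_integral_of_forall_compl_eq_zero (fun z hz => by
      rw [DD_off_left g (hnot z hz), mul_zero])]
  have h := glob χ _ _ hχ hχc hF hG
  have e1 : ∀ z, χ z * DD f g z = χ z * DD (fun z => φ z * f z) (fun z => φ z * g z) z := by
    intro z
    by_cases hz : z ∈ tsupport χ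
    · unfold DD
      rw [hess_congr (near f z hz), hess_congr (near g z hz)]
    · rw [image_eq_zero_of_notMem_tsupport hz, zero_mul, zero_mul]
  have e2 : ∀ z, f z * DD χ g z = (φ z * f z) * DD χ (fun z => φ z * g z) z := by
    intro z
    by_cases hz : z ∈ tsupport χ
    · unfold DD
      rw [hess_congr (near g z hz), (near f z hz).eq_of_nhds]
    · rw [DD_off_left _ hz, DD_off_left _ hz, mul_zero, mul_zero]
  simp_rw [e1, e2]
  exact h

end Pool.Agent.H53M.IBT
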