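import Mathlib
import Pool.Agent.H53M.IBT

/-!
# Tools for the integral identities on admissible functions (helper45)
-/

set_option autoImplicit false

open MeasureTheory Metric Set Filter Topology
open scoped ContDiff ComplexOrder

namespace Pool.Agent.H53M.T45

open Pool.Agent.H805R2 Pool.Agent.H53M.IBT

/-! ### the mixed determinant -/

lemma tr_add (A B C : Matrix (Fin 2) (Fin 2) ℂ) : ((A + B).adjugate * C).trace =
    (A.adjugate * C).trace + (B.adjugate * C).trace := by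
  rw [tr_symm, mul_add, Matrix.trace_add, tr_symm C A, tr_symm C B]

lemma tr_smul (c : ℂ) (A C : Matrix (Fin 2) (Fin 2) ℂ) : ((c • A).adjugate * C).trace =
    c * (A.adjugate * C).trace := by
  rw [tr_symm, Matrix.mul_smul, Matrix.trace_smul, tr_symm C A, smul_eq_mul]

lemma tr_self (A : Matrix (Fin 2) (Fin 2) ℂ) : (A.adjugate * A).trace = 2 * A.det := by
  rw [Matrix.adjugate_mul, Matrix.trace_smul, Matrix.trace_one, Fintype.card_fin, smul_eq_mul]
  push_cast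
  ring

lemma smAt {f : C2 → ℝ} (hf : ContDiffOn ℝ ∞ f Om) {z : C2} (hz : z ∈ Om) : ContDiffAt ℝ ∞ f z :=
  hf.contDiffAt (Om_open.mem_nhds hz)

lemma DD_self (a : C2 → ℝ) (z : C2) : DD a a z = 2 * dt a z := by
  unfold DD dt
  rw [tr_self]
  simp

lemma DD_congr {a a' b b' : C2 → ℝ} {z : C2} (ha : a =ᶠ[𝓝 z] a') (hb : b =ᶠ[𝓝 z] b') : DD a b z = DD a' b' z := by
  unfold DD
  rw [hess_congr ha, hess_congr hb]

lemma dt_congr {a a' : C2 → ℝ} {z : C2} (ha : a =ᶠ[𝓝 z] a') : dt a z = dt a' z := by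
  unfold dt
  rw [hess_congr ha]

section

variable (hH : HES)

include hH

lemma DD_add {f g h : C2 → ℝ} (hf : ContDiffOn ℝ ∞ f Om) (hg : ContDiffOn ℝ ∞ g Om) {z : C2} (hz : z ∈ Om) :
    DD (fun w => f w + g w) h z = DD f h z + DD g h z := by
  unfold DD
  rw [hH.1 f g z (smAt hf hz) (smAt hg hz), tr_add, Complex.add_re]

lemma DD_smul {f h : C2 → ℝ} (c : ℝ) (hf : ContDiffOn ℝ ∞ f Om) {z : C2} (hz : z ∈ Om) :
    DD (fun w => c * f w) h z = c * DD f h z := by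
  unfold DD
  rw [hH.2.1 f c z (smAt hf hz), tr_smul, Complex.re_ofReal_mul]

lemma DD_sub {f g h : C2 → ℝ} (hf : ContDiffOn ℝ ∞ f Om) (hg : ContDiffOn ℝ ∞ g Om) {z : C2} (hz : z ∈ Om) :
    DD (fun w => f w - g w) h z = DD f h z - DD g h z := by
  have e : (fun w => f w - g w) = fun w => f w + (-1) * g w := by
    funext w
    ring
  have hg' : ContDiffOn ℝ ∞ (fun w => (-1) * g w) Om := contDiffOn_const.mul hg
  rw [e, DD_add hH hf hg' hz, DD_smul hH (-1) hg hz]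
  ring

lemma DD_add' {f g h : C2 → ℝ} (hf : ContDiffOn ℝ ∞ f Om) (hg : ContDiffOn ℝ ∞ g Om) {z : C2} (hz : z ∈ Om) :
    DD h (fun w => f w + g w) z = DD h f z + DD h g z := by
  rw [DD_symm, DD_add hH hf hg hz, DD_symm f, DD_symm g]

lemma DD_sub' {f g h : C2 → ℝ} (hf : ContDiffOn ℝ ∞ f Om) (hg : ContDiffOn ℝ ∞ g Om) {z : C2} (hz : z ∈ Om) :
    DD h (fun w => f w - g w) z = DD h f z - DD h g z := by
  rw [DD_symm, DD_sub hH hf hg hz, DD_symm f, DD_symm g]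

lemma DD_smul' {f h : C2 → ℝ} (c : ℝ) (hf : ContDiffOn ℝ ∞ f Om) {z : C2} (hz : z ∈ Om) :
    DD h (fun w => c * f w) z = c * DD h f z := by
  rw [DD_symm, DD_smul hH c hf hz, DD_symm f]

lemma hess_cont {f : C2 → ℝ} (hf : ContDiffOn ℝ ∞ f Om) : ContinuousOn (hess f) Om :=
  hH.2.2.2.1 f Om Om_open hf

lemma DD_cont {f g : C2 → ℝ} (hf : ContDiffOn ℝ ∞ f Om) (hg : ContDiffOn ℝ ∞ g Om) : ContinuousOn (DD f g) Om := by
  have h1 := continuousOn_iff_continuous_restrict.1 (hess_cont hH hf)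
  have h2 := continuousOn_iff_continuous_restrict.1 (hess_cont hH hg)
  have h3 := Complex.continuous_re.comp (h1.matrix_adjugate.matrix_mul h2).matrix_trace
  rw [continuousOn_iff_continuous_restrict]
  exact h3

lemma dt_cont {f : C2 → ℝ} (hf : ContDiffOn ℝ ∞ f Om) : ContinuousOn (dt f) Om := by
  have h1 := continuousOn_iff_continuous_restrict.1 (hess_cont hH hf)
  have h3 := Complex.continuous_re.comp h1.matrix_det
  rw [continuousOn_iff_continuous_restrict]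
  exact h3

end

lemma DD_nonneg {f g : C2 → ℝ} {z : C2} (hf : (hess f z).PosSemidef) (hg : (hess g z).PosSemidef) :
    0 ≤ DD f g z := trace_adj_nonneg _ _ hf hg

/-! ### compact supports -/

/-- `f` vanishes near the boundary -/
def Z (f : C2 → ℝ) : Prop := ∃ K : Set C2, IsCompact K ∧ K ⊆ Om ∧ ∀ z ∈ Om, z ∉ K → f z = 0

lemma integ {f : C2 → ℝ} (hf : ContinuousOn f Om) (hZ : Z f) : IntegrableOn f Om := by
  obtain ⟨K, hK, hKO, h⟩ := hZ
  have h1 : IntegrableOn f K := (hf.mono hKO).integrableOn_compact hK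
  have h2 : IntegrableOn f (Om \ K) := by
    refine (integrableOn_zero (s := Om \ K)).congr_fun (fun z hz => ?_) (Om_open.measurableSet.diff hK.measurableSet)
    exact (h z hz.1 hz.2).symm
  have h3 := h1.union h2
  rwa [union_sdiff_cancel hKO] at h3

lemma Z.mul_left {f g : C2 → ℝ} (h : Z g) : Z fun z => f z * g z := by
  obtain ⟨K, hK, hKO, h⟩ := h
  exact ⟨K, hK, hKO, fun z hz hz' => by simp [h z hz hz']⟩

lemma Z.mul_right {f g : C2 → ℝ} (h : Z f) : Z fun z => f z * g z := by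
  obtain ⟨K, hK, hKO, h⟩ := h
  exact ⟨K, hK, hKO, fun z hz hz' => by simp [h z hz hz']⟩

lemma Z.add {f g : C2 → ℝ} (hf : Z f) (hg : Z g) : Z fun z => f z + g z := by
  obtain ⟨K, hK, hKO, h⟩ := hf
  obtain ⟨L, hL, hLO, h'⟩ := hg
  refine ⟨K ∪ L, hK.union hL, union_subset hKO hLO, fun z hz hz' => ?_⟩
  rw [mem_union, not_or] at hz'
  simp only [h z hz hz'.1, h' z hz hz'.2, add_zero]

lemma Z.sub {f g : C2 → ℝ} (hf : Z f) (hg : Z g) : Z fun z => f z - g z := by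
  obtain ⟨K, hK, hKO, h⟩ := hf
  obtain ⟨L, hL, hLO, h'⟩ := hg
  refine ⟨K ∪ L, hK.union hL, union_subset hKO hLO, fun z hz hz' => ?_⟩
  rw [mem_union, not_or] at hz'
  simp only [h z hz hz'.1, h' z hz hz'.2, sub_zero]

/-- extension by zero -/
lemma ext0 {f : C2 → ℝ} (hf : ContDiffOn ℝ ∞ f Om) (hZ : Z f) :
    ∃ g : C2 → ℝ, ContDiff ℝ ∞ g ∧ HasCompactSupport g ∧ tsupport g ⊆ Om ∧ ∀ z ∈ Om, g =ᶠ[𝓝 z] f := by
  obtain ⟨K, hK, hKO, h⟩ := hZ
  have hts : tsupport (Om.indicator f) ⊆ K := by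
    apply closure_minimal _ hK.isClosed
    intro z hz
    by_contra hzK
    apply hz
    by_cases hzO : z ∈ Om
    · rw [indicator_of_mem hzO, h z hzO hzK]
    · rw [indicator_of_notMem hzO]
  have near : ∀ z ∈ Om, Om.indicator f =ᶠ[𝓝 z] f := fun z hz => by
    filter_upwards [Om_open.mem_nhds hz] with w hw
    rw [indicator_of_mem hw]
  refine ⟨Om.indicator f, ?_, hK.of_isClosed_subset (isClosed_tsupport _) hts, hts.trans hKO, near⟩
  rw [contDiff_iff_contDiffAt]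
  intro z
  by_cases hz : z ∈ Om
  · exact (smAt hf hz).congr_of_eventuallyEq (near z hz)
  · have h1 : z ∉ tsupport (Om.indicator f) := fun h' => hz (hKO (hts h'))
    exact contDiffAt_const.congr_of_eventuallyEq (notMem_tsupport_iff_eventuallyEq.1 h1)

/-- integration by parts with a function which vanishes near the boundary -/
lemma ibt {χ f g : C2 → ℝ} (hχ : ContDiffOn ℝ ∞ χ Om) (hZ : Z χ) (hf : ContDiffOn ℝ ∞ f Om)
    (hg : ContDiffOn ℝ ∞ g Om) : ∫ z in Om, χ z * DD f g z = ∫ z in Om, f z * DD χ g z := by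
  obtain ⟨χ', h1, h2, h3, h4⟩ := ext0 hχ hZ
  have h5 := IBT.t χ' f g h1 h2 h3 hf hg
  have e1 : ∫ z in Om, χ z * DD f g z = ∫ z in Om, χ' z * DD f g z :=
    setIntegral_congr_fun Om_open.measurableSet fun z hz => by
      simp only [(h4 z hz).eq_of_nhds]
  have e2 : ∫ z in Om, f z * DD χ g z = ∫ z in Om, f z * DD χ' g z :=
    setIntegral_congr_fun Om_open.measurableSet fun z hz => by
      simp only [DD_congr (h4 z hz) (Filter.EventuallyEq.refl _ g)]
  rw [e1, e2, h5]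

lemma DD_one (g : C2 → ℝ) (z : C2) : DD (fun _ => 1) g z = 0 := by
  unfold DD
  rw [tr_symm, hess_const_zero, mul_zero, Matrix.trace_zero, Complex.zero_re]

lemma int_zero {χ g : C2 → ℝ} (hχ : ContDiffOn ℝ ∞ χ Om) (hZ : Z χ) (hg : ContDiffOn ℝ ∞ g Om) :
    ∫ z in Om, DD χ g z = 0 := by
  have h := ibt (f := fun _ => 1) hχ hZ contDiffOn_const hg
  simp only [one_mul, DD_one, mul_zero, integral_zero] at h
  exact h.symm

/-! ### germs at the boundary -/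

/-- smooth and equal to `B ρ` near the boundary -/
def Germ (ρ : C2 → ℝ) (B : ℝ) (a : C2 → ℝ) : Prop :=
  ContDiffOn ℝ ∞ a Om ∧ Z fun z => a z - B * ρ z

lemma germ_rho {ρ : C2 → ℝ} (h : Rho ρ) : Germ ρ 1 ρ :=
  ⟨h.sp.1, ∅, isCompact_empty, empty_subset _, fun z _ _ => by ring⟩

lemma germ_adm {ρ : C2 → ℝ} {B : ℝ} {a : C2 → ℝ} (h : Adm ρ B a) : Germ ρ B a := by
  obtain ⟨K, hK, hKO, hz⟩ := h.germ
  exact ⟨h.sp.1, K, hK, hKO, fun z hzO hzK => by simp only [hz z hzO hzK, sub_self]⟩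

lemma Z_dt_rho {ρ : C2 → ℝ} (h : Rho ρ) : Z (dt ρ) := by
  obtain ⟨K, hK, hKO, hz⟩ := h.ma0
  exact ⟨K, hK, hKO, fun z hzO hzK => by unfold dt; rw [hz z hzO hzK, Complex.zero_re]⟩

/-- the mixed determinant of two germs vanishes near the boundary -/
lemma Z_DD (hH : HES) {ρ : C2 → ℝ} (hρ : Rho ρ) {B B' : ℝ} {a b : C2 → ℝ} (ha : Germ ρ B a) (hb : Germ ρ B' b) :
    Z (DD a b) := by
  obtain ⟨K, hK, hKO, h1⟩ := ha.2
  obtain ⟨L, hL, hLO, h2⟩ := hb.2
  obtain ⟨M, hM, hMO, h3⟩ := Z_dt_rho hρ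
  refine ⟨(K ∪ L) ∪ M, (hK.union hL).union hM, union_subset (union_subset hKO hLO) hMO, fun z hz hz' => ?_⟩
  rw [mem_union, mem_union, not_or, not_or] at hz'
  have hopen : IsOpen (Om \ (K ∪ L)) := Om_open.sdiff (hK.union hL).isClosed
  have hzU : z ∈ Om \ (K ∪ L) := ⟨hz, fun h => h.elim hz'.1.1 hz'.1.2⟩
  have e1 : a =ᶠ[𝓝 z] fun w => B * ρ w := by
    filter_upwards [hopen.mem_nhds hzU] with w hw
    have := h1 w hw.1 fun h => hw.2 (Or.inl h)
    linarith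
  have e2 : b =ᶠ[𝓝 z] fun w => B' * ρ w := by
    filter_upwards [hopen.mem_nhds hzU] with w hw
    have := h2 w hw.1 fun h => hw.2 (Or.inr h)
    linarith
  rw [DD_congr e1 e2, DD_smul hH B hρ.sp.1 hz, DD_smul' hH B' hρ.sp.1 hz, DD_self, h3 z hz hz'.2]
  ring

lemma Z_dt (hH : HES) {ρ : C2 → ℝ} (hρ : Rho ρ) {B : ℝ} {a : C2 → ℝ} (ha : Germ ρ B a) : Z (dt a) := by
  obtain ⟨K, hK, hKO, h⟩ := Z_DD hH hρ ha ha
  exact ⟨K, hK, hKO, fun z hz hz' => by have := h z hz hz'; rw [DD_self] at this; linarith⟩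

lemma int_DD (hH : HES) {ρ : C2 → ℝ} (hρ : Rho ρ) {B B' : ℝ} {a b g : C2 → ℝ} (ha : Germ ρ B a) (hb : Germ ρ B' b)
    (hg : ContinuousOn g Om) : IntegrableOn (fun z => g z * DD a b z) Om :=
  integ (hg.mul (DD_cont hH ha.1 hb.1)) (Z_DD hH hρ ha hb).mul_left

lemma int_dt (hH : HES) {ρ : C2 → ℝ} (hρ : Rho ρ) {B : ℝ} {a g : C2 → ℝ} (ha : Germ ρ B a)
    (hg : ContinuousOn g Om) : IntegrableOn (fun z => g z * dt a z) Om :=
  integ (hg.mul (dt_cont hH ha.1)) (Z_dt hH hρ ha).mul_left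

/-- the difference of two functions with the same germ -/
lemma Germ.sub {ρ : C2 → ℝ} {B : ℝ} {a b : C2 → ℝ} (ha : Germ ρ B a) (hb : Germ ρ B b) :
    ContDiffOn ℝ ∞ (fun z => b z - a z) Om ∧ Z fun z => b z - a z := by
  refine ⟨hb.1.sub ha.1, ?_⟩
  obtain ⟨K, hK, hKO, h⟩ := hb.2.sub ha.2
  exact ⟨K, hK, hKO, fun z hz hz' => by have := h z hz hz'; linarith⟩

end Pool.Agent.H53M.T45
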