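import Mathlib
import Pool.Agent.H53M.Tools45

/-!
# STK (helper45)
-/

set_option autoImplicit false

open MeasureTheory Metric Set Filter Topology
open scoped ContDiff ComplexOrder

namespace Pool.Agent.H53M.STK

open Pool.Agent.H805R2 Pool.Agent.H53M.T45 Pool.Agent.H53M.IBT

/-- the difference of the determinants is a mixed determinant -/
lemma dt_sub (hH : HES) {a b : C2 → ℝ} (ha : ContDiffOn ℝ ∞ a Om) (hb : ContDiffOn ℝ ∞ b Om) {z : C2}
    (hz : z ∈ Om) : DD (fun w => b w - a w) (fun w => a w + b w) z = 2 * (dt b z - dt a z) := by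
  rw [DD_sub hH hb ha hz, DD_add' hH ha hb hz, DD_add' hH ha hb hz, DD_self, DD_self, DD_symm b a]
  ring

theorem t (hH : HES) : STK := by
  intro ρ B a b hρ hAa hAb
  have ha := germ_adm hAa
  have hb := germ_adm hAb
  have h0 := int_zero (ha.sub hb).1 (ha.sub hb).2 (ha.1.add hb.1)
  have h1 : ∫ z in Om, DD (fun w => b w - a w) (fun w => a w + b w) z =
      2 * ∫ z in Om, (dt b z - dt a z) := by
    rw [← integral_const_mul]
    exact setIntegral_congr_fun Om_open.measurableSet fun z hz => dt_sub hH ha.1 hb.1 hz
  have ia : IntegrableOn (dt a) Om := by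
    have := int_dt hH hρ ha (g := fun _ => 1) continuousOn_const
    simpa using this
  have ib : IntegrableOn (dt b) Om := by
    have := int_dt hH hρ hb (g := fun _ => 1) continuousOn_const
    simpa using this
  have h2 : ∫ z in Om, (dt b z - dt a z) = (∫ z in Om, dt b z) - ∫ z in Om, dt a z := integral_sub ib ia
  have h3 : ∫ z in Om, DD (fun w => b w - a w) (fun w => a w + b w) z = 0 := h0
  rw [h1, h2] at h3
  linarith

end Pool.Agent.H53M.STK
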