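import Mathlib
import Pool.Agent.H53M.STK

/-!
# CMP (helper45)
-/

set_option autoImplicit false

open MeasureTheory Metric Set Filter Topology
open scoped ContDiff ComplexOrder

namespace Pool.Agent.H53M.CMP

open Pool.Agent.H805R2 Pool.Agent.H53M.T45 Pool.Agent.H53M.IBT

theorem t (hH : HES) : CMP := by
  intro ρ B a b ψ hρ hAa hAb hab hψ
  have ha := germ_adm hAa
  have hb := germ_adm hAb
  have hs := ha.sub hb
  have hadd : ContDiffOn ℝ ∞ (fun z => a z + b z) Om := ha.1.add hb.1
  have h0 := ibt hs.1 hs.2 hψ.1 hadd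
  have c1 : ContinuousOn (fun z => -ψ z) Om := hψ.1.continuousOn.neg
  have i1 : IntegrableOn (fun z => (-ψ z) * dt b z) Om := int_dt hH hρ hb c1
  have i2 : IntegrableOn (fun z => (-ψ z) * dt a z) Om := int_dt hH hρ ha c1
  have h1 : ∫ z in Om, ψ z * DD (fun z => b z - a z) (fun z => a z + b z) z =
      ∫ z in Om, 2 * ((-ψ z) * dt a z - (-ψ z) * dt b z) := by
    refine setIntegral_congr_fun Om_open.measurableSet fun z hz => ?_
    have e1 : DD (fun z => b z - a z) (fun z => a z + b z) z = 2 * (dt b z - dt a z) :=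
      STK.dt_sub hH ha.1 hb.1 hz
    rw [e1]
    ring
  rw [integral_const_mul, integral_sub i2 i1] at h1
  have h2 : 0 ≤ ∫ z in Om, (b z - a z) * DD ψ (fun z => a z + b z) z := by
    refine setIntegral_nonneg Om_open.measurableSet fun z hz => ?_
    refine mul_nonneg (sub_nonneg.2 (hab z hz)) (DD_nonneg (hψ.2 z hz) ?_)
    rw [hH.1 a b z (smAt ha.1 hz) (smAt hb.1 hz)]
    exact (hAa.sp.2 z hz).add (hAb.sp.2 z hz)
  have h3 : ∫ z in Om, (b z - a z) * DD ψ (fun z => a z + b z) z =
      ∫ z in Om, ψ z * DD (fun z => b z - a z) (fun z => a z + b z) z := h0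
  rw [h3, h1] at h2
  linarith

end Pool.Agent.H53M.CMP
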