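import Mathlib
import Pool.Agent.H53M.StmB
import Pool.Agent.H805R2.Approx

set_option autoImplicit false

open MeasureTheory Metric Set Filter Topology
open scoped ContDiff ComplexOrder

namespace Pool.Agent.H53M.CUT

open Pool.Agent.H805R2

lemma hO : IsOpen Om := by
  have h0 : Continuous fun z : C2 => ‖z 0‖ := by fun_prop
  have h1 : Continuous fun z : C2 => ‖z 1‖ := by fun_prop
  exact (isOpen_lt h0 continuous_const).inter (isOpen_lt h1 continuous_const)

theorem t : Pool.Agent.H53M.CUT := by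
  refine ⟨?_, ?_, ?_⟩
  · intro K hK hKO
    obtain ⟨χ, h1, h2, h3, h4, h5⟩ := cutoff hK hO hKO
    exact ⟨χ, h1, h2, h3, h4, fun z => ⟨(h5 z).1, (h5 z).2⟩⟩
  · intro χ f hχ hc hs hf
    refine ⟨?_, hc.mul_right, tsupport_mul_subset_left⟩
    rw [continuous_iff_continuousAt]
    intro z
    by_cases hz : z ∈ tsupport χ
    · exact hχ.continuousAt.mul (hf.continuousAt (hO.mem_nhds (hs hz)))
    · have h1 : (fun z => χ z * f z) =ᶠ[𝓝 z] fun _ => 0 := by
        filter_upwards [notMem_tsupport_iff_eventuallyEq.1 hz] with y hy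
        rw [hy]
        simp
      exact continuousAt_const.congr h1.symm
  · intro χ r hχ hc hs hb hr
    have hκ : Continuous fun z : C2 => max 0 (1 - ‖z 1‖ / r) := by fun_prop
    have hk : ∀ z : C2, 0 ≤ max 0 (1 - ‖z 1‖ / r) ∧ max 0 (1 - ‖z 1‖ / r) ≤ 1 := by
      intro z
      refine ⟨le_max_left _ _, max_le zero_le_one ?_⟩
      have : 0 ≤ ‖z 1‖ / r := by positivity
      linarith
    refine ⟨fun z => χ z * max 0 (1 - ‖z 1‖ / r), hχ.mul hκ, hc.mul_right, tsupport_mul_subset_left, ?_, ?_, ?_⟩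
    · intro z
      exact ⟨mul_nonneg (hb z).1 (hk z).1, mul_le_of_le_one_right (hb z).1 (hk z).2⟩
    · intro z hz
      have h1 : 1 - ‖z 1‖ / r ≤ 0 := by
        have : 1 ≤ ‖z 1‖ / r := by rw [le_div_iff₀ hr]; linarith
        linarith
      simp only [max_eq_left h1, mul_zero]
    · intro x
      have h1 : (pt x 0) 1 = 0 := by simp [pt]
      simp [h1]

end Pool.Agent.H53M.CUT
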