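import Mathlib
import Pool.Agent.H53M.StmB
import Pool.Agent.H805R2.Approx

set_option autoImplicit false

open MeasureTheory Metric Set Filter Topology
open scoped ContDiff ComplexOrder

namespace Pool.Agent.H53M.EXT

open Pool.Agent.H805R2

theorem t : Pool.Agent.H53M.EXT := by
  intro u ν K hu hK hKO
  have hO : IsOpen Om := by
    have h0 : Continuous fun z : C2 => ‖z 0‖ := by fun_prop
    have h1 : Continuous fun z : C2 => ‖z 1‖ := by fun_prop
    exact (isOpen_lt h0 continuous_const).inter (isOpen_lt h1 continuous_const)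
  obtain ⟨U, v, g1, g2, g3, g4, g5, g6, g7, g8, g9, g10, g11, g12⟩ :=
    extract hO hu.2.2.2.2.1 hu.2.2.1 hK hKO
  exact ⟨U, v, g2, g1, g3, g4, g5, g6, g7, g8, g9, g10, g11, g12⟩

end Pool.Agent.H53M.EXT
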