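import Mathlib
import Pool.Agent.H805R2.Compare
import Pool.Agent.H805R2.Approx
import Pool.Agent.H53M.Stm

set_option autoImplicit false
set_option maxHeartbeats 1000000

open MeasureTheory Metric Set Filter Topology
open scoped ContDiff ComplexOrder

namespace Pool.Agent.H53M.HES

open Pool.Agent.H53M Pool.Agent.H805R2

/-- a function which is smooth at `z` agrees near `z` with a `C²` function -/
lemma glob {n : ℕ} {f : Cn n → ℝ} {z : Cn n} (hf : ContDiffAt ℝ ∞ f z) :
    ∃ F : Cn n → ℝ, ContDiff ℝ 2 F ∧ f =ᶠ[𝓝 z] F := by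
  obtain ⟨u, hu, hfu⟩ := hf.contDiffOn (m := 2) ss_le (by simp)
  obtain ⟨V, hVu, hV, hzV⟩ := _root_.mem_nhds_iff.1 hu
  obtain ⟨r, hr, hrV⟩ := Metric.isOpen_iff.1 hV z hzV
  obtain ⟨χ', g1, g2, g3, g4, g5⟩ := cutoff (K := closedBall z (r / 2)) (V := V)
    (isCompact_closedBall z (r / 2)) hV
    ((closedBall_subset_ball (by linarith)).trans hrV)
  refine ⟨fun w => χ' w * f w, ?_, ?_⟩
  · rw [contDiff_iff_contDiffAt]
    intro w
    by_cases hw : w ∈ tsupport χ'
    · exact (g1.contDiffAt.of_le ss_le).mul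
        ((hfu.mono hVu).contDiffAt (hV.mem_nhds (g3 hw)))
    · have : (fun z => χ' z * f z) =ᶠ[𝓝 w] fun _ => 0 := by
        filter_upwards [notMem_tsupport_iff_eventuallyEq.1 hw] with y hy
        rw [hy]
        simp
      exact contDiffAt_const.congr_of_eventuallyEq this
  · filter_upwards [closedBall_mem_nhds z (by linarith : 0 < r / 2)] with w hw
    rw [g4 w hw, one_mul]

lemma entry {n : ℕ} {u : Cn n → ℝ} (hu : ContDiff ℝ 2 u) (z : Cn n) (j k : Fin n) :
    hess u z j k = ((D2 u z (bas j) (bas k) + D2 u z (Complex.I • bas j) (Complex.I • bas k) : ℝ) +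
      Complex.I * ((D2 u z (bas j) (Complex.I • bas k) - D2 u z (Complex.I • bas j) (bas k) : ℝ) : ℂ)) / 4 :=
  hess_eq_sesq hu z j k

lemma h1 (f g : C2 → ℝ) (z : C2) (hf : ContDiffAt ℝ ∞ f z) (hg : ContDiffAt ℝ ∞ g z) :
    hess (fun w => f w + g w) z = hess f z + hess g z := by
  obtain ⟨F, hF, e1⟩ := glob hf
  obtain ⟨G, hG, e2⟩ := glob hg
  have e3 : (fun w => f w + g w) =ᶠ[𝓝 z] fun w => F w + G w := e1.add e2
  rw [hess_congr e1, hess_congr e2, hess_congr e3]
  ext j k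
  rw [Matrix.add_apply, entry hF, entry hG, entry (hF.add hG), D2_add hF hG, D2_add hF hG,
    D2_add hF hG, D2_add hF hG]
  push_cast
  ring

lemma h2 (f : C2 → ℝ) (c : ℝ) (z : C2) (hf : ContDiffAt ℝ ∞ f z) :
    hess (fun w => c * f w) z = (c : ℂ) • hess f z := by
  obtain ⟨F, hF, e1⟩ := glob hf
  have e3 : (fun w => c * f w) =ᶠ[𝓝 z] fun w => c * F w := by
    filter_upwards [e1] with w hw
    rw [hw]
  rw [hess_congr e1, hess_congr e3]
  ext j k
  rw [Matrix.smul_apply, entry hF, entry (contDiff_const.mul hF), D2_const_mul c hF,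
    D2_const_mul c hF, D2_const_mul c hF, D2_const_mul c hF]
  push_cast
  rw [smul_eq_mul]
  ring

lemma h3 (f : C2 → ℝ) (z : C2) (hf : ContDiffAt ℝ ∞ f z) : (hess f z).IsHermitian := by
  obtain ⟨F, hF, e1⟩ := glob hf
  rw [hess_congr e1]
  exact hess_isHermitian hF z

lemma h4 (f : C2 → ℝ) (S : Set C2) (hS : IsOpen S) (hf : ContDiffOn ℝ ∞ f S) :
    ContinuousOn (hess f) S := by
  intro z hz
  obtain ⟨r, hr, hrV⟩ := Metric.isOpen_iff.1 hS z hz
  obtain ⟨χ', g1, g2, g3, g4, g5⟩ := cutoff (K := closedBall z (r / 2)) (V := S)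
    (isCompact_closedBall z (r / 2)) hS
    ((closedBall_subset_ball (by linarith)).trans hrV)
  have hs := cutoff_mul_smooth hS g1 hf g3
  have e : hess f =ᶠ[𝓝 z] hess fun w => χ' w * f w := by
    filter_upwards [ball_mem_nhds z (by linarith : 0 < r / 2)] with w hw
    apply hess_congr
    filter_upwards [isOpen_ball.mem_nhds hw] with y hy
    rw [g4 y (ball_subset_closedBall hy), one_mul]
  have hc : Continuous (hess fun w => χ' w * f w) := hess_continuous (hs.of_le ss_le)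
  exact (hc.continuousAt.congr e.symm).continuousWithinAt

/-- second derivative along a complex line -/
lemma line (F : C2 → ℝ) (hF : ContDiff ℝ 2 F) (p : C2) (j : Fin 2) (x v w : ℂ) :
    fderiv ℝ (fderiv ℝ fun x' : ℂ => F (p + x' • bas j)) x v w =
      D2 F (p + x • bas j) (v • bas j) (w • bas j) := by
  have hFd : ∀ y, DifferentiableAt ℝ F y := fun y => (hF.differentiable (by norm_num)).differentiableAt
  have hFd2 : ∀ y, DifferentiableAt ℝ (fderiv ℝ F) y := fun y =>
    ((hF.fderiv_right (m := 1) (by norm_num)).differentiable (by norm_num)).differentiableAt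
  obtain ⟨L, hL⟩ : ∃ L : ℂ →L[ℝ] C2, ∀ x, L x = x • bas j :=
    ⟨(ContinuousLinearMap.toSpanSingleton ℂ (bas j)).restrictScalars ℝ, fun x => by
      simp⟩
  have hA : ∀ y, HasFDerivAt (fun x' : ℂ => p + x' • bas j) L y := by
    intro y
    have h := (L.hasFDerivAt (x := y)).const_add p
    simpa only [hL] using h
  have e1 : (fderiv ℝ fun x' : ℂ => F (p + x' • bas j)) =
      fun y => (fderiv ℝ F (p + y • bas j)).comp L := by
    funext y
    exact ((hFd _).hasFDerivAt.comp y (hA y)).fderiv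
  have e2 : HasFDerivAt (fun y : ℂ => fderiv ℝ F (p + y • bas j))
      ((fderiv ℝ (fderiv ℝ F) (p + x • bas j)).comp L) x :=
    (hFd2 _).hasFDerivAt.comp x (hA x)
  have e3 : HasFDerivAt (fun y : ℂ => (fderiv ℝ F (p + y • bas j)).comp L)
      ((((ContinuousLinearMap.compL ℝ ℂ C2 ℝ).flip L)).comp
        ((fderiv ℝ (fderiv ℝ F) (p + x • bas j)).comp L)) x := by
    exact (((ContinuousLinearMap.compL ℝ ℂ C2 ℝ).flip L).hasFDerivAt).comp x e2
  rw [e1, e3.fderiv]
  simp [D2, hL]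

lemma re_entry (F : C2 → ℝ) (hF : ContDiff ℝ 2 F) (z : C2) (j : Fin 2) :
    (hess F z j j).re = (D2 F z (bas j) (bas j) + D2 F z (Complex.I • bas j) (Complex.I • bas j)) / 4 := by
  rw [entry hF]
  have h := (hF.contDiffAt (x := z)).isSymmSndFDerivAt (by simp)
  have h' : D2 F z (bas j) (Complex.I • bas j) = D2 F z (Complex.I • bas j) (bas j) :=
    h.eq _ _
  rw [h', sub_self]
  have : ((D2 F z (bas j) (bas j) + D2 F z (Complex.I • bas j) (Complex.I • bas j) : ℝ) +
      Complex.I * ((0 : ℝ) : ℂ)) / 4 = (((D2 F z (bas j) (bas j) +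
        D2 F z (Complex.I • bas j) (Complex.I • bas j)) / 4 : ℝ) : ℂ) := by
    push_cast; ring
  rw [this, Complex.ofReal_re]

lemma pt_eq0 (x y : ℂ) : pt x y = pt 0 y + x • bas 0 := by
  ext i
  fin_cases i <;> simp [pt, bas]

lemma pt_eq1 (x y : ℂ) : pt x y = pt x 0 + y • bas 1 := by
  ext i
  fin_cases i <;> simp [pt, bas]

lemma pt_cont0 (y : ℂ) : Continuous fun x => pt x y := by
  have : (fun x => pt x y) = fun x => pt 0 y + x • bas 0 := funext fun x => pt_eq0 x y
  rw [this]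
  fun_prop

lemma pt_cont1 (x : ℂ) : Continuous fun y => pt x y := by
  have : (fun y => pt x y) = fun y => pt x 0 + y • bas 1 := funext fun y => pt_eq1 x y
  rw [this]
  fun_prop

lemma lap4_congr {u v : ℂ → ℝ} {x : ℂ} (h : u =ᶠ[𝓝 x] v) : lap4 u x = lap4 v x := by
  unfold lap4
  rw [h.fderiv.fderiv_eq]

lemma h5 (f : C2 → ℝ) (x y : ℂ) (hf : ContDiffAt ℝ ∞ f (pt x y)) :
    (hess f (pt x y) 0 0).re = lap4 (fun x' => f (pt x' y)) x ∧
    (hess f (pt x y) 1 1).re = lap4 (fun y' => f (pt x y')) y := by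
  obtain ⟨F, hF, e1⟩ := glob hf
  rw [hess_congr e1, re_entry F hF, re_entry F hF]
  have c0 : (fun x' => f (pt x' y)) =ᶠ[𝓝 x] fun x' => F (pt x' y) :=
    (pt_cont0 y).continuousAt.eventually e1
  have c1 : (fun y' => f (pt x y')) =ᶠ[𝓝 y] fun y' => F (pt x y') :=
    (pt_cont1 x).continuousAt.eventually e1
  rw [lap4_congr c0, lap4_congr c1]
  constructor
  · have e : (fun x' => F (pt x' y)) = fun x' : ℂ => F (pt 0 y + x' • bas 0) :=
      funext fun x' => by rw [pt_eq0]
    rw [e, lap4, line F hF, line F hF, ← pt_eq0, one_smul]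
  · have e : (fun y' => F (pt x y')) = fun y' : ℂ => F (pt x 0 + y' • bas 1) :=
      funext fun y' => by rw [pt_eq1]
    rw [e, lap4, line F hF, line F hF, ← pt_eq1, one_smul]

lemma h6 (q : ℂ → ℝ) (z : C2) (hq : ContDiff ℝ ∞ q) :
    hess (fun w => q (w 1)) z = !![0, 0; 0, ((lap4 q (z 1) : ℝ) : ℂ)] := by
  have hq2 : ContDiff ℝ 2 q := hq.of_le ss_le
  obtain ⟨P, hP⟩ : ∃ P : C2 →L[ℝ] ℂ, ∀ w, P w = w 1 :=
    ⟨(EuclideanSpace.proj (𝕜 := ℂ) (1 : Fin 2)).restrictScalars ℝ, fun w => by simp⟩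
  have hu : ContDiff ℝ 2 (fun w : C2 => q (w 1)) := by
    have : (fun w : C2 => q (w 1)) = fun w => q (P w) := funext fun w => by rw [hP]
    rw [this]
    exact hq2.comp P.contDiff
  have hqd : ∀ y, DifferentiableAt ℝ q y := fun y => (hq2.differentiable (by norm_num)).differentiableAt
  have hqd2 : ∀ y, DifferentiableAt ℝ (fderiv ℝ q) y := fun y =>
    ((hq2.fderiv_right (m := 1) (by norm_num)).differentiable (by norm_num)).differentiableAt
  have hD : ∀ ξ ζ : C2, D2 (fun w : C2 => q (w 1)) z ξ ζ =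
      fderiv ℝ (fderiv ℝ q) (z 1) (ξ 1) (ζ 1) := by
    intro ξ ζ
    have hA : ∀ y, HasFDerivAt (fun w : C2 => w 1) P y := by
      intro y
      have h := P.hasFDerivAt (x := y)
      have e : (fun w : C2 => w 1) = fun w => P w := funext fun w => (hP w).symm
      rw [e]
      exact h
    have e1 : (fderiv ℝ fun w : C2 => q (w 1)) = fun y => (fderiv ℝ q (y 1)).comp P := by
      funext y
      exact ((hqd _).hasFDerivAt.comp y (hA y)).fderiv
    have e2 : HasFDerivAt (fun y : C2 => fderiv ℝ q (y 1))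
        ((fderiv ℝ (fderiv ℝ q) (z 1)).comp P) z :=
      (hqd2 _).hasFDerivAt.comp z (hA z)
    have e3 : HasFDerivAt (fun y : C2 => (fderiv ℝ q (y 1)).comp P)
        ((((ContinuousLinearMap.compL ℝ C2 ℂ ℝ).flip P)).comp
          ((fderiv ℝ (fderiv ℝ q) (z 1)).comp P)) z := by
      exact (((ContinuousLinearMap.compL ℝ C2 ℂ ℝ).flip P).hasFDerivAt).comp z e2
    unfold D2
    rw [e1, e3.fderiv]
    simp [hP]
  have hsym := (hq2.contDiffAt (x := z 1)).isSymmSndFDerivAt (by simp)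
  have b01 : (bas 0 : C2) 1 = 0 := by simp [bas]
  have b11 : (bas 1 : C2) 1 = 1 := by simp [bas]
  have i01 : (Complex.I • bas 0 : C2) 1 = 0 := by simp [bas]
  have i11 : (Complex.I • bas 1 : C2) 1 = Complex.I := by simp [bas]
  ext j k
  rw [entry hu, hD, hD, hD, hD]
  fin_cases j <;> fin_cases k
  · simp [b01, i01]
  · simp [b01, i01, b11, i11]
  · simp [b01, i01, b11, i11]
  · simp only [Fin.mk_one, Fin.isValue, b11, i11]
    rw [hsym.eq Complex.I 1, sub_self]
    simp [lap4]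

lemma h7 (G : ℝ → ℝ) (f : C2 → ℝ) (z : C2) (hG : ContDiff ℝ ∞ G) (hf : ContDiffAt ℝ ∞ f z)
    (h0 : 0 ≤ deriv (deriv G) (f z)) :
    (hess (fun w => G (f w)) z - ((deriv G (f z) : ℝ) : ℂ) • hess f z).PosSemidef := by
  obtain ⟨F, hF, e1⟩ := glob hf
  have hG2 : ContDiff ℝ 2 G := hG.of_le ss_le
  have e3 : (fun w => G (f w)) =ᶠ[𝓝 z] fun w => G (F w) := by
    filter_upwards [e1] with w hw
    rw [hw]
  have e4 : f z = F z := e1.eq_of_nhds
  rw [e4] at h0 ⊢
  rw [hess_congr e1, hess_congr e3]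
  obtain ⟨c, hc⟩ : ∃ c : Fin 2 → ℂ, ∀ j, c j = (fderiv ℝ F z (bas j) : ℂ) -
      Complex.I * (fderiv ℝ F z (Complex.I • bas j) : ℂ) := ⟨fun j => _, fun j => rfl⟩
  have e5 : hess (fun w => G (F w)) z - ((deriv G (F z) : ℝ) : ℂ) • hess F z =
      ((deriv (deriv G) (F z) / 4 : ℝ) : ℂ) • Matrix.vecMulVec c (star c) := by
    ext j k
    have hGF : ContDiff ℝ 2 fun w => G (F w) := hG2.comp hF
    rw [Matrix.sub_apply, Matrix.smul_apply, Matrix.smul_apply, entry hF, entry hGF]
    rw [D2_comp hG2 hF, D2_comp hG2 hF, D2_comp hG2 hF, D2_comp hG2 hF, Matrix.vecMulVec_apply,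
      Pi.star_apply, hc, hc]
    simp only [Complex.star_def, map_sub, map_mul, Complex.conj_ofReal, Complex.conj_I, smul_eq_mul]
    push_cast
    linear_combination (((deriv (deriv G) (F z) : ℝ) : ℂ) / 4 *
      ((fderiv ℝ F z (Complex.I • bas j) : ℂ) * (fderiv ℝ F z (Complex.I • bas k) : ℂ))) *
        Complex.I_mul_I
  rw [e5]
  refine (Matrix.posSemidef_vecMulVec_self_star c).smul ?_
  exact_mod_cast (by positivity : (0 : ℝ) ≤ deriv (deriv G) (F z) / 4)

theorem t : Pool.Agent.H53M.HES := by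
  refine ⟨h1, h2, h3, h4, h5, h6, h7, ?_, ?_, ?_⟩
  · intro A B
    simp only [Matrix.adjugate_fin_two, Matrix.trace_fin_two, Matrix.mul_apply, Fin.sum_univ_two,
      Matrix.of_apply, Matrix.cons_val', Matrix.cons_val_zero, Matrix.cons_val_one,
      Matrix.cons_val_fin_one]
    ring
  · intro A B C
    simp only [Matrix.adjugate_fin_two, Matrix.trace_fin_two, Matrix.mul_apply, Fin.sum_univ_two,
      Matrix.of_apply, Matrix.cons_val', Matrix.cons_val_zero, Matrix.cons_val_one,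
      Matrix.cons_val_fin_one, Matrix.add_apply]
    ring
  · intro A
    simp only [Matrix.adjugate_fin_two, Matrix.trace_fin_two, Matrix.mul_apply, Fin.sum_univ_two,
      Matrix.of_apply, Matrix.cons_val', Matrix.cons_val_zero, Matrix.cons_val_one,
      Matrix.cons_val_fin_one, Matrix.det_fin_two]
    ring

end Pool.Agent.H53M.HES
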