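import Mathlib
import Pool.Agent.H53M.StmB
import Pool.Agent.H53M.Tools45
import Pool.Agent.H53M.HES
import Pool.Agent.H53M.EXT
import Pool.Agent.H53M.CUT
import Pool.Agent.H805R2.Sanity

/-!
# DEG (helper69): an `E₀` function which vanishes identically has zero measure
-/

set_option autoImplicit false

open MeasureTheory Metric Set Filter Topology
open scoped ContDiff ComplexOrder

namespace Pool.Agent.H53M.DEG

open Pool.Agent.H805R2 Pool.Agent.H53M.T45 Pool.Agent.H53M.IBT

lemma tr_bound (H A : Matrix (Fin 2) (Fin 2) ℂ) (hA : A.PosSemidef) (c : ℝ) (hc : ∀ i j, ‖H i j‖ ≤ c) :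
    ((H.adjugate * A).trace).re ≤ 2 * c * (A.trace).re := by
  have hc0 : 0 ≤ c := (norm_nonneg _).trans (hc 0 0)
  have hd : 0 ≤ A.det := hA.det_nonneg
  have h0 : 0 ≤ A 0 0 := hA.diag_nonneg
  have h1 : 0 ≤ A 1 1 := hA.diag_nonneg
  have hs : A 1 0 = star (A 0 1) := (hA.isHermitian.apply 1 0).symm
  rw [Complex.le_def] at hd h0 h1
  obtain ⟨h0r, h0i⟩ := h0
  obtain ⟨h1r, h1i⟩ := h1
  have e0 : A 0 0 = ((A 0 0).re : ℂ) := by
    apply Complex.ext <;> simp [← h0i]
  have e1 : A 1 1 = ((A 1 1).re : ℂ) := by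
    apply Complex.ext <;> simp [← h1i]
  have n0 : ‖A 0 0‖ = (A 0 0).re := by
    rw [e0, Complex.norm_real, Real.norm_eq_abs, abs_of_nonneg (by simpa using h0r), Complex.ofReal_re]
  have n1 : ‖A 1 1‖ = (A 1 1).re := by
    rw [e1, Complex.norm_real, Real.norm_eq_abs, abs_of_nonneg (by simpa using h1r), Complex.ofReal_re]
  have n10 : ‖A 1 0‖ = ‖A 0 1‖ := by rw [hs, norm_star]
  have hdet : ‖A 0 1‖ ^ 2 ≤ (A 0 0).re * (A 1 1).re := by
    have h := hd.1
    rw [Matrix.det_fin_two, hs, e0, e1] at h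
    have h2 : A 0 1 * star (A 0 1) = ((‖A 0 1‖ ^ 2 : ℝ) : ℂ) := by
      rw [Complex.star_def, Complex.mul_conj, Complex.normSq_eq_norm_sq]
    rw [h2] at h
    rw [← Complex.ofReal_mul, ← Complex.ofReal_sub, Complex.ofReal_re] at h
    simp only [Complex.zero_re] at h
    linarith
  have hoff : ‖A 0 1‖ ≤ ((A 0 0).re + (A 1 1).re) / 2 := by
    simp only [Complex.zero_re] at h0r h1r
    apply abs_le_of_sq_le_sq' _ (by positivity) |>.2
    nlinarith [sq_nonneg ((A 0 0).re - (A 1 1).re)]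
  have etr : (H.adjugate * A).trace = H 1 1 * A 0 0 - H 0 1 * A 1 0 + (- H 1 0 * A 0 1 + H 0 0 * A 1 1) := by
    rw [Matrix.adjugate_fin_two]
    simp [Matrix.trace, Fin.sum_univ_two, Matrix.vecMul, dotProduct]
    ring
  have eA : (A.trace).re = (A 0 0).re + (A 1 1).re := by
    simp [Matrix.trace, Fin.sum_univ_two]
  have b1 : ‖H 1 1 * A 0 0‖ ≤ c * (A 0 0).re := by
    rw [norm_mul, n0]; exact mul_le_mul_of_nonneg_right (hc 1 1) (by simpa using h0r)
  have b2 : ‖H 0 0 * A 1 1‖ ≤ c * (A 1 1).re := by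
    rw [norm_mul, n1]; exact mul_le_mul_of_nonneg_right (hc 0 0) (by simpa using h1r)
  have b3 : ‖H 0 1 * A 1 0‖ ≤ c * (((A 0 0).re + (A 1 1).re) / 2) := by
    rw [norm_mul, n10]; exact mul_le_mul (hc 0 1) hoff (norm_nonneg _) hc0
  have b4 : ‖H 1 0 * A 0 1‖ ≤ c * (((A 0 0).re + (A 1 1).re) / 2) := by
    rw [norm_mul]; exact mul_le_mul (hc 1 0) hoff (norm_nonneg _) hc0
  rw [etr, eA]
  refine (Complex.re_le_norm _).trans ?_
  have t1 := norm_add_le (H 1 1 * A 0 0 - H 0 1 * A 1 0) (- H 1 0 * A 0 1 + H 0 0 * A 1 1)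
  have t2 := norm_sub_le (H 1 1 * A 0 0) (H 0 1 * A 1 0)
  have t3 := norm_add_le (- H 1 0 * A 0 1) (H 0 0 * A 1 1)
  rw [neg_mul, norm_neg] at t3
  rw [neg_mul] at t1
  rw [neg_mul]
  linarith

/-- `‖z‖² - 1` -/
noncomputable def NN (z : C2) : ℝ := ‖z‖ ^ 2 - 1

lemma NN_smooth : ContDiffOn ℝ ∞ NN Om := (nsq_smooth (n := 2)).contDiffOn

lemma DD_NN (g : C2 → ℝ) (z : C2) : DD g NN z = ((hess g z).trace).re := by
  rw [DD_symm]
  unfold DD
  have h : hess NN z = 1 := nsq_hess z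
  rw [h, Matrix.adjugate_one, one_mul]

lemma Z_ts {χ : C2 → ℝ} (hc : HasCompactSupport χ) (hO : tsupport χ ⊆ Om) : Z χ :=
  ⟨tsupport χ, hc, hO, fun _ _ hz => image_eq_zero_of_notMem_tsupport hz⟩

lemma Z_DD_ts {χ : C2 → ℝ} (hc : HasCompactSupport χ) (hO : tsupport χ ⊆ Om) (g : C2 → ℝ) : Z (DD χ g) :=
  ⟨tsupport χ, hc, hO, fun _ _ hz => DD_off_left g hz⟩

/-- the main estimate -/
lemma main (χ χ' : C2 → ℝ) (hχ : ContDiff ℝ ∞ χ) (hχc : HasCompactSupport χ) (hχO : tsupport χ ⊆ Om)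
    (hχ' : ContDiff ℝ ∞ χ') (hχc' : HasCompactSupport χ') (hχO' : tsupport χ' ⊆ Om)
    (h1 : ∀ z ∈ tsupport χ, χ' z = 1) (h0 : ∀ z, 0 ≤ χ' z) : ∃ C : ℝ, 0 ≤ C ∧
    ∀ (v : C2 → ℝ) (η : ℝ), ContDiff ℝ ∞ v → 0 ≤ η → (∀ z ∈ Om, 0 ≤ v z ∧ v z ≤ η) →
      (∀ z ∈ tsupport χ', (hess v z).PosSemidef) → ∫ z in Om, χ z * dt v z ≤ C * η ^ 2 := by
  have hH := HES.t
  -- bound of the Hessian of `χ`
  obtain ⟨c, hc0, hc⟩ : ∃ c : ℝ, 0 ≤ c ∧ ∀ z ∈ tsupport χ, ∀ i j, ‖hess χ z i j‖ ≤ c := by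
    have hcont : ContinuousOn (hess χ) (tsupport χ) := (hess_cont hH hχ.contDiffOn).mono hχO
    have hb : ∀ i j, ∃ c : ℝ, 0 ≤ c ∧ ∀ z ∈ tsupport χ, ‖hess χ z i j‖ ≤ c := by
      intro i j
      have hcij : ContinuousOn (fun z => hess χ z i j) (tsupport χ) := by
        intro z hz
        exact ((continuous_apply_apply i j).continuousAt.comp_continuousWithinAt (hcont z hz))
      obtain ⟨c, hc⟩ := IsCompact.exists_bound_of_continuousOn hχc hcij
      exact ⟨max c 0, le_max_right _ _, fun z hz => (hc z hz).trans (le_max_left _ _)⟩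
    choose c hc0 hc using hb
    refine ⟨c 0 0 + c 0 1 + c 1 0 + c 1 1, by have := hc0 0 0; have := hc0 0 1; have := hc0 1 0; have := hc0 1 1; linarith, ?_⟩
    intro z hz i j
    have e := hc i j z hz
    have a00 := hc0 0 0
    have a01 := hc0 0 1
    have a10 := hc0 1 0
    have a11 := hc0 1 1
    fin_cases i <;> fin_cases j <;> simp only [Fin.zero_eta, Fin.mk_one, Fin.isValue] at e ⊢ <;> linarith
  set J : ℝ := ∫ z in Om, |DD χ' NN z| with hJ
  have hJ0 : 0 ≤ J := integral_nonneg fun z => abs_nonneg _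
  refine ⟨c * J, by positivity, ?_⟩
  intro v η hv hη hvb hpsd
  have hvO : ContDiffOn ℝ ∞ v Om := hv.contDiffOn
  have hχO1 : ContDiffOn ℝ ∞ χ Om := hχ.contDiffOn
  have hχO2 : ContDiffOn ℝ ∞ χ' Om := hχ'.contDiffOn
  have i1 : ∫ z in Om, χ z * DD v v z = ∫ z in Om, v z * DD χ v z := ibt hχO1 (Z_ts hχc hχO) hvO hvO
  have i2 : ∫ z in Om, χ' z * DD v NN z = ∫ z in Om, v z * DD χ' NN z :=
    ibt hχO2 (Z_ts hχc' hχO') hvO NN_smooth
  have cDD1 : ContinuousOn (DD χ v) Om := DD_cont hH hχO1 hvO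
  have cDD2 : ContinuousOn (DD v NN) Om := DD_cont hH hvO NN_smooth
  have cDD3 : ContinuousOn (DD χ' NN) Om := DD_cont hH hχO2 NN_smooth
  have g1 : IntegrableOn (fun z => v z * DD χ v z) Om :=
    integ (hv.continuous.continuousOn.mul cDD1) (Z_DD_ts hχc hχO v).mul_left
  have g2 : IntegrableOn (fun z => χ' z * DD v NN z) Om :=
    integ (hχ'.continuous.continuousOn.mul cDD2) (Z_ts hχc' hχO').mul_right
  have g3 : IntegrableOn (fun z => v z * DD χ' NN z) Om :=
    integ (hv.continuous.continuousOn.mul cDD3) (Z_DD_ts hχc' hχO' NN).mul_left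
  have g4 : IntegrableOn (fun z => |DD χ' NN z|) Om := by
    refine integ cDD3.abs ?_
    obtain ⟨K, hK, hKO, h⟩ := Z_DD_ts hχc' hχO' NN
    exact ⟨K, hK, hKO, fun z hz hz' => by simp only [h z hz hz', abs_zero]⟩
  have s1 : ∫ z in Om, v z * DD χ v z ≤ η * (2 * c) * ∫ z in Om, χ' z * DD v NN z := by
    rw [← integral_const_mul]
    refine setIntegral_mono_on g1 (g2.const_mul _) Om_open.measurableSet fun z hz => ?_
    obtain ⟨v0, v1⟩ := hvb z hz
    by_cases hz1 : z ∈ tsupport χ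
    · have hz2 : z ∈ tsupport χ' := by
        apply subset_tsupport
        rw [Function.mem_support, h1 z hz1]
        exact one_ne_zero
      have hA := hpsd z hz2
      have b1 : DD χ v z ≤ 2 * c * ((hess v z).trace).re := tr_bound _ _ hA c (hc z hz1)
      have b2 : 0 ≤ ((hess v z).trace).re := by
        have := hA.trace_nonneg
        exact (Complex.le_def.1 this).1
      rw [h1 z hz1, one_mul, DD_NN]
      have b3 : 0 ≤ 2 * c * ((hess v z).trace).re := by positivity
      calc v z * DD χ v z ≤ v z * (2 * c * ((hess v z).trace).re) := mul_le_mul_of_nonneg_left b1 v0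
        _ ≤ η * (2 * c * ((hess v z).trace).re) := mul_le_mul_of_nonneg_right v1 b3
        _ = _ := by ring
    · rw [DD_off_left v hz1, mul_zero]
      by_cases hz2 : z ∈ tsupport χ'
      · have b2 : 0 ≤ ((hess v z).trace).re := by
          have := (hpsd z hz2).trace_nonneg
          exact (Complex.le_def.1 this).1
        rw [DD_NN]
        have := h0 z
        positivity
      · rw [image_eq_zero_of_notMem_tsupport hz2, zero_mul, mul_zero]
  have s2 : ∫ z in Om, v z * DD χ' NN z ≤ η * J := by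
    rw [hJ, ← integral_const_mul]
    refine setIntegral_mono_on g3 (g4.const_mul _) Om_open.measurableSet fun z hz => ?_
    obtain ⟨v0, v1⟩ := hvb z hz
    calc v z * DD χ' NN z ≤ v z * |DD χ' NN z| := mul_le_mul_of_nonneg_left (le_abs_self _) v0
      _ ≤ η * |DD χ' NN z| := mul_le_mul_of_nonneg_right v1 (abs_nonneg _)
  have s3 : ∫ z in Om, χ z * DD v v z = 2 * ∫ z in Om, χ z * dt v z := by
    rw [← integral_const_mul]
    refine integral_congr_ae (Eventually.of_forall fun z => ?_)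
    simp only [DD_self]
    ring
  rw [i2] at s1
  have s4 : η * (2 * c) * ∫ z in Om, v z * DD χ' NN z ≤ η * (2 * c) * (η * J) :=
    mul_le_mul_of_nonneg_left s2 (by positivity)
  have s5 : 2 * ∫ z in Om, χ z * dt v z ≤ η * (2 * c) * (η * J) := by
    rw [← s3, i1]
    exact s1.trans s4
  nlinarith

theorem t : Pool.Agent.H53M.DEG := by
  intro ρ u ν _ hu hu0
  have hK0 : ∀ K : Set C2, IsCompact K → K ⊆ Om → ν K = 0 := by
    intro K hK hKO
    obtain ⟨χ, a1, a2, a3, a4, a5⟩ := CUT.t.1 K hK hKO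
    obtain ⟨χ', b1, b2, b3, b4, b5⟩ := CUT.t.1 (tsupport χ) a2 a3
    obtain ⟨U, v, hU, hA⟩ := EXT.t u ν (tsupport χ') hu b2 b3
    obtain ⟨p1, p2, p3, p4, p5, p6, p7, p8, p9, p10, p11⟩ := hA
    obtain ⟨C, hC0, hC⟩ := main χ χ' a1 a2 a3 b1 b2 b3 b4 (fun z => (b5 z).1)
    have hsub : tsupport χ ⊆ U := by
      intro z hz
      apply hU
      apply subset_tsupport
      rw [Function.mem_support, b4 z hz]
      exact one_ne_zero
    have hlim := p11 χ a1.continuous a2 hsub
    have hden : ∀ w : C2 → ℝ, ∫ z, χ z * maDensity w z = 8 / Real.pi ^ 2 * ∫ z in Om, χ z * dt w z := by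
      intro w
      have e1 : ∫ z, χ z * maDensity w z = ∫ z in Om, χ z * maDensity w z := by
        symm
        apply setIntegral_eq_integral_of_forall_compl_eq_zero
        intro z hz
        rw [image_eq_zero_of_notMem_tsupport fun h => hz (a3 h), zero_mul]
      rw [e1, ← integral_const_mul]
      refine integral_congr_ae (Eventually.of_forall fun z => ?_)
      simp only [maDensity, dt]
      have : ((2 : ℕ).factorial : ℝ) = 2 := by norm_num [Nat.factorial]
      rw [this, div_pow]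
      ring
    have hle : ∫ z, χ z ∂ν ≤ 0 := by
      refine le_of_forall_pos_le_add fun ε hε => ?_
      set D : ℝ := 8 / Real.pi ^ 2 * C + 1 with hD
      have hD0 : 0 < D := by positivity
      set η : ℝ := min 1 (ε / D) with hη
      have hη0 : 0 < η := by positivity
      obtain ⟨k0, hk0⟩ := p8 η hη0
      refine le_of_tendsto hlim (eventually_atTop.2 ⟨k0, fun k hk => ?_⟩)
      rw [hden, zero_add]
      have h1 := hC (v k) η (p3 k) hη0.le
        (fun z hz => ⟨by have := p7 k z hz; rw [hu0 z hz] at this; exact this, (hk0 k hk z).le⟩)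
        (fun z hz => p5 k z (hU hz))
      have h2 : η ^ 2 ≤ η := by
        have : η ≤ 1 := min_le_left _ _
        nlinarith
      have h3 : η ≤ ε / D := min_le_right _ _
      have h4 : D * η ≤ ε := by
        rw [le_div_iff₀ hD0] at h3
        linarith
      have h5 : 0 < 8 / Real.pi ^ 2 := by positivity
      calc 8 / Real.pi ^ 2 * ∫ z in Om, χ z * dt (v k) z ≤ 8 / Real.pi ^ 2 * (C * η ^ 2) :=
            mul_le_mul_of_nonneg_left h1 h5.le
        _ ≤ 8 / Real.pi ^ 2 * (C * η) := by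
            apply mul_le_mul_of_nonneg_left _ h5.le
            exact mul_le_mul_of_nonneg_left h2 hC0
        _ ≤ D * η := by
            rw [hD]
            nlinarith
        _ ≤ ε := h4
    have hfin : ν (tsupport χ) < ⊤ := hu.2.2.2.2.1.1 _ a2 a3
    have hint : Integrable χ ν := by
      have h1 : IntegrableOn χ (tsupport χ) ν := by
        refine ⟨a1.continuous.aestronglyMeasurable, ?_⟩
        have : IsFiniteMeasure (ν.restrict (tsupport χ)) := ⟨by rwa [Measure.restrict_apply_univ]⟩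
        exact HasFiniteIntegral.of_bounded (C := 1) (Eventually.of_forall fun z => by
          rw [Real.norm_eq_abs, abs_of_nonneg (a5 z).1]
          exact (a5 z).2)
      exact (integrableOn_iff_integrable_of_support_subset (subset_tsupport χ)).1 h1
    have hz : ∫ z, χ z ∂ν = 0 := le_antisymm hle (integral_nonneg fun z => (a5 z).1)
    have hae := (integral_eq_zero_iff_of_nonneg (fun z => (a5 z).1) hint).1 hz
    have : ν {z | ¬ χ z = (0 : C2 → ℝ) z} = 0 := hae
    refine measure_mono_null (fun z hz => ?_) this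
    show χ z ≠ 0
    rw [a4 z hz]
    exact one_ne_zero
  have hOm : ν Om = 0 := by
    refine measure_null_of_locally_null Om fun x hx => ?_
    obtain ⟨K, hK, hxK, hKO⟩ := exists_compact_subset Om_open hx
    exact ⟨K, mem_nhdsWithin_of_mem_nhds (mem_interior_iff_mem_nhds.1 hxK), hK0 K hK hKO⟩
  exact setIntegral_measure_zero _ hOm

end Pool.Agent.H53M.DEG
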