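import Mathlib
import Pool.Agent.H53M.StmB
import Pool.Agent.H805R2.Approx

set_option autoImplicit false

open MeasureTheory Metric Set Filter Topology
open scoped ContDiff ComplexOrder

namespace Pool.Agent.H53M.DIN

open Pool.Agent.H805R2

theorem t : Pool.Agent.H53M.DIN := by
  intro u ν U K v F hA hK hKU hF hlt
  obtain ⟨h1, h2, h3, h4, h5, h6, h7, h8, h9, h10, h11⟩ := hA
  exact dini_lt v u F hK (fun k => (h3 k).continuous.continuousOn) (fun z hz => h9 z (hKU hz))
    (fun z hz => h10 z (hKU hz)) hF hlt

end Pool.Agent.H53M.DIN
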