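import Mathlib
import Pool.Agent.H53M.IBT

/-! Project MD: common tools for QPO and ENE (helper41). -/

set_option autoImplicit false

open MeasureTheory Metric Set Filter Topology
open scoped ContDiff ComplexOrder

namespace Pool.Agent.H53M.QPOt

open Pool.Agent.H805R2 Pool.Agent.H53M.IBT

/-- functions continuous on `Om` and zero off a compact subset are integrable -/
lemma int_cs {h : C2 → ℝ} {K : Set C2} (hh : ContinuousOn h Om) (hK : IsCompact K) (hKO : K ⊆ Om)
    (h0 : ∀ z ∈ Om, z ∉ K → h z = 0) : IntegrableOn h Om := by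
  have h1 : IntegrableOn h K := (hh.mono hKO).integrableOn_compact hK
  have h2 : IntegrableOn h (Om \ K) := by
    have h3 : IntegrableOn (fun _ : C2 => (0 : ℝ)) (Om \ K) := integrableOn_zero
    refine h3.congr_fun (fun z hz => (h0 z hz.1 hz.2).symm) (Om_open.measurableSet.diff hK.isClosed.measurableSet)
  have h4 := h1.union h2
  rwa [union_sdiff_cancel hKO] at h4

/-- extension by zero -/
noncomputable def ext0 (h : C2 → ℝ) : C2 → ℝ := Om.indicator h

lemma ext0_mem {h : C2 → ℝ} {z : C2} (hz : z ∈ Om) : ext0 h z = h z := indicator_of_mem hz h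

lemma ext0_near {h : C2 → ℝ} {z : C2} (hz : z ∈ Om) : ext0 h =ᶠ[𝓝 z] h := by
  filter_upwards [Om_open.mem_nhds hz] with w hw
  exact ext0_mem hw

lemma ext0_off {h : C2 → ℝ} {K : Set C2} (h0 : ∀ z ∈ Om, z ∉ K → h z = 0) {z : C2} (hz : z ∉ K) :
    ext0 h z = 0 := by
  by_cases hO : z ∈ Om
  · rw [ext0_mem hO]; exact h0 z hO hz
  · exact indicator_of_notMem hO h

lemma ext0_ts {h : C2 → ℝ} {K : Set C2} (hK : IsCompact K) (h0 : ∀ z ∈ Om, z ∉ K → h z = 0) :
    tsupport (ext0 h) ⊆ K := by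
  apply closure_minimal _ hK.isClosed
  intro z hz
  by_contra hzK
  exact hz (ext0_off h0 hzK)

lemma ext0_cs {h : C2 → ℝ} {K : Set C2} (hK : IsCompact K) (h0 : ∀ z ∈ Om, z ∉ K → h z = 0) :
    HasCompactSupport (ext0 h) :=
  HasCompactSupport.intro hK fun _ hz => ext0_off h0 hz

lemma ext0_smooth {h : C2 → ℝ} {K : Set C2} (hh : ContDiffOn ℝ ∞ h Om) (hK : IsCompact K) (hKO : K ⊆ Om)
    (h0 : ∀ z ∈ Om, z ∉ K → h z = 0) : ContDiff ℝ ∞ (ext0 h) := by
  rw [contDiff_iff_contDiffAt]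
  intro z
  by_cases hz : z ∈ K
  · exact (hh.contDiffAt (Om_open.mem_nhds (hKO hz))).congr_of_eventuallyEq (ext0_near (hKO hz))
  · have h1 : ext0 h =ᶠ[𝓝 z] fun _ => 0 := by
      filter_upwards [hK.isClosed.isOpen_compl.mem_nhds hz] with w hw
      exact ext0_off h0 hw
    exact contDiffAt_const.congr_of_eventuallyEq h1

lemma DD_congr {a a' b b' : C2 → ℝ} {z : C2} (ha : a =ᶠ[𝓝 z] a') (hb : b =ᶠ[𝓝 z] b') :
    DD a b z = DD a' b' z := by
  unfold DD
  rw [hess_congr ha, hess_congr hb]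

lemma DD_ext0 {h : C2 → ℝ} (g : C2 → ℝ) {z : C2} (hz : z ∈ Om) : DD (ext0 h) g z = DD h g z :=
  DD_congr (ext0_near hz) (Filter.EventuallyEq.refl _ _)

/-- integration by parts with one factor vanishing near the boundary -/
lemma ibp0 {h f g : C2 → ℝ} {K : Set C2} (hh : ContDiffOn ℝ ∞ h Om) (hK : IsCompact K) (hKO : K ⊆ Om)
    (h0 : ∀ z ∈ Om, z ∉ K → h z = 0) (hf : ContDiffOn ℝ ∞ f Om) (hg : ContDiffOn ℝ ∞ g Om) :
    ∫ z in Om, h z * DD f g z = ∫ z in Om, f z * DD h g z := by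
  have h1 := IBT.t (ext0 h) f g (ext0_smooth hh hK hKO h0) (ext0_cs hK h0) ((ext0_ts hK h0).trans hKO) hf hg
  have e1 : ∫ z in Om, h z * DD f g z = ∫ z in Om, ext0 h z * DD f g z :=
    setIntegral_congr_fun Om_open.measurableSet fun z hz => by
      simp only [ext0_mem hz]
  have e2 : ∫ z in Om, f z * DD h g z = ∫ z in Om, f z * DD (ext0 h) g z :=
    setIntegral_congr_fun Om_open.measurableSet fun z hz => by
      simp only [DD_ext0 g hz]
  rw [e1, e2, h1]

lemma DD_one (g : C2 → ℝ) (z : C2) : DD (fun _ => (1 : ℝ)) g z = 0 := by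
  rw [DD_symm]
  unfold DD
  rw [hess_const_zero, mul_zero, Matrix.trace_zero, Complex.zero_re]

lemma mass0 {h g : C2 → ℝ} {K : Set C2} (hh : ContDiffOn ℝ ∞ h Om) (hK : IsCompact K) (hKO : K ⊆ Om)
    (h0 : ∀ z ∈ Om, z ∉ K → h z = 0) (hg : ContDiffOn ℝ ∞ g Om) : ∫ z in Om, DD h g z = 0 := by
  have h1 := ibp0 (f := fun _ => (1 : ℝ)) hh hK hKO h0 contDiffOn_const hg
  have e1 : ∫ z in Om, h z * DD (fun _ => (1 : ℝ)) g z = 0 := by
    simp only [DD_one, mul_zero, integral_zero]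
  rw [e1] at h1
  simpa using h1.symm

/-- matrix form -/
noncomputable def Dm (A B : Matrix (Fin 2) (Fin 2) ℂ) : ℝ := ((A.adjugate * B).trace).re

lemma DD_eq (a b : C2 → ℝ) (z : C2) : DD a b z = Dm (hess a z) (hess b z) := rfl

lemma Dm_symm (A B : Matrix (Fin 2) (Fin 2) ℂ) : Dm A B = Dm B A := by
  unfold Dm; rw [tr_symm]

lemma Dm_add_right (A B C : Matrix (Fin 2) (Fin 2) ℂ) : Dm A (B + C) = Dm A B + Dm A C := by
  unfold Dm; rw [mul_add, Matrix.trace_add, Complex.add_re]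

lemma Dm_sub_right (A B C : Matrix (Fin 2) (Fin 2) ℂ) : Dm A (B - C) = Dm A B - Dm A C := by
  unfold Dm; rw [mul_sub, Matrix.trace_sub, Complex.sub_re]

lemma Dm_smul_right (A B : Matrix (Fin 2) (Fin 2) ℂ) (c : ℝ) : Dm A ((c : ℂ) • B) = c * Dm A B := by
  unfold Dm; rw [Matrix.mul_smul, Matrix.trace_smul, smul_eq_mul, Complex.re_ofReal_mul]

lemma Dm_nonneg {A B : Matrix (Fin 2) (Fin 2) ℂ} (hA : A.PosSemidef) (hB : B.PosSemidef) : 0 ≤ Dm A B :=
  trace_adj_nonneg A B hA hB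

lemma cont_hess {f : C2 → ℝ} (hf : ContDiffOn ℝ ∞ f Om) : ContinuousOn (hess f) Om := by
  intro z hz
  -- replace `f` by a global smooth function near `z`
  obtain ⟨L, hL, hKL, hLV⟩ := exists_compact_between (isCompact_singleton (x := z)) Om_open (singleton_subset_iff.2 hz)
  obtain ⟨φ, hφ, -, hφs, hφ1, -⟩ := cutoff hL Om_open hLV
  have hF : ContDiff ℝ ∞ fun z => φ z * f z := cutoff_mul_smooth Om_open hφ hf hφs
  have hc := hess_continuous (hF.of_le ss_le)
  have hev : hess f =ᶠ[𝓝 z] hess (fun z => φ z * f z) := by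
    filter_upwards [isOpen_interior.mem_nhds (hKL (mem_singleton z))] with w hw
    apply hess_congr
    filter_upwards [isOpen_interior.mem_nhds hw] with u hu
    rw [hφ1 u (interior_subset hu), one_mul]
  exact (hc.continuousAt.congr hev.symm).continuousWithinAt

lemma cont_DD {f g : C2 → ℝ} (hf : ContDiffOn ℝ ∞ f Om) (hg : ContDiffOn ℝ ∞ g Om) : ContinuousOn (DD f g) Om := by
  have h1 := cont_hess hf
  have h2 := cont_hess hg
  rw [continuousOn_iff_continuous_domRestrict] at h1 h2 ⊢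
  have h3 : (Om.domRestrict (DD f g)) = fun z : Om => (((Om.domRestrict (hess f) z).adjugate * (Om.domRestrict (hess g) z)).trace).re := rfl
  rw [h3]
  exact Complex.continuous_re.comp ((h1.matrix_adjugate.matrix_mul h2).matrix_trace)

end Pool.Agent.H53M.QPOt
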