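import Mathlib
import Pool.Agent.H53M.QPOt

/-! Project MD, stub ENE (helper41): energy inequality, from HES, SYM, QPO. -/

set_option autoImplicit false

open MeasureTheory Metric Set Filter Topology
open scoped ContDiff ComplexOrder

namespace Pool.Agent.H53M.ENE

open Pool.Agent.H805R2 Pool.Agent.H53M.IBT Pool.Agent.H53M.QPOt

/-- smooth functions which are a multiple of `ρ` near the boundary -/
def Ger (ρ : C2 → ℝ) (c : ℝ) (v : C2 → ℝ) : Prop :=
  ContDiffOn ℝ ∞ v Om ∧ ∃ K : Set C2, IsCompact K ∧ K ⊆ Om ∧ ∀ z ∈ Om, z ∉ K → v z = c * ρ z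

lemma Ger.lin {ρ : C2 → ℝ} {c c' : ℝ} {v w : C2 → ℝ} (hv : Ger ρ c v) (hw : Ger ρ c' w) (s : ℝ) :
    Ger ρ (c + s * c') (fun z => v z + s * w z) := by
  obtain ⟨h1, K, hK, hKO, h2⟩ := hv
  obtain ⟨h1', K', hK', hKO', h2'⟩ := hw
  refine ⟨h1.add (contDiffOn_const.mul h1'), K ∪ K', hK.union hK', union_subset hKO hKO', fun z hz hzK => ?_⟩
  rw [mem_union, not_or] at hzK
  simp only
  rw [h2 z hz hzK.1, h2' z hz hzK.2]
  ring

section

variable (hadd : ∀ (f g : C2 → ℝ) (z : C2), ContDiffAt ℝ ∞ f z → ContDiffAt ℝ ∞ g z →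
    hess (fun w => f w + g w) z = hess f z + hess g z)
  (hsmul : ∀ (f : C2 → ℝ) (c : ℝ) (z : C2), ContDiffAt ℝ ∞ f z → hess (fun w => c * f w) z = (c : ℂ) • hess f z)

include hadd hsmul in
lemma DD_lin {v w u : C2 → ℝ} {z : C2} (hz : z ∈ Om) (hv : ContDiffOn ℝ ∞ v Om) (hw : ContDiffOn ℝ ∞ w Om) (s : ℝ) :
    DD (fun z => v z + s * w z) u z = DD v u z + s * DD w u z := by
  have hvz := hv.contDiffAt (Om_open.mem_nhds hz)
  have hwz := hw.contDiffAt (Om_open.mem_nhds hz)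
  rw [DD_eq, hadd v (fun z => s * w z) z hvz (contDiffAt_const.mul hwz), hsmul w s z hwz, Dm_symm, Dm_add_right,
    Dm_smul_right, Dm_symm, Dm_symm (hess u z)]
  rfl

include hsmul in
lemma off {ρ : C2 → ℝ} (hρ : Rho ρ) {c c' : ℝ} {v w : C2 → ℝ} (hv : Ger ρ c v) (hw : Ger ρ c' w) :
    ∃ K : Set C2, IsCompact K ∧ K ⊆ Om ∧ ∀ z ∈ Om, z ∉ K → DD v w z = 0 := by
  obtain ⟨h1, K, hK, hKO, h2⟩ := hv
  obtain ⟨h1', K', hK', hKO', h2'⟩ := hw
  obtain ⟨K₀, hK₀, hK₀O, hma⟩ := hρ.ma0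
  refine ⟨(K ∪ K') ∪ K₀, (hK.union hK').union hK₀, union_subset (union_subset hKO hKO') hK₀O, fun z hz hzK => ?_⟩
  rw [mem_union, mem_union, not_or, not_or] at hzK
  have e1 : v =ᶠ[𝓝 z] fun w => c * ρ w := by
    filter_upwards [Om_open.mem_nhds hz, hK.isClosed.isOpen_compl.mem_nhds hzK.1.1] with w hw hw2
    exact h2 w hw hw2
  have e2 : w =ᶠ[𝓝 z] fun w => c' * ρ w := by
    filter_upwards [Om_open.mem_nhds hz, hK'.isClosed.isOpen_compl.mem_nhds hzK.1.2] with w hw hw2
    exact h2' w hw hw2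
  have hρz := hρ.sp.1.contDiffAt (Om_open.mem_nhds hz)
  rw [DD_eq, hess_congr e1, hess_congr e2, hsmul ρ c z hρz, hsmul ρ c' z hρz, Dm_smul_right, Dm_symm, Dm_smul_right]
  have h3 : Dm (hess ρ z) (hess ρ z) = 0 := by
    unfold Dm
    rw [Matrix.adjugate_mul, hma z hz hzK.2, zero_smul, Matrix.trace_zero, Complex.zero_re]
  rw [h3, mul_zero, mul_zero]

include hsmul in
lemma ger_int {ρ : C2 → ℝ} (hρ : Rho ρ) {c c' : ℝ} {u v w : C2 → ℝ} (hu : ContinuousOn u Om) (hv : Ger ρ c v)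
    (hw : Ger ρ c' w) : IntegrableOn (fun z => u z * DD v w z) Om := by
  obtain ⟨K, hK, hKO, h0⟩ := off hsmul hρ hv hw
  apply int_cs (h := fun z => u z * DD v w z) (hu.mul (cont_DD hv.1 hw.1)) hK hKO
  intro z hz hzK
  rw [h0 z hz hzK, mul_zero]

end

lemma DD_self (a : C2 → ℝ) (z : C2) : DD a a z = 2 * dt a z := by
  unfold DD dt
  rw [Matrix.adjugate_mul, Matrix.trace_smul, Matrix.trace_one]
  simp
  ring

theorem t (hHES : Pool.Agent.H53M.HES) (hSYM : Pool.Agent.H53M.SYM) (hQPO : Pool.Agent.H53M.QPO) :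
    Pool.Agent.H53M.ENE := by
  obtain ⟨hadd, hsmul, -, -, -, -, -, -, -, -⟩ := hHES
  intro ρ B ak ai g hρ hak hai hg hki hkg
  have gk : Ger ρ B ak := ⟨hak.sp.1, hak.germ⟩
  have gi : Ger ρ B ai := ⟨hai.sp.1, hai.germ⟩
  have gg : Ger ρ B g := ⟨hg.sp.1, hg.germ⟩
  have gρ : Ger ρ 1 ρ := ⟨hρ.sp.1, ∅, isCompact_empty, empty_subset _, fun z _ _ => (one_mul _).symm⟩
  set h : C2 → ℝ := fun z => ai z + (-1) * ak z with hh
  have gh0 := gi.lin gk (-1)
  have gh : Ger ρ 0 h := by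
    have : B + -1 * B = 0 := by ring
    rw [this] at gh0
    exact gh0
  have ck := gk.1.continuousOn
  have ci := gi.1.continuousOn
  have cg := gg.1.continuousOn
  have cρ := gρ.1.continuousOn
  have ch := gh.1.continuousOn
  have mO := Om_open.measurableSet
  -- integration by parts with a compactly supported factor
  have ibp : ∀ {c₁ c₂ : ℝ} {χ u v : C2 → ℝ}, Ger ρ 0 χ → Ger ρ c₁ u → Ger ρ c₂ v →
      ∫ z in Om, χ z * DD u v z = ∫ z in Om, u z * DD χ v z := by
    intro c₁ c₂ χ u v hχ hu hv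
    obtain ⟨K, hK, hKO, h0⟩ := hχ.2
    exact ibp0 hχ.1 hK hKO (fun z hz hzK => by rw [h0 z hz hzK, zero_mul]) hu.1 hv.1
  have int : ∀ {c₁ c₂ : ℝ} {χ u v : C2 → ℝ}, ContinuousOn χ Om → Ger ρ c₁ u → Ger ρ c₂ v →
      IntegrableOn (fun z => χ z * DD u v z) Om := fun hχ hu hv => ger_int hsmul hρ hχ hu hv
  have pos : ∀ {a b : C2 → ℝ} {z : C2}, z ∈ Om → SP a → SP b → 0 ≤ DD a b z :=
    fun hz ha hb => Dm_nonneg (ha.2 _ hz) (hb.2 _ hz)
  have hneg : ∀ (u : C2 → ℝ) (v : C2 → ℝ), ∫ z in Om, (-u z) * v z = -∫ z in Om, u z * v z := by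
    intro u v
    rw [← integral_neg]
    congr 1
    funext z
    ring
  -- names for the integrals
  set X := ∫ z in Om, g z * DD g ρ z with hX
  have Xeq : X = 2 * ∫ z in Om, ρ z * dt g z := by
    have h1 := hSYM ρ B g g hρ hg hg
    rw [hneg, hneg] at h1
    have h2 : X = ∫ z in Om, ρ z * DD g g z := by linarith
    rw [h2, ← integral_const_mul]
    congr 1
    funext z
    rw [DD_self]
    ring
  -- (1)
  have gkg0 := gk.lin gg (-1)
  have gkg : Ger ρ 0 (fun z => ak z + (-1) * g z) := by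
    have : B + -1 * B = 0 := by ring
    rw [this] at gkg0
    exact gkg0
  have s1 : ∫ z in Om, g z * DD ak ρ z ≤ X := by
    have h1 := ibp gkg gg gρ
    have h2 : ∫ z in Om, g z * DD (fun z => ak z + (-1) * g z) ρ z =
        (∫ z in Om, g z * DD ak ρ z) - X := by
      rw [hX, ← integral_sub (int cg gk gρ) (int cg gg gρ)]
      apply setIntegral_congr_fun mO
      intro z hz
      simp only
      rw [DD_lin hadd hsmul hz gk.1 gg.1]
      ring
    have h3 : ∫ z in Om, (fun z => ak z + (-1) * g z) z * DD g ρ z ≤ 0 := by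
      apply setIntegral_nonpos mO
      intro z hz
      simp only
      have h4 := pos hz hg.sp hρ.sp
      have h5 := hkg z hz
      nlinarith
    rw [h1, h2] at h3
    linarith
  -- (2)
  have s2 : ∫ z in Om, g z * DD ai ρ z = (∫ z in Om, g z * DD ak ρ z) + ∫ z in Om, h z * DD g ρ z := by
    have h1 := ibp gh gg gρ
    rw [h1, ← integral_add (int cg gk gρ) (int cg gh gρ)]
    apply setIntegral_congr_fun mO
    intro z hz
    simp only
    rw [hh, DD_lin hadd hsmul hz gi.1 gk.1]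
    ring
  -- (3)
  have gs := gg.lin gh 1
  have s3 : 2 * (∫ z in Om, h z * DD g ρ z) ≤ -X - ∫ z in Om, h z * DD h ρ z := by
    have h0 := hQPO ρ (B + 1 * 0) (fun z => g z + 1 * h z) hρ gs.1 gs.2
    rw [hneg] at h0
    have h1 := ibp gh gg gρ
    have h2a : ∫ z in Om, g z * DD (fun z => g z + 1 * h z) ρ z = X + ∫ z in Om, g z * DD h ρ z := by
      rw [hX, ← integral_add (int cg gg gρ) (int cg gh gρ)]
      apply setIntegral_congr_fun mO
      intro z hz
      simp only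
      rw [DD_lin hadd hsmul hz gg.1 gh.1]
      ring
    have h2b : ∫ z in Om, h z * DD (fun z => g z + 1 * h z) ρ z =
        (∫ z in Om, h z * DD g ρ z) + ∫ z in Om, h z * DD h ρ z := by
      rw [← integral_add (int ch gg gρ) (int ch gh gρ)]
      apply setIntegral_congr_fun mO
      intro z hz
      simp only
      rw [DD_lin hadd hsmul hz gg.1 gh.1]
      ring
    have h2 : ∫ z in Om, (g z + 1 * h z) * DD (fun z => g z + 1 * h z) ρ z =
        ((X + ∫ z in Om, g z * DD h ρ z) + ∫ z in Om, h z * DD g ρ z) + ∫ z in Om, h z * DD h ρ z := by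
      rw [add_assoc (X + _), ← h2a, ← h2b, ← integral_add (int cg gs gρ) (int ch gs gρ)]
      apply setIntegral_congr_fun mO
      intro z _
      simp only
      ring
    rw [h2, ← h1] at h0
    linarith
  -- (4)
  have s4 : -(∫ z in Om, h z * DD h ρ z) ≤ 2 * (∫ z in Om, ρ z * dt ai z) - 2 * ∫ z in Om, ρ z * dt ak z := by
    have gs2 := gi.lin gk 1
    have h1 := ibp gh gρ gs2
    have h2 : ∫ z in Om, ρ z * DD h (fun z => ai z + 1 * ak z) z =
        2 * (∫ z in Om, ρ z * dt ai z) - 2 * ∫ z in Om, ρ z * dt ak z := by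
      have e1 : 2 * (∫ z in Om, ρ z * dt ai z) = ∫ z in Om, ρ z * DD ai ai z := by
        rw [← integral_const_mul]
        congr 1
        funext z
        rw [DD_self]
        ring
      have e2 : 2 * (∫ z in Om, ρ z * dt ak z) = ∫ z in Om, ρ z * DD ak ak z := by
        rw [← integral_const_mul]
        congr 1
        funext z
        rw [DD_self]
        ring
      rw [e1, e2, ← integral_sub (int cρ gi gi) (int cρ gk gk)]
      apply setIntegral_congr_fun mO
      intro z hz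
      simp only
      rw [hh, DD_lin hadd hsmul hz gi.1 gk.1, DD_symm ai, DD_symm ak,
        DD_lin hadd hsmul hz gi.1 gk.1, DD_lin hadd hsmul hz gi.1 gk.1, DD_symm ak ai]
      ring
    have h3 : -(∫ z in Om, h z * DD h ρ z) ≤ ∫ z in Om, h z * DD ρ (fun z => ai z + 1 * ak z) z := by
      rw [← integral_neg]
      apply setIntegral_mono_on (int ch gh gρ).neg (int ch gρ gs2) mO
      intro z hz
      have h4 := pos hz hak.sp hρ.sp
      have h5 := pos hz hai.sp hρ.sp
      have h6 : 0 ≤ h z := by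
        rw [hh]
        simp only
        linarith [hki z hz]
      have e3 : DD h ρ z = DD ai ρ z + (-1) * DD ak ρ z := by
        rw [hh, DD_lin hadd hsmul hz gi.1 gk.1]
      have e4 : DD ρ (fun z => ai z + 1 * ak z) z = DD ai ρ z + 1 * DD ak ρ z := by
        rw [DD_symm, DD_lin hadd hsmul hz gi.1 gk.1]
      show -(h z * DD h ρ z) ≤ h z * DD ρ (fun z => ai z + 1 * ak z) z
      rw [e3, e4]
      nlinarith [mul_nonneg h6 h5]
    linarith [h1, h2, h3]
  rw [hneg, hneg, hneg, hneg]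
  linarith

end Pool.Agent.H53M.ENE
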