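import Pool.Agent.H53M.Stm

/-!
# Stub ENS of project MD: energy inequality for points in the disc
-/

set_option autoImplicit false

open MeasureTheory Metric Set Filter Topology
open scoped ContDiff

namespace Pool.Agent.H53M.ENS

abbrev D1 : Set ℂ := ball (0 : ℂ) 1

lemma KK_meas (x : ℂ) : Measurable fun t => KK x t := by
  unfold KK
  fun_prop

lemma gT_meas (T : ℕ) (x : ℂ) : Measurable fun t => gT T x t := by
  unfold gT
  have := KK_meas x
  fun_prop

/-- `lap4 U` is continuous on the disc -/
lemma lap4_cont {U : ℂ → ℝ} (hU : ContDiffOn ℝ ∞ U D1) : ContinuousOn (lap4 U) D1 := by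
  have ho : IsOpen D1 := isOpen_ball
  have h1 : ContDiffOn ℝ ∞ (fderiv ℝ U) D1 := hU.fderiv_of_isOpen ho (by simp)
  have h2 : ContDiffOn ℝ ∞ (fderiv ℝ (fderiv ℝ U)) D1 := h1.fderiv_of_isOpen ho (by simp)
  have h3 := h2.continuousOn
  unfold lap4
  fun_prop

lemma U_bdd {U : ℂ → ℝ} {B δ : ℝ} (hδ : 0 < δ) (hδ1 : δ < 1) (hU : ContDiffOn ℝ ∞ U D1)
    (hB : ∀ x : ℂ, 1 - δ < ‖x‖ → ‖x‖ < 1 → U x = B * Real.log ‖x‖) : ∃ C : ℝ, ∀ x ∈ D1, |U x| ≤ C := by
  have hK : IsCompact (closedBall (0 : ℂ) (1 - δ)) := isCompact_closedBall _ _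
  have hsub : closedBall (0 : ℂ) (1 - δ) ⊆ D1 := closedBall_subset_ball (by linarith)
  obtain ⟨C, hC⟩ := hK.exists_bound_of_continuousOn (hU.continuousOn.mono hsub)
  refine ⟨max C (|B| * |Real.log (1 - δ)|), fun x hx => ?_⟩
  rcases le_or_gt ‖x‖ (1 - δ) with h | h
  · exact (hC x (by simpa using h)).trans (le_max_left _ _)
  · have hx1 : ‖x‖ < 1 := by simpa using hx
    refine le_trans ?_ (le_max_right _ _)
    rw [hB x h hx1, abs_mul]
    refine mul_le_mul_of_nonneg_left ?_ (abs_nonneg B)
    have h0 : 0 < 1 - δ := by linarith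
    rw [abs_of_nonpos (Real.log_nonpos (norm_nonneg _) hx1.le), abs_of_nonpos (Real.log_nonpos h0.le (by linarith))]
    have := Real.log_le_log h0 h.le
    linarith

theorem t (hG : Pool.Agent.H53M.GRN) (hPD : Pool.Agent.H53M.PDK) (hGT : Pool.Agent.H53M.GTF) : Pool.Agent.H53M.ENS := by
  classical
  intro L ε hL hε
  have hpi := Real.pi_pos
  obtain ⟨g1, g2, g3, g4, g5⟩ := hGT
  set L' : ℝ := (2 / Real.pi) * L with hL'
  have hL'0 : 0 < L' := by positivity
  obtain ⟨T, hT⟩ := g4 (ε / L') (by positivity)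
  set c : ℝ := (∑ n ∈ Finset.range T, (1 : ℝ) / (n + 1)) / 2 with hc
  have hc0 : 0 ≤ c := by positivity
  refine ⟨c, hc0, ?_⟩
  intro U B H δ hδ hδ1 hU hlap hB hH d x m hx hinj hm
  -- F
  set F : ℂ → ℝ := D1.piecewise (fun t => (2 / Real.pi) * lap4 U t) (fun _ => 0) with hF
  have hFm : Measurable F := by
    refine ContinuousOn.measurable_piecewise ?_ continuousOn_const measurableSet_ball
    exact continuousOn_const.mul (lap4_cont hU)
  have hFe : ∀ t ∈ D1, F t = (2 / Real.pi) * lap4 U t := fun t ht => by simp only [hF]; exact piecewise_eq_of_mem _ _ _ ht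
  have hFb : ∀ t ∈ D1, 0 ≤ F t ∧ F t ≤ L' := fun t ht => by
    rw [hFe t ht]
    have := hlap t ht
    exact ⟨mul_nonneg (by positivity) this.1, mul_le_mul_of_nonneg_left this.2 (by positivity)⟩
  have hfin : volume D1 ≠ ⊤ := measure_ball_lt_top.ne
  -- Green representation
  have hgr : ∀ s ∈ D1, -U s = ∫ t in D1, gg s t * F t := by
    intro s hs
    rw [hG U B δ hδ hδ1 hU hB s hs, ← integral_const_mul]
    refine setIntegral_congr_fun measurableSet_ball fun t ht => ?_
    simp only [hFe t ht]; ring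
  have hFi : ∀ᵐ t ∂(volume.restrict D1), ‖F t‖ ≤ L' := by
    rw [ae_restrict_iff' measurableSet_ball]
    exact ae_of_all _ fun t ht => by rw [Real.norm_of_nonneg (hFb t ht).1]; exact (hFb t ht).2
  have hggF : ∀ s ∈ D1, IntegrableOn (fun t => gg s t * F t) D1 := by
    intro s hs
    exact (g5 s hs).mul_bdd (c := L') hFm.aestronglyMeasurable hFi
  have hgTb : ∀ s ∈ D1, ∀ t ∈ D1, 0 ≤ gT T s t ∧ gT T s t ≤ c := by
    intro s hs t ht
    have hk := g3 s t (by simpa using hs) (by simpa using ht)
    unfold gT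
    constructor
    · refine div_nonneg (Finset.sum_nonneg fun n _ => ?_) (by norm_num)
      have := pow_nonneg hk.1 (n + 1)
      positivity
    · rw [hc]
      gcongr with n _
      exact pow_le_one₀ hk.1 hk.2
  have hgTi : ∀ s ∈ D1, IntegrableOn (fun t => gT T s t) D1 := by
    intro s hs
    refine Measure.integrableOn_of_bounded (M := c) hfin (gT_meas T s).aestronglyMeasurable ?_
    rw [ae_restrict_iff' measurableSet_ball]
    exact ae_of_all _ fun t ht => by rw [Real.norm_of_nonneg (hgTb s hs t ht).1]; exact (hgTb s hs t ht).2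
  have hgTF : ∀ s ∈ D1, IntegrableOn (fun t => gT T s t * F t) D1 := by
    intro s hs
    exact (hgTi s hs).mul_bdd (c := L') hFm.aestronglyMeasurable hFi
  have hle : ∀ s ∈ D1, ∀ᵐ t ∂(volume.restrict D1), 0 ≤ gT T s t ∧ gT T s t ≤ gg s t := by
    intro s hs
    rw [ae_restrict_iff' measurableSet_ball]
    have : ∀ᵐ t : ℂ, t ≠ s := by
      rw [ae_iff]; simp
    filter_upwards [this] with t hts ht
    exact g1 T s t (by simpa using hs) (by simpa using ht) (Ne.symm hts)
  -- single points
  have hone : ∀ s ∈ D1, -U s ≤ (∫ t in D1, gT T s t * F t) + ε := by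
    intro s hs
    have e : (∫ t in D1, gg s t * F t) - (∫ t in D1, gT T s t * F t) ≤ ε := by
      rw [← integral_sub (hggF s hs) (hgTF s hs)]
      calc (∫ t in D1, (gg s t * F t - gT T s t * F t)) ≤ ∫ t in D1, (gg s t - gT T s t) * L' := by
            refine integral_mono_ae ((hggF s hs).sub (hgTF s hs)) (((g5 s hs).sub (hgTi s hs)).mul_const L') ?_
            filter_upwards [hle s hs, ae_restrict_mem measurableSet_ball] with t ht htD
            have h1 := hFb t htD
            have h2 : 0 ≤ gg s t - gT T s t := by linarith [ht.2]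
            calc gg s t * F t - gT T s t * F t = (gg s t - gT T s t) * F t := by ring
              _ ≤ (gg s t - gT T s t) * L' := mul_le_mul_of_nonneg_left h1.2 h2
        _ = (∫ t in D1, (gg s t - gT T s t)) * L' := integral_mul_const _ _
        _ ≤ (ε / L') * L' := mul_le_mul_of_nonneg_right (hT s hs) hL'0.le
        _ = ε := by field_simp
    rw [hgr s hs]; linarith
  -- the energy
  have hUn : ∀ s ∈ D1, 0 ≤ -U s := by
    intro s hs
    rw [hgr s hs]
    refine integral_nonneg_of_ae ?_
    filter_upwards [hle s hs, ae_restrict_mem measurableSet_ball] with t ht htD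
    exact mul_nonneg (ht.1.trans ht.2) (hFb t htD).1
  have hH0 : 0 ≤ ∫ s in D1, (-U s) * lap4 U s :=
    setIntegral_nonneg measurableSet_ball fun s hs => mul_nonneg (hUn s hs) (hlap s hs).1
  have hen : (∫ s in D1, ∫ t in D1, gT T s t * F s * F t) ≤ (2 / Real.pi) * H := by
    by_cases hint : IntegrableOn (fun s => ∫ t in D1, gT T s t * F s * F t) D1
    · obtain ⟨C, hC⟩ := U_bdd hδ hδ1 hU hB
      have hi2 : IntegrableOn (fun s => (2 / Real.pi) * ((-U s) * lap4 U s)) D1 := by
        refine Integrable.const_mul ?_ _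
        have : IsFiniteMeasure (volume.restrict D1) := ⟨by rw [Measure.restrict_apply_univ]; exact measure_ball_lt_top⟩
        refine Integrable.of_bound (C := C * L) ?_ ?_
        · exact ((hU.continuousOn.neg).mul (lap4_cont hU)).aestronglyMeasurable measurableSet_ball
        · rw [ae_restrict_iff' measurableSet_ball]
          refine ae_of_all _ fun s hs => ?_
          rw [norm_mul, norm_neg, Real.norm_eq_abs, Real.norm_eq_abs, abs_of_nonneg (hlap s hs).1]
          exact mul_le_mul (hC s hs) (hlap s hs).2 (hlap s hs).1 ((abs_nonneg _).trans (hC s hs))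
      calc (∫ s in D1, ∫ t in D1, gT T s t * F s * F t) ≤ ∫ s in D1, (2 / Real.pi) * ((-U s) * lap4 U s) := by
            refine setIntegral_mono_on hint hi2 measurableSet_ball fun s hs => ?_
            have e1 : (∫ t in D1, gT T s t * F s * F t) = F s * ∫ t in D1, gT T s t * F t := by
              rw [← integral_const_mul]
              refine integral_congr_ae (ae_of_all _ fun t => ?_)
              simp only; ring
            have e2 : (∫ t in D1, gT T s t * F t) ≤ -U s := by
              rw [hgr s hs]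
              refine integral_mono_ae (hgTF s hs) (hggF s hs) ?_
              filter_upwards [hle s hs, ae_restrict_mem measurableSet_ball] with t ht htD
              exact mul_le_mul_of_nonneg_right ht.2 (hFb t htD).1
            rw [e1]
            calc F s * ∫ t in D1, gT T s t * F t ≤ F s * (-U s) := mul_le_mul_of_nonneg_left e2 (hFb s hs).1
              _ = _ := by rw [hFe s hs]; ring
        _ = (2 / Real.pi) * ∫ s in D1, (-U s) * lap4 U s := integral_const_mul _ _
        _ ≤ _ := mul_le_mul_of_nonneg_left hH (by positivity)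
    · rw [integral_undef hint]
      have : 0 ≤ H := hH0.trans hH
      positivity
  have hpd := hPD T d x F m L' hx hFm hFb hm
  -- double sum
  have hgg : ∀ i j, i ≠ j → gT T (x i) (x j) + Real.log ‖x i - x j‖ ≤ Real.log 2 := by
    intro i j hij
    have hne : x i ≠ x j := fun h => hij (hinj h)
    have h1 := (g1 T (x i) (x j) (hx i) (hx j) hne).2
    have hn : 0 < ‖x i - x j‖ := norm_pos_iff.2 (sub_ne_zero.2 hne)
    have hlt : ‖(starRingEnd ℂ) (x i) * x j‖ < 1 := by
      rw [norm_mul, Complex.norm_conj]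
      have := hx i; have := hx j
      nlinarith [norm_nonneg (x i), norm_nonneg (x j)]
    have hp : 0 < ‖1 - (starRingEnd ℂ) (x i) * x j‖ := by
      rw [norm_pos_iff, sub_ne_zero]
      intro h
      rw [← h, norm_one] at hlt
      exact lt_irrefl _ hlt
    have h2 : ‖1 - (starRingEnd ℂ) (x i) * x j‖ ≤ 2 := by
      refine (norm_sub_le _ _).trans ?_
      rw [norm_one]; linarith
    have h3 : gg (x i) (x j) = Real.log ‖1 - (starRingEnd ℂ) (x i) * x j‖ - Real.log ‖x i - x j‖ := by
      unfold gg; exact Real.log_div hp.ne' hn.ne'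
    have h4 := Real.log_le_log hp h2
    linarith
  have hdiag : ∀ i, gT T (x i) (x i) = c := fun i => g2 T (x i) (hx i)
  have hsum : (∑ i, ∑ j, gT T (x i) (x j)) + ∑ i, ∑ j ∈ Finset.univ.erase i, Real.log ‖x i - x j‖ ≤
      (d : ℝ) ^ 2 * Real.log 2 + c * d := by
    rw [← Finset.sum_add_distrib]
    have hrow : ∀ i ∈ (Finset.univ : Finset (Fin d)), (∑ j, gT T (x i) (x j)) + ∑ j ∈ Finset.univ.erase i, Real.log ‖x i - x j‖ ≤
        c + d * Real.log 2 := by
      intro i _
      rw [← Finset.add_sum_erase _ _ (Finset.mem_univ i), hdiag, add_assoc, ← Finset.sum_add_distrib]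
      have : ∑ j ∈ Finset.univ.erase i, (gT T (x i) (x j) + Real.log ‖x i - x j‖) ≤
          ∑ j ∈ (Finset.univ : Finset (Fin d)).erase i, Real.log 2 :=
        Finset.sum_le_sum fun j hj => hgg i j (Finset.ne_of_mem_erase hj).symm
      rw [Finset.sum_const, nsmul_eq_mul] at this
      have hcard : (((Finset.univ : Finset (Fin d)).erase i).card : ℝ) ≤ d := by
        have := Finset.card_erase_le (s := (Finset.univ : Finset (Fin d))) (a := i)
        rw [Finset.card_univ, Fintype.card_fin] at this
        exact_mod_cast this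
      have hl2 : 0 ≤ Real.log 2 := Real.log_nonneg (by norm_num)
      nlinarith
    refine (Finset.sum_le_sum hrow).trans (le_of_eq ?_)
    rw [Finset.sum_const, Finset.card_univ, Fintype.card_fin, nsmul_eq_mul]; ring
  have hones : ∑ i, (-U (x i)) ≤ (∑ i, ∫ t in D1, gT T (x i) t * F t) + d * ε := by
    calc ∑ i, (-U (x i)) ≤ ∑ i, ((∫ t in D1, gT T (x i) t * F t) + ε) :=
          Finset.sum_le_sum fun i _ => hone _ (by simpa using hx i)
      _ = _ := by rw [Finset.sum_add_distrib, Finset.sum_const, Finset.card_univ, Fintype.card_fin, nsmul_eq_mul]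
  have h6 : 2 * m * ∑ i, (-U (x i)) ≤ 2 * m * ((∑ i, ∫ t in D1, gT T (x i) t * F t) + d * ε) :=
    mul_le_mul_of_nonneg_left hones (by positivity)
  have h7 : m ^ 2 * (∫ s in D1, ∫ t in D1, gT T s t * F s * F t) ≤ m ^ 2 * ((2 / Real.pi) * H) :=
    mul_le_mul_of_nonneg_left hen (by positivity)
  have h8 : 2 * m * ((∑ i, ∫ t in D1, gT T (x i) t * F t) + d * ε) =
      2 * m * (∑ i, ∫ t in D1, gT T (x i) t * F t) + 2 * m * d * ε := by ring
  have h9 : m ^ 2 * ((2 / Real.pi) * H) = (2 / Real.pi) * m ^ 2 * H := by ring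
  linarith

end Pool.Agent.H53M.ENS
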