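import Pool.Agent.H53M.FIB0

set_option autoImplicit false

open MeasureTheory Metric Set Filter Topology
open scoped ContDiff ComplexOrder

namespace Pool.Agent.H53M.FIB

open Pool.Agent.H53M Pool.Agent.H805R2

/-- minus the concave truncation -/
noncomputable def GG (s t : ℝ) : ℝ := s * mm (-t / s - 3 / 2)

lemma GG_smooth (s : ℝ) : ContDiff ℝ ∞ (GG s) := by
  unfold GG
  exact contDiff_const.mul (MXL.mm_smooth.comp ((contDiff_neg.div_const s).sub contDiff_const))

lemma GG_zero {s : ℝ} (hs : 0 < s) {t : ℝ} (ht : -s ≤ t) : GG s t = 0 := by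
  unfold GG
  rw [MXL.mm_of_le, mul_zero]
  have : -t / s ≤ 1 := by
    rw [div_le_one hs]
    linarith
  linarith

lemma GG_nonneg {s : ℝ} (hs : 0 < s) (t : ℝ) : 0 ≤ GG s t := by
  unfold GG
  have := MXL.max_le_mm (-t / s - 3 / 2)
  exact mul_nonneg hs.le ((le_max_right _ _).trans this)

lemma GG_ge {s : ℝ} (hs : 0 < s) (t : ℝ) : -t ≤ GG s t + 3 / 2 * s := by
  unfold GG
  have := MXL.max_le_mm (-t / s - 3 / 2)
  have h1 := mul_le_mul_of_nonneg_left ((le_max_left _ _).trans this) hs.le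
  have h2 : s * (-t / s - 3 / 2) = -t - 3 / 2 * s := by
    field_simp
  linarith

lemma GG_quarter {s : ℝ} (hs : 0 < s) {t : ℝ} (ht : t ≤ -s) : s ≤ 4 * GG (s / 2) t := by
  have := GG_ge (half_pos hs) t
  linarith

lemma GG_hasDeriv {s : ℝ} (hs : 0 < s) (t : ℝ) :
    HasDerivAt (GG s) (-Real.smoothTransition (-t / s - 3 / 2 + 1 / 2)) t := by
  have h1 : HasDerivAt (fun t : ℝ => -t / s - 3 / 2) (-1 / s) t :=
    ((hasDerivAt_neg t).div_const s).sub_const _
  have h2 := ((MXL.mm_hasDeriv (-t / s - 3 / 2)).comp t h1).const_mul s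
  have h3 : s * (Real.smoothTransition (-t / s - 3 / 2 + 1 / 2) * (-1 / s)) =
      -Real.smoothTransition (-t / s - 3 / 2 + 1 / 2) := by
    field_simp
  rw [h3] at h2
  exact h2

lemma GG_deriv {s : ℝ} (hs : 0 < s) :
    deriv (GG s) = fun t => -Real.smoothTransition (-t / s - 3 / 2 + 1 / 2) :=
  funext fun t => (GG_hasDeriv hs t).deriv

lemma GG_deriv_le {s : ℝ} (hs : 0 < s) (t : ℝ) : 0 ≤ -deriv (GG s) t ∧ -deriv (GG s) t ≤ 1 := by
  rw [GG_deriv hs]
  simp only [neg_neg]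
  exact ⟨Real.smoothTransition.nonneg _, Real.smoothTransition.le_one _⟩

lemma GG_deriv_zero {s : ℝ} (hs : 0 < s) {t : ℝ} (ht : -s ≤ t) : deriv (GG s) t = 0 := by
  rw [GG_deriv hs]
  simp only [neg_eq_zero]
  apply Real.smoothTransition.zero_of_nonpos
  have : -t / s ≤ 1 := by
    rw [div_le_one hs]
    linarith
  linarith

lemma GG_deriv2 {s : ℝ} (hs : 0 < s) (t : ℝ) : 0 ≤ deriv (deriv (GG s)) t := by
  rw [GG_deriv hs]
  have hm : Monotone fun t : ℝ => -Real.smoothTransition (-t / s - 3 / 2 + 1 / 2) := by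
    intro x y hxy
    simp only [neg_le_neg_iff]
    apply Real.smoothTransition.monotone
    have : -y / s ≤ -x / s := div_le_div_of_nonneg_right (by linarith) hs.le
    linarith
  exact hm.deriv_nonneg

/-- the situation of the energy estimates: `w` is smooth, plurisubharmonic on `U ⊇ Kc`, and
larger than `-s` off `Kc` -/
structure Sit (w : C2 → ℝ) (U Kc : Set C2) (s : ℝ) : Prop where
  spos : 0 < s
  smooth : ContDiff ℝ ∞ w
  oU : IsOpen U
  cK : IsCompact Kc
  KU : Kc ⊆ U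
  UO : U ⊆ Om
  psd : ∀ z ∈ U, (hess w z).PosSemidef
  off : ∀ z, z ∉ Kc → -s < w z

section
variable {w : C2 → ℝ} {U Kc : Set C2} {s : ℝ}

lemma Sit.G_off (h : Sit w U Kc s) {z : C2} (hz : z ∉ Kc) : GG s (w z) = 0 :=
  GG_zero h.spos (h.off z hz).le

lemma Sit.G_ev (h : Sit w U Kc s) {z : C2} (hz : z ∉ Kc) :
    (fun y => GG s (w y)) =ᶠ[𝓝 z] fun _ => 0 := by
  filter_upwards [h.cK.isClosed.isOpen_compl.mem_nhds hz] with y hy
  exact h.G_off hy

lemma Sit.G_smooth (h : Sit w U Kc s) : ContDiff ℝ ∞ fun y => GG s (w y) :=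
  (GG_smooth s).comp h.smooth

lemma Sit.G_cs (h : Sit w U Kc s) : HasCompactSupport fun y => GG s (w y) :=
  HasCompactSupport.intro h.cK fun _ hz => h.G_off hz

lemma Sit.G_ts (h : Sit w U Kc s) : tsupport (fun y => GG s (w y)) ⊆ Kc := by
  apply closure_minimal _ h.cK.isClosed
  intro z hz
  by_contra h'
  exact hz (h.G_off h')

lemma Sit.KO (h : Sit w U Kc s) : Kc ⊆ Om := h.KU.trans h.UO

/-- **self energy** -/
lemma selfE (hH : HES) (hI : IBT) (h : Sit w U Kc s) {q : ℂ → ℝ} {Q : ℝ} (hq : ContDiff ℝ ∞ q)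
    (hqQ : ∀ y : ℂ, ‖y‖ < 1 → -Q ≤ q y ∧ q y ≤ 0 ∧ 0 ≤ lap4 q y) :
    ∫ z in Om, GG s (w z) * DD w (qh q) z ≤ 2 * Q * ∫ z in Kc, dt w z := by
  have h1 := hI (fun y => GG s (w y)) (qh q) w h.G_smooth h.G_cs (h.G_ts.trans h.KO)
    (qh_smooth hq).contDiffOn h.smooth.contDiffOn
  have h2 : ∀ z, DD w (qh q) z = DD (qh q) w z := fun z => DD_symm hH _ _ z
  simp_rw [h2]
  rw [h1]
  have h3 : ∀ z ∈ Om, z ∉ Kc → qh q z * DD (fun y => GG s (w y)) w z = 0 := by
    intro z _ hz
    rw [DD_symm hH, DD_zero_right (h.G_ev hz), mul_zero]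
  rw [int_eq h.KO h3, ← integral_const_mul]
  have hwc : ContinuousOn (DD w w) Om := DD_cont hH h.smooth.contDiffOn h.smooth.contDiffOn
  have hdt : ∀ z, dt w z = DD w w z / 2 := fun z => by rw [DD_self hH]; ring
  apply setIntegral_mono_on
  · exact (((qh_smooth hq).continuous.continuousOn.mul
      (DD_cont hH h.G_smooth.contDiffOn h.smooth.contDiffOn)).mono h.KO).integrableOn_compact h.cK
  · simp_rw [hdt]
    exact ((continuousOn_const.mul (hwc.div_const 2)).mono h.KO).integrableOn_compact h.cK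
  · exact h.cK.measurableSet
  · intro z hz
    obtain ⟨hq1, hq2, _⟩ := hqQ (z 1) (h.KO hz).2
    have hp := h.psd z (h.KU hz)
    have h4 := DD_comp_ge hH (GG_smooth s) h.smooth.contDiffAt (GG_deriv2 h.spos (w z)) hp
    rw [DD_symm hH] at h4
    have h5 : 0 ≤ DD w w z := DD_nonneg hp hp
    obtain ⟨h6, h7⟩ := GG_deriv_le h.spos (w z)
    have h8 : DD (fun y => GG s (w y)) w z = DD w (fun y => GG s (w y)) z := DD_symm hH _ _ z
    rw [hdt]
    set D := DD w w z
    set E := DD w (fun y => GG s (w y)) z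
    have h9 : -D ≤ E := by
      have : -D ≤ deriv (GG s) (w z) * D := by nlinarith
      exact this.trans h4
    rw [h8]
    have h10 : qh q z = q (z 1) := rfl
    rw [h10]
    nlinarith

/-- **main estimate** -/
lemma mainE (hH : HES) (hI : IBT) {ρ a : C2 → ℝ} {B : ℝ} (ha : Adm ρ B a)
    (hρ : Rho ρ) {K : Set C2} (hK : IsCompact K)
    (haK : ∀ z ∈ Om, z ∉ K → a z = B * ρ z) (h : Sit w U Kc s) (h' : Sit w U Kc (s / 2))
    (hKc : K ∪ K0 ⊆ Kc) (hwa : ∀ z ∈ Kc, w z < a z + 2 * s) {q : ℂ → ℝ} {Q : ℝ}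
    (hq : ContDiff ℝ ∞ q) (hqQ : ∀ y : ℂ, ‖y‖ < 1 → -Q ≤ q y ∧ q y ≤ 0 ∧ 0 ≤ lap4 q y)
    (hq0 : ∀ y : ℂ, Real.exp (-15) ≤ ‖y‖ → ‖y‖ < 1 → lap4 q y = 0) :
    ∫ z in Om, (-a z) * DD a (qh q) z ≤ 30 * Q * (∫ z in Kc, dt w z) +
      7 / 2 * s * ∫ z in Om, DD a (qh q) z := by
  have hs := h.spos
  have hqh := (qh_smooth hq).contDiffOn (s := Om)
  have hDac : ContinuousOn (DD a (qh q)) Om := DD_cont hH ha.sp.1 hqh
  have hDwc : ContinuousOn (DD w (qh q)) Om := DD_cont hH h.smooth.contDiffOn hqh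
  have hDa0 : ∀ z ∈ Om, z ∉ Kc → DD a (qh q) z = 0 := fun z hz hzK =>
    DD_adm_zero hH hρ hK.isClosed haK hq hq0 hz (fun h => hzK (hKc h))
  have hpq : ∀ z ∈ Om, (hess (qh q) z).PosSemidef := fun z hz =>
    psd_qh hH hq (hqQ (z 1) hz.2).2.2
  have hDa : ∀ z ∈ Om, 0 ≤ DD a (qh q) z := fun z hz => DD_nonneg (ha.sp.2 z hz) (hpq z hz)
  have hDw : ∀ z ∈ Kc, 0 ≤ DD w (qh q) z := fun z hz =>
    DD_nonneg (h.psd z (h.KU hz)) (hpq z (h.KO hz))
  have hac : ContinuousOn a Om := ha.sp.1.continuousOn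
  have hGc : ContinuousOn (fun z => GG s (w z)) Om := h.G_smooth.continuous.continuousOn
  have hGc' : ContinuousOn (fun z => GG (s / 2) (w z)) Om := h'.G_smooth.continuous.continuousOn
  have i1 : IntegrableOn (DD a (qh q)) Om := intOn h.cK h.KO hDac hDa0
  have i2 : IntegrableOn (fun z => GG s (w z) * DD a (qh q) z) Om :=
    intOn h.cK h.KO (hGc.mul hDac) (fun z _ hz => by rw [h.G_off hz, zero_mul])
  have i3 : IntegrableOn (fun z => GG s (w z) * DD w (qh q) z) Om :=
    intOn h.cK h.KO (hGc.mul hDwc) (fun z _ hz => by rw [h.G_off hz, zero_mul])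
  have i4 : IntegrableOn (fun z => GG (s / 2) (w z) * DD w (qh q) z) Om :=
    intOn h.cK h.KO (hGc'.mul hDwc) (fun z _ hz => by rw [h'.G_off hz, zero_mul])
  -- step 1
  have b1 : ∫ z in Om, (-a z) * DD a (qh q) z ≤
      ∫ z in Om, (GG s (w z) * DD a (qh q) z + 7 / 2 * s * DD a (qh q) z) := by
    apply setIntegral_mono_on
    · exact intOn h.cK h.KO (hac.neg.mul hDac) (fun z hz hzK => by rw [hDa0 z hz hzK, mul_zero])
    · exact i2.add (i1.const_mul _)
    · exact isOpen_Om.measurableSet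
    · intro z hz
      by_cases hzK : z ∈ Kc
      · have h1 := hwa z hzK
        have h2 := GG_ge hs (w z)
        have h3 := hDa z hz
        have h4 : -a z ≤ GG s (w z) + 7 / 2 * s := by linarith
        calc -a z * DD a (qh q) z ≤ (GG s (w z) + 7 / 2 * s) * DD a (qh q) z :=
              mul_le_mul_of_nonneg_right h4 h3
          _ = _ := by ring
      · rw [hDa0 z hz hzK]
        simp
  rw [integral_add i2 (i1.const_mul _), integral_const_mul] at b1
  -- step 2
  have b2 := hI (fun y => GG s (w y)) a (qh q) h.G_smooth h.G_cs (h.G_ts.trans h.KO)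
    ha.sp.1 hqh
  rw [b2] at b1
  -- step 3
  have b3 : ∫ z in Om, a z * DD (fun y => GG s (w y)) (qh q) z ≤
      ∫ z in Om, (GG s (w z) * DD w (qh q) z + 14 * (GG (s / 2) (w z) * DD w (qh q) z)) := by
    apply setIntegral_mono_on
    · refine intOn h.cK h.KO (hac.mul (DD_cont hH h.G_smooth.contDiffOn hqh)) ?_
      intro z _ hz
      rw [DD_symm hH, DD_zero_right (h.G_ev hz), mul_zero]
    · exact i3.add (i4.const_mul _)
    · exact isOpen_Om.measurableSet
    · intro z hz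
      by_cases hzK : z ∈ Kc
      · have h1 := hwa z hzK
        have h2 := GG_ge hs (w z)
        have h3 := hDw z hzK
        have h4 := DD_comp_ge hH (GG_smooth s) h.smooth.contDiffAt (GG_deriv2 hs (w z)) (hpq z hz)
        have h5 : DD (fun y => GG s (w y)) (qh q) z = DD (qh q) (fun y => GG s (w y)) z :=
          DD_symm hH _ _ z
        have h6 : DD (qh q) w z = DD w (qh q) z := DD_symm hH _ _ z
        rw [h6] at h4
        rw [h5]
        obtain ⟨h7, h8⟩ := GG_deriv_le hs (w z)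
        have h9 := ha.nonpos z hz
        have hg0 := GG_nonneg hs (w z)
        have hg0' := GG_nonneg (half_pos hs) (w z)
        have h10 : s * (-deriv (GG s) (w z)) ≤ 4 * GG (s / 2) (w z) := by
          rcases le_total (w z) (-s) with h11 | h11
          · have := GG_quarter hs h11
            nlinarith
          · rw [GG_deriv_zero hs h11]
            simp only [neg_zero, mul_zero]
            linarith
        set D := DD w (qh q) z
        set E := DD (qh q) (fun y => GG s (w y)) z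
        set g' := deriv (GG s) (w z)
        have h12 : a z * E ≤ (-a z) * (-g') * D := by nlinarith
        have h13 : -a z ≤ GG s (w z) + 7 / 2 * s := by linarith
        have h14 : (-a z) * (-g') ≤ (GG s (w z) + 7 / 2 * s) * (-g') :=
          mul_le_mul_of_nonneg_right h13 h7
        have h15 : (GG s (w z) + 7 / 2 * s) * (-g') ≤ GG s (w z) + 14 * GG (s / 2) (w z) := by
          nlinarith
        calc a z * E ≤ (-a z) * (-g') * D := h12
          _ ≤ (GG s (w z) + 14 * GG (s / 2) (w z)) * D :=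
              mul_le_mul_of_nonneg_right (h14.trans h15) h3
          _ = _ := by ring
      · rw [DD_symm hH, DD_zero_right (h.G_ev hzK), mul_zero, h.G_off hzK, h'.G_off hzK]
        simp
  rw [integral_add i3 (i4.const_mul _), integral_const_mul] at b3
  have b4 := selfE hH hI h hq hqQ
  have b5 := selfE hH hI h' hq hqQ
  linarith

end

theorem t (hH : Pool.Agent.H53M.HES) (hI : Pool.Agent.H53M.IBT) : Pool.Agent.H53M.FIB := by
  refine ⟨100, by norm_num, ?_⟩
  intro ρ q Q B hρ hq hqQ hq0 hQ hB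
  set I₀ : ℝ := ∫ z in Om, DD ρ (qh q) z with hI₀
  refine ⟨Q / (4 * B * (|I₀| + 1)), by positivity, ?_⟩
  intro a u ν M η ha hE hη hη0 hua hνM hM1
  obtain ⟨K, hK, hKO, haK⟩ := ha.germ
  obtain ⟨hpsh, hbd, hu0, hbv, hMA, hνfin⟩ := hE
  obtain ⟨K1, hK1, hK1O, hK1u⟩ := bdry_compact isOpen_Om bdd_Om hbv (η / 2) (half_pos hη)
  set Kc : Set C2 := (K ∪ K0) ∪ K1 with hKc
  have hKcc : IsCompact Kc := (hK.union K0_compact).union hK1
  have hKcO : Kc ⊆ Om := union_subset (union_subset hKO K0_sub) hK1O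
  obtain ⟨U, v, hU, hKU, hUO, hvs, hvc, hvp, hvout, hvge, hvlt, hvanti, hvlim, hvconv⟩ :=
    extract isOpen_Om hMA hu0 hKcc hKcO
  obtain ⟨χ, hχs, hχc, hχU, hχ1, hχ01⟩ := cutoff hKcc hU hKU
  have hconv := hvconv χ hχs.continuous hχc hχU
  -- the limit is at most `M`
  have hlim : ∫ z, χ z ∂ν ≤ M := by
    have e1 : ∫ z, χ z ∂ν = ∫ z in Om, χ z ∂ν := by
      symm
      apply setIntegral_eq_integral_of_forall_compl_eq_zero
      intro z hz
      exact image_eq_zero_of_notMem_tsupport (fun h => hz (hUO (hχU h)))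
    have hf : IsFiniteMeasure (ν.restrict Om) := ⟨by rw [Measure.restrict_apply_univ]; exact hνfin⟩
    have e2 : ∫ z in Om, χ z ∂ν ≤ ∫ _z in Om, (1 : ℝ) ∂ν := by
      apply integral_mono_of_nonneg
      · exact Eventually.of_forall fun z => (hχ01 z).1
      · exact integrable_const _
      · exact Eventually.of_forall fun z => (hχ01 z).2
    rw [e1]
    refine e2.trans ?_
    rw [setIntegral_const, smul_eq_mul, mul_one]
    exact hνM
  have hev : ∀ᶠ k in atTop, ∫ z, χ z * maDensity (v k) z < M + 1 :=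
    hconv.eventually (gt_mem_nhds (by linarith))
  obtain ⟨k1, hk1⟩ := dini_lt v u (fun z => a z + 2 * η) hKcc
    (fun k => (hvs k).continuous.continuousOn) (fun z hz => hvanti z (hKU hz))
    (fun z hz => hvlim z (hKU hz))
    ((ha.sp.1.continuousOn.mono hKcO).add continuousOn_const)
    (fun z hz => by have := hua z (hKcO hz); linarith)
  obtain ⟨k, hk, hkk⟩ := (hev.and (eventually_ge_atTop k1)).exists
  have hoff : ∀ z, z ∉ Kc → -(η / 2) < v k z := by
    intro z hz
    by_cases hzO : z ∈ Om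
    · have h1 := hK1u z hzO (fun h => hz (Or.inr h))
      exact lt_of_lt_of_le h1 (hvge k z hzO)
    · rw [hvout k z hzO]
      linarith
  have hS : Sit (v k) U Kc η := ⟨hη, hvs k, hU, hKcc, hKU, hUO, hvp k,
    fun z hz => by have := hoff z hz; linarith⟩
  have hS' : Sit (v k) U Kc (η / 2) := ⟨half_pos hη, hvs k, hU, hKcc, hKU, hUO, hvp k, hoff⟩
  have hmain := mainE hH hI ha hρ hK haK hS hS' subset_union_left (hk1 k hkk) hq hqQ hq0
  rw [mass_eq hH hI hρ ha hq hq0, ← hI₀] at hmain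
  -- the mass of `v k`
  have hJ : ∫ z in Kc, dt (v k) z ≤ 5 / 2 * M := by
    have h1 := setInt_le_cut (hvs k) hχs.continuous hχc hKcc hχU (hvp k) (fun z => (hχ01 z).1)
      (fun _ => 1) (fun z hz => (hχ1 z hz).ge) continuous_const hKU
    have h2 : ∀ z, (1 : ℝ) * maDensity (v k) z = 8 / Real.pi ^ 2 * dt (v k) z := by
      intro z
      unfold maDensity dt
      rw [Nat.factorial_two]
      push_cast
      ring
    simp_rw [h2] at h1
    rw [integral_const_mul] at h1
    have h3 : 8 / Real.pi ^ 2 * (∫ z in Kc, dt (v k) z) ≤ 2 * M := by linarith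
    have hpi : Real.pi ^ 2 < 10 := by
      have := Real.pi_lt_d2
      have := Real.pi_pos
      nlinarith
    have hpi0 : 0 < Real.pi ^ 2 := by positivity
    rw [div_mul_eq_mul_div, div_le_iff₀ hpi0] at h3
    nlinarith
  have hη1 : 7 / 2 * η * (B * I₀) ≤ Q := by
    rw [le_div_iff₀ (by positivity)] at hη0
    have h1 : I₀ ≤ |I₀| := le_abs_self _
    have h2 : 0 ≤ |I₀| := abs_nonneg _
    have h3 : η * B * I₀ ≤ η * B * |I₀| := mul_le_mul_of_nonneg_left h1 (by positivity)
    have h4 : 0 ≤ η * B * |I₀| := by positivity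
    have h5 : 0 ≤ η * B := by positivity
    nlinarith
  have hQJ : 30 * Q * (∫ z in Kc, dt (v k) z) ≤ 30 * Q * (5 / 2 * M) :=
    mul_le_mul_of_nonneg_left hJ (by positivity)
  have hQM : Q ≤ Q * M := le_mul_of_one_le_right hQ.le hM1
  change ∫ z in Om, (-a z) * DD a (qh q) z ≤ _
  nlinarith

end Pool.Agent.H53M.FIB
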