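import Pool.Agent.H53M.Stm
import Pool.Agent.H805R2.Lite

set_option autoImplicit false

open MeasureTheory Metric Set Filter Topology
open scoped ContDiff ComplexOrder

namespace Pool.Agent.H53M.MXL

open Pool.Agent.H53M Pool.Agent.H805R2

lemma mm_eq (x : ℝ) : mm x = sm (x + 1 / 2) := rfl

lemma st_symm (t : ℝ) : Real.smoothTransition (1 - t) = 1 - Real.smoothTransition t := by
  unfold Real.smoothTransition
  have h := Real.smoothTransition.pos_denom t
  have h' : expNegInvGlue (1 - t) + expNegInvGlue (1 - (1 - t)) ≠ 0 := by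
    have := Real.smoothTransition.pos_denom (1 - t)
    exact this.ne'
  have h2 : (1 - (1 - t) : ℝ) = t := by ring
  rw [h2] at h' ⊢
  rw [eq_sub_iff_add_eq, add_comm (expNegInvGlue (1 - t)) (expNegInvGlue t), ← add_div,
    add_comm (expNegInvGlue (1 - t)) (expNegInvGlue t), div_self h.ne']

lemma sm_one : sm 1 = 1 / 2 := by
  have h1 : sm 1 = ∫ t in (0 : ℝ)..1, Real.smoothTransition t := rfl
  have h2 : (∫ t in (0 : ℝ)..1, Real.smoothTransition (1 - t)) =
      ∫ t in (0 : ℝ)..1, Real.smoothTransition t := by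
    rw [intervalIntegral.integral_comp_sub_left (fun t => Real.smoothTransition t) 1]
    norm_num
  have h3 : (∫ t in (0 : ℝ)..1, Real.smoothTransition (1 - t)) =
      1 - ∫ t in (0 : ℝ)..1, Real.smoothTransition t := by
    simp_rw [st_symm]
    rw [intervalIntegral.integral_sub (by simp)
      (Real.smoothTransition.continuous.intervalIntegrable _ _)]
    simp
  rw [h1]
  linarith

lemma c0_eq : c0 = 1 / 2 := by
  unfold c0
  rw [sm_one]
  norm_num

lemma st_half : Real.smoothTransition (1 / 2) = 1 / 2 := by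
  have := st_symm (1 / 2)
  norm_num at this ⊢
  linarith

lemma sm_half_le : sm (1 / 2) ≤ 1 / 4 := by
  have h1 : sm (1 / 2) = ∫ t in (0 : ℝ)..(1 / 2), Real.smoothTransition t := rfl
  have h2 : (∫ t in (0 : ℝ)..(1 / 2), Real.smoothTransition t) ≤
      ∫ _t in (0 : ℝ)..(1 / 2), (1 / 2 : ℝ) := by
    apply intervalIntegral.integral_mono_on (by norm_num)
      (Real.smoothTransition.continuous.intervalIntegrable _ _) (by simp)
    intro t ht
    rw [← st_half]
    exact Real.smoothTransition.monotone ht.2
  rw [h1]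
  refine h2.trans ?_
  rw [intervalIntegral.integral_const]
  norm_num

lemma mm_smooth : ContDiff ℝ ∞ mm := by
  have : mm = fun x => sm (x + 1 / 2) := rfl
  rw [this]
  exact sm_smooth.comp (contDiff_id.add contDiff_const)

lemma mm_of_le {x : ℝ} (hx : x ≤ -(1 / 2)) : mm x = 0 := by
  rw [mm_eq]
  exact sm_of_nonpos (by linarith)

lemma mm_of_ge {x : ℝ} (hx : 1 / 2 ≤ x) : mm x = x := by
  rw [mm_eq, sm_of_one_le (by linarith), c0_eq]
  ring

lemma mm_mono : Monotone mm := by
  intro x y hxy
  rw [mm_eq, mm_eq]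
  exact sm_mono (by linarith)

lemma mm_sub_anti : Antitone fun x => mm x - x := by
  intro x y hxy
  have h1 : x + 1 / 2 ≤ y + 1 / 2 := by linarith
  have := sm_sub_mono h1
  simp only [mm_eq] at this ⊢
  linarith

lemma max_le_mm (x : ℝ) : max x 0 ≤ mm x := by
  rw [mm_eq]
  refine max_le ?_ (sm_nonneg _)
  have := le_sm (x + 1 / 2)
  rw [c0_eq] at this
  linarith

lemma mm_zero_le : mm 0 ≤ 1 / 4 := by
  rw [mm_eq]
  have := sm_half_le
  norm_num at this ⊢
  exact this

lemma mm_le_max (x : ℝ) : mm x ≤ max x 0 + 1 / 4 := by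
  rcases le_total x 0 with h | h
  · rw [max_eq_right h]
    have := mm_mono h
    have := mm_zero_le
    linarith
  · rw [max_eq_left h]
    have h1 := mm_sub_anti h
    simp only [sub_zero] at h1
    have := mm_zero_le
    linarith

lemma mm_hasDeriv (x : ℝ) : HasDerivAt mm (Real.smoothTransition (x + 1 / 2)) x := by
  have h : HasDerivAt (fun x : ℝ => x + 1 / 2) 1 x := (hasDerivAt_id x).add_const _
  have := (sm_hasDeriv (x + 1 / 2)).comp x h
  rw [mul_one] at this
  exact this

lemma mm_deriv : deriv mm = fun x => Real.smoothTransition (x + 1 / 2) :=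
  funext fun x => (mm_hasDeriv x).deriv

lemma mx_eq_glue {η : ℝ} (hη : 0 < η) (a b : C2 → ℝ) :
    mx η a b = glue η b (fun z => a z + η / 2) := by
  funext z
  unfold mx glue
  rw [mm_eq]
  congr 3
  field_simp
  ring

lemma germ {S : Set C2} (hS : IsOpen S) {f : C2 → ℝ} (hf : ContDiffOn ℝ ∞ f S) {z : C2}
    (hz : z ∈ S) : ∃ g : C2 → ℝ, ContDiff ℝ ∞ g ∧ g =ᶠ[𝓝 z] f := by
  obtain ⟨K, hK, hzK, hKS⟩ := exists_compact_between (isCompact_singleton (x := z)) hS
    (singleton_subset_iff.2 hz)
  obtain ⟨χ, hχs, _, hχV, hχ1, _⟩ := cutoff hK hS hKS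
  refine ⟨fun z => χ z * f z, cutoff_mul_smooth hS hχs hf hχV, ?_⟩
  filter_upwards [isOpen_interior.mem_nhds (singleton_subset_iff.1 hzK)] with y hy
  rw [hχ1 y (interior_subset hy), one_mul]

theorem t : Pool.Agent.H53M.MXL := by
  refine ⟨mm_smooth, fun x hx => mm_of_le hx, fun x hx => mm_of_ge hx,
    fun x => ⟨max_le_mm x, mm_le_max x⟩, fun x => ?_, ?_, ?_, ?_⟩
  · rw [mm_deriv]
    refine ⟨Real.smoothTransition.nonneg _, Real.smoothTransition.le_one _, ?_⟩
    have hm : Monotone fun x : ℝ => Real.smoothTransition (x + 1 / 2) := by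
      intro x y hxy
      exact Real.smoothTransition.monotone (by linarith)
    exact hm.deriv_nonneg
  · intro η a b hη z
    have hmul : η * ((a z - b z) / η) = a z - b z := mul_div_cancel₀ _ hη.ne'
    have hmax : η * max ((a z - b z) / η) 0 = max (a z) (b z) - b z := by
      rw [mul_max_of_nonneg _ _ hη.le, hmul, mul_zero, ← max_sub_sub_right, sub_self]
    refine ⟨fun h => ?_, fun h => ?_, ?_, ?_⟩
    · unfold mx
      rw [mm_of_le, mul_zero, add_zero]
      rw [div_le_iff₀ hη]
      linarith
    · unfold mx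
      rw [mm_of_ge, hmul]
      · ring
      · rw [le_div_iff₀ hη]
        linarith
    · unfold mx
      have := mul_le_mul_of_nonneg_left (max_le_mm ((a z - b z) / η)) hη.le
      rw [hmax] at this
      linarith
    · unfold mx
      have := mul_le_mul_of_nonneg_left (mm_le_max ((a z - b z) / η)) hη.le
      rw [mul_add, hmax] at this
      linarith
  · intro η a b a' b' z hη ha hb
    unfold mx
    -- first a, then b
    have h1 : b z + η * mm ((a z - b z) / η) ≤ b z + η * mm ((a' z - b z) / η) := by
      have := mul_le_mul_of_nonneg_left (mm_mono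
        (div_le_div_of_nonneg_right (by linarith : a z - b z ≤ a' z - b z) hη.le)) hη.le
      linarith
    have h2 : b z + η * mm ((a' z - b z) / η) ≤ b' z + η * mm ((a' z - b' z) / η) := by
      have h3 : (a' z - b' z) / η ≤ (a' z - b z) / η :=
        div_le_div_of_nonneg_right (by linarith) hη.le
      have h4 := mul_le_mul_of_nonneg_left (mm_sub_anti h3) hη.le
      simp only [mul_sub] at h4
      rw [mul_div_cancel₀ _ hη.ne', mul_div_cancel₀ _ hη.ne'] at h4
      linarith
    exact h1.trans h2
  · intro η a b S hS hη ha hb hpa hpb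
    constructor
    · unfold mx
      exact hb.add (contDiffOn_const.mul
        (mm_smooth.comp_contDiffOn ((ha.sub hb).div_const η)))
    · intro z hz
      obtain ⟨a', ha's, ha'⟩ := germ hS ha hz
      obtain ⟨b', hb's, hb'⟩ := germ hS hb hz
      have h1 : mx η a b =ᶠ[𝓝 z] glue η b' (fun z => a' z + η / 2) := by
        filter_upwards [ha', hb'] with y hy1 hy2
        rw [mx_eq_glue hη]
        simp only [glue, hy1, hy2]
      rw [hess_congr h1]
      refine glue_psd hη hb's (ha's.add contDiff_const) z ?_ ?_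
      · rw [hess_congr hb']
        exact hpb z hz
      · rw [hess_add_const _ ha's, hess_congr ha']
        exact hpa z hz

end Pool.Agent.H53M.MXL
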