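import Pool.Agent.H53M.Stm
import Pool.Agent.H53M.MXL
import Pool.Agent.H805R2.Lite

set_option autoImplicit false

open MeasureTheory Metric Set Filter Topology
open scoped ContDiff ComplexOrder

namespace Pool.Agent.H53M.FIB

open Pool.Agent.H53M Pool.Agent.H805R2

lemma isOpen_Om : IsOpen Om := by
  have h0 : Continuous fun z : C2 => ‖z 0‖ := by fun_prop
  have h1 : Continuous fun z : C2 => ‖z 1‖ := by fun_prop
  exact (isOpen_lt h0 continuous_const).inter (isOpen_lt h1 continuous_const)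

lemma bdd_Om : Bornology.IsBounded Om := by
  refine (Metric.isBounded_iff_subset_closedBall 0).2 ⟨2, fun z hz => ?_⟩
  rw [mem_closedBall, dist_zero_right, EuclideanSpace.norm_eq, Fin.sum_univ_two]
  rw [Real.sqrt_le_left (by norm_num)]
  obtain ⟨h0, h1⟩ := hz
  have := norm_nonneg (z 0)
  have := norm_nonneg (z 1)
  nlinarith

lemma pt_eta (z : C2) : pt (z 0) (z 1) = z := by
  ext i
  fin_cases i <;> rfl

lemma pt_zero (x y : ℂ) : pt x y 0 = x := rfl
lemma pt_one (x y : ℂ) : pt x y 1 = y := rfl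

lemma continuous_pt_left (y : ℂ) : Continuous fun x => pt x y := by
  unfold pt
  refine (PiLp.continuous_toLp 2 _).comp ?_
  refine continuous_pi fun i => ?_
  fin_cases i
  · exact continuous_id
  · exact continuous_const

lemma intOn {F : C2 → ℝ} {K : Set C2} (hK : IsCompact K) (hKO : K ⊆ Om) (hF : ContinuousOn F Om)
    (h0 : ∀ z ∈ Om, z ∉ K → F z = 0) : IntegrableOn F Om :=
  IntegrableOn.of_forall_sdiff_eq_zero ((hF.mono hKO).integrableOn_compact hK)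
    isOpen_Om.measurableSet (fun z hz => h0 z hz.1 hz.2)

lemma int_eq {F : C2 → ℝ} {K : Set C2} (hKO : K ⊆ Om)
    (h0 : ∀ z ∈ Om, z ∉ K → F z = 0) : ∫ z in Om, F z = ∫ z in K, F z :=
  setIntegral_eq_of_subset_of_forall_sdiff_eq_zero isOpen_Om.measurableSet hKO
    (fun z hz => h0 z hz.1 hz.2)

lemma DD_eq (f g : C2 → ℝ) (z : C2) : DD f g z =
    (hess f z 1 1 * hess g z 0 0 - hess f z 0 1 * hess g z 1 0 +
      (-(hess f z 1 0 * hess g z 0 1) + hess f z 0 0 * hess g z 1 1)).re := by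
  unfold DD
  generalize hess f z = A
  generalize hess g z = B
  rw [Matrix.trace_fin_two, Matrix.adjugate_fin_two]
  simp only [Matrix.mul_apply, Fin.sum_univ_two, Matrix.of_apply, Matrix.cons_val', Matrix.cons_val_zero,
    Matrix.cons_val_one]
  congr 1
  simp
  ring

lemma DD_cont (hH : HES) {f g : C2 → ℝ} (hf : ContDiffOn ℝ ∞ f Om) (hg : ContDiffOn ℝ ∞ g Om) :
    ContinuousOn (DD f g) Om := by
  have h1 := hH.2.2.2.1 f Om isOpen_Om hf
  have h2 := hH.2.2.2.1 g Om isOpen_Om hg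
  have c1 : ∀ i j, ContinuousOn (fun z => hess f z i j) Om := fun i j =>
    (continuous_apply_apply i j).comp_continuousOn h1
  have c2 : ∀ i j, ContinuousOn (fun z => hess g z i j) Om := fun i j =>
    (continuous_apply_apply i j).comp_continuousOn h2
  have h3 : ContinuousOn (fun z => hess f z 1 1 * hess g z 0 0 - hess f z 0 1 * hess g z 1 0 +
      (-(hess f z 1 0 * hess g z 0 1) + hess f z 0 0 * hess g z 1 1)) Om :=
    (((c1 1 1).mul (c2 0 0)).sub ((c1 0 1).mul (c2 1 0))).add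
      (((c1 1 0).mul (c2 0 1)).neg.add ((c1 0 0).mul (c2 1 1)))
  have h4 := Complex.continuous_re.comp_continuousOn h3
  refine h4.congr fun z _ => ?_
  rw [DD_eq]
  rfl

lemma DD_symm (hH : HES) (f g : C2 → ℝ) (z : C2) : DD f g z = DD g f z := by
  unfold DD
  rw [hH.2.2.2.2.2.2.2.1]

lemma DD_self (hH : HES) (f : C2 → ℝ) (z : C2) : DD f f z = 2 * dt f z := by
  unfold DD dt
  rw [hH.2.2.2.2.2.2.2.2.2]
  simp

lemma DD_nonneg {f g : C2 → ℝ} {z : C2} (hf : (hess f z).PosSemidef) (hg : (hess g z).PosSemidef) :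
    0 ≤ DD f g z := trace_adj_nonneg _ _ hf hg

lemma DD_zero_right {f g : C2 → ℝ} {z : C2} (hg : g =ᶠ[𝓝 z] fun _ => 0) : DD f g z = 0 := by
  unfold DD
  rw [hess_congr hg, hess_const_zero]
  simp

lemma DD_comp_ge (hH : HES) {G : ℝ → ℝ} {w g : C2 → ℝ} {z : C2} (hG : ContDiff ℝ ∞ G)
    (hw : ContDiffAt ℝ ∞ w z) (h2 : 0 ≤ deriv (deriv G) (w z)) (hg : (hess g z).PosSemidef) :
    deriv G (w z) * DD g w z ≤ DD g (fun y => G (w y)) z := by
  have h := hH.2.2.2.2.2.2.1 G w z hG hw h2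
  have h3 := trace_adj_nonneg _ _ hg h
  rw [Matrix.mul_sub, Matrix.trace_sub, Matrix.mul_smul, Matrix.trace_smul, Complex.sub_re,
    smul_eq_mul, Complex.re_ofReal_mul] at h3
  unfold DD
  linarith

/-! the function `q(z 1)` -/

noncomputable def qh (q : ℂ → ℝ) (z : C2) : ℝ := q (z 1)

lemma qh_smooth {q : ℂ → ℝ} (hq : ContDiff ℝ ∞ q) : ContDiff ℝ ∞ (qh q) := by
  unfold qh
  have : ContDiff ℝ ∞ fun z : C2 => z 1 := by fun_prop
  exact hq.comp this

lemma hess_qh (hH : HES) {q : ℂ → ℝ} (hq : ContDiff ℝ ∞ q) (z : C2) :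
    hess (qh q) z = !![0, 0; 0, ((lap4 q (z 1) : ℝ) : ℂ)] := hH.2.2.2.2.2.1 q z hq

lemma DD_qh (hH : HES) {q : ℂ → ℝ} (hq : ContDiff ℝ ∞ q) (f : C2 → ℝ) (z : C2) :
    DD f (qh q) z = (hess f z 0 0).re * lap4 q (z 1) := by
  unfold DD
  rw [hess_qh hH hq]
  simp [Matrix.trace_fin_two, Matrix.adjugate_fin_two]

lemma psd_qh (hH : HES) {q : ℂ → ℝ} (hq : ContDiff ℝ ∞ q) {z : C2} (h : 0 ≤ lap4 q (z 1)) :
    (hess (qh q) z).PosSemidef := by
  rw [hess_qh hH hq]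
  have : (!![0, 0; 0, ((lap4 q (z 1) : ℝ) : ℂ)] : Matrix (Fin 2) (Fin 2) ℂ) =
      Matrix.diagonal ![0, ((lap4 q (z 1) : ℝ) : ℂ)] := by
    ext i j
    fin_cases i <;> fin_cases j <;> simp
  rw [this]
  apply Matrix.PosSemidef.diagonal
  intro i
  fin_cases i
  · simp
  · simpa using h

lemma lap4_congr {f g : ℂ → ℝ} {x : ℂ} (h : f =ᶠ[𝓝 x] g) : lap4 f x = lap4 g x := by
  unfold lap4
  rw [(h.fderiv).fderiv_eq]

lemma lap4_log {x : ℂ} (hx : x ≠ 0) : lap4 (fun y => Real.log ‖y‖) x = 0 := by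
  have h := (AnalyticAt.harmonicAt_log_norm (f := fun y : ℂ => y) (z := x) analyticAt_id hx).2
  have h1 := h.self_of_nhds
  rw [InnerProductSpace.laplacian_eq_iteratedFDeriv_complexPlane] at h1
  simp only [iteratedFDeriv_two_apply, Pi.zero_apply] at h1
  unfold lap4
  simp only [Matrix.cons_val_zero, Matrix.cons_val_one] at h1
  rw [div_eq_zero_iff]
  left
  exact h1

/-- the compact set containing the support of `DD ρ (qh q)` -/
def K0 : Set C2 := {z | ‖z 0‖ ≤ 1 / 2 ∧ ‖z 1‖ ≤ Real.exp (-15)}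

lemma K0_sub : K0 ⊆ Om := by
  intro z hz
  refine ⟨by linarith [hz.1], lt_of_le_of_lt hz.2 ?_⟩
  rw [Real.exp_lt_one_iff]
  norm_num

lemma K0_compact : IsCompact K0 := by
  apply isCompact_of_isClosed_isBounded
  · have h0 : Continuous fun z : C2 => ‖z 0‖ := by fun_prop
    have h1 : Continuous fun z : C2 => ‖z 1‖ := by fun_prop
    exact (isClosed_le h0 continuous_const).inter (isClosed_le h1 continuous_const)
  · exact bdd_Om.subset K0_sub

lemma exp_neg_one_lt : Real.exp (-(1 : ℝ)) < 1 / 2 := by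
  rw [Real.exp_neg, inv_lt_comm₀ (Real.exp_pos 1) (by norm_num)]
  have := Real.exp_one_gt_d9
  linarith

lemma DDρ_zero (hH : HES) {ρ : C2 → ℝ} (hρ : Rho ρ) {q : ℂ → ℝ} (hq : ContDiff ℝ ∞ q)
    (hq0 : ∀ y : ℂ, Real.exp (-15) ≤ ‖y‖ → ‖y‖ < 1 → lap4 q y = 0) {z : C2} (hz : z ∈ Om)
    (hzK : z ∉ K0) : DD ρ (qh q) z = 0 := by
  rw [DD_qh hH hq]
  rcases le_or_gt (Real.exp (-15)) ‖z 1‖ with h1 | h1
  · rw [hq0 _ h1 hz.2, mul_zero]
  · have h0 : 1 / 2 < ‖z 0‖ := by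
      by_contra h
      exact hzK ⟨not_lt.1 h, h1.le⟩
    have hd : ContDiffAt ℝ ∞ ρ (pt (z 0) (z 1)) := by
      rw [pt_eta]
      exact hρ.sp.1.contDiffAt (isOpen_Om.mem_nhds hz)
    have h2 := (hH.2.2.2.2.1 ρ (z 0) (z 1) hd).1
    rw [pt_eta] at h2
    rw [h2]
    have h3 : (fun x' => ρ (pt x' (z 1))) =ᶠ[𝓝 (z 0)] fun x' => Real.log ‖x'‖ := by
      have hn : {x' : ℂ | Real.exp (-(1 : ℝ)) < ‖x'‖ ∧ ‖x'‖ < 1} ∈ 𝓝 (z 0) := by
        apply IsOpen.mem_nhds
        · exact (isOpen_lt continuous_const continuous_norm).inter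
            (isOpen_lt continuous_norm continuous_const)
        · exact ⟨exp_neg_one_lt.trans h0, hz.1⟩
      filter_upwards [hn] with x' hx'
      have hO : pt x' (z 1) ∈ Om := ⟨hx'.2, hz.2⟩
      have := (hρ.flat _ hO h1).2 hx'.1
      exact this
    rw [lap4_congr h3, lap4_log, zero_mul]
    rw [← norm_pos_iff]
    linarith

lemma hess_lin (hH : HES) {a ρ : C2 → ℝ} {z : C2} (B : ℝ) (ha : ContDiffAt ℝ ∞ a z)
    (hρ : ContDiffAt ℝ ∞ ρ z) :
    hess (fun y => a y - B * ρ y) z = hess a z - (B : ℂ) • hess ρ z := by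
  have h1 : (fun y => a y - B * ρ y) = fun y => a y + (-B) * ρ y := by
    funext y
    ring
  rw [h1, hH.1 a (fun y => (-B) * ρ y) z ha (contDiffAt_const.mul hρ), hH.2.1 ρ (-B) z hρ]
  push_cast
  rw [neg_smul, sub_eq_add_neg]

lemma DD_adm_zero (hH : HES) {ρ a : C2 → ℝ} (hρ : Rho ρ) {B : ℝ} {K : Set C2} (hK : IsClosed K)
    (haK : ∀ z ∈ Om, z ∉ K → a z = B * ρ z) {q : ℂ → ℝ} (hq : ContDiff ℝ ∞ q)
    (hq0 : ∀ y : ℂ, Real.exp (-15) ≤ ‖y‖ → ‖y‖ < 1 → lap4 q y = 0) {z : C2} (hz : z ∈ Om)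
    (hzK : z ∉ K ∪ K0) : DD a (qh q) z = 0 := by
  have h1 : a =ᶠ[𝓝 z] fun y => B * ρ y := by
    have hn : Om ∩ Kᶜ ∈ 𝓝 z :=
      (isOpen_Om.inter hK.isOpen_compl).mem_nhds ⟨hz, fun h => hzK (Or.inl h)⟩
    filter_upwards [hn] with y hy
    exact haK y hy.1 hy.2
  have h2 := DDρ_zero hH hρ hq hq0 hz (fun h => hzK (Or.inr h))
  rw [DD_qh hH hq] at h2 ⊢
  rw [hess_congr h1, hH.2.1 ρ B z (hρ.sp.1.contDiffAt (isOpen_Om.mem_nhds hz))]
  rw [Matrix.smul_apply, smul_eq_mul, Complex.re_ofReal_mul, mul_assoc, h2, mul_zero]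

/-- the total mass -/
lemma mass_eq (hH : HES) (hI : IBT) {ρ a : C2 → ℝ} (hρ : Rho ρ) {B : ℝ} (ha : Adm ρ B a)
    {q : ℂ → ℝ} (hq : ContDiff ℝ ∞ q)
    (hq0 : ∀ y : ℂ, Real.exp (-15) ≤ ‖y‖ → ‖y‖ < 1 → lap4 q y = 0) :
    ∫ z in Om, DD a (qh q) z = B * ∫ z in Om, DD ρ (qh q) z := by
  classical
  obtain ⟨K, hK, hKO, haK⟩ := ha.germ
  set χ : C2 → ℝ := fun z => if z ∈ Om then a z - B * ρ z else 0 with hχ
  have hχ0 : ∀ z, z ∉ K → χ z = 0 := by
    intro z hz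
    simp only [hχ]
    split_ifs with h
    · rw [haK z h hz, sub_self]
    · rfl
  have hχe : ∀ z ∈ Om, χ =ᶠ[𝓝 z] fun y => a y - B * ρ y := by
    intro z hz
    filter_upwards [isOpen_Om.mem_nhds hz] with y hy
    simp only [hχ, if_pos hy]
  have hχs : ContDiff ℝ ∞ χ := by
    rw [contDiff_iff_contDiffAt]
    intro z
    by_cases hz : z ∈ Om
    · have h1 := ha.sp.1.contDiffAt (isOpen_Om.mem_nhds hz)
      have h2 := hρ.sp.1.contDiffAt (isOpen_Om.mem_nhds hz)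
      exact (h1.sub (contDiffAt_const.mul h2)).congr_of_eventuallyEq (hχe z hz)
    · have h1 : χ =ᶠ[𝓝 z] fun _ => 0 := by
        filter_upwards [hK.isClosed.isOpen_compl.mem_nhds (fun h => hz (hKO h))] with y hy
        exact hχ0 y hy
      exact contDiffAt_const.congr_of_eventuallyEq h1
  have hχc : HasCompactSupport χ := HasCompactSupport.intro hK hχ0
  have hχt : tsupport χ ⊆ K := by
    apply closure_minimal _ hK.isClosed
    intro z hz
    by_contra h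
    exact hz (hχ0 z h)
  have h1 := hI χ (fun _ => 1) (qh q) hχs hχc (hχt.trans hKO) contDiffOn_const
    (qh_smooth hq).contDiffOn
  have h2 : ∀ z, DD (fun _ => (1 : ℝ)) (qh q) z = 0 := by
    intro z
    rw [DD_symm hH]
    unfold DD
    rw [hess_const_zero]
    simp
  simp only [h2, mul_zero, integral_zero, one_mul] at h1
  have h3 : ∀ z ∈ Om, DD χ (qh q) z = DD a (qh q) z - B * DD ρ (qh q) z := by
    intro z hz
    rw [DD_qh hH hq, DD_qh hH hq, DD_qh hH hq, hess_congr (hχe z hz),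
      hess_lin hH B (ha.sp.1.contDiffAt (isOpen_Om.mem_nhds hz))
        (hρ.sp.1.contDiffAt (isOpen_Om.mem_nhds hz)), Matrix.sub_apply, Matrix.smul_apply,
      smul_eq_mul, Complex.sub_re, Complex.re_ofReal_mul]
    ring
  rw [setIntegral_congr_fun isOpen_Om.measurableSet h3] at h1
  have hi1 : IntegrableOn (DD a (qh q)) Om := intOn (hK.union K0_compact)
    (union_subset hKO K0_sub) (DD_cont hH ha.sp.1 (qh_smooth hq).contDiffOn)
    (fun z hz hzK => DD_adm_zero hH hρ hK.isClosed haK hq hq0 hz hzK)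
  have hi2 : IntegrableOn (DD ρ (qh q)) Om := intOn K0_compact K0_sub
    (DD_cont hH hρ.sp.1 (qh_smooth hq).contDiffOn)
    (fun z hz hzK => DDρ_zero hH hρ hq hq0 hz hzK)
  rw [integral_sub hi1 (hi2.const_mul B), integral_const_mul] at h1
  linarith

end Pool.Agent.H53M.FIB
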