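import Mathlib
import Pool.Agent.H53M.Stm

set_option autoImplicit false

open Matrix
open scoped ComplexOrder

namespace Pool.Agent.H53M.FIS

theorem det_add_rank_one {n : Type*} [Fintype n] [DecidableEq n] {X : Matrix n n ℂ} (hX : X.PosDef)
    (v : n → ℂ) : X.det ≤ (X + vecMulVec v (star v)).det := by
  have hu : IsUnit X.det := isUnit_iff_ne_zero.2 hX.det_pos.ne'
  have e1 : vecMulVec v (star v) = replicateCol Unit v * replicateRow Unit (star v) := by
    rw [vecMulVec_eq Unit]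
  rw [e1, det_add_replicateCol_mul_replicateRow hu]
  have h1 : 0 ≤ star v ⬝ᵥ (X⁻¹ *ᵥ v) := hX.inv.posSemidef.dotProduct_mulVec_nonneg v
  have h2 : (1 + replicateRow Unit (star v) * X⁻¹ * replicateCol Unit v).det = 1 + star v ⬝ᵥ (X⁻¹ *ᵥ v) := by
    rw [det_unique, Matrix.add_apply, Matrix.one_apply_eq, Matrix.mul_assoc]
    congr 1
  rw [h2]
  have h3 : X.det * 1 ≤ X.det * (1 + star v ⬝ᵥ (X⁻¹ *ᵥ v)) :=
    mul_le_mul_of_nonneg_left (le_add_of_nonneg_right h1) hX.det_pos.le
  rwa [mul_one] at h3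

theorem det_add_sum {n : Type*} [Fintype n] [DecidableEq n] (m : ℕ) (v : Fin m → (n → ℂ)) :
    ∀ {X : Matrix n n ℂ}, X.PosDef → X.det ≤ (X + ∑ i, vecMulVec (v i) (star (v i))).det := by
  induction m with
  | zero => intro X _; simp
  | succ m ih =>
    intro X hX
    rw [Fin.sum_univ_succ, ← add_assoc]
    refine (det_add_rank_one hX (v 0)).trans ?_
    exact ih (fun i => v i.succ) (hX.add_posSemidef (posSemidef_vecMulVec_self_star _))

/-- The determinant is monotone. -/
theorem det_mono {n : Type*} [Fintype n] [DecidableEq n] {X Y : Matrix n n ℂ} (hX : X.PosDef)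
    (hY : (Y - X).PosSemidef) : X.det ≤ Y.det := by
  obtain ⟨m, v, hv⟩ := posSemidef_iff_eq_sum_vecMulVec.1 hY
  have := det_add_sum m v hX
  rwa [← hv, add_sub_cancel] at this

theorem det_mono' {n : Type*} [Fintype n] [DecidableEq n] {X Y : Matrix n n ℂ} (hX : X.PosSemidef)
    (hY0 : Y.PosSemidef) (hY : (Y - X).PosSemidef) : X.det ≤ Y.det := by
  by_cases h : X.det = 0
  · rw [h]
    exact hY0.det_nonneg
  · exact det_mono (hX.posDef_iff_det_ne_zero.2 h) hY

/-- Fischer's inequality for two blocks. -/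
theorem fischer {m n : Type*} [Fintype m] [DecidableEq m] [Fintype n] [DecidableEq n]
    {S : Matrix (m ⊕ n) (m ⊕ n) ℂ} (hS : S.PosDef) : S.det ≤ S.toBlocks₁₁.det * S.toBlocks₂₂.det := by
  have hE : (S.toBlocks₁₁).PosDef := hS.submatrix (e := Sum.inl) Sum.inl_injective
  have hH : (S.toBlocks₂₂).PosDef := hS.submatrix (e := Sum.inr) Sum.inr_injective
  have hS21 : S.toBlocks₂₁ = (S.toBlocks₁₂)ᴴ := by
    ext i j
    exact (congrFun (congrFun hS.isHermitian (Sum.inr i)) (Sum.inl j)).symm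
  have e1 : S = fromBlocks S.toBlocks₁₁ S.toBlocks₁₂ (S.toBlocks₁₂)ᴴ S.toBlocks₂₂ := by
    rw [← hS21, fromBlocks_toBlocks]
  have : Invertible S.toBlocks₁₁ := invertibleOfIsUnitDet _ (isUnit_iff_ne_zero.2 hE.det_pos.ne')
  have h1 : (S.toBlocks₂₂ - (S.toBlocks₁₂)ᴴ * (S.toBlocks₁₁)⁻¹ * S.toBlocks₁₂).PosSemidef := by
    rw [← PosDef.fromBlocks₁₁ _ _ hE, ← e1]
    exact hS.posSemidef
  have h2 : S.det = S.toBlocks₁₁.det *
      (S.toBlocks₂₂ - (S.toBlocks₁₂)ᴴ * (S.toBlocks₁₁)⁻¹ * S.toBlocks₁₂).det := by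
    conv_lhs => rw [e1]
    rw [det_fromBlocks₁₁, invOf_eq_nonsing_inv]
  rw [h2]
  apply mul_le_mul_of_nonneg_left _ hE.det_pos.le
  apply det_mono' h1 hH.posSemidef
  rw [sub_sub_cancel]
  exact hE.inv.posSemidef.conjTranspose_mul_mul_same _

/-- first block, and the rest -/
def eqv (n d : ℕ) : Fin d ⊕ (Fin n × Fin d) ≃ Fin (n + 1) × Fin d where
  toFun := Sum.elim (fun i => (0, i)) (fun p => (p.1.succ, p.2))
  invFun p := Fin.cases (motive := fun _ => Fin d ⊕ (Fin n × Fin d)) (Sum.inl p.2) (fun k => Sum.inr (k, p.2)) p.1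
  left_inv := by
    rintro (i | ⟨k, i⟩) <;> simp
  right_inv := by
    rintro ⟨k, i⟩
    refine Fin.cases ?_ (fun k => ?_) k <;> simp

theorem main (d : ℕ) : ∀ (n : ℕ) (T : Matrix (Fin n × Fin d) (Fin n × Fin d) ℂ), T.PosDef →
    T.det ≤ ∏ k : Fin n, (Matrix.of fun i j : Fin d => T (k, i) (k, j)).det := by
  intro n
  induction n with
  | zero =>
    intro T _
    simp
  | succ n ih =>
    intro T hT
    have hS : (T.submatrix (eqv n d) (eqv n d)).PosDef := hT.submatrix (eqv n d).injective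
    have h1 := fischer hS
    rw [det_submatrix_equiv_self] at h1
    refine h1.trans ?_
    rw [Fin.prod_univ_succ]
    have hE : ((T.submatrix (eqv n d) (eqv n d)).toBlocks₁₁).PosDef :=
      hS.submatrix (e := Sum.inl) Sum.inl_injective
    have hH : ((T.submatrix (eqv n d) (eqv n d)).toBlocks₂₂).PosDef :=
      hS.submatrix (e := Sum.inr) Sum.inr_injective
    have h2 := ih _ hH
    exact mul_le_mul_of_nonneg_left h2 hE.det_pos.le

theorem t : Pool.Agent.H53M.FIS := by
  intro n d T hT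
  have h := main d n T hT
  have h1 : ∀ k : Fin n, (Matrix.of fun i j : Fin d => T (k, i) (k, j)).det =
      (((Matrix.of fun i j : Fin d => T (k, i) (k, j)).det.re : ℝ) : ℂ) := by
    intro k
    have hp : (Matrix.of fun i j : Fin d => T (k, i) (k, j)).PosDef :=
      hT.submatrix (e := fun i : Fin d => (k, i)) (fun i j hij => by simpa using hij)
    have h3 := (Complex.le_def.1 hp.det_pos.le).2
    apply Complex.ext
    · simp
    · rw [Complex.ofReal_im, ← h3]; simp
  rw [Finset.prod_congr rfl (fun k _ => h1 k), ← Complex.ofReal_prod] at h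
  have := (Complex.le_def.1 h).1
  rwa [Complex.ofReal_re] at this

end Pool.Agent.H53M.FIS
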