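import Mathlib
import Pool.Agent.H53M.StmB

set_option autoImplicit false
set_option maxHeartbeats 1000000

open MeasureTheory Metric Set Filter Topology
open scoped ContDiff ComplexOrder

namespace Pool.Agent.H53M

open Pool.Agent.H805R2

def CORE : Prop := ∀ (ρ a : C2 → ℝ) (B r₁ A : ℝ), Rho ρ → 0 < B → Adm ρ B a → 0 < r₁ → r₁ < Real.exp (-15) → 1 ≤ A →
  (1 / (2 * Real.pi)) * ∫ θ in (0 : ℝ)..(2 * Real.pi), LE a (cp r₁ θ) ≤ A ^ 2 →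
  ∃ ψ : C2 → ℝ, Adm ρ B ψ ∧ (∀ z ∈ Om, a z ≤ ψ z) ∧ (∀ z ∈ Om, r₁ ≤ ‖z 1‖ → ψ z = a z) ∧
    ∃ x₀ : ℂ, ‖x₀‖ ≤ 3 / 4 ∧ -(2 * A + 1) ≤ ψ (pt x₀ 0)

theorem core (hP : POL) (hG : GLU) : CORE := by
  intro ρ a B r₁ A hρ hB ha hr hr' hA hm
  obtain ⟨ψ, h1, h2, h3, x₀, h4, h5⟩ := hG ρ a B r₁ (3 / 2 * A) hρ hB ha hr hr' (by linarith)
    (fun ε m₀ hε => by
      obtain ⟨m, f, q1, q2, q3, q4, q5⟩ := hP ρ a B r₁ A hρ hB ha hr hr' hA hm ε m₀ hε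
      exact ⟨m, f, q1, q2, q3, q4, q5⟩)
  exact ⟨ψ, h1, h2, h3, x₀, h4, by linarith⟩

/-- the pair of admissible functions -/
theorem pair (hM : MXL) (hAD : AD1) (hCUT : CUT) (hLOW : LOW) (hDIN : DIN) (hEXT : EXT)
    (ρ ui uk : C2 → ℝ) (νi νk : Measure C2) (B η c₁ e : ℝ) (K' : Set C2) (χ0 χ2 : C2 → ℝ)
    (hρ : Rho ρ) (hui : IsE0 Om ui νi) (huk : IsE0 Om uk νk) (hle : ∀ z ∈ Om, uk z ≤ ui z)
    (hB : 0 < B) (hη : 0 < η) (hη1 : η ≤ 1 / 4) (hc₁ : 0 < c₁) (he : 0 < e)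
    (hK' : IsCompact K') (hK'Om : K' ⊆ Om) (hneg : ∀ z ∈ K', uk z ≤ -c₁)
    (hχ0 : Continuous χ0) (hχ0c : HasCompactSupport χ0) (hχ0s : tsupport χ0 ⊆ Om)
    (hχ2 : Continuous χ2) (hχ2c : HasCompactSupport χ2) (hχ2s : tsupport χ2 ⊆ tsupport χ0)
    (hBi : ∀ z ∈ tsupport χ0, B * ρ z < ui z - 1) (hBk : ∀ z ∈ tsupport χ0, B * ρ z < uk z - 1) :
    ∃ ai ak : C2 → ℝ, Adm ρ B ai ∧ Adm ρ B ak ∧ (∀ z ∈ Om, ui z - η ≤ ai z) ∧
      (∀ z ∈ Om, uk z - 2 * η ≤ ak z) ∧ (∀ z ∈ Om, ak z ≤ ai z) ∧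
      (∫ z, χ0 z * (-ρ z) ∂νi - e ≤ ∫ z in Om, χ0 z * (-ρ z) * maDensity ai z) ∧
      (∫ z, χ2 z * (-ρ z) ∂νk - e ≤ ∫ z in Om, χ2 z * (-ρ z) * maDensity ak z) ∧
      (∀ z ∈ K', ak z ≤ max (-c₁ / 2) (B * ρ z) + η) := by
  obtain ⟨hm1, hm2, hm3, hm4, hm5, hmx, hmono, hmsp⟩ := hM
  have hρc : ContinuousOn ρ Om := hρ.sp.1.continuousOn
  -- the compact set
  obtain ⟨K0, hK0, hK0Om, hK0b⟩ := hρ.bdry (η / (2 * B)) (by positivity)
  have hK0' : ∀ z ∈ Om, B * ρ z ≤ -η / 2 → z ∈ K0 := by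
    intro z hz h
    by_contra hn
    have h1 := hK0b z hz hn
    have h2 : B * (-(η / (2 * B))) < B * ρ z := mul_lt_mul_of_pos_left h1 hB
    have h3 : B * (-(η / (2 * B))) = -η / 2 := by field_simp
    linarith
  set K1 : Set C2 := (K0 ∪ tsupport χ0) ∪ K' with hK1
  have hK1c : IsCompact K1 := (hK0.union hχ0c).union hK'
  have hK1Om : K1 ⊆ Om := union_subset (union_subset hK0Om hχ0s) hK'Om
  obtain ⟨Ui, vi, hKUi, hvi⟩ := hEXT ui νi K1 hui hK1c hK1Om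
  obtain ⟨Uk, vk, hKUk, hvk⟩ := hEXT uk νk K1 huk hK1c hK1Om
  set τ : ℝ := η / 4 with hτ
  have hτ0 : 0 < τ := by positivity
  obtain ⟨li, hli⟩ := hAD ρ ui νi B η τ Ui vi hρ hui hB hη hτ0 le_rfl
    (fun z hz h => hKUi (Or.inl (Or.inl (hK0' z hz h)))) hvi
  obtain ⟨lk, hlk⟩ := hAD ρ uk νk B (2 * η) τ Uk vk hρ huk hB (by positivity) hτ0 (by rw [hτ]; linarith)
    (fun z hz h => hKUk (Or.inl (Or.inl (hK0' z hz (by linarith))))) hvk
  -- low bounds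
  have hf0 := hCUT.2.1 χ0 (fun z => -ρ z) hχ0 hχ0c hχ0s hρc.neg
  have hf2 := hCUT.2.1 χ2 (fun z => -ρ z) hχ2 hχ2c (hχ2s.trans hχ0s) hρc.neg
  have hL0 := hLOW ρ ui νi B η τ Ui vi (fun z => χ0 z * (-ρ z)) hρ hB hη hτ0 hvi hf0.1 hf0.2.1
    (hf0.2.2.trans (fun z hz => hKUi (Or.inl (Or.inr hz))))
    (fun z hz => by have := hBi z (hf0.2.2 hz); rw [hτ]; linarith)
  have hL2 := hLOW ρ uk νk B (2 * η) τ Uk vk (fun z => χ2 z * (-ρ z)) hρ hB (by positivity) hτ0 hvk hf2.1 hf2.2.1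
    (hf2.2.2.trans (hχ2s.trans (fun z hz => hKUk (Or.inl (Or.inr hz)))))
    (fun z hz => by have := hBk z (hχ2s (hf2.2.2 hz)); rw [hτ]; linarith)
  have hgi := hL0.eventually (lt_mem_nhds (sub_lt_self _ he))
  have hgk := hL2.eventually (lt_mem_nhds (sub_lt_self _ he))
  obtain ⟨Ni, hNi⟩ := eventually_atTop.1 hgi
  obtain ⟨Nk, hNk⟩ := eventually_atTop.1 hgk
  obtain ⟨si, hsi⟩ := hvi.2.2.2.2.2.2.2.1 (η / 4) (by positivity)
  obtain ⟨sk, hsk⟩ := hvk.2.2.2.2.2.2.2.1 (η / 4) (by positivity)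
  set I : ℕ := max (max li Ni) si with hI
  have hI1 : li ≤ I := (le_max_left _ _).trans (le_max_left _ _)
  have hI2 : Ni ≤ I := (le_max_right _ _).trans (le_max_left _ _)
  have hI3 : si ≤ I := le_max_right _ _
  have hvic : Continuous (vi I) := (hvi.2.2.1 I).continuous
  obtain ⟨d1, hd1⟩ := hDIN uk νk Uk K1 vk (fun z => vi I z + η) hvk hK1c hKUk
    (hvic.add continuous_const).continuousOn
    (fun z hz => by
      have h1 := hle z (hK1Om hz)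
      have h2 := hvi.2.2.2.2.2.2.1 I z (hK1Om hz)
      linarith)
  obtain ⟨d2, hd2⟩ := hDIN uk νk Uk K' vk (fun _ => -c₁ / 2) hvk hK' (fun z hz => hKUk (Or.inr hz))
    continuousOn_const (fun z hz => by have := hneg z hz; linarith)
  set J : ℕ := max (max (max lk Nk) sk) (max d1 d2) with hJ
  have hJ1 : lk ≤ J := ((le_max_left _ _).trans (le_max_left _ _)).trans (le_max_left _ _)
  have hJ2 : Nk ≤ J := ((le_max_right _ _).trans (le_max_left _ _)).trans (le_max_left _ _)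
  have hJ3 : sk ≤ J := (le_max_right _ _).trans (le_max_left _ _)
  have hJ4 : d1 ≤ J := (le_max_left _ _).trans (le_max_right _ _)
  have hJ5 : d2 ≤ J := (le_max_right _ _).trans (le_max_right _ _)
  obtain ⟨hai, hai2⟩ := hli I hI1
  obtain ⟨hak, hak2⟩ := hlk J hJ1
  refine ⟨mx τ (fun z => vi I z - η) (fun z => B * ρ z), mx τ (fun z => vk J z - 2 * η) (fun z => B * ρ z),
    hai, hak, hai2, hak2, ?_, ?_, ?_, ?_⟩
  · intro z hz
    by_cases hzK : z ∈ K1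
    · apply hmono τ _ _ _ _ z hτ0
      · have := hd1 J hJ4 z hzK
        linarith
      · exact le_rfl
    · have h1 : -η / 2 < B * ρ z := by
        by_contra hn
        exact hzK (Or.inl (Or.inl (hK0' z hz (not_lt.1 hn))))
      have h2 : mx τ (fun z => vk J z - 2 * η) (fun z => B * ρ z) z = B * ρ z := by
        apply (hmx τ _ _ hτ0 z).1
        have := hsk J hJ3 z
        simp only [hτ]
        linarith
      rw [h2]
      exact hai.ge z hz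
  · exact (hNi I hI2).le
  · exact (hNk J hJ2).le
  · intro z hz
    have h1 := (hmx τ (fun z => vk J z - 2 * η) (fun z => B * ρ z) hτ0 z).2.2.2
    have h2 := hd2 J hJ5 z hz
    refine h1.trans ?_
    have h3 : max (vk J z - 2 * η) (B * ρ z) ≤ max (-c₁ / 2) (B * ρ z) := max_le_max (by linarith) le_rfl
    rw [hτ]
    linarith

end Pool.Agent.H53M
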