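import Mathlib
import Pool.Agent.H53M.FinA
import Pool.Agent.H805R2.Compare

set_option autoImplicit false
set_option maxHeartbeats 1000000

open MeasureTheory Metric Set Filter Topology
open scoped ContDiff ComplexOrder

namespace Pool.Agent.H53M

open Pool.Agent.H805R2

lemma isOpen_Om : IsOpen Om := by
  have h0 : Continuous fun z : C2 => ‖z 0‖ := by fun_prop
  have h1 : Continuous fun z : C2 => ‖z 1‖ := by fun_prop
  exact (isOpen_lt h0 continuous_const).inter (isOpen_lt h1 continuous_const)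

lemma meas_Om : MeasurableSet Om := isOpen_Om.measurableSet

lemma ma_dt (hI : ITG) {ρ a f : C2 → ℝ} {B : ℝ} (hρ : Rho ρ) (hB : 0 < B) (ha : Adm ρ B a)
    (hf : ContinuousOn f Om) :
    ∫ z in Om, f z * maDensity a z = 8 / Real.pi ^ 2 * ∫ z in Om, f z * dt a z := by
  rw [← integral_const_mul]
  apply setIntegral_congr_fun meas_Om
  intro z hz
  have := ((hI ρ a f B hρ hB ha hf).2.2.2 z hz).2.2
  simp only [this]
  ring

lemma c2_pos : 0 < 8 / Real.pi ^ 2 := by positivity

lemma c2_le : 8 / Real.pi ^ 2 ≤ 1 := by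
  rw [div_le_one (by positivity)]
  nlinarith [Real.pi_gt_three]

/-- cutoff error for the weight -/
lemma cut_err {ρ χ0 : C2 → ℝ} {ν : Measure C2} {M1 e : ℝ} {K : Set C2} (hρ : Rho ρ) (hM1 : 1 ≤ M1) (he : 0 < e)
    (hν : ν Om ≤ ENNReal.ofReal M1) (hK : ∀ z ∈ Om, z ∉ K → -(e / M1) < ρ z) (hχ0c : Continuous χ0)
    (hχ0s : tsupport χ0 ⊆ Om) (hχ1 : ∀ z ∈ K, χ0 z = 1) (hχ01 : ∀ z, 0 ≤ χ0 z ∧ χ0 z ≤ 1) :
    ∫ z in Om, (-ρ z) ∂ν - e ≤ ∫ z, χ0 z * (-ρ z) ∂ν := by
  have hρc : ContinuousOn ρ Om := hρ.sp.1.continuousOn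
  have hfin : IsFiniteMeasure (ν.restrict Om) :=
    ⟨by rw [Measure.restrict_apply_univ]; exact lt_of_le_of_lt hν ENNReal.ofReal_lt_top⟩
  have e1 : ∫ z, χ0 z * (-ρ z) ∂ν = ∫ z in Om, χ0 z * (-ρ z) ∂ν := by
    refine (setIntegral_eq_integral_of_forall_compl_eq_zero fun z hz => ?_).symm
    rw [image_eq_zero_of_notMem_tsupport (fun h => hz (hχ0s h)), zero_mul]
  have hbd : ∀ᵐ z ∂(ν.restrict Om), ‖-ρ z‖ ≤ 3 := by
    rw [ae_restrict_iff' meas_Om]
    refine Eventually.of_forall fun z hz => ?_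
    have h1 := hρ.neg z hz
    have h2 := hρ.ge z hz
    rw [norm_neg, Real.norm_eq_abs, abs_le]
    constructor <;> linarith
  have i1 : Integrable (fun z => -ρ z) (ν.restrict Om) :=
    Integrable.mono' (integrable_const 3) (hρc.neg.aestronglyMeasurable meas_Om) hbd
  have i2 : Integrable (fun z => χ0 z * (-ρ z)) (ν.restrict Om) := by
    refine Integrable.mono' (integrable_const 3) ((hχ0c.continuousOn.mul hρc.neg).aestronglyMeasurable meas_Om) ?_
    filter_upwards [hbd] with z hz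
    rw [norm_mul]
    have h1 : ‖χ0 z‖ ≤ 1 := by rw [Real.norm_eq_abs, abs_of_nonneg (hχ01 z).1]; exact (hχ01 z).2
    calc ‖χ0 z‖ * ‖-ρ z‖ ≤ 1 * 3 := mul_le_mul h1 hz (norm_nonneg _) zero_le_one
      _ = 3 := one_mul 3
  rw [e1]
  have i3 : Integrable (fun _ : C2 => e / M1) (ν.restrict Om) := integrable_const _
  have h1 : ∫ z in Om, (-ρ z) ∂ν ≤ ∫ z in Om, (χ0 z * (-ρ z) + e / M1) ∂ν := by
    have i4 : Integrable (fun z => χ0 z * (-ρ z) + e / M1) (ν.restrict Om) := i2.add i3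
    apply setIntegral_mono_on i1 i4 meas_Om
    intro z hz
    by_cases hzK : z ∈ K
    · simp only [hχ1 z hzK, one_mul]
      have : 0 < e / M1 := by positivity
      linarith
    · have h2 := hK z hz hzK
      have h3 : 0 ≤ χ0 z * (-ρ z) := mul_nonneg (hχ01 z).1 (by linarith [hρ.neg z hz])
      linarith
  have h2 : ∫ z in Om, (χ0 z * (-ρ z) + e / M1) ∂ν = ∫ z in Om, χ0 z * (-ρ z) ∂ν + (ν Om).toReal * (e / M1) := by
    rw [integral_add i2 i3, integral_const, smul_eq_mul, measureReal_restrict_apply_univ]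
    rfl
  have h3 : (ν Om).toReal * (e / M1) ≤ e := by
    have h4 : (ν Om).toReal ≤ M1 := by
      have := ENNReal.toReal_mono ENNReal.ofReal_ne_top hν
      rwa [ENNReal.toReal_ofReal (by linarith)] at this
    calc (ν Om).toReal * (e / M1) ≤ M1 * (e / M1) := by gcongr
      _ = e := by field_simp
  linarith

/-- the final inequality, for given admissible functions -/
theorem last (hM : MXL) (hI : ITG) (hCMP : CMP) (hENE : ENE) (hMSS : MSS) (hAD2 : AD2) (hAD3 : AD3)
    (ρ ai ak ψ : C2 → ℝ) (χ2 : C2 → ℝ) (B N s R e S CX Mi : ℝ) (hρ : Rho ρ) (hB : 0 < B)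
    (hai : Adm ρ B ai) (hak : Adm ρ B ak) (hle : ∀ z ∈ Om, ak z ≤ ai z) (hψ : SP ψ) (hψ0 : ∀ z ∈ Om, ψ z ≤ 0)
    (hCX : ∀ ε : ℝ, 0 < ε → ∫ z in Om, (-vv ε z) * DD ai ρ z ≤ CX * Mi)
    (hMi : ∀ z ∈ Om, -Mi ≤ ai z) (hN : Mi + 2 ≤ N) (hN1 : 1 ≤ N) (hs : 0 < s) (hR : R = N / s + 1) (he : 0 < e)
    (hsC : s * (CX * Mi) ≤ e)
    (hEk : ∫ z in Om, (-ρ z) * maDensity ak z ≤ S + 3 * e)
    (hEi : S - 3 * e ≤ ∫ z in Om, (-ρ z) * maDensity ai z)
    (hχ2c : Continuous χ2) (hχ2 : ∀ z, 0 ≤ χ2 z ∧ χ2 z ≤ 1) (hχ2R : ∀ z, Real.exp (-R) ≤ ‖z 1‖ → χ2 z = 0)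
    (hEχ : S - 3 * e ≤ ∫ z in Om, χ2 z * (-ρ z) * maDensity ak z)
    (hEψ : ∫ z in Om, (-ψ z) * maDensity ak z ≤ 2 * e)
    (hψK : ∀ z ∈ Om, Real.exp (-R) ≤ ‖z 1‖ → ak z ≤ -N + 1 / 4 → ψ z ≤ -3) :
    S ≤ 19 * e := by
  obtain ⟨hm1, hm2, hm3, hm4, hm5, hmx, hmono, hmsp⟩ := hM
  have hρc : ContinuousOn ρ Om := hρ.sp.1.continuousOn
  have hψc : ContinuousOn ψ Om := hψ.1.continuousOn
  set b : C2 → ℝ := mx (1 / 2) ak (fun _ => -N) with hb
  have hbA : Adm ρ B b := hAD2 ρ ak B N hρ hB hak hN1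
  have hbm := fun z => hmx (1 / 2) ak (fun _ => -N) (by norm_num) z
  have hkb : ∀ z ∈ Om, ak z ≤ b z := fun z _ => (le_max_left _ _).trans (hbm z).2.2.1
  have hNb : ∀ z, -N ≤ b z := fun z => (le_max_right (ak z) (-N)).trans (hbm z).2.2.1
  have hbi : ∀ z ∈ Om, b z ≤ ai z := by
    intro z hz
    by_cases h : -N + 1 / 4 ≤ ak z
    · have h1 := (hbm z).2.1 (by linarith)
      simp only [hb]
      rw [h1]
      exact hle z hz
    · have h1 := (hbm z).2.2.2
      have h2 : max (ak z) (-N) ≤ -N + 1 / 4 := max_le (not_le.1 h).le (by linarith)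
      have h3 := hMi z hz
      simp only [hb]
      linarith
  -- energies
  have c2 := c2_pos
  have hEb : S - 3 * e ≤ ∫ z in Om, (-ρ z) * maDensity b z := by
    refine hEi.trans ?_
    rw [ma_dt hI hρ hB hai (f := fun z => -ρ z) hρc.neg, ma_dt hI hρ hB hbA (f := fun z => -ρ z) hρc.neg]
    exact mul_le_mul_of_nonneg_left (hCMP ρ B b ai ρ hρ hbA hai hbi hρ.sp) c2.le
  have hEψb : ∫ z in Om, (-ψ z) * maDensity b z ≤ 2 * e := by
    refine le_trans ?_ hEψ
    rw [ma_dt hI hρ hB hak (f := fun z => -ψ z) hψc.neg, ma_dt hI hρ hB hbA (f := fun z => -ψ z) hψc.neg]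
    exact mul_le_mul_of_nonneg_left (hCMP ρ B ak b ψ hρ hak hbA hkb hψ) c2.le
  have ib1 := (hI ρ b (fun z => -ρ z) B hρ hB hbA hρc.neg).2.2.1
  have ib2 := (hI ρ b (fun z => -ψ z) B hρ hB hbA hψc.neg).2.2.1
  have hL : S - 5 * e ≤ ∫ z in Om, (-ρ z + ψ z) * maDensity b z := by
    have h1 : ∫ z in Om, (-ρ z + ψ z) * maDensity b z =
        (∫ z in Om, (-ρ z) * maDensity b z) - (∫ z in Om, (-ψ z) * maDensity b z) := by
      rw [← integral_sub ib1 ib2]
      congr 1
      funext z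
      ring
    rw [h1]
    linarith
  -- the function g
  obtain ⟨m2, hm2⟩ : ∃ m2 : ℝ, m2 = ∫ z in Om, DD ρ ρ z := ⟨_, rfl⟩
  set τ : ℝ := e / (B * |m2| + 1) with hτ
  have hτ0 : 0 < τ := by positivity
  set ε1 : ℝ := Real.exp (-R) with hε1
  have hε10 : 0 < ε1 := Real.exp_pos _
  set g : C2 → ℝ := mx (τ / 2) (fun z => s * vv ε1 z - τ) b with hg
  have hgA : Adm ρ B g := hAD3 ρ b B s τ ε1 hρ hB hbA hs.le hτ0 hε10
  have hgm := fun z => hmx (τ / 2) (fun z => s * vv ε1 z - τ) b (by positivity) z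
  have hbg : ∀ z, b z ≤ g z := fun z => (le_max_right _ _).trans (hgm z).2.2.1
  have hvg : ∀ z, s * vv ε1 z - τ ≤ g z := fun z => (le_max_left _ _).trans (hgm z).2.2.1
  have hEg : ∫ z in Om, (-ρ z) * maDensity g z ≤ 8 * e := by
    have h1 := hENE ρ B ak ai g hρ hak hai hgA hle (fun z hz => (hkb z hz).trans (hbg z))
    have h2 : ∫ z in Om, (-g z) * DD ai ρ z ≤ s * (CX * Mi) + τ * (B * m2) := by
      have hvc : ContinuousOn (fun z => -vv ε1 z) Om := by
        apply Continuous.continuousOn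
        unfold vv
        apply Continuous.neg
        apply Continuous.div_const
        apply Continuous.log
        · fun_prop
        · intro z; positivity
      have j0 := (hI ρ ai (fun z => -g z) B hρ hB hai hgA.sp.1.continuousOn.neg).2.1
      have j1 := (hI ρ ai (fun z => -vv ε1 z) B hρ hB hai hvc).2.1
      have j2 := (hI ρ ai (fun z => 1) B hρ hB hai continuousOn_const).2.1
      have h3 : ∫ z in Om, (-g z) * DD ai ρ z ≤
          ∫ z in Om, (s * ((-vv ε1 z) * DD ai ρ z) + τ * (1 * DD ai ρ z)) := by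
        have j3 : IntegrableOn (fun z => s * ((-vv ε1 z) * DD ai ρ z) + τ * (1 * DD ai ρ z)) Om :=
          (j1.const_mul s).add (j2.const_mul τ)
        apply setIntegral_mono_on j0 j3 meas_Om
        intro z hz
        have h4 := ((hI ρ ai (fun z => 1) B hρ hB hai continuousOn_const).2.2.2 z hz).2.1
        have h5 := hvg z
        have h6 : -g z ≤ s * (-vv ε1 z) + τ := by linarith
        calc (-g z) * DD ai ρ z ≤ (s * (-vv ε1 z) + τ) * DD ai ρ z := mul_le_mul_of_nonneg_right h6 h4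
          _ = _ := by ring
      rw [integral_add (j1.const_mul s) (j2.const_mul τ), integral_const_mul, integral_const_mul] at h3
      have h7 := hMSS ρ B ai hρ hai
      have h8 : ∫ z in Om, 1 * DD ai ρ z = B * m2 := by
        rw [hm2, ← h7]
        congr 1
        funext z
        ring
      rw [h8] at h3
      have h9 := mul_le_mul_of_nonneg_left (hCX ε1 hε10) hs.le
      linarith
    have h3 : τ * (B * m2) ≤ e := by
      have h4 : B * m2 ≤ B * |m2| + 1 := by
        have := mul_le_mul_of_nonneg_left (le_abs_self m2) hB.le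
        linarith
      calc τ * (B * m2) ≤ τ * (B * |m2| + 1) := mul_le_mul_of_nonneg_left h4 hτ0.le
        _ = e := by rw [hτ]; field_simp
    have h5 : ∫ z in Om, (-g z) * DD ai ρ z ≤ 2 * e := by linarith
    rw [ma_dt hI hρ hB hgA (f := fun z => -ρ z) hρc.neg]
    rw [ma_dt hI hρ hB hai (f := fun z => -ρ z) hρc.neg] at hEi
    rw [ma_dt hI hρ hB hak (f := fun z => -ρ z) hρc.neg] at hEk
    have h6 := mul_le_mul_of_nonneg_left h1 c2.le
    have h7 : 8 / Real.pi ^ 2 * (∫ z in Om, (-g z) * DD ai ρ z) ≤ 2 * e := by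
      rcases le_total 0 (∫ z in Om, (-g z) * DD ai ρ z) with h | h
      · exact (mul_le_of_le_one_left h c2_le).trans h5
      · exact (mul_nonpos_of_nonneg_of_nonpos c2.le h).trans (by positivity)
    rw [mul_add, mul_sub] at h6
    linarith
  -- pointwise comparison of densities
  have ik1 := (hI ρ ak (fun z => -ρ z) B hρ hB hak hρc.neg).2.2.1
  have ik2 := (hI ρ ak (fun z => χ2 z * (-ρ z)) B hρ hB hak (hχ2c.continuousOn.mul hρc.neg)).2.2.1
  have ig := (hI ρ g (fun z => -ρ z) B hρ hB hgA hρc.neg).2.2.1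
  have ibψ : IntegrableOn (fun z => (-ρ z + ψ z) * maDensity b z) Om :=
    (hI ρ b (fun z => -ρ z + ψ z) B hρ hB hbA (hρc.neg.add hψc)).2.2.1
  have hgc : ContinuousOn g Om := hgA.sp.1.continuousOn
  have hkc : ContinuousOn ak Om := hak.sp.1.continuousOn
  have hy : Continuous fun z : C2 => ‖z 1‖ := by fun_prop
  have hfin : ∫ z in Om, (-ρ z + ψ z) * maDensity b z ≤
      ∫ z in Om, ((-ρ z) * maDensity g z + ((-ρ z) * maDensity ak z - χ2 z * (-ρ z) * maDensity ak z)) := by
    have ii : IntegrableOn (fun z => (-ρ z) * maDensity g z +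
      ((-ρ z) * maDensity ak z - χ2 z * (-ρ z) * maDensity ak z)) Om := ig.add (ik1.sub ik2)
    apply setIntegral_mono_on ibψ ii meas_Om
    intro z hz
    have hρz := hρ.neg z hz
    have hρz2 := hρ.ge z hz
    have p1 := (hI ρ ak (fun z => 1) B hρ hB hak continuousOn_const).2.2.2 z hz
    have p2 := (hI ρ g (fun z => 1) B hρ hB hgA continuousOn_const).2.2.2 z hz
    have p3 := (hI ρ b (fun z => 1) B hρ hB hbA continuousOn_const).2.2.2 z hz
    have q1 : 0 ≤ maDensity ak z := by rw [p1.2.2]; exact mul_nonneg c2.le p1.1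
    have q2 : 0 ≤ maDensity g z := by rw [p2.2.2]; exact mul_nonneg c2.le p2.1
    have q3 : 0 ≤ maDensity b z := by rw [p3.2.2]; exact mul_nonneg c2.le p3.1
    have q4 : 0 ≤ (-ρ z) * maDensity ak z - χ2 z * (-ρ z) * maDensity ak z := by
      have h1 : (-ρ z) * maDensity ak z - χ2 z * (-ρ z) * maDensity ak z =
          (1 - χ2 z) * ((-ρ z) * maDensity ak z) := by ring
      rw [h1]
      exact mul_nonneg (by linarith [(hχ2 z).2]) (mul_nonneg (by linarith) q1)
    have q5 : 0 ≤ (-ρ z) * maDensity g z := mul_nonneg (by linarith) q2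
    by_cases hyz : ‖z 1‖ < Real.exp (-R)
    · -- here g = b near z
      have heq : g =ᶠ[𝓝 z] b := by
        have ho : ∀ᶠ w in 𝓝 z, ‖w 1‖ < Real.exp (-R) := (hy.continuousAt).eventually (gt_mem_nhds hyz)
        filter_upwards [ho] with w hw
        apply (hgm w).1
        have h1 : vv ε1 w ≤ -R + Real.log 2 / 2 := by
          unfold vv
          have hw0 : ‖w 1‖ ^ 2 ≤ ε1 ^ 2 := by
            have := norm_nonneg (w 1)
            exact pow_le_pow_left₀ this hw.le 2
          have h2 : (‖w 1‖ ^ 2 + ε1 ^ 2) / (1 + ε1 ^ 2) ≤ 2 * ε1 ^ 2 := by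
            rw [div_le_iff₀ (by positivity)]
            nlinarith [sq_nonneg (ε1 ^ 2)]
          have h3 : Real.log ((‖w 1‖ ^ 2 + ε1 ^ 2) / (1 + ε1 ^ 2)) ≤ Real.log (2 * ε1 ^ 2) :=
            Real.log_le_log (by positivity) h2
          have h4 : Real.log (2 * ε1 ^ 2) = Real.log 2 + 2 * (-R) := by
            rw [Real.log_mul (by norm_num) (by positivity), Real.log_pow, hε1, Real.log_exp]
            norm_num
          linarith
        have h2 : Real.log 2 ≤ 1 := by
          have := Real.log_two_lt_d9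
          linarith
        have h3 : s * vv ε1 w ≤ -N := by
          have h4 : vv ε1 w ≤ -(N / s) := by rw [hR] at h1; linarith
          have h5 := mul_le_mul_of_nonneg_left h4 hs.le
          have h6 : s * -(N / s) = -N := by field_simp
          linarith
        have h4 := hNb w
        linarith
      have h1 : maDensity b z = maDensity g z := by
        unfold maDensity
        rw [hess_congr heq]
      have h2 : (-ρ z + ψ z) * maDensity b z ≤ (-ρ z) * maDensity g z := by
        rw [← h1]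
        exact mul_le_mul_of_nonneg_right (by linarith [hψ0 z hz]) q3
      linarith
    · rw [not_lt] at hyz
      have h0 : χ2 z = 0 := hχ2R z hyz
      by_cases hkz : ak z ≤ -N + 1 / 4
      · have h1 := hψK z hz hyz hkz
        have h2 : (-ρ z + ψ z) * maDensity b z ≤ 0 :=
          mul_nonpos_of_nonpos_of_nonneg (by linarith) q3
        linarith
      · rw [not_le] at hkz
        have heq : b =ᶠ[𝓝 z] ak := by
          have ho : ∀ᶠ w in 𝓝 z, -N + 1 / 4 < ak w :=
            (hkc.continuousAt (isOpen_Om.mem_nhds hz)).eventually (lt_mem_nhds hkz)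
          filter_upwards [ho] with w hw
          apply (hbm w).2.1
          linarith
        have h1 : maDensity b z = maDensity ak z := by
          unfold maDensity
          rw [hess_congr heq]
        have h2 : (-ρ z + ψ z) * maDensity b z ≤ (-ρ z) * maDensity ak z := by
          rw [← h1]
          exact mul_le_mul_of_nonneg_right (by linarith [hψ0 z hz]) q3
        rw [h0]
        linarith
  have hsum : ∫ z in Om, ((-ρ z) * maDensity g z + ((-ρ z) * maDensity ak z - χ2 z * (-ρ z) * maDensity ak z)) =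
      (∫ z in Om, (-ρ z) * maDensity g z) + ((∫ z in Om, (-ρ z) * maDensity ak z) -
        (∫ z in Om, χ2 z * (-ρ z) * maDensity ak z)) := by
    have h1 := integral_add ig (ik1.sub ik2)
    have h2 := integral_sub ik1 ik2
    simp only [Pi.sub_apply] at h1 h2
    rw [h1, h2]
  rw [hsum] at hfin
  linarith

end Pool.Agent.H53M
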