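import Mathlib
import Pool.Agent.H53M.FinB

set_option autoImplicit false
set_option maxHeartbeats 2000000

open MeasureTheory Metric Set Filter Topology
open scoped ContDiff ComplexOrder

namespace Pool.Agent.H53M

open Pool.Agent.H805R2

lemma S_pos {ρ : C2 → ℝ} {μ : Measure C2} (hρ : Rho ρ) (hμ : μ Om < ⊤) (hμ0 : μ Om ≠ 0) :
    0 < ∫ z in Om, (-ρ z) ∂μ := by
  have hρc : ContinuousOn ρ Om := hρ.sp.1.continuousOn
  have hfin : IsFiniteMeasure (μ.restrict Om) := ⟨by rw [Measure.restrict_apply_univ]; exact hμ⟩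
  have hint : IntegrableOn (fun z => -ρ z) Om μ := by
    refine Integrable.mono' (integrable_const 3) (hρc.neg.aestronglyMeasurable meas_Om) ?_
    rw [ae_restrict_iff' meas_Om]
    refine Eventually.of_forall fun x hx => ?_
    have h1 := hρ.neg _ hx
    have h2 := hρ.ge _ hx
    rw [norm_neg, Real.norm_eq_abs, abs_le]
    constructor <;> linarith
  rw [setIntegral_pos_iff_support_of_nonneg_ae]
  · have : Function.support (fun z => -ρ z) ∩ Om = Om := by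
      apply inter_eq_right.2
      intro x hx
      rw [Function.mem_support]
      have h1 := hρ.neg _ hx
      linarith
    rw [this]
    exact pos_iff_ne_zero.2 hμ0
  · rw [EventuallyLE, ae_restrict_iff' meas_Om]
    refine Eventually.of_forall fun x hx => ?_
    have h1 := hρ.neg _ hx
    simp only [Pi.zero_apply]
    linarith
  · exact hint

lemma ae_line (c : ℝ) {μ : Measure C2} (hμc : μ ≤ muD c) : ∀ᵐ z ∂μ, z 1 = 0 := by
  have hcpt : Continuous fun x : ℂ => pt x 0 := by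
    unfold pt
    fun_prop
  have h1 : ∀ᵐ z ∂(muD c), z 1 = 0 := by
    unfold muD
    apply Measure.ae_smul_measure
    rw [ae_map_iff hcpt.measurable.aemeasurable]
    · exact Eventually.of_forall fun x => by simp [pt]
    · have hc : Continuous fun z : C2 => z 1 := by fun_prop
      exact (isClosed_eq hc continuous_const).measurableSet
  exact (Measure.absolutelyContinuous_of_le hμc).ae_le h1

theorem main (hM : MXL) (hI : ITG) (hCMP : CMP) (hENE : ENE) (hMSS : MSS) (hXTW : XTW) (hRHO : RHO)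
    (hAD1 : AD1) (hAD2 : AD2) (hAD3 : AD3) (hAD4 : AD4) (hUPG : UPG) (hFIB : FIB) (hC0C : C0C)
    (hNEG : NEG) (hHAR : HAR) (hRAD : RAD) (hCORE : CORE) (hMUI : MUI) (hNEX : NEX) (hCUT : CUT)
    (hLOW : LOW) (hDIN : DIN) (hEXT : EXT) (hDEG : DEG) (c : ℝ) (hc : 0 < c) (μ : Measure C2)
    (hμc : μ ≤ muD c) (hμ0 : μ Om ≠ 0) (φ : C2 → EReal)
    (h : IsCegrellF Om φ μ) : False := by
  obtain ⟨hφ, hμ, u, ν, hE, hanti, htend, ⟨M, hMν⟩, hweak⟩ := h
  obtain ⟨ρ, hρ⟩ := hRHO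
  obtain ⟨hMU1, -, -, hMU4⟩ := hMUI c hc
  have hρc : ContinuousOn ρ Om := hρ.sp.1.continuousOn
  obtain ⟨S, hSdef⟩ : ∃ S : ℝ, S = ∫ z in Om, (-ρ z) ∂μ := ⟨_, rfl⟩
  have hS : 0 < S := by rw [hSdef]; exact S_pos hρ hμ hμ0
  obtain ⟨M1, hM1, hMν1⟩ : ∃ M1 : ℝ, 1 ≤ M1 ∧ ∀ j, ν j Om ≤ ENNReal.ofReal M1 :=
    ⟨max M 1, le_max_right _ _, fun j => (hMν j).trans (ENNReal.ofReal_le_ofReal (le_max_left _ _))⟩
  have hconv := hC0C ρ ν μ M1 hρ hMν1 hμ hweak
  have hconvρ : Tendsto (fun j => ∫ z in Om, (-ρ z) ∂(ν j)) atTop (𝓝 S) := by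
    rw [hSdef]
    exact hconv ρ 1 zero_le_one hρc (fun z hz => ⟨(hρ.neg z hz).le, by simp⟩)
  -- nondegenerate
  obtain ⟨j0, z0, hz0, hj0⟩ : ∃ j0 : ℕ, ∃ z0 ∈ Om, u j0 z0 < 0 := by
    by_contra hcon
    push_neg at hcon
    have h0 : ∀ j, ∫ z in Om, (-ρ z) ∂(ν j) = 0 := fun j =>
      hDEG ρ (u j) (ν j) hρ (hE j) (fun z hz => le_antisymm ((hE j).2.2.1 z hz) (hcon j z hz))
    simp only [h0] at hconvρ
    have := tendsto_nhds_unique hconvρ tendsto_const_nhds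
    linarith
  obtain ⟨e, he, heS⟩ : ∃ e : ℝ, 0 < e ∧ S = 100 * e := ⟨S / 100, by positivity, by ring⟩
  obtain ⟨j1, hj1⟩ : ∃ j1 : ℕ, ∀ j ≥ j1, S - e < ∫ z in Om, (-ρ z) ∂(ν j) ∧ ∫ z in Om, (-ρ z) ∂(ν j) < S + e := by
    have h1 := hconvρ.eventually (lt_mem_nhds (by linarith : S - e < S))
    have h2 := hconvρ.eventually (gt_mem_nhds (by linarith : S < S + e))
    exact eventually_atTop.1 (h1.and h2)
  set i : ℕ := max j0 j1 with hi
  obtain ⟨Mi0, hMi0⟩ := (hE i).2.1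
  obtain ⟨Mi, hMi1, hMi2⟩ : ∃ Mi : ℝ, 1 ≤ Mi ∧ ∀ z ∈ Om, -(Mi - 1) ≤ u i z :=
    ⟨max Mi0 0 + 1, by linarith [le_max_right Mi0 0], fun z hz => by
      have := hMi0 z hz
      have h2 := le_max_left Mi0 0
      linarith⟩
  obtain ⟨CX, hCX0, hCX⟩ := hXTW ρ hρ
  obtain ⟨s, hs0, hs1, hsC⟩ : ∃ s : ℝ, 0 < s ∧ s ≤ 1 ∧ s * (CX * Mi) ≤ e := by
    have hp : 0 < CX * Mi := by positivity
    refine ⟨min 1 (e / (CX * Mi)), lt_min one_pos (by positivity), min_le_left _ _, ?_⟩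
    calc min 1 (e / (CX * Mi)) * (CX * Mi) ≤ (e / (CX * Mi)) * (CX * Mi) :=
          mul_le_mul_of_nonneg_right (min_le_right _ _) hp.le
      _ = e := by field_simp
  obtain ⟨CF, hCF0, hCF⟩ := hFIB
  obtain ⟨CH, hCH0, hCH⟩ := hHAR
  obtain ⟨N, hN1, hN16, hA1, hNe⟩ := hNEX c s CH CF M1 (e / 2) (Mi + 3) hc hs0 hCH0 hCF0 hM1 (by positivity)
  set R : ℝ := N / s + 1 with hR
  have hNs : N ≤ N / s := by
    rw [le_div_iff₀ hs0]
    nlinarith
  have hR15 : 15 < R := by rw [hR]; linarith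
  obtain ⟨q, hq1, hq2, hq3, hq4⟩ := hRAD R hR15.le
  set A : ℝ := Real.sqrt (CF * (N / s + 2) * M1) with hA
  have hNs0 : 0 < N / s := by positivity
  have hA2 : A ^ 2 = CF * (R + 1) * M1 := by
    rw [hA, Real.sq_sqrt (by positivity), hR]
    ring
  -- cutoff functions
  obtain ⟨Kt, hKt, hKtOm, hKtb⟩ := hρ.bdry (e / M1) (by positivity)
  obtain ⟨χ0, hχ0s, hχ0c, hχ0t, hχ01, hχ0b⟩ := hCUT.1 Kt hKt hKtOm
  obtain ⟨χ2, hχ2c, hχ2cs, hχ2t, hχ2b, hχ2R, hχ20⟩ := hCUT.2.2 χ0 (Real.exp (-R)) hχ0s.continuous hχ0c hχ0t hχ0b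
    (Real.exp_pos _)
  have hf0 := hCUT.2.1 χ0 (fun z => -ρ z) hχ0s.continuous hχ0c hχ0t hρc.neg
  have hf2 := hCUT.2.1 χ2 (fun z => -ρ z) hχ2c hχ2cs (hχ2t.trans hχ0t) hρc.neg
  have hcut : ∀ j, ∫ z in Om, (-ρ z) ∂(ν j) - e ≤ ∫ z, χ0 z * (-ρ z) ∂(ν j) := fun j =>
    cut_err hρ hM1 he (hMν1 j) hKtb hχ0s.continuous hχ0t hχ01 hχ0b
  have hw0 := hweak (fun z => χ0 z * (-ρ z)) hf0.1 hf0.2.1 (hf0.2.2.trans hχ0t)
  have hw2 := hweak (fun z => χ2 z * (-ρ z)) hf2.1 hf2.2.1 (hf2.2.2.trans (hχ2t.trans hχ0t))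
  have h0S : S - e ≤ ∫ z, χ0 z * (-ρ z) ∂μ :=
    le_of_tendsto_of_tendsto' (hconvρ.sub_const e) hw0 hcut
  have h02 : ∫ z, χ2 z * (-ρ z) ∂μ = ∫ z, χ0 z * (-ρ z) ∂μ := by
    apply integral_congr_ae
    filter_upwards [ae_line c hμc] with z hz
    have h1 : z = pt (z 0) 0 := by
      ext i
      fin_cases i
      · simp [pt]
      · simpa [pt] using hz
    rw [h1]
    simp only [hχ20]
  obtain ⟨j2, hj2⟩ : ∃ j2 : ℕ, ∀ j ≥ j2, S - 2 * e < ∫ z, χ2 z * (-ρ z) ∂(ν j) := by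
    rw [← h02] at h0S
    exact eventually_atTop.1 (hw2.eventually (lt_mem_nhds (by linarith)))
  set k : ℕ := max i j2 with hk
  have hik : i ≤ k := le_max_left _ _
  obtain ⟨Mk, hMk⟩ := (hE k).2.1
  -- lower bound of -ρ on the support of χ0
  obtain ⟨c₀, hc₀, hc₀b⟩ : ∃ c₀ : ℝ, 0 < c₀ ∧ ∀ z ∈ tsupport χ0, ρ z ≤ -c₀ := by
    rcases (tsupport χ0).eq_empty_or_nonempty with hemp | hne
    · exact ⟨1, one_pos, fun z hz => by rw [hemp] at hz; exact absurd hz (notMem_empty z)⟩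
    · obtain ⟨z1, hz1, hz1m⟩ := hχ0c.isCompact.exists_isMaxOn hne (hρc.mono hχ0t)
      exact ⟨-ρ z1, by linarith [hρ.neg z1 (hχ0t hz1)], fun z hz => by
        have := hz1m hz
        simp only [mem_setOf_eq] at this
        linarith⟩
  obtain ⟨B, hB, hBi, hBk⟩ : ∃ B : ℝ, 0 < B ∧ (∀ z ∈ tsupport χ0, B * ρ z < u i z - 1) ∧
      (∀ z ∈ tsupport χ0, B * ρ z < u k z - 1) := by
    refine ⟨(|Mk| + |Mi| + 2) / c₀, by positivity, ?_, ?_⟩
    · intro z hz
      have h1 := hc₀b z hz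
      have h2 : (|Mk| + |Mi| + 2) / c₀ * ρ z ≤ (|Mk| + |Mi| + 2) / c₀ * (-c₀) :=
        mul_le_mul_of_nonneg_left h1 (by positivity)
      have h3 : (|Mk| + |Mi| + 2) / c₀ * (-c₀) = -(|Mk| + |Mi| + 2) := by field_simp
      have h4 := hMi2 z (hχ0t hz)
      have h5 := le_abs_self Mi
      have h6 := abs_nonneg Mk
      linarith
    · intro z hz
      have h1 := hc₀b z hz
      have h2 : (|Mk| + |Mi| + 2) / c₀ * ρ z ≤ (|Mk| + |Mi| + 2) / c₀ * (-c₀) :=
        mul_le_mul_of_nonneg_left h1 (by positivity)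
      have h3 : (|Mk| + |Mi| + 2) / c₀ * (-c₀) = -(|Mk| + |Mi| + 2) := by field_simp
      have h4 := hMk z (hχ0t hz)
      have h5 := le_abs_self Mk
      have h6 := abs_nonneg Mi
      linarith
  obtain ⟨η₀, hη₀, hFIBη⟩ := hCF ρ q (R + 1) B hρ hq1 hq2 hq3 (by linarith) hB
  obtain ⟨mρ, hmρ⟩ : ∃ mρ : ℝ, mρ = ∫ z in Om, maDensity ρ z := ⟨_, rfl⟩
  set κ : ℝ := 5 / (N - 1) with hκ
  have hκ0 : 0 < κ := by rw [hκ]; apply div_pos (by norm_num); linarith
  obtain ⟨om, hom0, hom1, hom2⟩ : ∃ om : ℝ, 0 < om ∧ 1 * om * B ^ 2 * mρ ≤ e ∧ (κ * B) * om * B ^ 2 * mρ ≤ e := by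
    have hp : 0 < (1 + κ * B) * B ^ 2 * (|mρ| + 1) := by positivity
    refine ⟨e / ((1 + κ * B) * B ^ 2 * (|mρ| + 1)), by positivity, ?_, ?_⟩
    · have h1 : B ^ 2 * mρ ≤ (1 + κ * B) * B ^ 2 * (|mρ| + 1) := by
        have h2 : mρ ≤ |mρ| + 1 := by linarith [le_abs_self mρ]
        have h3 : B ^ 2 * mρ ≤ B ^ 2 * (|mρ| + 1) := mul_le_mul_of_nonneg_left h2 (by positivity)
        have h4 : 0 ≤ κ * B * (B ^ 2 * (|mρ| + 1)) := by positivity
        nlinarith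
      calc 1 * (e / ((1 + κ * B) * B ^ 2 * (|mρ| + 1))) * B ^ 2 * mρ =
            (e / ((1 + κ * B) * B ^ 2 * (|mρ| + 1))) * (B ^ 2 * mρ) := by ring
        _ ≤ (e / ((1 + κ * B) * B ^ 2 * (|mρ| + 1))) * ((1 + κ * B) * B ^ 2 * (|mρ| + 1)) :=
            mul_le_mul_of_nonneg_left h1 (by positivity)
        _ = e := by field_simp
    · have h1 : κ * B * (B ^ 2 * mρ) ≤ (1 + κ * B) * B ^ 2 * (|mρ| + 1) := by
        have h2 : mρ ≤ |mρ| + 1 := by linarith [le_abs_self mρ]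
        have h3 : κ * B * (B ^ 2 * mρ) ≤ κ * B * (B ^ 2 * (|mρ| + 1)) :=
          mul_le_mul_of_nonneg_left (mul_le_mul_of_nonneg_left h2 (by positivity)) (by positivity)
        have h4 : 0 ≤ B ^ 2 * (|mρ| + 1) := by positivity
        nlinarith
      calc κ * B * (e / ((1 + κ * B) * B ^ 2 * (|mρ| + 1))) * B ^ 2 * mρ =
            (e / ((1 + κ * B) * B ^ 2 * (|mρ| + 1))) * (κ * B * (B ^ 2 * mρ)) := by ring
        _ ≤ (e / ((1 + κ * B) * B ^ 2 * (|mρ| + 1))) * ((1 + κ * B) * B ^ 2 * (|mρ| + 1)) :=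
            mul_le_mul_of_nonneg_left h1 (by positivity)
        _ = e := by field_simp
  obtain ⟨K', hK', hK'Om, hK'b⟩ := hρ.bdry om hom0
  obtain ⟨c₁, hc₁, hc₁b⟩ := hNEG (u k) (ν k) (hE k)
    ⟨z0, hz0, lt_of_le_of_lt (hanti z0 hz0 ((le_max_left j0 j1).trans hik)) hj0⟩ K' hK' hK'Om
  obtain ⟨lam, hlam1, hlam2, hlamS⟩ : ∃ lam : ℝ, 1 < lam ∧ lam ^ 2 ≤ 2 ∧ lam ^ 2 * (S + e) ≤ S + 2 * e := by
    refine ⟨Real.sqrt (1 + e / (S + e)), ?_, ?_, ?_⟩
    · rw [Real.lt_sqrt (by norm_num)]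
      have : 0 < e / (S + e) := by positivity
      linarith
    · rw [Real.sq_sqrt (by positivity)]
      have : e / (S + e) ≤ 1 := by rw [div_le_one (by positivity)]; linarith
      linarith
    · rw [Real.sq_sqrt (by positivity)]
      have h1 : (1 + e / (S + e)) * (S + e) = S + e + e := by field_simp
      linarith
  have hlam0 : 0 < lam - 1 := by linarith
  obtain ⟨η, hη0, hη14, hη2, hη3⟩ : ∃ η : ℝ, 0 < η ∧ η ≤ 1 / 4 ∧ 2 * η ≤ η₀ ∧
      4 * lam * (2 * η) / (lam - 1) + η < min (c₁ / 2) (B * om) := by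
    have hmin : 0 < min (c₁ / 2) (B * om) := lt_min (by positivity) (by positivity)
    set D : ℝ := 8 * lam / (lam - 1) + 1 with hD
    have hD0 : 0 < D := by positivity
    refine ⟨min (1 / 4) (min (η₀ / 2) (min (c₁ / 2) (B * om) / (2 * D))), ?_, min_le_left _ _, ?_, ?_⟩
    · exact lt_min (by norm_num) (lt_min (by positivity) (by positivity))
    · have h1 := (min_le_right (1 / 4 : ℝ) (min (η₀ / 2) (min (c₁ / 2) (B * om) / (2 * D)))).trans (min_le_left _ _)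
      linarith
    · have h1 := (min_le_right (1 / 4 : ℝ) (min (η₀ / 2) (min (c₁ / 2) (B * om) / (2 * D)))).trans (min_le_right _ _)
      set η := min (1 / 4 : ℝ) (min (η₀ / 2) (min (c₁ / 2) (B * om) / (2 * D))) with hη
      have h2 : 4 * lam * (2 * η) / (lam - 1) + η = D * η := by rw [hD]; ring
      have h3 : D * η ≤ D * (min (c₁ / 2) (B * om) / (2 * D)) := mul_le_mul_of_nonneg_left h1 hD0.le
      have h4 : D * (min (c₁ / 2) (B * om) / (2 * D)) = min (c₁ / 2) (B * om) / 2 := by field_simp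
      linarith
  obtain ⟨ai, ak, hai, hak, hui, huk, hle, hLi, hLk, hKk⟩ := pair hM hAD1 hCUT hLOW hDIN hEXT ρ (u i) (u k) (ν i) (ν k)
    B η c₁ e K' χ0 χ2 hρ (hE i) (hE k) (fun z hz => hanti z hz hik) hB hη0 hη14 hc₁ he hK' hK'Om hc₁b
    hχ0s.continuous hχ0c hχ0t hχ2c hχ2cs hχ2t hBi hBk
  have hshallow : ∀ z ∈ Om, -(4 * lam * (2 * η) / (lam - 1)) ≤ ak z → -ρ z ≤ om := by
    intro z hz hza
    by_contra hcon
    rw [not_le] at hcon
    have hzK : z ∈ K' := by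
      by_contra hn
      have := hK'b z hz hn
      linarith
    have h1 := hKk z hzK
    have h2 : B * ρ z ≤ -(B * om) := by nlinarith
    have h3 : max (-c₁ / 2) (B * ρ z) ≤ -min (c₁ / 2) (B * om) := by
      apply max_le
      · have := min_le_left (c₁ / 2) (B * om)
        linarith
      · have := min_le_right (c₁ / 2) (B * om)
        linarith
    linarith
  have huk' : ∀ z ∈ Om, u k z ≤ ak z + 2 * η := fun z hz => by have := huk z hz; linarith
  -- energy bounds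
  have hEk : ∫ z in Om, (-ρ z) * maDensity ak z ≤ S + 3 * e := by
    have h1 := hUPG ρ ak (u k) ρ (ν k) B (2 * η) lam om 1 hρ hB hak (hE k) (by positivity) huk' hlam1 hom0.le
      hshallow zero_le_one hρ.sp (fun z hz => ⟨(hρ.neg z hz).le, by simp⟩)
    rw [← hmρ] at h1
    have h2 := (hj1 k ((le_max_right j0 j1).trans hik)).2
    have h3 : lam ^ 2 * (∫ z in Om, (-ρ z) ∂(ν k)) ≤ lam ^ 2 * (S + e) :=
      mul_le_mul_of_nonneg_left h2.le (by positivity)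
    linarith
  have hχk : ∀ χ : C2 → ℝ, Continuous χ → (∀ z, 0 ≤ χ z ∧ χ z ≤ 1) → ∀ a : C2 → ℝ, Adm ρ B a →
      ∫ z in Om, χ z * (-ρ z) * maDensity a z ≤ ∫ z in Om, (-ρ z) * maDensity a z := by
    intro χ hχc hχb a ha
    have i1 := (hI ρ a (fun z => -ρ z) B hρ hB ha hρc.neg).2.2.1
    have i2 := (hI ρ a (fun z => χ z * (-ρ z)) B hρ hB ha (hχc.continuousOn.mul hρc.neg)).2.2.1
    apply setIntegral_mono_on i2 i1 meas_Om
    intro z hz
    have p1 := (hI ρ a (fun z => 1) B hρ hB ha continuousOn_const).2.2.2 z hz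
    have q1 : 0 ≤ maDensity a z := by rw [p1.2.2]; exact mul_nonneg c2_pos.le p1.1
    apply mul_le_mul_of_nonneg_right _ q1
    have h1 := hρ.neg z hz
    nlinarith [(hχb z).1, (hχb z).2]
  have hEi : S - 3 * e ≤ ∫ z in Om, (-ρ z) * maDensity ai z := by
    have h1 := hχk χ0 hχ0s.continuous hχ0b ai hai
    have h2 := hcut i
    have h3 := (hj1 i (le_max_right j0 j1)).1
    linarith
  have hEχ : S - 3 * e ≤ ∫ z in Om, χ2 z * (-ρ z) * maDensity ak z := by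
    have h1 := hj2 k (le_max_right _ _)
    linarith
  -- the psh function from the core lemma
  obtain ⟨r₁, hr₁, hr₁', hr₁m⟩ := hq4 ρ ak B hρ hB hak
  have hr₁0 : 0 < r₁ := lt_of_lt_of_le (Real.exp_pos _) hr₁
  have hr₁15 : r₁ < Real.exp (-15) := lt_of_le_of_lt hr₁' (Real.exp_lt_exp.2 (by linarith))
  have hνk : (ν k Om).toReal ≤ M1 := by
    have := ENNReal.toReal_mono ENNReal.ofReal_ne_top (hMν1 k)
    rwa [ENNReal.toReal_ofReal (by linarith)] at this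
  have hfib := hFIBη ak (u k) (ν k) M1 (2 * η) hak (hE k) (by positivity) hη2 huk' hνk hM1
  obtain ⟨ψ₁, hψ₁A, hψ₁ge, hψ₁eq, x₀, hx₀, hψ₁x⟩ := hCORE ρ ak B r₁ A hρ hB hak hr₁0 hr₁15 hA1
    (by rw [hA2]; exact hr₁m.trans hfib)
  obtain ⟨hψsp, hψprop⟩ := hAD4 ρ ψ₁ B κ hρ hB hψ₁A hκ0
  set ψ : C2 → ℝ := mx (1 / 2) (fun z => κ * ψ₁ z) (fun _ => -4) with hψdef
  have hψc : ContinuousOn ψ Om := hψsp.1.continuousOn
  have hψ₁c : ContinuousOn ψ₁ Om := hψ₁A.sp.1.continuousOn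
  have hhar := hCH ρ ψ₁ B (2 * A + 1) x₀ hρ hB hψ₁A hx₀ hψ₁x
  have hcpt : Continuous fun x : ℂ => pt x 0 := by
    unfold pt
    fun_prop
  have hptOm : ∀ x ∈ ball (0 : ℂ) 1, pt x 0 ∈ Om := by
    intro x hx
    rw [mem_ball_zero_iff] at hx
    refine ⟨?_, ?_⟩
    · simpa [pt] using hx
    · simp [pt]
  have hint : ∀ f : C2 → ℝ, ContinuousOn f Om → (∃ L : ℝ, ∀ z ∈ Om, |f z| ≤ L) →
      IntegrableOn (fun x : ℂ => f (pt x 0)) (ball (0 : ℂ) 1) := by
    intro f hf hL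
    obtain ⟨L, hL⟩ := hL
    have hfin : IsFiniteMeasure ((volume : Measure ℂ).restrict (ball (0 : ℂ) 1)) :=
      ⟨by rw [Measure.restrict_apply_univ]; exact measure_ball_lt_top⟩
    refine Integrable.mono' (integrable_const L) ?_ ?_
    · exact (hf.comp hcpt.continuousOn (fun x hx => hptOm x hx)).aestronglyMeasurable measurableSet_ball
    · rw [ae_restrict_iff' measurableSet_ball]
      exact Eventually.of_forall fun x hx => hL _ (hptOm x hx)
  have hψμ : ∫ z in Om, (-ψ z) ∂μ ≤ e / 2 := by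
    have hmono' : ∫ z in Om, (-ψ z) ∂μ ≤ ∫ z in Om, (-ψ z) ∂(muD c) := by
      apply integral_mono_measure (Measure.restrict_mono subset_rfl hμc)
      · rw [EventuallyLE, ae_restrict_iff' meas_Om]
        refine Eventually.of_forall fun z hz => ?_
        have := (hψprop z hz).1
        simp only [Pi.zero_apply]
        linarith
      · have hfin : IsFiniteMeasure ((muD c).restrict Om) :=
          ⟨by rw [Measure.restrict_apply_univ]; exact hMU4⟩
        refine Integrable.mono' (integrable_const (κ * B * 3)) (hψc.neg.aestronglyMeasurable meas_Om) ?_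
        rw [ae_restrict_iff' meas_Om]
        refine Eventually.of_forall fun z hz => ?_
        have h1 := hψprop z hz
        have h2 := hρ.ge z hz
        rw [norm_neg, Real.norm_eq_abs, abs_of_nonpos h1.1]
        refine h1.2.2.2.trans ?_
        exact mul_le_mul_of_nonneg_left (by linarith) (by positivity)
    refine hmono'.trans ?_
    rw [hMU1]
    have i1 : IntegrableOn (fun x : ℂ => -ψ (pt x 0)) (ball (0 : ℂ) 1) := by
      apply hint (fun z => -ψ z) hψc.neg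
      refine ⟨κ * B * 3, fun z hz => ?_⟩
      have h1 := hψprop z hz
      have h2 := hρ.ge z hz
      rw [abs_neg, abs_of_nonpos h1.1]
      refine h1.2.2.2.trans ?_
      exact mul_le_mul_of_nonneg_left (by linarith) (by positivity)
    have i2 : IntegrableOn (fun x : ℂ => -ψ₁ (pt x 0)) (ball (0 : ℂ) 1) := by
      apply hint (fun z => -ψ₁ z) hψ₁c.neg
      refine ⟨B * 3, fun z hz => ?_⟩
      have h1 := hψ₁A.nonpos z hz
      have h2 := hρ.ge z hz
      have h3 := hψ₁A.ge z hz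
      rw [abs_neg, abs_of_nonpos h1]
      nlinarith
    have h1 : ∫ x in ball (0 : ℂ) 1, -ψ (pt x 0) ≤ ∫ x in ball (0 : ℂ) 1, κ * (-ψ₁ (pt x 0)) := by
      apply setIntegral_mono_on i1 (i2.const_mul κ) measurableSet_ball
      intro x hx
      have := (hψprop _ (hptOm x hx)).2.1
      linarith
    rw [integral_const_mul] at h1
    have h2 : κ * (∫ x in ball (0 : ℂ) 1, -ψ₁ (pt x 0)) ≤ κ * (CH * (2 * A + 1)) :=
      mul_le_mul_of_nonneg_left hhar hκ0.le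
    have h3 : c * (∫ x in ball (0 : ℂ) 1, -ψ (pt x 0)) ≤ c * (κ * (CH * (2 * A + 1))) :=
      mul_le_mul_of_nonneg_left (h1.trans h2) hc.le
    refine h3.trans ?_
    rw [← mul_assoc]
    exact hNe
  have hEψ : ∫ z in Om, (-ψ z) * maDensity ak z ≤ 2 * e := by
    have hlim := hconv ψ (κ * B) (by positivity) hψc (fun z hz => ⟨(hψprop z hz).1, (hψprop z hz).2.2.2⟩)
    have h1 : ∀ᶠ l in atTop, ∫ z in Om, (-ψ z) * maDensity ak z ≤ lam ^ 2 * (∫ z in Om, (-ψ z) ∂(ν l)) + e := by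
      filter_upwards [eventually_ge_atTop k] with l hl
      have h2 := hUPG ρ ak (u l) ψ (ν l) B (2 * η) lam om (κ * B) hρ hB hak (hE l) (by positivity)
        (fun z hz => (hanti z hz hl).trans (huk' z hz)) hlam1 hom0.le hshallow (by positivity) hψsp
        (fun z hz => ⟨(hψprop z hz).1, (hψprop z hz).2.2.2⟩)
      rw [← hmρ] at h2
      linarith
    have h3 := ge_of_tendsto ((hlim.const_mul (lam ^ 2)).add_const e) h1
    have h4 : lam ^ 2 * (∫ z in Om, (-ψ z) ∂μ) ≤ lam ^ 2 * (e / 2) :=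
      mul_le_mul_of_nonneg_left hψμ (by positivity)
    nlinarith
  have hψK : ∀ z ∈ Om, Real.exp (-R) ≤ ‖z 1‖ → ak z ≤ -N + 1 / 4 → ψ z ≤ -3 := by
    intro z hz hzR hza
    have h1 := hψ₁eq z hz (hr₁'.trans hzR)
    have hN0 : 0 < N - 1 := by linarith
    have h2 : κ * ψ₁ z ≤ -(17 / 4) := by
      rw [h1]
      have h3 : κ * ak z ≤ κ * (-(N - 1)) := mul_le_mul_of_nonneg_left (by linarith) hκ0.le
      have h4 : κ * (-(N - 1)) = -5 := by rw [hκ]; field_simp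
      linarith
    rw [(hψprop z hz).2.2.1 h2]
    norm_num
  have hfinal := last hM hI hCMP hENE hMSS hAD2 hAD3 ρ ai ak ψ χ2 B N s R e S CX Mi hρ hB hai hak hle hψsp
    (fun z hz => (hψprop z hz).1)
    (fun ε hε => hCX B Mi ε ai hB (by linarith) hε hai
      (fun z hz => by have := hui z hz; have h2 := hMi2 z hz; linarith))
    (fun z hz => by have := hui z hz; have h2 := hMi2 z hz; linarith)
    (by linarith) (by linarith) hs0 rfl he hsC hEk hEi hχ2c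
    (fun z => ⟨(hχ2b z).1, (hχ2b z).2.trans (hχ0b z).2⟩) hχ2R hEχ hEψ hψK
  linarith

end Pool.Agent.H53M
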