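import Mathlib
import Pool.Agent.H53M.Stm

/-!
# Project MD, stub PWB (helper30): pointwise bounds from the weighted energy on `|y| = r₁`
-/

set_option autoImplicit false

open MeasureTheory Metric Set Filter Topology
open scoped ContDiff ComplexOrder

namespace Pool.Agent.H53M.PWB

open Pool.Agent.H805R2 Pool.Agent.H53M

/-- disc mean value inequality -/
theorem disc_mean (g : ℂ → ℂ) (hg : Differentiable ℂ g) (c : ℂ) (s : ℝ) (hs : 0 < s) :
    Real.pi * s ^ 2 * ‖g c‖ ≤ ∫ z in ball c s, ‖g z‖ := by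
  have htr : ∫ z in ball c s, ‖g z‖ = ∫ w in ball (0 : ℂ) s, ‖g (c + w)‖ := by
    have h := (measurePreserving_add_left (volume : Measure ℂ) c).setIntegral_preimage_emb
      (measurableEmbedding_addLeft c) (fun z => ‖g z‖) (ball c s)
    rw [← h]
    congr 2
    ext w
    simp [mem_ball, dist_eq_norm]
  have hrot : ∀ θ : ℝ, ∫ w in ball (0 : ℂ) s, ‖g (c + w)‖ =
      ∫ w in ball (0 : ℂ) s, ‖g (c + circleMap 0 1 θ * w)‖ := by
    intro θ
    set u : Circle := Circle.exp θ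
    have h := (rotation u).measurePreserving.setIntegral_preimage_emb
      (rotation u).toHomeomorph.measurableEmbedding (fun w => ‖g (c + w)‖) (ball (0 : ℂ) s)
    rw [← h]
    have hset : (fun w => (rotation u) w) ⁻¹' ball (0 : ℂ) s = ball (0 : ℂ) s := by
      ext w
      simp only [mem_preimage, mem_ball, dist_zero_right, LinearIsometryEquiv.norm_map]
    have hset' : (⇑(rotation u)) ⁻¹' ball (0 : ℂ) s = ball (0 : ℂ) s := hset
    rw [hset']
    congr 1
    ext w
    simp [rotation_apply, circleMap, u, Circle.coe_exp]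
  have hcont : Continuous (fun p : ℝ × ℂ => ‖g (c + circleMap 0 1 p.1 * p.2)‖) := by
    have := hg.continuous
    unfold circleMap
    fun_prop
  have hint : Integrable (fun p : ℝ × ℂ => ‖g (c + circleMap 0 1 p.1 * p.2)‖)
      ((volume.restrict (Ioc 0 (2 * Real.pi))).prod (volume.restrict (ball (0 : ℂ) s))) := by
    rw [Measure.prod_restrict]
    have hcp : IsCompact (Icc (0 : ℝ) (2 * Real.pi) ×ˢ closedBall (0 : ℂ) s) :=
      isCompact_Icc.prod (isCompact_closedBall 0 s)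
    exact (hcont.continuousOn.integrableOn_compact hcp).mono_set
      (prod_mono Ioc_subset_Icc_self ball_subset_closedBall)
  have hsw := integral_integral_swap (f := fun (θ : ℝ) (w : ℂ) => ‖g (c + circleMap 0 1 θ * w)‖) hint
  have h1 : ∫ θ in Ioc 0 (2 * Real.pi), ∫ w in ball (0 : ℂ) s, ‖g (c + circleMap 0 1 θ * w)‖ =
      (2 * Real.pi) * ∫ w in ball (0 : ℂ) s, ‖g (c + w)‖ := by
    rw [setIntegral_congr_fun measurableSet_Ioc (fun θ _ => (hrot θ).symm)]
    rw [setIntegral_const]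
    simp [Real.pi_pos.le]
  have h2 : ∀ w : ℂ, 2 * Real.pi * ‖g c‖ ≤ ∫ θ in Ioc 0 (2 * Real.pi), ‖g (c + circleMap 0 1 θ * w)‖ := by
    intro w
    have hG : Differentiable ℂ (fun ζ : ℂ => g (c + ζ * w)) := by fun_prop
    have hm : Real.circleAverage (fun ζ : ℂ => g (c + ζ * w)) 0 1 = g (c + 0 * w) :=
      (hG.diffContOnCl (s := ball 0 |1|)).circleAverage
    rw [zero_mul, add_zero, Real.circleAverage_def] at hm
    have h3 : ‖g c‖ ≤ (2 * Real.pi)⁻¹ * ∫ θ in (0 : ℝ)..(2 * Real.pi), ‖g (c + circleMap 0 1 θ * w)‖ := by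
      rw [← hm, norm_smul, Real.norm_of_nonneg (by positivity)]
      apply mul_le_mul_of_nonneg_left _ (by positivity)
      exact intervalIntegral.norm_integral_le_integral_norm (by positivity)
    rw [intervalIntegral.integral_of_le (by positivity)] at h3
    have hp : 0 < 2 * Real.pi := by positivity
    calc 2 * Real.pi * ‖g c‖ ≤ 2 * Real.pi * ((2 * Real.pi)⁻¹ *
          ∫ θ in Ioc 0 (2 * Real.pi), ‖g (c + circleMap 0 1 θ * w)‖) :=
          mul_le_mul_of_nonneg_left h3 hp.le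
      _ = _ := by rw [← mul_assoc, mul_inv_cancel₀ hp.ne', one_mul]
  have h4 : (Real.pi * s ^ 2) * (2 * Real.pi * ‖g c‖) ≤
      ∫ w in ball (0 : ℂ) s, ∫ θ in Ioc 0 (2 * Real.pi), ‖g (c + circleMap 0 1 θ * w)‖ := by
    have hvol : (volume.real (ball (0 : ℂ) s)) = Real.pi * s ^ 2 := by
      rw [Measure.real, Complex.volume_ball, ENNReal.toReal_mul, ENNReal.toReal_pow,
        ENNReal.toReal_ofReal hs.le]
      simp [mul_comm]
    rw [← hvol, ← smul_eq_mul, ← setIntegral_const]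
    apply setIntegral_mono
    · exact integrableOn_const measure_ball_lt_top.ne
    · exact hint.integral_prod_right
    · exact fun w => h2 w
  rw [← hsw, h1] at h4
  rw [htr]
  have hp : 0 < 2 * Real.pi := by positivity
  nlinarith [h4]

/-- weighted Cauchy estimate on the unit disc -/
theorem cauchy (F : ℂ → ℂ) (hF : Differentiable ℂ F) (w : ℂ) (hw : ‖w‖ < 1) (W : ℝ)
    (hW : (2 * Real.pi)⁻¹ * ∫ θ in (0 : ℝ)..(2 * Real.pi), ‖F (circleMap 0 1 θ)‖ ≤ W) :
    ‖F w‖ ≤ (1 - ‖w‖)⁻¹ * W := by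
  have h0 : 0 < 1 - ‖w‖ := by linarith
  have hm : Real.circleAverage (fun z => ((z - 0) / (z - w)) • F z) 0 1 = F w :=
    (hF.diffContOnCl (s := ball 0 |1|)).circleAverage_smul_div (by simpa using hw)
  rw [Real.circleAverage_def] at hm
  rw [← hm, norm_smul, Real.norm_of_nonneg (by positivity)]
  have hb : ∀ θ : ℝ, ‖((circleMap 0 1 θ - 0) / (circleMap 0 1 θ - w)) • F (circleMap 0 1 θ)‖ ≤
      (1 - ‖w‖)⁻¹ * ‖F (circleMap 0 1 θ)‖ := by
    intro θ
    rw [norm_smul, norm_div]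
    have h1 : ‖circleMap 0 1 θ - 0‖ = 1 := by simp
    have h2 : 1 - ‖w‖ ≤ ‖circleMap 0 1 θ - w‖ := by
      have := norm_sub_norm_le (circleMap 0 1 θ) w
      have h3 : ‖circleMap 0 1 θ‖ = 1 := by simp
      linarith
    rw [h1, one_div]
    gcongr
  have hne : ∀ θ : ℝ, circleMap 0 1 θ - w ≠ 0 := by
    intro θ h
    have h3 : ‖circleMap 0 1 θ‖ = 1 := by simp
    rw [sub_eq_zero] at h
    rw [h] at h3
    linarith
  have hcF : Continuous (fun θ : ℝ => F (circleMap 0 1 θ)) := hF.continuous.comp (continuous_circleMap 0 1)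
  have hc1 : Continuous (fun θ : ℝ => ((circleMap 0 1 θ - 0) / (circleMap 0 1 θ - w)) • F (circleMap 0 1 θ)) := by
    have hq : Continuous (fun θ : ℝ => (circleMap 0 1 θ - 0) / (circleMap 0 1 θ - w)) :=
      Continuous.div ((continuous_circleMap 0 1).sub continuous_const)
        ((continuous_circleMap 0 1).sub continuous_const) hne
    exact hq.smul hcF
  have h5 : ‖∫ θ in (0 : ℝ)..(2 * Real.pi), ((circleMap 0 1 θ - 0) / (circleMap 0 1 θ - w)) • F (circleMap 0 1 θ)‖ ≤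
      ∫ θ in (0 : ℝ)..(2 * Real.pi), (1 - ‖w‖)⁻¹ * ‖F (circleMap 0 1 θ)‖ := by
    refine (intervalIntegral.norm_integral_le_integral_norm (by positivity)).trans ?_
    apply intervalIntegral.integral_mono_on (by positivity)
    · exact hc1.norm.intervalIntegrable _ _
    · exact (continuous_const.mul hcF.norm).intervalIntegrable _ _
    · intro θ _; exact hb θ
  rw [intervalIntegral.integral_const_mul] at h5
  have h6 : 0 < (1 - ‖w‖)⁻¹ := inv_pos.2 h0
  calc (2 * Real.pi)⁻¹ * ‖∫ θ in (0 : ℝ)..(2 * Real.pi), ((circleMap 0 1 θ - 0) / (circleMap 0 1 θ - w)) • F (circleMap 0 1 θ)‖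
      ≤ (2 * Real.pi)⁻¹ * ((1 - ‖w‖)⁻¹ * ∫ θ in (0 : ℝ)..(2 * Real.pi), ‖F (circleMap 0 1 θ)‖) :=
        mul_le_mul_of_nonneg_left h5 (by positivity)
    _ = (1 - ‖w‖)⁻¹ * ((2 * Real.pi)⁻¹ * ∫ θ in (0 : ℝ)..(2 * Real.pi), ‖F (circleMap 0 1 θ)‖) := by ring
    _ ≤ _ := mul_le_mul_of_nonneg_left hW h6.le

/-- approximation of continuous functions on the circle by real parts of entire functions -/
theorem approx (G : ℂ → ℝ) (hG : ContinuousOn G (sphere 0 1)) (e : ℝ) (he : 0 < e) :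
    ∃ h : ℂ → ℂ, Differentiable ℂ h ∧ ∀ z ∈ sphere (0 : ℂ) 1, |(h z).re - G z| < e := by
  have : Fact (0 < 2 * Real.pi) := ⟨by positivity⟩
  -- the set of functions of the form `h₁ + conj h₂`
  let P : C(AddCircle (2 * Real.pi), ℂ) → Prop := fun φ => ∃ h₁ h₂ : ℂ → ℂ, Differentiable ℂ h₁ ∧
    Differentiable ℂ h₂ ∧ ∀ t : ℝ, φ (t : AddCircle (2 * Real.pi)) =
      h₁ (circleMap 0 1 t) + (starRingEnd ℂ) (h₂ (circleMap 0 1 t))
  have hP : ∀ φ ∈ Submodule.span ℂ (range (fourier (T := 2 * Real.pi))), P φ := by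
    intro φ hφ
    induction hφ using Submodule.span_induction with
    | mem φ hφ =>
      obtain ⟨n, rfl⟩ := hφ
      have hf : ∀ t : ℝ, fourier n (t : AddCircle (2 * Real.pi)) = Complex.exp (n * t * Complex.I) := by
        intro t
        rw [fourier_coe_apply]
        congr 1
        have : (Real.pi : ℂ) ≠ 0 := by exact_mod_cast Real.pi_pos.ne'
        push_cast
        field_simp
      rcases le_or_gt 0 n with hn | hn
      · obtain ⟨k, rfl⟩ := Int.eq_ofNat_of_zero_le hn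
        refine ⟨fun w => w ^ k, fun _ => 0, by fun_prop, by fun_prop, fun t => ?_⟩
        rw [hf]
        simp only [circleMap, map_zero, add_zero, zero_add, Complex.ofReal_one, one_mul]
        rw [← Complex.exp_nat_mul]
        congr 1
        push_cast
        ring
      · obtain ⟨k, hk⟩ := Int.eq_ofNat_of_zero_le (show 0 ≤ -n by omega)
        refine ⟨fun _ => 0, fun w => w ^ k, by fun_prop, by fun_prop, fun t => ?_⟩
        rw [hf]
        simp only [circleMap, zero_add, Complex.ofReal_one, one_mul]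
        rw [← Complex.exp_nat_mul, ← Complex.exp_conj]
        congr 1
        have : n = -(k : ℤ) := by omega
        rw [this]
        simp
        ring
    | zero => exact ⟨fun _ => 0, fun _ => 0, by fun_prop, by fun_prop, fun t => by simp⟩
    | add φ ψ _ _ h1 h2 =>
      obtain ⟨a₁, a₂, ha₁, ha₂, ha⟩ := h1
      obtain ⟨b₁, b₂, hb₁, hb₂, hb⟩ := h2
      refine ⟨fun w => a₁ w + b₁ w, fun w => a₂ w + b₂ w, by fun_prop, by fun_prop, fun t => ?_⟩
      rw [ContinuousMap.add_apply, ha, hb, map_add]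
      ring
    | smul c φ _ h1 =>
      obtain ⟨a₁, a₂, ha₁, ha₂, ha⟩ := h1
      refine ⟨fun w => c * a₁ w, fun w => (starRingEnd ℂ) c * a₂ w, by fun_prop, by fun_prop, fun t => ?_⟩
      rw [ContinuousMap.smul_apply, ha, map_mul, smul_eq_mul, Complex.conj_conj]
      ring
  -- the continuous function on the circle
  have hc : Continuous (fun t : ℝ => ((G (circleMap 0 1 t) : ℝ) : ℂ)) := by
    apply Complex.continuous_ofReal.comp
    apply hG.comp_continuous (continuous_circleMap 0 1)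
    intro t
    exact circleMap_mem_sphere 0 zero_le_one t
  have hper : Function.Periodic (fun t : ℝ => ((G (circleMap 0 1 t) : ℝ) : ℂ)) (2 * Real.pi) := by
    intro t
    simp only [periodic_circleMap 0 1 t]
  let Φ : C(AddCircle (2 * Real.pi), ℂ) := ⟨hper.lift, by
    exact continuous_quot_lift _ hc⟩
  have hΦ : ∀ t : ℝ, Φ (t : AddCircle (2 * Real.pi)) = ((G (circleMap 0 1 t) : ℝ) : ℂ) := by
    intro t
    exact hper.lift_coe t
  have hcl : Φ ∈ (Submodule.span ℂ (range (fourier (T := 2 * Real.pi)))).topologicalClosure := by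
    rw [span_fourier_closure_eq_top]
    trivial
  have hcl2 : Φ ∈ closure ((Submodule.span ℂ (range (fourier (T := 2 * Real.pi))) :
      Set C(AddCircle (2 * Real.pi), ℂ))) := hcl
  obtain ⟨φ, hφ, hd⟩ := Metric.mem_closure_iff.1 hcl2 e he
  obtain ⟨h₁, h₂, hd₁, hd₂, hh⟩ := hP φ hφ
  refine ⟨fun w => h₁ w + h₂ w, by fun_prop, fun z hz => ?_⟩
  obtain ⟨t, ht⟩ : ∃ t : ℝ, circleMap 0 1 t = z := by
    have : z ∈ range (circleMap 0 1) := by
      rw [range_circleMap]
      simpa using hz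
    exact this
  have h7 : dist (Φ (t : AddCircle (2 * Real.pi))) (φ t) < e :=
    lt_of_le_of_lt (ContinuousMap.dist_apply_le_dist _) hd
  rw [hΦ, hh, ht, dist_eq_norm] at h7
  have h8 : |(((G z : ℝ) : ℂ) - (h₁ z + (starRingEnd ℂ) (h₂ z))).re| < e :=
    lt_of_le_of_lt (Complex.abs_re_le_norm _) h7
  simp only [Complex.sub_re, Complex.ofReal_re, Complex.add_re, Complex.conj_re] at h8
  rw [abs_sub_comm] at h8
  simpa using h8

theorem pt_zero (x y : ℂ) : (pt x y) 0 = x := by simp [pt]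
theorem pt_one (x y : ℂ) : (pt x y) 1 = y := by simp [pt]

theorem pt_cont : Continuous (fun p : ℂ × ℂ => pt p.1 p.2) := by
  unfold pt
  apply (PiLp.continuous_toLp 2 _).comp
  apply continuous_pi
  intro i
  fin_cases i
  · exact continuous_fst
  · exact continuous_snd

theorem Om_open : IsOpen Om := by
  have h0 : Continuous (fun z : C2 => ‖z 0‖) := by fun_prop
  have h1 : Continuous (fun z : C2 => ‖z 1‖) := by fun_prop
  exact (isOpen_lt h0 continuous_const).inter (isOpen_lt h1 continuous_const)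

/-- near `|x| = 1` the function `a` is `B log |x|` -/
theorem near (ρ a : C2 → ℝ) (B : ℝ) (hρ : Rho ρ) (ha : Adm ρ B a) :
    ∃ δ : ℝ, 0 < δ ∧ δ < 1 ∧ ∀ x y : ℂ, 1 - δ < ‖x‖ → ‖x‖ < 1 → ‖y‖ < Real.exp (-15) →
      a (pt x y) = B * Real.log ‖x‖ := by
  obtain ⟨K, hK, hKO, hg⟩ := ha.germ
  have h1 : ∃ s : ℝ, s < 1 ∧ ∀ z ∈ K, ‖z 0‖ ≤ s := by
    rcases K.eq_empty_or_nonempty with h | h
    · exact ⟨0, one_pos, by simp [h]⟩
    · have hc : ContinuousOn (fun z : C2 => ‖z 0‖) K := by fun_prop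
      obtain ⟨z, hz, hm⟩ := hK.exists_isMaxOn h hc
      exact ⟨‖z 0‖, (hKO hz).1, fun w hw => hm hw⟩
  obtain ⟨s, hs, hsK⟩ := h1
  have he : Real.exp (-1) < 1 := (Real.exp_lt_one_iff.2 (by norm_num))
  have he0 : 0 < Real.exp (-1) := Real.exp_pos _
  refine ⟨min (1 - max s 0) (1 - Real.exp (-1)), ?_, ?_, ?_⟩
  · apply lt_min
    · have : max s 0 < 1 := max_lt hs one_pos
      linarith
    · linarith
  · exact lt_of_le_of_lt (min_le_right _ _) (by linarith)
  · intro x y hx1 hx2 hy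
    have hd1 := min_le_left (1 - max s 0) (1 - Real.exp (-1))
    have hd2 := min_le_right (1 - max s 0) (1 - Real.exp (-1))
    have hm : s ≤ max s 0 := le_max_left _ _
    have hzO : pt x y ∈ Om := by
      refine ⟨by rw [pt_zero]; exact hx2, ?_⟩
      rw [pt_one]
      exact hy.trans ((Real.exp_lt_one_iff.2 (by norm_num)))
    have hzK : pt x y ∉ K := by
      intro h
      have := hsK _ h
      rw [pt_zero] at this
      linarith
    rw [hg _ hzO hzK]
    have := (hρ.flat (pt x y) hzO (by rw [pt_one]; exact hy)).2 (by rw [pt_zero]; linarith)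
    rw [this, pt_zero]

/-- the extension of `a` by zero -/
noncomputable def A (a : C2 → ℝ) (p : ℂ × ℂ) : ℝ := if ‖p.1‖ < 1 then a (pt p.1 p.2) else 0

theorem A_cont (ρ a : C2 → ℝ) (B : ℝ) (hρ : Rho ρ) (ha : Adm ρ B a) :
    ContinuousOn (A a) {p | ‖p.2‖ < Real.exp (-15)} := by
  obtain ⟨δ, hδ, hδ1, hn⟩ := near ρ a B hρ ha
  have hopen : IsOpen {p : ℂ × ℂ | ‖p.2‖ < Real.exp (-15)} :=
    isOpen_lt (by fun_prop) continuous_const
  intro p hp
  apply ContinuousAt.continuousWithinAt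
  rcases lt_or_ge ‖p.1‖ 1 with h | h
  · have hO : pt p.1 p.2 ∈ Om := by
      refine ⟨by rw [pt_zero]; exact h, ?_⟩
      rw [pt_one]
      exact lt_trans hp ((Real.exp_lt_one_iff.2 (by norm_num)))
    have hc : ContinuousAt (fun q : ℂ × ℂ => a (pt q.1 q.2)) p := by
      have h1 : ContinuousAt a (pt p.1 p.2) :=
        ha.sp.1.continuousOn.continuousAt (Om_open.mem_nhds hO)
      exact ContinuousAt.comp (f := fun q : ℂ × ℂ => pt q.1 q.2) h1 pt_cont.continuousAt
    apply hc.congr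
    have : ∀ᶠ q : ℂ × ℂ in 𝓝 p, ‖q.1‖ < 1 :=
      (isOpen_lt (by fun_prop) continuous_const).mem_nhds h
    filter_upwards [this] with q hq
    simp only [A, hq, if_true]
  · have hc : ContinuousAt (fun q : ℂ × ℂ => B * min (Real.log ‖q.1‖) 0) p := by
      apply ContinuousAt.mul continuousAt_const
      refine Filter.Tendsto.min (f := fun q : ℂ × ℂ => Real.log ‖q.1‖) ?_ tendsto_const_nhds
      apply ContinuousAt.log
      · fun_prop
      · linarith
    apply hc.congr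
    have h1 : ∀ᶠ q : ℂ × ℂ in 𝓝 p, 1 - δ < ‖q.1‖ :=
      (isOpen_lt continuous_const (by fun_prop)).mem_nhds (by simp; linarith)
    filter_upwards [h1, hopen.mem_nhds hp] with q hq1 hq2
    simp only [A]
    split_ifs with hq
    · rw [hn q.1 q.2 hq1 hq hq2, min_eq_left]
      exact Real.log_nonpos (norm_nonneg _) hq.le
    · rw [min_eq_right, mul_zero]
      exact Real.log_nonneg (not_lt.1 hq)

theorem A_nonpos (ρ a : C2 → ℝ) (B : ℝ) (ha : Adm ρ B a) (p : ℂ × ℂ) (hp : ‖p.2‖ < Real.exp (-15)) :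
    A a p ≤ 0 := by
  simp only [A]
  split_ifs with h
  · apply ha.nonpos
    refine ⟨by rw [pt_zero]; exact h, ?_⟩
    rw [pt_one]
    exact lt_trans hp ((Real.exp_lt_one_iff.2 (by norm_num)))
  · exact le_rfl


theorem cp_eq (r θ : ℝ) : cp r θ = r * circleMap 0 1 θ := by
  simp [cp, circleMap, mul_comm]

theorem key (a : C2 → ℝ) (r₁ σ : ℝ) (c : ℂ) (h : ℂ → ℂ) (f : ℂ → ℂ → ℂ) (m : ℕ) (J : ℝ)
    (hA : ContinuousOn (A a) {p | ‖p.2‖ < Real.exp (-15)}) (hr : 0 < r₁) (hr1 : r₁ < Real.exp (-15))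
    (hσ : 0 < σ) (hc : ball c σ ⊆ ball 0 1) (hh : Differentiable ℂ h)
    (hH : ∀ x' ∈ ball c σ, ∀ z ∈ sphere (0 : ℂ) 1, A a (x', r₁ * z) ≤ (h z).re)
    (hf : Differentiable ℂ (fun p : ℂ × ℂ => f p.1 p.2))
    (hW : WE a m r₁ f ≤ Real.exp (2 * m * J)) (y : ℂ) (hy : ‖y‖ < r₁) :
    Real.pi * σ ^ 2 * ‖f c y‖ ^ 2 ≤
      (1 - ‖y‖ / r₁)⁻¹ * Real.exp (2 * m * J) * Real.exp (2 * m * (h (y / r₁)).re) := by
  have hps : 0 < Real.pi * σ ^ 2 := by positivity
  have hncp : ∀ θ : ℝ, ‖cp r₁ θ‖ = r₁ := by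
    intro θ
    rw [cp_eq, norm_mul]
    simp [abs_of_pos hr]
  have hcpc : Continuous (fun θ : ℝ => cp r₁ θ) := by
    unfold cp; fun_prop
  have hfc : Continuous (fun p : ℂ × ℂ => f p.1 p.2) := hf.continuous
  have hAc : Continuous (fun q : ℝ × ℂ => A a (q.2, cp r₁ q.1)) := by
    apply hA.comp_continuous
    · exact continuous_snd.prodMk (hcpc.comp continuous_fst)
    · intro q
      show ‖cp r₁ q.1‖ < _
      rw [hncp]; exact hr1
  set Φ : ℝ × ℂ → ℝ := fun q => ‖f q.2 (cp r₁ q.1)‖ ^ 2 * Real.exp (-2 * m * A a (q.2, cp r₁ q.1)) with hΦ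
  have hΦc : Continuous Φ := by
    apply Continuous.mul
    · apply Continuous.pow
      apply Continuous.norm
      exact hfc.comp (continuous_snd.prodMk (hcpc.comp continuous_fst))
    · apply Real.continuous_exp.comp
      exact continuous_const.mul hAc
  have hΦ0 : ∀ q, 0 ≤ Φ q := fun q => by positivity
  have hint : Integrable Φ ((volume.restrict (Ioc 0 (2 * Real.pi))).prod (volume.restrict (ball (0 : ℂ) 1))) := by
    rw [Measure.prod_restrict]
    have hcp : IsCompact (Icc (0 : ℝ) (2 * Real.pi) ×ˢ closedBall (0 : ℂ) 1) :=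
      isCompact_Icc.prod (isCompact_closedBall 0 1)
    exact (hΦc.continuousOn.integrableOn_compact hcp).mono_set
      (prod_mono Ioc_subset_Icc_self ball_subset_closedBall)
  set G : ℝ → ℝ := fun θ => ∫ x in ball (0 : ℂ) 1, Φ (θ, x) with hGdef
  have hGint : IntegrableOn G (Ioc 0 (2 * Real.pi)) := hint.integral_prod_left
  have hWE : WE a m r₁ f = (2 * Real.pi)⁻¹ * ∫ θ in Ioc 0 (2 * Real.pi), G θ := by
    unfold WE
    rw [one_div, intervalIntegral.integral_of_le (by positivity)]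
    congr 1
    apply integral_congr_ae
    apply Eventually.of_forall
    intro θ
    apply setIntegral_congr_fun measurableSet_ball
    intro x hx
    have hx1 : ‖x‖ < 1 := by simpa using hx
    simp only [hΦ, A, hx1, if_true]
  -- integrability in `x`
  have hΦx : ∀ θ : ℝ, IntegrableOn (fun x => Φ (θ, x)) (ball (0 : ℂ) 1) := by
    intro θ
    have hc1 : Continuous (fun x : ℂ => Φ (θ, x)) := by fun_prop
    exact (hc1.continuousOn.integrableOn_compact (isCompact_closedBall 0 1)).mono_set ball_subset_closedBall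
  have hS1 : ∀ θ : ℝ, Real.pi * σ ^ 2 * (‖f c (cp r₁ θ)‖ ^ 2 *
      Real.exp (-2 * m * (h (circleMap 0 1 θ)).re)) ≤ G θ := by
    intro θ
    have hg : Differentiable ℂ (fun x : ℂ => (f x (cp r₁ θ)) ^ 2) := by
      have h1 : Differentiable ℂ (fun x : ℂ => ((x, cp r₁ θ) : ℂ × ℂ)) := by fun_prop
      exact (hf.comp h1).pow 2
    have hd := disc_mean _ hg c σ hσ
    have hE : 0 < Real.exp (-2 * m * (h (circleMap 0 1 θ)).re) := Real.exp_pos _
    have h2 : Real.pi * σ ^ 2 * ‖f c (cp r₁ θ)‖ ^ 2 * Real.exp (-2 * m * (h (circleMap 0 1 θ)).re) ≤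
        ∫ z in ball c σ, ‖f z (cp r₁ θ)‖ ^ 2 * Real.exp (-2 * m * (h (circleMap 0 1 θ)).re) := by
      rw [integral_mul_const]
      apply mul_le_mul_of_nonneg_right _ hE.le
      simpa only [norm_pow] using hd
    have hΦs : IntegrableOn (fun x => Φ (θ, x)) (ball c σ) := (hΦx θ).mono_set hc
    have h3 : ∫ z in ball c σ, ‖f z (cp r₁ θ)‖ ^ 2 * Real.exp (-2 * m * (h (circleMap 0 1 θ)).re) ≤
        ∫ z in ball c σ, Φ (θ, z) := by
      apply setIntegral_mono_on _ hΦs measurableSet_ball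
      · intro z hz
        simp only [hΦ]
        apply mul_le_mul_of_nonneg_left _ (by positivity)
        apply Real.exp_le_exp.2
        have h4 := hH z hz (circleMap 0 1 θ) (circleMap_mem_sphere 0 zero_le_one θ)
        rw [← cp_eq] at h4
        have hm : (0 : ℝ) ≤ m := Nat.cast_nonneg m
        nlinarith
      · have hc2 : Continuous (fun z : ℂ => ‖f z (cp r₁ θ)‖ ^ 2 *
            Real.exp (-2 * m * (h (circleMap 0 1 θ)).re)) := by
          have h5 : Continuous (fun z : ℂ => f z (cp r₁ θ)) :=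
            hfc.comp (continuous_id.prodMk continuous_const)
          fun_prop
        exact (hc2.continuousOn.integrableOn_compact (isCompact_closedBall c σ)).mono_set
          ball_subset_closedBall
    have h6 : ∫ z in ball c σ, Φ (θ, z) ≤ ∫ z in ball (0 : ℂ) 1, Φ (θ, z) :=
      setIntegral_mono_set (hΦx θ) (Eventually.of_forall fun z => hΦ0 _) (Eventually.of_forall hc)
    calc _ = Real.pi * σ ^ 2 * ‖f c (cp r₁ θ)‖ ^ 2 * Real.exp (-2 * m * (h (circleMap 0 1 θ)).re) := by ring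
      _ ≤ _ := h2.trans (h3.trans h6)
  -- the entire function
  set F : ℂ → ℂ := fun w => f c (r₁ * w) ^ 2 * Complex.exp (-2 * m * h w) with hF
  have hFd : Differentiable ℂ F := by
    have h1 : Differentiable ℂ (fun w : ℂ => ((c, r₁ * w) : ℂ × ℂ)) := by fun_prop
    have h2 : Differentiable ℂ (fun w : ℂ => f c (r₁ * w)) := hf.comp h1
    apply (h2.pow 2).mul
    apply Differentiable.cexp
    exact (differentiable_const _).mul hh
  have hFn : ∀ w : ℂ, ‖F w‖ = ‖f c (r₁ * w)‖ ^ 2 * Real.exp (-2 * m * (h w).re) := by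
    intro w
    simp only [hF]
    rw [norm_mul, norm_pow, Complex.norm_exp]
    congr 2
    have : (-2 * (m : ℂ) * h w) = ((-2 * (m : ℝ) : ℝ) : ℂ) * h w := by push_cast; ring
    rw [this, Complex.re_ofReal_mul]
  have hmean : (2 * Real.pi)⁻¹ * ∫ θ in (0 : ℝ)..(2 * Real.pi), ‖F (circleMap 0 1 θ)‖ ≤
      (Real.pi * σ ^ 2)⁻¹ * Real.exp (2 * m * J) := by
    have h1 : ∫ θ in (0 : ℝ)..(2 * Real.pi), ‖F (circleMap 0 1 θ)‖ ≤
        (Real.pi * σ ^ 2)⁻¹ * ∫ θ in Ioc 0 (2 * Real.pi), G θ := by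
      rw [intervalIntegral.integral_of_le (by positivity), ← integral_const_mul]
      apply setIntegral_mono_on _ (hGint.const_mul _) measurableSet_Ioc
      · intro θ _
        rw [hFn, ← cp_eq]
        have := hS1 θ
        rw [inv_mul_eq_div, le_div_iff₀ hps]
        linarith
      · have : Continuous (fun θ : ℝ => ‖F (circleMap 0 1 θ)‖) :=
          (hFd.continuous.comp (continuous_circleMap 0 1)).norm
        exact this.integrableOn_Ioc
    have h2 : 0 < (2 * Real.pi)⁻¹ := by positivity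
    calc _ ≤ (2 * Real.pi)⁻¹ * ((Real.pi * σ ^ 2)⁻¹ * ∫ θ in Ioc 0 (2 * Real.pi), G θ) :=
          mul_le_mul_of_nonneg_left h1 h2.le
      _ = (Real.pi * σ ^ 2)⁻¹ * WE a m r₁ f := by rw [hWE]; ring
      _ ≤ _ := mul_le_mul_of_nonneg_left hW (by positivity)
  have hr0 : (r₁ : ℂ) ≠ 0 := by exact_mod_cast hr.ne'
  have hyn : ‖y / r₁‖ = ‖y‖ / r₁ := by
    rw [norm_div, Complex.norm_real, Real.norm_of_nonneg hr.le]
  have hfin := cauchy F hFd (y / r₁) (by rw [hyn, div_lt_one hr]; exact hy) _ hmean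
  rw [hFn, mul_div_cancel₀ _ hr0, hyn] at hfin
  have hE : 0 < Real.exp (2 * m * (h (y / r₁)).re) := Real.exp_pos _
  have hEE : Real.exp (-2 * m * (h (y / r₁)).re) * Real.exp (2 * m * (h (y / r₁)).re) = 1 := by
    rw [← Real.exp_add]
    simp
  calc Real.pi * σ ^ 2 * ‖f c y‖ ^ 2 = Real.pi * σ ^ 2 * (‖f c y‖ ^ 2 * Real.exp (-2 * m * (h (y / r₁)).re)) *
        Real.exp (2 * m * (h (y / r₁)).re) := by
          have h9 : Real.pi * σ ^ 2 * (‖f c y‖ ^ 2 * Real.exp (-2 * m * (h (y / r₁)).re)) *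
              Real.exp (2 * m * (h (y / r₁)).re) = Real.pi * σ ^ 2 * ‖f c y‖ ^ 2 *
              (Real.exp (-2 * m * (h (y / r₁)).re) * Real.exp (2 * m * (h (y / r₁)).re)) := by ring
          rw [h9, hEE, mul_one]
    _ ≤ Real.pi * σ ^ 2 * ((1 - ‖y‖ / r₁)⁻¹ * ((Real.pi * σ ^ 2)⁻¹ * Real.exp (2 * m * J))) *
        Real.exp (2 * m * (h (y / r₁)).re) := by gcongr
    _ = (1 - ‖y‖ / r₁)⁻¹ * Real.exp (2 * m * J) * Real.exp (2 * m * (h (y / r₁)).re) := by
          field_simp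


theorem re_le_of_sphere (h : ℂ → ℂ) (hh : Differentiable ℂ h) (M : ℝ)
    (hM : ∀ z ∈ sphere (0 : ℂ) 1, (h z).re ≤ M) (w : ℂ) (hw : ‖w‖ ≤ 1) : (h w).re ≤ M := by
  have h1 : Differentiable ℂ (fun z => Complex.exp (h z)) := hh.cexp
  have h2 : ‖Complex.exp (h w)‖ ≤ Real.exp M := by
    apply Complex.norm_le_of_forall_mem_frontier_norm_le (U := ball 0 1) isBounded_ball
      h1.diffContOnCl (f := fun z => Complex.exp (h z))
    · intro z hz
      rw [frontier_ball _ one_ne_zero] at hz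
      rw [Complex.norm_exp]
      exact Real.exp_le_exp.2 (hM z hz)
    · rw [closure_ball _ one_ne_zero]
      simpa using hw
  rw [Complex.norm_exp] at h2
  exact Real.exp_le_exp.1 h2

theorem t : Pool.Agent.H53M.PWB := by
  intro ρ a B r₁ ε hρ hB ha hr hr1 hε
  have hA := A_cont ρ a B hρ ha
  set e : ℝ := ε / 16 with he_def
  have he : 0 < e := by positivity
  have hCc : IsCompact (closedBall (0 : ℂ) 1 ×ˢ closedBall (0 : ℂ) r₁) :=
    (isCompact_closedBall 0 1).prod (isCompact_closedBall 0 r₁)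
  have huc : UniformContinuousOn (A a) (closedBall (0 : ℂ) 1 ×ˢ closedBall (0 : ℂ) r₁) := by
    apply hCc.uniformContinuousOn_of_continuous
    apply hA.mono
    rintro ⟨x, y⟩ ⟨_, hy⟩
    have : ‖y‖ ≤ r₁ := by simpa using hy
    exact lt_of_le_of_lt this hr1
  obtain ⟨τ, hτ, hτC⟩ := Metric.uniformContinuousOn_iff.1 huc e he
  have hmod : ∀ x x' y y' : ℂ, ‖x‖ ≤ 1 → ‖x'‖ ≤ 1 → ‖y‖ ≤ r₁ → ‖y'‖ ≤ r₁ → ‖x - x'‖ < τ → ‖y - y'‖ < τ →
      A a (x, y) < A a (x', y') + e := by
    intro x x' y y' hx hx' hy hy' h1 h2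
    have h3 := hτC (x, y) ⟨by simpa using hx, by simpa using hy⟩ (x', y')
      ⟨by simpa using hx', by simpa using hy'⟩ (by
        rw [Prod.dist_eq, max_lt_iff, dist_eq_norm, dist_eq_norm]
        exact ⟨h1, h2⟩)
    rw [Real.dist_eq] at h3
    have := (abs_lt.1 h3).2
    linarith
  obtain ⟨t, ht, htf, htc⟩ := (isCompact_closedBall (0 : ℂ) 1).finite_cover_balls hτ
  have hnz : ∀ z ∈ sphere (0 : ℂ) 1, ‖(r₁ : ℂ) * z‖ = r₁ := by
    intro z hz
    have : ‖z‖ = 1 := by simpa using hz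
    rw [norm_mul, this, Complex.norm_real, Real.norm_of_nonneg hr.le, mul_one]
  have hex : ∀ xj : ℂ, xj ∈ t → ∃ h : ℂ → ℂ, Differentiable ℂ h ∧ ∀ z ∈ sphere (0 : ℂ) 1,
      A a (xj, r₁ * z) + 2 * e < (h z).re ∧ (h z).re < A a (xj, r₁ * z) + 4 * e := by
    intro xj _
    have hG : ContinuousOn (fun z : ℂ => A a (xj, r₁ * z) + 3 * e) (sphere 0 1) := by
      apply ContinuousOn.add _ continuousOn_const
      apply hA.comp (by fun_prop)
      intro z hz
      show ‖(r₁ : ℂ) * z‖ < _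
      rw [hnz z hz]; exact hr1
    obtain ⟨h, h1, h2⟩ := approx _ hG e he
    refine ⟨h, h1, fun z hz => ?_⟩
    have h3 := abs_lt.1 (h2 z hz)
    constructor
    · linarith [h3.1]
    · linarith [h3.2]
  choose! h hh1 hh2 using hex
  have hball : ∀ xj ∈ t, ‖xj‖ ≤ 1 := fun xj hxj => by simpa using ht hxj
  -- closeness to the boundary values
  have hev : ∀ᶠ s in 𝓝[<] r₁, ∀ xj ∈ t, ∀ y : ℂ, s ≤ ‖y‖ → ‖y‖ < r₁ →
      (h xj (y / r₁)).re ≤ A a (xj, y) + 6 * e := by
    rw [Filter.eventually_all_finite htf]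
    intro xj hxj
    have hu : UniformContinuousOn (fun w => (h xj w).re) (closedBall (0 : ℂ) 1) := by
      apply (isCompact_closedBall (0 : ℂ) 1).uniformContinuousOn_of_continuous
      have := (hh1 xj hxj).continuous
      fun_prop
    obtain ⟨τ', hτ', hu'⟩ := Metric.uniformContinuousOn_iff.1 hu e he
    have h1 : ∀ᶠ s in 𝓝[<] r₁, max (max (r₁ - τ) (r₁ * (1 - τ'))) 0 < s := by
      apply eventually_nhdsWithin_of_eventually_nhds
      apply lt_mem_nhds
      apply max_lt (max_lt (by linarith) _) hr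
      nlinarith
    filter_upwards [h1] with s hs y hsy hyr
    have hs1 : r₁ - τ < s := lt_of_le_of_lt ((le_max_left _ _).trans (le_max_left _ _)) hs
    have hs2 : r₁ * (1 - τ') < s := lt_of_le_of_lt ((le_max_right _ _).trans (le_max_left _ _)) hs
    have hs3 : 0 < s := lt_of_le_of_lt (le_max_right _ _) hs
    have hy0 : 0 < ‖y‖ := lt_of_lt_of_le hs3 hsy
    have hyc : (‖y‖ : ℂ) ≠ 0 := by exact_mod_cast hy0.ne'
    have hrc : (r₁ : ℂ) ≠ 0 := by exact_mod_cast hr.ne'
    set z : ℂ := y / ‖y‖ with hz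
    have hz1 : ‖z‖ = 1 := by
      rw [hz, norm_div, Complex.norm_real, norm_norm, div_self hy0.ne']
    have hzs : z ∈ sphere (0 : ℂ) 1 := by simpa using hz1
    have hyz : y = ‖y‖ * z := by rw [hz]; field_simp
    have hwn : ‖y / r₁‖ ≤ 1 := by
      rw [norm_div, Complex.norm_real, Real.norm_of_nonneg hr.le, div_le_one hr]
      exact hyr.le
    have hd1 : dist (y / r₁) z < τ' := by
      rw [dist_eq_norm]
      have h5 : y / r₁ - z = (((‖y‖ / r₁ - 1 : ℝ)) : ℂ) * z := by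
        conv_lhs => rw [hyz]
        push_cast
        field_simp
      rw [h5, norm_mul, hz1, mul_one, Complex.norm_real, Real.norm_eq_abs, abs_sub_comm, abs_of_nonneg]
      · have : 1 - τ' < ‖y‖ / r₁ := by
          rw [lt_div_iff₀ hr]
          nlinarith
        linarith
      · have : ‖y‖ / r₁ ≤ 1 := by rw [div_le_one hr]; exact hyr.le
        linarith
    have h6 := hu' (y / r₁) (by simpa using hwn) z (by simp [hz1]) hd1
    rw [Real.dist_eq] at h6
    have h7 := (abs_lt.1 h6).2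
    have h8 := (hh2 xj hxj z hzs).2
    have h9 : A a (xj, r₁ * z) < A a (xj, y) + e := by
      apply hmod _ _ _ _ (hball xj hxj) (hball xj hxj) (hnz z hzs).le hyr.le (by simpa using hτ)
      have h10 : (r₁ : ℂ) * z - y = ((r₁ - ‖y‖ : ℝ) : ℂ) * z := by
        conv_lhs => rw [hyz]
        push_cast
        ring
      rw [h10, norm_mul, hz1, mul_one, Complex.norm_real, Real.norm_of_nonneg (by linarith)]
      linarith
    linarith
  have hev2 : ∀ᶠ s in 𝓝[<] r₁, 0 < s := by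
    apply eventually_nhdsWithin_of_eventually_nhds
    exact lt_mem_nhds hr
  obtain ⟨r₂, ⟨hr2, hr20⟩, hr21⟩ := ((hev.and hev2).and self_mem_nhdsWithin).exists
  have hr21' : r₂ < r₁ := hr21
  set σ : ℝ := min (1 / 8) (τ / 4) with hσd
  have hσ : 0 < σ := lt_min (by norm_num) (by positivity)
  have hσ1 : σ ≤ 1 / 8 := min_le_left _ _
  have hσ2 : σ ≤ τ / 4 := min_le_right _ _
  set C₁ : ℝ := (Real.pi * σ ^ 2)⁻¹ * (2 * r₁ / (r₁ - r₂)) with hC₁
  obtain ⟨m₁, hm₁⟩ := exists_nat_ge (C₁ / (2 * e))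
  refine ⟨σ, r₂, m₁, hσ, by linarith, hr20, hr21', ?_⟩
  intro m f J hm hm1 hf hJ hW
  have hmC : C₁ ≤ Real.exp (2 * m * e) := by
    have h1 : C₁ ≤ 2 * m * e := by
      have h2 : C₁ / (2 * e) ≤ (m : ℝ) := hm₁.trans (by exact_mod_cast hm)
      rw [div_le_iff₀ (by positivity)] at h2
      linarith
    have := Real.add_one_le_exp (2 * m * e)
    linarith
  have main : ∀ x : ℂ, ‖x‖ < 1 → ∀ xj ∈ t, ‖x - xj‖ < τ → ∀ y : ℂ, ‖y‖ ≤ (r₂ + r₁) / 2 →
      ‖f ((1 - σ) * x) y‖ ≤ Real.exp (m * (J + e + (h xj (y / r₁)).re)) := by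
    intro x hx xj hxj hxx y hy
    have hyr : ‖y‖ < r₁ := by linarith
    have hcx : ∀ x' ∈ ball ((1 - (σ : ℂ)) * x) σ, ‖x'‖ < 1 ∧ ‖x' - x‖ < τ := by
      intro x' hx'
      rw [mem_ball, dist_eq_norm] at hx'
      have h1 : ‖(1 - (σ : ℂ)) * x‖ = (1 - σ) * ‖x‖ := by
        rw [norm_mul]
        congr 1
        have : (1 - (σ : ℂ)) = ((1 - σ : ℝ) : ℂ) := by push_cast; ring
        rw [this, Complex.norm_real, Real.norm_of_nonneg (by linarith)]
      constructor
      · have h2 : ‖x'‖ ≤ ‖x' - (1 - (σ : ℂ)) * x‖ + ‖(1 - (σ : ℂ)) * x‖ := by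
          simpa using norm_add_le (x' - (1 - (σ : ℂ)) * x) ((1 - (σ : ℂ)) * x)
        rw [h1] at h2
        nlinarith
      · have h3 : x' - x = (x' - (1 - (σ : ℂ)) * x) - (σ : ℂ) * x := by ring
        have h4 : ‖(σ : ℂ) * x‖ = σ * ‖x‖ := by
          rw [norm_mul, Complex.norm_real, Real.norm_of_nonneg hσ.le]
        have h5 := norm_sub_le (x' - (1 - (σ : ℂ)) * x) ((σ : ℂ) * x)
        rw [h3]
        rw [h4] at h5
        nlinarith
    have hk := key a r₁ σ ((1 - (σ : ℂ)) * x) (h xj) f m J hA hr hr1 hσ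
      (fun x' hx' => by simpa using (hcx x' hx').1) (hh1 xj hxj) (by
        intro x' hx' z hz
        have h1 := hmod x' x (r₁ * z) (r₁ * z) (hcx x' hx').1.le hx.le (hnz z hz).le (hnz z hz).le
          (hcx x' hx').2 (by simpa using hτ)
        have h2 := hmod x xj (r₁ * z) (r₁ * z) hx.le (hball xj hxj) (hnz z hz).le (hnz z hz).le
          hxx (by simpa using hτ)
        have h3 := (hh2 xj hxj z hz).1
        linarith) hf hW y hyr
    have hps : 0 < Real.pi * σ ^ 2 := by positivity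
    have hd0 : 0 < r₁ - r₂ := by linarith
    have h1 : (1 - ‖y‖ / r₁)⁻¹ ≤ 2 * r₁ / (r₁ - r₂) := by
      have h2 : (r₁ - r₂) / (2 * r₁) ≤ 1 - ‖y‖ / r₁ := by
        rw [le_sub_iff_add_le, ← le_sub_iff_add_le', div_le_iff₀ hr]
        have : (1 - (r₁ - r₂) / (2 * r₁)) * r₁ = (r₁ + r₂) / 2 := by
          field_simp
          ring
        rw [this]
        linarith
      calc (1 - ‖y‖ / r₁)⁻¹ ≤ ((r₁ - r₂) / (2 * r₁))⁻¹ := inv_anti₀ (by positivity) h2
        _ = _ := by rw [inv_div]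
    have h3 : ‖f ((1 - σ) * x) y‖ ^ 2 ≤ Real.exp (m * (J + e + (h xj (y / r₁)).re)) ^ 2 := by
      have h4 : ‖f ((1 - σ) * x) y‖ ^ 2 ≤ (Real.pi * σ ^ 2)⁻¹ * ((1 - ‖y‖ / r₁)⁻¹ *
          Real.exp (2 * m * J) * Real.exp (2 * m * (h xj (y / r₁)).re)) := by
        rw [inv_mul_eq_div, le_div_iff₀ hps]
        linarith
      calc ‖f ((1 - σ) * x) y‖ ^ 2 ≤ (Real.pi * σ ^ 2)⁻¹ * ((1 - ‖y‖ / r₁)⁻¹ *
          Real.exp (2 * m * J) * Real.exp (2 * m * (h xj (y / r₁)).re)) := h4
        _ ≤ (Real.pi * σ ^ 2)⁻¹ * ((2 * r₁ / (r₁ - r₂)) *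
          Real.exp (2 * m * J) * Real.exp (2 * m * (h xj (y / r₁)).re)) := by gcongr
        _ = C₁ * Real.exp (2 * m * J) * Real.exp (2 * m * (h xj (y / r₁)).re) := by
          rw [hC₁]; ring
        _ ≤ Real.exp (2 * m * e) * Real.exp (2 * m * J) * Real.exp (2 * m * (h xj (y / r₁)).re) := by
          gcongr
        _ = Real.exp (m * (J + e + (h xj (y / r₁)).re)) ^ 2 := by
          rw [← Real.exp_add, ← Real.exp_add, ← Real.exp_nat_mul]
          congr 1
          push_cast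
          ring
    exact (pow_le_pow_iff_left₀ (norm_nonneg _) (Real.exp_pos _).le two_ne_zero).1 h3
  have hfind : ∀ x : ℂ, ‖x‖ < 1 → ∃ xj ∈ t, ‖x - xj‖ < τ := by
    intro x hx
    have h1 : x ∈ closedBall (0 : ℂ) 1 := by simpa using hx.le
    obtain ⟨xj, hxj, h2⟩ := mem_iUnion₂.1 (htc h1)
    exact ⟨xj, hxj, by simpa [dist_eq_norm] using h2⟩
  constructor
  · intro x y hx hy1 hy2
    obtain ⟨xj, hxj, hxx⟩ := hfind x hx
    refine (main x hx xj hxj hxx y hy2).trans (Real.exp_le_exp.2 ?_)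
    have hyr : ‖y‖ < r₁ := by linarith
    have h1 := hr2 xj hxj y hy1 hyr
    have h2 := hmod xj x y y (hball xj hxj) hx.le hyr.le hyr.le (by rw [norm_sub_rev]; exact hxx)
      (by simpa using hτ)
    have h3 : A a (x, y) = a (pt x y) := by simp only [A, hx, if_true]
    rw [h3] at h2
    apply mul_le_mul_of_nonneg_left _ (Nat.cast_nonneg m)
    rw [he_def] at *
    linarith
  · intro x y hx hy2
    obtain ⟨xj, hxj, hxx⟩ := hfind x hx
    refine (main x hx xj hxj hxx y hy2).trans (Real.exp_le_exp.2 ?_)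
    have hyr : ‖y‖ < r₁ := by linarith
    have h1 : (h xj (y / r₁)).re ≤ 4 * e := by
      apply re_le_of_sphere _ (hh1 xj hxj)
      · intro z hz
        have h2 := (hh2 xj hxj z hz).2
        have h3 := A_nonpos ρ a B ha (xj, r₁ * z) (by
          show ‖(r₁ : ℂ) * z‖ < _
          rw [hnz z hz]; exact hr1)
        linarith
      · rw [norm_div, Complex.norm_real, Real.norm_of_nonneg hr.le, div_le_one hr]
        exact hyr.le
    apply mul_le_mul_of_nonneg_left _ (Nat.cast_nonneg m)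
    linarith

end Pool.Agent.H53M.PWB
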