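import Mathlib
import Pool.Agent.H53M.PWB
import Pool.Agent.H805R2.Glue
import Pool.Agent.H805R2.Compare
import Pool.Agent.Helper540.Holo

/-!
# Project MD, stub GLU (helper30)
-/

set_option autoImplicit false

open MeasureTheory Metric Set Filter Topology
open scoped ContDiff ComplexOrder

namespace Pool.Agent.H53M.GLU

open Pool.Agent.H805R2 Pool.Agent.H53M Pool.Agent.H53M.PWB

variable {n : ℕ}

/-- second derivative along a real line of a function which is the real part of an entire function there -/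
theorem line2 (v : Cn n → ℝ) (hv : ContDiff ℝ 2 v) (z ξ : Cn n) (g : ℂ → ℂ) (hg : Differentiable ℂ g)
    (h : ∀ s : ℝ, v (z + s • ξ) = (g s).re) : D2 v z ξ ξ = (deriv (deriv g) 0).re := by
  have hg' : Differentiable ℂ (deriv g) := by
    have : ContDiff ℂ 2 g := hg.contDiff
    have h2 : ContDiff ℂ (1 + 1) g := by
      have e : (1 + 1 : WithTop ℕ∞) = 2 := by norm_num
      rw [e]; exact this
    exact ((contDiff_succ_iff_deriv.1 h2).2.2).differentiable (by norm_num)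
  have hvd : ∀ y, DifferentiableAt ℝ v y := fun y => (hv.differentiable (by norm_num)).differentiableAt
  have hvd2 : ∀ y, DifferentiableAt ℝ (fderiv ℝ v) y := fun y =>
    ((hv.fderiv_right (m := 1) (by norm_num)).differentiable (by norm_num)).differentiableAt
  have hl : ∀ s : ℝ, HasDerivAt (fun s : ℝ => z + s • ξ) ξ s := by
    intro s
    simpa using ((hasDerivAt_id s).smul_const ξ).const_add z
  have h1 : ∀ s : ℝ, fderiv ℝ v (z + s • ξ) ξ = (deriv g s).re := by
    intro s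
    have a1 : HasDerivAt (fun s : ℝ => v (z + s • ξ)) (fderiv ℝ v (z + s • ξ) ξ) s :=
      (hvd (z + s • ξ)).hasFDerivAt.comp_hasDerivAt s (hl s)
    have a2 : HasDerivAt (fun s : ℝ => (g s).re) (deriv g s).re s :=
      (hg (s : ℂ)).hasDerivAt.real_of_complex
    have a3 : (fun s : ℝ => v (z + s • ξ)) = fun s : ℝ => (g s).re := funext h
    rw [a3] at a1
    exact a1.unique a2
  have b1 : HasDerivAt (fun s : ℝ => fderiv ℝ v (z + s • ξ) ξ) (D2 v z ξ ξ) 0 := by
    have c1 : HasFDerivAt (fderiv ℝ v) (fderiv ℝ (fderiv ℝ v) (z + (0 : ℝ) • ξ)) (z + (0 : ℝ) • ξ) :=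
      (hvd2 _).hasFDerivAt
    have c2 := c1.comp_hasDerivAt (0 : ℝ) (hl 0)
    have c3 := (ContinuousLinearMap.apply ℝ ℝ ξ).hasFDerivAt.comp_hasDerivAt (0 : ℝ) c2
    have e : fderiv ℝ (fderiv ℝ v) (z + (0 : ℝ) • ξ) ξ ξ = D2 v z ξ ξ := by
      rw [zero_smul, add_zero]; rfl
    rw [← e]
    exact c3
  have b2 : HasDerivAt (fun s : ℝ => (deriv g s).re) (deriv (deriv g) (0 : ℝ)).re 0 :=
    (hg' ((0 : ℝ) : ℂ)).hasDerivAt.real_of_complex
  have b3 : (fun s : ℝ => fderiv ℝ v (z + s • ξ) ξ) = fun s : ℝ => (deriv g s).re := funext h1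
  rw [b3] at b1
  have := b1.unique b2
  simpa using this

/-- the real part of a holomorphic function is pluriharmonic -/
theorem levi_re (F : Cn n → ℂ) (hF : Differentiable ℂ F) (hv : ContDiff ℝ 2 (fun z => (F z).re))
    (z ζ : Cn n) : levi (fun z => (F z).re) z ζ = 0 := by
  have hg1 : Differentiable ℂ (fun t : ℂ => F (z + t • ζ)) := by fun_prop
  have hg2 : Differentiable ℂ (fun t : ℂ => F (z + t • (Complex.I • ζ))) := by fun_prop
  have h1 := line2 (fun z => (F z).re) hv z ζ _ hg1 (fun s => by simp)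
  have h2 := line2 (fun z => (F z).re) hv z (Complex.I • ζ) _ hg2 (fun s => by simp)
  unfold levi
  rw [h1, h2]
  set g : ℂ → ℂ := fun t : ℂ => F (z + t • ζ) with hg
  have e : (fun t : ℂ => F (z + t • (Complex.I • ζ))) = fun t => g (Complex.I * t) := by
    funext t
    simp only [hg]
    rw [smul_smul, mul_comm]
  have hd : deriv (fun t : ℂ => g (Complex.I * t)) = fun t => Complex.I * deriv g (Complex.I * t) := by
    funext t
    have h3 : HasDerivAt (fun t : ℂ => Complex.I * t) Complex.I t := by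
      simpa using (hasDerivAt_id t).const_mul Complex.I
    have h4 : HasDerivAt g (deriv g (Complex.I * t)) (Complex.I * t) := (hg1 _).hasDerivAt
    have := (h4.comp t h3).deriv
    rw [mul_comm]
    exact this
  have hg' : Differentiable ℂ (deriv g) := by
    have : ContDiff ℂ 2 g := hg1.contDiff
    have h2 : ContDiff ℂ (1 + 1) g := by
      have e : (1 + 1 : WithTop ℕ∞) = 2 := by norm_num
      rw [e]; exact this
    exact ((contDiff_succ_iff_deriv.1 h2).2.2).differentiable (by norm_num)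
  have hd2 : deriv (fun t : ℂ => Complex.I * deriv g (Complex.I * t)) 0 = - deriv (deriv g) 0 := by
    have h3 : HasDerivAt (fun t : ℂ => Complex.I * t) Complex.I 0 := by
      simpa using (hasDerivAt_id (0 : ℂ)).const_mul Complex.I
    have h4 : HasDerivAt (deriv g) (deriv (deriv g) (Complex.I * 0)) (Complex.I * 0) := (hg' _).hasDerivAt
    have h5 := ((h4.comp 0 h3).const_mul Complex.I).deriv
    have h6 : deriv (fun t : ℂ => Complex.I * deriv g (Complex.I * t)) 0 =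
        Complex.I * (deriv (deriv g) (Complex.I * 0) * Complex.I) := h5
    rw [h6, mul_zero]
    linear_combination (deriv (deriv g) 0) * Complex.I_mul_I
  rw [e, hd, hd2, Complex.neg_re]
  ring

/-- `log (|F|² + δ)` is plurisubharmonic -/
theorem levi_log (F : Cn n → ℂ) (hF : Differentiable ℂ F) (δ : ℝ) (hδ : 0 < δ) :
    ContDiff ℝ ∞ (fun z => Real.log (‖F z‖ ^ 2 + δ)) ∧
    ∀ z ζ : Cn n, 0 ≤ levi (fun z => Real.log (‖F z‖ ^ 2 + δ)) z ζ := by
  have hFs : ContDiff ℝ ∞ F := by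
    have h : ContDiff ℂ ∞ F := contDiff_infty.mpr fun k => by
      rw [← contDiffOn_univ]
      exact Pool.Agent.Helper540.contDiffOn_of_differentiableOn isOpen_univ hF.differentiableOn k
    exact h.restrict_scalars ℝ
  set U : Cn n → ℝ := fun z => (F z).re with hU
  set V : Cn n → ℝ := fun z => (F z).im with hV
  have hUs : ContDiff ℝ ∞ U := Complex.reCLM.contDiff.comp hFs
  have hVs : ContDiff ℝ ∞ V := Complex.imCLM.contDiff.comp hFs
  set N : Cn n → ℝ := fun z => (U z ^ 2 + V z ^ 2) + δ with hN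
  have hNeq : ∀ z, ‖F z‖ ^ 2 + δ = N z := by
    intro z
    rw [hN, ← Complex.normSq_eq_norm_sq, Complex.normSq_apply]
    simp only [hU, hV]
    ring
  have hNs : ContDiff ℝ ∞ N := ((hUs.pow 2).add (hVs.pow 2)).add contDiff_const
  have hNpos : ∀ z, 0 < N z := fun z => by simp only [hN]; positivity
  have hus : ContDiff ℝ ∞ (fun z => Real.log (N z)) := hNs.log (fun z => (hNpos z).ne')
  have hfun : (fun z => Real.log (‖F z‖ ^ 2 + δ)) = fun z => Real.log (N z) := by
    funext z; rw [hNeq]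
  rw [hfun]
  refine ⟨hus, fun z ζ => ?_⟩
  have two : ∀ {g : Cn n → ℝ}, ContDiff ℝ ∞ g → ContDiff ℝ 2 g := fun hg => hg.of_le ss_le
  have hU0 : levi U z ζ = 0 := levi_re F hF (two hUs) z ζ
  have hV0 : levi V z ζ = 0 := by
    have h1 : Differentiable ℂ (fun z => -Complex.I * F z) := by fun_prop
    have h2 : (fun z => (-Complex.I * F z).re) = V := by
      funext w
      simp [hV]
    have h3 := levi_re (fun z => -Complex.I * F z) h1 (by rw [h2]; exact two hVs) z ζ
    rwa [h2] at h3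
  -- first derivatives
  have hfd : ∀ ξ : Cn n, fderiv ℝ U z ξ = (fderiv ℂ F z ξ).re ∧ fderiv ℝ V z ξ = (fderiv ℂ F z ξ).im := by
    intro ξ
    have h1 : HasFDerivAt F ((fderiv ℂ F z).restrictScalars ℝ) z := (hF z).hasFDerivAt.restrictScalars ℝ
    have h2 := Complex.reCLM.hasFDerivAt.comp z h1
    have h3 := Complex.imCLM.hasFDerivAt.comp z h1
    constructor
    · have : fderiv ℝ U z = Complex.reCLM.comp ((fderiv ℂ F z).restrictScalars ℝ) := h2.fderiv
      rw [this]; simp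
    · have : fderiv ℝ V z = Complex.imCLM.comp ((fderiv ℂ F z).restrictScalars ℝ) := h3.fderiv
      rw [this]; simp
  set p : ℂ := fderiv ℂ F z ζ with hp
  have hUζ : fderiv ℝ U z ζ = p.re := (hfd ζ).1
  have hVζ : fderiv ℝ V z ζ = p.im := (hfd ζ).2
  have hUi : fderiv ℝ U z (Complex.I • ζ) = -p.im := by
    rw [(hfd _).1, map_smul, smul_eq_mul]; simp [hp]
  have hVi : fderiv ℝ V z (Complex.I • ζ) = p.re := by
    rw [(hfd _).2, map_smul, smul_eq_mul]; simp [hp]
  -- squares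
  have hsq : ∀ {g : Cn n → ℝ}, ContDiff ℝ ∞ g → levi (fun y => g y ^ 2) z ζ =
      2 * g z * levi g z ζ + 2 * ((fderiv ℝ g z ζ) ^ 2 + (fderiv ℝ g z (Complex.I • ζ)) ^ 2) / 4 := by
    intro g hg
    have h1 := levi_comp (Φ := fun x : ℝ => x ^ 2) (by fun_prop) (two hg) z ζ
    have e1 : deriv (fun x : ℝ => x ^ 2) = fun x => 2 * x := by
      funext x; simp
    rw [e1] at h1
    have e2 : deriv (fun x : ℝ => 2 * x) (g z) = 2 := by
      rw [deriv_const_mul _ differentiableAt_id]; simp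
    rw [e2] at h1
    exact h1
  have hleviN : levi N z ζ = p.re ^ 2 + p.im ^ 2 := by
    have h1 : levi N z ζ = levi (fun y => U y ^ 2 + V y ^ 2) z ζ + levi (fun _ => δ) z ζ :=
      levi_add (two ((hUs.pow 2).add (hVs.pow 2))) contDiff_const z ζ
    rw [h1, levi_const, levi_add (two (hUs.pow 2)) (two (hVs.pow 2)), hsq hUs, hsq hVs, hU0, hV0,
      hUζ, hVζ, hUi, hVi]
    ring
  have hdN : ∀ ξ : Cn n, fderiv ℝ N z ξ = 2 * U z * fderiv ℝ U z ξ + 2 * V z * fderiv ℝ V z ξ := by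
    intro ξ
    have hUd : HasFDerivAt U (fderiv ℝ U z) z := ((two hUs).differentiable (by norm_num) z).hasFDerivAt
    have hVd : HasFDerivAt V (fderiv ℝ V z) z := ((two hVs).differentiable (by norm_num) z).hasFDerivAt
    have h1 := ((hUd.pow 2).add (hVd.pow 2)).add_const δ
    have h2 : fderiv ℝ N z = _ := h1.fderiv
    rw [h2]
    simp
  -- the exponential
  set u : Cn n → ℝ := fun z => Real.log (N z) with hu
  have hNu : N = fun y => Real.exp (u y) := by
    funext y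
    simp only [hu]
    rw [Real.exp_log (hNpos y)]
  have hE := levi_comp (Φ := Real.exp) Real.contDiff_exp (two hus) z ζ
  rw [← hNu, hleviN] at hE
  simp only [Real.deriv_exp] at hE
  have hexp : Real.exp (u z) = N z := by rw [hNu]
  rw [hexp] at hE
  have hdu : ∀ ξ : Cn n, fderiv ℝ N z ξ = N z * fderiv ℝ u z ξ := by
    intro ξ
    have h1 : HasFDerivAt (fun y => Real.exp (u y)) (Real.exp (u z) • fderiv ℝ u z) z :=
      ((two hus).differentiable (by norm_num) z).hasFDerivAt.exp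
    rw [← hNu, hexp] at h1
    rw [h1.fderiv]
    simp
  have hNz : N z = U z ^ 2 + V z ^ 2 + δ := rfl
  have h1 := hdu ζ
  have h2 := hdu (Complex.I • ζ)
  rw [hdN, hUζ, hVζ] at h1
  rw [hdN, hUi, hVi] at h2
  set x1 := fderiv ℝ u z ζ
  set x2 := fderiv ℝ u z (Complex.I • ζ)
  -- `N² (x1² + x2²) = 4 (U²+V²) |p|²`
  have h3 : (N z) ^ 2 * (x1 ^ 2 + x2 ^ 2) = 4 * (U z ^ 2 + V z ^ 2) * (p.re ^ 2 + p.im ^ 2) := by
    have : (N z) ^ 2 * (x1 ^ 2 + x2 ^ 2) = (N z * x1) ^ 2 + (N z * x2) ^ 2 := by ring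
    rw [this, ← h1, ← h2]
    ring
  have hN0 := hNpos z
  have h4 : (N z) ^ 2 * levi u z ζ = δ * (p.re ^ 2 + p.im ^ 2) := by
    have h5 : (N z) * levi u z ζ = (p.re ^ 2 + p.im ^ 2) - N z * (x1 ^ 2 + x2 ^ 2) / 4 := by linarith
    calc (N z) ^ 2 * levi u z ζ = N z * (N z * levi u z ζ) := by ring
      _ = N z * (p.re ^ 2 + p.im ^ 2) - ((N z) ^ 2 * (x1 ^ 2 + x2 ^ 2)) / 4 := by rw [h5]; ring
      _ = _ := by rw [h3, hNz]; ring
  have h6 : 0 ≤ (N z) ^ 2 * levi u z ζ := by rw [h4]; positivity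
  exact nonneg_of_mul_nonneg_right h6 (by positivity)


theorem t (hM : Pool.Agent.H53M.MXL) : Pool.Agent.H53M.GLU := by
  obtain ⟨_, _, _, _, _, hM6, _, hM8⟩ := hM
  intro ρ a B r₁ Λ hρ hB ha hr hr1 hΛ hyp
  obtain ⟨σ, r₂, m₁, hσ, hσ1, hr20, hr21, hP⟩ := PWB.t ρ a B r₁ (1 / 4) hρ hB ha hr hr1 (by norm_num)
  obtain ⟨m, f, hm, hm1, hf, ⟨x₀, hx₀, hfx⟩, hW⟩ := hyp (1 / 4) m₁ (by norm_num)
  obtain ⟨hP1, hP2⟩ := hP m f (Λ + 1 / 4) hm hm1 hf (by positivity) hW
  have hmpos : (0 : ℝ) < m := by exact_mod_cast hm1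
  set r₃ : ℝ := (r₂ + r₁) / 2 with hr₃
  have hr31 : r₃ < r₁ := by rw [hr₃]; linarith
  have hr23 : r₂ < r₃ := by rw [hr₃]; linarith
  set δ : ℝ := Real.exp (-(6 * m * B)) * (Real.exp (m * (1 / 4)) - 1) with hδd
  have hE1 : 1 < Real.exp (m * (1 / 4)) := Real.one_lt_exp_iff.2 (by positivity)
  have hδ : 0 < δ := mul_pos (Real.exp_pos _) (by linarith)
  set F : C2 → ℂ := fun z => f ((1 - σ) * z 0) (z 1) with hF
  have hFd : Differentiable ℂ F := by
    have h1 : Differentiable ℂ (fun z : C2 => (((1 - (σ : ℂ)) * z 0, z 1) : ℂ × ℂ)) := by fun_prop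
    exact hf.comp h1
  obtain ⟨hLs, hLl⟩ := levi_log F hFd δ hδ
  set L : C2 → ℝ := fun z => Real.log (‖F z‖ ^ 2 + δ) with hL
  set b : C2 → ℝ := fun z => (1 / (2 * m)) * L z + (-(Λ + 3 / 4)) with hb
  have hbs : ContDiff ℝ ∞ b := (contDiff_const.mul hLs).add contDiff_const
  have two : ∀ {g : C2 → ℝ}, ContDiff ℝ ∞ g → ContDiff ℝ 2 g := fun hg => hg.of_le ss_le
  have hbp : ∀ z, (hess b z).PosSemidef := by
    intro z
    rw [hess_posSemidef_iff (two hbs)]
    intro ζ
    have h1 : levi b z ζ = levi (fun y => (1 / (2 * m)) * L y) z ζ + levi (fun _ => (-(Λ + 3 / 4))) z ζ :=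
      levi_add (two (contDiff_const.mul hLs)) contDiff_const z ζ
    rw [h1, levi_const, levi_const_mul _ (two hLs), add_zero]
    exact mul_nonneg (by positivity) (hLl z ζ)
  -- upper bounds for `b`
  have hub : ∀ (z : C2) (c : ℝ), -(3 * B) ≤ c → ‖F z‖ ≤ Real.exp (m * c) →
      b z ≤ c + 1 / 8 - (Λ + 3 / 4) := by
    intro z c hc hFz
    have h1 : ‖F z‖ ^ 2 ≤ Real.exp (2 * m * c) := by
      calc ‖F z‖ ^ 2 ≤ (Real.exp (m * c)) ^ 2 := pow_le_pow_left₀ (norm_nonneg _) hFz 2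
        _ = _ := by rw [← Real.exp_nat_mul]; congr 1; push_cast; ring
    have h2 : δ ≤ Real.exp (2 * m * c) * (Real.exp (m * (1 / 4)) - 1) := by
      rw [hδd]
      apply mul_le_mul_of_nonneg_right _ (by linarith)
      apply Real.exp_le_exp.2
      nlinarith
    have h3 : ‖F z‖ ^ 2 + δ ≤ Real.exp (2 * m * c + m * (1 / 4)) := by
      rw [Real.exp_add]
      nlinarith
    have h4 : L z ≤ 2 * m * c + m * (1 / 4) := by
      rw [hL]
      calc Real.log (‖F z‖ ^ 2 + δ) ≤ Real.log (Real.exp (2 * m * c + m * (1 / 4))) :=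
            Real.log_le_log (by positivity) h3
        _ = _ := Real.log_exp _
    have h5 : (1 / (2 * m)) * L z ≤ c + 1 / 8 := by
      rw [one_div, inv_mul_le_iff₀ (by positivity)]
      linarith
    simp only [hb]
    linarith
  have haB : ∀ z ∈ Om, -(3 * B) ≤ a z := by
    intro z hz
    have h1 := ha.ge z hz
    have h2 := hρ.ge z hz
    nlinarith
  have hzpt : ∀ z : C2, z = pt (z 0) (z 1) := by
    intro z
    ext i
    fin_cases i
    · exact (pt_zero _ _).symm
    · exact (pt_one _ _).symm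
  -- (i) on the collar
  have hb1 : ∀ z ∈ Om, r₂ ≤ ‖z 1‖ → ‖z 1‖ ≤ r₃ → b z ≤ a z - 1 / 8 := by
    intro z hz h1 h2
    have h3 := hP1 (z 0) (z 1) hz.1 h1 h2
    rw [← hzpt z] at h3
    have h4 := hub z (a z + (Λ + 1 / 4) + 1 / 4) (by linarith [haB z hz]) h3
    linarith
  -- (ii) everywhere
  have hb2 : ∀ z ∈ Om, ‖z 1‖ ≤ r₃ → b z ≤ -(1 / 8) := by
    intro z hz h2
    have h3 := hP2 (z 0) (z 1) hz.1 h2
    have h4 := hub z ((Λ + 1 / 4) + 1 / 4) (by nlinarith) h3
    linarith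
  classical
  set ψ : C2 → ℝ := fun z => if ‖z 1‖ < r₃ then mx (1 / 8) b a z else a z with hψ
  have hmxa : ∀ z, b z ≤ a z - 1 / 16 → mx (1 / 8) b a z = a z := by
    intro z h
    exact ((hM6 (1 / 8) b a (by norm_num) z).1 (by linarith))
  have hψa : ∀ z ∈ Om, r₂ ≤ ‖z 1‖ → ψ z = a z := by
    intro z hz h
    simp only [hψ]
    split_ifs with h1
    · exact hmxa z (by linarith [hb1 z hz h h1.le])
    · rfl
  have hψa2 : ∀ z ∈ Om, -(1 / 16) ≤ a z → ψ z = a z := by
    intro z hz h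
    simp only [hψ]
    split_ifs with h1
    · exact hmxa z (by linarith [hb2 z hz h1.le])
    · rfl
  have hψge : ∀ z, a z ≤ ψ z := by
    intro z
    simp only [hψ]
    split_ifs with h1
    · exact (le_max_right _ _).trans (hM6 (1 / 8) b a (by norm_num) z).2.2.1
    · exact le_rfl
  -- smoothness
  have hO1 : IsOpen {z : C2 | ‖z 1‖ < r₃} := isOpen_lt (by fun_prop) continuous_const
  have hO2 : IsOpen {z : C2 | r₂ < ‖z 1‖} := isOpen_lt continuous_const (by fun_prop)
  have hS1 : IsOpen (Om ∩ {z : C2 | ‖z 1‖ < r₃}) := Om_open.inter hO1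
  have hS2 : IsOpen (Om ∩ {z : C2 | r₂ < ‖z 1‖}) := Om_open.inter hO2
  obtain ⟨hm8a, hm8b⟩ := hM8 (1 / 8) b a (Om ∩ {z : C2 | ‖z 1‖ < r₃}) hS1 (by norm_num) hbs.contDiffOn
    (ha.sp.1.mono inter_subset_left) (fun z _ => hbp z) (fun z hz => ha.sp.2 z hz.1)
  have hloc : ∀ z ∈ Om, ContDiffAt ℝ ∞ ψ z ∧ (hess ψ z).PosSemidef := by
    intro z hz
    rcases lt_or_ge ‖z 1‖ r₃ with h | h
    · have hmem : (Om ∩ {z : C2 | ‖z 1‖ < r₃}) ∈ 𝓝 z := hS1.mem_nhds ⟨hz, h⟩
      have heq : ψ =ᶠ[𝓝 z] mx (1 / 8) b a := by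
        filter_upwards [hmem] with w hw
        have : ‖w 1‖ < r₃ := hw.2
        simp only [hψ, this, if_true]
      refine ⟨(hm8a.contDiffAt hmem).congr_of_eventuallyEq heq, ?_⟩
      rw [hess_congr heq]
      exact hm8b z ⟨hz, h⟩
    · have hmem : (Om ∩ {z : C2 | r₂ < ‖z 1‖}) ∈ 𝓝 z := hS2.mem_nhds ⟨hz, by
        show r₂ < ‖z 1‖
        linarith⟩
      have heq : ψ =ᶠ[𝓝 z] a := by
        filter_upwards [hmem] with w hw
        exact hψa w hw.1 (le_of_lt hw.2)
      refine ⟨(ha.sp.1.contDiffAt (Om_open.mem_nhds hz)).congr_of_eventuallyEq heq, ?_⟩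
      rw [hess_congr heq]
      exact ha.sp.2 z hz
  refine ⟨ψ, ⟨⟨fun z hz => (hloc z hz).1.contDiffWithinAt, fun z hz => (hloc z hz).2⟩, ?_, ?_, ?_⟩,
    fun z _ => hψge z, fun z hz h => hψa z hz (by linarith), ?_⟩
  · -- nonpositive
    intro z hz
    rcases le_or_gt (-(1 / 16)) (a z) with h | h
    · rw [hψa2 z hz h]; exact ha.nonpos z hz
    · simp only [hψ]
      split_ifs with h1
      · have h2 := (hM6 (1 / 8) b a (by norm_num) z).2.2.2
        have h3 := hb2 z hz h1.le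
        have h4 : max (b z) (a z) ≤ -(1 / 16) := max_le (by linarith) h.le
        linarith
      · exact ha.nonpos z hz
  · intro z hz
    exact (ha.ge z hz).trans (hψge z)
  · obtain ⟨K, hK, hKO, hKa⟩ := ha.germ
    obtain ⟨K₁, hK₁, hK₁O, hKρ⟩ := hρ.bdry (1 / (16 * B)) (by positivity)
    refine ⟨K ∪ K₁, hK.union hK₁, union_subset hKO hK₁O, fun z hz hzK => ?_⟩
    have h1 : z ∉ K := fun h => hzK (Or.inl h)
    have h2 : z ∉ K₁ := fun h => hzK (Or.inr h)
    have h3 := hKρ z hz h2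
    have h4 := hKa z hz h1
    have h5 : -(1 / 16) ≤ a z := by
      rw [h4]
      have h6 : B * (-(1 / (16 * B))) ≤ B * ρ z := mul_le_mul_of_nonneg_left h3.le hB.le
      have h7 : B * (-(1 / (16 * B))) = -(1 / 16) := by field_simp
      linarith
    rw [hψa2 z hz h5, h4]
  · -- the point
    have h1σ : (0 : ℝ) < 1 - σ := by linarith
    have h1σc : (1 - (σ : ℂ)) ≠ 0 := by
      have : (1 - (σ : ℂ)) = ((1 - σ : ℝ) : ℂ) := by push_cast; ring
      rw [this]
      exact_mod_cast h1σ.ne'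
    have hn : ‖(1 - (σ : ℂ))‖ = 1 - σ := by
      have : (1 - (σ : ℂ)) = ((1 - σ : ℝ) : ℂ) := by push_cast; ring
      rw [this, Complex.norm_real, Real.norm_of_nonneg h1σ.le]
    refine ⟨x₀ / (1 - σ), ?_, ?_⟩
    · rw [norm_div, hn, hx₀, div_le_iff₀ h1σ]
      linarith
    · have hFv : F (pt (x₀ / (1 - σ)) 0) = f x₀ 0 := by
        simp only [hF]
        rw [pt_zero, pt_one, mul_div_cancel₀ _ h1σc]
      have h1 : ψ (pt (x₀ / (1 - σ)) 0) = mx (1 / 8) b a (pt (x₀ / (1 - σ)) 0) := by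
        have h2 : ‖(pt (x₀ / (1 - σ)) 0) 1‖ < r₃ := by
          rw [pt_one, norm_zero]; linarith
        simp only [hψ, h2, if_true]
      rw [h1]
      refine le_trans ?_ ((le_max_left _ _).trans (hM6 (1 / 8) b a (by norm_num) _).2.2.1)
      have h3 : 0 ≤ L (pt (x₀ / (1 - σ)) 0) := by
        simp only [hL]
        rw [hFv]
        apply Real.log_nonneg
        nlinarith [hfx, hδ]
      have h4 : 0 ≤ (1 / (2 * (m : ℝ))) * L (pt (x₀ / (1 - σ)) 0) := mul_nonneg (by positivity) h3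
      simp only [hb]
      linarith

end Pool.Agent.H53M.GLU
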