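import Mathlib
import Pool.Agent.H53M.Stm
import Pool.Agent.H792R2.SS.MEANa
import Pool.Agent.H792R2.SS.MEAN

set_option autoImplicit false

open MeasureTheory Metric Set Filter Topology
open scoped ContDiff

namespace Pool.Agent.H53M.GRN

open Pool.Agent.H792R2.SS (Lap t_MEAN)

theorem lap4_eq (U : ℂ → ℝ) (x : ℂ) : lap4 U x = Laplacian.laplacian U x / 4 := by
  unfold lap4
  rw [InnerProductSpace.laplacian_eq_iteratedFDeriv_complexPlane]
  simp [iteratedFDeriv_two_apply]

/-- the mean formula on an arbitrary disc -/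
theorem mean_formula (h : ℂ → ℝ) (hh : ContDiff ℝ 2 h) (c : ℂ) (s : ℝ) (hs : 0 < s) :
    Real.circleAverage h c s = h c + (2 * Real.pi)⁻¹ *
      ∫ z in ball c s, Real.log (s / ‖z - c‖) * Laplacian.laplacian h z := by
  have hs2 : (0 : ℝ) < 2 * s := by positivity
  set g : ℂ → ℝ := fun w => h (c + (2 * s) • w) with hg
  have hgc : ContDiff ℝ 2 g := by
    apply hh.comp
    fun_prop
  have hlap : ∀ w, Laplacian.laplacian g w = (2 * s) ^ 2 * Laplacian.laplacian h (c + (2 * s) • w) := by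
    intro w
    rw [InnerProductSpace.laplacian_eq_iteratedFDeriv_complexPlane,
      InnerProductSpace.laplacian_eq_iteratedFDeriv_complexPlane]
    have h1 : ∀ w : ℂ, fderiv ℝ g w = (2 * s) • fderiv ℝ h (c + (2 * s) • w) := by
      intro w
      have h2 : HasFDerivAt (fun w : ℂ => c + (2 * s) • w) ((2 * s) • ContinuousLinearMap.id ℝ ℂ) w := by
        simpa using ((hasFDerivAt_id w).const_smul (2 * s)).const_add c
      have h3 : HasFDerivAt h (fderiv ℝ h (c + (2 * s) • w)) (c + (2 * s) • w) :=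
        (hh.differentiable (by norm_num)).differentiableAt.hasFDerivAt
      have h4 := h3.comp w h2
      rw [HasFDerivAt.fderiv (f := g) h4]
      ext v
      simp
    have h5 : fderiv ℝ g = fun w => (2 * s) • fderiv ℝ h (c + (2 * s) • w) := funext h1
    have h6 : fderiv ℝ (fderiv ℝ g) w = ((2 * s) ^ 2) • fderiv ℝ (fderiv ℝ h) (c + (2 * s) • w) := by
      rw [h5]
      have h2 : HasFDerivAt (fun w : ℂ => c + (2 * s) • w) ((2 * s) • ContinuousLinearMap.id ℝ ℂ) w := by
        simpa using ((hasFDerivAt_id w).const_smul (2 * s)).const_add c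
      have h3 : HasFDerivAt (fderiv ℝ h) (fderiv ℝ (fderiv ℝ h) (c + (2 * s) • w)) (c + (2 * s) • w) :=
        ((hh.fderiv_right (m := 1) (by norm_num)).differentiable (by norm_num)).differentiableAt.hasFDerivAt
      have h4 := (h3.comp w h2).const_smul (2 * s)
      have h7 : (fun w => (2 * s) • fderiv ℝ h (c + (2 * s) • w)) = (2 * s) • (fderiv ℝ h ∘ fun w : ℂ => c + (2 * s) • w) := rfl
      rw [h7, h4.fderiv]
      ext v v'
      simp
      ring
    simp only [iteratedFDeriv_two_apply, h6]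
    simp
    ring
  have key := t_MEAN Pool.Agent.H792R2.SS.t_MEANa g (1 / 2) hgc.contDiffOn (by norm_num) (by norm_num)
  have e1 : Real.circleAverage g 0 (1 / 2) = Real.circleAverage h c s := by
    rw [Real.circleAverage_def, Real.circleAverage_def]
    congr 2
    ext θ
    simp only [hg, circleMap]
    congr 1
    simp
    ring
  have e2 : g 0 = h c := by simp [hg]
  have e3 : ∫ z in ball (0 : ℂ) (1 / 2), Real.log ((1 / 2) / ‖z‖) * Lap g z =
      ∫ z in ball c s, Real.log (s / ‖z - c‖) * Laplacian.laplacian h z := by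
    rw [← integral_indicator measurableSet_ball, ← integral_indicator measurableSet_ball]
    set F : ℂ → ℝ := (ball c s).indicator fun z => Real.log (s / ‖z - c‖) * Laplacian.laplacian h z with hF
    have h8 : ∫ z, F z = (2 * s) ^ 2 * ∫ w, F (c + (2 * s) • w) := by
      have h9 : ∫ w, F (c + (2 * s) • w) =
          |((2 * s) ^ Module.finrank ℝ ℂ)⁻¹| • ∫ y, F (c + y) :=
        Measure.integral_comp_smul (volume : Measure ℂ) (fun y => F (c + y)) (2 * s)
      rw [h9, integral_add_left_eq_self F c]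
      simp only [Complex.finrank_real_complex, smul_eq_mul]
      rw [abs_of_pos (by positivity)]
      field_simp
    rw [h8, ← integral_const_mul]
    congr 1
    ext w
    by_cases hw : w ∈ ball (0 : ℂ) (1 / 2)
    · have hw' : c + (2 * s) • w ∈ ball c s := by
        rw [mem_ball_zero_iff] at hw
        rw [mem_ball_iff_norm, add_sub_cancel_left, norm_smul, Real.norm_of_nonneg hs2.le]
        nlinarith
      rw [hF, indicator_of_mem hw, indicator_of_mem hw', Lap, hlap, add_sub_cancel_left, norm_smul,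
        Real.norm_of_nonneg hs2.le]
      have h10 : s / (2 * s * ‖w‖) = 1 / 2 / ‖w‖ := by
        rw [div_div]
        by_cases h0 : ‖w‖ = 0
        · simp [h0]
        · field_simp
      rw [h10]
      ring
    · have hw' : c + (2 * s) • w ∉ ball c s := by
        rw [mem_ball_zero_iff, not_lt] at hw
        rw [mem_ball_iff_norm, add_sub_cancel_left, norm_smul, Real.norm_of_nonneg hs2.le, not_lt]
        nlinarith
      rw [hF, indicator_of_notMem hw, indicator_of_notMem hw', mul_zero]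
  rw [e1, e2, e3] at key
  exact key

/-- the extension of `U` by `B log |x|` -/
noncomputable def ext (U : ℂ → ℝ) (B : ℝ) (x : ℂ) : ℝ := if ‖x‖ < 1 then U x else B * Real.log ‖x‖

theorem ext_in {U : ℂ → ℝ} {B : ℝ} {x : ℂ} (hx : ‖x‖ < 1) : ext U B x = U x := by
  simp [ext, hx]

theorem ext_out {U : ℂ → ℝ} {B δ : ℝ}
    (hU : ∀ x : ℂ, 1 - δ < ‖x‖ → ‖x‖ < 1 → U x = B * Real.log ‖x‖) {x : ℂ} (hx : 1 - δ < ‖x‖) :
    ext U B x = B * Real.log ‖x‖ := by
  unfold ext
  split_ifs with h
  · exact hU x hx h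
  · rfl

theorem ext_nhd {U : ℂ → ℝ} {B δ : ℝ}
    (hU : ∀ x : ℂ, 1 - δ < ‖x‖ → ‖x‖ < 1 → U x = B * Real.log ‖x‖) {x : ℂ} (hx : 1 - δ < ‖x‖) :
    ext U B =ᶠ[𝓝 x] fun x => B * Real.log ‖x‖ := by
  have : {y : ℂ | 1 - δ < ‖y‖} ∈ 𝓝 x := (isOpen_lt continuous_const continuous_norm).mem_nhds hx
  filter_upwards [this] with y hy
  exact ext_out hU hy

theorem log_contDiffAt {x : ℂ} (hx : x ≠ 0) : ContDiffAt ℝ ∞ (fun x : ℂ => Real.log ‖x‖) x :=
  (contDiffAt_norm ℝ hx).log (norm_ne_zero_iff.2 hx)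

theorem ext_smooth {U : ℂ → ℝ} {B δ : ℝ} (_hδ : δ < 1) (hc : ContDiffOn ℝ ∞ U (ball 0 1))
    (hU : ∀ x : ℂ, 1 - δ < ‖x‖ → ‖x‖ < 1 → U x = B * Real.log ‖x‖) (hδ0 : 0 < δ) :
    ContDiff ℝ ∞ (ext U B) := by
  rw [contDiff_iff_contDiffAt]
  intro x
  by_cases hx : ‖x‖ < 1
  · have h1 : ball (0 : ℂ) 1 ∈ 𝓝 x := isOpen_ball.mem_nhds (by simpa using hx)
    refine (hc.contDiffAt h1).congr_of_eventuallyEq ?_
    filter_upwards [h1] with y hy
    exact ext_in (by simpa using hy)
  · have h1 : 1 - δ < ‖x‖ := by linarith [not_lt.1 hx]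
    have h0 : x ≠ 0 := by
      intro h
      rw [h, norm_zero] at hx
      exact hx one_pos
    exact (contDiffAt_const.mul (log_contDiffAt h0)).congr_of_eventuallyEq (ext_nhd hU h1)

theorem lap_ext_out {U : ℂ → ℝ} {B δ : ℝ} (hδ : δ < 1)
    (hU : ∀ x : ℂ, 1 - δ < ‖x‖ → ‖x‖ < 1 → U x = B * Real.log ‖x‖) {x : ℂ} (hx : 1 - δ < ‖x‖) :
    Laplacian.laplacian (ext U B) x = 0 := by
  rw [(InnerProductSpace.laplacian_congr_nhds (ext_nhd hU hx)).eq_of_nhds]
  have h0 : x ≠ 0 := by
    intro h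
    rw [h, norm_zero] at hx
    linarith
  have h1 : InnerProductSpace.HarmonicAt (fun x : ℂ => Real.log ‖x‖) x :=
    AnalyticAt.harmonicAt_log_norm (f := id) analyticAt_id h0
  have h2 : InnerProductSpace.HarmonicAt (fun x : ℂ => B * Real.log ‖x‖) x := h1.const_smul (c := B)
  exact h2.2.eq_of_nhds

theorem lap_ext_in {U : ℂ → ℝ} {B : ℝ} {x : ℂ} (hx : ‖x‖ < 1) :
    Laplacian.laplacian (ext U B) x = Laplacian.laplacian U x := by
  have h1 : ball (0 : ℂ) 1 ∈ 𝓝 x := isOpen_ball.mem_nhds (by simpa using hx)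
  have h2 : ext U B =ᶠ[𝓝 x] U := by
    filter_upwards [h1] with y hy
    exact ext_in (by simpa using hy)
  rw [(InnerProductSpace.laplacian_congr_nhds h2).eq_of_nhds]

theorem mean_ext {U : ℂ → ℝ} {B δ : ℝ} (hδ0 : 0 < δ)
    (hU : ∀ x : ℂ, 1 - δ < ‖x‖ → ‖x‖ < 1 → U x = B * Real.log ‖x‖) (c : ℂ) (s : ℝ)
    (hs : ‖c‖ + 1 ≤ s) : Real.circleAverage (ext U B) c s = B * Real.log s := by
  have hs0 : 0 < s := by linarith [norm_nonneg c]
  have h1 : Real.circleAverage (ext U B) c s = Real.circleAverage (fun x => B * Real.log ‖x - 0‖) c s := by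
    apply Real.circleAverage_congr_sphere
    intro z hz
    rw [mem_sphere_iff_norm, abs_of_pos hs0] at hz
    have h2 : 1 - δ < ‖z‖ := by
      have h3 : ‖z - c‖ ≤ ‖z‖ + ‖c‖ := norm_sub_le _ _
      linarith
    rw [ext_out hU h2]
    simp
  have h4 : Real.circleAverage (fun x => B * Real.log ‖x - 0‖) c s =
      B * Real.circleAverage (fun x => Real.log ‖x - 0‖) c s := by
    have := Real.circleAverage_fun_smul (a := B) (f := fun x : ℂ => Real.log ‖x - 0‖) (c := c) (R := s)
    simpa [smul_eq_mul] using this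
  rw [h1, h4, circleAverage_log_norm_sub_const_of_mem_closedBall]
  rw [mem_closedBall_iff_norm, zero_sub, norm_neg, abs_of_pos hs0]
  linarith

/-- the formula on a big disc -/
theorem big {U : ℂ → ℝ} {B δ : ℝ} (hδ0 : 0 < δ) (hδ : δ < 1) (hc : ContDiffOn ℝ ∞ U (ball 0 1))
    (hU : ∀ x : ℂ, 1 - δ < ‖x‖ → ‖x‖ < 1 → U x = B * Real.log ‖x‖) (c : ℂ) (s : ℝ)
    (hs : ‖c‖ + 1 ≤ s) :
    B * Real.log s = ext U B c + (2 * Real.pi)⁻¹ *
      ∫ z in ball (0 : ℂ) 1, Real.log (s / ‖z - c‖) * Laplacian.laplacian U z := by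
  have hs0 : 0 < s := by linarith [norm_nonneg c]
  have h1 := mean_formula (ext U B) ((ext_smooth hδ hc hU hδ0).of_le (by norm_cast)) c s hs0
  rw [mean_ext hδ0 hU c s hs] at h1
  rw [h1]
  congr 2
  rw [← integral_indicator measurableSet_ball, ← integral_indicator measurableSet_ball]
  congr 1
  ext z
  by_cases hz : ‖z‖ < 1
  · have hz1 : z ∈ ball (0 : ℂ) 1 := by simpa using hz
    have hz2 : z ∈ ball c s := by
      rw [mem_ball_iff_norm]
      calc ‖z - c‖ ≤ ‖z‖ + ‖c‖ := norm_sub_le _ _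
        _ < s := by linarith
    rw [indicator_of_mem hz1, indicator_of_mem hz2, lap_ext_in hz]
  · have hz1 : z ∉ ball (0 : ℂ) 1 := by simpa using hz
    rw [indicator_of_notMem hz1]
    by_cases hz2 : z ∈ ball c s
    · rw [indicator_of_mem hz2, lap_ext_out hδ hU (by linarith [not_lt.1 hz]), mul_zero]
    · rw [indicator_of_notMem hz2]

/-- the logarithmic kernel is locally integrable -/
theorem log_int (c : ℂ) : IntegrableOn (fun z : ℂ => Real.log ‖z - c‖) (closedBall 0 1) := by
  set R : ℝ := ‖c‖ + 2 with hR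
  have hR0 : 0 < R := by positivity
  have h1 : Integrable (fun z : ℂ => (Iio R).indicator Real.log ‖z‖) := by
    rw [integrable_fun_norm_addHaar (volume : Measure ℂ) (f := (Iio R).indicator Real.log)]
    have h2 : IntegrableOn (fun y : ℝ => y * Real.log y) (Ioo 0 R) :=
      (Real.continuous_mul_log.continuousOn.integrableOn_compact isCompact_Icc).mono_set Ioo_subset_Icc_self
    have h3 : IntegrableOn ((Ioo 0 R).indicator fun y : ℝ => y * Real.log y) (Ioi 0) :=
      ((integrable_indicator_iff measurableSet_Ioo).2 h2).integrableOn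
    refine h3.congr_fun ?_ measurableSet_Ioi
    intro y hy
    simp only [Complex.finrank_real_complex, smul_eq_mul]
    by_cases hy2 : y < R
    · rw [indicator_of_mem (show y ∈ Ioo 0 R from ⟨hy, hy2⟩), indicator_of_mem (show y ∈ Iio R from hy2)]
      norm_num
    · rw [indicator_of_notMem (show y ∉ Ioo 0 R from fun h => hy2 h.2),
        indicator_of_notMem (show y ∉ Iio R from fun h => hy2 h), mul_zero]
  have h4 : Integrable (fun z : ℂ => (Iio R).indicator Real.log ‖z - c‖) := h1.comp_sub_right c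
  refine h4.integrableOn.congr_fun ?_ isClosed_closedBall.measurableSet
  intro z hz
  have h5 : ‖z - c‖ < R := by
    rw [mem_closedBall_zero_iff] at hz
    calc ‖z - c‖ ≤ ‖z‖ + ‖c‖ := norm_sub_le _ _
      _ < R := by rw [hR]; linarith
  show (Iio R).indicator Real.log ‖z - c‖ = _
  rw [indicator_of_mem (show ‖z - c‖ ∈ Iio R from h5)]

theorem lap_bdd {U : ℂ → ℝ} {B δ : ℝ} (hδ0 : 0 < δ) (hδ : δ < 1) (hc : ContDiffOn ℝ ∞ U (ball 0 1))
    (hU : ∀ x : ℂ, 1 - δ < ‖x‖ → ‖x‖ < 1 → U x = B * Real.log ‖x‖) :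
    Continuous (Laplacian.laplacian (ext U B)) := by
  rw [InnerProductSpace.laplacian_eq_iteratedFDeriv_complexPlane]
  have h := ext_smooth hδ hc hU hδ0
  have h2 : Continuous (iteratedFDeriv ℝ 2 (ext U B)) := h.continuous_iteratedFDeriv (by norm_cast)
  have h3 : ∀ m : Fin 2 → ℂ, Continuous fun x => iteratedFDeriv ℝ 2 (ext U B) x m := fun m =>
    (ContinuousMultilinearMap.apply ℝ (fun _ : Fin 2 => ℂ) ℝ m).continuous.comp h2
  exact (h3 _).add (h3 _)

theorem ae_ne_pt (c : ℂ) : ∀ᵐ z : ℂ, z ≠ c := by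
  rw [ae_iff]
  simp

theorem t : Pool.Agent.H53M.GRN := by
  intro U B δ hδ0 hδ hc hU x hx
  have hx1 : ‖x‖ < 1 := by simpa using hx
  have hpi := Real.pi_pos
  set T : ℝ := ∫ z in ball (0 : ℂ) 1, Laplacian.laplacian (ext U B) z with hT
  set I : ℂ → ℝ := fun c => ∫ z in ball (0 : ℂ) 1, Real.log ‖z - c‖ * Laplacian.laplacian (ext U B) z with hI
  have hLc := lap_bdd hδ0 hδ hc hU
  have hi0 : IntegrableOn (fun z => Laplacian.laplacian (ext U B) z) (ball (0 : ℂ) 1) :=
    (hLc.continuousOn.integrableOn_compact (isCompact_closedBall (0 : ℂ) 1)).mono_set ball_subset_closedBall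
  have hi1 : ∀ c : ℂ, IntegrableOn (fun z => Real.log ‖z - c‖ * Laplacian.laplacian (ext U B) z)
      (ball (0 : ℂ) 1) := fun c =>
    ((log_int c).mul_continuousOn hLc.continuousOn (isCompact_closedBall (0 : ℂ) 1)).mono_set
      ball_subset_closedBall
  have key : ∀ (c : ℂ) (s : ℝ), ‖c‖ + 1 ≤ s →
      B * Real.log s = ext U B c + (2 * Real.pi)⁻¹ * (Real.log s * T - I c) := by
    intro c s hs
    have hs0 : 0 < s := by linarith [norm_nonneg c]
    rw [big hδ0 hδ hc hU c s hs]
    congr 2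
    rw [hT, hI]
    simp only
    rw [← integral_const_mul, ← integral_sub (hi0.const_mul _) (hi1 c)]
    refine setIntegral_congr_ae measurableSet_ball ?_
    filter_upwards [ae_ne_pt c] with z hz hz1
    have hz2 : ‖z - c‖ ≠ 0 := norm_ne_zero_iff.2 (sub_ne_zero.2 hz)
    rw [Real.log_div hs0.ne' hz2, lap_ext_in (by simpa using hz1)]
    ring
  have hT2 : T = 2 * Real.pi * B := by
    have h1 := key 0 1 (by simp)
    have h2 := key 0 2 (by simp)
    rw [Real.log_one] at h1
    have hl : 0 < Real.log 2 := Real.log_pos (by norm_num)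
    have h3 : B * Real.log 2 = (2 * Real.pi)⁻¹ * (Real.log 2 * T) := by
      have : (2 * Real.pi)⁻¹ * (Real.log 2 * T - I 0) =
        (2 * Real.pi)⁻¹ * (Real.log 2 * T) + (2 * Real.pi)⁻¹ * (0 * T - I 0) := by ring
      rw [this] at h2
      linarith
    have h4 : B = (2 * Real.pi)⁻¹ * T := by
      have : Real.log 2 * B = Real.log 2 * ((2 * Real.pi)⁻¹ * T) := by linarith
      exact mul_left_cancel₀ hl.ne' this
    rw [h4]
    field_simp
  have hIc : ∀ c : ℂ, I c = 2 * Real.pi * ext U B c := by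
    intro c
    have h1 := key c (‖c‖ + 1) le_rfl
    rw [hT2] at h1
    have h2 : (2 * Real.pi)⁻¹ * (Real.log (‖c‖ + 1) * (2 * Real.pi * B) - I c) =
      B * Real.log (‖c‖ + 1) - (2 * Real.pi)⁻¹ * I c := by
      field_simp
    rw [h2] at h1
    have h3 : (2 * Real.pi)⁻¹ * I c = ext U B c := by linarith
    rw [← h3]
    field_simp
  -- the pointwise form of the kernel
  obtain ⟨K, hK, hKi⟩ : ∃ K : ℂ → ℝ, (∀ z : ℂ, ‖z‖ < 1 → Real.log ‖1 - (starRingEnd ℂ) x * z‖ = K z) ∧
      (IntegrableOn (fun z => K z * Laplacian.laplacian (ext U B) z) (ball (0 : ℂ) 1) ∧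
       ∫ z in ball (0 : ℂ) 1, K z * Laplacian.laplacian (ext U B) z = 0) := by
    by_cases h0 : x = 0
    · refine ⟨fun _ => 0, fun z _ => by simp [h0], ?_, ?_⟩
      · simp
      · simp
    · set c : ℂ := ((starRingEnd ℂ) x)⁻¹ with hcd
      have hcx : (starRingEnd ℂ) x ≠ 0 := by simpa using h0
      have hnx : ‖x‖ ≠ 0 := norm_ne_zero_iff.2 h0
      have hnc : ‖c‖ = ‖x‖⁻¹ := by rw [hcd, norm_inv, Complex.norm_conj]
      have hc1 : 1 < ‖c‖ := by
        rw [hnc]
        exact (one_lt_inv₀ (lt_of_le_of_ne (norm_nonneg x) hnx.symm)).2 hx1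
      refine ⟨fun z => Real.log ‖x‖ + Real.log ‖z - c‖, ?_, ?_, ?_⟩
      · intro z hz
        have h1 : 1 - (starRingEnd ℂ) x * z = -((starRingEnd ℂ) x) * (z - c) := by
          rw [hcd]
          field_simp
          ring
        have h2 : ‖z - c‖ ≠ 0 := by
          rw [norm_ne_zero_iff, sub_ne_zero]
          intro h
          rw [h] at hz
          linarith
        rw [h1, norm_mul, norm_neg, Complex.norm_conj, Real.log_mul hnx h2]
      · have h3 : IntegrableOn (fun z => Real.log ‖x‖ * Laplacian.laplacian (ext U B) z +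
            Real.log ‖z - c‖ * Laplacian.laplacian (ext U B) z) (ball (0 : ℂ) 1) :=
          (hi0.const_mul (Real.log ‖x‖)).add (hi1 c)
        refine h3.congr_fun ?_ measurableSet_ball
        intro z _
        show _ = (Real.log ‖x‖ + Real.log ‖z - c‖) * Laplacian.laplacian (ext U B) z
        ring
      · have h1 : ∀ z, (Real.log ‖x‖ + Real.log ‖z - c‖) * Laplacian.laplacian (ext U B) z =
          Real.log ‖x‖ * Laplacian.laplacian (ext U B) z +
            Real.log ‖z - c‖ * Laplacian.laplacian (ext U B) z := fun z => by ring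
        simp only [h1]
        rw [integral_add (hi0.const_mul _) (hi1 c), integral_const_mul]
        have h2 : (∫ z in ball (0 : ℂ) 1, Real.log ‖z - c‖ * Laplacian.laplacian (ext U B) z) = I c := rfl
        rw [h2, hIc c, ← hT, hT2, ext_out hU (by linarith), hnc, Real.log_inv]
        ring
  obtain ⟨hKi, hK0⟩ := hKi
  have e : ∫ z in ball (0 : ℂ) 1, gg x z * lap4 U z =
      (1 / 4) * ((∫ z in ball (0 : ℂ) 1, K z * Laplacian.laplacian (ext U B) z) - I x) := by
    rw [hI]
    simp only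
    rw [← integral_sub hKi (hi1 x), ← integral_const_mul]
    refine setIntegral_congr_ae measurableSet_ball ?_
    filter_upwards [ae_ne_pt x] with z hz hz1
    have hz1' : ‖z‖ < 1 := by simpa using hz1
    have hz2 : ‖x - z‖ ≠ 0 := norm_ne_zero_iff.2 (sub_ne_zero.2 (Ne.symm hz))
    have hz3 : ‖1 - (starRingEnd ℂ) x * z‖ ≠ 0 := by
      rw [norm_ne_zero_iff, sub_ne_zero]
      intro h
      have h5 : ‖(starRingEnd ℂ) x * z‖ = 1 := by rw [← h, norm_one]
      rw [norm_mul, Complex.norm_conj] at h5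
      nlinarith [norm_nonneg x, norm_nonneg z]
    unfold gg
    rw [Real.log_div hz3 hz2, hK z hz1', lap4_eq, lap_ext_in hz1', norm_sub_rev x z]
    ring
  rw [e, hK0, hIc x, ext_in hx1]
  field_simp
  ring

end Pool.Agent.H53M.GRN
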