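import Pool.Agent.H53M.Stm

/-!
# Stub GTF: the truncated Green kernel of the disc
-/

set_option autoImplicit false

open MeasureTheory Metric Set Filter Topology
open scoped ContDiff ComplexOrder

noncomputable section

namespace Pool.Agent.H53M.GTF

theorem ident (x t : ℂ) :
    ‖1 - (starRingEnd ℂ) x * t‖ ^ 2 - ‖x - t‖ ^ 2 = (1 - ‖x‖ ^ 2) * (1 - ‖t‖ ^ 2) := by
  rw [← Complex.normSq_eq_norm_sq, ← Complex.normSq_eq_norm_sq, ← Complex.normSq_eq_norm_sq,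
    ← Complex.normSq_eq_norm_sq]
  simp only [Complex.normSq_apply, Complex.sub_re, Complex.sub_im, Complex.one_re, Complex.one_im, Complex.mul_re,
    Complex.mul_im, Complex.conj_re, Complex.conj_im]
  ring

theorem nrm_lt {x t : ℂ} (hx : ‖x‖ < 1) (ht : ‖t‖ < 1) : ‖(starRingEnd ℂ) x * t‖ < 1 := by
  rw [norm_mul, RCLike.norm_conj]
  have h1 := norm_nonneg x
  have h2 := norm_nonneg t
  nlinarith

theorem den_pos {x t : ℂ} (hx : ‖x‖ < 1) (ht : ‖t‖ < 1) : 0 < ‖1 - (starRingEnd ℂ) x * t‖ := by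
  have h := nrm_lt hx ht
  have h2 := norm_sub_norm_le (1 : ℂ) ((starRingEnd ℂ) x * t)
  rw [norm_one] at h2
  linarith

theorem den_le {x t : ℂ} (hx : ‖x‖ < 1) (ht : ‖t‖ < 1) : ‖1 - (starRingEnd ℂ) x * t‖ ≤ 2 := by
  have h := nrm_lt hx ht
  have h2 := norm_sub_le (1 : ℂ) ((starRingEnd ℂ) x * t)
  rw [norm_one] at h2
  linarith

theorem one_sub_KK {x t : ℂ} (hx : ‖x‖ < 1) (ht : ‖t‖ < 1) :
    1 - KK x t = (‖x - t‖ / ‖1 - (starRingEnd ℂ) x * t‖) ^ 2 := by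
  have h := den_pos hx ht
  unfold KK
  rw [← ident, div_pow]
  field_simp
  ring

theorem KK_nonneg {x t : ℂ} (hx : ‖x‖ < 1) (ht : ‖t‖ < 1) : 0 ≤ KK x t := by
  unfold KK
  have h1 := norm_nonneg x
  have h2 := norm_nonneg t
  have h3 : 0 ≤ 1 - ‖x‖ ^ 2 := by nlinarith
  have h4 : 0 ≤ 1 - ‖t‖ ^ 2 := by nlinarith
  positivity

theorem KK_le_one {x t : ℂ} (hx : ‖x‖ < 1) (ht : ‖t‖ < 1) : KK x t ≤ 1 := by
  have h := one_sub_KK hx ht
  have h2 : 0 ≤ (‖x - t‖ / ‖1 - (starRingEnd ℂ) x * t‖) ^ 2 := by positivity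
  linarith

theorem KK_lt_one {x t : ℂ} (hx : ‖x‖ < 1) (ht : ‖t‖ < 1) (hxt : x ≠ t) : KK x t < 1 := by
  have h := one_sub_KK hx ht
  have h2 : 0 < (‖x - t‖ / ‖1 - (starRingEnd ℂ) x * t‖) ^ 2 :=
    pow_pos (div_pos (norm_pos_iff.mpr (sub_ne_zero.mpr hxt)) (den_pos hx ht)) 2
  linarith

theorem KK_self {x : ℂ} (hx : ‖x‖ < 1) : KK x x = 1 := by
  have h := one_sub_KK hx hx
  rw [sub_self, norm_zero, zero_div] at h
  linarith [h]

theorem gg_eq {x t : ℂ} (hx : ‖x‖ < 1) (ht : ‖t‖ < 1) : gg x t = -Real.log (1 - KK x t) / 2 := by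
  rw [one_sub_KK hx ht, Real.log_pow]
  unfold gg
  rw [← inv_div, Real.log_inv]
  push_cast
  ring

/-- partial sums of the tail -/
theorem cs_bound {K : ℝ} (h0 : 0 ≤ K) (h1 : K < 1) {T : ℕ} (hT : 0 < T) (N : ℕ) :
    (∑ n ∈ Finset.range N, K ^ (T + n + 1) / (((T + n : ℕ) : ℝ) + 1)) ^ 2 ≤ (1 / (T : ℝ)) * (1 / (1 - K)) := by
  have hT' : (0 : ℝ) < T := by exact_mod_cast hT
  have hcs := Finset.sum_mul_sq_le_sq_mul_sq (Finset.range N) (fun n : ℕ => 1 / (((T + n : ℕ) : ℝ) + 1))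
    (fun n : ℕ => K ^ (T + n + 1))
  have h2 : ∑ n ∈ Finset.range N, K ^ (T + n + 1) / (((T + n : ℕ) : ℝ) + 1) =
      ∑ n ∈ Finset.range N, (1 / (((T + n : ℕ) : ℝ) + 1)) * K ^ (T + n + 1) := by
    refine Finset.sum_congr rfl fun n _ => ?_
    ring
  rw [h2]
  refine hcs.trans ?_
  have h3 : ∀ N : ℕ, ∑ n ∈ Finset.range N, (1 / (((T + n : ℕ) : ℝ) + 1)) ^ 2 ≤ 1 / (T : ℝ) - 1 / ((T + N : ℕ) : ℝ) := by
    intro N
    induction N with
    | zero => simp
    | succ N ih =>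
      rw [Finset.sum_range_succ]
      have h5 : (0 : ℝ) < ((T + N : ℕ) : ℝ) := by exact_mod_cast (by omega : 0 < T + N)
      have h6 : (1 / (((T + N : ℕ) : ℝ) + 1)) ^ 2 ≤ 1 / ((T + N : ℕ) : ℝ) - 1 / ((T + (N + 1) : ℕ) : ℝ) := by
        have h7 : ((T + (N + 1) : ℕ) : ℝ) = ((T + N : ℕ) : ℝ) + 1 := by push_cast; ring
        rw [h7]
        set a := ((T + N : ℕ) : ℝ)
        rw [div_sub_div _ _ h5.ne' (by positivity), div_pow, div_le_div_iff₀ (by positivity) (by positivity)]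
        nlinarith
      linarith
  have h4 : ∑ n ∈ Finset.range N, (K ^ (T + n + 1)) ^ 2 ≤ 1 / (1 - K) := by
    have h5 : ∑ n ∈ Finset.range N, (K ^ (T + n + 1)) ^ 2 ≤ ∑ n ∈ Finset.range N, K ^ n := by
      refine Finset.sum_le_sum fun n _ => ?_
      rw [← pow_mul]
      exact pow_le_pow_of_le_one h0 h1.le (by omega)
    refine h5.trans ?_
    rw [le_div_iff₀ (by linarith)]
    have h6 := mul_neg_geom_sum K N
    have h7 : 0 ≤ K ^ N := pow_nonneg h0 N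
    nlinarith
  refine mul_le_mul ((h3 N).trans ?_) h4 (Finset.sum_nonneg fun _ _ => sq_nonneg _) (by positivity)
  have h8 : (0 : ℝ) ≤ 1 / ((T + N : ℕ) : ℝ) := by positivity
  linarith

theorem part_le {K : ℝ} (h0 : 0 ≤ K) (h1 : K < 1) (T : ℕ) :
    ∑ n ∈ Finset.range T, K ^ (n + 1) / ((n : ℝ) + 1) ≤ -Real.log (1 - K) := by
  have hs := Real.hasSum_pow_div_log_of_abs_lt_one (x := K) (by rw [abs_of_nonneg h0]; exact h1)
  exact sum_le_hasSum _ (fun n _ => by positivity) hs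

theorem tail_le {K : ℝ} (h0 : 0 ≤ K) (h1 : K < 1) {T : ℕ} (hT : 0 < T) :
    -Real.log (1 - K) - ∑ n ∈ Finset.range T, K ^ (n + 1) / ((n : ℝ) + 1) ≤
      Real.sqrt ((1 / (T : ℝ)) * (1 / (1 - K))) := by
  have hs := Real.hasSum_pow_div_log_of_abs_lt_one (x := K) (by rw [abs_of_nonneg h0]; exact h1)
  have h2 := hs.tendsto_sum_nat
  have h3 : Tendsto (fun N : ℕ => ∑ n ∈ Finset.range (T + N), K ^ (n + 1) / ((n : ℝ) + 1)) atTop
      (𝓝 (-Real.log (1 - K))) := h2.comp (tendsto_add_atTop_nat T |>.congr fun n => by rw [add_comm])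
  refine le_of_tendsto (h3.sub_const _) (Filter.Eventually.of_forall fun N => ?_)
  rw [Finset.sum_range_add, add_sub_cancel_left]
  exact Real.le_sqrt_of_sq_le (cs_bound h0 h1 hT N)

theorem gT_nonneg {x t : ℂ} (hx : ‖x‖ < 1) (ht : ‖t‖ < 1) (T : ℕ) : 0 ≤ gT T x t := by
  unfold gT
  have := KK_nonneg hx ht
  positivity

theorem gT_le {x t : ℂ} (hx : ‖x‖ < 1) (ht : ‖t‖ < 1) (hxt : x ≠ t) (T : ℕ) : gT T x t ≤ gg x t := by
  rw [gg_eq hx ht]
  unfold gT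
  have := part_le (KK_nonneg hx ht) (KK_lt_one hx ht hxt) T
  linarith

theorem diff_le {x t : ℂ} (hx : ‖x‖ < 1) (ht : ‖t‖ < 1) (hxt : x ≠ t) {T : ℕ} (hT : 0 < T) :
    gg x t - gT T x t ≤ (Real.sqrt T)⁻¹ * ‖x - t‖⁻¹ := by
  rw [gg_eq hx ht]
  unfold gT
  have h1 := tail_le (KK_nonneg hx ht) (KK_lt_one hx ht hxt) hT
  have h2 : 0 < ‖x - t‖ := norm_pos_iff.mpr (sub_ne_zero.mpr hxt)
  have h3 : Real.sqrt ((1 / (T : ℝ)) * (1 / (1 - KK x t))) ≤ 2 * ((Real.sqrt T)⁻¹ * ‖x - t‖⁻¹) := by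
    rw [one_sub_KK hx ht, Real.sqrt_mul (by positivity), one_div, Real.sqrt_inv, one_div, Real.sqrt_inv,
      Real.sqrt_sq (by positivity)]
    rw [inv_div]
    have h4 := den_le hx ht
    have h5 : ‖1 - (starRingEnd ℂ) x * t‖ / ‖x - t‖ ≤ 2 * ‖x - t‖⁻¹ := by
      rw [div_eq_mul_inv]
      exact mul_le_mul_of_nonneg_right h4 (by positivity)
    calc (Real.sqrt T)⁻¹ * (‖1 - (starRingEnd ℂ) x * t‖ / ‖x - t‖) ≤ (Real.sqrt T)⁻¹ * (2 * ‖x - t‖⁻¹) :=
          mul_le_mul_of_nonneg_left h5 (by positivity)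
      _ = _ := by ring
  linarith

/-- the majorant -/
def ff (r : ℝ) : ℝ := (Set.Iio (2 : ℝ)).indicator (fun s => s⁻¹) r

theorem ff_aux : Set.EqOn (fun y : ℝ => y ^ (Module.finrank ℝ ℂ - 1) • ff y)
    ((Set.Iio (2 : ℝ)).indicator (fun _ => (1 : ℝ))) (Set.Ioi 0) := by
  intro y hy
  have hy' : 0 < y := hy
  simp only [Complex.finrank_real_complex]
  unfold ff
  by_cases h : y ∈ Set.Iio (2 : ℝ)
  · rw [Set.indicator_of_mem h, Set.indicator_of_mem h]
    simp only [Nat.add_one_sub_one, pow_one, smul_eq_mul]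
    exact mul_inv_cancel₀ hy'.ne'
  · rw [Set.indicator_of_notMem h, Set.indicator_of_notMem h, smul_zero]

theorem ff_int : Integrable (fun z : ℂ => ff ‖z‖) := by
  rw [integrable_fun_norm_addHaar]
  rw [integrableOn_congr_fun ff_aux measurableSet_Ioi]
  rw [IntegrableOn, integrable_indicator_iff measurableSet_Iio]
  rw [IntegrableOn, Measure.restrict_restrict measurableSet_Iio]
  rw [← IntegrableOn]
  refine integrableOn_const ?_
  rw [Set.inter_comm, Set.Ioi_inter_Iio, Real.volume_Ioo]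
  exact ENNReal.ofReal_ne_top

theorem ff_val : ∫ z : ℂ, ff ‖z‖ = 4 * Real.pi := by
  rw [integral_fun_norm_addHaar]
  rw [setIntegral_congr_fun measurableSet_Ioi ff_aux]
  rw [setIntegral_indicator measurableSet_Iio, Set.Ioi_inter_Iio]
  simp only [Complex.finrank_real_complex, integral_const, smul_eq_mul, mul_one, MeasurableSet.univ,
    measureReal_restrict_apply, Set.univ_inter]
  rw [Measure.real, Measure.real, Complex.volume_ball, Real.volume_Ioo]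
  simp
  ring

theorem ff_eq {x t : ℂ} (hx : ‖x‖ < 1) (ht : ‖t‖ < 1) : ff ‖x - t‖ = ‖x - t‖⁻¹ := by
  unfold ff
  rw [Set.indicator_of_mem]
  have := norm_sub_le x t
  exact Set.mem_Iio.mpr (by linarith)

theorem ff_nonneg (r : ℝ) (hr : 0 ≤ r) : 0 ≤ ff r := by
  unfold ff
  by_cases h : r ∈ Set.Iio (2 : ℝ)
  · rw [Set.indicator_of_mem h]
    exact inv_nonneg.mpr hr
  · rw [Set.indicator_of_notMem h]

theorem ffs_int (x : ℂ) : Integrable (fun t : ℂ => ff ‖x - t‖) := ff_int.comp_sub_left x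

theorem ffs_val (x : ℂ) : ∫ t : ℂ, ff ‖x - t‖ = 4 * Real.pi := by
  rw [integral_sub_left_eq_self (fun t : ℂ => ff ‖t‖) volume x, ff_val]

theorem mem_b {t : ℂ} (ht : t ∈ ball (0 : ℂ) 1) : ‖t‖ < 1 := by simpa using ht

theorem ae_ne (x : ℂ) : ∀ᵐ t ∂(volume.restrict (ball (0 : ℂ) 1)), x ≠ t := by
  refine ae_restrict_of_ae ?_
  have h : ∀ᵐ t : ℂ, t ∉ ({x} : Set ℂ) := measure_eq_zero_iff_ae_notMem.mp (measure_singleton x)
  filter_upwards [h] with t ht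
  intro h2
  exact ht (by simp [h2])

theorem gg_meas (x : ℂ) : Measurable (fun t => gg x t) := by
  unfold gg
  fun_prop

theorem gg_int {x : ℂ} (hx : ‖x‖ < 1) : IntegrableOn (fun t => gg x t) (ball (0 : ℂ) 1) := by
  refine Integrable.mono' (((ffs_int x).const_mul 2).integrableOn) (gg_meas x).aestronglyMeasurable ?_
  filter_upwards [ae_ne x, ae_restrict_mem measurableSet_ball] with t hne hb
  have ht := mem_b hb
  have h1 : 0 ≤ gg x t := (gT_nonneg hx ht 0).trans (gT_le hx ht hne 0)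
  have h2 : 0 < ‖x - t‖ := norm_pos_iff.mpr (sub_ne_zero.mpr hne)
  rw [Real.norm_of_nonneg h1, ff_eq hx ht]
  unfold gg
  have h3 : 0 < ‖1 - (starRingEnd ℂ) x * t‖ / ‖x - t‖ := div_pos (den_pos hx ht) h2
  have h4 := Real.log_le_sub_one_of_pos h3
  have h5 : ‖1 - (starRingEnd ℂ) x * t‖ / ‖x - t‖ ≤ 2 * ‖x - t‖⁻¹ := by
    rw [div_eq_mul_inv]
    exact mul_le_mul_of_nonneg_right (den_le hx ht) (by positivity)
  linarith

theorem diff_int {x : ℂ} (hx : ‖x‖ < 1) {T : ℕ} (hT : 0 < T) :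
    ∫ t in ball (0 : ℂ) 1, (gg x t - gT T x t) ≤ (Real.sqrt T)⁻¹ * (4 * Real.pi) := by
  have hi : Integrable (fun t : ℂ => (Real.sqrt T)⁻¹ * ff ‖x - t‖) := (ffs_int x).const_mul _
  calc ∫ t in ball (0 : ℂ) 1, (gg x t - gT T x t)
      ≤ ∫ t in ball (0 : ℂ) 1, (Real.sqrt T)⁻¹ * ff ‖x - t‖ := by
        refine integral_mono_of_nonneg ?_ hi.integrableOn ?_
        · filter_upwards [ae_ne x, ae_restrict_mem measurableSet_ball] with t hne hb
          have := gT_le hx (mem_b hb) hne T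
          simp only [Pi.zero_apply]
          linarith
        · filter_upwards [ae_ne x, ae_restrict_mem measurableSet_ball] with t hne hb
          rw [ff_eq hx (mem_b hb)]
          exact diff_le hx (mem_b hb) hne hT
    _ ≤ ∫ t : ℂ, (Real.sqrt T)⁻¹ * ff ‖x - t‖ := by
        refine setIntegral_le_integral hi (Filter.Eventually.of_forall fun t => ?_)
        have := ff_nonneg ‖x - t‖ (norm_nonneg _)
        simp only [Pi.zero_apply]
        positivity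
    _ = _ := by rw [integral_const_mul, ffs_val]

theorem t : Pool.Agent.H53M.GTF := by
  refine ⟨fun T x t hx ht hne => ⟨gT_nonneg hx ht T, gT_le hx ht hne T⟩, fun T x hx => ?_,
    fun x t hx ht => ⟨KK_nonneg hx ht, KK_le_one hx ht⟩, fun ε hε => ?_, fun x hx => gg_int (mem_b hx)⟩
  · unfold gT
    rw [KK_self hx]
    simp
  · obtain ⟨T, hT⟩ := exists_nat_gt ((4 * Real.pi / ε) ^ 2)
    have hp := Real.pi_pos
    have hT0 : 0 < T := by
      have : (0 : ℝ) < T := lt_of_le_of_lt (by positivity) hT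
      exact_mod_cast this
    refine ⟨T, fun x hx => (diff_int (mem_b hx) hT0).trans ?_⟩
    have h1 : 4 * Real.pi / ε ≤ Real.sqrt T := Real.le_sqrt_of_sq_le hT.le
    have h2 : 0 < 4 * Real.pi / ε := by positivity
    have h3 : 0 < Real.sqrt T := lt_of_lt_of_le h2 h1
    rw [inv_mul_le_iff₀ h3]
    rwa [div_le_iff₀ hε] at h1

end Pool.Agent.H53M.GTF
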