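import Mathlib
import Pool.Agent.H53M.Stm
import Pool.Agent.H53M.HES

set_option autoImplicit false
set_option maxHeartbeats 1000000

open MeasureTheory Metric Set Filter Topology
open scoped ContDiff ComplexOrder

namespace Pool.Agent.H53M.HAR

open Pool.Agent.H53M Pool.Agent.H805R2

lemma inv_int : IntegrableOn (fun z : ℂ => ‖z‖⁻¹) (ball (0 : ℂ) 2) := by
  have := (integrableOn_fun_norm_addHaar (E := ℂ) (volume : Measure ℂ)
    (f := fun y : ℝ => y⁻¹) (r := 2)).2
  apply this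
  have h1 : IntegrableOn (fun _ : ℝ => (1 : ℝ)) (Ioo 0 2) := by
    simp
  refine h1.congr_fun (fun y hy => ?_) measurableSet_Ioo
  simp only [Complex.finrank_real_complex, smul_eq_mul]
  norm_num
  rw [mul_inv_cancel₀ hy.1.ne']

lemma key_id (x y : ℂ) : ‖1 - (starRingEnd ℂ) x * y‖ ^ 2 =
    ‖x - y‖ ^ 2 + (1 - ‖x‖ ^ 2) * (1 - ‖y‖ ^ 2) := by
  simp only [Complex.sq_norm, Complex.normSq_apply]
  simp
  ring

lemma gg_self (x : ℂ) : gg x x = 0 := by
  unfold gg; simp

lemma gg_bounds {x y : ℂ} (hx : ‖x‖ < 1) (hy : ‖y‖ < 1) :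
    0 ≤ gg x y ∧ gg x y ≤ (1 - ‖y‖ ^ 2) * ‖x - y‖⁻¹ := by
  by_cases hxy : x = y
  · subst hxy
    rw [gg_self]
    simp
  have hb : 0 < ‖x - y‖ := norm_pos_iff.mpr (sub_ne_zero.mpr hxy)
  have hx2 : ‖x‖ ^ 2 < 1 := by nlinarith [norm_nonneg x]
  have hy2 : ‖y‖ ^ 2 < 1 := by nlinarith [norm_nonneg y]
  have hk := key_id x y
  set A := ‖1 - (starRingEnd ℂ) x * y‖ with hA
  set b := ‖x - y‖ with hbd
  have hA0 : 0 ≤ A := norm_nonneg _
  have hbA : b ≤ A := by
    apply le_of_sq_le_sq _ hA0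
    rw [hk]
    nlinarith [mul_pos (sub_pos.mpr hx2) (sub_pos.mpr hy2)]
  have hApos : 0 < A := lt_of_lt_of_le hb hbA
  have hAle : A ≤ (1 - ‖y‖ ^ 2) + b := by
    have e : 1 - (starRingEnd ℂ) x * y = (((1 - ‖y‖ ^ 2 : ℝ)) : ℂ) + (starRingEnd ℂ) (y - x) * y := by
      rw [map_sub, sub_mul]
      have : (starRingEnd ℂ) y * y = ((‖y‖ ^ 2 : ℝ) : ℂ) := by
        rw [mul_comm, Complex.mul_conj, Complex.normSq_eq_norm_sq]
      rw [this]
      push_cast
      ring
    rw [hA, e]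
    refine (norm_add_le _ _).trans ?_
    rw [Complex.norm_real, Real.norm_of_nonneg (by linarith), norm_mul, RCLike.norm_conj,
      norm_sub_rev]
    have : ‖x - y‖ * ‖y‖ ≤ ‖x - y‖ * 1 := mul_le_mul_of_nonneg_left hy.le (norm_nonneg _)
    linarith
  unfold gg
  rw [← hA, ← hbd]
  constructor
  · apply Real.log_nonneg
    rw [le_div_iff₀ hb, one_mul]
    exact hbA
  · have h1 : Real.log (A / b) ≤ A / b - 1 := Real.log_le_sub_one_of_pos (div_pos hApos hb)
    refine h1.trans ?_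
    rw [← div_eq_mul_inv, div_sub_one hb.ne']
    apply div_le_div_of_nonneg_right _ hb.le
    linarith

lemma gg_low {x y : ℂ} (hx : ‖x‖ < 1) (hy : ‖y‖ < 1) (hxy : x ≠ y) :
    (1 - ‖x‖ ^ 2) * (1 - ‖y‖ ^ 2) / 8 ≤ gg x y := by
  have hb : 0 < ‖x - y‖ := norm_pos_iff.mpr (sub_ne_zero.mpr hxy)
  have hx2 : ‖x‖ ^ 2 < 1 := by nlinarith [norm_nonneg x]
  have hy2 : ‖y‖ ^ 2 < 1 := by nlinarith [norm_nonneg y]
  have hk := key_id x y
  set A := ‖1 - (starRingEnd ℂ) x * y‖ with hA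
  set b := ‖x - y‖ with hbd
  have hA0 : 0 ≤ A := norm_nonneg _
  have ht : 0 < (1 - ‖x‖ ^ 2) * (1 - ‖y‖ ^ 2) := mul_pos (sub_pos.mpr hx2) (sub_pos.mpr hy2)
  have hbA : b ≤ A := by
    apply le_of_sq_le_sq _ hA0
    rw [hk]
    linarith
  have hApos : 0 < A := lt_of_lt_of_le hb hbA
  have hb2 : b ≤ 2 := by
    rw [hbd]
    refine (norm_sub_le _ _).trans ?_
    linarith
  have hA2 : A ≤ 2 := by
    rw [hA]
    refine (norm_sub_le _ _).trans ?_
    rw [norm_one, norm_mul, RCLike.norm_conj]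
    have : ‖x‖ * ‖y‖ ≤ 1 * 1 := mul_le_mul hx.le hy.le (norm_nonneg _) (by norm_num)
    linarith
  unfold gg
  rw [← hA, ← hbd]
  have h1 : 1 - (A / b)⁻¹ ≤ Real.log (A / b) := Real.one_sub_inv_le_log_of_pos (div_pos hApos hb)
  refine le_trans ?_ h1
  rw [inv_div]
  have h2 : 1 - b / A = ((1 - ‖x‖ ^ 2) * (1 - ‖y‖ ^ 2)) / (A * (A + b)) := by
    have : (1 - ‖x‖ ^ 2) * (1 - ‖y‖ ^ 2) = (A - b) * (A + b) := by linarith [hk, sq A, sq b]
    rw [this]
    field_simp
  rw [h2]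
  apply div_le_div_of_nonneg_left ht.le (by positivity)
  nlinarith

lemma lap4_log (B : ℝ) (x : ℂ) (hx : x ≠ 0) : lap4 (fun w => B * Real.log ‖w‖) x = 0 := by
  have h := ((AnalyticAt.harmonicAt_log_norm (f := fun w : ℂ => w) analyticAt_id hx).const_smul
    (c := B)).2.eq_of_nhds
  have e : (B • fun w : ℂ => Real.log ‖w‖) = fun w => B * Real.log ‖w‖ := by
    funext w
    simp
  rw [e, InnerProductSpace.laplacian_eq_iteratedFDeriv_complexPlane] at h
  simp only [iteratedFDeriv_two_apply, Pi.zero_apply] at h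
  unfold lap4
  simp at h
  rw [h, zero_div]

lemma pt_smooth : ContDiff ℝ ∞ (fun x : ℂ => pt x 0) := by
  have e : (fun x : ℂ => pt x 0) = fun x : ℂ => pt 0 0 +
      ((ContinuousLinearMap.toSpanSingleton ℂ (bas (n := 2) 0)).restrictScalars ℝ) x := by
    funext x
    rw [HES.pt_eq0]
    simp
  rw [e]
  exact contDiff_const.add (ContinuousLinearMap.contDiff _)

lemma pt_mem {x : ℂ} (hx : ‖x‖ < 1) : pt x 0 ∈ Om := by
  constructor
  · simpa [pt] using hx
  · simp [pt]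

lemma meas_gg : Measurable (fun p : ℂ × ℂ => gg p.1 p.2) := by
  unfold gg
  fun_prop

lemma Om_open : IsOpen Om := by
  have h0 : Continuous fun z : C2 => ‖z 0‖ := by fun_prop
  have h1 : Continuous fun z : C2 => ‖z 1‖ := by fun_prop
  exact (isOpen_lt h0 continuous_const).inter (isOpen_lt h1 continuous_const)

/-- the one-variable estimate -/
theorem one (hG : GRN) (U : ℂ → ℝ) (B δ M : ℝ) (hδ0 : 0 < δ) (hδ1 : δ < 1)
    (hU : ContDiffOn ℝ ∞ U (ball 0 1))
    (hg : ∀ x : ℂ, 1 - δ < ‖x‖ → ‖x‖ < 1 → U x = B * Real.log ‖x‖)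
    (hL0 : ∀ x ∈ ball (0 : ℂ) 1, 0 ≤ lap4 U x) (hLM : ∀ x ∈ ball (0 : ℂ) 1, lap4 U x ≤ M)
    (hLc : ContinuousOn (lap4 U) (ball (0 : ℂ) 1)) (x₀ : ℂ) (hx₀ : ‖x₀‖ ≤ 3 / 4) :
    ∫ x in ball (0 : ℂ) 1, (-U x) ≤
      (128 / 7) * (∫ y in ball (0 : ℂ) 2, ‖y‖⁻¹) * (-U x₀) := by
  set L := lap4 U with hLd
  set C₀ := ∫ y in ball (0 : ℂ) 2, ‖y‖⁻¹ with hC₀
  set D := ball (0 : ℂ) 1 with hD
  have hrep := hG U B δ hδ0 hδ1 hU hg
  have hx₀1 : ‖x₀‖ < 1 := by linarith
  have hM0 : 0 ≤ M := (hL0 0 (by simp [hD])).trans (hLM 0 (by simp [hD]))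
  -- the kernel
  set k : ℂ → ℝ := (ball (0 : ℂ) 2).indicator (fun y => ‖y‖⁻¹) with hk
  have hkint : Integrable k := inv_int.integrable_indicator measurableSet_ball
  have hk0 : ∀ y, 0 ≤ k y := fun y => Set.indicator_nonneg (fun _ _ => by positivity) _
  have hkI : ∫ y, k y = C₀ := by rw [hk, integral_indicator measurableSet_ball]
  have hC₀0 : 0 ≤ C₀ := by rw [← hkI]; exact integral_nonneg hk0
  have hkeq : ∀ x ∈ D, ∀ y ∈ D, k (x - y) = ‖x - y‖⁻¹ := by
    intro x hx y hy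
    rw [hk, indicator_of_mem]
    rw [hD, mem_ball_zero_iff] at hx hy
    rw [mem_ball_zero_iff]
    refine (norm_sub_le _ _).trans_lt ?_
    linarith
  have hb : ∀ x ∈ D, ∀ y ∈ D, 0 ≤ gg x y ∧ gg x y ≤ (1 - ‖y‖ ^ 2) * k (x - y) := by
    intro x hx y hy
    rw [hkeq x hx y hy]
    exact gg_bounds (by simpa [hD] using hx) (by simpa [hD] using hy)
  have hs : ∀ y ∈ D, 0 ≤ 1 - ‖y‖ ^ 2 ∧ 1 - ‖y‖ ^ 2 ≤ 1 := by
    intro y hy
    rw [hD, mem_ball_zero_iff] at hy
    constructor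
    · nlinarith [norm_nonneg y]
    · nlinarith [norm_nonneg y]
  have hLm : AEStronglyMeasurable L (volume.restrict D) :=
    hLc.aestronglyMeasurable measurableSet_ball
  have hfin : volume D < ⊤ := measure_ball_lt_top
  -- integrability of s L
  have hsL : IntegrableOn (fun y => (1 - ‖y‖ ^ 2) * L y) D := by
    have hc : IntegrableOn (fun _ : ℂ => M) D := integrableOn_const hfin.ne
    refine hc.mono' ?_ ?_
    · refine AEStronglyMeasurable.mul ?_ hLm
      exact (by fun_prop : Continuous fun y : ℂ => (1 - ‖y‖ ^ 2 : ℝ)).aestronglyMeasurable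
    · refine (ae_restrict_mem measurableSet_ball).mono (fun y hy => ?_)
      have h1 := hs y hy
      have h2 := hL0 y hy
      have h3 := hLM y hy
      rw [Real.norm_of_nonneg (mul_nonneg h1.1 h2)]
      calc (1 - ‖y‖ ^ 2) * L y ≤ 1 * M := mul_le_mul h1.2 h3 h2 (by norm_num)
        _ = M := one_mul M
  -- integrability at x₀
  have hx₀D : x₀ ∈ D := by rw [hD, mem_ball_zero_iff]; exact hx₀1
  have hF0 : IntegrableOn (fun y => gg x₀ y * L y) D := by
    have hc : IntegrableOn (fun y => M * k (x₀ - y)) D :=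
      ((hkint.comp_sub_left x₀).const_mul M).integrableOn
    refine hc.mono' ?_ ?_
    · refine AEStronglyMeasurable.mul ?_ hLm
      exact (meas_gg.comp (measurable_const.prodMk measurable_id)).aestronglyMeasurable
    · refine (ae_restrict_mem measurableSet_ball).mono (fun y hy => ?_)
      have h1 := hs y hy
      have h2 := hL0 y hy
      have h3 := hLM y hy
      have h4 := hb x₀ hx₀D y hy
      rw [Real.norm_of_nonneg (mul_nonneg h4.1 h2)]
      have h5 : gg x₀ y ≤ k (x₀ - y) := by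
        refine h4.2.trans ?_
        calc (1 - ‖y‖ ^ 2) * k (x₀ - y) ≤ 1 * k (x₀ - y) :=
              mul_le_mul_of_nonneg_right h1.2 (hk0 _)
          _ = k (x₀ - y) := one_mul _
      calc gg x₀ y * L y ≤ k (x₀ - y) * M := mul_le_mul h5 h3 h2 (hk0 _)
        _ = M * k (x₀ - y) := mul_comm _ _
  -- lower bound
  have hlow : (7 / 128) * ∫ y in D, (1 - ‖y‖ ^ 2) * L y ≤ ∫ y in D, gg x₀ y * L y := by
    rw [← integral_const_mul]
    apply integral_mono_ae (hsL.const_mul _) hF0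
    have hne : ∀ᵐ y ∂(volume.restrict D), y ≠ x₀ := by
      have : ∀ᵐ y ∂(volume : Measure ℂ), y ≠ x₀ := by
        simp [ae_iff]
      exact ae_restrict_of_ae this
    filter_upwards [ae_restrict_mem measurableSet_ball, hne] with y hy hyx
    have h2 := hL0 y hy
    have h1 := hs y hy
    have h4 := gg_low hx₀1 (by simpa [hD] using hy) (Ne.symm hyx)
    have h5 : 7 / 16 ≤ 1 - ‖x₀‖ ^ 2 := by nlinarith [norm_nonneg x₀]
    have h6 : (7 / 128) * (1 - ‖y‖ ^ 2) ≤ gg x₀ y := by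
      refine le_trans ?_ h4
      nlinarith [h1.1]
    calc (7 / 128) * ((1 - ‖y‖ ^ 2) * L y) = ((7 / 128) * (1 - ‖y‖ ^ 2)) * L y := by ring
      _ ≤ gg x₀ y * L y := mul_le_mul_of_nonneg_right h6 h2
  -- product integrability
  set F : ℂ → ℂ → ℝ := fun x y => gg x y * L y with hF
  have hprod : Integrable (Function.uncurry F) ((volume.restrict D).prod (volume.restrict D)) := by
    have hf1 : Integrable (D.indicator (fun _ : ℂ => M)) :=
      (integrableOn_const hfin.ne).integrable_indicator measurableSet_ball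
    have hconv := hf1.convolution_integrand (ContinuousLinearMap.mul ℝ ℝ) hkint
      (μ := (volume : Measure ℂ)) (ν := (volume : Measure ℂ))
    have hconv2 : Integrable (fun p : ℂ × ℂ => (D.indicator (fun _ : ℂ => M)) p.2 * k (p.1 - p.2))
        ((volume.restrict D).prod (volume.restrict D)) := by
      rw [Measure.prod_restrict]
      exact hconv.integrableOn
    refine hconv2.mono' ?_ ?_
    · refine AEStronglyMeasurable.mul meas_gg.aestronglyMeasurable ?_
      exact hLm.comp_snd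
    · rw [Measure.prod_restrict]
      refine (ae_restrict_mem (measurableSet_ball.prod measurableSet_ball)).mono (fun p hp => ?_)
      obtain ⟨hp1, hp2⟩ := hp
      have h1 := hs p.2 hp2
      have h2 := hL0 p.2 hp2
      have h3 := hLM p.2 hp2
      have h4 := hb p.1 hp1 p.2 hp2
      simp only [Function.uncurry, hF]
      rw [Real.norm_of_nonneg (mul_nonneg h4.1 h2), indicator_of_mem hp2]
      have h5 : gg p.1 p.2 ≤ k (p.1 - p.2) := by
        refine h4.2.trans ?_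
        calc (1 - ‖p.2‖ ^ 2) * k (p.1 - p.2) ≤ 1 * k (p.1 - p.2) :=
              mul_le_mul_of_nonneg_right h1.2 (hk0 _)
          _ = k (p.1 - p.2) := one_mul _
      calc gg p.1 p.2 * L p.2 ≤ k (p.1 - p.2) * M := mul_le_mul h5 h3 h2 (hk0 _)
        _ = M * k (p.1 - p.2) := mul_comm _ _
  have hswap : ∫ x in D, ∫ y in D, F x y = ∫ y in D, ∫ x in D, F x y := integral_integral_swap hprod
  have hup : ∫ y in D, ∫ x in D, F x y ≤ C₀ * ∫ y in D, (1 - ‖y‖ ^ 2) * L y := by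
    rw [← integral_const_mul]
    apply setIntegral_mono_on
    · exact hprod.integral_prod_right
    · exact hsL.const_mul _
    · exact measurableSet_ball
    · intro y hy
      have h1 := hs y hy
      have h2 := hL0 y hy
      have hki : Integrable (fun x => k (x - y)) := hkint.comp_sub_right y
      have h3 : ∫ x in D, F x y ≤ ∫ x in D, ((1 - ‖y‖ ^ 2) * L y) * k (x - y) := by
        apply setIntegral_mono_on
        · have hc : IntegrableOn (fun x => ((1 - ‖y‖ ^ 2) * L y) * k (x - y)) D :=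
            (hki.const_mul _).integrableOn
          refine hc.mono' ?_ ?_
          · exact ((meas_gg.comp (measurable_id.prodMk measurable_const)).mul_const _).aestronglyMeasurable
          · refine (ae_restrict_mem measurableSet_ball).mono (fun x hx => ?_)
            have h4 := hb x hx y hy
            simp only [hF]
            rw [Real.norm_of_nonneg (mul_nonneg h4.1 h2)]
            calc gg x y * L y ≤ ((1 - ‖y‖ ^ 2) * k (x - y)) * L y :=
                  mul_le_mul_of_nonneg_right h4.2 h2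
              _ = ((1 - ‖y‖ ^ 2) * L y) * k (x - y) := by ring
        · exact (hki.const_mul _).integrableOn
        · exact measurableSet_ball
        · intro x hx
          have h4 := hb x hx y hy
          simp only [hF]
          calc gg x y * L y ≤ ((1 - ‖y‖ ^ 2) * k (x - y)) * L y :=
                mul_le_mul_of_nonneg_right h4.2 h2
            _ = ((1 - ‖y‖ ^ 2) * L y) * k (x - y) := by ring
      refine h3.trans ?_
      rw [integral_const_mul]
      have h5 : ∫ x in D, k (x - y) ≤ C₀ := by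
        rw [← hkI, ← integral_sub_right_eq_self k y]
        exact setIntegral_le_integral hki (ae_of_all _ fun x => hk0 _)
      calc (1 - ‖y‖ ^ 2) * L y * ∫ x in D, k (x - y) ≤ (1 - ‖y‖ ^ 2) * L y * C₀ :=
            mul_le_mul_of_nonneg_left h5 (mul_nonneg h1.1 h2)
        _ = C₀ * ((1 - ‖y‖ ^ 2) * L y) := by ring
  -- assemble
  have e1 : ∫ x in D, (-U x) = (2 / Real.pi) * ∫ x in D, ∫ y in D, F x y := by
    rw [← integral_const_mul]
    exact setIntegral_congr_fun measurableSet_ball (fun x hx => hrep x hx)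
  have e2 : -U x₀ = (2 / Real.pi) * ∫ y in D, gg x₀ y * L y := hrep x₀ hx₀D
  rw [e1, e2, hswap]
  have hpi : 0 < 2 / Real.pi := by positivity
  have e3 : ∫ y in D, ∫ x in D, F x y ≤ (128 / 7) * C₀ * ∫ y in D, gg x₀ y * L y := by
    refine hup.trans ?_
    have := mul_le_mul_of_nonneg_left hlow (show 0 ≤ (128 / 7) * C₀ by positivity)
    calc C₀ * ∫ y in D, (1 - ‖y‖ ^ 2) * L y
        = (128 / 7) * C₀ * ((7 / 128) * ∫ y in D, (1 - ‖y‖ ^ 2) * L y) := by ring
      _ ≤ _ := this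
  calc (2 / Real.pi) * ∫ y in D, ∫ x in D, F x y
      ≤ (2 / Real.pi) * ((128 / 7) * C₀ * ∫ y in D, gg x₀ y * L y) :=
        mul_le_mul_of_nonneg_left e3 hpi.le
    _ = (128 / 7) * C₀ * ((2 / Real.pi) * ∫ y in D, gg x₀ y * L y) := by ring

theorem t (hG : GRN) : HAR := by
  have hC0 : 0 ≤ ∫ y in ball (0 : ℂ) 2, ‖y‖⁻¹ := integral_nonneg fun y => by positivity
  refine ⟨(128 / 7) * (∫ y in ball (0 : ℂ) 2, ‖y‖⁻¹) + 1, by positivity, ?_⟩
  intro ρ ψ B δ x₀ hρ hB hψ hx₀ hδ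
  set U : ℂ → ℝ := fun x => ψ (pt x 0) with hUd
  have hx₀1 : ‖x₀‖ < 1 := by linarith
  have hU : ContDiffOn ℝ ∞ U (ball 0 1) := by
    refine hψ.sp.1.comp pt_smooth.contDiffOn ?_
    intro x hx
    exact pt_mem (by simpa using hx)
  have hat : ∀ x ∈ ball (0 : ℂ) 1, ContDiffAt ℝ ∞ ψ (pt x 0) := fun x hx =>
    hψ.sp.1.contDiffAt (Om_open.mem_nhds (pt_mem (by simpa using hx)))
  have hLe : ∀ x ∈ ball (0 : ℂ) 1, lap4 U x = (hess ψ (pt x 0) 0 0).re := fun x hx =>
    (HES.h5 ψ x 0 (hat x hx)).1.symm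
  have hL0 : ∀ x ∈ ball (0 : ℂ) 1, 0 ≤ lap4 U x := by
    intro x hx
    rw [hLe x hx]
    have h := (hψ.sp.2 (pt x 0) (pt_mem (by simpa using hx))).diag_nonneg (i := 0)
    exact (Complex.nonneg_iff.1 h).1
  have hLc : ContinuousOn (lap4 U) (ball (0 : ℂ) 1) := by
    have h1 : ContinuousOn (fun x : ℂ => (hess ψ (pt x 0) 0 0).re) (ball 0 1) := by
      have h2 : ContinuousOn (fun x : ℂ => hess ψ (pt x 0)) (ball 0 1) :=
        (HES.h4 ψ Om Om_open hψ.sp.1).comp pt_smooth.continuous.continuousOn (fun x hx =>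
          pt_mem (by simpa using hx))
      have h3 : Continuous fun M : Matrix (Fin 2) (Fin 2) ℂ => (M 0 0).re := by fun_prop
      exact h3.comp_continuousOn h2
    exact h1.congr hLe
  obtain ⟨K, hK, hKO, hKg⟩ := hψ.germ
  obtain ⟨r1, hr0, hr1, hrK⟩ : ∃ r1 : ℝ, 0 ≤ r1 ∧ r1 < 1 ∧ ∀ z ∈ K, ‖z 0‖ ≤ r1 := by
    rcases K.eq_empty_or_nonempty with h | h
    · exact ⟨0, le_refl _, by norm_num, by rw [h]; simp⟩
    · have hc : Continuous fun z : C2 => ‖z 0‖ := by fun_prop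
      obtain ⟨z0, hz0, hmax⟩ := hK.exists_isMaxOn h hc.continuousOn
      exact ⟨‖z0 0‖, norm_nonneg _, (hKO hz0).1, fun z hz => hmax hz⟩
  have he1 : Real.exp (-(1 : ℝ)) < 1 := by
    rw [Real.exp_lt_one_iff]; norm_num
  have he0 := Real.exp_pos (-(1 : ℝ))
  set δ' := min (1 - r1) (1 - Real.exp (-(1 : ℝ))) with hδ'
  have hδ0 : 0 < δ' := lt_min (by linarith) (by linarith)
  have hδ1 : δ' < 1 := (min_le_right _ _).trans_lt (by linarith)
  have hg : ∀ x : ℂ, 1 - δ' < ‖x‖ → ‖x‖ < 1 → U x = B * Real.log ‖x‖ := by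
    intro x h1 h2
    have h3 : r1 < ‖x‖ := by
      have := min_le_left (1 - r1) (1 - Real.exp (-(1 : ℝ)))
      linarith
    have h4 : Real.exp (-(1 : ℝ)) < ‖x‖ := by
      have := min_le_right (1 - r1) (1 - Real.exp (-(1 : ℝ)))
      linarith
    have h5 : pt x 0 ∉ K := by
      intro h
      have := hrK _ h
      simp only [pt] at this
      simp at this
      linarith
    have h6 := hKg (pt x 0) (pt_mem h2) h5
    have h7 := (hρ.flat (pt x 0) (pt_mem h2) (by simp [pt, Real.exp_pos])).2 (by simpa [pt] using h4)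
    rw [hUd]
    simp only
    rw [h6, h7]
    simp [pt]
  have hLz : ∀ x : ℂ, 1 - δ' < ‖x‖ → ‖x‖ < 1 → lap4 U x = 0 := by
    intro x h1 h2
    have hx : x ≠ 0 := by
      intro h
      rw [h, norm_zero] at h1
      linarith
    have hev : U =ᶠ[𝓝 x] fun w => B * Real.log ‖w‖ := by
      have hn : Continuous fun w : ℂ => ‖w‖ := continuous_norm
      have ho : IsOpen {w : ℂ | 1 - δ' < ‖w‖ ∧ ‖w‖ < 1} :=
        (isOpen_lt continuous_const hn).inter (isOpen_lt hn continuous_const)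
      filter_upwards [ho.mem_nhds ⟨h1, h2⟩] with w hw
      exact hg w hw.1 hw.2
    rw [HES.lap4_congr hev]
    exact lap4_log B x hx
  obtain ⟨M, hM⟩ : ∃ M : ℝ, ∀ x ∈ ball (0 : ℂ) 1, lap4 U x ≤ M := by
    have hcp : IsCompact (closedBall (0 : ℂ) (1 - δ')) := isCompact_closedBall _ _
    have hsub : closedBall (0 : ℂ) (1 - δ') ⊆ ball 0 1 := closedBall_subset_ball (by linarith)
    obtain ⟨M, hM⟩ := hcp.exists_bound_of_continuousOn (hLc.mono hsub)
    refine ⟨max M 0, fun x hx => ?_⟩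
    by_cases h : x ∈ closedBall (0 : ℂ) (1 - δ')
    · have := hM x h
      exact ((Real.le_norm_self _).trans this).trans (le_max_left _ _)
    · rw [mem_closedBall_zero_iff, not_le] at h
      rw [hLz x h (by simpa using hx)]
      exact le_max_right _ _
  have hfin := one hG U B δ' M hδ0 hδ1 hU hg hL0 hM hLc x₀ hx₀
  have hU0 : U x₀ ≤ 0 := hψ.nonpos _ (pt_mem hx₀1)
  have hδU : -U x₀ ≤ δ := by
    have : -δ ≤ U x₀ := hδ
    linarith
  have hδ00 : 0 ≤ δ := by linarith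
  have h1 : (128 / 7) * (∫ y in ball (0 : ℂ) 2, ‖y‖⁻¹) * (-U x₀) ≤
      (128 / 7) * (∫ y in ball (0 : ℂ) 2, ‖y‖⁻¹) * δ :=
    mul_le_mul_of_nonneg_left hδU (by positivity)
  calc ∫ x in ball (0 : ℂ) 1, (-ψ (pt x 0)) ≤ (128 / 7) * (∫ y in ball (0 : ℂ) 2, ‖y‖⁻¹) * (-U x₀) := hfin
    _ ≤ (128 / 7) * (∫ y in ball (0 : ℂ) 2, ‖y‖⁻¹) * δ := h1
    _ ≤ ((128 / 7) * (∫ y in ball (0 : ℂ) 2, ‖y‖⁻¹) + 1) * δ := by
      rw [add_mul]; linarith

end Pool.Agent.H53M.HAR
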