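import Mathlib
import Pool.Agent.H53M.StmB
import Pool.Agent.H805R2.Compare

set_option autoImplicit false
set_option maxHeartbeats 1000000

open MeasureTheory Metric Set Filter Topology
open scoped ContDiff ComplexOrder

namespace Pool.Agent.H53M.ITG

open Pool.Agent.H805R2

lemma hO : IsOpen Om := by
  have h0 : Continuous fun z : C2 => ‖z 0‖ := by fun_prop
  have h1 : Continuous fun z : C2 => ‖z 1‖ := by fun_prop
  exact (isOpen_lt h0 continuous_const).inter (isOpen_lt h1 continuous_const)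

theorem t (hH : Pool.Agent.H53M.HES) : Pool.Agent.H53M.ITG := by
  intro ρ a f B hρ hB ha hf
  obtain ⟨h1, h2, h3, h4, h5, h6, h7, h8, h9, h10⟩ := hH
  obtain ⟨K1, hK1, hK1O, hK1a⟩ := ha.germ
  obtain ⟨K2, hK2, hK2O, hK2a⟩ := hρ.ma0
  have hca := h4 a Om hO ha.sp.1
  have hcρ := h4 ρ Om hO hρ.sp.1
  set K := K1 ∪ K2 with hK
  have hKc : IsCompact K := hK1.union hK2
  have hKO : K ⊆ Om := union_subset hK1O hK2O
  have hhess : ∀ z ∈ Om, z ∉ K → hess a z = (B : ℂ) • hess ρ z := by
    intro z hz hzK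
    have e1 : a =ᶠ[𝓝 z] fun w => B * ρ w := by
      filter_upwards [(hO.sdiff hK1.isClosed).mem_nhds ⟨hz, fun h => hzK (Or.inl h)⟩] with w hw
      exact hK1a w hw.1 hw.2
    rw [hess_congr e1]
    exact h2 ρ B z (hρ.sp.1.contDiffAt (hO.mem_nhds hz))
  have hdet : ∀ z ∈ Om, z ∉ K → (hess a z).det = 0 := by
    intro z hz hzK
    rw [hhess z hz hzK, Matrix.det_smul, hK2a z hz (fun h => hzK (Or.inr h)), mul_zero]
  have hDD : ∀ z ∈ Om, z ∉ K → DD a ρ z = 0 := by
    intro z hz hzK
    unfold DD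
    rw [hhess z hz hzK, Matrix.adjugate_smul, Matrix.smul_mul, Matrix.trace_smul, h10,
      hK2a z hz (fun h => hzK (Or.inr h))]
    simp
  have hcdt : ContinuousOn (dt a) Om := by
    unfold dt
    have hc : Continuous fun A : Matrix (Fin 2) (Fin 2) ℂ => A.det.re :=
      Complex.continuous_re.comp (continuous_id.matrix_det)
    exact hc.comp_continuousOn hca
  have hcDD : ContinuousOn (DD a ρ) Om := by
    have hc : Continuous (fun p : Matrix (Fin 2) (Fin 2) ℂ × Matrix (Fin 2) (Fin 2) ℂ =>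
        ((p.1.adjugate * p.2).trace).re) :=
      Complex.continuous_re.comp
        ((continuous_fst.matrix_adjugate.matrix_mul continuous_snd).matrix_trace)
    have hpr : ContinuousOn (fun z => (hess a z, hess ρ z)) Om := hca.prodMk hcρ
    have e : DD a ρ = (fun p : Matrix (Fin 2) (Fin 2) ℂ × Matrix (Fin 2) (Fin 2) ℂ =>
        ((p.1.adjugate * p.2).trace).re) ∘ (fun z => (hess a z, hess ρ z)) := by
      funext z
      simp only [DD, Function.comp_apply]
    rw [e]
    exact Continuous.comp_continuousOn hc hpr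
  have key : ∀ g : C2 → ℝ, ContinuousOn g Om → (∀ z ∈ Om, z ∉ K → g z = 0) → IntegrableOn g Om := by
    intro g hg hg0
    apply IntegrableOn.of_forall_sdiff_eq_zero ((hg.mono hKO).integrableOn_compact hKc) hO.measurableSet
    intro z hz
    exact hg0 z hz.1 hz.2
  have hma : ∀ z, maDensity a z = 8 / Real.pi ^ 2 * dt a z := by
    intro z
    unfold maDensity dt
    rw [show ((2 : ℕ).factorial : ℝ) = 2 by norm_num [Nat.factorial]]
    ring
  refine ⟨?_, ?_, ?_, ?_⟩
  · exact key _ (hf.mul hcdt) (fun z hz hzK => by simp [dt, hdet z hz hzK])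
  · exact key _ (hf.mul hcDD) (fun z hz hzK => by simp [hDD z hz hzK])
  · have e1 : (fun z => f z * maDensity a z) = fun z => 8 / Real.pi ^ 2 * (f z * dt a z) := by
      funext z
      rw [hma]
      ring
    rw [e1]
    exact (key _ (hf.mul hcdt) (fun z hz hzK => by simp [dt, hdet z hz hzK])).const_mul _
  · intro z hz
    refine ⟨?_, ?_, hma z⟩
    · exact (Complex.nonneg_iff.1 (ha.sp.2 z hz).det_nonneg).1
    · exact trace_adj_nonneg _ _ (ha.sp.2 z hz) (hρ.sp.2 z hz)

end Pool.Agent.H53M.ITG
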