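import Mathlib
import Pool.Agent.H53M.StmB
import Pool.Agent.H805R2.Compare

set_option autoImplicit false
set_option maxHeartbeats 1000000

open MeasureTheory Metric Set Filter Topology
open scoped ContDiff ComplexOrder

namespace Pool.Agent.H53M.LOW

open Pool.Agent.H805R2

lemma hO : IsOpen Om := by
  have h0 : Continuous fun z : C2 => ‖z 0‖ := by fun_prop
  have h1 : Continuous fun z : C2 => ‖z 1‖ := by fun_prop
  exact (isOpen_lt h0 continuous_const).inter (isOpen_lt h1 continuous_const)

theorem t (hM : Pool.Agent.H53M.MXL) (hH : Pool.Agent.H53M.HES) : Pool.Agent.H53M.LOW := by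
  intro ρ u ν B η τ U v χ hρ hB hη hτ hA hχ hχc hχU hlt
  obtain ⟨hm1, hm2, hm3, hm4, hm5, hmx, hmono, hmsp⟩ := hM
  obtain ⟨e1, e2, e3, e4, e5, e6, e7, e8, e9, e10⟩ := hH
  obtain ⟨a1, a2, a3, a4, a5, a6, a7, a8, a9, a10, a11⟩ := hA
  have hρc : ContinuousOn ρ Om := hρ.sp.1.continuousOn
  refine (a11 χ hχ hχc hχU).congr fun k => ?_
  have hm := fun z => hmx τ (fun z => v k z - η) (fun z => B * ρ z) hτ z
  have h0 : ∫ z in Om, χ z * maDensity (mx τ (fun z => v k z - η) (fun z => B * ρ z)) z =
      ∫ z, χ z * maDensity (mx τ (fun z => v k z - η) (fun z => B * ρ z)) z := by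
    apply setIntegral_eq_integral_of_forall_compl_eq_zero
    intro z hz
    rw [image_eq_zero_of_notMem_tsupport (fun h => hz (a2 (hχU h))), zero_mul]
  rw [h0]
  apply integral_congr_ae
  refine Eventually.of_forall fun z => ?_
  simp only
  by_cases hz : z ∈ tsupport χ
  · have hzO : z ∈ Om := a2 (hχU hz)
    have h1 : B * ρ z + τ / 2 < v k z - η := by
      have h2 := hlt z hz
      have h3 := a7 k z hzO
      linarith
    have h2 : ContinuousAt (fun w => B * ρ w + τ / 2) z :=
      (continuousAt_const.mul (hρc.continuousAt (hO.mem_nhds hzO))).add continuousAt_const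
    have h3 : ContinuousAt (fun w => v k w - η) z := ((a3 k).continuous.sub continuous_const).continuousAt
    have h4 : mx τ (fun z => v k z - η) (fun z => B * ρ z) =ᶠ[𝓝 z] fun w => v k w + (fun _ : C2 => -η) w := by
      filter_upwards [h2.eventually_lt h3 h1] with w hw
      rw [(hm w).2.1 hw.le]
      ring
    unfold maDensity
    rw [hess_congr h4, e1 (v k) (fun _ => -η) z (a3 k).contDiffAt contDiffAt_const, hess_const_zero, add_zero]
  · rw [image_eq_zero_of_notMem_tsupport hz, zero_mul, zero_mul]

end Pool.Agent.H53M.LOW
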