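import Mathlib
import Pool.Agent.H53M.STK

/-!
# MSS (helper45)
-/

set_option autoImplicit false

open MeasureTheory Metric Set Filter Topology
open scoped ContDiff ComplexOrder

namespace Pool.Agent.H53M.MSS

open Pool.Agent.H805R2 Pool.Agent.H53M.T45 Pool.Agent.H53M.IBT

theorem t (hH : HES) : MSS := by
  intro ρ B a hρ hAa
  have ha := germ_adm hAa
  have hr := germ_rho hρ
  have hs : ContDiffOn ℝ ∞ (fun z => a z - B * ρ z) Om := ha.1.sub (contDiffOn_const.mul hr.1)
  have h0 : ∫ z in Om, DD (fun z => a z - B * ρ z) ρ z = 0 := int_zero hs ha.2 hr.1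
  have i1 : IntegrableOn (DD a ρ) Om := by
    have := int_DD hH hρ ha hr (g := fun _ => 1) continuousOn_const
    simpa using this
  have i2 : IntegrableOn (DD ρ ρ) Om := by
    have := int_DD hH hρ hr hr (g := fun _ => 1) continuousOn_const
    simpa using this
  have h1 : ∫ z in Om, DD (fun z => a z - B * ρ z) ρ z = ∫ z in Om, (DD a ρ z - B * DD ρ ρ z) := by
    refine setIntegral_congr_fun Om_open.measurableSet fun z hz => ?_
    have e1 : DD (fun z => a z - B * ρ z) ρ z = DD a ρ z - DD (fun z => B * ρ z) ρ z :=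
      DD_sub hH ha.1 (contDiffOn_const.mul hr.1) hz
    rw [e1, DD_smul hH B hr.1 hz]
  rw [h1, integral_sub i1 (i2.const_mul B), integral_const_mul] at h0
  linarith

end Pool.Agent.H53M.MSS
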