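import Mathlib
import Pool.Agent.H53M.StmB

set_option autoImplicit false

open MeasureTheory Metric Set Filter Topology
open scoped ContDiff ComplexOrder

namespace Pool.Agent.H53M.MUI

open Pool.Agent.H805R2

lemma hO : IsOpen Om := by
  have h0 : Continuous fun z : C2 => ‖z 0‖ := by fun_prop
  have h1 : Continuous fun z : C2 => ‖z 1‖ := by fun_prop
  exact (isOpen_lt h0 continuous_const).inter (isOpen_lt h1 continuous_const)

lemma pt0 (x y : ℂ) : (pt x y) 0 = x := by simp [pt]
lemma pt1 (x y : ℂ) : (pt x y) 1 = y := by simp [pt]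

lemma hcpt : Continuous fun x : ℂ => pt x 0 := by
  unfold pt
  fun_prop

lemma hemb : MeasurableEmbedding fun x : ℂ => pt x 0 := by
  have h : IsClosedEmbedding fun x : ℂ => pt x 0 := by
    have hl : Function.LeftInverse (fun z : C2 => z 0) (fun x : ℂ => pt x 0) := fun x => pt0 x 0
    have hc : Continuous fun z : C2 => z 0 := by fun_prop
    exact hl.isClosedEmbedding hc hcpt
  exact h.measurableEmbedding

lemma mem_Om (x : ℂ) : pt x 0 ∈ Om ↔ x ∈ ball (0 : ℂ) 1 := by
  rw [mem_ball_zero_iff]
  constructor
  · intro h
    have := h.1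
    rwa [pt0] at this
  · intro h
    refine ⟨by rw [pt0]; exact h, by rw [pt1]; simp⟩

theorem t : Pool.Agent.H53M.MUI := by
  intro c hc
  have hpre : (fun x : ℂ => pt x 0) ⁻¹' Om = ball 0 1 := by
    ext x
    exact mem_Om x
  have key : ∀ f : C2 → ℝ, ∫ z in Om, f z ∂(muD c) = c * ∫ x in ball (0 : ℂ) 1, f (pt x 0) := by
    intro f
    unfold muD
    rw [Measure.restrict_smul, integral_smul_measure, hemb.restrict_map, hpre, hemb.integral_map,
      Measure.restrict_restrict measurableSet_ball, inter_self, ENNReal.toReal_ofReal hc.le, smul_eq_mul]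
  refine ⟨key, ?_, ?_, ?_⟩
  · intro f hf
    rw [← key f]
    exact (setIntegral_eq_integral_of_forall_compl_eq_zero hf).symm
  · intro ρ hρ
    rw [key]
    apply mul_pos hc
    have hcont : ContinuousOn (fun x : ℂ => -ρ (pt x 0)) (ball 0 1) :=
      (hρ.sp.1.continuousOn.comp hcpt.continuousOn (fun x hx => (mem_Om x).2 hx)).neg
    have hfin : IsFiniteMeasure ((volume : Measure ℂ).restrict (ball (0 : ℂ) 1)) :=
      ⟨by rw [Measure.restrict_apply_univ]; exact measure_ball_lt_top⟩
    have hint : IntegrableOn (fun x : ℂ => -ρ (pt x 0)) (ball 0 1) := by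
      refine Integrable.mono' (integrable_const 3) (hcont.aestronglyMeasurable measurableSet_ball) ?_
      rw [ae_restrict_iff' measurableSet_ball]
      refine Eventually.of_forall fun x hx => ?_
      have h1 := hρ.neg _ ((mem_Om x).2 hx)
      have h2 := hρ.ge _ ((mem_Om x).2 hx)
      rw [norm_neg, Real.norm_eq_abs, abs_le]
      constructor <;> linarith
    rw [setIntegral_pos_iff_support_of_nonneg_ae]
    · have : Function.support (fun x : ℂ => -ρ (pt x 0)) ∩ ball 0 1 = ball 0 1 := by
        apply inter_eq_right.2
        intro x hx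
        rw [Function.mem_support]
        have h1 := hρ.neg _ ((mem_Om x).2 hx)
        linarith
      rw [this]
      exact measure_ball_pos _ _ one_pos
    · rw [EventuallyLE, ae_restrict_iff' measurableSet_ball]
      refine Eventually.of_forall fun x hx => ?_
      have h1 := hρ.neg _ ((mem_Om x).2 hx)
      simp only [Pi.zero_apply]
      linarith
    · exact hint
  · unfold muD
    rw [Measure.smul_apply, hemb.map_apply, hpre, Measure.restrict_apply measurableSet_ball, inter_self, smul_eq_mul]
    exact ENNReal.mul_lt_top ENNReal.ofReal_lt_top measure_ball_lt_top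

end Pool.Agent.H53M.MUI
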