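import Mathlib
import Pool.Agent.H53M.Defs

set_option autoImplicit false

open MeasureTheory Metric Set Filter Topology
open scoped ContDiff ComplexOrder

namespace Pool.Agent.H53M

open Pool.Agent.H805R2

lemma continuous_pt0 : Continuous fun x : ℂ => pt x 0 := by
  unfold pt
  refine (PiLp.continuous_toLp 2 _).comp ?_
  refine continuous_pi fun i => ?_
  fin_cases i
  · exact continuous_id
  · exact continuous_const

lemma isOpen_Om' : IsOpen Om := by
  have h0 : Continuous fun z : C2 => z 0 := by fun_prop
  have h1 : Continuous fun z : C2 => z 1 := by fun_prop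
  exact (isOpen_lt h0.norm continuous_const).inter (isOpen_lt h1.norm continuous_const)

/-- `muD c` is carried by the bidisc -/
lemma muD_compl (c : ℝ) : muD c Omᶜ = 0 := by
  unfold muD
  rw [Measure.smul_apply, Measure.map_apply continuous_pt0.measurable isOpen_Om'.measurableSet.compl]
  have : (fun x : ℂ => pt x 0) ⁻¹' Omᶜ = (ball (0 : ℂ) 1)ᶜ := by
    ext x
    simp [Om, pt]
  rw [this, Measure.restrict_apply measurableSet_ball.compl]
  simp

lemma mu_Om_ne {c : ℝ} {μ : Measure C2} (hμ : μ ≤ muD c) (h0 : μ ≠ 0) : μ Om ≠ 0 := by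
  intro h
  apply h0
  have h1 : μ Omᶜ = 0 := le_antisymm ((hμ _).trans (muD_compl c).le) (by simp)
  have : μ univ = 0 := by
    rw [← measure_add_measure_compl isOpen_Om'.measurableSet, h, h1, add_zero]
  exact Measure.measure_univ_eq_zero.1 this

end Pool.Agent.H53M
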