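import Mathlib
import Pool.Agent.H53M.StmB
import Pool.Agent.H805R2.Final

set_option autoImplicit false
set_option maxHeartbeats 1000000

open MeasureTheory Metric Set Filter Topology
open scoped ContDiff ComplexOrder

namespace Pool.Agent.H53M.NEG

open Pool.Agent.H805R2

lemma hO : IsOpen Om := by
  have h0 : Continuous fun z : C2 => ‖z 0‖ := by fun_prop
  have h1 : Continuous fun z : C2 => ‖z 1‖ := by fun_prop
  exact (isOpen_lt h0 continuous_const).inter (isOpen_lt h1 continuous_const)

lemma hconv : Convex ℝ Om := by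
  intro a ha b hb s t hs ht hst
  refine ⟨?_, ?_⟩
  · have h1 : (s • a + t • b) 0 = s • a 0 + t • b 0 := by simp
    rw [h1]
    have := (convex_ball (0 : ℂ) 1) (mem_ball_zero_iff.2 ha.1) (mem_ball_zero_iff.2 hb.1) hs ht hst
    exact mem_ball_zero_iff.1 this
  · have h1 : (s • a + t • b) 1 = s • a 1 + t • b 1 := by simp
    rw [h1]
    have := (convex_ball (0 : ℂ) 1) (mem_ball_zero_iff.2 ha.2) (mem_ball_zero_iff.2 hb.2) hs ht hst
    exact mem_ball_zero_iff.1 this

theorem t : Pool.Agent.H53M.NEG := by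
  intro u ν hu hneg K hK hKO
  obtain ⟨z0, hz0, hz0n⟩ := hneg
  have hall : ∀ z ∈ Om, u z < 0 := by
    rcases strong_max hO hconv.isPreconnected hu.1 hu.2.2.1 with h | h
    · have := h z0 hz0
      linarith
    · exact h
  rcases K.eq_empty_or_nonempty with hemp | hne
  · exact ⟨1, one_pos, fun z hz => by rw [hemp] at hz; exact absurd hz (notMem_empty z)⟩
  · obtain ⟨z1, hz1, hmax⟩ := (hu.1.1.mono hKO).exists_isMaxOn hne hK
    refine ⟨-u z1, by linarith [hall z1 (hKO hz1)], fun z hz => ?_⟩
    have h1 : ((u z : ℝ) : EReal) ≤ ((u z1 : ℝ) : EReal) := hmax hz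
    have h2 : u z ≤ u z1 := by exact_mod_cast h1
    linarith

end Pool.Agent.H53M.NEG
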