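import Mathlib
import Pool.Agent.H53M.StmB

set_option autoImplicit false
set_option maxHeartbeats 1000000

open MeasureTheory Metric Set Filter Topology
open scoped ContDiff ComplexOrder

namespace Pool.Agent.H53M.NEX

open Pool.Agent.H805R2

theorem t : Pool.Agent.H53M.NEX := by
  intro c s CH CF M e N₀ hc hs hCH hCF hM he
  set K : ℝ := CF * (1 / s + 2) * M with hK
  have hM0 : 0 < M := by linarith
  have hK0 : 0 < K := by positivity
  set L : ℝ := 10 * c * CH * (2 * Real.sqrt K + 1) / e with hL
  have hL0 : 0 < L := by positivity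
  set N : ℝ := max (max N₀ 16) (max (L ^ 2) (s / (CF * M))) with hN
  have h1 : N₀ ≤ N := (le_max_left _ _).trans (le_max_left _ _)
  have h2 : 16 ≤ N := (le_max_right _ _).trans (le_max_left _ _)
  have h3 : L ^ 2 ≤ N := (le_max_left _ _).trans (le_max_right _ _)
  have h4 : s / (CF * M) ≤ N := (le_max_right _ _).trans (le_max_right _ _)
  have hN0 : 0 < N := by linarith
  have hsqN : Real.sqrt N * Real.sqrt N = N := Real.mul_self_sqrt hN0.le
  have hsq0 : 0 < Real.sqrt N := Real.sqrt_pos.2 hN0
  have hLs : L ≤ Real.sqrt N := Real.le_sqrt_of_sq_le h3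
  refine ⟨N, h1, h2, ?_, ?_⟩
  · rw [Real.one_le_sqrt]
    have h5 : s ≤ N * (CF * M) := by rwa [div_le_iff₀ (by positivity)] at h4
    have h6 : 1 ≤ CF * (N / s) * M := by
      have : CF * (N / s) * M = (N * (CF * M)) / s := by ring
      rw [this, le_div_iff₀ hs]
      linarith
    have h7 : 0 ≤ CF * 2 * M := by positivity
    nlinarith
  · have h5 : Real.sqrt (CF * (N / s + 2) * M) ≤ Real.sqrt K * Real.sqrt N := by
      rw [← Real.sqrt_mul hK0.le]
      apply Real.sqrt_le_sqrt
      have h6 : N / s + 2 ≤ (1 / s + 2) * N := by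
        have : (1 / s + 2) * N = N / s + 2 * N := by ring
        linarith
      calc CF * (N / s + 2) * M ≤ CF * ((1 / s + 2) * N) * M := by gcongr
        _ = K * N := by rw [hK]; ring
    have h6 : 5 / (N - 1) ≤ 10 / N := by
      rw [div_le_div_iff₀ (by linarith) hN0]
      linarith
    have h1s : 1 ≤ Real.sqrt N := by
      rw [Real.one_le_sqrt]
      linarith
    have h7 : 2 * Real.sqrt (CF * (N / s + 2) * M) + 1 ≤ (2 * Real.sqrt K + 1) * Real.sqrt N := by
      nlinarith
    have h8 : c * (5 / (N - 1)) * (CH * (2 * Real.sqrt (CF * (N / s + 2) * M) + 1)) ≤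
        c * (10 / N) * (CH * ((2 * Real.sqrt K + 1) * Real.sqrt N)) := by
      have h9 : 0 ≤ 5 / (N - 1) := div_nonneg (by norm_num) (by linarith)
      gcongr
    refine h8.trans ?_
    have h9 : c * (10 / N) * (CH * ((2 * Real.sqrt K + 1) * Real.sqrt N)) = L * e / Real.sqrt N := by
      rw [hL]
      field_simp
      rw [Real.sq_sqrt hN0.le]
    rw [h9, div_le_iff₀ hsq0]
    nlinarith

end Pool.Agent.H53M.NEX
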