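import Pool.Agent.H53M.Stm

/-!
# Project MD, stub PDK: the truncated Green kernel is positive definite


-/

set_option autoImplicit false

open MeasureTheory Metric Set Filter Topology

namespace Pool.Agent.H53M.PDK

/-- kernels of finite rank -/
def FR (K : ℂ → ℂ → ℝ) : Prop :=
  ∃ (ι : Type) (_ : Fintype ι) (φ : ι → ℂ → ℝ), (∀ p, Continuous (φ p)) ∧
    ∀ s t, K s t = ∑ p, φ p s * φ p t

theorem FR.zero : FR (fun _ _ => 0) :=
  ⟨Empty, inferInstance, fun e => e.elim, fun e => e.elim, fun s t => by simp⟩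

theorem FR.one : FR (fun _ _ => 1) :=
  ⟨Unit, inferInstance, fun _ _ => 1, fun _ => continuous_const, fun s t => by simp⟩

theorem FR.rank (φ : ℂ → ℝ) (h : Continuous φ) : FR (fun s t => φ s * φ t) :=
  ⟨Unit, inferInstance, fun _ => φ, fun _ => h, fun s t => by simp⟩

theorem FR.add {K L : ℂ → ℂ → ℝ} (hK : FR K) (hL : FR L) : FR (fun s t => K s t + L s t) := by
  obtain ⟨ι, hι, φ, h1, h2⟩ := hK
  obtain ⟨κ, hκ, χ, h3, h4⟩ := hL
  refine ⟨ι ⊕ κ, inferInstance, Sum.elim φ χ, ?_, fun s t => ?_⟩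
  · rintro (p | p)
    · exact h1 p
    · exact h3 p
  · show K s t + L s t = _
    rw [h2, h4, Fintype.sum_sum_type]
    simp

theorem FR.mul {K L : ℂ → ℂ → ℝ} (hK : FR K) (hL : FR L) : FR (fun s t => K s t * L s t) := by
  obtain ⟨ι, hι, φ, h1, h2⟩ := hK
  obtain ⟨κ, hκ, χ, h3, h4⟩ := hL
  refine ⟨ι × κ, inferInstance, fun p s => φ p.1 s * χ p.2 s, ?_, fun s t => ?_⟩
  · rintro ⟨p, q⟩
    exact (h1 p).mul (h3 q)
  · show K s t * L s t = ∑ p : ι × κ, (φ p.1 s * χ p.2 s) * (φ p.1 t * χ p.2 t)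
    rw [h2, h4, Fintype.sum_prod_type, Finset.sum_mul_sum]
    refine Finset.sum_congr rfl fun p _ => Finset.sum_congr rfl fun q _ => ?_
    ring

theorem FR.smul {K : ℂ → ℂ → ℝ} (hK : FR K) (c : ℝ) (hc : 0 ≤ c) : FR (fun s t => c * K s t) := by
  obtain ⟨ι, hι, φ, h1, h2⟩ := hK
  refine ⟨ι, hι, fun p s => Real.sqrt c * φ p s, fun p => continuous_const.mul (h1 p), fun s t => ?_⟩
  show c * K s t = ∑ p, (Real.sqrt c * φ p s) * (Real.sqrt c * φ p t)
  rw [h2, Finset.mul_sum]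
  refine Finset.sum_congr rfl fun p _ => ?_
  have := Real.mul_self_sqrt hc
  linear_combination (-(φ p s * φ p t)) * this

theorem FR.sum {α : Type} (S : Finset α) (K : α → ℂ → ℂ → ℝ) (h : ∀ a ∈ S, FR (K a)) :
    FR (fun s t => ∑ a ∈ S, K a s t) := by
  classical
  induction S using Finset.induction_on with
  | empty => simpa using FR.zero
  | insert a S ha ih =>
    have h1 := (h a (Finset.mem_insert_self a S)).add
      (ih fun b hb => h b (Finset.mem_insert_of_mem hb))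
    simpa [Finset.sum_insert ha] using h1

theorem FR.pow {K : ℂ → ℂ → ℝ} (hK : FR K) (n : ℕ) : FR (fun s t => K s t ^ n) := by
  induction n with
  | zero => simpa using FR.one
  | succ n ih => simpa [pow_succ] using ih.mul hK

/-! ### the quadratic form -/

/-- the quadratic form -/
noncomputable def Q (d : ℕ) (x : Fin d → ℂ) (F : ℂ → ℝ) (m : ℝ) (K : ℂ → ℂ → ℝ) : ℝ :=
  (∑ i, ∑ j, K (x i) (x j)) - 2 * m * (∑ i, (∫ t in ball (0 : ℂ) 1, K (x i) t * F t)) +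
      m ^ 2 * (∫ s in ball (0 : ℂ) 1, (∫ t in ball (0 : ℂ) 1, K s t * F s * F t))

theorem integrable_mul (F : ℂ → ℝ) (L : ℝ) (hF : Measurable F)
    (hL : ∀ t ∈ ball (0 : ℂ) 1, 0 ≤ F t ∧ F t ≤ L) (φ : ℂ → ℝ) (hφ : Measurable φ) (C : ℝ)
    (hC : ∀ t ∈ ball (0 : ℂ) 1, |φ t| ≤ C) : IntegrableOn (fun t => φ t * F t) (ball (0 : ℂ) 1) := by
  refine Measure.integrableOn_of_bounded (M := C * L) ?_ (hφ.mul hF).aestronglyMeasurable ?_
  · exact measure_ball_lt_top.ne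
  · filter_upwards [ae_restrict_mem measurableSet_ball] with t ht
    rw [Real.norm_eq_abs, abs_mul]
    have h1 := hL t ht
    have h2 := hC t ht
    rw [abs_of_nonneg h1.1]
    exact mul_le_mul h2 h1.2 h1.1 (le_trans (abs_nonneg _) h2)

theorem cont_bdd (φ : ℂ → ℝ) (hφ : Continuous φ) : ∃ C : ℝ, ∀ t ∈ ball (0 : ℂ) 1, |φ t| ≤ C := by
  obtain ⟨C, hC⟩ := (isCompact_closedBall (0 : ℂ) 1).exists_bound_of_continuousOn hφ.continuousOn
  exact ⟨C, fun t ht => hC t (ball_subset_closedBall ht)⟩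

theorem Q_nonneg (d : ℕ) (x : Fin d → ℂ) (F : ℂ → ℝ) (m L : ℝ) (hF : Measurable F)
    (hL : ∀ t ∈ ball (0 : ℂ) 1, 0 ≤ F t ∧ F t ≤ L) (K : ℂ → ℂ → ℝ) (hK : FR K) :
    0 ≤ Q d x F m K := by
  obtain ⟨ι, hι, φ, h1, h2⟩ := hK
  have hint : ∀ p, IntegrableOn (fun t => φ p t * F t) (ball (0 : ℂ) 1) := by
    intro p
    obtain ⟨C, hC⟩ := cont_bdd (φ p) (h1 p)
    exact integrable_mul F L hF hL (φ p) (h1 p).measurable C hC
  have e1 : ∀ s : ℂ, ∫ t in ball (0 : ℂ) 1, K s t * F t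
      = ∑ p, φ p s * ∫ t in ball (0 : ℂ) 1, φ p t * F t := by
    intro s
    have : (fun t => K s t * F t) = fun t => ∑ p, φ p s * (φ p t * F t) := by
      funext t
      rw [h2, Finset.sum_mul]
      exact Finset.sum_congr rfl fun p _ => by ring
    rw [this, integral_finset_sum _ fun p _ => (hint p).const_mul _]
    exact Finset.sum_congr rfl fun p _ => integral_const_mul _ _
  have e2 : ∫ s in ball (0 : ℂ) 1, (∫ t in ball (0 : ℂ) 1, K s t * F s * F t)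
      = ∑ p, (∫ t in ball (0 : ℂ) 1, φ p t * F t) ^ 2 := by
    have : (fun s => ∫ t in ball (0 : ℂ) 1, K s t * F s * F t)
        = fun s => ∑ p, (∫ t in ball (0 : ℂ) 1, φ p t * F t) * (φ p s * F s) := by
      funext s
      have h3 : (fun t => K s t * F s * F t) = fun t => F s * (K s t * F t) := by
        funext t; ring
      rw [h3, integral_const_mul, e1, Finset.mul_sum]
      exact Finset.sum_congr rfl fun p _ => by ring
    rw [this, integral_finset_sum _ fun p _ => (hint p).const_mul _]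
    refine Finset.sum_congr rfl fun p _ => ?_
    rw [integral_const_mul]
    ring
  have e3 : Q d x F m K = ∑ p, ((∑ i, φ p (x i)) - m * ∫ t in ball (0 : ℂ) 1, φ p t * F t) ^ 2 := by
    unfold Q
    rw [e2]
    simp only [e1]
    have h4 : ∑ i, ∑ j, K (x i) (x j) = ∑ p, (∑ i, φ p (x i)) ^ 2 := by
      have : ∀ i j, K (x i) (x j) = ∑ p, φ p (x i) * φ p (x j) := fun i j => h2 _ _
      simp only [this]
      calc ∑ i, ∑ j, ∑ p, φ p (x i) * φ p (x j) = ∑ i, ∑ p, ∑ j, φ p (x i) * φ p (x j) :=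
            Finset.sum_congr rfl fun i _ => Finset.sum_comm
        _ = ∑ p, ∑ i, ∑ j, φ p (x i) * φ p (x j) := Finset.sum_comm
        _ = ∑ p, (∑ i, φ p (x i)) ^ 2 := by
            refine Finset.sum_congr rfl fun p _ => ?_
            rw [sq, Finset.sum_mul_sum]
    have h5 : ∑ i, ∑ p, φ p (x i) * ∫ t in ball (0 : ℂ) 1, φ p t * F t
        = ∑ p, (∑ i, φ p (x i)) * ∫ t in ball (0 : ℂ) 1, φ p t * F t := by
      rw [Finset.sum_comm]
      exact Finset.sum_congr rfl fun p _ => (Finset.sum_mul _ _ _).symm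
    rw [h4, h5, Finset.mul_sum, Finset.mul_sum, ← Finset.sum_sub_distrib, ← Finset.sum_add_distrib]
    exact Finset.sum_congr rfl fun p _ => by ring
  rw [e3]
  exact Finset.sum_nonneg fun p _ => sq_nonneg _

/-! ### the approximating kernels -/

/-- partial sums of the geometric series -/
noncomputable def gn (n : ℕ) (s t : ℂ) : ℂ := ∑ k ∈ Finset.range n, ((starRingEnd ℂ) s * t) ^ k

/-- approximation of `KK` by kernels of finite rank -/
noncomputable def Kn (n : ℕ) (s t : ℂ) : ℝ :=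
  (1 - ‖s‖ ^ 2) * (1 - ‖t‖ ^ 2) * Complex.normSq (gn n s t)

theorem Kn_FR (n : ℕ) : FR (Kn n) := by
  have hψ : ∀ k l : ℕ, FR (fun s t => ((1 - ‖s‖ ^ 2) * (((starRingEnd ℂ) s) ^ k * s ^ l).re) *
      ((1 - ‖t‖ ^ 2) * (((starRingEnd ℂ) t) ^ k * t ^ l).re) +
      ((1 - ‖s‖ ^ 2) * (((starRingEnd ℂ) s) ^ k * s ^ l).im) *
      ((1 - ‖t‖ ^ 2) * (((starRingEnd ℂ) t) ^ k * t ^ l).im)) := by
    intro k l
    have c0 : Continuous fun s : ℂ => ((starRingEnd ℂ) s) ^ k * s ^ l :=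
      (Complex.continuous_conj.pow k).mul (continuous_id.pow l)
    have c1 : Continuous fun s : ℂ => (1 - ‖s‖ ^ 2) * (((starRingEnd ℂ) s) ^ k * s ^ l).re :=
      (by fun_prop : Continuous fun s : ℂ => 1 - ‖s‖ ^ 2).mul (Complex.continuous_re.comp c0)
    have c2 : Continuous fun s : ℂ => (1 - ‖s‖ ^ 2) * (((starRingEnd ℂ) s) ^ k * s ^ l).im :=
      (by fun_prop : Continuous fun s : ℂ => 1 - ‖s‖ ^ 2).mul (Complex.continuous_im.comp c0)
    exact (FR.rank _ c1).add (FR.rank _ c2)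
  have h := FR.sum (Finset.range n ×ˢ Finset.range n) (fun (p : ℕ × ℕ) (s t : ℂ) =>
      ((1 - ‖s‖ ^ 2) * (((starRingEnd ℂ) s) ^ p.1 * s ^ p.2).re) *
      ((1 - ‖t‖ ^ 2) * (((starRingEnd ℂ) t) ^ p.1 * t ^ p.2).re) +
      ((1 - ‖s‖ ^ 2) * (((starRingEnd ℂ) s) ^ p.1 * s ^ p.2).im) *
      ((1 - ‖t‖ ^ 2) * (((starRingEnd ℂ) t) ^ p.1 * t ^ p.2).im)) (fun p _ => hψ p.1 p.2)
  have e : Kn n = fun (s t : ℂ) => ∑ p ∈ Finset.range n ×ˢ Finset.range n,
      (((1 - ‖s‖ ^ 2) * (((starRingEnd ℂ) s) ^ p.1 * s ^ p.2).re) *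
      ((1 - ‖t‖ ^ 2) * (((starRingEnd ℂ) t) ^ p.1 * t ^ p.2).re) +
      ((1 - ‖s‖ ^ 2) * (((starRingEnd ℂ) s) ^ p.1 * s ^ p.2).im) *
      ((1 - ‖t‖ ^ 2) * (((starRingEnd ℂ) t) ^ p.1 * t ^ p.2).im)) := by
    funext s t
    unfold Kn
    have h1 : Complex.normSq (gn n s t) = ∑ p ∈ Finset.range n ×ˢ Finset.range n,
        ((((starRingEnd ℂ) s) ^ p.1 * s ^ p.2).re * (((starRingEnd ℂ) t) ^ p.1 * t ^ p.2).re +
          (((starRingEnd ℂ) s) ^ p.1 * s ^ p.2).im * (((starRingEnd ℂ) t) ^ p.1 * t ^ p.2).im) := by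
      have h2 : Complex.normSq (gn n s t) = (gn n s t * (starRingEnd ℂ) (gn n s t)).re := by
        rw [Complex.mul_conj]; simp
      rw [h2]
      unfold gn
      rw [map_sum, Finset.sum_mul_sum, ← Finset.sum_product', Complex.re_sum]
      refine Finset.sum_congr rfl fun p _ => ?_
      have h3 : ((starRingEnd ℂ) s * t) ^ p.1 * (starRingEnd ℂ) (((starRingEnd ℂ) s * t) ^ p.2)
          = (((starRingEnd ℂ) s) ^ p.1 * s ^ p.2) * (starRingEnd ℂ) (((starRingEnd ℂ) t) ^ p.1 * t ^ p.2) := by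
        simp only [map_mul, map_pow, Complex.conj_conj]
        ring
      rw [h3, Complex.mul_re, Complex.conj_re, Complex.conj_im]
      ring
    rw [h1, Finset.mul_sum]
    exact Finset.sum_congr rfl fun p _ => by ring
  rw [e]
  exact h

theorem norm_gn_le (n : ℕ) (s t : ℂ) (hs : ‖s‖ < 1) (ht : ‖t‖ < 1) :
    ‖gn n s t‖ ≤ (1 - ‖s‖ * ‖t‖)⁻¹ := by
  have h0 : 0 ≤ ‖s‖ * ‖t‖ := by positivity
  have h1 : ‖s‖ * ‖t‖ < 1 := by nlinarith [norm_nonneg s, norm_nonneg t]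
  unfold gn
  calc ‖∑ k ∈ Finset.range n, ((starRingEnd ℂ) s * t) ^ k‖
      ≤ ∑ k ∈ Finset.range n, ‖((starRingEnd ℂ) s * t) ^ k‖ := norm_sum_le _ _
    _ = ∑ k ∈ Finset.range n, (‖s‖ * ‖t‖) ^ k := by
        refine Finset.sum_congr rfl fun k _ => ?_
        rw [norm_pow, norm_mul, RCLike.norm_conj]
    _ ≤ (1 - ‖s‖ * ‖t‖)⁻¹ := by
        have := (summable_geometric_of_lt_one h0 h1).sum_le_tsum (Finset.range n)
          (fun k _ => pow_nonneg h0 k)
        rwa [tsum_geometric_of_lt_one h0 h1] at this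

theorem Kn_bound (n : ℕ) (s t : ℂ) (hs : ‖s‖ < 1) (ht : ‖t‖ < 1) : 0 ≤ Kn n s t ∧ Kn n s t ≤ 1 := by
  have a0 := norm_nonneg s
  have b0 := norm_nonneg t
  have hs2 : 0 < 1 - ‖s‖ ^ 2 := by nlinarith
  have ht2 : 0 < 1 - ‖t‖ ^ 2 := by nlinarith
  have h1 : 0 < 1 - ‖s‖ * ‖t‖ := by nlinarith
  unfold Kn
  refine ⟨mul_nonneg (mul_nonneg hs2.le ht2.le) (Complex.normSq_nonneg _), ?_⟩
  rw [Complex.normSq_eq_norm_sq]
  have h2 := norm_gn_le n s t hs ht
  have h3 : ‖gn n s t‖ ^ 2 ≤ ((1 - ‖s‖ * ‖t‖)⁻¹) ^ 2 := pow_le_pow_left₀ (norm_nonneg _) h2 2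
  have h4 : (1 - ‖s‖ ^ 2) * (1 - ‖t‖ ^ 2) ≤ (1 - ‖s‖ * ‖t‖) ^ 2 := by nlinarith [sq_nonneg (‖s‖ - ‖t‖)]
  calc (1 - ‖s‖ ^ 2) * (1 - ‖t‖ ^ 2) * ‖gn n s t‖ ^ 2
      ≤ (1 - ‖s‖ * ‖t‖) ^ 2 * ((1 - ‖s‖ * ‖t‖)⁻¹) ^ 2 :=
        mul_le_mul h4 h3 (by positivity) (by positivity)
    _ = 1 := by rw [← mul_pow, mul_inv_cancel₀ h1.ne', one_pow]

theorem Kn_lim (s t : ℂ) (hs : ‖s‖ < 1) (ht : ‖t‖ < 1) :
    Tendsto (fun n => Kn n s t) atTop (𝓝 (KK s t)) := by
  have hz : ‖(starRingEnd ℂ) s * t‖ < 1 := by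
    rw [norm_mul, RCLike.norm_conj]
    nlinarith [norm_nonneg s, norm_nonneg t]
  have h1 : Tendsto (fun n => gn n s t) atTop (𝓝 ((1 - (starRingEnd ℂ) s * t)⁻¹)) :=
    (hasSum_geometric_of_norm_lt_one hz).tendsto_sum_nat
  have h2 : Tendsto (fun n => Complex.normSq (gn n s t)) atTop
      (𝓝 (Complex.normSq ((1 - (starRingEnd ℂ) s * t)⁻¹))) :=
    (Complex.continuous_normSq.tendsto _).comp h1
  have h3 := h2.const_mul ((1 - ‖s‖ ^ 2) * (1 - ‖t‖ ^ 2))
  have e : (1 - ‖s‖ ^ 2) * (1 - ‖t‖ ^ 2) * Complex.normSq ((1 - (starRingEnd ℂ) s * t)⁻¹) = KK s t := by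
    unfold KK
    rw [Complex.normSq_eq_norm_sq, norm_inv, inv_pow, div_eq_mul_inv]
  rw [e] at h3
  exact h3

/-- approximation of `gT` -/
noncomputable def gTn (T n : ℕ) (s t : ℂ) : ℝ := (∑ k ∈ Finset.range T, Kn n s t ^ (k + 1) / (k + 1)) / 2

theorem gTn_FR (T n : ℕ) : FR (gTn T n) := by
  have h : FR (fun s t => ∑ k ∈ Finset.range T, (1 / 2 * (1 / ((k : ℝ) + 1))) * Kn n s t ^ (k + 1)) :=
    FR.sum _ (fun (k : ℕ) s t => (1 / 2 * (1 / ((k : ℝ) + 1))) * Kn n s t ^ (k + 1))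
      (fun k _ => ((Kn_FR n).pow (k + 1)).smul _ (by positivity))
  have e : gTn T n = fun s t => ∑ k ∈ Finset.range T, (1 / 2 * (1 / ((k : ℝ) + 1))) * Kn n s t ^ (k + 1) := by
    funext s t
    unfold gTn
    rw [Finset.sum_div]
    exact Finset.sum_congr rfl fun k _ => by ring
  rw [e]
  exact h

theorem gTn_bound (T n : ℕ) (s t : ℂ) (hs : ‖s‖ < 1) (ht : ‖t‖ < 1) : |gTn T n s t| ≤ T := by
  have h1 := Kn_bound n s t hs ht
  have h0 : 0 ≤ ∑ k ∈ Finset.range T, Kn n s t ^ (k + 1) / ((k : ℝ) + 1) :=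
    Finset.sum_nonneg fun k _ => div_nonneg (pow_nonneg h1.1 _) (by positivity)
  have h2 : ∑ k ∈ Finset.range T, Kn n s t ^ (k + 1) / ((k : ℝ) + 1) ≤ T := by
    calc ∑ k ∈ Finset.range T, Kn n s t ^ (k + 1) / ((k : ℝ) + 1) ≤ ∑ k ∈ Finset.range T, (1 : ℝ) := by
          refine Finset.sum_le_sum fun k _ => ?_
          rw [div_le_one (by positivity)]
          have : Kn n s t ^ (k + 1) ≤ 1 := pow_le_one₀ h1.1 h1.2
          have hk : (0 : ℝ) ≤ k := Nat.cast_nonneg k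
          linarith
      _ = T := by simp
  unfold gTn
  rw [abs_of_nonneg (by positivity)]
  linarith

theorem gTn_lim (T : ℕ) (s t : ℂ) (hs : ‖s‖ < 1) (ht : ‖t‖ < 1) :
    Tendsto (fun n => gTn T n s t) atTop (𝓝 (gT T s t)) := by
  unfold gTn gT
  refine Tendsto.div_const (tendsto_finset_sum _ fun k _ => ?_) 2
  exact ((Kn_lim s t hs ht).pow (k + 1)).div_const _

theorem FR_cont {K : ℂ → ℂ → ℝ} (hK : FR K) : Continuous fun p : ℂ × ℂ => K p.1 p.2 := by
  obtain ⟨ι, hι, φ, h1, h2⟩ := hK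
  simp only [h2]
  exact continuous_finset_sum _ fun p _ =>
    ((h1 p).comp continuous_fst).mul ((h1 p).comp continuous_snd)

theorem FR_cont_right {K : ℂ → ℂ → ℝ} (hK : FR K) (s : ℂ) : Continuous fun t : ℂ => K s t := by
  obtain ⟨ι, hι, φ, h1, h2⟩ := hK
  simp only [h2]
  exact continuous_finset_sum _ fun p _ => continuous_const.mul (h1 p)

theorem Q_lim (d : ℕ) (x : Fin d → ℂ) (F : ℂ → ℝ) (m L : ℝ) (hx : ∀ i, ‖x i‖ < 1) (hF : Measurable F)
    (hL : ∀ t ∈ ball (0 : ℂ) 1, 0 ≤ F t ∧ F t ≤ L) (T : ℕ) :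
    Tendsto (fun n => Q d x F m (gTn T n)) atTop (𝓝 (Q d x F m (gT T))) := by
  have hfin : IsFiniteMeasure (volume.restrict (ball (0 : ℂ) 1)) :=
    ⟨by simpa using measure_ball_lt_top⟩
  have hL0 : 0 ≤ L := by
    have := hL 0 (mem_ball_self one_pos)
    linarith [this.1, this.2]
  have hinner : ∀ s : ℂ, ‖s‖ < 1 → Tendsto (fun n => ∫ t in ball (0 : ℂ) 1, gTn T n s t * F t) atTop
      (𝓝 (∫ t in ball (0 : ℂ) 1, gT T s t * F t)) := by
    intro s hs
    refine tendsto_integral_of_dominated_convergence (fun _ => (T : ℝ) * L) (fun n => ?_)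
      (integrable_const _) (fun n => ?_) ?_
    · have hc : Continuous fun t => gTn T n s t := FR_cont_right (gTn_FR T n) s
      exact (hc.measurable.mul hF).aestronglyMeasurable
    · filter_upwards [ae_restrict_mem measurableSet_ball] with t ht
      have h1 := hL t ht
      rw [Real.norm_eq_abs, abs_mul, abs_of_nonneg h1.1]
      exact mul_le_mul (gTn_bound T n s t hs (by simpa using ht)) h1.2 h1.1 (by positivity)
    · filter_upwards [ae_restrict_mem measurableSet_ball] with t ht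
      exact (gTn_lim T s t hs (by simpa using ht)).mul_const _
  have hinner_bd : ∀ (n : ℕ) (s : ℂ), ‖s‖ < 1 → |∫ t in ball (0 : ℂ) 1, gTn T n s t * F t| ≤
      (T : ℝ) * L * (volume.restrict (ball (0 : ℂ) 1)).real univ := by
    intro n s hs
    have := norm_integral_le_of_norm_le_const (μ := volume.restrict (ball (0 : ℂ) 1))
      (f := fun t => gTn T n s t * F t) (C := (T : ℝ) * L) (by
        filter_upwards [ae_restrict_mem measurableSet_ball] with t ht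
        have h1 := hL t ht
        rw [Real.norm_eq_abs, abs_mul, abs_of_nonneg h1.1]
        exact mul_le_mul (gTn_bound T n s t hs (by simpa using ht)) h1.2 h1.1 (by positivity))
    exact this
  have hdouble : Tendsto (fun n => ∫ s in ball (0 : ℂ) 1, (∫ t in ball (0 : ℂ) 1, gTn T n s t * F s * F t))
      atTop (𝓝 (∫ s in ball (0 : ℂ) 1, (∫ t in ball (0 : ℂ) 1, gT T s t * F s * F t))) := by
    have e : ∀ (K : ℂ → ℂ → ℝ) (s : ℂ), ∫ t in ball (0 : ℂ) 1, K s t * F s * F t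
        = F s * ∫ t in ball (0 : ℂ) 1, K s t * F t := by
      intro K s
      rw [← integral_const_mul]
      congr 1
      funext t; ring
    simp only [e]
    refine tendsto_integral_of_dominated_convergence
      (fun _ => L * ((T : ℝ) * L * (volume.restrict (ball (0 : ℂ) 1)).real univ)) (fun n => ?_)
      (integrable_const _) (fun n => ?_) ?_
    · have hc : Measurable fun p : ℂ × ℂ => gTn T n p.1 p.2 * F p.2 :=
        (FR_cont (gTn_FR T n)).measurable.mul (hF.comp measurable_snd)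
      have h2 : StronglyMeasurable fun s => ∫ t in ball (0 : ℂ) 1, gTn T n s t * F t :=
        hc.stronglyMeasurable.integral_prod_right
      exact (hF.mul h2.measurable).aestronglyMeasurable
    · filter_upwards [ae_restrict_mem measurableSet_ball] with s hs
      have h1 := hL s hs
      rw [Real.norm_eq_abs, abs_mul, abs_of_nonneg h1.1]
      exact mul_le_mul h1.2 (hinner_bd n s (by simpa using hs)) (abs_nonneg _) hL0
    · filter_upwards [ae_restrict_mem measurableSet_ball] with s hs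
      exact (hinner s (by simpa using hs)).const_mul _
  unfold Q
  refine Tendsto.add (Tendsto.sub ?_ ?_) (hdouble.const_mul _)
  · exact tendsto_finset_sum _ fun i _ => tendsto_finset_sum _ fun j _ =>
      gTn_lim T (x i) (x j) (hx i) (hx j)
  · exact (tendsto_finset_sum _ fun i _ => hinner (x i) (hx i)).const_mul _

theorem main (T d : ℕ) (x : Fin d → ℂ) (F : ℂ → ℝ) (m L : ℝ) (hx : ∀ i, ‖x i‖ < 1) (hF : Measurable F)
    (hL : ∀ t ∈ ball (0 : ℂ) 1, 0 ≤ F t ∧ F t ≤ L) :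
    0 ≤ (∑ i, ∑ j, gT T (x i) (x j)) - 2 * m * (∑ i, (∫ t in ball (0 : ℂ) 1, gT T (x i) t * F t)) +
      m ^ 2 * (∫ s in ball (0 : ℂ) 1, (∫ t in ball (0 : ℂ) 1, gT T s t * F s * F t)) :=
  ge_of_tendsto' (Q_lim d x F m L hx hF hL T) fun n => Q_nonneg d x F m L hF hL _ (gTn_FR T n)

theorem t : Pool.Agent.H53M.PDK := fun T d x F m L hx hF hL _ => main T d x F m L hx hF hL

end Pool.Agent.H53M.PDK
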