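import Mathlib
import Pool.Agent.H53M.Stm

/-! # Stub POL, part a: slices of an admissible function near `y = 0` -/

set_option autoImplicit false

open MeasureTheory Metric Set Filter Topology
open scoped ContDiff ComplexOrder

namespace Pool.Agent.H53M.POL

open Pool.Agent.H805R2 Pool.Agent.H53M

@[simp] lemma pt_zero (x y : ℂ) : pt x y 0 = x := by simp [pt]
@[simp] lemma pt_one (x y : ℂ) : pt x y 1 = y := by simp [pt]

lemma pt_mem {x y : ℂ} (hx : ‖x‖ < 1) (hy : ‖y‖ < 1) : pt x y ∈ Om := by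
  simp [Om, hx, hy]

lemma continuous_pt : Continuous fun p : ℂ × ℂ => pt p.1 p.2 := by
  unfold pt
  refine (PiLp.continuous_toLp 2 _).comp ?_
  refine continuous_pi fun i => ?_
  fin_cases i
  · exact continuous_fst
  · exact continuous_snd

lemma contDiff_pt (y : ℂ) : ContDiff ℝ ∞ fun x : ℂ => pt x y := by
  unfold pt
  refine (PiLp.contDiff_toLp (p := 2) (𝕜 := ℝ)).comp ?_
  rw [contDiff_pi]
  intro i
  fin_cases i
  · exact contDiff_id
  · exact contDiff_const

lemma norm_cp {r : ℝ} (hr : 0 < r) (θ : ℝ) : ‖cp r θ‖ = r := by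
  unfold cp
  rw [norm_mul, mul_comm Complex.I, Complex.norm_exp_ofReal_mul_I, mul_one,
    Complex.norm_real, Real.norm_of_nonneg hr.le]

lemma continuous_cp (r : ℝ) : Continuous (cp r) := by
  unfold cp; fun_prop

lemma cp_periodic (r θ : ℝ) : cp r (θ + 2 * Real.pi) = cp r θ := by
  unfold cp
  have : Complex.I * ((θ + 2 * Real.pi : ℝ) : ℂ) = Complex.I * θ + 2 * Real.pi * Complex.I := by
    push_cast; ring
  rw [this, Complex.exp_add, Complex.exp_two_pi_mul_I, mul_one]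

/-- bounds -/
lemma adm_bound {ρ a : C2 → ℝ} {B : ℝ} (hρ : Rho ρ) (hB : 0 < B) (ha : Adm ρ B a) :
    ∀ z ∈ Om, -(3 * B) ≤ a z ∧ a z ≤ 0 := by
  intro z hz
  refine ⟨?_, ha.nonpos z hz⟩
  have h1 := ha.ge z hz
  have h2 := hρ.ge z hz
  nlinarith

/-- near `|x| = 1` the slices are `B log |x|` -/
lemma adm_germ {ρ a : C2 → ℝ} {B : ℝ} (hρ : Rho ρ) (ha : Adm ρ B a) :
    ∃ δ : ℝ, 0 < δ ∧ δ < 1 ∧ ∀ x y : ℂ, 1 - δ < ‖x‖ → ‖x‖ < 1 → ‖y‖ < Real.exp (-15) →
      a (pt x y) = B * Real.log ‖x‖ := by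
  obtain ⟨K, hK, hKO, hKe⟩ := ha.germ
  have hcont : Continuous fun z : C2 => ‖z 0‖ := by fun_prop
  have h15 : Real.exp (-15) < 1 := by
    rw [Real.exp_lt_one_iff]; norm_num
  have h1 : Real.exp (-1) < 1 := by
    rw [Real.exp_lt_one_iff]; norm_num
  obtain ⟨M, hM1, hM⟩ : ∃ M : ℝ, M < 1 ∧ ∀ z ∈ K, ‖z 0‖ ≤ M := by
    rcases K.eq_empty_or_nonempty with h | h
    · exact ⟨0, one_pos, by simp [h]⟩
    · obtain ⟨z, hz, hmax⟩ := hK.exists_isMaxOn h hcont.continuousOn
      exact ⟨‖z 0‖, (hKO hz).1, fun w hw => hmax hw⟩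
  refine ⟨min (1 - M) (1 - Real.exp (-1)), lt_min (by linarith) (by linarith), ?_, ?_⟩
  · refine (min_le_right _ _).trans_lt ?_
    have := Real.exp_pos (-1)
    linarith
  · intro x y hx hx1 hy
    have hM' : M < ‖x‖ := by
      have := min_le_left (1 - M) (1 - Real.exp (-1))
      linarith
    have he : Real.exp (-1) < ‖x‖ := by
      have := min_le_right (1 - M) (1 - Real.exp (-1))
      linarith
    have hmem : pt x y ∈ Om := pt_mem hx1 (hy.trans h15)
    have hnK : pt x y ∉ K := by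
      intro hk
      have := hM _ hk
      simp at this
      linarith
    rw [hKe _ hmem hnK]
    have := (hρ.flat (pt x y) hmem (by simpa using hy)).2 (by simpa using he)
    rw [this]
    simp

/-- `lap4` depends on the germ only -/
lemma lap4_congr {U V : ℂ → ℝ} {x : ℂ} (h : U =ᶠ[𝓝 x] V) : lap4 U x = lap4 V x := by
  unfold lap4
  rw [h.fderiv.fderiv_eq]

lemma lap4_log (B : ℝ) {x : ℂ} (hx : x ≠ 0) : lap4 (fun x => B * Real.log ‖x‖) x = 0 := by
  have h1 : InnerProductSpace.HarmonicAt (fun z : ℂ => Real.log ‖z‖) x :=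
    AnalyticAt.harmonicAt_log_norm (f := fun z => z) (by fun_prop) hx
  have h2 : InnerProductSpace.HarmonicAt (B • fun z : ℂ => Real.log ‖z‖) x := h1.const_smul
  have h3 := h2.2.self_of_nhds
  rw [InnerProductSpace.laplacian_eq_iteratedFDeriv_complexPlane] at h3
  simp only [iteratedFDeriv_two_apply, Matrix.cons_val_zero, Matrix.cons_val_one, Pi.zero_apply] at h3
  unfold lap4
  have h4 : (fun x : ℂ => B * Real.log ‖x‖) = B • fun z : ℂ => Real.log ‖z‖ := by
    ext; simp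
  rw [h4, h3, zero_div]

lemma isOpen_Om : IsOpen Om := by
  have h0 : Continuous fun z : C2 => ‖z 0‖ := by fun_prop
  have h1 : Continuous fun z : C2 => ‖z 1‖ := by fun_prop
  exact (isOpen_lt h0 continuous_const).inter (isOpen_lt h1 continuous_const)

lemma slice_smooth {a : C2 → ℝ} (ha : SP a) {y : ℂ} (hy : ‖y‖ < 1) :
    ContDiffOn ℝ ∞ (fun x => a (pt x y)) (ball 0 1) :=
  ha.1.comp (contDiff_pt y).contDiffOn (fun x hx => pt_mem (by simpa using hx) hy)

lemma hess_slice (hH : HES) {a : C2 → ℝ} (ha : SP a) {x y : ℂ} (hx : ‖x‖ < 1) (hy : ‖y‖ < 1) :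
    (hess a (pt x y) 0 0).re = lap4 (fun x' => a (pt x' y)) x := by
  have h := hH.2.2.2.2.1 a x y ((ha.1 _ (pt_mem hx hy)).contDiffAt (isOpen_Om.mem_nhds (pt_mem hx hy)))
  exact h.1

lemma lap_bound (hH : HES) {ρ a : C2 → ℝ} {B : ℝ} (hρ : Rho ρ) (ha : Adm ρ B a) {r : ℝ}
    (hr : 0 < r) (hr1 : r < Real.exp (-15)) :
    ∃ L : ℝ, 0 < L ∧ ∀ x y : ℂ, ‖x‖ < 1 → ‖y‖ = r →
      0 ≤ (hess a (pt x y) 0 0).re ∧ (hess a (pt x y) 0 0).re ≤ L := by
  obtain ⟨δ, hδ0, hδ1, hδ⟩ := adm_germ hρ ha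
  have h15 : Real.exp (-15) < 1 := by
    rw [Real.exp_lt_one_iff]; norm_num
  have hcont : ContinuousOn (fun z => (hess a z 0 0).re) Om := by
    have h1 := hH.2.2.2.1 a Om isOpen_Om ha.sp.1
    have h2 : Continuous fun M : Matrix (Fin 2) (Fin 2) ℂ => (M 0 0).re :=
      Complex.continuous_re.comp ((continuous_apply 0).comp (continuous_apply 0))
    exact h2.comp_continuousOn h1
  set K : Set (ℂ × ℂ) := closedBall (0 : ℂ) (1 - δ / 2) ×ˢ sphere (0 : ℂ) r with hK
  have hKc : IsCompact K := (isCompact_closedBall _ _).prod (isCompact_sphere _ _)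
  have hKm : ∀ p ∈ K, pt p.1 p.2 ∈ Om := by
    rintro ⟨x, y⟩ ⟨hx, hy⟩
    simp at hx hy
    exact pt_mem (by simp; linarith) (by simp; rw [hy]; linarith)
  have hc2 : ContinuousOn (fun p : ℂ × ℂ => (hess a (pt p.1 p.2) 0 0).re) K :=
    hcont.comp continuous_pt.continuousOn hKm
  obtain ⟨L, hL⟩ := hKc.exists_bound_of_continuousOn hc2
  refine ⟨max L 1, lt_max_of_lt_right one_pos, ?_⟩
  intro x y hx hy
  have hy1 : ‖y‖ < 1 := by rw [hy]; linarith
  have hmem := pt_mem hx hy1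
  refine ⟨?_, ?_⟩
  · have := (ha.sp.2 _ hmem).diag_nonneg (i := 0)
    exact (Complex.nonneg_iff.mp this).1
  · by_cases hxd : ‖x‖ ≤ 1 - δ / 2
    · have := hL (x, y) ⟨by simpa using hxd, by simpa using hy⟩
      exact ((le_abs_self _).trans this).trans (le_max_left _ _)
    · push Not at hxd
      rw [hess_slice hH ha.sp hx hy1]
      have hev : (fun x' => a (pt x' y)) =ᶠ[𝓝 x] fun x' => B * Real.log ‖x'‖ := by
        have ho : IsOpen {x' : ℂ | 1 - δ < ‖x'‖ ∧ ‖x'‖ < 1} :=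
          (isOpen_lt continuous_const continuous_norm).inter (isOpen_lt continuous_norm continuous_const)
        filter_upwards [ho.mem_nhds (show x ∈ {x' : ℂ | 1 - δ < ‖x'‖ ∧ ‖x'‖ < 1} from
          ⟨by linarith, hx⟩)] with x' hx'
        exact hδ x' y hx'.1 hx'.2 (by rw [hy]; exact hr1)
      have hx0 : x ≠ 0 := by
        rintro rfl
        simp at hxd
        linarith
      rw [lap4_congr hev, lap4_log B hx0]
      exact zero_le_one.trans (le_max_right _ _)

end Pool.Agent.H53M.POL
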