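import Mathlib
import Pool.Agent.H53M.POLa

/-! # Stub POL, part b: Gram matrices -/

set_option autoImplicit false

open MeasureTheory Metric Set Filter Topology
open scoped ContDiff ComplexOrder

namespace Pool.Agent.H53M.POL

open Pool.Agent.H805R2 Pool.Agent.H53M

variable {E : Type*} [NormedAddCommGroup E]

lemma intOn {g : ℂ → E} (hg : ContinuousOn g (ball 0 1)) {C : ℝ}
    (hC : ∀ x ∈ ball (0 : ℂ) 1, ‖g x‖ ≤ C) : IntegrableOn g (ball 0 1) :=
  ⟨hg.aestronglyMeasurable measurableSet_ball,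
    .restrict_of_bounded (C := C) measure_ball_lt_top
      (ae_restrict_of_forall_mem measurableSet_ball hC)⟩

lemma cont_int [NormedSpace ℝ E] {g : ℝ → ℂ → E} (hg : ∀ θ, ContinuousOn (g θ) (ball 0 1))
    (hθ : ∀ x ∈ ball (0 : ℂ) 1, Continuous fun θ => g θ x) {C : ℝ}
    (hC : ∀ θ, ∀ x ∈ ball (0 : ℂ) 1, ‖g θ x‖ ≤ C) : Continuous fun θ => ∫ x in ball (0 : ℂ) 1, g θ x := by
  refine continuous_of_dominated (bound := fun _ => C) (fun θ => (hg θ).aestronglyMeasurable measurableSet_ball)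
    (fun θ => ae_restrict_of_forall_mem measurableSet_ball (hC θ)) ?_
    (ae_restrict_of_forall_mem measurableSet_ball hθ)
  exact integrableOn_const measure_ball_lt_top.ne

/-- a family of weights on the disc -/
structure WOK (w : ℝ → ℂ → ℝ) (C : ℝ) : Prop where
  cx : ∀ θ, ContinuousOn (w θ) (ball 0 1)
  ct : ∀ x ∈ ball (0 : ℂ) 1, Continuous fun θ => w θ x
  one : ∀ θ, ∀ x ∈ ball (0 : ℂ) 1, 1 ≤ w θ x
  le : ∀ θ, ∀ x ∈ ball (0 : ℂ) 1, w θ x ≤ C
  per : ∀ θ x, w (θ + 2 * Real.pi) x = w θ x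

/-- the Gram matrix -/
noncomputable def Gm (w : ℝ → ℂ → ℝ) (d : ℕ) (θ : ℝ) : Matrix (Fin d) (Fin d) ℂ :=
  Matrix.of fun i j => ∫ x in ball (0 : ℂ) 1,
    (starRingEnd ℂ) (x ^ (i : ℕ)) * x ^ (j : ℕ) * ((w θ x : ℝ) : ℂ)

section
variable {w : ℝ → ℂ → ℝ} {C : ℝ} (hw : WOK w C) (d : ℕ)
include hw

lemma entry_cont (θ : ℝ) (i j : ℕ) : ContinuousOn
    (fun x : ℂ => (starRingEnd ℂ) (x ^ i) * x ^ j * ((w θ x : ℝ) : ℂ)) (ball 0 1) := by
  have h1 : Continuous fun x : ℂ => (starRingEnd ℂ) (x ^ i) * x ^ j :=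
    (Complex.continuous_conj.comp (continuous_pow i)).mul (continuous_pow j)
  exact h1.continuousOn.mul (Complex.continuous_ofReal.comp_continuousOn (hw.cx θ))

lemma entry_bound (θ : ℝ) (i j : ℕ) : ∀ x ∈ ball (0 : ℂ) 1,
    ‖(starRingEnd ℂ) (x ^ i) * x ^ j * ((w θ x : ℝ) : ℂ)‖ ≤ C := by
  intro x hx
  have hx1 : ‖x‖ ≤ 1 := by simp at hx; exact hx.le
  rw [norm_mul, norm_mul, RCLike.norm_conj, norm_pow, norm_pow, Complex.norm_real]
  have h0 : (0 : ℝ) ≤ w θ x := zero_le_one.trans (hw.one θ x hx)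
  rw [Real.norm_of_nonneg h0]
  have h1 : ‖x‖ ^ i * ‖x‖ ^ j ≤ 1 :=
    mul_le_one₀ (pow_le_one₀ (norm_nonneg _) hx1) (by positivity) (pow_le_one₀ (norm_nonneg _) hx1)
  calc ‖x‖ ^ i * ‖x‖ ^ j * w θ x ≤ 1 * w θ x := mul_le_mul_of_nonneg_right h1 h0
    _ ≤ C := by rw [one_mul]; exact hw.le θ x hx

lemma Gm_cont : Continuous (Gm w d) := by
  refine continuous_matrix fun i j => ?_
  unfold Gm
  simp only [Matrix.of_apply]
  refine cont_int (fun θ => entry_cont hw θ i j) (fun x hx => ?_) (fun θ => entry_bound hw θ i j)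
  exact continuous_const.mul (Complex.continuous_ofReal.comp (hw.ct x hx))

lemma Gm_per (θ : ℝ) : Gm w d (θ + 2 * Real.pi) = Gm w d θ := by
  unfold Gm
  simp only [hw.per]

lemma Gm_quad (θ : ℝ) (f : Fin d → ℂ) : star f ⬝ᵥ ((Gm w d θ).mulVec f) =
    ((∫ x in ball (0 : ℂ) 1, ‖∑ i, f i * x ^ (i : ℕ)‖ ^ 2 * w θ x : ℝ) : ℂ) := by
  have hint : ∀ i j : Fin d, IntegrableOn (fun x : ℂ => star (f i) * ((starRingEnd ℂ) (x ^ (i : ℕ)) *
      x ^ (j : ℕ) * ((w θ x : ℝ) : ℂ) * f j)) (ball 0 1) := by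
    intro i j
    have := intOn (entry_cont hw θ i j) (entry_bound hw θ i j)
    exact (this.mul_const (f j)).const_mul (star (f i))
  rw [← integral_complex_ofReal]
  have hpt : ∀ x : ℂ, (((‖∑ i, f i * x ^ (i : ℕ)‖ ^ 2 * w θ x : ℝ)) : ℂ) =
      ∑ i : Fin d, ∑ j : Fin d, star (f i) * ((starRingEnd ℂ) (x ^ (i : ℕ)) *
      x ^ (j : ℕ) * ((w θ x : ℝ) : ℂ) * f j) := by
    intro x
    push_cast
    rw [← Complex.conj_mul', map_sum, Finset.sum_mul_sum, Finset.sum_mul]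
    refine Finset.sum_congr rfl fun i _ => ?_
    rw [Finset.sum_mul]
    refine Finset.sum_congr rfl fun j _ => ?_
    rw [map_mul]
    simp only [RCLike.star_def]
    ring
  simp only [hpt]
  rw [integral_finset_sum _ (fun i _ => integrable_finset_sum _ (fun j _ => hint i j))]
  unfold dotProduct
  refine Finset.sum_congr rfl fun i _ => ?_
  rw [integral_finset_sum _ (fun j _ => hint i j)]
  rw [Matrix.mulVec, dotProduct, Finset.mul_sum]
  refine Finset.sum_congr rfl fun j _ => ?_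
  rw [integral_const_mul, integral_mul_const]
  simp [Gm]

lemma poly_bound (f : Fin d → ℂ) (θ : ℝ) : ∀ x ∈ ball (0 : ℂ) 1,
    ‖‖∑ i, f i * x ^ (i : ℕ)‖ ^ 2 * w θ x‖ ≤ (∑ i, ‖f i‖) ^ 2 * C := by
  intro x hx
  have hx1 : ‖x‖ ≤ 1 := by simp at hx; exact hx.le
  have h0 : (0 : ℝ) ≤ w θ x := zero_le_one.trans (hw.one θ x hx)
  rw [norm_mul, norm_pow, norm_norm, Real.norm_of_nonneg h0]
  have h1 : ‖∑ i, f i * x ^ (i : ℕ)‖ ≤ ∑ i, ‖f i‖ := by
    refine (norm_sum_le _ _).trans (Finset.sum_le_sum fun i _ => ?_)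
    rw [norm_mul, norm_pow]
    exact mul_le_of_le_one_right (norm_nonneg _) (pow_le_one₀ (norm_nonneg _) hx1)
  have h2 : ‖∑ i, f i * x ^ (i : ℕ)‖ ^ 2 ≤ (∑ i, ‖f i‖) ^ 2 := pow_le_pow_left₀ (norm_nonneg _) h1 2
  exact mul_le_mul h2 (hw.le θ x hx) h0 (by positivity)

lemma poly_cont (f : Fin d → ℂ) (θ : ℝ) :
    ContinuousOn (fun x : ℂ => ‖∑ i, f i * x ^ (i : ℕ)‖ ^ 2 * w θ x) (ball 0 1) := by
  have h1 : Continuous fun x : ℂ => ‖∑ i, f i * x ^ (i : ℕ)‖ ^ 2 := by fun_prop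
  exact h1.continuousOn.mul (hw.cx θ)

lemma Gm_posDef (θ : ℝ) : (Gm w d θ).PosDef := by
  refine Matrix.PosDef.of_dotProduct_mulVec_pos ?_ ?_
  · ext i j
    simp only [Gm, Matrix.conjTranspose_apply, Matrix.of_apply, RCLike.star_def]
    rw [← integral_conj]
    refine integral_congr_ae (Eventually.of_forall fun x => ?_)
    simp only [map_mul, Complex.conj_conj, Complex.conj_ofReal]
    ring
  · intro f hf
    rw [Gm_quad hw d θ f]
    rw [Complex.zero_lt_real]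
    have hnn : ∀ x ∈ ball (0 : ℂ) 1, 0 ≤ ‖∑ i, f i * x ^ (i : ℕ)‖ ^ 2 * w θ x := fun x hx =>
      mul_nonneg (by positivity) (zero_le_one.trans (hw.one θ x hx))
    have hI := intOn (poly_cont hw d f θ) (poly_bound hw d f θ)
    refine lt_of_le_of_ne (setIntegral_nonneg measurableSet_ball hnn) fun h0 => hf ?_
    rw [eq_comm, setIntegral_eq_zero_iff_of_nonneg_ae (ae_restrict_of_forall_mem measurableSet_ball hnn) hI] at h0
    have h1 := Measure.eqOn_open_of_ae_eq h0 isOpen_ball (poly_cont hw d f θ) continuousOn_const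
    have h2 : ∀ x ∈ ball (0 : ℂ) 1, ∑ i, f i * x ^ (i : ℕ) = 0 := by
      intro x hx
      have h3 := h1 hx
      simp only [Pi.zero_apply, mul_eq_zero] at h3
      rcases h3 with h3 | h3
      · simpa using h3
      · have := hw.one θ x hx
        linarith
    set P : Polynomial ℂ := ∑ i : Fin d, Polynomial.C (f i) * Polynomial.X ^ (i : ℕ) with hP
    have hP0 : P = 0 := by
      refine Polynomial.eq_zero_of_infinite_isRoot P ?_
      refine Set.Infinite.mono (s := ball (0 : ℂ) 1) ?_ (infinite_of_mem_nhds (0 : ℂ) (ball_mem_nhds _ one_pos))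
      intro x hx
      simp only [mem_setOf_eq, Polynomial.IsRoot, hP, Polynomial.eval_finset_sum, Polynomial.eval_mul,
        Polynomial.eval_C, Polynomial.eval_pow, Polynomial.eval_X]
      exact h2 x hx
    ext i
    have h4 : P.coeff i = f i := by
      simp only [hP, Polynomial.finset_sum_coeff, Polynomial.coeff_C_mul, Polynomial.coeff_X_pow]
      rw [Finset.sum_eq_single i]
      · simp
      · intro j _ hji
        have : ¬ ((i : ℕ) = (j : ℕ)) := fun h => hji (Fin.ext h.symm)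
        simp [this]
      · simp
    rw [← h4, hP0]
    simp

end

end Pool.Agent.H53M.POL
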