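import Mathlib
import Pool.Agent.H53M.POLb

/-! # Stub POL, part c: the determinant bound -/

set_option autoImplicit false

open MeasureTheory Metric Set Filter Topology
open scoped ContDiff ComplexOrder

namespace Pool.Agent.H53M.POL

open Pool.Agent.H805R2 Pool.Agent.H53M

lemma vol_ball : ((volume.restrict (ball (0 : ℂ) 1)) univ).toReal = Real.pi := by
  rw [Measure.restrict_apply_univ, Complex.volume_ball]
  simp

lemma det_sq {d : ℕ} (x : Fin d → ℂ) (e : Fin d → ℝ) :
    ‖(Matrix.of fun i j : Fin d => (starRingEnd ℂ) (x j ^ (i : ℕ)) * ((e j : ℝ) : ℂ)).det‖ ^ 2 =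
      (∏ j, e j ^ 2) * (∏ i, ∏ j ∈ Finset.Ioi i, ‖x j - x i‖) ^ 2 := by
  have h1 : (Matrix.of fun i j : Fin d => (starRingEnd ℂ) (x j ^ (i : ℕ)) * ((e j : ℝ) : ℂ)) =
      Matrix.of fun i j : Fin d => ((e j : ℝ) : ℂ) * (Matrix.vandermonde (fun k => (starRingEnd ℂ) (x k))).transpose i j := by
    ext i j
    simp [Matrix.vandermonde, mul_comm]
  rw [h1, Matrix.det_mul_row, Matrix.det_transpose, Matrix.det_vandermonde, norm_mul, mul_pow, norm_prod,
    ← Finset.prod_pow, norm_prod]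
  congr 1
  · refine Finset.prod_congr rfl fun j _ => ?_
    rw [Complex.norm_real, Real.norm_eq_abs, sq_abs]
  · congr 1
    refine Finset.prod_congr rfl fun i _ => ?_
    rw [norm_prod]
    refine Finset.prod_congr rfl fun j _ => ?_
    rw [← map_sub, RCLike.norm_conj]

lemma det_le {d : ℕ} {U : ℂ → ℝ} {m : ℕ} {κ : ℝ}
    (hκ : ∀ x : Fin d → ℂ, (∀ i, ‖x i‖ < 1) → Function.Injective x →
      2 * (m : ℝ) * ∑ i, (-U (x i)) + ∑ i, ∑ j ∈ Finset.univ.erase i, Real.log ‖x i - x j‖ ≤ κ)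
    (x : Fin d → ℂ) (hx : ∀ i, ‖x i‖ < 1) :
    ‖(Matrix.of fun i j : Fin d => (starRingEnd ℂ) (x j ^ (i : ℕ)) *
      ((Real.exp (-m * U (x j)) : ℝ) : ℂ)).det‖ ^ 2 ≤ Real.exp κ := by
  rw [det_sq x (fun j => Real.exp (-m * U (x j)))]
  by_cases hinj : Function.Injective x
  · have h1 := hκ x hx hinj
    have hpos : ∀ i : Fin d, ∀ j ∈ Finset.Ioi i, 0 < ‖x j - x i‖ := by
      intro i j hj
      rw [norm_pos_iff, sub_ne_zero]
      intro h
      have := hinj h
      rw [Finset.mem_Ioi] at hj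
      exact absurd this hj.ne'
    have h2 : (∏ j, Real.exp (-m * U (x j)) ^ 2) * (∏ i, ∏ j ∈ Finset.Ioi i, ‖x j - x i‖) ^ 2 =
        Real.exp (2 * (m : ℝ) * ∑ i, (-U (x i)) + ∑ i, ∑ j ∈ Finset.univ.erase i, Real.log ‖x i - x j‖) := by
      rw [Real.exp_add]
      congr 1
      · rw [Finset.mul_sum, Real.exp_sum]
        refine Finset.prod_congr rfl fun j _ => ?_
        rw [← Real.exp_nat_mul]
        congr 1
        push_cast; ring
      · have h3 : ∑ i : Fin d, ∑ j ∈ Finset.univ.erase i, Real.log ‖x i - x j‖ =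
            ∑ i : Fin d, ∑ j ∈ Finset.Ioi i, (Real.log ‖x j - x i‖ + Real.log ‖x i - x j‖) := by
          rw [Finset.sum_sum_Ioi_add_eq_sum_sum_off_diag (fun i j => Real.log ‖x i - x j‖)]
          refine Finset.sum_congr rfl fun i _ => ?_
          rw [Finset.compl_singleton]
          refine Finset.sum_congr rfl fun j _ => ?_
          rw [norm_sub_rev]
        rw [h3, Real.exp_sum, ← Finset.prod_pow]
        refine Finset.prod_congr rfl fun i _ => ?_
        rw [Real.exp_sum, ← Finset.prod_pow]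
        refine Finset.prod_congr rfl fun j hj => ?_
        rw [Real.exp_add, norm_sub_rev (x i) (x j), Real.exp_log (hpos i j hj)]
        ring
    rw [h2]
    exact Real.exp_le_exp.mpr h1
  · have h4 : ∏ i : Fin d, ∏ j ∈ Finset.Ioi i, ‖x j - x i‖ = 0 := by
      rw [Function.Injective] at hinj
      push Not at hinj
      obtain ⟨i, j, hij, hne⟩ := hinj
      rcases lt_or_gt_of_ne hne with h | h
      · refine Finset.prod_eq_zero (Finset.mem_univ i) (Finset.prod_eq_zero (Finset.mem_Ioi.mpr h) ?_)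
        rw [hij]; simp
      · refine Finset.prod_eq_zero (Finset.mem_univ j) (Finset.prod_eq_zero (Finset.mem_Ioi.mpr h) ?_)
        rw [hij]; simp
    rw [h4]
    simp only [ne_eq, OfNat.ofNat_ne_zero, not_false_eq_true, zero_pow, mul_zero]
    exact (Real.exp_pos _).le

lemma gram_le (hA : ANDR) {d : ℕ} {U : ℂ → ℝ} {m : ℕ} {κ CU : ℝ} (hU : ContinuousOn U (ball 0 1))
    (hUb : ∀ x ∈ ball (0 : ℂ) 1, -CU ≤ U x)
    (hκ : ∀ x : Fin d → ℂ, (∀ i, ‖x i‖ < 1) → Function.Injective x →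
      2 * (m : ℝ) * ∑ i, (-U (x i)) + ∑ i, ∑ j ∈ Finset.univ.erase i, Real.log ‖x i - x j‖ ≤ κ) :
    ((Matrix.of fun i j : Fin d => ∫ x in ball (0 : ℂ) 1,
      (starRingEnd ℂ) (x ^ (i : ℕ)) * x ^ (j : ℕ) * ((Real.exp (-2 * m * U x) : ℝ) : ℂ)).det).re ≤
      Real.exp κ * Real.pi ^ d := by
  classical
  set φ : Fin d → ℂ → ℂ := fun i => (ball (0 : ℂ) 1).piecewise
    (fun x => (starRingEnd ℂ) (x ^ (i : ℕ)) * ((Real.exp (-m * U x) : ℝ) : ℂ)) (fun _ => 0) with hφ
  have hφm : ∀ i, ∀ x ∈ ball (0 : ℂ) 1, φ i x = (starRingEnd ℂ) (x ^ (i : ℕ)) * ((Real.exp (-m * U x) : ℝ) : ℂ) := by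
    intro i x hx
    exact Set.piecewise_eq_of_mem _ _ _ hx
  have hmeas : ∀ i, Measurable (φ i) := by
    intro i
    refine ContinuousOn.measurable_piecewise ?_ continuousOn_const measurableSet_ball
    have h1 : Continuous fun x : ℂ => (starRingEnd ℂ) (x ^ (i : ℕ)) := Complex.continuous_conj.comp (continuous_pow _)
    refine h1.continuousOn.mul (Complex.continuous_ofReal.comp_continuousOn (Real.continuous_exp.comp_continuousOn ?_))
    exact continuousOn_const.mul hU
  have hfin : IsFiniteMeasure (volume.restrict (ball (0 : ℂ) 1)) :=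
    ⟨by rw [Measure.restrict_apply_univ]; exact measure_ball_lt_top⟩
  have h := hA (volume.restrict (ball (0 : ℂ) 1)) (ball 0 1) d φ (Real.exp κ) (Real.exp (m * CU)) hfin
    measurableSet_ball (by
      rw [Measure.restrict_apply measurableSet_ball.compl]; simp) hmeas (by
      intro i x hx
      rw [hφm i x hx, norm_mul, RCLike.norm_conj, norm_pow, Complex.norm_real, Real.norm_of_nonneg (Real.exp_pos _).le]
      have hx1 : ‖x‖ ≤ 1 := by simp at hx; exact hx.le
      have h1 : ‖x‖ ^ (i : ℕ) ≤ 1 := pow_le_one₀ (norm_nonneg _) hx1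
      have h2 : Real.exp (-m * U x) ≤ Real.exp (m * CU) := by
        refine Real.exp_le_exp.mpr ?_
        have := mul_le_mul_of_nonneg_left (hUb x hx) (Nat.cast_nonneg (α := ℝ) m)
        linarith
      calc ‖x‖ ^ (i : ℕ) * Real.exp (-m * U x) ≤ 1 * Real.exp (m * CU) :=
            mul_le_mul h1 h2 (Real.exp_pos _).le zero_le_one
        _ = _ := one_mul _) (Real.exp_pos _).le (by
      intro x hx
      have h1 : (Matrix.of fun i j => φ i (x j)) = (Matrix.of fun i j : Fin d => (starRingEnd ℂ) (x j ^ (i : ℕ)) *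
          ((Real.exp (-m * U (x j)) : ℝ) : ℂ)) := by
        ext i j
        simp only [Matrix.of_apply]
        exact hφm i (x j) (hx j)
      rw [h1]
      exact det_le hκ x (fun i => by simpa using hx i))
  rw [vol_ball] at h
  convert h using 3
  refine congrArg Matrix.of ?_
  funext i j
  refine setIntegral_congr_fun measurableSet_ball fun x hx => ?_
  show _ = φ i x * (starRingEnd ℂ) (φ j x)
  rw [hφm i x hx, hφm j x hx]
  simp only [map_mul, Complex.conj_conj, Complex.conj_ofReal]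
  have h5 : ((Real.exp (-2 * m * U x) : ℝ) : ℂ) = ((Real.exp (-m * U x) : ℝ) : ℂ) * ((Real.exp (-m * U x) : ℝ) : ℂ) := by
    rw [← Complex.ofReal_mul, ← Real.exp_add]
    congr 2
    ring
  rw [h5]
  ring

end Pool.Agent.H53M.POL
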