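import Mathlib
import Pool.Agent.H53M.POLa

/-! # Stub POL, part d: the norm on the circle of radius one half -/

set_option autoImplicit false

open MeasureTheory Metric Set Filter Topology
open scoped ContDiff ComplexOrder

namespace Pool.Agent.H53M.POL

open Pool.Agent.H805R2 Pool.Agent.H53M

lemma int_exp (n : ℤ) : ∫ θ in (0 : ℝ)..(2 * Real.pi), Complex.exp (Complex.I * n * θ) =
    if n = 0 then 2 * (Real.pi : ℂ) else 0 := by
  split_ifs with h
  · subst h; simp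
  · have hc : Complex.I * (n : ℂ) ≠ 0 := mul_ne_zero Complex.I_ne_zero (Int.cast_ne_zero.mpr h)
    rw [integral_exp_mul_complex hc]
    have : Complex.exp (Complex.I * n * ((2 * Real.pi : ℝ) : ℂ)) = 1 := by
      rw [Complex.exp_eq_one_iff]
      exact ⟨n, by push_cast; ring⟩
    rw [this]
    simp

lemma circle_int {d : ℕ} (v : Fin d → ℂ) :
    ∫ θ in (0 : ℝ)..(2 * Real.pi), ‖∑ i, v i * cp (1 / 2) θ ^ (i : ℕ)‖ ^ 2 =
      2 * Real.pi * ∑ i : Fin d, ‖v i‖ ^ 2 * (1 / 4) ^ (i : ℕ) := by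
  have hpt : ∀ θ : ℝ, ((‖∑ i, v i * cp (1 / 2) θ ^ (i : ℕ)‖ ^ 2 : ℝ) : ℂ) =
      ∑ i : Fin d, ∑ j : Fin d, (starRingEnd ℂ) (v i) * v j * (1 / 2) ^ (i : ℕ) * (1 / 2) ^ (j : ℕ) *
        Complex.exp (Complex.I * (((j : ℤ) - (i : ℤ) : ℤ) : ℂ) * θ) := by
    intro θ
    push_cast
    rw [← Complex.conj_mul', map_sum, Finset.sum_mul_sum]
    refine Finset.sum_congr rfl fun i _ => Finset.sum_congr rfl fun j _ => ?_
    have h1 : (starRingEnd ℂ) (cp (1 / 2) θ) = (1 / 2) * Complex.exp (-(Complex.I * θ)) := by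
      unfold cp
      rw [map_mul, Complex.conj_ofReal, ← Complex.exp_conj, map_mul, Complex.conj_I, Complex.conj_ofReal]
      push_cast
      ring_nf
    rw [map_mul, map_pow, h1, mul_pow, ← Complex.exp_nat_mul]
    unfold cp
    rw [mul_pow, ← Complex.exp_nat_mul]
    have h2 : Complex.exp (Complex.I * ((j : ℂ) - (i : ℂ)) * θ) =
        Complex.exp ((i : ℕ) * -(Complex.I * θ)) * Complex.exp ((j : ℕ) * (Complex.I * θ)) := by
      rw [← Complex.exp_add]
      congr 1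
      ring
    push_cast
    rw [h2]
    ring
  apply Complex.ofReal_injective
  rw [← intervalIntegral.integral_ofReal]
  simp only [hpt]
  have hcont : ∀ i j : Fin d, Continuous fun θ : ℝ => (starRingEnd ℂ) (v i) * v j * (1 / 2) ^ (i : ℕ) *
      (1 / 2) ^ (j : ℕ) * Complex.exp (Complex.I * (((j : ℤ) - (i : ℤ) : ℤ) : ℂ) * θ) := by
    intro i j; fun_prop
  rw [intervalIntegral.integral_finset_sum (fun i _ =>
    (continuous_finset_sum _ fun j _ => hcont i j).intervalIntegrable _ _)]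
  have hR : ((2 * Real.pi * ∑ i : Fin d, ‖v i‖ ^ 2 * (1 / 4) ^ (i : ℕ) : ℝ) : ℂ) =
      2 * (Real.pi : ℂ) * ∑ i : Fin d, (‖v i‖ : ℂ) ^ 2 * (1 / 4) ^ (i : ℕ) := by
    push_cast; rfl
  rw [hR, Finset.mul_sum]
  refine Finset.sum_congr rfl fun i _ => ?_
  rw [intervalIntegral.integral_finset_sum (fun j _ => (hcont i j).intervalIntegrable _ _)]
  rw [Finset.sum_eq_single i]
  · rw [intervalIntegral.integral_const_mul, int_exp]
    simp only [sub_self, if_true]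
    rw [Complex.conj_mul']
    have : ((1 : ℂ) / 4) ^ (i : ℕ) = (1 / 2) ^ (i : ℕ) * (1 / 2) ^ (i : ℕ) := by
      rw [← mul_pow]; norm_num
    rw [this]
    ring
  · intro j _ hji
    rw [intervalIntegral.integral_const_mul, int_exp]
    have : ¬ ((j : ℤ) - (i : ℤ) = 0) := by
      intro h
      apply hji
      apply Fin.ext
      omega
    rw [if_neg this, mul_zero]
  · simp

lemma circle_pt {d : ℕ} (v : Fin d → ℂ) (hv : ∑ i : Fin d, ‖v i‖ ^ 2 * (1 / 4) ^ (i : ℕ) = 1) :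
    ∃ x₀ : ℂ, ‖x₀‖ = 1 / 2 ∧ 1 ≤ ‖∑ i, v i * x₀ ^ (i : ℕ)‖ := by
  by_contra hcon
  push Not at hcon
  have h1 : ∀ θ : ℝ, ‖∑ i, v i * cp (1 / 2) θ ^ (i : ℕ)‖ ^ 2 < 1 := by
    intro θ
    have := hcon (cp (1 / 2) θ) (norm_cp (by norm_num) θ)
    have h0 := norm_nonneg (∑ i, v i * cp (1 / 2) θ ^ (i : ℕ))
    nlinarith
  have hc : Continuous fun θ : ℝ => ‖∑ i, v i * cp (1 / 2) θ ^ (i : ℕ)‖ ^ 2 := by
    have := continuous_cp (1 / 2)
    fun_prop
  have h2 := circle_int v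
  rw [hv, mul_one] at h2
  have h3 : ∫ θ in (0 : ℝ)..(2 * Real.pi), ‖∑ i, v i * cp (1 / 2) θ ^ (i : ℕ)‖ ^ 2 <
      ∫ θ in (0 : ℝ)..(2 * Real.pi), (1 : ℝ) := by
    refine intervalIntegral.integral_lt_integral_of_continuousOn_of_le_of_exists_lt (by positivity)
      hc.continuousOn continuousOn_const (fun θ _ => (h1 θ).le) ⟨0, ?_, h1 0⟩
    simp [Real.pi_pos.le]
  rw [h2] at h3
  simp at h3

end Pool.Agent.H53M.POL
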