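import Mathlib
import Pool.Agent.H53M.POLc
import Pool.Agent.H53M.POLd

/-! # Stub POL -/

set_option autoImplicit false

open MeasureTheory Metric Set Filter Topology
open scoped ContDiff ComplexOrder

namespace Pool.Agent.H53M.POL

open Pool.Agent.H805R2 Pool.Agent.H53M

/-- the weight of the slice -/
noncomputable def wt (a : C2 → ℝ) (m : ℕ) (r : ℝ) (θ : ℝ) (x : ℂ) : ℝ :=
  Real.exp (-2 * m * a (pt x (cp r θ)))

lemma cp_mem {r : ℝ} (hr : 0 < r) (hr1 : r < 1) {x : ℂ} (hx : x ∈ ball (0 : ℂ) 1) (θ : ℝ) :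
    pt x (cp r θ) ∈ Om :=
  pt_mem (by simpa using hx) (by rw [norm_cp hr]; exact hr1)

lemma ct_x {r : ℝ} (hr : 0 < r) (hr1 : r < 1) {F : C2 → ℝ} (hF : ContinuousOn F Om) (θ : ℝ) :
    ContinuousOn (fun x => F (pt x (cp r θ))) (ball 0 1) :=
  hF.comp (continuous_pt.comp (continuous_id.prodMk continuous_const)).continuousOn
    (fun _ hx => cp_mem hr hr1 hx θ)

lemma ct_t {r : ℝ} (hr : 0 < r) (hr1 : r < 1) {F : C2 → ℝ} (hF : ContinuousOn F Om) {x : ℂ}
    (hx : x ∈ ball (0 : ℂ) 1) : Continuous fun θ => F (pt x (cp r θ)) := by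
  refine hF.comp_continuous (continuous_pt.comp (continuous_const.prodMk (continuous_cp r)))
    (fun θ => cp_mem hr hr1 hx θ)

lemma wt_ok {ρ a : C2 → ℝ} {B r : ℝ} (hρ : Rho ρ) (hB : 0 < B) (ha : Adm ρ B a) (hr : 0 < r)
    (hr1 : r < 1) (m : ℕ) : WOK (wt a m r) (Real.exp (2 * m * (3 * B))) where
  cx θ := by
    unfold wt
    exact Real.continuous_exp.comp_continuousOn (continuousOn_const.mul (ct_x hr hr1 ha.sp.1.continuousOn θ))
  ct x hx := by
    unfold wt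
    exact Real.continuous_exp.comp (continuous_const.mul (ct_t hr hr1 ha.sp.1.continuousOn hx))
  one θ x hx := by
    unfold wt
    have := adm_bound hρ hB ha _ (cp_mem hr hr1 hx θ)
    refine Real.one_le_exp ?_
    have hm : (0 : ℝ) ≤ m := Nat.cast_nonneg m
    nlinarith [this.2]
  le θ x hx := by
    unfold wt
    have := adm_bound hρ hB ha _ (cp_mem hr hr1 hx θ)
    refine Real.exp_le_exp.mpr ?_
    have hm : (0 : ℝ) ≤ m := Nat.cast_nonneg m
    nlinarith [this.1]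
  per θ x := by
    unfold wt
    rw [cp_periodic]

lemma LE_cont (hH : HES) {ρ a : C2 → ℝ} {B r : ℝ} (hρ : Rho ρ) (hB : 0 < B) (ha : Adm ρ B a)
    (hr : 0 < r) (hr1 : r < Real.exp (-15)) : Continuous fun θ => LE a (cp r θ) := by
  obtain ⟨L, hL0, hL⟩ := lap_bound hH hρ ha hr hr1
  have h15 : Real.exp (-15) < 1 := by
    rw [Real.exp_lt_one_iff]; norm_num
  have hr2 : r < 1 := hr1.trans h15
  have hcont : ContinuousOn (fun z => (hess a z 0 0).re) Om := by
    have h1 := hH.2.2.2.1 a Om isOpen_Om ha.sp.1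
    have h2 : Continuous fun M : Matrix (Fin 2) (Fin 2) ℂ => (M 0 0).re :=
      Complex.continuous_re.comp ((continuous_apply 0).comp (continuous_apply 0))
    exact h2.comp_continuousOn h1
  unfold LE
  refine cont_int (C := 3 * B * L) (fun θ => ?_) (fun x hx => ?_) (fun θ x hx => ?_)
  · exact (ct_x hr hr2 ha.sp.1.continuousOn θ).neg.mul (ct_x hr hr2 hcont θ)
  · exact (ct_t hr hr2 ha.sp.1.continuousOn hx).neg.mul (ct_t hr hr2 hcont hx)
  · have h1 := adm_bound hρ hB ha _ (cp_mem hr hr2 hx θ)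
    have h2 := hL x (cp r θ) (by simpa using hx) (norm_cp hr θ)
    rw [norm_mul, Real.norm_of_nonneg (by linarith [h1.2]), Real.norm_of_nonneg h2.1]
    exact mul_le_mul (by linarith [h1.1]) h2.2 h2.1 (by positivity)

/-- the Gram determinant of a slice -/
lemma logdet_le (hE : ENS) (hA : ANDR) (hH : HES) {ρ a : C2 → ℝ} {B r : ℝ} (hρ : Rho ρ) (hB : 0 < B)
    (ha : Adm ρ B a) (hr : 0 < r) (hr1 : r < Real.exp (-15)) (ε : ℝ) (hε : 0 < ε) :
    ∃ c : ℝ, 0 ≤ c ∧ ∀ (m d : ℕ) (θ : ℝ), Real.log ((Gm (wt a m r) d θ).det.re) ≤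
      d * Real.log Real.pi + d ^ 2 * Real.log 2 + c * d + (2 / Real.pi) * m ^ 2 * LE a (cp r θ) + 2 * m * d * ε := by
  obtain ⟨δ, hδ0, hδ1, hδ⟩ := adm_germ hρ ha
  obtain ⟨L, hL0, hL⟩ := lap_bound hH hρ ha hr hr1
  have h15 : Real.exp (-15) < 1 := by
    rw [Real.exp_lt_one_iff]; norm_num
  have hr2 : r < 1 := hr1.trans h15
  obtain ⟨c, hc0, hc⟩ := hE L ε hL0 hε
  refine ⟨c, hc0, ?_⟩
  intro m d θ
  have hcp1 : ‖cp r θ‖ < 1 := by rw [norm_cp hr]; exact hr2
  have hens := hc (fun x => a (pt x (cp r θ))) B (LE a (cp r θ)) δ hδ0 hδ1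
    (slice_smooth ha.sp hcp1)
    (fun x hx => by
      have hx' : ‖x‖ < 1 := by simpa using hx
      rw [← hess_slice hH ha.sp hx' hcp1]
      exact hL x (cp r θ) hx' (norm_cp hr θ))
    (fun x hx hx1 => hδ x (cp r θ) hx hx1 (by rw [norm_cp hr]; exact hr1))
    (by
      unfold LE
      refine le_of_eq (setIntegral_congr_fun measurableSet_ball fun x hx => ?_)
      show -a (pt x (cp r θ)) * lap4 (fun x' => a (pt x' (cp r θ))) x = -a (pt x (cp r θ)) * _
      rw [← hess_slice hH ha.sp (by simpa using hx) hcp1]) d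
  have hκ : ∀ x : Fin d → ℂ, (∀ i, ‖x i‖ < 1) → Function.Injective x →
      2 * (m : ℝ) * ∑ i, (-a (pt (x i) (cp r θ))) + ∑ i, ∑ j ∈ Finset.univ.erase i, Real.log ‖x i - x j‖ ≤
      (d : ℝ) ^ 2 * Real.log 2 + c * d + (2 / Real.pi) * m ^ 2 * LE a (cp r θ) + 2 * m * d * ε := by
    intro x hx hinj
    exact hens x m hx hinj (Nat.cast_nonneg m)
  have hgram := gram_le hA (U := fun x => a (pt x (cp r θ))) (CU := 3 * B)
    (ct_x hr hr2 ha.sp.1.continuousOn θ) (fun x hx => (adm_bound hρ hB ha _ (cp_mem hr hr2 hx θ)).1) hκ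
  have hGeq : (Matrix.of fun i j : Fin d => ∫ x in ball (0 : ℂ) 1,
      (starRingEnd ℂ) (x ^ (i : ℕ)) * x ^ (j : ℕ) * ((Real.exp (-2 * m * a (pt x (cp r θ))) : ℝ) : ℂ)) =
      Gm (wt a m r) d θ := rfl
  rw [hGeq] at hgram
  have hpos : 0 < (Gm (wt a m r) d θ).det.re := by
    have := (Gm_posDef (wt_ok hρ hB ha hr hr2 m) d θ).det_pos
    exact (Complex.pos_iff.mp this).1
  have h := Real.log_le_log hpos hgram
  rw [Real.log_mul (Real.exp_ne_zero _) (pow_ne_zero _ Real.pi_ne_zero), Real.log_exp, Real.log_pow] at h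
  linarith

lemma logdet_cont {ρ a : C2 → ℝ} {B r : ℝ} (hρ : Rho ρ) (hB : 0 < B)
    (ha : Adm ρ B a) (hr : 0 < r) (hr1 : r < 1) (m d : ℕ) :
    Continuous fun θ => Real.log ((Gm (wt a m r) d θ).det.re) := by
  refine Continuous.log ?_ fun θ => ?_
  · exact Complex.continuous_re.comp (Gm_cont (wt_ok hρ hB ha hr hr1 m) d).matrix_det
  · have := (Gm_posDef (wt_ok hρ hB ha hr hr1 m) d θ).det_pos
    exact (Complex.pos_iff.mp this).1.ne'

/-- the norm on the circle of radius one half -/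
noncomputable def Rm (d : ℕ) : Matrix (Fin d) (Fin d) ℂ :=
  Matrix.diagonal fun i => (((1 / 4 : ℝ) ^ (i : ℕ) : ℝ) : ℂ)

lemma Rm_posDef (d : ℕ) : (Rm d).PosDef := by
  unfold Rm
  refine Matrix.PosDef.diagonal fun i => ?_
  rw [Complex.zero_lt_real]
  positivity

lemma Rm_quad (d : ℕ) (f : Fin d → ℂ) : (star f ⬝ᵥ ((Rm d).mulVec f)).re =
    ∑ i : Fin d, ‖f i‖ ^ 2 * (1 / 4) ^ (i : ℕ) := by
  unfold Rm dotProduct
  rw [Complex.re_sum]
  refine Finset.sum_congr rfl fun i _ => ?_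
  rw [Matrix.mulVec_diagonal]
  have : (star f) i * ((((1 / 4 : ℝ) ^ (i : ℕ) : ℝ) : ℂ) * f i) =
      (((‖f i‖ ^ 2 * (1 / 4) ^ (i : ℕ) : ℝ)) : ℂ) := by
    have h1 : (star f) i * f i = ((‖f i‖ : ℂ)) ^ 2 := by
      rw [Pi.star_apply, RCLike.star_def, Complex.conj_mul']
    push_cast
    rw [← h1]
    ring
  rw [this, Complex.ofReal_re]

lemma Rm_logdet (d : ℕ) : Real.log ((Rm d).det.re) = -((d : ℝ) * (d - 1) * Real.log 2) := by
  unfold Rm
  rw [Matrix.det_diagonal, ← Complex.ofReal_prod, Complex.ofReal_re,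
    Real.log_prod (fun i _ => by positivity)]
  simp only [Real.log_pow]
  rw [← Finset.sum_mul]
  have h4 : Real.log (1 / 4) = -(2 * Real.log 2) := by
    have : (1 / 4 : ℝ) = ((2 : ℝ) ^ 2)⁻¹ := by norm_num
    rw [this, Real.log_inv, Real.log_pow]
    norm_num
  rw [h4]
  have h5 : ∑ i : Fin d, ((i : ℕ) : ℝ) = (d : ℝ) * (d - 1) / 2 := by
    rw [Fin.sum_univ_eq_sum_range (fun i => (i : ℝ)) d]
    induction d with
    | zero => simp
    | succ n ih =>
      rw [Finset.sum_range_succ, ih]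
      push_cast
      ring
  rw [h5]
  ring

/-- the entire function with coefficients `f j i` -/
noncomputable def fun2 {n d : ℕ} (r : ℝ) (f : Fin (n + 1) → Fin d → ℂ) (x y : ℂ) : ℂ :=
  ∑ i : Fin d, (∑ j : Fin (n + 1), (y / r) ^ (j : ℕ) * f j i) * x ^ (i : ℕ)

lemma fun2_diff {n d : ℕ} (r : ℝ) (f : Fin (n + 1) → Fin d → ℂ) :
    Differentiable ℂ (fun p : ℂ × ℂ => fun2 r f p.1 p.2) := by
  unfold fun2
  simp only [div_eq_mul_inv]
  fun_prop

lemma fun2_zero {n d : ℕ} (r : ℝ) (f : Fin (n + 1) → Fin d → ℂ) (x : ℂ) :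
    fun2 r f x 0 = ∑ i : Fin d, f 0 i * x ^ (i : ℕ) := by
  unfold fun2
  refine Finset.sum_congr rfl fun i _ => ?_
  congr 1
  rw [Finset.sum_eq_single 0]
  · simp
  · intro j _ hj
    have : (j : ℕ) ≠ 0 := fun h => hj (Fin.ext h)
    simp [this]
  · simp

lemma WE_eq {ρ a : C2 → ℝ} {B r : ℝ} (hρ : Rho ρ) (hB : 0 < B)
    (ha : Adm ρ B a) (hr : 0 < r) (hr1 : r < 1) (m d n : ℕ) (f : Fin (n + 1) → Fin d → ℂ) :
    WE a m r (fun2 r f) = (1 / (2 * Real.pi)) * (∫ t in (0 : ℝ)..(2 * Real.pi),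
      (star (∑ j : Fin (n + 1), Complex.exp (Complex.I * ((j : ℕ) : ℂ) * t) • f j) ⬝ᵥ
        ((Gm (wt a m r) d t).mulVec
          (∑ j : Fin (n + 1), Complex.exp (Complex.I * ((j : ℕ) : ℂ) * t) • f j))).re) := by
  unfold WE
  congr 1
  refine intervalIntegral.integral_congr fun t _ => ?_
  show _ = (star (∑ j : Fin (n + 1), Complex.exp (Complex.I * ((j : ℕ) : ℂ) * t) • f j) ⬝ᵥ
        ((Gm (wt a m r) d t).mulVec
          (∑ j : Fin (n + 1), Complex.exp (Complex.I * ((j : ℕ) : ℂ) * t) • f j))).re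
  rw [Gm_quad (wt_ok hρ hB ha hr hr1 m), Complex.ofReal_re]
  refine setIntegral_congr_fun measurableSet_ball fun x _ => ?_
  show ‖fun2 r f x (cp r t)‖ ^ 2 * Real.exp (-2 * m * a (pt x (cp r t))) = _ * wt a m r t x
  unfold wt
  congr 3
  unfold fun2
  refine Finset.sum_congr rfl fun i _ => ?_
  congr 1
  rw [Finset.sum_apply]
  refine Finset.sum_congr rfl fun j _ => ?_
  rw [Pi.smul_apply, smul_eq_mul]
  congr 1
  unfold cp
  have hr0 : (r : ℂ) ≠ 0 := by exact_mod_cast hr.ne'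
  rw [mul_div_cancel_left₀ _ hr0, ← Complex.exp_nat_mul]
  congr 1
  ring

theorem t (hE : ENS) (hA : ANDR) (hS : SZS) (hH : HES) : POL := by
  intro ρ a B r₁ A hρ hB ha hr hr1 hA1 hmean ε m₀ hε
  have h15 : Real.exp (-15) < 1 := by
    rw [Real.exp_lt_one_iff]; norm_num
  have hr2 : r₁ < 1 := hr1.trans h15
  obtain ⟨c, hc0, hc⟩ := logdet_le hE hA hH hρ hB ha hr hr1 (1 / 10) (by norm_num)
  set m : ℕ := max m₀ (⌈2 * (c + 4)⌉₊ + 1) with hm
  have hm0 : m₀ ≤ m := le_max_left _ _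
  have hmc : 2 * (c + 4) ≤ m := by
    have h1 : ⌈2 * (c + 4)⌉₊ ≤ m := (Nat.le_succ _).trans (le_max_right _ _)
    exact (Nat.le_ceil _).trans (by exact_mod_cast h1)
  have hm1 : 1 ≤ m := le_trans (by omega) (le_max_right m₀ (⌈2 * (c + 4)⌉₊ + 1))
  have hm1' : (1 : ℝ) ≤ m := by exact_mod_cast hm1
  have hAm : 0 < A * m := by positivity
  set d : ℕ := ⌈A * m⌉₊ with hd
  have hd1 : A * m ≤ d := Nat.le_ceil _
  have hd2 : (d : ℝ) < A * m + 1 := Nat.ceil_lt_add_one hAm.le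
  have hd0 : 0 < d := by
    have : (0 : ℝ) < d := hAm.trans_le hd1
    exact_mod_cast this
  have hd0' : (0 : ℝ) < d := by exact_mod_cast hd0
  have hW := wt_ok hρ hB ha hr hr2 m
  obtain ⟨n, f, hf1, hf2⟩ := hS d (Gm (wt a m r₁) d) (Rm d) hd0 (Gm_cont hW d) (Gm_per hW d)
    (Gm_posDef hW d) (Rm_posDef d) 1 one_pos
  refine ⟨m, fun2 r₁ f, hm0, hm1, fun2_diff r₁ f, ?_, ?_⟩
  · rw [Rm_quad] at hf1
    obtain ⟨x₀, hx0, hx1⟩ := circle_pt (f 0) hf1
    exact ⟨x₀, hx0, by rw [fun2_zero]; exact hx1⟩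
  · rw [WE_eq hρ hB ha hr hr2 m d n f]
    refine hf2.trans (Real.exp_le_exp.mpr ?_)
    rw [Rm_logdet]
    have hpi := Real.pi_pos
    have hpi3 : 3 < Real.pi := Real.pi_gt_three
    -- mean of the log determinant
    have hlin : (1 / (2 * Real.pi)) * (∫ θ in (0 : ℝ)..(2 * Real.pi), Real.log ((Gm (wt a m r₁) d θ).det.re)) ≤
        (d * Real.log Real.pi + d ^ 2 * Real.log 2 + c * d + 2 * m * d * (1 / 10)) +
        (2 / Real.pi) * m ^ 2 * A ^ 2 := by
      have hLEc := LE_cont hH hρ hB ha hr hr1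
      have h1 : (∫ θ in (0 : ℝ)..(2 * Real.pi), Real.log ((Gm (wt a m r₁) d θ).det.re)) ≤
          ∫ θ in (0 : ℝ)..(2 * Real.pi), ((d * Real.log Real.pi + d ^ 2 * Real.log 2 + c * d + 2 * m * d * (1 / 10)) +
            (2 / Real.pi) * m ^ 2 * LE a (cp r₁ θ)) := by
        refine intervalIntegral.integral_mono_on (by positivity)
          ((logdet_cont hρ hB ha hr hr2 m d).intervalIntegrable _ _)
          ((continuous_const.add (continuous_const.mul hLEc)).intervalIntegrable _ _) ?_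
        intro θ _
        have := hc m d θ
        linarith
      have hi2 : IntervalIntegrable (fun θ => (2 / Real.pi) * (m : ℝ) ^ 2 * LE a (cp r₁ θ)) volume 0 (2 * Real.pi) :=
        (continuous_const.mul hLEc).intervalIntegrable _ _
      rw [intervalIntegral.integral_add (continuous_const.intervalIntegrable _ _) hi2,
        intervalIntegral.integral_const, intervalIntegral.integral_const_mul] at h1
      have h2 : 0 ≤ 1 / (2 * Real.pi) := by positivity
      have h3 := mul_le_mul_of_nonneg_left h1 h2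
      have h4 : (1 / (2 * Real.pi)) * ((2 * Real.pi - 0) • (d * Real.log Real.pi + d ^ 2 * Real.log 2 + c * d + 2 * m * d * (1 / 10)) +
          (2 / Real.pi) * m ^ 2 * ∫ θ in (0 : ℝ)..(2 * Real.pi), LE a (cp r₁ θ)) =
          (d * Real.log Real.pi + d ^ 2 * Real.log 2 + c * d + 2 * m * d * (1 / 10)) +
          (2 / Real.pi) * m ^ 2 * ((1 / (2 * Real.pi)) * ∫ θ in (0 : ℝ)..(2 * Real.pi), LE a (cp r₁ θ)) := by
        rw [smul_eq_mul]
        field_simp
        ring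
      rw [h4] at h3
      have h5 : (2 / Real.pi) * (m : ℝ) ^ 2 * ((1 / (2 * Real.pi)) * ∫ θ in (0 : ℝ)..(2 * Real.pi), LE a (cp r₁ θ)) ≤
          (2 / Real.pi) * m ^ 2 * A ^ 2 := mul_le_mul_of_nonneg_left hmean (by positivity)
      linarith
    set M : ℝ := (1 / (2 * Real.pi)) * (∫ θ in (0 : ℝ)..(2 * Real.pi), Real.log ((Gm (wt a m r₁) d θ).det.re)) with hM
    have hl2 : Real.log 2 ≤ 0.6931471808 := Real.log_two_lt_d9.le
    have hl20 : 0 ≤ Real.log 2 := Real.log_nonneg (by norm_num)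
    have hlpi : Real.log Real.pi ≤ 2.2 := by
      have := Real.log_le_sub_one_of_pos hpi
      have := Real.pi_lt_d2
      linarith
    have h2pi : 2 / Real.pi ≤ 0.67 := by
      rw [div_le_iff₀ hpi]
      nlinarith
    have hd3 : (m : ℝ) ^ 2 * A ^ 2 ≤ d * (A * m) := by nlinarith
    have key : (1 / (d : ℝ)) * (M - -((d : ℝ) * (d - 1) * Real.log 2)) + 1 ≤ 2 * m * (3 / 2 * A + ε) := by
      have h6 : M - -((d : ℝ) * (d - 1) * Real.log 2) ≤ d * (Real.log Real.pi + (2 * d - 1) * Real.log 2 + c +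
          2 * m * (1 / 10) + 0.67 * (A * m)) := by
        have h7 : (2 / Real.pi) * (m : ℝ) ^ 2 * A ^ 2 ≤ 0.67 * (d * (A * m)) := by
          calc (2 / Real.pi) * (m : ℝ) ^ 2 * A ^ 2 = (2 / Real.pi) * ((m : ℝ) ^ 2 * A ^ 2) := by ring
            _ ≤ 0.67 * (d * (A * m)) := mul_le_mul h2pi hd3 (by positivity) (by norm_num)
        linarith
      have h8 : (1 / (d : ℝ)) * (M - -((d : ℝ) * (d - 1) * Real.log 2)) ≤ Real.log Real.pi + (2 * d - 1) * Real.log 2 + c +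
          2 * m * (1 / 10) + 0.67 * (A * m) := by
        rw [one_div, inv_mul_le_iff₀ hd0']
        exact h6
      have h9 : (2 * d - 1) * Real.log 2 ≤ (2 * (A * m) + 1) * 0.6931471808 := by
        have h10 : (2 * (d : ℝ) - 1) ≤ 2 * (A * m) + 1 := by linarith
        have h11 : (0 : ℝ) ≤ 2 * (A * m) + 1 := by positivity
        exact (mul_le_mul_of_nonneg_right h10 hl20).trans (mul_le_mul_of_nonneg_left hl2 h11)
      have h12 : (m : ℝ) ≤ A * m := by nlinarith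
      have h13 : 0 ≤ 2 * (m : ℝ) * ε := by positivity
      nlinarith
    exact key

end Pool.Agent.H53M.POL
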