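import Mathlib
import Pool.Agent.H53M.QPOt

/-! Project MD, stub QPO (helper41): positivity of the energy form, from HES. -/

set_option autoImplicit false

open MeasureTheory Metric Set Filter Topology
open scoped ContDiff ComplexOrder

namespace Pool.Agent.H53M.QPO

open Pool.Agent.H805R2 Pool.Agent.H53M.IBT Pool.Agent.H53M.QPOt

/-- truncation of the identity -/
noncomputable def th (δ t : ℝ) : ℝ := t * Real.smoothTransition ((t / δ) ^ 2 - 1)

noncomputable def GG (δ t : ℝ) : ℝ := ∫ s in (0 : ℝ)..t, th δ s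

lemma th_smooth (δ : ℝ) : ContDiff ℝ ∞ (th δ) := by
  unfold th
  have h1 : ContDiff ℝ ∞ (fun t : ℝ => (t / δ) ^ 2 - 1) := by fun_prop
  exact contDiff_id.mul (Real.smoothTransition.contDiff.comp h1)

lemma th_zero {δ t : ℝ} (hδ : 0 < δ) (ht : |t| ≤ δ) : th δ t = 0 := by
  unfold th
  rw [Real.smoothTransition.zero_of_nonpos, mul_zero]
  have h1 : |t / δ| ≤ 1 := by
    rw [abs_div, abs_of_pos hδ, div_le_one hδ]; exact ht
  have h2 : (t / δ) ^ 2 ≤ 1 := by
    rw [← sq_abs]
    exact pow_le_one₀ (abs_nonneg _) h1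
  linarith

lemma th_near {δ t : ℝ} (hδ : 0 < δ) : |th δ t - t| ≤ 2 * δ := by
  unfold th
  set u := Real.smoothTransition ((t / δ) ^ 2 - 1) with hu
  have h0 : 0 ≤ u := Real.smoothTransition.nonneg _
  have h1 : u ≤ 1 := Real.smoothTransition.le_one _
  by_cases h : 2 ≤ (t / δ) ^ 2
  · have : u = 1 := Real.smoothTransition.one_of_one_le (by linarith)
    rw [this, mul_one, sub_self, abs_zero]
    positivity
  · push Not at h
    have h2 : |t| ≤ 2 * δ := by
      have h3 : |t / δ| ≤ 2 := by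
        by_contra hc
        push Not at hc
        have h4 : (2 : ℝ) ^ 2 ≤ |t / δ| ^ 2 := pow_le_pow_left₀ (by norm_num) hc.le 2
        rw [sq_abs] at h4
        linarith
      rw [abs_div, abs_of_pos hδ, div_le_iff₀ hδ] at h3
      exact h3
    have h5 : t * u - t = -(t * (1 - u)) := by ring
    rw [h5, abs_neg, abs_mul, abs_of_nonneg (by linarith : 0 ≤ 1 - u)]
    calc |t| * (1 - u) ≤ |t| * 1 := mul_le_mul_of_nonneg_left (by linarith) (abs_nonneg _)
      _ ≤ 2 * δ := by rw [mul_one]; exact h2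

lemma th_mono {δ : ℝ} (hδ : 0 < δ) : Monotone (th δ) := by
  have key : ∀ a b : ℝ, 0 ≤ a → a ≤ b → th δ a ≤ th δ b := by
    intro a b ha hab
    unfold th
    apply mul_le_mul hab
    · apply Real.smoothTransition.monotone
      have h1 : a / δ ≤ b / δ := div_le_div_of_nonneg_right hab hδ.le
      have h2 : (a / δ) ^ 2 ≤ (b / δ) ^ 2 := pow_le_pow_left₀ (by positivity) h1 2
      linarith
    · exact Real.smoothTransition.nonneg _
    · linarith
  have hodd : ∀ a : ℝ, th δ (-a) = -th δ a := by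
    intro a
    unfold th
    rw [neg_div, neg_sq, neg_mul]
  have hnn : ∀ a : ℝ, 0 ≤ a → 0 ≤ th δ a := fun a ha => mul_nonneg ha (Real.smoothTransition.nonneg _)
  intro a b hab
  rcases le_total 0 a with ha | ha
  · exact key a b ha hab
  · rcases le_total 0 b with hb | hb
    · have h1 := hnn (-a) (by linarith)
      rw [hodd] at h1
      linarith [hnn b hb]
    · have h1 := key (-b) (-a) (by linarith) (by linarith)
      rw [hodd, hodd] at h1
      linarith

lemma GG_deriv (δ t : ℝ) : HasDerivAt (GG δ) (th δ t) t := by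
  have hc : Continuous (th δ) := (th_smooth δ).continuous
  exact intervalIntegral.integral_hasDerivAt_right (hc.intervalIntegrable _ _)
    (hc.stronglyMeasurableAtFilter _ _) hc.continuousAt

lemma GG_deriv' (δ : ℝ) : deriv (GG δ) = th δ := funext fun t => (GG_deriv δ t).deriv

lemma GG_smooth (δ : ℝ) : ContDiff ℝ ∞ (GG δ) := by
  rw [contDiff_infty_iff_deriv, GG_deriv']
  exact ⟨fun t => (GG_deriv δ t).differentiableAt, th_smooth δ⟩

lemma GG_zero {δ t : ℝ} (hδ : 0 < δ) (ht : |t| ≤ δ) : GG δ t = 0 := by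
  unfold GG
  have h1 : ∫ s in (0 : ℝ)..t, th δ s = ∫ s in (0 : ℝ)..t, (0 : ℝ) := by
    apply intervalIntegral.integral_congr
    intro s hs
    apply th_zero hδ
    rw [mem_uIcc] at hs
    rw [abs_le] at ht ⊢
    rcases hs with hs | hs <;> constructor <;> linarith [hs.1, hs.2, ht.1, ht.2]
  rw [h1, intervalIntegral.integral_zero]

lemma GG_deriv2 {δ : ℝ} (hδ : 0 < δ) (t : ℝ) : 0 ≤ deriv (deriv (GG δ)) t := by
  rw [GG_deriv']
  exact (th_mono hδ).deriv_nonneg

theorem t (hHES : Pool.Agent.H53M.HES) : Pool.Agent.H53M.QPO := by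
  obtain ⟨-, hsmul, -, -, -, -, hchain, -, -, -⟩ := hHES
  intro ρ B f hρ hf ⟨K, hK, hKO, hfK⟩
  have hρs : ContDiffOn ℝ ∞ ρ Om := hρ.sp.1
  obtain ⟨K₀, hK₀, hK₀O, hma⟩ := hρ.ma0
  have hfc : ContinuousOn f Om := hf.continuousOn
  -- `DD f ρ` vanishes off `K ∪ K₀`
  have hoff : ∀ z ∈ Om, z ∉ K ∪ K₀ → DD f ρ z = 0 := by
    intro z hz hzK
    rw [mem_union, not_or] at hzK
    have h1 : f =ᶠ[𝓝 z] fun w => B * ρ w := by
      filter_upwards [Om_open.mem_nhds hz, hK.isClosed.isOpen_compl.mem_nhds hzK.1] with w hw hw2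
      exact hfK w hw hw2
    rw [DD_eq, hess_congr h1, hsmul ρ B z (hρs.contDiffAt (Om_open.mem_nhds hz)), Dm_symm, Dm_smul_right]
    have h2 : Dm (hess ρ z) (hess ρ z) = 0 := by
      unfold Dm
      rw [Matrix.adjugate_mul, hma z hz hzK.2, zero_smul, Matrix.trace_zero, Complex.zero_re]
    rw [h2, mul_zero]
  have hKK : IsCompact (K ∪ K₀) := hK.union hK₀
  have hKKO : K ∪ K₀ ⊆ Om := union_subset hKO hK₀O
  have hDc : ContinuousOn (DD f ρ) Om := cont_DD hf hρs
  -- for each `δ`
  have hδ : ∀ δ : ℝ, 0 < δ → ∫ z in Om, th δ (f z) * DD f ρ z ≤ 0 := by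
    intro δ hδ
    -- compact set outside which `|f| ≤ δ`
    obtain ⟨K₁, hK₁, hK₁O, hK₁b⟩ := hρ.bdry (δ / (|B| + 1)) (by positivity)
    have hsmall : ∀ z ∈ Om, z ∉ K ∪ K₁ → |f z| ≤ δ := by
      intro z hz hzK
      rw [mem_union, not_or] at hzK
      rw [hfK z hz hzK.1, abs_mul]
      have h1 := hK₁b z hz hzK.2
      have h2 := hρ.neg z hz
      have h3 : |ρ z| ≤ δ / (|B| + 1) := by
        rw [abs_of_neg h2]; linarith
      have hB : 0 ≤ |B| := abs_nonneg B
      calc |B| * |ρ z| ≤ (|B| + 1) * (δ / (|B| + 1)) :=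
            mul_le_mul (by linarith) h3 (abs_nonneg _) (by positivity)
        _ = δ := by field_simp
    have hGf : ContDiffOn ℝ ∞ (fun z => GG δ (f z)) Om := (GG_smooth δ).comp_contDiffOn hf
    have h0 : ∀ z ∈ Om, z ∉ K ∪ K₁ → (fun z => GG δ (f z)) z = 0 := fun z hz hzK =>
      GG_zero hδ (hsmall z hz hzK)
    have hm := mass0 hGf (hK.union hK₁) (union_subset hKO hK₁O) h0 hρs
    have hle : ∀ z ∈ Om, th δ (f z) * DD f ρ z ≤ DD (fun z => GG δ (f z)) ρ z := by
      intro z hz
      have hc := hchain (GG δ) f z (GG_smooth δ) (hf.contDiffAt (Om_open.mem_nhds hz)) (GG_deriv2 hδ _)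
      have hp := Dm_nonneg (hρ.sp.2 z hz) hc
      rw [Dm_sub_right, Dm_smul_right, GG_deriv', Dm_symm _ (hess f z)] at hp
      rw [DD_eq (fun z => GG δ (f z)) ρ z, DD_eq f ρ z, Dm_symm (hess (fun z => GG δ (f z)) z)]
      linarith
    rw [← hm]
    apply setIntegral_mono_on _ _ Om_open.measurableSet hle
    · apply int_cs (K := K ∪ K₀) _ hKK hKKO
      · intro z hz hzK
        rw [hoff z hz hzK, mul_zero]
      · exact ((th_smooth δ).continuous.comp_continuousOn hfc).mul hDc
    · apply int_cs (K := K ∪ K₁) (cont_DD hGf hρs) (hK.union hK₁) (union_subset hKO hK₁O)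
      intro z hz hzK
      have h1 : (fun z => GG δ (f z)) =ᶠ[𝓝 z] fun _ => (0 : ℝ) := by
        filter_upwards [Om_open.mem_nhds hz, (hK.union hK₁).isClosed.isOpen_compl.mem_nhds hzK] with w hw hw2
        exact h0 w hw hw2
      rw [DD_eq, hess_congr h1, hess_const_zero]
      unfold Dm
      simp
  -- limit
  have hDi : IntegrableOn (DD f ρ) Om := int_cs hDc hKK hKKO hoff
  have hfi : IntegrableOn (fun z => f z * DD f ρ z) Om := by
    apply int_cs (h := fun z => f z * DD f ρ z) (hfc.mul hDc) hKK hKKO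
    intro z hz hzK
    rw [hoff z hz hzK, mul_zero]
  have hlim : ∀ δ : ℝ, 0 < δ → ∫ z in Om, f z * DD f ρ z ≤ 2 * δ * ∫ z in Om, |DD f ρ z| := by
    intro δ hδ0
    have hthi : IntegrableOn (fun z => th δ (f z) * DD f ρ z) Om := by
      apply int_cs (h := fun z => th δ (f z) * DD f ρ z)
        (((th_smooth δ).continuous.comp_continuousOn hfc).mul hDc) hKK hKKO
      intro z hz hzK
      rw [hoff z hz hzK, mul_zero]
    have h1 : ∫ z in Om, f z * DD f ρ z ≤ ∫ z in Om, (th δ (f z) * DD f ρ z + 2 * δ * |DD f ρ z|) := by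
      apply setIntegral_mono_on hfi (hthi.add (hDi.abs.const_mul _)) Om_open.measurableSet
      intro z _
      have h2 := th_near (t := f z) hδ0
      have h3 : (f z - th δ (f z)) * DD f ρ z ≤ 2 * δ * |DD f ρ z| := by
        calc (f z - th δ (f z)) * DD f ρ z ≤ |(f z - th δ (f z)) * DD f ρ z| := le_abs_self _
          _ = |th δ (f z) - f z| * |DD f ρ z| := by rw [abs_mul, abs_sub_comm]
          _ ≤ 2 * δ * |DD f ρ z| := mul_le_mul_of_nonneg_right h2 (abs_nonneg _)
      show f z * DD f ρ z ≤ th δ (f z) * DD f ρ z + 2 * δ * |DD f ρ z|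
      linarith
    rw [integral_add hthi (hDi.abs.const_mul _), integral_const_mul] at h1
    linarith [hδ δ hδ0]
  have hfin : ∫ z in Om, f z * DD f ρ z ≤ 0 := by
    by_contra hcon
    push Not at hcon
    set I := ∫ z in Om, f z * DD f ρ z with hI
    set J := ∫ z in Om, |DD f ρ z| with hJ
    have hJ0 : 0 ≤ J := integral_nonneg fun z => abs_nonneg _
    have h4 := hlim (I / (4 * (J + 1))) (by positivity)
    have h5 : 2 * (I / (4 * (J + 1))) * J ≤ I / 2 := by
      have h6 : 2 * (I / (4 * (J + 1))) * J = I / 2 * (J / (J + 1)) := by field_simp; ring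
      rw [h6]
      have h7 : J / (J + 1) ≤ 1 := by rw [div_le_one (by positivity)]; linarith
      nlinarith
    linarith
  have hneg : ∫ z in Om, (-f z) * DD f ρ z = -∫ z in Om, f z * DD f ρ z := by
    rw [← integral_neg]
    congr 1
    funext z
    ring
  rw [hneg]
  linarith

end Pool.Agent.H53M.QPO
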