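import Pool.Agent.H53M.RHOC

/-!
# Stub RHO: existence of the weight
-/

set_option autoImplicit false

open MeasureTheory Metric Set Filter Topology
open scoped ContDiff ComplexOrder

namespace Pool.Agent.H53M.RHO

open Pool.Agent.H53M Pool.Agent.H805R2

lemma Phi_ge0 {z : C2} (hz : z ∈ Om) (h0 : z 0 ≠ 0) : Real.log ‖z 0‖ ≤ Phi z := by
  by_cases h1 : z 1 = 0
  · have h : Phi z = Real.log ‖z 0‖ := by
      unfold Phi
      rw [if_pos]
      rw [h1, norm_zero]
      have := norm_pos_iff.2 h0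
      positivity
    rw [h]
  · rw [Phi_eq hz h0 h1]
    exact (le_max_left _ _).trans (FF_ge (log_neg_of h0 hz.1) (log_neg_of h1 hz.2))

lemma Phi_ge1 {z : C2} (hz : z ∈ Om) (h1 : z 1 ≠ 0) : Real.log ‖z 1‖ ≤ Phi z := by
  by_cases h0 : z 0 = 0
  · have h : Phi z = Real.log ‖z 1‖ := by
      have := (Phi_evr hz (by
        rw [h0, norm_zero]
        have := norm_pos_iff.2 h1
        positivity)).self_of_nhds
      exact this
    rw [h]
  · rw [Phi_eq hz h0 h1]
    exact (le_max_right _ _).trans (FF_ge (log_neg_of h0 hz.1) (log_neg_of h1 hz.2))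

lemma Phi_neg {z : C2} (hz : z ∈ Om) (hne : z ≠ 0) : Phi z < 0 := by
  rcases trich hne with ⟨h0, h1⟩ | ⟨h0, h1⟩ | ⟨h0, h1⟩
  · rw [Phi_eq hz h0 h1]
    exact FF_neg (log_neg_of h0 hz.1) (log_neg_of h1 hz.2)
  · have h : Phi z = Real.log ‖z 0‖ := by
      unfold Phi
      rw [if_pos]
      rw [h1, norm_zero]
      have := norm_pos_iff.2 h0
      positivity
    rw [h]
    exact log_neg_of h0 hz.1
  · have h : Phi z = Real.log ‖z 1‖ := by
      have := (Phi_evr hz (by
        rw [h0, norm_zero]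
        have := norm_pos_iff.2 h1
        positivity)).self_of_nhds
      exact this
    rw [h]
    exact log_neg_of h1 hz.2

lemma rho_ge (z : C2) : -2 ≤ rho z := by
  unfold rho
  split_ifs
  · exact le_rfl
  · have := (le_max_right _ _).trans (MXL.max_le_mm (Phi z + 2))
    linarith

lemma rho_zero : rho 0 = -2 := by
  unfold rho
  rw [if_pos zero_cond]

lemma rho_neg {z : C2} (hz : z ∈ Om) : rho z < 0 := by
  by_cases hne : z = 0
  · subst hne
    rw [rho_zero]
    norm_num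
  · rw [rho_eq hz hne]
    have h1 := Phi_neg hz hne
    rcases le_or_gt (1 / 2) (Phi z + 2) with h | h
    · rw [MXL.mm_of_ge h]
      linarith
    · have h2 := MXL.mm_le_max (Phi z + 2)
      have h3 : max (Phi z + 2) 0 ≤ 1 / 2 := max_le h.le (by norm_num)
      linarith

/-- `rho` is at most `-5/4` where `Phi ≤ -3/2` -/
lemma rho_le {z : C2} (hz : z ∈ Om) (hne : z ≠ 0) (h : Phi z ≤ -(3 / 2)) : rho z ≤ -(5 / 4) := by
  rw [rho_eq hz hne]
  have h2 := MXL.mm_le_max (Phi z + 2)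
  have h3 : max (Phi z + 2) 0 ≤ 1 / 2 := max_le (by linarith) (by norm_num)
  linarith

lemma Phi_le_rho {z : C2} (hz : z ∈ Om) (hne : z ≠ 0) : Phi z ≤ rho z := by
  rw [rho_eq hz hne]
  have := (le_max_left _ _).trans (MXL.max_le_mm (Phi z + 2))
  linarith

/-- closed polydiscs -/
def PD (c : ℝ) : Set C2 := {z | ‖z 0‖ ≤ c ∧ ‖z 1‖ ≤ c}

lemma PD_compact (c : ℝ) : IsCompact (PD c) := by
  refine Metric.isCompact_of_isClosed_isBounded ?_ ?_
  · have h0 : Continuous fun z : C2 => ‖z 0‖ := by fun_prop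
    have h1 : Continuous fun z : C2 => ‖z 1‖ := by fun_prop
    exact (isClosed_le h0 continuous_const).inter (isClosed_le h1 continuous_const)
  · rw [Metric.isBounded_iff_subset_closedBall 0]
    refine ⟨2 * |c|, fun z hz => ?_⟩
    rw [mem_closedBall_zero_iff, EuclideanSpace.norm_eq, Fin.sum_univ_two]
    have h0 : ‖z 0‖ ≤ |c| := hz.1.trans (le_abs_self c)
    have h1 : ‖z 1‖ ≤ |c| := hz.2.trans (le_abs_self c)
    rw [show (2 : ℝ) * |c| = Real.sqrt ((2 * |c|) ^ 2) by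
      rw [Real.sqrt_sq (by positivity)]]
    apply Real.sqrt_le_sqrt
    have e0 := norm_nonneg (z 0)
    have e1 := norm_nonneg (z 1)
    nlinarith [abs_nonneg c]

lemma PD_sub {c : ℝ} (hc : c < 1) : PD c ⊆ Om := fun _ hz => ⟨hz.1.trans_lt hc, hz.2.trans_lt hc⟩

/-- off the polydisc of radius `e^{-t}` one has `Phi > -t` -/
lemma Phi_off {z : C2} {t : ℝ} (hz : z ∈ Om) (h : z ∉ PD (Real.exp (-t))) : z ≠ 0 ∧ -t < Phi z := by
  have h' : Real.exp (-t) < ‖z 0‖ ∨ Real.exp (-t) < ‖z 1‖ := by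
    by_contra hcon
    push Not at hcon
    exact h ⟨hcon.1, hcon.2⟩
  rcases h' with h1 | h1
  · have h0 : z 0 ≠ 0 := by
      intro hc
      rw [hc, norm_zero] at h1
      exact absurd h1 (not_lt.2 (Real.exp_pos _).le)
    refine ⟨fun hc => h0 (by rw [hc]; rfl), ?_⟩
    have h2 := (Real.lt_log_iff_exp_lt (norm_pos_iff.2 h0)).2 h1
    exact h2.trans_le (Phi_ge0 hz h0)
  · have h0 : z 1 ≠ 0 := by
      intro hc
      rw [hc, norm_zero] at h1
      exact absurd h1 (not_lt.2 (Real.exp_pos _).le)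
    refine ⟨fun hc => h0 (by rw [hc]; rfl), ?_⟩
    have h2 := (Real.lt_log_iff_exp_lt (norm_pos_iff.2 h0)).2 h1
    exact h2.trans_le (Phi_ge1 hz h0)

lemma pt_mem {z : C2} (hz : z ∈ Om) : pt (z 0) 0 ∈ Om := by
  refine ⟨?_, ?_⟩
  · rw [pt0]; exact hz.1
  · rw [pt1, norm_zero]; exact one_pos

lemma rho_deep {z : C2} (hz : z ∈ Om) (hx : ‖z 0‖ < Real.exp (-5)) (hy : ‖z 1‖ < Real.exp (-5)) :
    rho z = -2 := by
  by_cases hne : z = 0
  · subst hne
    exact rho_zero
  · rw [rho_eq hz hne, MXL.mm_of_le, add_zero]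
    have := Phi_deep hz hne (c := -5) le_rfl hx hy
    linarith

lemma flat1 {z : C2} (hz : z ∈ Om) (hy : ‖z 1‖ < Real.exp (-15)) : rho z = rho (pt (z 0) 0) := by
  by_cases h : ‖z 1‖ < ‖z 0‖ ^ 2
  · have h0 : z 0 ≠ 0 := by
      intro hc
      rw [hc, norm_zero] at h
      have := norm_nonneg (z 1)
      linarith [h, this, (by norm_num : (0 : ℝ) ^ 2 = 0)]
    have hne : z ≠ 0 := fun hc => h0 (by rw [hc]; rfl)
    have hne' : pt (z 0) 0 ≠ 0 := by
      intro hc
      have := congrArg (fun w : C2 => w 0) hc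
      simp only [pt0] at this
      exact h0 this
    rw [rho_eq hz hne, rho_eq (pt_mem hz) hne']
    have e1 : Phi z = Real.log ‖z 0‖ := by
      unfold Phi
      rw [if_pos h]
    have e2 : Phi (pt (z 0) 0) = Real.log ‖z 0‖ := by
      unfold Phi
      rw [if_pos]
      · rw [pt0]
      · rw [pt0, pt1, norm_zero]
        have := norm_pos_iff.2 h0
        positivity
    rw [e1, e2]
  · push Not at h
    have h2 : ‖z 0‖ < Real.exp (-5) := by
      have h3 : ‖z 0‖ ^ 2 < Real.exp (-5) ^ 2 := by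
        have h4 : Real.exp (-5) ^ 2 = Real.exp (-10) := by
          rw [← Real.exp_nat_mul]
          norm_num
        rw [h4]
        have h5 : Real.exp (-15) < Real.exp (-10) := Real.exp_lt_exp.2 (by norm_num)
        linarith
      exact lt_of_pow_lt_pow_left₀ 2 (Real.exp_pos _).le h3
    have h6 : Real.exp (-15) < Real.exp (-5) := Real.exp_lt_exp.2 (by norm_num)
    rw [rho_deep hz h2 (hy.trans h6), rho_deep (pt_mem hz) (by rw [pt0]; exact h2)
      (by rw [pt1, norm_zero]; exact Real.exp_pos _)]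

lemma flat2 {z : C2} (hz : z ∈ Om) (hy : ‖z 1‖ < Real.exp (-15)) (hx : Real.exp (-(1 : ℝ)) < ‖z 0‖) :
    rho z = Real.log ‖z 0‖ := by
  have h0 : z 0 ≠ 0 := by
    intro hc
    rw [hc, norm_zero] at hx
    exact absurd hx (not_lt.2 (Real.exp_pos _).le)
  have hne : z ≠ 0 := fun hc => h0 (by rw [hc]; rfl)
  have h : ‖z 1‖ < ‖z 0‖ ^ 2 := by
    have h4 : Real.exp (-(1 : ℝ)) ^ 2 = Real.exp (-2) := by
      rw [← Real.exp_nat_mul]
      norm_num
    have h5 : Real.exp (-15) < Real.exp (-2) := Real.exp_lt_exp.2 (by norm_num)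
    have h6 : Real.exp (-(1 : ℝ)) ^ 2 < ‖z 0‖ ^ 2 := by
      have := Real.exp_pos (-(1 : ℝ))
      gcongr
    linarith
  have e1 : Phi z = Real.log ‖z 0‖ := by
    unfold Phi
    rw [if_pos h]
  have h7 := (Real.lt_log_iff_exp_lt (norm_pos_iff.2 h0)).2 hx
  rw [rho_eq hz hne, e1, MXL.mm_of_ge (by linarith)]
  ring

lemma cone {z : C2} (hz : z ∈ Om) :
    hess rho z = 0 ∨ z 1 = 0 ∨ min (-Real.log ‖z 1‖) 1 ≤ 4 * (-rho z) := by
  by_cases hne : z = 0
  · subst hne
    exact Or.inr (Or.inl rfl)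
  by_cases h1 : z 1 = 0
  · exact Or.inr (Or.inl h1)
  rcases le_or_gt (Phi z) (-(3 / 2)) with h | h
  · refine Or.inr (Or.inr ?_)
    have h2 := rho_le hz hne h
    exact (min_le_right _ _).trans (by linarith)
  have hρ : hess rho z = hess Phi z := hess_congr (rho_ev1 hz hne h)
  have hρ' : rho z = Phi z := (rho_ev1 hz hne h).self_of_nhds
  by_cases h0 : z 0 = 0
  · left
    rw [hρ]
    apply Phi_hess_evr hz
    rw [h0, norm_zero]
    have := norm_pos_iff.2 h1
    positivity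
  have hx := log_neg_of h0 hz.1
  have hy := log_neg_of h1 hz.2
  have c0 : ContinuousAt (fun w : C2 => Real.log ‖w 0‖) z := (log_smooth 0 z h0).continuousAt
  have c1 : ContinuousAt (fun w : C2 => Real.log ‖w 1‖) z := (log_smooth 1 z h1).continuousAt
  rcases lt_or_ge (-(Real.log ‖z 0‖ + Real.log ‖z 1‖)) (8 * (Real.log ‖z 0‖ - Real.log ‖z 1‖))
    with h2 | h2
  · left
    rw [hρ]
    have hev : ∀ᶠ w : C2 in 𝓝 z, -(Real.log ‖w 0‖ + Real.log ‖w 1‖) <
        8 * (Real.log ‖w 0‖ - Real.log ‖w 1‖) :=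
      ((c0.add c1).neg).eventually_lt (continuousAt_const.mul (c0.sub c1)) h2
    have e : Phi =ᶠ[𝓝 z] fun w => Real.log ‖w 0‖ := by
      filter_upwards [Om_open.mem_nhds hz, ev_ne 0 h0, ev_ne 1 h1, hev] with w a b c d
      rw [Phi_eq a b c, FF_left (log_neg_of b a.1) (log_neg_of c a.2) d.le]
    rw [hess_congr e]
    exact hess_log 0 z h0
  rcases lt_or_ge (8 * (Real.log ‖z 0‖ - Real.log ‖z 1‖)) (Real.log ‖z 0‖ + Real.log ‖z 1‖)
    with h3 | h3
  · left
    rw [hρ]
    have hev : ∀ᶠ w : C2 in 𝓝 z, 8 * (Real.log ‖w 0‖ - Real.log ‖w 1‖) <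
        Real.log ‖w 0‖ + Real.log ‖w 1‖ :=
      (continuousAt_const.mul (c0.sub c1)).eventually_lt (c0.add c1) h3
    have e : Phi =ᶠ[𝓝 z] fun w => Real.log ‖w 1‖ := by
      filter_upwards [Om_open.mem_nhds hz, ev_ne 0 h0, ev_ne 1 h1, hev] with w a b c d
      rw [Phi_eq a b c, FF_right (log_neg_of b a.1) (log_neg_of c a.2) d.le]
    rw [hess_congr e]
    exact hess_log 1 z h1
  · refine Or.inr (Or.inr ?_)
    have h4 := FF_cone hx hy h2 h3
    rw [← Phi_eq hz h0 h1] at h4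
    rw [hρ']
    exact (min_le_left _ _).trans (by linarith)

theorem t : Pool.Agent.H53M.RHO := by
  refine ⟨rho, ?_⟩
  refine
    { sp := ⟨fun z hz => (rho_smooth hz).contDiffWithinAt, fun z hz => rho_psd hz⟩
      neg := fun z hz => rho_neg hz
      ge := fun z _ => (by norm_num : (-3 : ℝ) ≤ -2).trans (rho_ge z)
      bdry := ?_
      ma0 := ?_
      flat := fun z hz hy => ⟨flat1 hz hy, fun hx => flat2 hz hy hx⟩
      cone := ⟨4, by norm_num, fun z hz => cone hz⟩ }
  · intro t ht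
    refine ⟨PD (Real.exp (-t)), PD_compact _, PD_sub (by
      rw [Real.exp_lt_one_iff]
      linarith), fun z hz hK => ?_⟩
    obtain ⟨hne, h⟩ := Phi_off hz hK
    exact h.trans_le (Phi_le_rho hz hne)
  · refine ⟨PD (Real.exp (-1)), PD_compact _, PD_sub (by
      rw [Real.exp_lt_one_iff]
      norm_num), fun z hz hK => ?_⟩
    obtain ⟨hne, h⟩ := Phi_off hz hK
    rw [hess_congr (rho_ev1 hz hne (by linarith))]
    exact (Phi_hess' hz hne).2

end Pool.Agent.H53M.RHO
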