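import Mathlib
import Pool.Agent.H53M.STK

/-!
# SYM (helper45)
-/

set_option autoImplicit false

open MeasureTheory Metric Set Filter Topology
open scoped ContDiff ComplexOrder

namespace Pool.Agent.H53M.SYM

open Pool.Agent.H805R2 Pool.Agent.H53M.T45 Pool.Agent.H53M.IBT

theorem t (hH : HES) : SYM := by
  intro ρ B a b hρ hAa hAb
  have ha := germ_adm hAa
  have hb := germ_adm hAb
  have hr := germ_rho hρ
  have hs : ContDiffOn ℝ ∞ (fun z => b z - B * ρ z) Om := hb.1.sub (contDiffOn_const.mul hr.1)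
  have h0 := ibt hs hb.2 hr.1 ha.1
  have c1 : ContinuousOn (fun z => -ρ z) Om := hr.1.continuousOn.neg
  have c2 : ContinuousOn (fun z => -b z) Om := hb.1.continuousOn.neg
  have c3 : ContinuousOn (fun z => b z - B * ρ z) Om := hs.continuousOn
  have i1 : IntegrableOn (fun z => (-b z) * DD a ρ z) Om := int_DD hH hρ ha hr c2
  have i2 : IntegrableOn (fun z => (-ρ z) * DD a b z) Om := int_DD hH hρ ha hb c1
  have i3 : IntegrableOn (fun z => (b z - B * ρ z) * DD ρ a z) Om := int_DD hH hρ hr ha c3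
  have i4 : IntegrableOn (fun z => ρ z * DD (fun z => b z - B * ρ z) a z) Om := by
    refine integ (hr.1.continuousOn.mul (DD_cont hH hs ha.1)) ?_
    have hg : Germ ρ 0 fun z => b z - B * ρ z := by
      refine ⟨hs, ?_⟩
      obtain ⟨K, hK, hKO, h⟩ := hb.2
      exact ⟨K, hK, hKO, fun z hz hz' => by have := h z hz hz'; linarith⟩
    exact (Z_DD hH hρ hg ha).mul_left
  have e : ∀ z ∈ Om, (-b z) * DD a ρ z - (-ρ z) * DD a b z =
      -((b z - B * ρ z) * DD ρ a z) + ρ z * DD (fun z => b z - B * ρ z) a z := by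
    intro z hz
    have e1 : DD (fun z => b z - B * ρ z) a z = DD b a z - DD (fun z => B * ρ z) a z :=
      DD_sub hH hb.1 (contDiffOn_const.mul hr.1) hz
    rw [e1, DD_smul hH B hr.1 hz, DD_symm a ρ, DD_symm a b]
    ring
  have h1 : ∫ z in Om, ((-b z) * DD a ρ z - (-ρ z) * DD a b z) =
      ∫ z in Om, (-((b z - B * ρ z) * DD ρ a z) + ρ z * DD (fun z => b z - B * ρ z) a z) :=
    setIntegral_congr_fun Om_open.measurableSet e
  have h2 : ∫ z in Om, (-((b z - B * ρ z) * DD ρ a z) + ρ z * DD (fun z => b z - B * ρ z) a z) =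
      (∫ z in Om, -((b z - B * ρ z) * DD ρ a z)) + ∫ z in Om, ρ z * DD (fun z => b z - B * ρ z) a z :=
    integral_add i3.neg i4
  rw [integral_sub i1 i2, h2, integral_neg, h0] at h1
  linarith

end Pool.Agent.H53M.SYM
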