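import Pool.Agent.H53M.Stm

/-! Project MD, stub SZS (helper41): from TOE. -/

set_option autoImplicit false

open MeasureTheory Metric Set Filter Topology Matrix
open scoped ContDiff ComplexOrder MatrixOrder

namespace Pool.Agent.H53M.SZS

open Pool.Agent.H53M

theorem exists_fac {d : ℕ} (R : Matrix (Fin d) (Fin d) ℂ) (hR : R.PosDef) :
    ∃ B : Matrix (Fin d) (Fin d) ℂ, R = Bᴴ * B ∧ IsUnit B := by
  classical
  obtain ⟨y, hy⟩ := CStarAlgebra.nonneg_iff_eq_star_mul_self.mp hR.posSemidef.nonneg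
  refine ⟨y, hy, ?_⟩
  have h1 := hR.isUnit
  rw [Matrix.isUnit_iff_isUnit_det] at h1 ⊢
  rw [hy, Matrix.det_mul] at h1
  exact isUnit_of_mul_isUnit_right h1

theorem det_im {ι : Type} [Fintype ι] [DecidableEq ι] (S : Matrix ι ι ℂ) (hS : S.PosDef) :
    S.det = ((S.det.re : ℝ) : ℂ) ∧ 0 < S.det.re := by
  have h := hS.det_pos
  rw [Complex.lt_def] at h
  refine ⟨?_, h.1⟩
  apply Complex.ext
  · simp
  · simpa using h.2.symm

theorem simdiag {d : ℕ} (hd : 0 < d) (R S : Matrix (Fin d) (Fin d) ℂ) (hR : R.PosDef) (hS : S.PosDef) :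
    ∃ p : Fin d → ℂ, (star p ⬝ᵥ (R.mulVec p)).re = 1 ∧
      (star p ⬝ᵥ (S.mulVec p)).re ≤ Real.exp ((1 / (d : ℝ)) * (Real.log S.det.re - Real.log R.det.re)) := by
  classical
  obtain ⟨B, hB, hBu⟩ := exists_fac R hR
  have hBd : IsUnit B.det := (Matrix.isUnit_iff_isUnit_det B).1 hBu
  have hBi : IsUnit B⁻¹ := by
    rw [Matrix.isUnit_nonsing_inv_iff]; exact hBu
  set N := (B⁻¹)ᴴ * S * B⁻¹ with hN
  have hNp : N.PosDef := hS.conjTranspose_mul_mul_same (Matrix.mulVec_injective_of_isUnit hBi)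
  have hNh := hNp.isHermitian
  -- determinant
  have hdet : N.det * R.det = S.det := by
    rw [hN, hB, Matrix.det_mul, Matrix.det_mul, Matrix.det_mul, Matrix.det_conjTranspose, Matrix.det_conjTranspose,
      Matrix.det_nonsing_inv]
    have h1 : Ring.inverse B.det * B.det = 1 := Ring.inverse_mul_cancel _ hBd
    have h2 : star (Ring.inverse B.det) * star B.det = 1 := by
      rw [← star_mul, mul_comm, h1, star_one]
    calc star (Ring.inverse B.det) * S.det * Ring.inverse B.det * (star B.det * B.det)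
        = S.det * (Ring.inverse B.det * B.det) * (star (Ring.inverse B.det) * star B.det) := by ring
      _ = S.det := by rw [h1, h2, mul_one, mul_one]
  obtain ⟨hN1, hN2⟩ := det_im N hNp
  obtain ⟨hR1, hR2⟩ := det_im R hR
  obtain ⟨hS1, hS2⟩ := det_im S hS
  have hdetr : N.det.re * R.det.re = S.det.re := by
    have h3 := hdet
    rw [hN1, hR1, ← Complex.ofReal_mul] at h3
    have h4 := congrArg Complex.re h3
    simpa using h4
  have hlog : Real.log N.det.re = Real.log S.det.re - Real.log R.det.re := by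
    rw [← hdetr, Real.log_mul hN2.ne' hR2.ne']
    ring
  have hprod : N.det.re = ∏ i, hNh.eigenvalues i := by
    have h5 := hNh.det_eq_prod_eigenvalues
    have h6 : (∏ i, ((hNh.eigenvalues i : ℝ) : ℂ)) = ((∏ i, hNh.eigenvalues i : ℝ) : ℂ) := by
      push_cast
      rfl
    have h7 : N.det = ((∏ i, hNh.eigenvalues i : ℝ) : ℂ) := by
      rw [h5, ← h6]
      rfl
    rw [h7, Complex.ofReal_re]
  have hlogs : Real.log N.det.re = ∑ i, Real.log (hNh.eigenvalues i) := by
    rw [hprod, Real.log_prod]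
    intro i _
    exact (hNp.eigenvalues_pos i).ne'
  have : Nonempty (Fin d) := ⟨⟨0, hd⟩⟩
  obtain ⟨i, -, hi⟩ : ∃ i ∈ (Finset.univ : Finset (Fin d)), Real.log (hNh.eigenvalues i) ≤
      (1 / (d : ℝ)) * Real.log N.det.re := by
    apply Finset.exists_le_of_sum_le Finset.univ_nonempty
    rw [Finset.sum_const, Finset.card_univ, Fintype.card_fin, nsmul_eq_mul, ← hlogs]
    have : (d : ℝ) ≠ 0 := by positivity
    field_simp
    exact le_refl _
  set v : Fin d → ℂ := ⇑(hNh.eigenvectorBasis i) with hv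
  have hNv : N *ᵥ v = (hNh.eigenvalues i) • v := hNh.mulVec_eigenvectorBasis i
  have hvv : star v ⬝ᵥ v = 1 := by
    have h8 := hNh.eigenvectorBasis.orthonormal.1 i
    have h9 : inner ℂ (hNh.eigenvectorBasis i) (hNh.eigenvectorBasis i) = (1 : ℂ) := by
      rw [inner_self_eq_norm_sq_to_K, h8]
      simp
    rw [EuclideanSpace.inner_eq_star_dotProduct] at h9
    rw [dotProduct_comm]
    exact h9
  refine ⟨B⁻¹ *ᵥ v, ?_, ?_⟩
  · have h10 : star (B⁻¹ *ᵥ v) ⬝ᵥ (R *ᵥ (B⁻¹ *ᵥ v)) = star v ⬝ᵥ v := by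
      rw [star_mulVec, ← dotProduct_mulVec, mulVec_mulVec, mulVec_mulVec, hB]
      have h11 : (B⁻¹)ᴴ * (Bᴴ * B * B⁻¹) = 1 := by
        rw [Matrix.mul_assoc, Matrix.mul_nonsing_inv _ hBd, Matrix.mul_one, ← Matrix.conjTranspose_mul,
          Matrix.mul_nonsing_inv _ hBd, Matrix.conjTranspose_one]
      rw [Matrix.mul_assoc (B⁻¹)ᴴ, h11, one_mulVec]
    rw [h10, hvv, Complex.one_re]
  · have h10 : star (B⁻¹ *ᵥ v) ⬝ᵥ (S *ᵥ (B⁻¹ *ᵥ v)) = star v ⬝ᵥ (N *ᵥ v) := by
      rw [star_mulVec, ← dotProduct_mulVec, mulVec_mulVec, mulVec_mulVec, hN, Matrix.mul_assoc]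
    rw [h10, hNv, dotProduct_smul, hvv]
    have h12 : ((hNh.eigenvalues i) • (1 : ℂ)).re = hNh.eigenvalues i := by simp
    rw [h12, ← hlog]
    have h13 := hNp.eigenvalues_pos i
    calc hNh.eigenvalues i = Real.exp (Real.log (hNh.eigenvalues i)) := (Real.exp_log h13).symm
      _ ≤ _ := Real.exp_le_exp.2 hi

/-- splitting off the first block -/
def ee (n d : ℕ) : Fin d ⊕ (Fin n × Fin d) ≃ Fin (n + 1) × Fin d where
  toFun := Sum.elim (fun a => (0, a)) (fun q => (q.1.succ, q.2))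
  invFun := fun p => Fin.cases (motive := fun _ => Fin d ⊕ (Fin n × Fin d)) (Sum.inl p.2) (fun k => Sum.inr (k, p.2)) p.1
  left_inv := by
    rintro (a | ⟨k, a⟩)
    · rfl
    · rfl
  right_inv := by
    rintro ⟨j, a⟩
    refine Fin.cases ?_ (fun k => ?_) j
    · rfl
    · rfl

theorem toep_succ (n d : ℕ) (W : ℝ → Matrix (Fin d) (Fin d) ℂ) (k l : Fin n) (a b : Fin d) :
    Toep (n + 1) d W (k.succ, a) (l.succ, b) = Toep n d W (k, a) (l, b) := by
  unfold Toep
  simp only [Matrix.of_apply]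
  congr 1
  apply intervalIntegral.integral_congr
  intro t _
  simp only [Fin.val_succ]
  congr 2
  push_cast
  ring

theorem toep_castLE {m n : ℕ} (d : ℕ) (h : m ≤ n) (W : ℝ → Matrix (Fin d) (Fin d) ℂ) :
    (Toep n d W).submatrix (fun p : Fin m × Fin d => (Fin.castLE h p.1, p.2)) (fun p => (Fin.castLE h p.1, p.2)) =
      Toep m d W := by
  ext p q
  rfl

theorem posDef_le {m n : ℕ} (d : ℕ) (h : m ≤ n) (W : ℝ → Matrix (Fin d) (Fin d) ℂ)
    (hp : (Toep n d W).PosDef) : (Toep m d W).PosDef := by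
  rw [← toep_castLE d h W]
  apply hp.submatrix
  rintro ⟨a, b⟩ ⟨a', b'⟩ hab
  simp only [Prod.mk.injEq] at hab
  exact Prod.ext (Fin.castLE_injective h hab.1) hab.2

/-- one Schur step -/
theorem schur (n d : ℕ) (W : ℝ → Matrix (Fin d) (Fin d) ℂ)
    (h1 : (Toep (n + 1) d W).PosDef) :
    ∃ S : Matrix (Fin d) (Fin d) ℂ, S.PosDef ∧
      (Toep (n + 1) d W).det.re = (Toep n d W).det.re * S.det.re ∧
      ∀ p : Fin d → ℂ, ∃ f : Fin (n + 1) → Fin d → ℂ, f 0 = p ∧
        star (fun q : Fin (n + 1) × Fin d => f q.1 q.2) ⬝ᵥ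
          (Toep (n + 1) d W).mulVec (fun q : Fin (n + 1) × Fin d => f q.1 q.2) = star p ⬝ᵥ S.mulVec p := by
  classical
  have h0 : (Toep n d W).PosDef := posDef_le d (Nat.le_succ n) W h1
  set M := (Toep (n + 1) d W).submatrix (ee n d) (ee n d) with hM
  have hMp : M.PosDef := h1.submatrix (ee n d).injective
  set D := Toep n d W with hD
  set A : Matrix (Fin d) (Fin d) ℂ := M.toBlocks₁₁ with hA
  set B : Matrix (Fin d) (Fin n × Fin d) ℂ := M.toBlocks₁₂ with hB
  have hMb : M = fromBlocks A B Bᴴ D := by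
    ext x y
    rcases x with a | ⟨k, a⟩ <;> rcases y with b | ⟨l, b⟩
    · rfl
    · rfl
    · have h2 := hMp.isHermitian.apply (Sum.inr (k, a)) (Sum.inl b)
      exact h2.symm
    · exact toep_succ n d W k l a b
  have : Invertible D := h0.isUnit.invertible
  have hDh := h0.isHermitian
  set S := A - B * D⁻¹ * Bᴴ with hS
  have key : ∀ x : Fin d → ℂ, star (Sum.elim x (-((D⁻¹ * Bᴴ) *ᵥ x))) ⬝ᵥ (M *ᵥ (Sum.elim x (-((D⁻¹ * Bᴴ) *ᵥ x)))) =
      star x ⬝ᵥ (S *ᵥ x) := by
    intro x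
    have h3 := schur_complement_eq₂₂ A B x (-((D⁻¹ * Bᴴ) *ᵥ x)) hDh
    rw [add_neg_cancel, star_zero, zero_vecMul, dotProduct_zero, zero_add] at h3
    rw [hMb, dotProduct_mulVec, dotProduct_mulVec]
    exact h3
  refine ⟨S, ?_, ?_, ?_⟩
  · refine Matrix.PosDef.of_dotProduct_mulVec_pos ?_ ?_
    · have h4 := (IsHermitian.fromBlocks₂₂ A B hDh).1
      apply h4
      rw [← hMb]
      exact hMp.isHermitian
    · intro x hx
      rw [← key x]
      apply hMp.dotProduct_mulVec_pos
      intro h5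
      apply hx
      funext a
      have := congrFun h5 (Sum.inl a)
      simpa using this
  · have h6 : (Toep (n + 1) d W).det = D.det * S.det := by
      rw [← Matrix.det_submatrix_equiv_self (ee n d), ← hM, hMb, det_fromBlocks₂₂, Matrix.invOf_eq_nonsing_inv]
    have hSp : S.PosDef := by
      refine Matrix.PosDef.of_dotProduct_mulVec_pos ?_ ?_
      · have h4 := (IsHermitian.fromBlocks₂₂ A B hDh).1
        apply h4
        rw [← hMb]
        exact hMp.isHermitian
      · intro x hx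
        rw [← key x]
        apply hMp.dotProduct_mulVec_pos
        intro h5
        apply hx
        funext a
        have := congrFun h5 (Sum.inl a)
        simpa using this
    rw [h6, (det_im D h0).1, (det_im S hSp).1, ← Complex.ofReal_mul]
    simp
  · intro p
    set z : Fin d ⊕ (Fin n × Fin d) → ℂ := Sum.elim p (-((D⁻¹ * Bᴴ) *ᵥ p)) with hz
    refine ⟨fun j a => z ((ee n d).symm (j, a)), ?_, ?_⟩
    · funext a
      rfl
    · rw [← key p]
      have h7 : (fun q : Fin (n + 1) × Fin d => z ((ee n d).symm (q.1, q.2))) = z ∘ (ee n d).symm := rfl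
      rw [h7, hM]
      have h8 : (Toep (n + 1) d W).submatrix (ee n d) (ee n d) *ᵥ z =
          ((Toep (n + 1) d W) *ᵥ (z ∘ (ee n d).symm)) ∘ (ee n d) := by
        rw [Matrix.submatrix_mulVec_equiv]
      rw [h8]
      have h9 : star z = (star (z ∘ (ee n d).symm)) ∘ (ee n d) := by
        funext x
        simp
      rw [h9]
      exact (comp_equiv_dotProduct_comp_equiv (star (z ∘ (ee n d).symm)) ((Toep (n + 1) d W) *ᵥ (z ∘ (ee n d).symm)) (ee n d)).symm

theorem exists_small (n d : ℕ) (hn : 1 ≤ n) (W : ℝ → Matrix (Fin d) (Fin d) ℂ) :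
    ∃ k < n, Real.log (Toep (k + 1) d W).det.re - Real.log (Toep k d W).det.re ≤
      (1 / (n : ℝ)) * Real.log (Toep n d W).det.re := by
  classical
  have h0 : (Toep 0 d W).det = 1 := by
    have : IsEmpty (Fin 0 × Fin d) := inferInstance
    exact Matrix.det_isEmpty
  have h2 := Finset.sum_range_sub (fun k => Real.log (Toep k d W).det.re) n
  obtain ⟨k, hk, hk2⟩ : ∃ k ∈ Finset.range n, Real.log (Toep (k + 1) d W).det.re - Real.log (Toep k d W).det.re ≤
      (1 / (n : ℝ)) * Real.log (Toep n d W).det.re := by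
    apply Finset.exists_le_of_sum_le
    · exact ⟨0, Finset.mem_range.2 hn⟩
    · rw [h2, h0, Complex.one_re, Real.log_one, sub_zero, Finset.sum_const, Finset.card_range, nsmul_eq_mul]
      have : (n : ℝ) ≠ 0 := by positivity
      field_simp
      exact le_refl _
  exact ⟨k, Finset.mem_range.1 hk, hk2⟩

/-- the quadratic form of the block Toeplitz matrix -/
theorem form_eq (n d : ℕ) (W : ℝ → Matrix (Fin d) (Fin d) ℂ) (hW : Continuous W) (f : Fin n → Fin d → ℂ) :
    (1 / (2 * Real.pi)) * (∫ t in (0 : ℝ)..(2 * Real.pi),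
      (star (∑ j : Fin n, Complex.exp (Complex.I * ((j : ℕ) : ℂ) * t) • f j) ⬝ᵥ
        ((W t).mulVec (∑ j : Fin n, Complex.exp (Complex.I * ((j : ℕ) : ℂ) * t) • f j))).re) =
    (star (fun q : Fin n × Fin d => f q.1 q.2) ⬝ᵥ
          (Toep n d W).mulVec (fun q : Fin n × Fin d => f q.1 q.2)).re := by
  classical
  have hWc : ∀ a b, Continuous fun t => W t a b := fun a b => hW.matrix_elem a b
  set F : ℝ → ℂ := fun t => star (∑ j : Fin n, Complex.exp (Complex.I * ((j : ℕ) : ℂ) * t) • f j) ⬝ᵥ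
        ((W t).mulVec (∑ j : Fin n, Complex.exp (Complex.I * ((j : ℕ) : ℂ) * t) • f j)) with hF
  have hF2 : ∀ t, F t = ∑ p : Fin n × Fin d, ∑ q : Fin n × Fin d, star (f p.1 p.2) *
      (W t p.2 q.2 * Complex.exp (Complex.I * (((q.1 : ℕ) : ℂ) - ((p.1 : ℕ) : ℂ)) * t)) * f q.1 q.2 := by
    intro t
    rw [hF]
    simp only [dotProduct, mulVec, Finset.sum_apply, Pi.star_apply, Pi.smul_apply, smul_eq_mul, star_sum, star_mul']
    rw [Fintype.sum_prod_type, Finset.sum_comm]
    refine Finset.sum_congr rfl fun a _ => ?_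
    rw [Finset.sum_mul]
    refine Finset.sum_congr rfl fun j _ => ?_
    rw [Fintype.sum_prod_type, Finset.sum_comm, Finset.mul_sum]
    refine Finset.sum_congr rfl fun b _ => ?_
    rw [Finset.mul_sum, Finset.mul_sum]
    refine Finset.sum_congr rfl fun l _ => ?_
    have h3 : star (Complex.exp (Complex.I * ((j : ℕ) : ℂ) * t)) * Complex.exp (Complex.I * ((l : ℕ) : ℂ) * t) =
        Complex.exp (Complex.I * (((l : ℕ) : ℂ) - ((j : ℕ) : ℂ)) * t) := by
      rw [Complex.star_def, ← Complex.exp_conj, ← Complex.exp_add]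
      congr 1
      simp only [map_mul, Complex.conj_I, Complex.conj_natCast, Complex.conj_ofReal]
      ring
    rw [← h3]
    ring
  have hFi : ∀ p q : Fin n × Fin d, IntervalIntegrable (fun t : ℝ => star (f p.1 p.2) *
      (W t p.2 q.2 * Complex.exp (Complex.I * (((q.1 : ℕ) : ℂ) - ((p.1 : ℕ) : ℂ)) * t)) * f q.1 q.2) volume 0 (2 * Real.pi) := by
    intro p q
    apply Continuous.intervalIntegrable
    have := hWc p.2 q.2
    fun_prop
  have hFc : Continuous F := by
    have : F = fun t => ∑ p : Fin n × Fin d, ∑ q : Fin n × Fin d, star (f p.1 p.2) *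
      (W t p.2 q.2 * Complex.exp (Complex.I * (((q.1 : ℕ) : ℂ) - ((p.1 : ℕ) : ℂ)) * t)) * f q.1 q.2 := funext hF2
    rw [this]
    refine continuous_finsetSum _ fun p _ => continuous_finsetSum _ fun q _ => ?_
    have := hWc p.2 q.2
    fun_prop
  have hFI : IntervalIntegrable F volume 0 (2 * Real.pi) := hFc.intervalIntegrable _ _
  have hre : (∫ t in (0 : ℝ)..(2 * Real.pi), (F t).re) = (∫ t in (0 : ℝ)..(2 * Real.pi), F t).re := by
    have := Complex.reCLM.intervalIntegral_comp_comm hFI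
    simpa using this
  rw [hre]
  have hint : (∫ t in (0 : ℝ)..(2 * Real.pi), F t) = ∑ p : Fin n × Fin d, ∑ q : Fin n × Fin d, star (f p.1 p.2) *
      (∫ t in (0 : ℝ)..(2 * Real.pi), W t p.2 q.2 * Complex.exp (Complex.I * (((q.1 : ℕ) : ℂ) - ((p.1 : ℕ) : ℂ)) * t)) * f q.1 q.2 := by
    have h4 : (∫ t in (0 : ℝ)..(2 * Real.pi), F t) = ∫ t in (0 : ℝ)..(2 * Real.pi), ∑ p : Fin n × Fin d, ∑ q : Fin n × Fin d, star (f p.1 p.2) *
      (W t p.2 q.2 * Complex.exp (Complex.I * (((q.1 : ℕ) : ℂ) - ((p.1 : ℕ) : ℂ)) * t)) * f q.1 q.2 :=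
      intervalIntegral.integral_congr fun t _ => hF2 t
    rw [h4, intervalIntegral.integral_finsetSum]
    · refine Finset.sum_congr rfl fun p _ => ?_
      rw [intervalIntegral.integral_finsetSum]
      · refine Finset.sum_congr rfl fun q _ => ?_
        rw [intervalIntegral.integral_mul_const, intervalIntegral.integral_const_mul]
      · intro q _
        exact hFi p q
    · intro p _
      apply Continuous.intervalIntegrable
      refine continuous_finsetSum _ fun q _ => ?_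
      have := hWc p.2 q.2
      fun_prop
  have hfin : star (fun q : Fin n × Fin d => f q.1 q.2) ⬝ᵥ
          (Toep n d W).mulVec (fun q : Fin n × Fin d => f q.1 q.2) =
      (((1 / (2 * Real.pi) : ℝ)) : ℂ) * ∫ t in (0 : ℝ)..(2 * Real.pi), F t := by
    rw [hint, Finset.mul_sum]
    simp only [dotProduct, mulVec, Pi.star_apply]
    refine Finset.sum_congr rfl fun p _ => ?_
    rw [Finset.mul_sum, Finset.mul_sum]
    refine Finset.sum_congr rfl fun q _ => ?_
    unfold Toep
    simp only [Matrix.of_apply]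
    push_cast
    ring
  rw [hfin, Complex.re_ofReal_mul]

theorem t (hT : Pool.Agent.H53M.TOE) : Pool.Agent.H53M.SZS := by
  classical
  intro d W R hd hW hper hpos hR ε hε
  obtain ⟨N, hN⟩ := hT d W hW hper hpos ε hε
  obtain ⟨hP, hL⟩ := hN (max N 1) (le_max_left _ _) (le_max_right _ _)
  obtain ⟨k, hk, hk2⟩ := exists_small (max N 1) d (le_max_right _ _) W
  have hPk1 : (Toep (k + 1) d W).PosDef := posDef_le d hk W hP
  have hPk : (Toep k d W).PosDef := posDef_le d hk.le W hP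
  obtain ⟨S, hS, hdet, hf⟩ := schur k d W hPk1
  obtain ⟨p, hp1, hp2⟩ := simdiag hd R S hR hS
  obtain ⟨f, hf0, hf1⟩ := hf p
  refine ⟨k, f, ?_, ?_⟩
  · rw [hf0]; exact hp1
  · rw [form_eq (k + 1) d W hW f, hf1]
    refine hp2.trans ?_
    apply Real.exp_le_exp.2
    have h1 : Real.log S.det.re = Real.log (Toep (k + 1) d W).det.re - Real.log (Toep k d W).det.re := by
      rw [hdet, Real.log_mul (det_im _ hPk).2.ne' (det_im _ hS).2.ne']
      ring
    have h2 : Real.log S.det.re ≤ (1 / (2 * Real.pi)) * (∫ t in (0 : ℝ)..(2 * Real.pi), Real.log ((W t).det.re)) + ε := by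
      rw [h1]
      exact hk2.trans hL
    have hd1 : (1 : ℝ) ≤ d := by exact_mod_cast hd
    have hd2 : (0 : ℝ) ≤ 1 / (d : ℝ) := by positivity
    have hd3 : 1 / (d : ℝ) * ε ≤ ε := by
      have : 1 / (d : ℝ) ≤ 1 := by
        rw [div_le_one (by positivity)]; exact hd1
      nlinarith
    calc (1 / (d : ℝ)) * (Real.log S.det.re - Real.log R.det.re)
        ≤ (1 / (d : ℝ)) * (((1 / (2 * Real.pi)) * (∫ t in (0 : ℝ)..(2 * Real.pi), Real.log ((W t).det.re)) + ε) -
          Real.log R.det.re) := by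
          apply mul_le_mul_of_nonneg_left _ hd2
          linarith
      _ = (1 / (d : ℝ)) * ((1 / (2 * Real.pi)) * (∫ t in (0 : ℝ)..(2 * Real.pi), Real.log ((W t).det.re)) -
          Real.log R.det.re) + 1 / (d : ℝ) * ε := by ring
      _ ≤ _ := by linarith

end Pool.Agent.H53M.SZS
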