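import Pool.Agent.H53M.Stm

set_option autoImplicit false

open MeasureTheory Metric Set Filter Topology intervalIntegral
open scoped ComplexOrder

namespace Pool.Agent.H53M.TOE

/-- uniform continuity of a continuous periodic function -/
lemma unif {f : ℝ → ℂ} (hf : Continuous f) (hp : ∀ t, f (t + 2 * Real.pi) = f t) {ε : ℝ} (hε : 0 < ε) :
    ∃ δ > 0, ∀ s t : ℝ, |s - t| < δ → ‖f s - f t‖ < ε := by
  have hpi := Real.pi_pos
  have hP : Function.Periodic f (2 * Real.pi) := hp
  have hK : IsCompact (Icc (-1 : ℝ) (2 * Real.pi + 1)) := isCompact_Icc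
  have hu := hK.uniformContinuousOn_of_continuous hf.continuousOn
  rw [Metric.uniformContinuousOn_iff] at hu
  obtain ⟨δ, hδ, h⟩ := hu ε hε
  refine ⟨min δ 1, lt_min hδ one_pos, fun s t hst => ?_⟩
  set n : ℤ := ⌊t / (2 * Real.pi)⌋
  have h1 : (n : ℝ) * (2 * Real.pi) ≤ t := by
    have := Int.floor_le (t / (2 * Real.pi))
    rwa [le_div_iff₀ (by positivity)] at this
  have h2 : t < ((n : ℝ) + 1) * (2 * Real.pi) := by
    have := Int.lt_floor_add_one (t / (2 * Real.pi))
    rwa [div_lt_iff₀ (by positivity)] at this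
  have e1 : f (s - n * (2 * Real.pi)) = f s := hP.sub_int_mul_eq n
  have e2 : f (t - n * (2 * Real.pi)) = f t := hP.sub_int_mul_eq n
  have h3 := lt_min_iff.1 hst
  have h4 := abs_lt.1 h3.2
  rw [← e1, ← e2, ← dist_eq_norm]
  refine h _ ⟨by linarith, by nlinarith⟩ _ ⟨by linarith, by nlinarith⟩ ?_
  rw [Real.dist_eq]
  have : s - n * (2 * Real.pi) - (t - n * (2 * Real.pi)) = s - t := by ring
  rw [this]; exact h3.1

lemma bdd {f : ℝ → ℂ} (hf : Continuous f) (hp : ∀ t, f (t + 2 * Real.pi) = f t) :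
    ∃ M : ℝ, 0 ≤ M ∧ ∀ t, ‖f t‖ ≤ M := by
  have hpi := Real.pi_pos
  have hP : Function.Periodic f (2 * Real.pi) := hp
  obtain ⟨M, hM⟩ := (isCompact_Icc (a := (0 : ℝ)) (b := 2 * Real.pi)).exists_bound_of_continuousOn hf.continuousOn
  refine ⟨M, le_trans (norm_nonneg _) (hM 0 ⟨le_rfl, by positivity⟩), fun t => ?_⟩
  obtain ⟨y, hy, e⟩ := hP.exists_mem_Ico₀ (by positivity) t
  rw [e]; exact hM y ⟨hy.1, hy.2.le⟩

/-- Fejér kernel -/
noncomputable def ker (n : ℕ) (s : ℝ) : ℝ :=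
  (1 / (n : ℝ)) * ‖∑ k : Fin n, Complex.exp (Complex.I * ((k : ℕ) : ℂ) * s)‖ ^ 2

lemma ker_nonneg (n : ℕ) (s : ℝ) : 0 ≤ ker n s := by unfold ker; positivity

lemma ker_cont (n : ℕ) : Continuous (ker n) := by unfold ker; fun_prop

lemma expI_eq (x : ℝ) : Complex.exp (Complex.I * x) = Complex.exp (x * Complex.I) := by rw [mul_comm]

lemma conj_exp (k : ℕ) (s : ℝ) : (starRingEnd ℂ) (Complex.exp (Complex.I * (k : ℂ) * s)) =
    Complex.exp (-(Complex.I * (k : ℂ) * s)) := by
  rw [← Complex.exp_conj]; congr 1; simp [Complex.conj_ofReal]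

lemma kerC (n : ℕ) (s : ℝ) : ((ker n s : ℝ) : ℂ) = (1 / (n : ℂ)) * ∑ j : Fin n, ∑ k : Fin n,
    Complex.exp (Complex.I * (((k : ℕ) : ℂ) - ((j : ℕ) : ℂ)) * s) := by
  unfold ker
  push_cast
  congr 1
  rw [← Complex.mul_conj', map_sum, Finset.sum_mul_sum, Finset.sum_comm]
  refine Finset.sum_congr rfl fun j _ => Finset.sum_congr rfl fun k _ => ?_
  rw [conj_exp, ← Complex.exp_add]; congr 1; ring

lemma orth (m : ℤ) : ∫ s in (0 : ℝ)..(2 * Real.pi), Complex.exp (Complex.I * (m : ℂ) * s) =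
    if m = 0 then (2 * Real.pi : ℂ) else 0 := by
  split_ifs with h
  · subst h; simp
  · rw [integral_exp_mul_complex (mul_ne_zero Complex.I_ne_zero (by exact_mod_cast h))]
    have : Complex.exp (Complex.I * (m : ℂ) * ((2 * Real.pi : ℝ) : ℂ)) = 1 := by
      rw [Complex.exp_eq_one_iff]; exact ⟨m, by push_cast; ring⟩
    rw [this]; simp

lemma ker_int (n : ℕ) (hn : 1 ≤ n) : ∫ s in (0 : ℝ)..(2 * Real.pi), ker n s = 2 * Real.pi := by
  have h : ((∫ s in (0 : ℝ)..(2 * Real.pi), ker n s : ℝ) : ℂ) = ((2 * Real.pi : ℝ) : ℂ) := by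
    rw [← intervalIntegral.integral_ofReal]
    simp_rw [kerC]
    rw [intervalIntegral.integral_const_mul, intervalIntegral.integral_finsetSum]
    · have : ∀ j : Fin n, (∫ s in (0 : ℝ)..(2 * Real.pi), ∑ k : Fin n,
          Complex.exp (Complex.I * (((k : ℕ) : ℂ) - ((j : ℕ) : ℂ)) * s)) = 2 * Real.pi := by
        intro j
        rw [intervalIntegral.integral_finsetSum]
        · have : ∀ k : Fin n, (∫ s in (0 : ℝ)..(2 * Real.pi),
              Complex.exp (Complex.I * (((k : ℕ) : ℂ) - ((j : ℕ) : ℂ)) * s)) = if k = j then (2 * Real.pi : ℂ) else 0 := by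
            intro k
            have := orth (((k : ℕ) : ℤ) - ((j : ℕ) : ℤ))
            push_cast at this
            rw [this]
            congr 1
            rw [eq_iff_iff, sub_eq_zero, Fin.ext_iff]; norm_cast
          simp_rw [this]; simp
        · intro k _; exact (by fun_prop : Continuous _).intervalIntegrable _ _
      simp_rw [this]
      have hn' : (n : ℂ) ≠ 0 := by exact_mod_cast (by omega : n ≠ 0)
      simp
      field_simp
    · intro j _; exact (by fun_prop : Continuous _).intervalIntegrable _ _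
  exact_mod_cast h

lemma ker_per (n : ℕ) (s : ℝ) : ker n (s + 2 * Real.pi) = ker n s := by
  unfold ker
  congr 3
  refine Finset.sum_congr rfl fun k _ => ?_
  rw [Complex.exp_eq_exp_iff_exists_int]
  exact ⟨(k : ℕ), by push_cast; ring⟩

lemma ker_le (n : ℕ) (hn : 1 ≤ n) (s c : ℝ) (hc : 0 < c) (h : c ≤ ‖1 - Complex.exp (Complex.I * s)‖) :
    ker n s ≤ 4 / (n * c ^ 2) := by
  have hn' : (0 : ℝ) < n := by exact_mod_cast hn
  have h1 : (∑ k : Fin n, Complex.exp (Complex.I * ((k : ℕ) : ℂ) * s)) =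
      ∑ k ∈ Finset.range n, Complex.exp (Complex.I * s) ^ k := by
    rw [Fin.sum_univ_eq_sum_range (fun k => Complex.exp (Complex.I * (k : ℂ) * s)) n]
    refine Finset.sum_congr rfl fun k _ => ?_
    rw [← Complex.exp_nat_mul]; congr 1; ring
  have h2 : (∑ k ∈ Finset.range n, Complex.exp (Complex.I * s) ^ k) * (1 - Complex.exp (Complex.I * s)) =
      1 - Complex.exp (Complex.I * s) ^ n := geom_sum_mul_neg _ _
  have h3 : ‖1 - Complex.exp (Complex.I * s) ^ n‖ ≤ 2 := by
    refine (norm_sub_le _ _).trans ?_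
    rw [norm_pow, expI_eq, Complex.norm_exp_ofReal_mul_I]; norm_num
  have h4 : ‖∑ k : Fin n, Complex.exp (Complex.I * ((k : ℕ) : ℂ) * s)‖ * c ≤ 2 := by
    rw [h1]
    calc _ ≤ ‖∑ k ∈ Finset.range n, Complex.exp (Complex.I * s) ^ k‖ * ‖1 - Complex.exp (Complex.I * s)‖ := by gcongr
      _ ≤ 2 := by rw [← norm_mul, h2]; exact h3
  unfold ker
  set A := ‖∑ k : Fin n, Complex.exp (Complex.I * ((k : ℕ) : ℂ) * s)‖
  have hA : 0 ≤ A := norm_nonneg _
  have h5 : A ^ 2 * c ^ 2 ≤ 4 := by nlinarith [mul_nonneg hA hc.le]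
  rw [div_mul_eq_mul_div, one_mul, div_le_div_iff₀ hn' (by positivity)]
  nlinarith

lemma away {δ : ℝ} (hδ : 0 < δ) : ∃ c > 0, ∀ s : ℝ, s ∈ Icc (-Real.pi) Real.pi → δ ≤ |s| →
    c ≤ ‖1 - Complex.exp (Complex.I * s)‖ := by
  have hK : IsCompact (Icc (-Real.pi) Real.pi ∩ {s : ℝ | δ ≤ |s|}) :=
    isCompact_Icc.inter_right (isClosed_le continuous_const continuous_abs)
  rcases (Icc (-Real.pi) Real.pi ∩ {s : ℝ | δ ≤ |s|}).eq_empty_or_nonempty with he | hne
  · exact ⟨1, one_pos, fun s hs h => absurd (show s ∈ Icc (-Real.pi) Real.pi ∩ {s : ℝ | δ ≤ |s|} from ⟨hs, h⟩) (by rw [he]; exact notMem_empty _)⟩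
  · obtain ⟨x, hx, hm⟩ := hK.exists_isMinOn hne (f := fun s : ℝ => ‖1 - Complex.exp (Complex.I * s)‖) (by fun_prop)
    refine ⟨‖1 - Complex.exp (Complex.I * x)‖, ?_, fun s hs h => hm ⟨hs, h⟩⟩
    rw [gt_iff_lt, norm_pos_iff, sub_ne_zero]
    intro he
    obtain ⟨m, hm⟩ := Complex.exp_eq_one_iff.1 he.symm
    have hx2 : x = m * (2 * Real.pi) := by
      have := congrArg Complex.im hm
      simpa using this
    have h1 := hx.1.1
    have h2 := hx.1.2
    have hpi := Real.pi_pos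
    have : m = 0 := by
      have a1 : (m : ℝ) < 1 := by nlinarith
      have a2 : (-1 : ℝ) < m := by nlinarith
      have b1 : m < 1 := by exact_mod_cast a1
      have b2 : -1 < m := by exact_mod_cast a2
      omega
    rw [this] at hx2
    have h3 : δ ≤ |x| := hx.2
    simp [hx2] at h3
    linarith

/-- Fejér's theorem, uniformly. -/
lemma fejer {w : ℝ → ℂ} (hf : Continuous w) (hp : ∀ t, w (t + 2 * Real.pi) = w t) {ε : ℝ} (hε : 0 < ε) :
    ∃ N : ℕ, ∀ n ≥ N, 1 ≤ n → ∀ ω : ℝ,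
      ‖(1 / (2 * Real.pi) : ℂ) * (∫ t in (0 : ℝ)..(2 * Real.pi), w t * (ker n (t - ω) : ℂ)) - w ω‖ ≤ ε := by
  have hpi := Real.pi_pos
  obtain ⟨δ, hδ, hu⟩ := unif hf hp (half_pos hε)
  obtain ⟨M, hM0, hM⟩ := bdd hf hp
  obtain ⟨c, hc, hcs⟩ := away hδ
  obtain ⟨N, hN⟩ := exists_nat_gt (16 * M / (c ^ 2 * ε))
  refine ⟨N, fun n hn h1 ω => ?_⟩
  have hn0 : (0 : ℝ) < n := by exact_mod_cast h1
  have hbig : 8 * M / (n * c ^ 2) ≤ ε / 2 := by
    have : 16 * M / (c ^ 2 * ε) < n := lt_of_lt_of_le hN (by exact_mod_cast hn)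
    rw [div_lt_iff₀ (by positivity)] at this
    rw [div_le_iff₀ (by positivity)]
    nlinarith
  -- shift
  have hper : Function.Periodic (fun t => w t * (ker n (t - ω) : ℂ)) (2 * Real.pi) := by
    intro t
    have : t + 2 * Real.pi - ω = (t - ω) + 2 * Real.pi := by ring
    simp only [hp t, this, ker_per]
  have e1 : (∫ t in (0 : ℝ)..(2 * Real.pi), w t * (ker n (t - ω) : ℂ)) =
      ∫ s in (-Real.pi)..Real.pi, w (s + ω) * (ker n s : ℂ) := by
    have h1 := hper.intervalIntegral_add_eq 0 (-Real.pi + ω)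
    rw [zero_add] at h1
    rw [h1, show -Real.pi + ω + 2 * Real.pi = Real.pi + ω by ring]
    have h2 := intervalIntegral.integral_comp_add_right (f := fun t => w t * (ker n (t - ω) : ℂ)) (a := -Real.pi) (b := Real.pi) ω
    rw [← h2]
    refine intervalIntegral.integral_congr fun s _ => ?_
    simp
  have e2 : (∫ s in (-Real.pi)..Real.pi, ker n s) = 2 * Real.pi := by
    have hper2 : Function.Periodic (ker n) (2 * Real.pi) := ker_per n
    have h2 := hper2.intervalIntegral_add_eq 0 (-Real.pi)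
    rw [zero_add, ker_int n h1] at h2
    rw [h2]; congr 1; ring
  have e3 : (∫ s in (-Real.pi)..Real.pi, w ω * (ker n s : ℂ)) = w ω * (2 * Real.pi) := by
    rw [intervalIntegral.integral_const_mul, intervalIntegral.integral_ofReal, e2]; push_cast; ring
  have hwc : Continuous fun s => w (s + ω) * (ker n s : ℂ) := by
    have := ker_cont n
    fun_prop
  have hwc2 : Continuous fun s => w ω * (ker n s : ℂ) := by
    have := ker_cont n
    fun_prop
  have e4 : (1 / (2 * Real.pi) : ℂ) * (∫ t in (0 : ℝ)..(2 * Real.pi), w t * (ker n (t - ω) : ℂ)) - w ω =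
      (1 / (2 * Real.pi) : ℂ) * ∫ s in (-Real.pi)..Real.pi, (w (s + ω) * (ker n s : ℂ) - w ω * (ker n s : ℂ)) := by
    rw [intervalIntegral.integral_sub (hwc.intervalIntegrable _ _) (hwc2.intervalIntegrable _ _), e1, e3]
    have : (Real.pi : ℂ) ≠ 0 := by exact_mod_cast Real.pi_ne_zero
    field_simp
  have hb : ‖∫ s in (-Real.pi)..Real.pi, (w (s + ω) * (ker n s : ℂ) - w ω * (ker n s : ℂ))‖ ≤
      ∫ s in (-Real.pi)..Real.pi, (ε / 2 * ker n s + 8 * M / (n * c ^ 2)) := by
    refine intervalIntegral.norm_integral_le_of_norm_le (by linarith) ?_ ?_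
    · refine Eventually.of_forall fun s hs => ?_
      rw [← sub_mul, norm_mul, Complex.norm_real, Real.norm_of_nonneg (ker_nonneg n s)]
      have hk := ker_nonneg n s
      have hpos : 0 ≤ 8 * M / (n * c ^ 2) := by positivity
      rcases lt_or_ge |s| δ with h | h
      · have : ‖w (s + ω) - w ω‖ < ε / 2 := hu _ _ (by simpa using h)
        nlinarith
      · have h5 := hcs s ⟨hs.1.le, hs.2⟩ h
        have h6 := ker_le n h1 s c hc h5
        have h7 : ‖w (s + ω) - w ω‖ ≤ 2 * M := by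
          refine (norm_sub_le _ _).trans ?_
          linarith [hM (s + ω), hM ω]
        calc ‖w (s + ω) - w ω‖ * ker n s ≤ 2 * M * (4 / (n * c ^ 2)) := by gcongr
          _ = 8 * M / (n * c ^ 2) := by ring
          _ ≤ _ := by nlinarith
    · have := ker_cont n
      exact (by fun_prop : Continuous fun s => ε / 2 * ker n s + 8 * M / (n * c ^ 2)).intervalIntegrable _ _
  have e5 : (∫ s in (-Real.pi)..Real.pi, (ε / 2 * ker n s + 8 * M / (n * c ^ 2))) =
      2 * Real.pi * (ε / 2 + 8 * M / (n * c ^ 2)) := by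
    have := ker_cont n
    rw [intervalIntegral.integral_add ((by fun_prop : Continuous fun s => ε / 2 * ker n s).intervalIntegrable _ _)
      (continuous_const.intervalIntegrable _ _), intervalIntegral.integral_const_mul, e2]
    simp; ring
  rw [e4, norm_mul]
  have h8 : ‖(1 / (2 * Real.pi) : ℂ)‖ = 1 / (2 * Real.pi) := by
    rw [norm_div, norm_one, norm_mul, Complex.norm_real, Real.norm_of_nonneg hpi.le]; simp
  rw [h8]
  rw [e5] at hb
  calc 1 / (2 * Real.pi) * _ ≤ 1 / (2 * Real.pi) * (2 * Real.pi * (ε / 2 + 8 * M / (n * c ^ 2))) := by gcongr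
    _ = ε / 2 + 8 * M / (n * c ^ 2) := by field_simp
    _ ≤ ε := by linarith

/-- Riemann sums -/
lemma riemann {g : ℝ → ℝ} (hg : Continuous g) {ε : ℝ} (hε : 0 < ε) :
    ∃ N : ℕ, ∀ n ≥ N, 1 ≤ n → (1 / (n : ℝ)) * ∑ m : Fin n, g (2 * Real.pi * (m : ℕ) / n) ≤
      (1 / (2 * Real.pi)) * (∫ t in (0 : ℝ)..(2 * Real.pi), g t) + ε := by
  have hpi := Real.pi_pos
  have hu := (isCompact_Icc (a := (0 : ℝ)) (b := 2 * Real.pi)).uniformContinuousOn_of_continuous hg.continuousOn
  rw [Metric.uniformContinuousOn_iff] at hu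
  obtain ⟨δ, hδ, h⟩ := hu ε hε
  obtain ⟨N, hN⟩ := exists_nat_gt (2 * Real.pi / δ)
  refine ⟨N, fun n hn h1 => ?_⟩
  have hn0 : (0 : ℝ) < n := by exact_mod_cast h1
  have hlen : 2 * Real.pi / n < δ := by
    have : 2 * Real.pi / δ < n := lt_of_lt_of_le hN (by exact_mod_cast hn)
    rw [div_lt_iff₀ hδ] at this
    rw [div_lt_iff₀ hn0]; linarith
  have key : ∀ m ∈ Finset.range n, 2 * Real.pi / n * g (2 * Real.pi * (m : ℕ) / n) ≤
      (∫ t in (2 * Real.pi * (m : ℕ) / n : ℝ)..(2 * Real.pi * ((m + 1 : ℕ)) / n : ℝ), g t) + 2 * Real.pi / n * ε := by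
    intro m hm
    rw [Finset.mem_range] at hm
    have hm1 : ((m : ℝ) + 1) ≤ n := by exact_mod_cast hm
    set a : ℝ := 2 * Real.pi * (m : ℕ) / n
    have hb : (2 * Real.pi * ((m + 1 : ℕ)) / n : ℝ) = a + 2 * Real.pi / n := by
      simp only [a]; push_cast; ring
    rw [hb]
    have ha0 : 0 ≤ a := by positivity
    have hb1 : a + 2 * Real.pi / n ≤ 2 * Real.pi := by
      rw [← hb]; push_cast
      rw [div_le_iff₀ hn0]; nlinarith
    have hL : 0 < 2 * Real.pi / n := by positivity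
    have : (∫ t in a..(a + 2 * Real.pi / n), (g a - ε)) ≤ ∫ t in a..(a + 2 * Real.pi / n), g t := by
      refine intervalIntegral.integral_mono_on (by linarith) (continuous_const.intervalIntegrable _ _) (hg.intervalIntegrable _ _) ?_
      intro t ht
      have := h a ⟨ha0, by linarith⟩ t ⟨by linarith [ht.1], by linarith [ht.2]⟩ (by
        rw [Real.dist_eq, abs_lt]; constructor <;> linarith [ht.1, ht.2])
      rw [Real.dist_eq, abs_lt] at this
      linarith [this.2]
    rw [intervalIntegral.integral_const, smul_eq_mul] at this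
    have e : a + 2 * Real.pi / n - a = 2 * Real.pi / n := by ring
    rw [e] at this
    nlinarith
  have hs := Finset.sum_le_sum key
  rw [Finset.sum_add_distrib, intervalIntegral.sum_integral_adjacent_intervals
    (f := g) (a := fun m : ℕ => 2 * Real.pi * (m : ℝ) / n) (fun k _ => hg.intervalIntegrable _ _)] at hs
  rw [← Finset.mul_sum, Finset.sum_const, Finset.card_range, nsmul_eq_mul] at hs
  simp only [Nat.cast_zero, mul_zero, zero_div] at hs
  have e2 : 2 * Real.pi * (n : ℝ) / n = 2 * Real.pi := by field_simp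
  rw [e2] at hs
  rw [Fin.sum_univ_eq_sum_range (fun m => g (2 * Real.pi * (m : ℝ) / n)) n]
  set S := ∑ m ∈ Finset.range n, g (2 * Real.pi * (m : ℝ) / n)
  set J := ∫ t in (0 : ℝ)..(2 * Real.pi), g t
  have h3 : 2 * Real.pi / n * S ≤ J + 2 * Real.pi * ε := by
    have : (n : ℝ) * (2 * Real.pi / n * ε) = 2 * Real.pi * ε := by field_simp
    linarith
  calc 1 / (n : ℝ) * S = (1 / (2 * Real.pi)) * (2 * Real.pi / n * S) := by field_simp
    _ ≤ (1 / (2 * Real.pi)) * (J + 2 * Real.pi * ε) := by gcongr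
    _ = (1 / (2 * Real.pi)) * J + ε := by field_simp


section Toeplitz
open Matrix

variable {n d : ℕ}

/-- vector polynomial -/
noncomputable def vp (f : Fin n × Fin d → ℂ) (t : ℝ) : Fin d → ℂ := fun a =>
  ∑ k : Fin n, Complex.exp (Complex.I * ((k : ℕ) : ℂ) * t) * f (k, a)

lemma vp_cont (f : Fin n × Fin d → ℂ) : Continuous (vp f) := by
  unfold vp; fun_prop

lemma Wcont {W : ℝ → Matrix (Fin d) (Fin d) ℂ} (hW : Continuous W) (a b : Fin d) :
    Continuous fun t => W t a b := by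
  exact (continuous_apply b).comp ((continuous_apply a).comp hW)

lemma alg (g : Fin n × Fin d → ℂ) (M : Matrix (Fin d) (Fin d) ℂ) :
    (star (fun a => ∑ j : Fin n, g (j, a)) ⬝ᵥ (M *ᵥ (fun a => ∑ j : Fin n, g (j, a)))) =
      ∑ p : Fin n × Fin d, ∑ q : Fin n × Fin d, star (g p) * (M p.2 q.2 * g q) := by
  rw [Fintype.sum_prod_type_right]
  simp only [Fintype.sum_prod_type_right, dotProduct, mulVec, Pi.star_apply, star_sum, Finset.sum_mul, Finset.mul_sum]
  refine Finset.sum_congr rfl fun x _ => ?_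
  rw [Finset.sum_comm (s := (Finset.univ : Finset (Fin n)))]
  refine Finset.sum_congr rfl fun b _ => ?_
  rw [Finset.sum_comm]

lemma alg2 (f : Fin n × Fin d → ℂ) (M : Matrix (Fin d) (Fin d) ℂ) (t : ℝ) :
    (star (vp f t) ⬝ᵥ (M *ᵥ vp f t)) = ∑ p : Fin n × Fin d, ∑ q : Fin n × Fin d,
      (star (f p) * f q) * (M p.2 q.2 * Complex.exp (Complex.I * (((q.1 : ℕ) : ℂ) - ((p.1 : ℕ) : ℂ)) * t)) := by
  have h := alg (fun p : Fin n × Fin d => Complex.exp (Complex.I * ((p.1 : ℕ) : ℂ) * t) * f p) M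
  change (star (vp f t) ⬝ᵥ (M *ᵥ vp f t)) = _ at h
  rw [h]
  refine Finset.sum_congr rfl fun p _ => Finset.sum_congr rfl fun q _ => ?_
  rw [star_mul', show star (Complex.exp (Complex.I * ((p.1 : ℕ) : ℂ) * t)) = Complex.exp (-(Complex.I * ((p.1 : ℕ) : ℂ) * t)) from conj_exp _ _]
  rw [show Complex.I * (((q.1 : ℕ) : ℂ) - ((p.1 : ℕ) : ℂ)) * t = -(Complex.I * ((p.1 : ℕ) : ℂ) * t) + Complex.I * ((q.1 : ℕ) : ℂ) * t by ring, Complex.exp_add]
  ring

lemma quad {W : ℝ → Matrix (Fin d) (Fin d) ℂ} (hW : Continuous W) (f : Fin n × Fin d → ℂ) :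
    star f ⬝ᵥ (Toep n d W *ᵥ f) = (1 / (2 * Real.pi) : ℂ) * ∫ t in (0 : ℝ)..(2 * Real.pi),
      (star (vp f t) ⬝ᵥ (W t *ᵥ vp f t)) := by
  simp_rw [alg2]
  have hc : ∀ p q : Fin n × Fin d, Continuous fun t : ℝ => (star (f p) * f q) * (W t p.2 q.2 * Complex.exp (Complex.I * (((q.1 : ℕ) : ℂ) - ((p.1 : ℕ) : ℂ)) * t)) := by
    intro p q
    have := Wcont hW p.2 q.2
    fun_prop
  rw [intervalIntegral.integral_finsetSum (fun p _ => (continuous_finsetSum _ fun q _ => hc p q).intervalIntegrable _ _)]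
  simp_rw [fun p => intervalIntegral.integral_finsetSum (μ := volume) (a := (0 : ℝ)) (b := 2 * Real.pi) (s := (Finset.univ : Finset (Fin n × Fin d)))
    (f := fun q (t : ℝ) => (star (f p) * f q) * (W t p.2 q.2 * Complex.exp (Complex.I * (((q.1 : ℕ) : ℂ) - ((p.1 : ℕ) : ℂ)) * t)))
    (fun q _ => (hc p q).intervalIntegrable _ _), intervalIntegral.integral_const_mul]
  simp only [dotProduct, mulVec, Toep, Matrix.of_apply, Pi.star_apply, Finset.mul_sum]
  refine Finset.sum_congr rfl fun p _ => Finset.sum_congr rfl fun q _ => ?_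
  ring

lemma herm {W : ℝ → Matrix (Fin d) (Fin d) ℂ} (hP : ∀ t, (W t).PosDef) : (Toep n d W).IsHermitian := by
  ext p q
  simp only [Matrix.conjTranspose_apply, Toep, Matrix.of_apply]
  change (starRingEnd ℂ) _ = _
  rw [map_mul, ← intervalIntegral_conj]
  congr 1
  · rw [map_div₀, map_mul, map_one, Complex.conj_ofReal]
    congr 2
    exact map_ofNat _ 2
  · refine intervalIntegral.integral_congr fun t _ => ?_
    have h1 : (starRingEnd ℂ) (W t q.2 p.2) = W t p.2 q.2 := (hP t).isHermitian.apply p.2 q.2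
    simp only [map_mul, h1]
    congr 1
    rw [← Complex.exp_conj]
    congr 1
    simp [Complex.conj_ofReal]
    ring

lemma vp_ne {f : Fin n × Fin d → ℂ} (hf : f ≠ 0) : ∃ t ∈ Icc (0 : ℝ) (2 * Real.pi), vp f t ≠ 0 := by
  by_contra hcon
  push Not at hcon
  apply hf
  funext p
  obtain ⟨k, a⟩ := p
  have h0 : (∫ t in (0 : ℝ)..(2 * Real.pi), Complex.exp (-(Complex.I * ((k : ℕ) : ℂ) * t)) * vp f t a) = 0 := by
    rw [intervalIntegral.integral_congr (g := fun _ => (0 : ℂ))]
    · simp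
    · intro t ht
      rw [uIcc_of_le (by positivity)] at ht
      simp [hcon t ht]
  have h1 : ∀ t : ℝ, Complex.exp (-(Complex.I * ((k : ℕ) : ℂ) * t)) * vp f t a =
      ∑ j : Fin n, f (j, a) * Complex.exp (Complex.I * (((((j : ℕ) : ℤ) - ((k : ℕ) : ℤ) : ℤ)) : ℂ) * t) := by
    intro t
    unfold vp
    rw [Finset.mul_sum]
    refine Finset.sum_congr rfl fun j _ => ?_
    rw [← mul_assoc, ← Complex.exp_add, mul_comm]
    congr 2
    push_cast; ring
  simp_rw [h1] at h0
  rw [intervalIntegral.integral_finsetSum (fun j _ => (by fun_prop : Continuous _).intervalIntegrable _ _)] at h0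
  simp_rw [intervalIntegral.integral_const_mul, orth] at h0
  have h2 : ∀ j : Fin n, f (j, a) * (if ((j : ℕ) : ℤ) - ((k : ℕ) : ℤ) = 0 then (2 * Real.pi : ℂ) else 0) =
      if j = k then f (j, a) * (2 * Real.pi) else 0 := by
    intro j
    by_cases h : j = k
    · simp [h]
    · have : ¬ (((j : ℕ) : ℤ) - ((k : ℕ) : ℤ) = 0) := by
        rw [sub_eq_zero]; intro h'; exact h (Fin.ext (by exact_mod_cast h'))
      simp [h, this]
  simp_rw [h2] at h0
  simp at h0
  simpa using h0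

lemma toep_posDef {W : ℝ → Matrix (Fin d) (Fin d) ℂ} (hW : Continuous W) (hP : ∀ t, (W t).PosDef) :
    (Toep n d W).PosDef := by
  refine Matrix.PosDef.of_dotProduct_mulVec_pos (herm hP) fun f hf => ?_
  rw [quad hW]
  have hq : ∀ t, 0 ≤ (star (vp f t) ⬝ᵥ (W t *ᵥ vp f t)) := fun t => (hP t).posSemidef.dotProduct_mulVec_nonneg _
  have hre : ∀ t, (star (vp f t) ⬝ᵥ (W t *ᵥ vp f t)) = (((star (vp f t) ⬝ᵥ (W t *ᵥ vp f t)).re : ℝ) : ℂ) := by
    intro t
    have := hq t
    rw [Complex.le_def] at this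
    exact Complex.ext (by simp) (by simpa using this.2.symm)
  have hcont : Continuous fun t => (star (vp f t) ⬝ᵥ (W t *ᵥ vp f t)).re := by
    have h1 := vp_cont f
    have : Continuous fun t => (star (vp f t) ⬝ᵥ (W t *ᵥ vp f t)) :=
      (h1.star).dotProduct (hW.matrix_mulVec h1)
    exact Complex.continuous_re.comp this
  obtain ⟨t0, ht0, hne⟩ := vp_ne hf
  have hpos : 0 < ∫ t in (0 : ℝ)..(2 * Real.pi), (star (vp f t) ⬝ᵥ (W t *ᵥ vp f t)).re := by
    refine intervalIntegral.integral_pos (by positivity) hcont.continuousOn (fun t _ => ?_) ⟨t0, ht0, ?_⟩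
    · have := hq t
      rw [Complex.le_def] at this
      exact this.1
    · have := (hP t0).dotProduct_mulVec_pos hne
      rw [Complex.lt_def] at this
      exact this.1
  have e : (∫ t in (0 : ℝ)..(2 * Real.pi), (star (vp f t) ⬝ᵥ (W t *ᵥ vp f t))) =
      ((∫ t in (0 : ℝ)..(2 * Real.pi), (star (vp f t) ⬝ᵥ (W t *ᵥ vp f t)).re : ℝ) : ℂ) := by
    rw [← intervalIntegral.integral_ofReal]
    exact intervalIntegral.integral_congr fun t _ => hre t
  rw [e]
  have : (1 / (2 * Real.pi) : ℂ) * ((∫ t in (0 : ℝ)..(2 * Real.pi), (star (vp f t) ⬝ᵥ (W t *ᵥ vp f t)).re : ℝ) : ℂ) =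
      (((1 / (2 * Real.pi)) * (∫ t in (0 : ℝ)..(2 * Real.pi), (star (vp f t) ⬝ᵥ (W t *ᵥ vp f t)).re) : ℝ) : ℂ) := by
    push_cast; ring
  rw [this]
  have h3 : (0 : ℝ) < (1 / (2 * Real.pi)) * (∫ t in (0 : ℝ)..(2 * Real.pi), (star (vp f t) ⬝ᵥ (W t *ᵥ vp f t)).re) := by
    positivity
  exact_mod_cast h3

end Toeplitz


section Main
open Matrix
open scoped Kronecker

variable {n d : ℕ}

noncomputable def om (n : ℕ) (m : Fin n) : ℝ := 2 * Real.pi * (m : ℕ) / n

/-- DFT matrix -/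
noncomputable def U (n : ℕ) : Matrix (Fin n) (Fin n) ℂ := Matrix.of fun j m =>
  ((1 / Real.sqrt n : ℝ) : ℂ) * Complex.exp (-(Complex.I * ((j : ℕ) : ℂ) * (om n m : ℂ)))

lemma sq_inv (_hn : 1 ≤ n) : ((1 / Real.sqrt n : ℝ) : ℂ) * ((1 / Real.sqrt n : ℝ) : ℂ) = 1 / (n : ℂ) := by
  rw [← Complex.ofReal_mul, div_mul_div_comm, one_mul, Real.mul_self_sqrt (Nat.cast_nonneg n)]
  push_cast; rfl

lemma conjU (j m : Fin n) : (starRingEnd ℂ) (U n j m) =
    ((1 / Real.sqrt n : ℝ) : ℂ) * Complex.exp (Complex.I * ((j : ℕ) : ℂ) * (om n m : ℂ)) := by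
  simp only [U, Matrix.of_apply, map_mul, Complex.conj_ofReal]
  congr 1
  rw [← Complex.exp_conj]; congr 1; simp [Complex.conj_ofReal]

lemma UU (hn : 1 ≤ n) : (U n)ᴴ * U n = 1 := by
  have hn0 : (n : ℂ) ≠ 0 := by exact_mod_cast (by omega : n ≠ 0)
  ext m m'
  rw [Matrix.mul_apply]
  have h1 : ∀ j : Fin n, (U n)ᴴ m j * U n j m' = (1 / (n : ℂ)) *
      Complex.exp (Complex.I * ((om n m : ℂ) - (om n m' : ℂ))) ^ (j : ℕ) := by
    intro j
    rw [Matrix.conjTranspose_apply]
    change (starRingEnd ℂ) (U n j m) * _ = _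
    rw [conjU, U, Matrix.of_apply, ← Complex.exp_nat_mul]
    rw [show ∀ a b c : ℂ, a * b * (a * c) = a * a * (b * c) from fun a b c => by ring, sq_inv hn, ← Complex.exp_add]
    congr 2; ring
  simp_rw [h1]
  rw [← Finset.mul_sum, Fin.sum_univ_eq_sum_range (fun j => Complex.exp (Complex.I * ((om n m : ℂ) - (om n m' : ℂ))) ^ j) n]
  by_cases h : m = m'
  · subst h
    simp [hn0]
  · rw [Matrix.one_apply_ne h]
    have hz1 : Complex.exp (Complex.I * ((om n m : ℂ) - (om n m' : ℂ))) ^ n = 1 := by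
      rw [← Complex.exp_nat_mul, Complex.exp_eq_one_iff]
      refine ⟨((m : ℕ) : ℤ) - ((m' : ℕ) : ℤ), ?_⟩
      unfold om; push_cast; field_simp
    have hz : Complex.exp (Complex.I * ((om n m : ℂ) - (om n m' : ℂ))) ≠ 1 := by
      intro he
      obtain ⟨k, hk⟩ := Complex.exp_eq_one_iff.1 he
      have h2 : om n m - om n m' = k * (2 * Real.pi) := by
        have := congrArg Complex.im hk
        simpa using this
      have hn1 : (n : ℝ) ≠ 0 := by exact_mod_cast (by omega : n ≠ 0)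
      have h3 : ((m : ℕ) : ℝ) - ((m' : ℕ) : ℝ) = k * n := by
        unfold om at h2
        have hpi := Real.pi_pos
        field_simp at h2
        nlinarith
      have h4 : (((m : ℕ) : ℤ)) - ((m' : ℕ) : ℤ) = k * n := by exact_mod_cast h3
      have a1 := m.2
      have a2 := m'.2
      have hk0 : k = 0 := by
        by_contra hk0
        rcases lt_or_gt_of_ne hk0 with hk1 | hk1
        · have : k ≤ -1 := by omega
          nlinarith
        · have : 1 ≤ k := by omega
          nlinarith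
      rw [hk0] at h4
      exact h (Fin.ext (by omega))
    have h5 := geom_sum_mul_neg (Complex.exp (Complex.I * ((om n m : ℂ) - (om n m' : ℂ)))) n
    rw [hz1, sub_self, mul_eq_zero] at h5
    rcases h5 with h5 | h5
    · rw [h5, mul_zero]
    · exact absurd (sub_eq_zero.1 h5).symm hz

/-- block DFT -/
noncomputable def V (n d : ℕ) : Matrix (Fin n × Fin d) (Fin n × Fin d) ℂ := U n ⊗ₖ (1 : Matrix (Fin d) (Fin d) ℂ)

lemma VV (hn : 1 ≤ n) : (V n d)ᴴ * V n d = 1 := by
  unfold V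
  rw [Matrix.conjTranspose_kronecker, ← Matrix.mul_kronecker_mul, UU hn]
  simp

lemma entry {W : ℝ → Matrix (Fin d) (Fin d) ℂ} (hn : 1 ≤ n) (hW : Continuous W) (m : Fin n) (a b : Fin d) :
    ((V n d)ᴴ * Toep n d W * V n d) (m, a) (m, b) =
      (1 / (2 * Real.pi) : ℂ) * ∫ t in (0 : ℝ)..(2 * Real.pi), W t a b * (ker n (t - om n m) : ℂ) := by
  have h1 : ((V n d)ᴴ * Toep n d W * V n d) (m, a) (m, b) =
      ∑ k : Fin n, ∑ j : Fin n, (starRingEnd ℂ) (U n j m) * Toep n d W (j, a) (k, b) * U n k m := by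
    rw [Matrix.mul_apply, Fintype.sum_prod_type]
    refine Finset.sum_congr rfl fun k _ => ?_
    rw [Finset.sum_eq_single b]
    · rw [Matrix.mul_apply, Fintype.sum_prod_type, Finset.sum_mul]
      refine Finset.sum_congr rfl fun j _ => ?_
      rw [Finset.sum_eq_single a]
      · simp [V, Matrix.conjTranspose_apply, Matrix.kroneckerMap_apply]
      · intro c _ hc
        simp [V, Matrix.conjTranspose_apply, Matrix.kroneckerMap_apply, Matrix.one_apply, hc]
      · simp
    · intro c _ hc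
      simp [V, Matrix.kroneckerMap_apply, Matrix.one_apply, hc]
    · simp
  have hWab := Wcont hW a b
  have h2 : ∀ t : ℝ, W t a b * (ker n (t - om n m) : ℂ) = ∑ k : Fin n, ∑ j : Fin n,
      ((starRingEnd ℂ) (U n j m) * U n k m) * (W t a b * Complex.exp (Complex.I * (((k : ℕ) : ℂ) - ((j : ℕ) : ℂ)) * t)) := by
    intro t
    rw [kerC, Finset.sum_comm, Finset.mul_sum, Finset.mul_sum]
    refine Finset.sum_congr rfl fun k _ => ?_
    rw [Finset.mul_sum, Finset.mul_sum]
    refine Finset.sum_congr rfl fun j _ => ?_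
    rw [conjU, U, Matrix.of_apply]
    rw [show ∀ a b c e : ℂ, a * b * (a * c) * e = a * a * ((b * c) * e) from fun a b c e => by ring, sq_inv hn, ← Complex.exp_add]
    have : Complex.exp (Complex.I * (((k : ℕ) : ℂ) - ((j : ℕ) : ℂ)) * ((t - om n m : ℝ) : ℂ)) =
        Complex.exp (Complex.I * ((j : ℕ) : ℂ) * (om n m : ℂ) + -(Complex.I * ((k : ℕ) : ℂ) * (om n m : ℂ))) *
        Complex.exp (Complex.I * (((k : ℕ) : ℂ) - ((j : ℕ) : ℂ)) * t) := by
      rw [← Complex.exp_add]; congr 1; push_cast; ring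
    rw [this]; ring
  have hc : ∀ k j : Fin n, Continuous fun t : ℝ => ((starRingEnd ℂ) (U n j m) * U n k m) *
      (W t a b * Complex.exp (Complex.I * (((k : ℕ) : ℂ) - ((j : ℕ) : ℂ)) * t)) := by
    intro k j; fun_prop
  rw [h1]
  simp_rw [h2]
  rw [intervalIntegral.integral_finsetSum (fun k _ => (continuous_finsetSum _ fun j _ => hc k j).intervalIntegrable _ _), Finset.mul_sum]
  refine Finset.sum_congr rfl fun k _ => ?_
  rw [intervalIntegral.integral_finsetSum (fun j _ => (hc k j).intervalIntegrable _ _), Finset.mul_sum]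
  refine Finset.sum_congr rfl fun j _ => ?_
  rw [intervalIntegral.integral_const_mul]
  simp only [Toep, Matrix.of_apply]
  ring

lemma detclose (W : ℝ → Matrix (Fin d) (Fin d) ℂ) (hW : Continuous W)
    (hp : ∀ t, W (t + 2 * Real.pi) = W t) {ε : ℝ} (hε : 0 < ε) :
    ∃ η > 0, ∀ (t : ℝ) (B : Matrix (Fin d) (Fin d) ℂ), (∀ a b, ‖B a b - W t a b‖ ≤ η) →
      B.det.re ≤ (W t).det.re + ε := by
  -- uniform bound of the entries
  have hb : ∀ a b, ∃ M : ℝ, 0 ≤ M ∧ ∀ t, ‖W t a b‖ ≤ M := fun a b =>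
    bdd (Wcont hW a b) (fun t => by rw [hp])
  choose M hM0 hM using hb
  set R : ℝ := ∑ a, ∑ b, M a b
  have hMR : ∀ a b, M a b ≤ R := fun a b =>
    (Finset.single_le_sum (f := fun b => M a b) (fun b _ => hM0 a b) (Finset.mem_univ b)).trans
      (Finset.single_le_sum (f := fun a => ∑ b, M a b) (fun a _ => Finset.sum_nonneg fun b _ => hM0 a b) (Finset.mem_univ a))
  set K : Set (Fin d → Fin d → ℂ) := Set.pi univ fun _ => Set.pi univ fun _ => closedBall (0 : ℂ) (R + 1)
  have hK : IsCompact K := isCompact_univ_pi fun _ => isCompact_univ_pi fun _ => isCompact_closedBall _ _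
  have hD : Continuous fun N : Fin d → Fin d → ℂ => (Matrix.det (Matrix.of N)).re := by
    have : Continuous fun N : Fin d → Fin d → ℂ => (Matrix.of N : Matrix (Fin d) (Fin d) ℂ) := continuous_id
    exact Complex.continuous_re.comp this.matrix_det
  have hu := hK.uniformContinuousOn_of_continuous hD.continuousOn
  rw [Metric.uniformContinuousOn_iff] at hu
  obtain ⟨δ, hδ, h⟩ := hu ε hε
  refine ⟨min (δ / 2) 1, lt_min (by positivity) one_pos, fun t B hB => ?_⟩
  have hWm : (fun a b => W t a b) ∈ K := by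
    intro a _ b _
    rw [mem_closedBall_zero_iff]
    linarith [hM a b t, hMR a b]
  have hBm : (fun a b => B a b) ∈ K := by
    intro a _ b _
    rw [mem_closedBall_zero_iff]
    have h1 : ‖B a b‖ ≤ ‖B a b - W t a b‖ + ‖W t a b‖ := by
      calc ‖B a b‖ = ‖(B a b - W t a b) + W t a b‖ := by rw [sub_add_cancel]
        _ ≤ _ := norm_add_le _ _
    linarith [hM a b t, hMR a b, (hB a b).trans (min_le_right _ _)]
  have hd : dist (fun a b => B a b) (fun a b => W t a b) < δ := by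
    have : dist (fun a b => B a b) (fun a b => W t a b) ≤ δ / 2 := by
      rw [dist_pi_le_iff (by positivity)]
      intro a
      rw [dist_pi_le_iff (by positivity)]
      intro b
      rw [dist_eq_norm]
      exact (hB a b).trans (min_le_left _ _)
    linarith
  have := h _ hBm _ hWm hd
  rw [Real.dist_eq, abs_lt] at this
  have e1 : (Matrix.of fun a b => B a b) = B := rfl
  have e2 : (Matrix.of fun a b => W t a b) = W t := rfl
  rw [e1, e2] at this
  linarith [this.2]

theorem t (hF : Pool.Agent.H53M.FIS) : Pool.Agent.H53M.TOE := by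
  intro d W hW hp hP ε hε
  have hpi := Real.pi_pos
  have hgc : Continuous fun t => (W t).det.re := Complex.continuous_re.comp hW.matrix_det
  have hpos : ∀ t, 0 < (W t).det.re := fun t => by
    have := (hP t).det_pos
    rw [Complex.lt_def] at this; exact this.1
  -- lower bound for the determinant
  obtain ⟨c, hc, hcl⟩ : ∃ c > 0, ∀ t, c ≤ (W t).det.re := by
    obtain ⟨x, hx, hm⟩ := (isCompact_Icc (a := (0 : ℝ)) (b := 2 * Real.pi)).exists_isMinOn
      ⟨0, le_rfl, by positivity⟩ hgc.continuousOn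
    refine ⟨_, hpos x, fun t => ?_⟩
    have hP' : Function.Periodic (fun t => (W t).det.re) (2 * Real.pi) := fun t => by simp only [hp t]
    obtain ⟨y, hy, e⟩ := hP'.exists_mem_Ico₀ (by positivity) t
    rw [show (W t).det.re = (W y).det.re from e]
    exact hm ⟨hy.1, hy.2.le⟩
  obtain ⟨η, hη, hdc⟩ := detclose W hW hp (show 0 < c * (ε / 2) by positivity)
  -- Fejér
  have hfj : ∀ ab : Fin d × Fin d, ∃ N : ℕ, ∀ n ≥ N, 1 ≤ n → ∀ ω : ℝ,
      ‖(1 / (2 * Real.pi) : ℂ) * (∫ t in (0 : ℝ)..(2 * Real.pi), W t ab.1 ab.2 * (ker n (t - ω) : ℂ)) - W ω ab.1 ab.2‖ ≤ η :=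
    fun ab => fejer (Wcont hW ab.1 ab.2) (fun t => by rw [hp]) hη
  choose N0 hN0 using hfj
  have hlog : Continuous fun t => Real.log ((W t).det.re) := hgc.log fun t => (hpos t).ne'
  obtain ⟨N1, hN1⟩ := riemann hlog (half_pos hε)
  refine ⟨(∑ ab, N0 ab) + N1, fun n hn h1 => ⟨toep_posDef hW hP, ?_⟩⟩
  have hT := toep_posDef (n := n) hW hP
  set T' := (V n d)ᴴ * Toep n d W * V n d with hT'
  have hinj : Function.Injective (V n d).mulVec := by
    intro x y hxy
    have := congrArg ((V n d)ᴴ).mulVec hxy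
    simpa [Matrix.mulVec_mulVec, VV h1] using this
  have hTp : T'.PosDef := hT.conjTranspose_mul_mul_same hinj
  have hdet : T'.det = (Toep n d W).det := by
    rw [hT', Matrix.det_mul, Matrix.det_mul, mul_right_comm, ← Matrix.det_mul, VV h1, Matrix.det_one, one_mul]
  have hfis := hF n d T' hTp
  rw [hdet] at hfis
  have hTpos : 0 < (Toep n d W).det.re := by
    have := hT.det_pos
    rw [Complex.lt_def] at this; exact this.1
  set B : Fin n → Matrix (Fin d) (Fin d) ℂ := fun k => Matrix.of fun i j => T' (k, i) (k, j) with hB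
  have hBp : ∀ k, 0 < (B k).det.re := by
    intro k
    have : (B k).PosDef := hTp.submatrix (e := fun i : Fin d => (k, i)) (fun i j h => (Prod.mk.inj h).2)
    have := this.det_pos
    rw [Complex.lt_def] at this; exact this.1
  have hBl : ∀ k, Real.log (B k).det.re ≤ Real.log ((W (om n k)).det.re) + ε / 2 := by
    intro k
    have h2 : (B k).det.re ≤ (W (om n k)).det.re + c * (ε / 2) := by
      refine hdc _ _ fun a b => ?_
      simp only [hB, Matrix.of_apply, hT', entry h1 hW]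
      refine hN0 (a, b) n ?_ h1 _
      have : N0 (a, b) ≤ ∑ ab, N0 ab := Finset.single_le_sum (f := N0) (fun _ _ => Nat.zero_le _) (Finset.mem_univ _)
      omega
    have h3 : (W (om n k)).det.re + c * (ε / 2) ≤ (W (om n k)).det.re * (1 + ε / 2) := by
      nlinarith [hcl (om n k)]
    calc Real.log (B k).det.re ≤ Real.log ((W (om n k)).det.re * (1 + ε / 2)) := Real.log_le_log (hBp k) (h2.trans h3)
      _ = Real.log ((W (om n k)).det.re) + Real.log (1 + ε / 2) := Real.log_mul (hpos _).ne' (by positivity)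
      _ ≤ _ := by
        have := Real.log_le_sub_one_of_pos (show 0 < 1 + ε / 2 by positivity)
        linarith
  have h4 : Real.log ((Toep n d W).det.re) ≤ ∑ k : Fin n, (Real.log ((W (om n k)).det.re) + ε / 2) := by
    calc Real.log ((Toep n d W).det.re) ≤ Real.log (∏ k : Fin n, (B k).det.re) := Real.log_le_log hTpos hfis
      _ = ∑ k : Fin n, Real.log (B k).det.re := Real.log_prod (fun k _ => (hBp k).ne')
      _ ≤ _ := Finset.sum_le_sum fun k _ => hBl k
  have hn0 : (0 : ℝ) < n := by exact_mod_cast h1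
  rw [Finset.sum_add_distrib, Finset.sum_const, Finset.card_univ, Fintype.card_fin, nsmul_eq_mul] at h4
  have h5 := hN1 n (by omega) h1
  calc (1 / (n : ℝ)) * Real.log ((Toep n d W).det.re)
      ≤ (1 / (n : ℝ)) * ((∑ k : Fin n, Real.log ((W (om n k)).det.re)) + n * (ε / 2)) := by gcongr
    _ = (1 / (n : ℝ)) * (∑ k : Fin n, Real.log ((W (om n k)).det.re)) + ε / 2 := by field_simp
    _ ≤ (1 / (2 * Real.pi)) * (∫ t in (0 : ℝ)..(2 * Real.pi), Real.log ((W t).det.re)) + ε / 2 + ε / 2 := by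
        have : (1 / (n : ℝ)) * (∑ k : Fin n, Real.log ((W (om n k)).det.re)) ≤ _ := h5
        linarith
    _ = _ := by ring

end Main

end Pool.Agent.H53M.TOE
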