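import Mathlib
import Pool.Agent.H53M.Stm
import Pool.Agent.H53M.HES
import Pool.Agent.H53M.MXL
import Pool.Agent.H53M.IBT
import Pool.Agent.H805R2.PartM

/-!
# Stub UPG: weighted comparison of the mass of an admissible function with that of `u ∈ E₀`
-/

set_option autoImplicit false
set_option maxHeartbeats 1000000

open MeasureTheory Metric Set Filter Topology
open scoped ContDiff ComplexOrder

namespace Pool.Agent.H53M.UPG

open Pool.Agent.H53M Pool.Agent.H805R2

lemma Om_open : IsOpen Om := IBT.Om_open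

lemma Om_meas : MeasurableSet Om := Om_open.measurableSet

lemma Om_bdd : Bornology.IsBounded Om := by
  apply (isBounded_closedBall (x := (0 : C2)) (r := 2)).subset
  intro z hz
  rw [mem_closedBall_zero_iff, EuclideanSpace.norm_eq, Fin.sum_univ_two]
  have h0 : ‖z 0‖ ^ 2 ≤ 1 := by
    have := hz.1
    have h := norm_nonneg (z 0)
    nlinarith
  have h1 : ‖z 1‖ ^ 2 ≤ 1 := by
    have := hz.2
    have h := norm_nonneg (z 1)
    nlinarith
  rw [Real.sqrt_le_left (by norm_num)]
  linarith

/-- the Hessian of `B ρ` -/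
lemma hess_Brho {ρ : C2 → ℝ} (hρ : SP ρ) (B : ℝ) {z : C2} (hz : z ∈ Om) :
    hess (fun w => B * ρ w) z = (B : ℂ) • hess ρ z :=
  HES.t.2.1 ρ B z (hρ.1.contDiffAt (Om_open.mem_nhds hz))

lemma maDensity_Brho {ρ : C2 → ℝ} (hρ : SP ρ) (B : ℝ) {z : C2} (hz : z ∈ Om) :
    maDensity (fun w => B * ρ w) z = B ^ 2 * maDensity ρ z := by
  unfold maDensity
  rw [hess_Brho hρ B hz, Matrix.det_smul, Fintype.card_fin, ← Complex.ofReal_pow, Complex.re_ofReal_mul]
  ring

/-- `B ρ` is admissible -/
lemma adm_Brho {ρ : C2 → ℝ} (hρ : Rho ρ) {B : ℝ} (hB : 0 < B) : Adm ρ B (fun z => B * ρ z) where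
  sp := by
    refine ⟨contDiffOn_const.mul hρ.sp.1, fun z hz => ?_⟩
    rw [hess_Brho hρ.sp B hz]
    exact (hρ.sp.2 z hz).smul (by exact_mod_cast hB.le)
  nonpos := fun z hz => by
    have := hρ.neg z hz
    nlinarith
  ge := fun z _ => le_refl _
  germ := ⟨∅, isCompact_empty, empty_subset _, fun _ _ _ => rfl⟩

/-- `maDensity` of an admissible function vanishes off the compact sets -/
lemma ma_off {ρ a : C2 → ℝ} {B : ℝ} (hρ : SP ρ) {K : Set C2} (hK : IsCompact K)
    (h1 : ∀ z ∈ Om, z ∉ K → a z = B * ρ z) {z : C2} (hz : z ∈ Om) (hzK : z ∉ K)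
    (h2 : (hess ρ z).det = 0) : maDensity a z = 0 := by
  have hn : Om ∩ Kᶜ ∈ 𝓝 z := (Om_open.inter hK.isClosed.isOpen_compl).mem_nhds ⟨hz, hzK⟩
  have e : a =ᶠ[𝓝 z] fun w => B * ρ w := by
    filter_upwards [hn] with w hw
    exact h1 w hw.1 hw.2
  have e2 : maDensity a z = maDensity (fun w => B * ρ w) z := by
    unfold maDensity
    rw [hess_congr e]
  rw [e2, maDensity_Brho hρ B hz]
  unfold maDensity
  rw [h2]
  simp

theorem t (hS : Pool.Agent.H53M.STK) : Pool.Agent.H53M.UPG := by
  intro ρ a u ψ ν B η lam om C hρ hB ha hu hη hua hlam hom hlow hC hψ hψb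
  have hpi := Real.pi_pos
  obtain ⟨hPSH, -, hu0, hubd, hMA, hνfin⟩ := hu
  have hlam0 : 0 < lam := by linarith
  -- compact sets
  obtain ⟨K1, hK1, hK1Om, hK1θ⟩ := bdry_compact Om_open Om_bdd hubd (3 * η / (4 * lam)) (by positivity)
  obtain ⟨K2, hK2, hK2Om, hK2g⟩ := ha.germ
  obtain ⟨K3, hK3, hK3Om, hK3m⟩ := hρ.ma0
  set Kc : Set C2 := K1 ∪ (K2 ∪ K3) with hKcdef
  have hKc : IsCompact Kc := hK1.union (hK2.union hK3)
  have hKcOm : Kc ⊆ Om := union_subset hK1Om (union_subset hK2Om hK3Om)
  have hoffa : ∀ z ∈ Om, z ∉ Kc → maDensity a z = 0 := by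
    intro z hz hzK
    exact ma_off hρ.sp hK2 hK2g hz (fun h => hzK (Or.inr (Or.inl h)))
      (hK3m z hz (fun h => hzK (Or.inr (Or.inr h))))
  -- cutoff
  obtain ⟨K', hK', hKcK', hK'Om⟩ := exists_compact_between hKc Om_open hKcOm
  obtain ⟨κ, hκs, hκc, hκOm, hκ1, hκ01⟩ := cutoff hK' Om_open hK'Om
  have hκ0 : ∀ z, z ∉ Om → κ z = 0 := fun z hz => image_eq_zero_of_notMem_tsupport (fun h => hz (hκOm h))
  have near : ∀ (f : C2 → ℝ) (z : C2), z ∈ Kc → (fun z => κ z * f z) =ᶠ[𝓝 z] f := by
    intro f z hz
    filter_upwards [isOpen_interior.mem_nhds (hKcK' hz)] with w hw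
    rw [hκ1 w (interior_subset hw), one_mul]
  set a' : C2 → ℝ := fun z => κ z * a z with ha'def
  set ψ' : C2 → ℝ := fun z => κ z * ψ z with hψ'def
  have ha's : ContDiff ℝ ∞ a' := cutoff_mul_smooth Om_open hκs ha.sp.1 hκOm
  have hψ's : ContDiff ℝ ∞ ψ' := cutoff_mul_smooth Om_open hκs hψ.1 hκOm
  have ha'0 : ∀ z, a' z ≤ 0 := by
    intro z
    by_cases hz : z ∈ Om
    · exact mul_nonpos_of_nonneg_of_nonpos (hκ01 z).1 (ha.nonpos z hz)
    · simp [ha'def, hκ0 z hz]
  have hψ'0 : ∀ z, ψ' z ≤ 0 := by
    intro z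
    by_cases hz : z ∈ Om
    · exact mul_nonpos_of_nonneg_of_nonpos (hκ01 z).1 (hψb z hz).1
    · simp [hψ'def, hκ0 z hz]
  have hha' : ∀ z ∈ Kc, hess a' z = hess a z := fun z hz => hess_congr (near a z hz)
  have hhψ' : ∀ z ∈ Kc, hess ψ' z = hess ψ z := fun z hz => hess_congr (near ψ z hz)
  have ea' : ∀ z ∈ Kc, a' z = a z := fun z hz => (near a z hz).eq_of_nhds
  have eψ' : ∀ z ∈ Kc, ψ' z = ψ z := fun z hz => (near ψ z hz).eq_of_nhds
  -- approximants
  obtain ⟨U, v, hU, hKU, hUOm, hvs, hvc, hvp, hvout, hvge, hvlt, hvanti, hvlim, hvconv⟩ :=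
    extract Om_open hMA hu0 hKc hKcOm
  obtain ⟨χ1, hχs, hχc, hχU, hχ1, hχ01⟩ := cutoff hKc hU hKU
  obtain ⟨l0, hl0⟩ := dini_lt v u (fun z => a' z + 2 * η) hKc (fun k => (hvs k).continuous.continuousOn)
    (fun z hz => hvanti z (hKU hz)) (fun z hz => hvlim z (hKU hz))
    (ha's.continuous.add continuous_const).continuousOn
    (fun z hz => by
      rw [ea' z hz]
      have := hua z (hKcOm hz)
      linarith)
  -- the test function
  set χ : C2 → ℝ := fun z => χ1 z * (-ψ' z) with hχdef
  have hχcont : Continuous χ := hχs.continuous.mul hψ's.continuous.neg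
  have hχcs : HasCompactSupport χ := hχc.mul_right
  have hχts : tsupport χ ⊆ U := tsupport_mul_subset_left.trans hχU
  have hχnn : ∀ z, 0 ≤ χ z := fun z => mul_nonneg (hχ01 z).1 (by linarith [hψ'0 z])
  -- mass of `a`
  set m : ℝ := ∫ z in Om, maDensity ρ z with hm
  have hmass : ∫ z in Om, maDensity a z = B ^ 2 * m := by
    have e1 : ∀ f : C2 → ℝ, ∫ z in Om, maDensity f z =
        (((2 : ℕ).factorial : ℝ) * (2 / Real.pi) ^ 2) * ∫ z in Om, dt f z := by
      intro f
      rw [← integral_const_mul]
      rfl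
    have e2 : ∫ z in Om, maDensity a z = ∫ z in Om, maDensity (fun z => B * ρ z) z := by
      rw [e1, e1, hS ρ B a (fun z => B * ρ z) hρ ha (adm_Brho hρ hB)]
    rw [e2, hm, ← integral_const_mul]
    exact setIntegral_congr_fun Om_meas fun z hz => maDensity_Brho hρ.sp B hz
  have hmassK : ∫ z in Kc, maDensity a z = B ^ 2 * m := by
    rw [← hmass]
    exact (setIntegral_eq_of_subset_of_forall_sdiff_eq_zero Om_meas hKcOm
      (fun z hz => hoffa z hz.1 hz.2)).symm
  -- left-hand side over `Kc`
  have hlhs0 : ∫ z in Om, (-ψ z) * maDensity a z = ∫ z in Kc, (-ψ' z) * maDensity a' z := by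
    rw [setIntegral_eq_of_subset_of_forall_sdiff_eq_zero Om_meas hKcOm
      (fun z hz => by rw [hoffa z hz.1 hz.2, mul_zero])]
    apply setIntegral_congr_fun hKc.measurableSet
    intro z hz
    simp only [maDensity]
    rw [hha' z hz, eψ' z hz]
  have hmassK' : ∫ z in Kc, maDensity a' z = B ^ 2 * m := by
    rw [← hmassK]
    apply setIntegral_congr_fun hKc.measurableSet
    intro z hz
    simp only [maDensity]
    rw [hha' z hz]
  -- fixed index
  have hl : ∀ l ≥ l0, ∫ z in Om, (-ψ z) * maDensity a z ≤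
      lam ^ 2 * (∫ z, χ z * maDensity (v l) z) + C * om * B ^ 2 * m := by
    intro l hll
    have hlw := hl0 l hll
    set a1 : C2 → ℝ := fun z => a' z + (-η) with ha1
    set b : C2 → ℝ := fun z => lam * v l z with hb
    have has : ContDiff ℝ ∞ a1 := ha's.add contDiff_const
    have hbs : ContDiff ℝ ∞ b := contDiff_const.mul (hvs l)
    have hη2 : 0 < η / 2 := by linarith
    set c : C2 → ℝ := mx (η / 2) a1 b with hcdef
    have hcs : ContDiff ℝ ∞ c := by
      rw [hcdef, MXL.mx_eq_glue hη2]
      exact glue_smooth _ hbs (has.add contDiff_const)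
    have hmx := fun z => MXL.t.2.2.2.2.2.1 (η / 2) a1 b hη2 z
    have hoff : ∀ z, z ∉ Kc → c z = b z := by
      intro z hz
      apply (hmx z).1
      have h1 := ha'0 z
      have h2 : -(3 * η / 4) ≤ b z := by
        by_cases hzΩ : z ∈ Om
        · have h3 := hK1θ z hzΩ (fun h => hz (Or.inl h))
          have h4 := hvge l z hzΩ
          have h5 : -(3 * η / (4 * lam)) ≤ v l z := by linarith
          have h6 := mul_le_mul_of_nonneg_left h5 hlam0.le
          have h7 : lam * -(3 * η / (4 * lam)) = -(3 * η / 4) := by field_simp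
          simp only [hb]
          linarith
        · simp only [hb]
          rw [hvout l z hzΩ]
          linarith
      simp only [ha1]
      linarith
    have hpos : ∀ z, b z ≤ c z := fun z => (le_max_right _ _).trans (hmx z).2.2.1
    have hpb : ∀ z ∈ Kc, (hess b z).PosSemidef := by
      intro z hz
      rw [hb, hess_const_mul _ (hvs l)]
      exact (hvp l z (hKU hz)).smul (by exact_mod_cast hlam0.le)
    have hpa : ∀ z ∈ Kc, (hess a1 z).PosSemidef := by
      intro z hz
      rw [ha1, hess_add_const _ ha's, hha' z hz]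
      exact ha.sp.2 z (hKcOm hz)
    have hpc : ∀ z ∈ Kc, (hess c z).PosSemidef := by
      intro z hz
      rw [hcdef, MXL.mx_eq_glue hη2]
      apply glue_psd hη2 hbs (has.add contDiff_const) z (hpb z hz)
      rw [hess_add_const _ has]
      exact hpa z hz
    have hpψ : ∀ z ∈ Kc, (hess ψ' z).PosSemidef := by
      intro z hz
      rw [hhψ' z hz]
      exact hψ.2 z (hKcOm hz)
    have hcomp := compare_on b c ψ' hbs hcs hψ's Kc hKc hoff hpos hpb hpc hpψ
    have hmid : ∫ z in Kc, (-ψ' z) * maDensity c z ≤ ∫ z in Kc, (-ψ' z) * maDensity b z := by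
      have e1 : ∀ f : C2 → ℝ, ∫ z in Kc, (-ψ' z) * maDensity f z =
          (((2 : ℕ).factorial : ℝ) * (2 / Real.pi) ^ 2) * ∫ z in Kc, (-ψ' z) * (hess f z).det.re := by
        intro f
        rw [← integral_const_mul]
        congr 1
        funext z
        unfold maDensity
        ring
      rw [e1, e1]
      exact mul_le_mul_of_nonneg_left hcomp (by positivity)
    have hrhs : ∫ z in Kc, (-ψ' z) * maDensity b z ≤ lam ^ 2 * ∫ z, χ z * maDensity (v l) z := by
      have e1 : ∀ z, maDensity b z = lam ^ 2 * maDensity (v l) z := by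
        intro z
        unfold maDensity
        rw [hb, hess_const_mul _ (hvs l), Matrix.det_smul, Fintype.card_fin, ← Complex.ofReal_pow,
          Complex.re_ofReal_mul]
        ring
      have e2 : ∫ z in Kc, (-ψ' z) * maDensity b z =
          lam ^ 2 * ∫ z in Kc, (-ψ' z) * maDensity (v l) z := by
        rw [← integral_const_mul]
        congr 1
        funext z
        rw [e1]
        ring
      rw [e2]
      apply mul_le_mul_of_nonneg_left _ (by positivity)
      exact setInt_le_cut (hvs l) hχcont hχcs hKc hχts (hvp l) hχnn (fun z => -ψ' z)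
        (fun z hz => by simp only [hχdef]; rw [hχ1 z hz, one_mul]) hψ's.continuous.neg hKU
    have hlow' : ∫ z in Kc, (-ψ' z) * maDensity a' z ≤
        (∫ z in Kc, (-ψ' z) * maDensity c z) + C * om * (∫ z in Kc, maDensity a' z) := by
      rw [← integral_const_mul, ← integral_add]
      rotate_left
      · exact (hψ's.continuous.neg.mul (maDensity_continuous hcs)).continuousOn.integrableOn_compact hKc
      · exact (continuous_const.mul (maDensity_continuous ha's)).continuousOn.integrableOn_compact hKc
      apply setIntegral_mono_on _ _ hKc.measurableSet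
      · intro z hz
        have hma : 0 ≤ maDensity a' z := by
          apply maDensity_nonneg
          rw [hha' z hz]
          exact ha.sp.2 z (hKcOm hz)
        have hmc : 0 ≤ maDensity c z := maDensity_nonneg (hpc z hz)
        by_cases hcase : b z + η / 4 < a1 z
        · have h4 : hess c z = hess a' z := by
            have h5 : c =ᶠ[𝓝 z] fun y => a' y + (-η) := by
              have h6 : ∀ᶠ y in 𝓝 z, b y + η / 4 < a1 y :=
                (hbs.continuous.add continuous_const).continuousAt.eventually_lt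
                  has.continuous.continuousAt hcase
              filter_upwards [h6] with y hy
              apply (hmx y).2.1
              linarith
            rw [hess_congr h5, hess_add_const _ ha's]
          have h7 : maDensity c z = maDensity a' z := by
            unfold maDensity
            rw [h4]
          rw [h7]
          have : 0 ≤ C * om * maDensity a' z := by positivity
          linarith
        · push Not at hcase
          simp only [ha1, hb] at hcase
          have h1 := hlw z hz
          have h2 := mul_le_mul_of_nonneg_left h1.le hlam0.le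
          have h3 : -(4 * lam * η / (lam - 1)) ≤ a z := by
            have hl1 : 0 < lam - 1 := by linarith
            have h10 : -(a z) ≤ 4 * lam * η / (lam - 1) := by
              rw [le_div_iff₀ hl1]
              rw [ea' z hz] at hcase h2
              have h11 : 0 < (lam - 1) * η := mul_pos hl1 hη
              nlinarith
            linarith
          have h4 := hlow z (hKcOm hz) h3
          have h5 := (hψb z (hKcOm hz)).2
          have h6 : -ψ' z ≤ C * om := by
            rw [eψ' z hz]
            exact h5.trans (mul_le_mul_of_nonneg_left h4 hC)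
          have h8 := mul_le_mul_of_nonneg_right h6 hma
          have h9 : 0 ≤ (-ψ' z) * maDensity c z := mul_nonneg (by linarith [hψ'0 z]) hmc
          linarith
      · exact (hψ's.continuous.neg.mul (maDensity_continuous ha's)).continuousOn.integrableOn_compact hKc
      · exact ((hψ's.continuous.neg.mul (maDensity_continuous hcs)).add
          (continuous_const.mul (maDensity_continuous ha's))).continuousOn.integrableOn_compact hKc
    rw [hlhs0]
    rw [hmassK'] at hlow'
    calc ∫ z in Kc, (-ψ' z) * maDensity a' z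
        ≤ (∫ z in Kc, (-ψ' z) * maDensity c z) + C * om * (B ^ 2 * m) := hlow'
      _ ≤ lam ^ 2 * (∫ z, χ z * maDensity (v l) z) + C * om * B ^ 2 * m := by
          have := hmid.trans hrhs
          have e : C * om * (B ^ 2 * m) = C * om * B ^ 2 * m := by ring
          rw [e]
          linarith
  -- limit
  have hlim := ((hvconv χ hχcont hχcs hχts).const_mul (lam ^ 2)).add_const (C * om * B ^ 2 * m)
  have hmain : ∫ z in Om, (-ψ z) * maDensity a z ≤ lam ^ 2 * (∫ z, χ z ∂ν) + C * om * B ^ 2 * m :=
    ge_of_tendsto hlim (by filter_upwards [eventually_ge_atTop l0] with l h using hl l h)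
  refine hmain.trans ?_
  have : IsFiniteMeasure (ν.restrict Om) := ⟨by rw [Measure.restrict_apply_univ]; exact hνfin⟩
  have hψi : IntegrableOn (fun z => -ψ z) Om ν := by
    refine Integrable.mono' (integrable_const (C * 3)) (hψ.1.continuousOn.neg.aestronglyMeasurable Om_meas) ?_
    rw [ae_restrict_iff' Om_meas]
    refine Eventually.of_forall fun z hz => ?_
    have h1 := hψb z hz
    rw [Real.norm_eq_abs, abs_of_nonneg (by linarith)]
    refine h1.2.trans (mul_le_mul_of_nonneg_left ?_ hC)
    linarith [hρ.ge z hz]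
  have key : ∀ z ∈ Om, χ z ≤ -ψ z := by
    intro z hz
    have h1 := (hψb z hz).1
    have h2 : -ψ' z ≤ -ψ z := by
      simp only [hψ'def]
      nlinarith [(hκ01 z).2, (hκ01 z).1]
    have h3 : 0 ≤ -ψ' z := by linarith [hψ'0 z]
    calc χ z = χ1 z * (-ψ' z) := rfl
      _ ≤ 1 * (-ψ' z) := mul_le_mul_of_nonneg_right (hχ01 z).2 h3
      _ ≤ -ψ z := by linarith
  have hχi : IntegrableOn χ Om ν := by
    refine Integrable.mono' (integrable_const (C * 3)) hχcont.aestronglyMeasurable ?_
    rw [ae_restrict_iff' Om_meas]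
    refine Eventually.of_forall fun z hz => ?_
    rw [Real.norm_eq_abs, abs_of_nonneg (hχnn z)]
    refine ((key z hz).trans (hψb z hz).2).trans (mul_le_mul_of_nonneg_left ?_ hC)
    linarith [hρ.ge z hz]
  have hle : ∫ z, χ z ∂ν ≤ ∫ z in Om, (-ψ z) ∂ν := by
    rw [int_supp (Ω := Om) (fun z hz => image_eq_zero_of_notMem_tsupport fun h => hz (hUOm (hχts h)))]
    apply setIntegral_mono_on hχi hψi Om_meas
    exact key
  have := mul_le_mul_of_nonneg_left hle (by positivity : 0 ≤ lam ^ 2)
  linarith

end Pool.Agent.H53M.UPG
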