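import Mathlib
import Pool.Agent.H53M.StmB
import Pool.Agent.H53M.HES
import Pool.Agent.H53M.MXL
import Pool.Agent.H53M.IBT
import Pool.Agent.H53M.Tools45
import Pool.Agent.H53M.SYM

/-!
# Stub XTW: the energy of `log |y|` against an admissible function
-/

set_option autoImplicit false

open MeasureTheory Metric Set Filter Topology
open scoped ContDiff ComplexOrder

namespace Pool.Agent.H53M.XTW

open Pool.Agent.H53M Pool.Agent.H805R2 Pool.Agent.H53M.T45 Pool.Agent.H53M.IBT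

/-- the Laplacian of a radial function -/
lemma lap4_radial {G G1 : ℝ → ℝ} {G2 : ℝ} {x : ℂ}
    (h1 : ∀ᶠ t in 𝓝 (‖x‖ ^ 2), HasDerivAt G (G1 t) t) (h2 : HasDerivAt G1 G2 (‖x‖ ^ 2)) :
    lap4 (fun y => G (‖y‖ ^ 2)) x = G1 (‖x‖ ^ 2) + ‖x‖ ^ 2 * G2 := by
  have hs : ∀ y : ℂ, ‖y‖ ^ 2 = y.re * y.re + y.im * y.im := fun y => by
    rw [Complex.sq_norm, Complex.normSq_apply]
  obtain ⟨B, hB⟩ : ∃ B : ℂ → ℂ →L[ℝ] ℝ,
    B = fun y => (2 * y.re) • Complex.reCLM + (2 * y.im) • Complex.imCLM := ⟨_, rfl⟩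
  have hre : ∀ y : ℂ, HasFDerivAt (fun y : ℂ => y.re) Complex.reCLM y := fun y =>
    Complex.reCLM.hasFDerivAt
  have him : ∀ y : ℂ, HasFDerivAt (fun y : ℂ => y.im) Complex.imCLM y := fun y =>
    Complex.imCLM.hasFDerivAt
  have hn : ∀ y : ℂ, HasFDerivAt (fun y : ℂ => ‖y‖ ^ 2) (B y) y := by
    intro y
    have h := ((hre y).mul (hre y)).add ((him y).mul (him y))
    have e : (fun y : ℂ => ‖y‖ ^ 2) = fun y => y.re * y.re + y.im * y.im := funext hs
    rw [e]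
    refine h.congr_fderiv ?_
    rw [hB]
    ext v
    simp
    ring
  have hc : Continuous fun y : ℂ => ‖y‖ ^ 2 := by fun_prop
  have e1 : fderiv ℝ (fun y : ℂ => G (‖y‖ ^ 2)) =ᶠ[𝓝 x] fun y => G1 (‖y‖ ^ 2) • B y := by
    filter_upwards [hc.continuousAt.eventually h1] with y hy
    exact (hy.comp_hasFDerivAt y (hn y)).fderiv
  have hBd : HasFDerivAt B ((Complex.reCLM.smulRight ((2 : ℝ) • Complex.reCLM)) +
      (Complex.imCLM.smulRight ((2 : ℝ) • Complex.imCLM)) : ℂ →L[ℝ] ℂ →L[ℝ] ℝ) x := by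
    have e : B = fun y : ℂ => ((Complex.reCLM.smulRight ((2 : ℝ) • Complex.reCLM)) +
      (Complex.imCLM.smulRight ((2 : ℝ) • Complex.imCLM)) : ℂ →L[ℝ] ℂ →L[ℝ] ℝ) y := by
      rw [hB]
      funext y
      ext v
      simp
      ring
    rw [e]
    exact ContinuousLinearMap.hasFDerivAt _
  have e2 := ((h2.comp_hasFDerivAt x (hn x)).smul hBd)
  unfold lap4
  rw [e1.fderiv_eq]
  have e3 : fderiv ℝ (fun y => G1 (‖y‖ ^ 2) • B y) x = _ := e2.fderiv
  rw [e3, hB]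
  simp only [add_apply, smul_apply,
    ContinuousLinearMap.smulRight_apply, Complex.reCLM_apply, Complex.imCLM_apply, smul_eq_mul,
    Function.comp_apply, Complex.one_re, Complex.one_im, Complex.I_re, Complex.I_im]
  rw [hs x]
  ring

lemma lap4_const (c : ℝ) (x : ℂ) : lap4 (fun _ => c) x = 0 := by
  unfold lap4
  simp

lemma lap4_log {x : ℂ} (hx : x ≠ 0) : lap4 (fun y => Real.log ‖y‖) x = 0 := by
  have h0 : 0 < ‖x‖ ^ 2 := by
    have := norm_pos_iff.2 hx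
    positivity
  have e : (fun y : ℂ => Real.log ‖y‖) = fun y => (fun t => Real.log t / 2) (‖y‖ ^ 2) := by
    funext y
    simp only [Real.log_pow]
    push_cast
    ring
  rw [e, lap4_radial (G := fun t => Real.log t / 2) (G1 := fun t => t⁻¹ / 2) (G2 := (-((‖x‖ ^ 2) ^ 2)⁻¹) / 2)]
  · field_simp
    ring
  · filter_upwards [lt_mem_nhds h0] with t ht
    exact (Real.hasDerivAt_log ht.ne').div_const 2
  · exact (hasDerivAt_inv h0.ne').div_const 2

/-- `vv` as a function of `y` -/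
noncomputable def qe (ε : ℝ) (y : ℂ) : ℝ := Real.log ((‖y‖ ^ 2 + ε ^ 2) / (1 + ε ^ 2)) / 2

lemma vv_eq (ε : ℝ) : vv ε = fun z => qe ε (z 1) := rfl

lemma qe_smooth {ε : ℝ} (hε : 0 < ε) : ContDiff ℝ ∞ (qe ε) := by
  unfold qe
  have h : ∀ y : ℂ, (‖y‖ ^ 2 + ε ^ 2) / (1 + ε ^ 2) ≠ 0 := fun y => by positivity
  exact ((((contDiff_norm_sq ℝ).add contDiff_const).div_const _).log h).div_const 2

lemma qe_lap {ε : ℝ} (hε : 0 < ε) (y : ℂ) : 0 ≤ lap4 (qe ε) y := by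
  have h : lap4 (qe ε) y = (‖y‖ ^ 2 + ε ^ 2)⁻¹ / 2 + ‖y‖ ^ 2 * (-((‖y‖ ^ 2 + ε ^ 2) ^ 2)⁻¹ / 2) := by
    have hne : ‖y‖ ^ 2 + ε ^ 2 ≠ 0 := by positivity
    have e : qe ε = fun y : ℂ => (fun t => Real.log ((t + ε ^ 2) / (1 + ε ^ 2)) / 2) (‖y‖ ^ 2) := rfl
    rw [e, lap4_radial (G := fun t => Real.log ((t + ε ^ 2) / (1 + ε ^ 2)) / 2)
      (G1 := fun t => (t + ε ^ 2)⁻¹ / 2) (G2 := -((‖y‖ ^ 2 + ε ^ 2) ^ 2)⁻¹ / 2)]
    · have : (-(ε ^ 2) : ℝ) < ‖y‖ ^ 2 := by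
        have : (0 : ℝ) < ε ^ 2 := by positivity
        have : (0 : ℝ) ≤ ‖y‖ ^ 2 := by positivity
        linarith
      filter_upwards [lt_mem_nhds this] with t ht
      have ht' : t + ε ^ 2 ≠ 0 := by
        have : 0 < t + ε ^ 2 := by linarith
        exact this.ne'
      have hd : HasDerivAt (fun t : ℝ => (t + ε ^ 2) / (1 + ε ^ 2)) (1 / (1 + ε ^ 2)) t :=
        ((hasDerivAt_id t).add_const _).div_const _
      have hε' : (1 + ε ^ 2 : ℝ) ≠ 0 := by positivity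
      have hl := (hd.log (div_ne_zero ht' hε')).div_const 2
      refine hl.congr_deriv ?_
      field_simp
    · have hd : HasDerivAt (fun t : ℝ => t + ε ^ 2) 1 (‖y‖ ^ 2) := (hasDerivAt_id _).add_const _
      have hl : HasDerivAt (fun t : ℝ => (t + ε ^ 2)⁻¹ / 2) (-1 / (‖y‖ ^ 2 + ε ^ 2) ^ 2 / 2) (‖y‖ ^ 2) :=
        (hd.inv hne).div_const 2
      refine hl.congr_deriv ?_
      rw [neg_div, one_div]
  rw [h]
  have h3 : (0 : ℝ) < ‖y‖ ^ 2 + ε ^ 2 := by positivity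
  have h4 : (‖y‖ ^ 2 + ε ^ 2)⁻¹ / 2 + ‖y‖ ^ 2 * (-((‖y‖ ^ 2 + ε ^ 2) ^ 2)⁻¹ / 2) =
      ε ^ 2 / (2 * (‖y‖ ^ 2 + ε ^ 2) ^ 2) := by
    field_simp
    ring
  rw [h4]
  positivity

lemma psd_diag {L : ℝ} (hL : 0 ≤ L) : (!![0, 0; 0, ((L : ℝ) : ℂ)] : Matrix (Fin 2) (Fin 2) ℂ).PosSemidef := by
  have e : (!![0, 0; 0, ((L : ℝ) : ℂ)] : Matrix (Fin 2) (Fin 2) ℂ) = Matrix.diagonal ![0, (L : ℂ)] := by
    ext i j
    fin_cases i <;> fin_cases j <;> simp
  rw [e, Matrix.posSemidef_diagonal_iff]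
  intro i
  fin_cases i
  · simp
  · simpa using hL

lemma tr_one (A R : Matrix (Fin 2) (Fin 2) ℂ) (h1 : R 0 1 = 0) (h2 : R 1 0 = 0) (h3 : R 1 1 = 0) :
    (A.adjugate * R).trace = A 1 1 * R 0 0 := by
  rw [Matrix.adjugate_fin_two, Matrix.trace_fin_two]
  simp [Matrix.mul_apply, Fin.sum_univ_two, h1, h2, h3]

lemma psd_zero {R : Matrix (Fin 2) (Fin 2) ℂ} (hR : R.PosSemidef) (h : (R 1 1).re = 0) :
    R 1 1 = 0 ∧ R 0 1 = 0 ∧ R 1 0 = 0 ∧ 0 ≤ (R 0 0).re ∧ (R 0 0).im = 0 := by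
  have d0 := Complex.le_def.1 (hR.diag_nonneg (i := 0))
  have d1 := Complex.le_def.1 (hR.diag_nonneg (i := 1))
  simp only [Complex.zero_re, Complex.zero_im] at d0 d1
  have e1 : R 1 1 = 0 := Complex.ext h d1.2.symm
  have e2 := hR.det_nonneg
  have e3 : star (R 0 1) = R 1 0 := hR.isHermitian.apply 1 0
  have e4 : R 0 1 = 0 := by
    rw [Matrix.det_fin_two, e1, mul_zero, zero_sub, ← e3] at e2
    have e5 := (Complex.le_def.1 e2).1
    have e6 : (-(R 0 1 * star (R 0 1))).re = -(Complex.normSq (R 0 1)) := by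
      rw [Complex.neg_re, Complex.star_def, Complex.mul_conj, Complex.ofReal_re]
    rw [e6, Complex.zero_re] at e5
    have e7 := Complex.normSq_nonneg (R 0 1)
    exact Complex.normSq_eq_zero.1 (by linarith)
  refine ⟨e1, e4, ?_, d0.1, d0.2.symm⟩
  rw [← e3, e4, star_zero]

lemma pt_0 (x y : ℂ) : pt x y 0 = x := by simp [pt]
lemma pt_1 (x y : ℂ) : pt x y 1 = y := by simp [pt]
lemma pt_self (z : C2) : pt (z 0) (z 1) = z := by
  ext i
  fin_cases i <;> simp [pt]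

lemma h15 : Real.exp (-15) < 1 := by
  have := Real.exp_lt_exp.2 (by norm_num : (-15 : ℝ) < 0)
  rwa [Real.exp_zero] at this

/-- near `y = 0` the Hessian of the weight has only the `x x̄` entry -/
lemma flat1 {ρ : C2 → ℝ} (hρ : Rho ρ) {z : C2} (hz : z ∈ Om) (h1 : ‖z 1‖ < Real.exp (-15)) :
    (hess ρ z 1 1).re = 0 := by
  have h := (HES.h5 ρ (z 0) (z 1) (by rw [pt_self]; exact smAt hρ.sp.1 hz)).2
  rw [pt_self] at h
  rw [h]
  have e : (fun y' => ρ (pt (z 0) y')) =ᶠ[𝓝 (z 1)] fun _ => ρ (pt (z 0) 0) := by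
    filter_upwards [(isOpen_lt continuous_norm continuous_const).mem_nhds h1] with y hy
    have hO : pt (z 0) y ∈ Om := ⟨by rw [pt_0]; exact hz.1, by rw [pt_1]; exact lt_trans hy h15⟩
    have := (hρ.flat _ hO (by rw [pt_1]; exact hy)).1
    rw [this, pt_0]
  rw [HES.lap4_congr e, lap4_const]

lemma flat2 {ρ : C2 → ℝ} (hρ : Rho ρ) {z : C2} (hz : z ∈ Om) (h1 : ‖z 1‖ < Real.exp (-15))
    (h2 : Real.exp (-(1 : ℝ)) < ‖z 0‖) : hess ρ z = 0 := by
  obtain ⟨p1, p2, p3, p4, p5⟩ := psd_zero (hρ.sp.2 z hz) (flat1 hρ hz h1)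
  have h := (HES.h5 ρ (z 0) (z 1) (by rw [pt_self]; exact smAt hρ.sp.1 hz)).1
  rw [pt_self] at h
  have e : (fun x' => ρ (pt x' (z 1))) =ᶠ[𝓝 (z 0)] fun x' => Real.log ‖x'‖ := by
    filter_upwards [(isOpen_lt continuous_const continuous_norm).mem_nhds h2,
      (isOpen_lt continuous_norm continuous_const).mem_nhds hz.1] with x hx hx'
    have hO : pt x (z 1) ∈ Om := ⟨by rw [pt_0]; exact hx', by rw [pt_1]; exact hz.2⟩
    have := (hρ.flat _ hO (by rw [pt_1]; exact h1)).2 (by rw [pt_0]; exact hx)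
    rw [this, pt_0]
  have hx0 : z 0 ≠ 0 := by
    intro h0
    rw [h0, norm_zero] at h2
    exact absurd h2 (not_lt.2 (Real.exp_pos _).le)
  rw [HES.lap4_congr e, lap4_log hx0] at h
  ext i j
  fin_cases i <;> fin_cases j
  · exact Complex.ext h p5
  · exact p2
  · exact p3
  · exact p1

lemma lap4_lin {U V : ℂ → ℝ} (hU : ContDiff ℝ ∞ U) (hV : ContDiff ℝ ∞ V) (c : ℝ) (y : ℂ) :
    lap4 (fun y => c * (U y - V y)) y = c * (lap4 U y - lap4 V y) := by
  have hU2 : ContDiff ℝ 2 U := hU.of_le ss_le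
  have hV2 : ContDiff ℝ 2 V := hV.of_le ss_le
  have dU : ∀ y, HasFDerivAt U (fderiv ℝ U y) y := fun y =>
    ((hU2.differentiable (by norm_num)).differentiableAt).hasFDerivAt
  have dV : ∀ y, HasFDerivAt V (fderiv ℝ V y) y := fun y =>
    ((hV2.differentiable (by norm_num)).differentiableAt).hasFDerivAt
  have dU2 : HasFDerivAt (fderiv ℝ U) (fderiv ℝ (fderiv ℝ U) y) y :=
    (((hU2.fderiv_right (m := 1) (by norm_num)).differentiable (by norm_num)).differentiableAt).hasFDerivAt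
  have dV2 : HasFDerivAt (fderiv ℝ V) (fderiv ℝ (fderiv ℝ V) y) y :=
    (((hV2.fderiv_right (m := 1) (by norm_num)).differentiable (by norm_num)).differentiableAt).hasFDerivAt
  have e : fderiv ℝ (fun y => c * (U y - V y)) = fun y => c • (fderiv ℝ U y - fderiv ℝ V y) := by
    funext y
    exact (((dU y).sub (dV y)).const_mul c).fderiv
  have e2 : fderiv ℝ (fun y => c • (fderiv ℝ U y - fderiv ℝ V y)) y =
      c • (fderiv ℝ (fderiv ℝ U) y - fderiv ℝ (fderiv ℝ V) y) := ((dU2.sub dV2).const_smul c).fderiv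
  unfold lap4
  rw [e, e2]
  simp only [smul_apply, sub_apply, smul_eq_mul]
  ring

lemma proj_smooth (i : Fin 2) : ContDiff ℝ ∞ fun z : C2 => z i := by
  have : (fun z : C2 => z i) = fun z => ((EuclideanSpace.proj (𝕜 := ℂ) i).restrictScalars ℝ :
    C2 →L[ℝ] ℂ) z := by
    funext z
    simp
  rw [this]
  exact ContinuousLinearMap.contDiff _

/-- cutoff in `x` -/
noncomputable def chi : ContDiffBump (0 : ℂ) := ⟨1 / 2, 3 / 4, by norm_num, by norm_num⟩

/-- cutoff in `y` -/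
noncomputable def kap : ContDiffBump (0 : ℂ) :=
  ⟨Real.exp (-(31 / 2)), Real.exp (-15), Real.exp_pos _, Real.exp_lt_exp.2 (by norm_num)⟩

/-- the compact set -/
def K1 : Set C2 := {z | ‖z 0‖ ≤ 3 / 4 ∧ ‖z 1‖ ≤ Real.exp (-15)}

lemma K1_sub : K1 ⊆ Om := fun z hz => ⟨lt_of_le_of_lt hz.1 (by norm_num), lt_of_le_of_lt hz.2 h15⟩

lemma K1_compact : IsCompact K1 := by
  have h : ∀ i : Fin 2, Continuous fun z : C2 => ‖z i‖ := fun i => by fun_prop
  have hc : IsClosed K1 := (isClosed_le (h 0) continuous_const).inter (isClosed_le (h 1) continuous_const)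
  refine Metric.isCompact_of_isClosed_isBounded hc ?_
  refine (isBounded_closedBall (x := (0 : C2)) (r := 2)).subset fun z hz => ?_
  rw [mem_closedBall, dist_zero_right, EuclideanSpace.norm_eq, Real.sqrt_le_iff]
  refine ⟨by norm_num, ?_⟩
  rw [Fin.sum_univ_two]
  have h1 : ‖z 0‖ ≤ 1 := hz.1.trans (by norm_num)
  have h2 : ‖z 1‖ ≤ 1 := hz.2.trans h15.le
  nlinarith [norm_nonneg (z 0), norm_nonneg (z 1)]

lemma chi_zero {x : ℂ} (h : 3 / 4 ≤ ‖x‖) : chi x = 0 := by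
  apply chi.zero_of_le_dist
  rw [dist_zero_right]
  exact h

lemma chi_one {x : ℂ} (h : ‖x‖ ≤ 1 / 2) : chi x = 1 := by
  apply chi.one_of_mem_closedBall
  rw [mem_closedBall, dist_zero_right]
  exact h

lemma kap_zero {x : ℂ} (h : Real.exp (-15) ≤ ‖x‖) : kap x = 0 := by
  apply kap.zero_of_le_dist
  rw [dist_zero_right]
  exact h

lemma kap_one {x : ℂ} (h : ‖x‖ ≤ Real.exp (-(31 / 2))) : kap x = 1 := by
  apply kap.one_of_mem_closedBall
  rw [mem_closedBall, dist_zero_right]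
  exact h

lemma Z_DDl {f g : C2 → ℝ} (hZ : Z f) : Z (DD f g) := by
  obtain ⟨K, hK, hKO, h⟩ := hZ
  refine ⟨K, hK, hKO, fun z hz hz' => ?_⟩
  have e : f =ᶠ[𝓝 z] fun _ => (0 : ℝ) := by
    filter_upwards [(Om_open.sdiff hK.isClosed).mem_nhds ⟨hz, hz'⟩] with w hw
    exact h w hw.1 hw.2
  unfold DD
  rw [tr_symm, hess_congr e, hess_const_zero, mul_zero, Matrix.trace_zero, Complex.zero_re]

/-- the truncation of `vv` as a function of `y` -/
noncomputable def Qe (ε : ℝ) (y : ℂ) : ℝ := -16 + 1 * mm ((qe ε y - (-16)) / 1)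

lemma Qe_smooth {ε : ℝ} (hε : 0 < ε) : ContDiff ℝ ∞ (Qe ε) := by
  unfold Qe
  exact contDiff_const.add (contDiff_const.mul
    (MXL.mm_smooth.comp (((qe_smooth hε).sub contDiff_const).div_const 1)))

lemma q1_eq (ε : ℝ) : mx 1 (vv ε) (fun _ => -16) = fun z => Qe ε (z 1) := rfl

lemma vv_smooth {ε : ℝ} (hε : 0 < ε) : ContDiff ℝ ∞ (vv ε) := (qe_smooth hε).comp (proj_smooth 1)

lemma vv_psd {ε : ℝ} (hε : 0 < ε) (z : C2) : (hess (vv ε) z).PosSemidef := by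
  rw [vv_eq, HES.h6 _ _ (qe_smooth hε)]
  exact psd_diag (qe_lap hε _)

lemma Qe_lap {ε : ℝ} (hε : 0 < ε) (y : ℂ) : 0 ≤ lap4 (Qe ε) y := by
  obtain ⟨-, -, -, -, -, -, -, h8⟩ := MXL.t
  have hc : ∀ z ∈ (univ : Set C2), (hess (fun _ : C2 => (-16 : ℝ)) z).PosSemidef := fun z _ => by
    rw [hess_const_zero]
    exact Matrix.PosSemidef.zero
  have h := (h8 1 (vv ε) (fun _ => -16) univ isOpen_univ one_pos (vv_smooth hε).contDiffOn
    contDiffOn_const (fun z _ => vv_psd hε z) hc).2 (pt 0 y) (mem_univ _)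
  rw [q1_eq, HES.h6 _ _ (Qe_smooth hε), pt_1] at h
  have := (Complex.le_def.1 (h.diag_nonneg (i := 1))).1
  simpa using this

lemma Q_facts (ε : ℝ) (y : ℂ) : -16 ≤ Qe ε y ∧ qe ε y ≤ Qe ε y ∧
    (-(31 / 2) ≤ qe ε y → Qe ε y = qe ε y) := by
  obtain ⟨-, -, -, -, -, h6, -, -⟩ := MXL.t
  obtain ⟨-, h2, h3, -⟩ := h6 1 (vv ε) (fun _ => -16) one_pos (pt 0 y)
  rw [q1_eq] at h2 h3
  simp only [pt_1] at h2 h3
  have e : vv ε (pt 0 y) = qe ε y := by
    rw [vv_eq]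
    simp only [pt_1]
  rw [e] at h2 h3
  refine ⟨(le_max_right _ _).trans h3, (le_max_left _ _).trans h3, fun h => ?_⟩
  exact h2 (by linarith)

lemma qe_ge {ε : ℝ} (hε : 0 < ε) {y : ℂ} (hy : y ≠ 0) (h1 : ‖y‖ ≤ 1) : Real.log ‖y‖ ≤ qe ε y := by
  have h0 : 0 < ‖y‖ := norm_pos_iff.2 hy
  have e : Real.log ‖y‖ = Real.log (‖y‖ ^ 2) / 2 := by
    rw [Real.log_pow]
    push_cast
    ring
  rw [e]
  unfold qe
  have h2 : ‖y‖ ^ 2 ≤ (‖y‖ ^ 2 + ε ^ 2) / (1 + ε ^ 2) := by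
    rw [le_div_iff₀ (by positivity)]
    have : ‖y‖ ^ 2 ≤ 1 := by nlinarith
    nlinarith [sq_nonneg ε]
  have := Real.log_le_log (by positivity) h2
  linarith

lemma qe_ge' {ε : ℝ} (hε : 0 < ε) {y : ℂ} (h : Real.exp (-(31 / 2)) ≤ ‖y‖) : -(31 / 2) ≤ qe ε y := by
  have h0 : 0 < ‖y‖ := lt_of_lt_of_le (Real.exp_pos _) h
  rcases le_total ‖y‖ 1 with h1 | h1
  · refine le_trans ?_ (qe_ge hε (norm_pos_iff.1 h0) h1)
    rw [Real.le_log_iff_exp_le h0]
    exact h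
  · have : 0 ≤ qe ε y := by
      unfold qe
      have h2 : 1 ≤ (‖y‖ ^ 2 + ε ^ 2) / (1 + ε ^ 2) := by
        rw [le_div_iff₀ (by positivity)]
        nlinarith
      have := Real.log_nonneg h2
      linarith
    linarith

lemma qe_le {ε : ℝ} (hε : 0 < ε) {y : ℂ} (h : ‖y‖ ≤ 1) : qe ε y ≤ 0 := by
  unfold qe
  have h2 : (‖y‖ ^ 2 + ε ^ 2) / (1 + ε ^ 2) ≤ 1 := by
    rw [div_le_one (by positivity)]
    have : ‖y‖ ^ 2 ≤ 1 := by nlinarith [norm_nonneg y]
    linarith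
  have := Real.log_nonpos (by positivity) h2
  linarith

/-- the product cutoff -/
noncomputable def ch2 (z : C2) : ℝ := chi (z 0) * kap (z 1)

lemma ch2_smooth : ContDiff ℝ ∞ ch2 :=
  (chi.contDiff.comp (proj_smooth 0)).mul (kap.contDiff.comp (proj_smooth 1))

lemma ch2_nonneg (z : C2) : 0 ≤ ch2 z := mul_nonneg chi.nonneg kap.nonneg

lemma ch2_Z : Z ch2 := by
  refine ⟨K1, K1_compact, K1_sub, fun z _ hz => ?_⟩
  unfold ch2
  by_cases h : ‖z 0‖ ≤ 3 / 4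
  · have : Real.exp (-15) ≤ ‖z 1‖ := by
      by_contra h'
      exact hz ⟨h, (not_le.1 h').le⟩
    rw [kap_zero this, mul_zero]
  · rw [chi_zero (not_le.1 h).le, zero_mul]

/-- the cut off difference -/
noncomputable def ff (ε : ℝ) (z : C2) : ℝ := chi (z 0) * (Qe ε (z 1) - qe ε (z 1))

lemma gap_zero {ε : ℝ} (hε : 0 < ε) {y : ℂ} (h : Real.exp (-(31 / 2)) ≤ ‖y‖) : Qe ε y - qe ε y = 0 := by
  rw [(Q_facts ε y).2.2 (qe_ge' hε h), sub_self]

lemma lt15 : Real.exp (-(31 / 2)) < Real.exp (-15) := Real.exp_lt_exp.2 (by norm_num)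

lemma ff_smooth {ε : ℝ} (hε : 0 < ε) : ContDiff ℝ ∞ (ff ε) :=
  (chi.contDiff.comp (proj_smooth 0)).mul
    (((Qe_smooth hε).comp (proj_smooth 1)).sub ((qe_smooth hε).comp (proj_smooth 1)))

lemma ff_Z {ε : ℝ} (hε : 0 < ε) : Z (ff ε) := by
  refine ⟨K1, K1_compact, K1_sub, fun z _ hz => ?_⟩
  unfold ff
  by_cases h : ‖z 0‖ ≤ 3 / 4
  · have : Real.exp (-15) ≤ ‖z 1‖ := by
      by_contra h'
      exact hz ⟨h, (not_le.1 h').le⟩
    rw [gap_zero hε (lt15.le.trans this), mul_zero]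
  · rw [chi_zero (not_le.1 h).le, zero_mul]

lemma DD_flat {ρ : C2 → ℝ} (hρ : Rho ρ) (F : C2 → ℝ) {z : C2} (hz : z ∈ Om) (h1 : ‖z 1‖ < Real.exp (-15)) :
    DD F ρ z = (hess F z 1 1).re * (hess ρ z 0 0).re ∧ 0 ≤ (hess ρ z 0 0).re := by
  obtain ⟨p1, p2, p3, p4, p5⟩ := psd_zero (hρ.sp.2 z hz) (flat1 hρ hz h1)
  refine ⟨?_, p4⟩
  unfold DD
  rw [tr_one _ _ p2 p3 p1, Complex.mul_re, p5, mul_zero, sub_zero]

lemma key {ρ : C2 → ℝ} (hρ : Rho ρ) {ε M : ℝ} (hε : 0 < ε) (hM : 0 ≤ M) {a : C2 → ℝ} {z : C2} (hz : z ∈ Om)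
    (ha0 : a z ≤ 0) (haM : -M ≤ a z) : a z * DD (ff ε) ρ z ≤ M * (ch2 z * DD (vv ε) ρ z) := by
  rcases lt_or_ge (Real.exp (-(31 / 2))) ‖z 1‖ with h | h
  · have e : ff ε =ᶠ[𝓝 z] fun _ => (0 : ℝ) := by
      have hc : Continuous fun w : C2 => ‖w 1‖ := by fun_prop
      filter_upwards [(isOpen_lt continuous_const hc).mem_nhds h] with w hw
      unfold ff
      rw [gap_zero hε (le_of_lt hw), mul_zero]
    have e2 : DD (ff ε) ρ z = 0 := by
      unfold DD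
      rw [tr_symm, hess_congr e, hess_const_zero, mul_zero, Matrix.trace_zero, Complex.zero_re]
    rw [e2, mul_zero]
    exact mul_nonneg hM (mul_nonneg (ch2_nonneg z) (DD_nonneg (vv_psd hε z) (hρ.sp.2 z hz)))
  · have h1 : ‖z 1‖ < Real.exp (-15) := lt_of_le_of_lt h lt15
    obtain ⟨f1, f2⟩ := DD_flat hρ (ff ε) hz h1
    obtain ⟨g1, -⟩ := DD_flat hρ (vv ε) hz h1
    have f3 := (HES.h5 (ff ε) (z 0) (z 1) (ff_smooth hε).contDiffAt).2
    have g3 := (HES.h5 (vv ε) (z 0) (z 1) (vv_smooth hε).contDiffAt).2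
    rw [pt_self] at f3 g3
    have f4 : (fun y' => ff ε (pt (z 0) y')) = fun y' => chi (z 0) * (Qe ε y' - qe ε y') := by
      funext y'
      unfold ff
      rw [pt_0, pt_1]
    have g4 : (fun y' => vv ε (pt (z 0) y')) = qe ε := by
      funext y'
      rw [vv_eq]
      simp only [pt_1]
    rw [f4, lap4_lin (Qe_smooth hε) (qe_smooth hε)] at f3
    rw [g4] at g3
    have hc : ch2 z = chi (z 0) := by
      unfold ch2
      rw [kap_one h, mul_one]
    rw [f1, g1, f3, g3, hc]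
    have c1 : 0 ≤ chi (z 0) := chi.nonneg
    have n1 : 0 ≤ (M + a z) * (chi (z 0) * (lap4 (qe ε) (z 1) * (hess ρ z 0 0).re)) :=
      mul_nonneg (by linarith) (mul_nonneg c1 (mul_nonneg (qe_lap hε _) f2))
    have n2 : 0 ≤ (-a z) * (chi (z 0) * (lap4 (Qe ε) (z 1) * (hess ρ z 0 0).re)) :=
      mul_nonneg (by linarith) (mul_nonneg c1 (mul_nonneg (Qe_lap hε _) f2))
    nlinarith [n1, n2]

lemma DD_ch2 {ρ : C2 → ℝ} (hρ : Rho ρ) {z : C2} (hz : z ∈ Om) (h : ‖z 1‖ < Real.exp (-(31 / 2))) :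
    DD ch2 ρ z = 0 := by
  obtain ⟨f1, -⟩ := DD_flat hρ ch2 hz (h.trans lt15)
  have f3 := (HES.h5 ch2 (z 0) (z 1) ch2_smooth.contDiffAt).2
  rw [pt_self] at f3
  have e : (fun y' => ch2 (pt (z 0) y')) =ᶠ[𝓝 (z 1)] fun _ => chi (z 0) := by
    filter_upwards [(isOpen_lt continuous_norm continuous_const).mem_nhds h] with y hy
    unfold ch2
    rw [pt_0, pt_1, kap_one (le_of_lt hy), mul_one]
  rw [HES.lap4_congr e, lap4_const] at f3
  rw [f1, f3, zero_mul]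

lemma vv_bd {ρ : C2 → ℝ} (hρ : Rho ρ) {ε : ℝ} (hε : 0 < ε) {z : C2} (hz : z ∈ Om) :
    vv ε z * DD ch2 ρ z ≤ 16 * |DD ch2 ρ z| := by
  rcases lt_or_ge ‖z 1‖ (Real.exp (-(31 / 2))) with h | h
  · rw [DD_ch2 hρ hz h]
    simp
  · have h1 : -(31 / 2) ≤ vv ε z := qe_ge' hε h
    have h2 : vv ε z ≤ 0 := qe_le hε hz.2.le
    refine (le_abs_self _).trans ?_
    rw [abs_mul]
    refine mul_le_mul_of_nonneg_right ?_ (abs_nonneg _)
    rw [abs_le]
    constructor <;> linarith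

/-- the truncation is controlled by the weight where the Hessian of the weight does not vanish -/
lemma cone' {ρ : C2 → ℝ} (hρ : Rho ρ) {C0 : ℝ} (_hC0 : 0 < C0)
    (hc : ∀ z ∈ Om, hess ρ z = 0 ∨ z 1 = 0 ∨ min (-Real.log ‖z 1‖) 1 ≤ C0 * (-ρ z)) {ε : ℝ} (hε : 0 < ε)
    {z : C2} (hz : z ∈ Om) (h0 : hess ρ z ≠ 0) : -Qe ε (z 1) ≤ 16 * C0 * (-ρ z) := by
  obtain ⟨q1, q2, -⟩ := Q_facts ε (z 1)
  by_cases hz1 : z 1 = 0
  · -- approach along the line
    have hcont : ContinuousOn (hess ρ) Om := HES.h4 ρ Om Om_open hρ.sp.1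
    have hat : ContinuousAt (hess ρ) z := hcont.continuousAt (Om_open.mem_nhds hz)
    have hzp : pt (z 0) 0 = z := by
      rw [← hz1, pt_self]
    have hev : ∀ᶠ y in 𝓝 (0 : ℂ), hess ρ (pt (z 0) y) ≠ 0 := by
      have h1 : Tendsto (fun y => pt (z 0) y) (𝓝 0) (𝓝 z) := by
        have := (HES.pt_cont1 (z 0)).tendsto 0
        rwa [hzp] at this
      exact (hat.tendsto.comp h1).eventually (isOpen_ne.mem_nhds h0)
    have hsm : ∀ᶠ y in 𝓝 (0 : ℂ), ‖y‖ < Real.exp (-15) :=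
      (isOpen_lt continuous_norm continuous_const).mem_nhds (by change ‖(0 : ℂ)‖ < _; rw [norm_zero]; exact Real.exp_pos _)
    have hne : ∀ᶠ y in 𝓝[≠] (0 : ℂ), y ≠ 0 := eventually_mem_nhdsWithin
    obtain ⟨y, ⟨⟨hy1, hy2⟩, hy3⟩⟩ :=
      ((((hev.filter_mono nhdsWithin_le_nhds).and (hsm.filter_mono nhdsWithin_le_nhds)).and hne)).exists
    have hO : pt (z 0) y ∈ Om := ⟨by rw [pt_0]; exact hz.1, by rw [pt_1]; exact hy2.trans h15⟩
    have h3 := hc _ hO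
    rw [pt_1] at h3
    rcases h3 with h3 | h3 | h3
    · exact absurd h3 hy1
    · exact absurd h3 hy3
    · have e1 := (hρ.flat _ hO (by rw [pt_1]; exact hy2)).1
      rw [pt_0, hzp] at e1
      rw [e1] at h3
      have hl : (1 : ℝ) ≤ -Real.log ‖y‖ := by
        have h4 : Real.log ‖y‖ < -15 := by
          rw [Real.log_lt_iff_lt_exp (norm_pos_iff.2 hy3)]
          exact hy2
        linarith
      rw [min_eq_right hl] at h3
      nlinarith
  · rcases hc z hz with h3 | h3 | h3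
    · exact absurd h3 h0
    · exact absurd h3 hz1
    · have h4 := qe_ge hε hz1 hz.2.le
      have h5 : Real.log ‖z 1‖ ≤ 0 := Real.log_nonpos (norm_nonneg _) hz.2.le
      have h6 : -Qe ε (z 1) ≤ 16 * min (-Real.log ‖z 1‖) 1 := by
        rcases le_total (-Real.log ‖z 1‖) 1 with h | h
        · rw [min_eq_left h]
          linarith
        · rw [min_eq_right h]
          linarith
      nlinarith

theorem t : Pool.Agent.H53M.XTW := by
  intro ρ hρ
  have hH := HES.t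
  obtain ⟨C0, hC0, hcone⟩ := hρ.cone
  have hρs : ContDiffOn ℝ ∞ ρ Om := hρ.sp.1
  have hnn : ∀ z ∈ Om, 0 ≤ DD ρ ρ z := fun z hz => DD_nonneg (hρ.sp.2 z hz) (hρ.sp.2 z hz)
  have hI1 : 0 ≤ ∫ z in Om, DD ρ ρ z := setIntegral_nonneg Om_open.measurableSet hnn
  have hI2 : 0 ≤ ∫ z in Om, |DD ch2 ρ z| :=
    setIntegral_nonneg Om_open.measurableSet fun z _ => abs_nonneg _
  refine ⟨16 * C0 * (∫ z in Om, DD ρ ρ z) + 16 * (∫ z in Om, |DD ch2 ρ z|) + 1, by positivity, ?_⟩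
  intro B M ε a hB hM hε ha haM
  have has : ContDiffOn ℝ ∞ a Om := ha.sp.1
  have g1 := germ_adm ha
  have g2 := germ_rho hρ
  have hDa : ∀ z ∈ Om, 0 ≤ DD a ρ z := fun z hz => DD_nonneg (ha.sp.2 z hz) (hρ.sp.2 z hz)
  have vs : ContinuousOn (vv ε) Om := (vv_smooth hε).continuous.continuousOn
  have Qs : ContinuousOn (fun z : C2 => Qe ε (z 1)) Om :=
    ((Qe_smooth hε).comp (proj_smooth 1)).continuous.continuousOn
  have i1 : IntegrableOn (fun z => (-Qe ε (z 1)) * DD a ρ z) Om := int_DD hH hρ g1 g2 Qs.neg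
  have i2 : IntegrableOn (fun z => (Qe ε (z 1) - vv ε z) * DD a ρ z) Om := int_DD hH hρ g1 g2 (Qs.sub vs)
  have i3 : IntegrableOn (fun z => (-ρ z) * DD a ρ z) Om := int_DD hH hρ g1 g2 hρs.continuousOn.neg
  have i4 : IntegrableOn (fun z => (-a z) * DD ρ ρ z) Om := int_DD hH hρ g2 g2 has.continuousOn.neg
  have i5 : IntegrableOn (fun z => (M : ℝ) * DD ρ ρ z) Om := int_DD hH hρ g2 g2 continuousOn_const
  -- splitting
  have s1 : ∫ z in Om, (-vv ε z) * DD a ρ z = (∫ z in Om, (-Qe ε (z 1)) * DD a ρ z) +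
      ∫ z in Om, (Qe ε (z 1) - vv ε z) * DD a ρ z := by
    rw [← integral_add i1 i2]
    exact integral_congr_ae (Eventually.of_forall fun z => by simp only; ring)
  -- the bounded part
  have s2 : ∫ z in Om, (-Qe ε (z 1)) * DD a ρ z ≤ 16 * C0 * ∫ z in Om, (-ρ z) * DD a ρ z := by
    rw [← integral_const_mul]
    refine setIntegral_mono_on i1 (i3.const_mul _) Om_open.measurableSet fun z hz => ?_
    by_cases h0 : hess ρ z = 0
    · have : DD a ρ z = 0 := by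
        unfold DD
        rw [h0, mul_zero, Matrix.trace_zero, Complex.zero_re]
      rw [this]
      simp
    · have h1 := cone' hρ hC0 hcone hε hz h0
      have h2 := mul_le_mul_of_nonneg_right h1 (hDa z hz)
      rw [← mul_assoc]
      exact h2
  have s3 : ∫ z in Om, (-ρ z) * DD a ρ z = ∫ z in Om, (-a z) * DD ρ ρ z := by
    have hBρ : Adm ρ B (fun z => B * ρ z) := by
      refine ⟨⟨contDiffOn_const.mul hρs, fun z hz => ?_⟩, fun z hz => ?_, fun z _ => le_rfl,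
        ∅, isCompact_empty, empty_subset _, fun _ _ _ => rfl⟩
      · rw [HES.h2 ρ B z (smAt hρs hz)]
        exact (hρ.sp.2 z hz).smul (by exact_mod_cast hB.le)
      · have := hρ.neg z hz
        nlinarith
    have h := Pool.Agent.H53M.SYM.t hH ρ B (fun z => B * ρ z) a hρ hBρ ha
    have e1 : ∫ z in Om, (-a z) * DD (fun z => B * ρ z) ρ z = B * ∫ z in Om, (-a z) * DD ρ ρ z := by
      rw [← integral_const_mul]
      refine setIntegral_congr_fun Om_open.measurableSet fun z hz => ?_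
      simp only [DD_smul hH B hρs hz]
      ring
    have e2 : ∫ z in Om, (-ρ z) * DD (fun z => B * ρ z) a z = B * ∫ z in Om, (-ρ z) * DD a ρ z := by
      rw [← integral_const_mul]
      refine setIntegral_congr_fun Om_open.measurableSet fun z hz => ?_
      simp only [DD_smul hH B hρs hz, DD_symm ρ a]
      ring
    rw [e1, e2] at h
    exact (mul_left_cancel₀ hB.ne' h).symm
  have s4 : ∫ z in Om, (-a z) * DD ρ ρ z ≤ M * ∫ z in Om, DD ρ ρ z := by
    rw [← integral_const_mul]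
    refine setIntegral_mono_on i4 i5 Om_open.measurableSet fun z hz => ?_
    exact mul_le_mul_of_nonneg_right (by linarith [haM z hz]) (hnn z hz)
  -- the singular part
  have fs : ContDiffOn ℝ ∞ (ff ε) Om := (ff_smooth hε).contDiffOn
  have cs : ContDiffOn ℝ ∞ ch2 Om := ch2_smooth.contDiffOn
  have vso : ContDiffOn ℝ ∞ (vv ε) Om := (vv_smooth hε).contDiffOn
  have s5 : ∫ z in Om, (Qe ε (z 1) - vv ε z) * DD a ρ z = ∫ z in Om, ff ε z * DD a ρ z := by
    refine setIntegral_congr_fun Om_open.measurableSet fun z hz => ?_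
    simp only
    rcases le_or_gt ‖z 0‖ (1 / 2) with h | h
    · unfold ff
      rw [chi_one h, one_mul]
      rfl
    · rcases le_or_gt (Real.exp (-(31 / 2))) ‖z 1‖ with h' | h'
      · have : Qe ε (z 1) - vv ε z = 0 := gap_zero hε h'
        unfold ff
        rw [this, gap_zero hε h', mul_zero]
      · have hexp : Real.exp (-(1 : ℝ)) < ‖z 0‖ := by
          refine lt_trans ?_ h
          rw [Real.exp_neg, inv_lt_comm₀ (Real.exp_pos _) (by norm_num)]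
          have := Real.add_one_lt_exp (one_ne_zero)
          norm_num at this ⊢
          exact this
        have h0 := flat2 hρ hz (h'.trans lt15) hexp
        have : DD a ρ z = 0 := by
          unfold DD
          rw [h0, mul_zero, Matrix.trace_zero, Complex.zero_re]
        rw [this, mul_zero, mul_zero]
  have s6 : ∫ z in Om, ff ε z * DD a ρ z = ∫ z in Om, a z * DD (ff ε) ρ z := ibt fs (ff_Z hε) has hρs
  have i6 : IntegrableOn (fun z => a z * DD (ff ε) ρ z) Om :=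
    integ (has.continuousOn.mul (DD_cont hH fs hρs)) (Z_DDl (ff_Z hε)).mul_left
  have i7 : IntegrableOn (fun z => ch2 z * DD (vv ε) ρ z) Om :=
    integ (cs.continuousOn.mul (DD_cont hH vso hρs)) ch2_Z.mul_right
  have s7 : ∫ z in Om, a z * DD (ff ε) ρ z ≤ M * ∫ z in Om, ch2 z * DD (vv ε) ρ z := by
    rw [← integral_const_mul]
    exact setIntegral_mono_on i6 (i7.const_mul _) Om_open.measurableSet fun z hz =>
      key hρ hε hM hz (ha.nonpos z hz) (haM z hz)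
  have s8 : ∫ z in Om, ch2 z * DD (vv ε) ρ z = ∫ z in Om, vv ε z * DD ch2 ρ z := ibt cs ch2_Z vso hρs
  have i8 : IntegrableOn (fun z => vv ε z * DD ch2 ρ z) Om :=
    integ (vs.mul (DD_cont hH cs hρs)) (Z_DDl ch2_Z).mul_left
  have i9 : IntegrableOn (fun z => |DD ch2 ρ z|) Om := by
    refine integ (DD_cont hH cs hρs).abs ?_
    obtain ⟨K, hK, hKO, h⟩ := Z_DDl (g := ρ) ch2_Z
    exact ⟨K, hK, hKO, fun z hz hz' => by simp only [h z hz hz', abs_zero]⟩
  have s9 : ∫ z in Om, vv ε z * DD ch2 ρ z ≤ 16 * ∫ z in Om, |DD ch2 ρ z| := by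
    rw [← integral_const_mul]
    exact setIntegral_mono_on i8 (i9.const_mul _) Om_open.measurableSet fun z hz => vv_bd hρ hε hz
  rw [s1, s5, s6]
  have t1 : ∫ z in Om, (-Qe ε (z 1)) * DD a ρ z ≤ 16 * C0 * (M * ∫ z in Om, DD ρ ρ z) := by
    refine s2.trans ?_
    rw [s3]
    exact mul_le_mul_of_nonneg_left s4 (by positivity)
  have t2 : ∫ z in Om, a z * DD (ff ε) ρ z ≤ M * (16 * ∫ z in Om, |DD ch2 ρ z|) := by
    refine s7.trans ?_
    rw [s8]
    exact mul_le_mul_of_nonneg_left s9 hM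
  nlinarith [t1, t2, hM]

end Pool.Agent.H53M.XTW
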