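import Mathlib
import Pool.Agent.H53M.AD1
import Pool.Agent.H53M.AD2
import Pool.Agent.H53M.AD3
import Pool.Agent.H53M.AD4
import Pool.Agent.H53M.ANDR
import Pool.Agent.H53M.C0C
import Pool.Agent.H53M.CMP
import Pool.Agent.H53M.CUT
import Pool.Agent.H53M.DEG
import Pool.Agent.H53M.DIN
import Pool.Agent.H53M.ENE
import Pool.Agent.H53M.ENS
import Pool.Agent.H53M.EXT
import Pool.Agent.H53M.FIB
import Pool.Agent.H53M.FIS
import Pool.Agent.H53M.FinC
import Pool.Agent.H53M.GLU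
import Pool.Agent.H53M.GRN
import Pool.Agent.H53M.GTF
import Pool.Agent.H53M.HAR
import Pool.Agent.H53M.HES
import Pool.Agent.H53M.IBT
import Pool.Agent.H53M.ITG
import Pool.Agent.H53M.LOW
import Pool.Agent.H53M.MSS
import Pool.Agent.H53M.MUI
import Pool.Agent.H53M.MXL
import Pool.Agent.H53M.MuOm
import Pool.Agent.H53M.NEG
import Pool.Agent.H53M.NEX
import Pool.Agent.H53M.PDK
import Pool.Agent.H53M.POL
import Pool.Agent.H53M.PWB
import Pool.Agent.H53M.QPO
import Pool.Agent.H53M.RAD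
import Pool.Agent.H53M.RHO
import Pool.Agent.H53M.STK
import Pool.Agent.H53M.SYM
import Pool.Agent.H53M.SZS
import Pool.Agent.H53M.TOE
import Pool.Agent.H53M.UPG
import Pool.Agent.H53M.XTW

/-!
# Project MD: assembly

All the statements of `Stm.lean` and `StmB.lean` are proved in the imported files; here they are put together.
-/

set_option autoImplicit false

open MeasureTheory Metric Set Filter Topology
open scoped ContDiff ComplexOrder

namespace Pool.Agent.H53M

open Pool.Agent.H805R2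

/-- no nonzero measure `μ ≤ c (λ ⊗ δ₀)` is the Monge-Ampere measure of a function of the class `𝓕` -/
theorem main_final (c : ℝ) (hc : 0 < c) (μ : Measure C2) (hμc : μ ≤ muD c) (h0 : μ ≠ 0) (φ : C2 → EReal) :
    ¬ IsCegrellF Om φ μ := fun h =>
  main MXL.t (ITG.t HES.t) (CMP.t HES.t) (ENE.t HES.t (SYM.t HES.t) (QPO.t HES.t)) (MSS.t HES.t) XTW.t RHO.t
    (AD1.t MXL.t HES.t) (AD2.t MXL.t)
    (AD3.t MXL.t HES.t) (AD4.t MXL.t HES.t) (UPG.t (STK.t HES.t)) (FIB.t HES.t IBT.t) C0C.t NEG.t (HAR.t GRN.t) RAD.t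
    (core (POL.t (ENS.t GRN.t PDK.t GTF.t) ANDR.t (SZS.t (TOE.t FIS.t)) HES.t) (GLU.t MXL.t)) MUI.t NEX.t CUT.t
    (LOW.t MXL.t HES.t) DIN.t EXT.t DEG.t c hc μ hμc (mu_Om_ne hμc h0) φ h

end Pool.Agent.H53M
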