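import Mathlib
import Pool.Agent.H53M.MXL
import Pool.Agent.H53M.HES
import Pool.Agent.H53M.C0C

set_option autoImplicit false

open MeasureTheory Metric Set Filter Topology
open scoped ContDiff ComplexOrder

namespace Pool.Agent.H53M.RAD

open Pool.Agent.H805R2 Pool.Agent.H53M

lemma log_norm_eq (y : ℂ) : Real.log ‖y‖ = (1 / 2) * Real.log (‖y‖ ^ 2) := by
  rw [Real.log_pow]; push_cast; ring

lemma fd_log {y : ℂ} (hy : y ≠ 0) :
    HasFDerivAt (fun y : ℂ => Real.log ‖y‖) ((1 / ‖y‖ ^ 2) • innerSL ℝ y) y := by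
  have h0 : ‖y‖ ^ 2 ≠ 0 := by positivity
  have h1 : HasFDerivAt (fun y : ℂ => ‖y‖ ^ 2) (2 • (innerSL ℝ y)) y :=
    (hasStrictFDerivAt_norm_sq y).hasFDerivAt
  have h2 := (h1.log h0).const_mul (1 / 2)
  have e : (fun y : ℂ => Real.log ‖y‖) = fun y => (1 / 2) * Real.log (‖y‖ ^ 2) :=
    funext log_norm_eq
  rw [e]
  refine h2.congr_fderiv ?_
  ext v
  simp
  ring

lemma fd_F {F : ℝ → ℝ} (hF : Differentiable ℝ F) {y : ℂ} (hy : y ≠ 0) :
    HasFDerivAt (fun y : ℂ => F (Real.log ‖y‖)) ((deriv F (Real.log ‖y‖) / ‖y‖ ^ 2) • innerSL ℝ y) y := by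
  have h1 := (hF (Real.log ‖y‖)).hasDerivAt
  have h2 := h1.comp_hasFDerivAt y (fd_log hy)
  refine h2.congr_fderiv ?_
  ext v
  simp
  ring

lemma fd_inv {y : ℂ} (hy : y ≠ 0) :
    HasFDerivAt (fun y : ℂ => (‖y‖ ^ 2)⁻¹) ((-2 / ‖y‖ ^ 4) • innerSL ℝ y) y := by
  have h0 : ‖y‖ ^ 2 ≠ 0 := by positivity
  have h1 : HasFDerivAt (fun y : ℂ => ‖y‖ ^ 2) (2 • (innerSL ℝ y)) y :=
    (hasStrictFDerivAt_norm_sq y).hasFDerivAt
  have h2 := (hasDerivAt_inv h0).comp_hasFDerivAt y h1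
  refine h2.congr_fderiv ?_
  ext v
  simp
  field_simp

lemma lap_log {F : ℝ → ℝ} (hF : ContDiff ℝ ∞ F) {y : ℂ} (hy : y ≠ 0) :
    lap4 (fun y => F (Real.log ‖y‖)) y = deriv (deriv F) (Real.log ‖y‖) / (4 * ‖y‖ ^ 2) := by
  have hFd : Differentiable ℝ F := hF.differentiable (by norm_num)
  have hF2 : ContDiff ℝ ∞ (deriv F) := (contDiff_infty_iff_deriv.1 hF).2
  have hFd2 : Differentiable ℝ (deriv F) := hF2.differentiable (by norm_num)
  have e1 : fderiv ℝ (fun y : ℂ => F (Real.log ‖y‖)) =ᶠ[𝓝 y]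
      fun w => (deriv F (Real.log ‖w‖) * (‖w‖ ^ 2)⁻¹) • innerSL ℝ w := by
    filter_upwards [isOpen_ne.mem_nhds hy] with w hw
    rw [(fd_F hFd hw).fderiv, div_eq_mul_inv]
  have h1 : HasFDerivAt (fun w : ℂ => deriv F (Real.log ‖w‖) * (‖w‖ ^ 2)⁻¹) _ y :=
    (fd_F hFd2 hy).mul (fd_inv hy)
  have h2 : HasFDerivAt (fun w : ℂ => innerSL ℝ w) (innerSL ℝ : ℂ →L[ℝ] ℂ →L[ℝ] ℝ) y :=
    (innerSL ℝ : ℂ →L[ℝ] ℂ →L[ℝ] ℝ).hasFDerivAt
  have h3 := h1.smul h2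
  have e2 : fderiv ℝ (fderiv ℝ (fun y : ℂ => F (Real.log ‖y‖))) y = _ :=
    e1.fderiv_eq.trans h3.fderiv
  unfold lap4
  rw [e2]
  have h0 : ‖y‖ ≠ 0 := norm_ne_zero_iff.2 hy
  have hn : y.re ^ 2 + y.im ^ 2 = ‖y‖ ^ 2 := by
    rw [← Complex.normSq_eq_norm_sq, Complex.normSq_apply]; ring
  have i1 : ((innerSL ℝ) (1 : ℂ)) (1 : ℂ) = 1 := by
    rw [innerSL_apply_apply]; simp
  have iI : ((innerSL ℝ) Complex.I) Complex.I = 1 := by
    rw [innerSL_apply_apply]; simp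
  simp [Complex.inner]
  field_simp
  rw [i1, iI]
  linear_combination (-(deriv F (Real.log ‖y‖) * 2) + deriv (deriv F) (Real.log ‖y‖)) * hn

/-- the radial function -/
noncomputable def qq (R : ℝ) (y : ℂ) : ℝ :=
  if y = 0 then -(R + 1 / 2) else mm (Real.log ‖y‖ + (R + 1 / 2)) - (R + 1 / 2)

lemma dd_mm_ge {x : ℝ} (hx : 1 / 2 ≤ x) : deriv (deriv mm) x = 0 := by
  rw [MXL.mm_deriv]
  apply IsLocalMax.deriv_eq_zero
  filter_upwards with y
  have h1 : Real.smoothTransition (x + 1 / 2) = 1 :=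
    Real.smoothTransition.one_of_one_le (by linarith)
  rw [h1]
  exact Real.smoothTransition.le_one _

lemma dd_mm_le {x : ℝ} (hx : x ≤ -(1 / 2)) : deriv (deriv mm) x = 0 := by
  rw [MXL.mm_deriv]
  apply IsLocalMin.deriv_eq_zero
  filter_upwards with y
  have h1 : Real.smoothTransition (x + 1 / 2) = 0 :=
    Real.smoothTransition.zero_of_nonpos (by linarith)
  rw [h1]
  exact Real.smoothTransition.nonneg _

lemma qq_near {R : ℝ} {y : ℂ} (hy : ‖y‖ ≤ Real.exp (-(R + 1))) : qq R y = -(R + 1 / 2) := by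
  unfold qq
  split_ifs with h
  · rfl
  · have h1 : Real.log ‖y‖ ≤ -(R + 1) := by
      rw [Real.log_le_iff_le_exp (norm_pos_iff.2 h)]
      exact hy
    rw [MXL.mm_of_le (by linarith)]
    ring

lemma qq_ev {R : ℝ} {y : ℂ} (hy : y ≠ 0) :
    qq R =ᶠ[𝓝 y] fun w => (fun s => mm (s + (R + 1 / 2)) - (R + 1 / 2)) (Real.log ‖w‖) := by
  filter_upwards [isOpen_ne.mem_nhds hy] with w hw
  unfold qq
  rw [if_neg hw]

lemma FF_smooth (R : ℝ) : ContDiff ℝ ∞ (fun s : ℝ => mm (s + (R + 1 / 2)) - (R + 1 / 2)) :=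
  (MXL.mm_smooth.comp (contDiff_id.add contDiff_const)).sub contDiff_const

lemma FF_dd (R s : ℝ) : deriv (deriv (fun s : ℝ => mm (s + (R + 1 / 2)) - (R + 1 / 2))) s =
    deriv (deriv mm) (s + (R + 1 / 2)) := by
  have e : deriv (fun s : ℝ => mm (s + (R + 1 / 2)) - (R + 1 / 2)) =
      fun s => deriv mm (s + (R + 1 / 2)) := by
    funext s
    rw [deriv_sub_const, deriv_comp_add_const]
  rw [e, deriv_comp_add_const]

lemma qq_smooth (R : ℝ) : ContDiff ℝ ∞ (qq R) := by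
  rw [contDiff_iff_contDiffAt]
  intro y
  by_cases hy : y = 0
  · subst hy
    have : qq R =ᶠ[𝓝 0] fun _ => -(R + 1 / 2) := by
      filter_upwards [closedBall_mem_nhds (0 : ℂ) (Real.exp_pos (-(R + 1)))] with w hw
      exact qq_near (by simpa using hw)
    exact contDiffAt_const.congr_of_eventuallyEq this
  · refine ContDiffAt.congr_of_eventuallyEq ?_ (qq_ev hy)
    exact (FF_smooth R).contDiffAt.comp y ((contDiffAt_norm ℝ hy).log (norm_ne_zero_iff.2 hy))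

lemma qq_lap0 (R : ℝ) : lap4 (qq R) 0 = 0 := by
  have : qq R =ᶠ[𝓝 0] fun _ => -(R + 1 / 2) := by
    filter_upwards [closedBall_mem_nhds (0 : ℂ) (Real.exp_pos (-(R + 1)))] with w hw
    exact qq_near (by simpa using hw)
  rw [HES.lap4_congr this]
  simp [lap4]

lemma qq_lap {R : ℝ} {y : ℂ} (hy : y ≠ 0) :
    lap4 (qq R) y = deriv (deriv mm) (Real.log ‖y‖ + (R + 1 / 2)) / (4 * ‖y‖ ^ 2) := by
  rw [HES.lap4_congr (qq_ev hy), lap_log (FF_smooth R) hy, FF_dd]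

lemma dd_mm_nonneg (x : ℝ) : 0 ≤ deriv (deriv mm) x := (MXL.t.2.2.2.2.1 x).2.2

lemma qq_lap_nonneg (R : ℝ) (y : ℂ) : 0 ≤ lap4 (qq R) y := by
  by_cases hy : y = 0
  · rw [hy, qq_lap0]
  · rw [qq_lap hy]
    exact div_nonneg (dd_mm_nonneg _) (by positivity)

lemma qq_lap_zero {R : ℝ} (hR : 15 ≤ R) {y : ℂ} (hy : Real.exp (-15) ≤ ‖y‖) : lap4 (qq R) y = 0 := by
  have h0 : y ≠ 0 := by
    rintro rfl
    rw [norm_zero] at hy
    exact absurd (Real.exp_pos (-15)) (by linarith)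
  rw [qq_lap h0, dd_mm_ge, zero_div]
  have : -15 ≤ Real.log ‖y‖ := by
    rw [Real.le_log_iff_exp_le (norm_pos_iff.2 h0)]
    exact hy
  linarith

lemma qq_bd {R : ℝ} (hR : 15 ≤ R) {y : ℂ} (hy : ‖y‖ < 1) : -(R + 1) ≤ qq R y ∧ qq R y ≤ 0 := by
  unfold qq
  split_ifs with h
  · constructor <;> linarith
  · have h1 := (le_max_right (Real.log ‖y‖ + (R + 1 / 2)) 0).trans
      (MXL.max_le_mm (Real.log ‖y‖ + (R + 1 / 2)))
    have h2 : Real.log ‖y‖ < 0 := Real.log_neg (norm_pos_iff.2 h) hy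
    have h3 := MXL.mm_mono (show Real.log ‖y‖ + (R + 1 / 2) ≤ R + 1 / 2 by linarith)
    rw [MXL.mm_of_ge (show 1 / 2 ≤ R + 1 / 2 by linarith)] at h3
    constructor <;> linarith

/-- formula for the mixed determinant -/
lemma DD_eq (a : C2 → ℝ) (R : ℝ) (z : C2) :
    DD a (fun w => qq R (w 1)) z = (hess a z 0 0).re * lap4 (qq R) (z 1) := by
  unfold DD
  rw [HES.h6 (qq R) z (qq_smooth R), Matrix.adjugate_fin_two, Matrix.trace_fin_two]
  simp [Matrix.mul_apply, Fin.sum_univ_two]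


end Pool.Agent.H53M.RAD
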