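import Mathlib
import Pool.Agent.H53M.RADa

set_option autoImplicit false

open MeasureTheory Metric Set Filter Topology
open scoped ContDiff ComplexOrder

namespace Pool.Agent.H53M.RAD

open Pool.Agent.H805R2 Pool.Agent.H53M

/-- the isometry between the two models of `ℂ²` -/
noncomputable def iso : WithLp 2 (ℂ × ℂ) ≃ₗᵢ[ℝ] C2 where
  toFun p := pt p.fst p.snd
  invFun z := WithLp.toLp 2 (z 0, z 1)
  left_inv p := rfl
  right_inv z := by
    ext i; fin_cases i <;> simp [pt]
  map_add' p q := by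
    ext i; fin_cases i <;> simp [pt]
  map_smul' c p := by
    ext i; fin_cases i <;> simp [pt]
  norm_map' p := by
    rw [EuclideanSpace.norm_eq, WithLp.prod_norm_eq_of_L2]
    simp [pt, Fin.sum_univ_two]

lemma mp_pt : MeasurePreserving (fun p : ℂ × ℂ => pt p.1 p.2) volume volume :=
  iso.measurePreserving.comp (WithLp.volume_preserving_toLp ℂ ℂ)

lemma me_pt : MeasurableEmbedding (fun p : ℂ × ℂ => pt p.1 p.2) :=
  iso.toHomeomorph.measurableEmbedding.comp (MeasurableEquiv.toLp 2 (ℂ × ℂ)).measurableEmbedding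

lemma pt_eta (z : C2) : pt (z 0) (z 1) = z := by
  ext i; fin_cases i <;> simp [pt]

lemma pt_mem (x y : ℂ) : pt x y ∈ Om ↔ ‖x‖ < 1 ∧ ‖y‖ < 1 := by
  simp [Om, pt]

lemma pt_cont : Continuous (fun p : ℂ × ℂ => pt p.1 p.2) := by
  have : (fun p : ℂ × ℂ => pt p.1 p.2) = fun p => (pt 0 0 + p.1 • bas 0) + p.2 • bas 1 := by
    funext p
    ext i; fin_cases i <;> simp [pt, bas]
  rw [this]
  fun_prop

/-- the integrand -/
noncomputable def ff (a : C2 → ℝ) (R : ℝ) (z : C2) : ℝ := (-a z) * DD a (fun w => qq R (w 1)) z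

section
variable {ρ a : C2 → ℝ} {B R : ℝ}

lemma hess_psd_re (hA : Adm ρ B a) {z : C2} (hz : z ∈ Om) : 0 ≤ (hess a z 0 0).re := by
  have h := (hA.sp.2 z hz).diag_nonneg (i := 0)
  exact (Complex.le_def.1 h).1

lemma ff_nonneg (hA : Adm ρ B a) {z : C2} (hz : z ∈ Om) : 0 ≤ ff a R z := by
  unfold ff
  rw [DD_eq]
  exact mul_nonneg (by linarith [hA.nonpos z hz]) (mul_nonneg (hess_psd_re hA hz) (qq_lap_nonneg R _))

lemma ff_cont (hA : Adm ρ B a) : ContinuousOn (ff a R) Om := by
  have h1 : ContinuousOn (hess a) Om := HES.h4 a Om C0C.Om_open hA.sp.1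
  have h2 : Continuous fun z : C2 => lap4 (qq R) (z 1) := by
    have h := qq_smooth R
    have h' : Continuous (lap4 (qq R)) := by
      have h3 : Continuous (fderiv ℝ (fderiv ℝ (qq R))) := by
        have h4 : ContDiff ℝ ∞ (fderiv ℝ (qq R)) := h.fderiv_right (m := ∞) (by norm_num)
        exact h4.continuous_fderiv (by norm_num)
      unfold lap4
      exact (((h3.clm_apply continuous_const).clm_apply continuous_const).add
        ((h3.clm_apply continuous_const).clm_apply continuous_const)).div_const _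
    exact h'.comp (by fun_prop)
  have h3 : ContinuousOn (fun z => (hess a z 0 0).re) Om := by
    have : Continuous fun M : Matrix (Fin 2) (Fin 2) ℂ => (M 0 0).re := by fun_prop
    exact this.comp_continuousOn h1
  have e : ff a R = fun z => (-a z) * ((hess a z 0 0).re * lap4 (qq R) (z 1)) := by
    funext z; unfold ff; rw [DD_eq]
  rw [e]
  exact hA.sp.1.continuousOn.neg.mul (h3.mul h2.continuousOn)

lemma ff_zero (hρ : Rho ρ) (hR : 15 ≤ R) (hA : Adm ρ B a) :
    ∃ K : Set C2, IsCompact K ∧ K ⊆ Om ∧ ∀ z ∈ Om, z ∉ K → ff a R z = 0 := by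
  obtain ⟨K, hK, hKO, hKa⟩ := hA.germ
  refine ⟨K ∪ (fun p : ℂ × ℂ => pt p.1 p.2) '' (closedBall 0 (Real.exp (-1)) ×ˢ closedBall 0 (Real.exp (-15))),
    hK.union (((isCompact_closedBall _ _).prod (isCompact_closedBall _ _)).image pt_cont), ?_, ?_⟩
  · refine union_subset hKO ?_
    rintro z ⟨⟨x, y⟩, ⟨hx, hy⟩, rfl⟩
    simp only [mem_closedBall, dist_zero_right] at hx hy
    have e1 : Real.exp (-1) < 1 := by rw [Real.exp_lt_one_iff]; norm_num
    have e2 : Real.exp (-15) < 1 := by rw [Real.exp_lt_one_iff]; norm_num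
    exact (pt_mem x y).2 ⟨by linarith, by linarith⟩
  · intro z hz hzK
    have hzK1 : z ∉ K := fun h => hzK (Or.inl h)
    have hzK2 : ¬ (‖z 0‖ ≤ Real.exp (-1) ∧ ‖z 1‖ ≤ Real.exp (-15)) := by
      intro h
      apply hzK
      right
      exact ⟨(z 0, z 1), ⟨by simpa using h.1, by simpa using h.2⟩, pt_eta z⟩
    unfold ff
    rw [DD_eq]
    by_cases h15 : Real.exp (-15) ≤ ‖z 1‖
    · rw [qq_lap_zero hR h15]; ring
    · have h15' : ‖z 1‖ < Real.exp (-15) := not_le.1 h15
      have h1 : Real.exp (-1) < ‖z 0‖ := by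
        by_contra h
        exact hzK2 ⟨not_lt.1 h, h15'.le⟩
      have hev : ∀ᶠ w in 𝓝 z, a w = B * Real.log ‖w 0‖ := by
        have c0 : Continuous fun z : C2 => ‖z 0‖ := by fun_prop
        have c1 : Continuous fun z : C2 => ‖z 1‖ := by fun_prop
        filter_upwards [C0C.Om_open.mem_nhds hz, hK.isClosed.isOpen_compl.mem_nhds hzK1,
          (isOpen_lt continuous_const c0).mem_nhds h1,
          (isOpen_lt c1 continuous_const).mem_nhds h15'] with w w1 w2 w3 w4
        rw [hKa w w1 w2, (hρ.flat w w1 w4).2 w3]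
      have h2 := (HES.h5 a (z 0) (z 1) (by
        rw [pt_eta]; exact hA.sp.1.contDiffAt (C0C.Om_open.mem_nhds hz))).1
      rw [pt_eta] at h2
      have h3 : (fun x' => a (pt x' (z 1))) =ᶠ[𝓝 (z 0)] fun x' => (fun s => B * s) (Real.log ‖x'‖) := by
        have hc : Tendsto (fun x' => pt x' (z 1)) (𝓝 (z 0)) (𝓝 z) := by
          have := (HES.pt_cont0 (z 1)).tendsto (z 0)
          rwa [pt_eta] at this
        filter_upwards [hc.eventually hev] with x' hx'
        rw [hx']
        simp [pt]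
      have hz0 : z 0 ≠ 0 := by
        intro h
        rw [h, norm_zero] at h1
        exact absurd (Real.exp_pos (-1)) (by linarith)
      rw [h2, HES.lap4_congr h3, lap_log (F := fun s => B * s) (contDiff_const.mul contDiff_id) hz0]
      have : deriv (fun s : ℝ => B * s) = fun _ => B := by
        funext s
        simp
      rw [this]
      simp

lemma ff_int (hρ : Rho ρ) (hR : 15 ≤ R) (hA : Adm ρ B a) : IntegrableOn (ff a R) Om := by
  obtain ⟨K, hK, hKO, h0⟩ := ff_zero (R := R) hρ hR hA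
  exact (((ff_cont hA).mono hKO).integrableOn_compact hK).of_forall_sdiff_eq_zero
    C0C.Om_open.measurableSet fun z hz => h0 z hz.1 hz.2

/-- the function of two variables -/
noncomputable def gg2 (a : C2 → ℝ) (R : ℝ) (p : ℂ × ℂ) : ℝ := Om.indicator (ff a R) (pt p.1 p.2)

lemma gg2_meas (hA : Adm ρ B a) : Measurable (gg2 a R) := by
  classical
  have h : Measurable (Om.indicator (ff a R)) := by
    rw [← Set.piecewise_eq_indicator]
    exact (ff_cont hA).measurable_piecewise continuousOn_const C0C.Om_open.measurableSet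
  exact h.comp pt_cont.measurable

lemma gg2_int (hρ : Rho ρ) (hR : 15 ≤ R) (hA : Adm ρ B a) :
    Integrable (gg2 a R) ((volume : Measure ℂ).prod volume) := by
  have h := (integrable_indicator_iff C0C.Om_open.measurableSet).2 (ff_int hρ hR hA)
  exact (mp_pt.integrable_comp_emb me_pt).2 h

/-- the function of `y` -/
noncomputable def hh (a : C2 → ℝ) (R : ℝ) (y : ℂ) : ℝ := ∫ x, gg2 a R (x, y)

lemma hh_meas (hA : Adm ρ B a) : Measurable (hh a R) :=
  ((gg2_meas (R := R) hA).stronglyMeasurable.integral_prod_left').measurable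

lemma hh_int (hρ : Rho ρ) (hR : 15 ≤ R) (hA : Adm ρ B a) : Integrable (hh a R) :=
  (gg2_int hρ hR hA).integral_prod_right

lemma gg2_nonneg (hA : Adm ρ B a) (p : ℂ × ℂ) : 0 ≤ gg2 a R p := by
  unfold gg2
  exact Set.indicator_nonneg (fun z hz => ff_nonneg hA hz) _

lemma hh_nonneg (hA : Adm ρ B a) (y : ℂ) : 0 ≤ hh a R y :=
  integral_nonneg fun x => gg2_nonneg hA (x, y)

lemma J_eq (hρ : Rho ρ) (hR : 15 ≤ R) (hA : Adm ρ B a) : ∫ z in Om, ff a R z = ∫ y, hh a R y := by
  rw [← integral_indicator C0C.Om_open.measurableSet]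
  rw [← mp_pt.integral_comp me_pt]
  exact integral_prod_symm _ (gg2_int hρ hR hA)

lemma hh_eq (y : ℂ) (hy : ‖y‖ < 1) : hh a R y = lap4 (qq R) y * LE a y := by
  unfold hh LE
  rw [← integral_const_mul, ← integral_indicator measurableSet_ball]
  congr 1
  funext x
  unfold gg2
  by_cases hx : ‖x‖ < 1
  · rw [Set.indicator_of_mem ((pt_mem x y).2 ⟨hx, hy⟩), Set.indicator_of_mem (by simpa using hx)]
    unfold ff
    rw [DD_eq]
    have : (pt x y) 1 = y := by simp [pt]
    rw [this]
    ring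
  · rw [Set.indicator_of_notMem (fun h => hx ((pt_mem x y).1 h).1),
      Set.indicator_of_notMem (by simpa using hx)]

end

end Pool.Agent.H53M.RAD
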