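import Mathlib
import Pool.Agent.H53M.RADb

set_option autoImplicit false

open MeasureTheory Metric Set Filter Topology
open scoped ContDiff ComplexOrder ENNReal

namespace Pool.Agent.H53M.RAD

open Pool.Agent.H805R2 Pool.Agent.H53M

/-- the weight -/
noncomputable def WW (R r : ℝ) : ℝ := deriv (deriv mm) (Real.log r + (R + 1 / 2)) / (4 * r)

lemma WW_nonneg (R : ℝ) {r : ℝ} (hr : 0 < r) : 0 ≤ WW R r :=
  div_nonneg (dd_mm_nonneg _) (by positivity)

lemma dmm_smooth : ContDiff ℝ ∞ (deriv mm) := (contDiff_infty_iff_deriv.1 MXL.mm_smooth).2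

lemma ddmm_cont : Continuous (deriv (deriv mm)) := (contDiff_infty_iff_deriv.1 dmm_smooth).2.continuous

lemma exp_lt (R : ℝ) : Real.exp (-(R + 1)) < Real.exp (-R) := Real.exp_lt_exp.2 (by linarith)

lemma WW_int (R : ℝ) : ∫ r in (Real.exp (-(R + 1)))..(Real.exp (-R)), WW R r = 1 / 4 := by
  have hpos : ∀ r ∈ uIcc (Real.exp (-(R + 1))) (Real.exp (-R)), 0 < r := by
    intro r hr
    rw [uIcc_of_le (exp_lt R).le] at hr
    exact (Real.exp_pos _).trans_le hr.1
  have h1 : ∀ r ∈ uIcc (Real.exp (-(R + 1))) (Real.exp (-R)),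
      HasDerivAt (fun r => deriv mm (Real.log r + (R + 1 / 2)) / 4) (WW R r) r := by
    intro r hr
    have hr0 := hpos r hr
    have h2 : HasDerivAt (fun r => Real.log r + (R + 1 / 2)) r⁻¹ r :=
      (Real.hasDerivAt_log hr0.ne').add_const _
    have h3 : HasDerivAt (deriv mm) (deriv (deriv mm) (Real.log r + (R + 1 / 2))) (Real.log r + (R + 1 / 2)) :=
      ((dmm_smooth.differentiable (by norm_num)) _).hasDerivAt
    have h4 := (h3.comp r h2).div_const 4
    refine h4.congr_deriv ?_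
    unfold WW
    field_simp
  have h2 : ContinuousOn (WW R) (uIcc (Real.exp (-(R + 1))) (Real.exp (-R))) := by
    intro r hr
    have hr0 := hpos r hr
    have h3 : ContinuousAt (fun r => Real.log r + (R + 1 / 2)) r :=
      (Real.continuousAt_log hr0.ne').add continuousAt_const
    have h4 : ContinuousAt (WW R) r :=
      (ddmm_cont.continuousAt.comp h3).div (by fun_prop) (by positivity)
    exact h4.continuousWithinAt
  rw [intervalIntegral.integral_eq_sub_of_hasDerivAt h1 h2.intervalIntegrable]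
  rw [Real.log_exp, Real.log_exp, MXL.mm_deriv]
  have e1 : Real.smoothTransition (-R + (R + 1 / 2) + 1 / 2) = 1 :=
    Real.smoothTransition.one_of_one_le (by linarith)
  have e2 : Real.smoothTransition (-(R + 1) + (R + 1 / 2) + 1 / 2) = 0 :=
    Real.smoothTransition.zero_of_nonpos (by linarith)
  simp only [e1, e2]
  norm_num

lemma WW_lint (R : ℝ) :
    ∫⁻ r in Icc (Real.exp (-(R + 1))) (Real.exp (-R)), ENNReal.ofReal (WW R r) = ENNReal.ofReal (1 / 4) := by
  have hpos : ∀ r ∈ Icc (Real.exp (-(R + 1))) (Real.exp (-R)), 0 < r := by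
    intro r hr
    exact (Real.exp_pos _).trans_le hr.1
  have h2 : ContinuousOn (WW R) (Icc (Real.exp (-(R + 1))) (Real.exp (-R))) := by
    intro r hr
    have hr0 := hpos r hr
    have h3 : ContinuousAt (fun r => Real.log r + (R + 1 / 2)) r :=
      (Real.continuousAt_log hr0.ne').add continuousAt_const
    have h4 : ContinuousAt (WW R) r :=
      (ddmm_cont.continuousAt.comp h3).div (by fun_prop) (by positivity)
    exact h4.continuousWithinAt
  rw [← WW_int R, intervalIntegral.integral_of_le (exp_lt R).le, ← integral_Icc_eq_integral_Ioc,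
    ofReal_integral_eq_lintegral_ofReal (h2.integrableOn_compact isCompact_Icc)]
  filter_upwards [ae_restrict_mem measurableSet_Icc] with r hr using WW_nonneg R (hpos r hr)

lemma cp_cont : Continuous fun p : ℝ × ℝ => cp p.1 p.2 := by
  unfold cp
  fun_prop

lemma cp_norm {r : ℝ} (hr : 0 ≤ r) (θ : ℝ) : ‖cp r θ‖ = r := by
  unfold cp
  rw [norm_mul, mul_comm Complex.I, Complex.norm_exp_ofReal_mul_I, mul_one, Complex.norm_real,
    Real.norm_eq_abs, abs_of_nonneg hr]

lemma cp_polar (p : ℝ × ℝ) : Complex.polarCoord.symm p = cp p.1 p.2 := by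
  rw [Complex.polarCoord_symm_apply]
  unfold cp
  rw [mul_comm Complex.I, Complex.exp_mul_I]
  simp

lemma le_lint {α : Type*} [MeasurableSpace α] {μ : Measure α} (f : α → ℝ) (hf : 0 ≤ᵐ[μ] f) :
    ENNReal.ofReal (∫ x, f x ∂μ) ≤ ∫⁻ x, ENNReal.ofReal (f x) ∂μ := by
  by_cases h : Integrable f μ
  · rw [ofReal_integral_eq_lintegral_ofReal h hf]
  · rw [integral_undef h]
    simp

section
variable {ρ a : C2 → ℝ} {B R : ℝ}

lemma LE_nonneg (hA : Adm ρ B a) {y : ℂ} (hy : ‖y‖ < 1) : 0 ≤ LE a y := by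
  unfold LE
  apply setIntegral_nonneg measurableSet_ball
  intro x hx
  have hm : pt x y ∈ Om := (pt_mem x y).2 ⟨by simpa using hx, hy⟩
  exact mul_nonneg (by linarith [hA.nonpos _ hm]) (hess_psd_re hA hm)

/-- circle integral -/
noncomputable def TT (a : C2 → ℝ) (r : ℝ) : ℝ := ∫ θ in (0 : ℝ)..(2 * Real.pi), LE a (cp r θ)

lemma TT_eq (a : C2 → ℝ) (r : ℝ) : TT a r = ∫ θ in Ioo (-Real.pi) Real.pi, LE a (cp r θ) := by
  have hp : Function.Periodic (fun θ => LE a (cp r θ)) (2 * Real.pi) := by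
    intro θ
    have : cp r (θ + 2 * Real.pi) = cp r θ := by
      unfold cp
      congr 1
      push_cast
      rw [mul_add, Complex.exp_add]
      have : Complex.I * (2 * (Real.pi : ℂ)) = 2 * Real.pi * Complex.I := by ring
      rw [this, Complex.exp_two_pi_mul_I, mul_one]
    simp only [this]
  have h := hp.intervalIntegral_add_eq 0 (-Real.pi)
  rw [zero_add] at h
  unfold TT
  rw [h]
  have e : -Real.pi + 2 * Real.pi = Real.pi := by ring
  rw [e, intervalIntegral.integral_of_le (by linarith [Real.pi_pos]), integral_Ioc_eq_integral_Ioo]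

lemma key1 (hρ : Rho ρ) (hR : 15 ≤ R) (hA : Adm ρ B a) :
    ∫⁻ r in Icc (Real.exp (-(R + 1))) (Real.exp (-R)), ∫⁻ θ in Ioo (-Real.pi) Real.pi,
      ENNReal.ofReal r * ENNReal.ofReal (hh a R (cp r θ)) ≤ ENNReal.ofReal (∫ z in Om, ff a R z) := by
  rw [J_eq hρ hR hA, ofReal_integral_eq_lintegral_ofReal (hh_int hρ hR hA)
    (Eventually.of_forall fun y => hh_nonneg hA y), ← Complex.lintegral_comp_polarCoord_symm]
  have hsub : Icc (Real.exp (-(R + 1))) (Real.exp (-R)) ×ˢ Ioo (-Real.pi) Real.pi ⊆ polarCoord.target := by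
    rintro ⟨r, θ⟩ ⟨hr, hθ⟩
    exact ⟨(Real.exp_pos _).trans_le hr.1, hθ⟩
  refine le_trans ?_ (lintegral_mono_set hsub)
  have hm : Measurable fun p : ℝ × ℝ => ENNReal.ofReal p.1 * ENNReal.ofReal (hh a R (cp p.1 p.2)) := by
    refine (ENNReal.measurable_ofReal.comp measurable_fst).mul (ENNReal.measurable_ofReal.comp ?_)
    exact (hh_meas (R := R) hA).comp cp_cont.measurable
  have h := setLIntegral_prod (μ := (volume : Measure ℝ)) (ν := (volume : Measure ℝ))
    (s := Icc (Real.exp (-(R + 1))) (Real.exp (-R))) (t := Ioo (-Real.pi) Real.pi) _ hm.aemeasurable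
  simp only at h
  rw [← h]
  apply le_of_eq
  rw [Measure.volume_eq_prod]
  congr 1
  funext p
  rw [cp_polar, smul_eq_mul]

lemma key2 (hR : 15 ≤ R) (hA : Adm ρ B a) {r : ℝ} (hr : r ∈ Icc (Real.exp (-(R + 1))) (Real.exp (-R))) :
    ENNReal.ofReal (WW R r) * ENNReal.ofReal (TT a r) ≤ ∫⁻ θ in Ioo (-Real.pi) Real.pi,
      ENNReal.ofReal r * ENNReal.ofReal (hh a R (cp r θ)) := by
  have hr0 : 0 < r := (Real.exp_pos _).trans_le hr.1
  have hr1 : r < 1 := hr.2.trans_lt (by rw [Real.exp_lt_one_iff]; linarith)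
  have h1 : ∀ θ, ENNReal.ofReal r * ENNReal.ofReal (hh a R (cp r θ)) =
      ENNReal.ofReal (WW R r) * ENNReal.ofReal (LE a (cp r θ)) := by
    intro θ
    have hn := cp_norm hr0.le θ
    rw [← ENNReal.ofReal_mul hr0.le, ← ENNReal.ofReal_mul (WW_nonneg R hr0), hh_eq _ (by rw [hn]; exact hr1),
      qq_lap (by rw [← norm_ne_zero_iff, hn]; exact hr0.ne'), hn]
    congr 1
    unfold WW
    field_simp
  simp only [h1]
  rw [lintegral_const_mul' _ _ ENNReal.ofReal_ne_top]
  gcongr
  rw [TT_eq]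
  apply le_lint
  filter_upwards with θ
  exact LE_nonneg hA (by rw [cp_norm hr0.le]; exact hr1)

end

theorem t : Pool.Agent.H53M.RAD := by
  intro R hR
  refine ⟨qq R, qq_smooth R, fun y hy => ⟨(qq_bd hR hy).1, (qq_bd hR hy).2, qq_lap_nonneg R y⟩,
    fun y hy _ => qq_lap_zero hR hy, ?_⟩
  intro ρ a B hρ hB hA
  by_contra hcon
  push Not at hcon
  set J := ∫ z in Om, ff a R z with hJ
  have hJ' : (∫ z in Om, (-a z) * DD a (fun w => qq R (w 1)) z) = J := rfl
  have hJ0 : 0 ≤ J := setIntegral_nonneg C0C.Om_open.measurableSet fun z hz => ff_nonneg hA hz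
  have hT : ∀ r ∈ Icc (Real.exp (-(R + 1))) (Real.exp (-R)), 2 * Real.pi * J < TT a r := by
    intro r hr
    have h := hcon r hr.1 hr.2
    rw [hJ'] at h
    have h2 : J < (1 / (2 * Real.pi)) * TT a r := h
    have hpi := Real.pi_pos
    have h3 : 2 * Real.pi * J < 2 * Real.pi * ((1 / (2 * Real.pi)) * TT a r) := by
      apply mul_lt_mul_of_pos_left h2; positivity
    have h4 : 2 * Real.pi * ((1 / (2 * Real.pi)) * TT a r) = TT a r := by field_simp
    linarith
  have hk1 := key1 hρ hR hA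
  -- first J ≤ 0
  have hJle : J ≤ 0 := by
    have h1 : ∫⁻ r in Icc (Real.exp (-(R + 1))) (Real.exp (-R)),
        ENNReal.ofReal (WW R r) * ENNReal.ofReal (2 * Real.pi * J) ≤ ENNReal.ofReal J := by
      refine le_trans ?_ hk1
      apply setLIntegral_mono' measurableSet_Icc
      intro r hr
      refine le_trans ?_ (key2 hR hA hr)
      gcongr
      exact (hT r hr).le
    rw [lintegral_mul_const' _ _ ENNReal.ofReal_ne_top, WW_lint, ← ENNReal.ofReal_mul (by norm_num),
      ENNReal.ofReal_le_ofReal_iff hJ0] at h1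
    have hpi := Real.pi_gt_three
    nlinarith
  have hJz : J = 0 := le_antisymm hJle hJ0
  rw [← hJ, hJz, ENNReal.ofReal_zero, nonpos_iff_eq_zero] at hk1
  have hm : Measurable fun p : ℝ × ℝ => ENNReal.ofReal p.1 * ENNReal.ofReal (hh a R (cp p.1 p.2)) := by
    refine (ENNReal.measurable_ofReal.comp measurable_fst).mul (ENNReal.measurable_ofReal.comp ?_)
    exact (hh_meas (R := R) hA).comp cp_cont.measurable
  have hm2 : Measurable fun r : ℝ => ∫⁻ θ in Ioo (-Real.pi) Real.pi,
      ENNReal.ofReal r * ENNReal.ofReal (hh a R (cp r θ)) :=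
    hm.lintegral_prod_right'
  rw [lintegral_eq_zero_iff hm2] at hk1
  have hW : ∫⁻ r in Icc (Real.exp (-(R + 1))) (Real.exp (-R)), ENNReal.ofReal (WW R r) = 0 := by
    rw [lintegral_eq_zero_of_ae_eq_zero]
    filter_upwards [hk1, ae_restrict_mem measurableSet_Icc] with r h1 hr
    have h2 := key2 hR hA hr
    simp only [Pi.zero_apply] at h1
    rw [h1, nonpos_iff_eq_zero, mul_eq_zero] at h2
    rcases h2 with h2 | h2
    · exact h2
    · exfalso
      rw [ENNReal.ofReal_eq_zero] at h2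
      have := hT r hr
      rw [hJz, mul_zero] at this
      linarith
  rw [WW_lint] at hW
  norm_num at hW

end Pool.Agent.H53M.RAD
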