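import Pool.Agent.H53M.HES
import Pool.Agent.H53M.MXL

/-!
# Stub RHO, part A: positivity of the complex Hessian at minima, functions of one coordinate
-/

set_option autoImplicit false

open MeasureTheory Metric Set Filter Topology
open scoped ContDiff ComplexOrder

namespace Pool.Agent.H53M.RHO

open Pool.Agent.H53M Pool.Agent.H805R2

/-- second derivative along a real line -/
lemma line_deriv {F : C2 → ℝ} (hF : ContDiff ℝ 2 F) (z v : C2) :
    deriv (deriv fun t : ℝ => F (z + t • v)) 0 = D2 F z v v := by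
  have hFd : ∀ y, DifferentiableAt ℝ F y := fun y => (hF.differentiable (by norm_num)).differentiableAt
  have hFd2 : ∀ y, DifferentiableAt ℝ (fderiv ℝ F) y := fun y =>
    ((hF.fderiv_right (m := 1) (by norm_num)).differentiable (by norm_num)).differentiableAt
  have hA : ∀ t : ℝ, HasDerivAt (fun t : ℝ => z + t • v) v t := by
    intro t
    have h := ((hasDerivAt_id t).smul_const v).const_add z
    simpa using h
  have e1 : (deriv fun t : ℝ => F (z + t • v)) = fun t => fderiv ℝ F (z + t • v) v := by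
    funext t
    exact ((hFd _).hasFDerivAt.comp_hasDerivAt t (hA t)).deriv
  rw [e1]
  have e2 : HasDerivAt (fun t : ℝ => fderiv ℝ F (z + t • v)) (fderiv ℝ (fderiv ℝ F) (z + (0 : ℝ) • v) v) 0 :=
    (hFd2 _).hasFDerivAt.comp_hasDerivAt 0 (hA 0)
  have e3 : HasDerivAt (fun t : ℝ => fderiv ℝ F (z + t • v) v)
      (fderiv ℝ (fderiv ℝ F) (z + (0 : ℝ) • v) v v) 0 :=
    (e2.clm_apply (hasDerivAt_const (0 : ℝ) v)).congr_deriv (by simp)
  rw [e3.deriv, zero_smul, add_zero]
  rfl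

lemma D2_nonneg_of_min {F : C2 → ℝ} (hF : ContDiff ℝ 2 F) {z : C2} (hm : IsLocalMin F z) (v : C2) :
    0 ≤ D2 F z v v := by
  by_contra hneg
  push Not at hneg
  set φ : ℝ → ℝ := fun t => F (z + t • v) with hφ
  have hcont : Continuous fun t : ℝ => z + t • v := by fun_prop
  have hmin : IsLocalMin φ 0 := by
    have h1 : Tendsto (fun t : ℝ => z + t • v) (𝓝 0) (𝓝 z) := by
      have := hcont.tendsto 0
      simpa using this
    have h2 := h1.eventually hm
    refine h2.mono fun t ht => ?_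
    simp only [hφ, zero_smul, add_zero]
    exact ht
  have hd : deriv (deriv φ) 0 < 0 := by rw [hφ, line_deriv hF]; exact hneg
  have hmax : IsLocalMax φ 0 := isLocalMax_of_deriv_deriv_neg hd hmin.deriv_eq_zero
    ((hF.continuous.comp hcont).continuousAt)
  have hc : φ =ᶠ[𝓝 0] fun _ => φ 0 := by
    filter_upwards [hmin, hmax] with t h1 h2
    exact le_antisymm h2 h1
  have h0 : deriv (deriv φ) 0 = 0 := by
    have h1 : deriv φ =ᶠ[𝓝 0] deriv fun _ => φ 0 := hc.deriv
    rw [h1.deriv_eq]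
    simp
  rw [h0] at hd
  exact lt_irrefl _ hd

/-- the complex Hessian at a local minimum -/
lemma psd_min {g : C2 → ℝ} {z : C2} (hg : ContDiffAt ℝ ∞ g z) (hm : IsLocalMin g z) :
    (hess g z).PosSemidef := by
  obtain ⟨F, hF, e⟩ := HES.glob hg
  rw [hess_congr e, hess_posSemidef_iff hF]
  have hmF : IsLocalMin F z := by
    have h0 : g z = F z := e.self_of_nhds
    filter_upwards [e, hm] with w hw h1
    rw [← hw, ← h0]
    exact h1
  intro ζ
  unfold levi
  have h1 := D2_nonneg_of_min hF hmF ζ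
  have h2 := D2_nonneg_of_min hF hmF (Complex.I • ζ)
  linarith

/-- the second derivative in the direction of a curve of minima vanishes -/
lemma ker_curve {F : C2 → ℝ} (hF : ContDiff ℝ 2 F) {γ : ℝ → C2} {v z : C2}
    (hγ : HasDerivAt γ v 0) (h0 : γ 0 = z) (hm : ∀ᶠ t in 𝓝 (0 : ℝ), IsLocalMin F (γ t)) :
    fderiv ℝ (fderiv ℝ F) z v = 0 := by
  have hFd2 : ∀ y, DifferentiableAt ℝ (fderiv ℝ F) y := fun y =>
    ((hF.fderiv_right (m := 1) (by norm_num)).differentiable (by norm_num)).differentiableAt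
  have e1 : HasDerivAt (fun t : ℝ => fderiv ℝ F (γ t)) (fderiv ℝ (fderiv ℝ F) (γ 0) v) 0 :=
    (hFd2 _).hasFDerivAt.comp_hasDerivAt 0 hγ
  have e2 : (fun t : ℝ => fderiv ℝ F (γ t)) =ᶠ[𝓝 0] fun _ => 0 :=
    hm.mono fun t ht => ht.fderiv_eq_zero
  have e3 : HasDerivAt (fun _ : ℝ => (0 : C2 →L[ℝ] ℝ)) (fderiv ℝ (fderiv ℝ F) (γ 0) v) 0 :=
    e1.congr_of_eventuallyEq e2.symm
  rw [← h0]
  exact e3.unique (hasDerivAt_const (0 : ℝ) (0 : C2 →L[ℝ] ℝ))

/-- a null direction of the real Hessian, together with `i` times it, makes the determinant zero -/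
lemma det_zero {F : C2 → ℝ} (hF : ContDiff ℝ 2 F) {z v : C2} (hv : v ≠ 0)
    (h1 : fderiv ℝ (fderiv ℝ F) z v = 0) (h2 : fderiv ℝ (fderiv ℝ F) z (Complex.I • v) = 0) :
    (hess F z).det = 0 := by
  rw [← Matrix.exists_vecMul_eq_zero_iff]
  refine ⟨fun j => v j, ?_, ?_⟩
  · intro h
    apply hv
    ext j
    exact congrFun h j
  · funext k
    have h3 : sesq (fderiv ℝ (fderiv ℝ F) z) v (bas k) = 0 := by
      simp [sesq, h1, h2]
    rw [sesq_sum] at h3
    simp only [Matrix.vecMul, dotProduct, Pi.zero_apply]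
    rw [← h3]
    refine Finset.sum_congr rfl fun j _ => ?_
    rw [Finset.sum_eq_single k]
    · rw [hess_eq_sesq hF]
      simp [bas]
    · intro b _ hb
      simp [bas, hb]
    · intro h
      exact absurd (Finset.mem_univ k) h

/-- the Hessian of a function of one coordinate -/
lemma hess_coord (q : ℂ → ℝ) (j : Fin 2) (z : C2) (hq : ContDiffAt ℝ ∞ q (z j))
    (hl : lap4 q (z j) = 0) : hess (fun w : C2 => q (w j)) z = 0 := by
  obtain ⟨P, hP⟩ : ∃ P : C2 →L[ℝ] ℂ, ∀ w, P w = w j :=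
    ⟨(EuclideanSpace.proj (𝕜 := ℂ) (j : Fin 2)).restrictScalars ℝ, fun w => by simp⟩
  have hPe : (fun w : C2 => w j) = fun w => P w := funext fun w => (hP w).symm
  have hu : ContDiffAt ℝ ∞ (fun w : C2 => q (w j)) z := by
    have : (fun w : C2 => q (w j)) = fun w => q (P w) := funext fun w => by rw [hP]
    rw [this]
    have hq' : ContDiffAt ℝ ∞ q (P z) := by rw [hP]; exact hq
    exact hq'.comp z P.contDiff.contDiffAt
  have hA : ∀ y, HasFDerivAt (fun w : C2 => w j) P y := by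
    intro y
    rw [hPe]
    exact P.hasFDerivAt
  have hq2 : ContDiffAt ℝ 2 q (z j) := hq.of_le ss_le
  have hqd : ∀ᶠ x in 𝓝 (z j), DifferentiableAt ℝ q x := by
    have := hq2.eventually (by simp)
    exact this.mono fun x hx => hx.differentiableAt (by norm_num)
  have hqd' : ∀ᶠ w in 𝓝 z, DifferentiableAt ℝ q (w j) := by
    have hc : ContinuousAt (fun w : C2 => w j) z := (hA z).continuousAt
    exact hc.eventually hqd
  have hqd2 : DifferentiableAt ℝ (fderiv ℝ q) (z j) :=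
    (hq2.fderiv_right (m := 1) (by norm_num)).differentiableAt (by norm_num)
  have e1 : fderiv ℝ (fun w : C2 => q (w j)) =ᶠ[𝓝 z] fun y => (fderiv ℝ q (y j)).comp P := by
    filter_upwards [hqd'] with y hy
    exact (hy.hasFDerivAt.comp y (hA y)).fderiv
  have e2 : HasFDerivAt (fun y : C2 => fderiv ℝ q (y j))
      ((fderiv ℝ (fderiv ℝ q) (z j)).comp P) z :=
    hqd2.hasFDerivAt.comp z (hA z)
  have e3 : HasFDerivAt (fun y : C2 => (fderiv ℝ q (y j)).comp P)
      ((((ContinuousLinearMap.compL ℝ C2 ℂ ℝ).flip P)).comp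
        ((fderiv ℝ (fderiv ℝ q) (z j)).comp P)) z :=
    (((ContinuousLinearMap.compL ℝ C2 ℂ ℝ).flip P).hasFDerivAt).comp z e2
  have e4 : fderiv ℝ (fderiv ℝ fun w : C2 => q (w j)) z = ((((ContinuousLinearMap.compL ℝ C2 ℂ ℝ).flip P)).comp
        ((fderiv ℝ (fderiv ℝ q) (z j)).comp P)) := by
    rw [e1.fderiv_eq]
    exact e3.fderiv
  obtain ⟨G, hG, eG⟩ := HES.glob hu
  have e5 : fderiv ℝ (fderiv ℝ G) z = ((((ContinuousLinearMap.compL ℝ C2 ℂ ℝ).flip P)).comp
        ((fderiv ℝ (fderiv ℝ q) (z j)).comp P)) := by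
    rw [← e4]
    exact (eG.fderiv.fderiv_eq).symm
  have hD : ∀ ξ ζ : C2, fderiv ℝ (fderiv ℝ G) z ξ ζ = fderiv ℝ (fderiv ℝ q) (z j) (ξ j) (ζ j) := by
    intro ξ ζ
    rw [e5]
    simp [hP]
  have hsym : IsSymmSndFDerivAt ℝ q (z j) := hq2.isSymmSndFDerivAt (by simp)
  rw [hess_congr eG]
  ext a b
  rw [hess_eq_sesq hG, sesq, hD, hD, hD, hD]
  have hI := hsym.eq 1 Complex.I
  unfold lap4 at hl
  by_cases ha : a = j
  · by_cases hb : b = j
    · subst ha
      subst hb
      have h1 : (bas b : C2) b = 1 := by simp [bas]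
      have h2 : (Complex.I • (bas b : C2)) b = Complex.I := by simp [bas]
      rw [h1, h2, hI]
      have h3 : fderiv ℝ (fderiv ℝ q) (z b) 1 1 + fderiv ℝ (fderiv ℝ q) (z b) Complex.I Complex.I = 0 := by
        linarith
      rw [h3]
      simp
    · have h1 : (bas b : C2) j = 0 := by simp [bas, Ne.symm hb]
      have h2 : (Complex.I • (bas b : C2)) j = 0 := by simp [bas, Ne.symm hb]
      rw [h1, h2]
      simp
  · have h1 : (bas a : C2) j = 0 := by simp [bas, Ne.symm ha]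
    have h2 : (Complex.I • (bas a : C2)) j = 0 := by simp [bas, Ne.symm ha]
    rw [h1, h2]
    simp

lemma log_norm_smooth {x : ℂ} (hx : x ≠ 0) : ContDiffAt ℝ ∞ (fun w : ℂ => Real.log ‖w‖) x :=
  (contDiffAt_norm ℝ hx).log (norm_ne_zero_iff.2 hx)

lemma lap4_log {x : ℂ} (hx : x ≠ 0) : lap4 (fun w : ℂ => Real.log ‖w‖) x = 0 := by
  have h := AnalyticAt.harmonicAt_log_norm (f := fun w : ℂ => w) (z := x) analyticAt_id hx
  have h2 := h.2.self_of_nhds
  rw [InnerProductSpace.laplacian_eq_iteratedFDeriv_complexPlane] at h2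
  simp only [iteratedFDeriv_two_apply, Pi.zero_apply] at h2
  unfold lap4
  simp at h2
  rw [h2]
  simp

lemma hess_log (j : Fin 2) (z : C2) (hz : z j ≠ 0) : hess (fun w : C2 => Real.log ‖w j‖) z = 0 :=
  hess_coord (fun w : ℂ => Real.log ‖w‖) j z (log_norm_smooth hz) (lap4_log hz)

lemma log_smooth (j : Fin 2) (z : C2) (hz : z j ≠ 0) :
    ContDiffAt ℝ ∞ (fun w : C2 => Real.log ‖w j‖) z := by
  obtain ⟨P, hP⟩ : ∃ P : C2 →L[ℝ] ℂ, ∀ w, P w = w j :=
    ⟨(EuclideanSpace.proj (𝕜 := ℂ) (j : Fin 2)).restrictScalars ℝ, fun w => by simp⟩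
  have : (fun w : C2 => Real.log ‖w j‖) = fun w => Real.log ‖P w‖ := funext fun w => by rw [hP]
  rw [this]
  have hq' : ContDiffAt ℝ ∞ (fun w : ℂ => Real.log ‖w‖) (P z) := log_norm_smooth (by rw [hP]; exact hz)
  exact hq'.comp z P.contDiff.contDiffAt

/-- the combination `a log|x| + b log|y|` is pluriharmonic off the axes -/
lemma hess_lin (a b : ℝ) (z : C2) (h0 : z 0 ≠ 0) (h1 : z 1 ≠ 0) :
    hess (fun w : C2 => a * Real.log ‖w 0‖ + b * Real.log ‖w 1‖) z = 0 := by
  have e := HES.h1 (fun w : C2 => a * Real.log ‖w 0‖) (fun w : C2 => b * Real.log ‖w 1‖) z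
    (contDiffAt_const.mul (log_smooth 0 z h0)) (contDiffAt_const.mul (log_smooth 1 z h1))
  rw [e, HES.h2 _ a z (log_smooth 0 z h0), HES.h2 _ b z (log_smooth 1 z h1), hess_log 0 z h0,
    hess_log 1 z h1]
  simp

end Pool.Agent.H53M.RHO
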