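import Pool.Agent.H53M.RHOA

/-!
# Stub RHO, part B: the convex function `FF` and the function `Phi`
-/

set_option autoImplicit false

open MeasureTheory Metric Set Filter Topology
open scoped ContDiff ComplexOrder

namespace Pool.Agent.H53M.RHO

open Pool.Agent.H53M Pool.Agent.H805R2

/-- smooth maximum of two negative numbers, homogeneous of degree one -/
noncomputable def FF (ξ ζ : ℝ) : ℝ := ζ + (-(ξ + ζ) / 4) * mm ((ξ - ζ) / (-(ξ + ζ) / 4))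

lemma FF_left {ξ ζ : ℝ} (h : ξ < 0) (_h' : ζ < 0) (hs : -(ξ + ζ) ≤ 8 * (ξ - ζ)) : FF ξ ζ = ξ := by
  have ht : 0 < -(ξ + ζ) / 4 := by linarith
  unfold FF
  rw [MXL.mm_of_ge]
  · rw [mul_comm, div_mul_cancel₀ _ ht.ne']
    ring
  · rw [le_div_iff₀ ht]
    linarith

lemma FF_right {ξ ζ : ℝ} (_h : ξ < 0) (h' : ζ < 0) (hs : 8 * (ξ - ζ) ≤ ξ + ζ) : FF ξ ζ = ζ := by
  have ht : 0 < -(ξ + ζ) / 4 := by linarith
  unfold FF
  rw [MXL.mm_of_le]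
  · simp
  · rw [div_le_iff₀ ht]
    linarith

lemma FF_ge {ξ ζ : ℝ} (h : ξ < 0) (h' : ζ < 0) : max ξ ζ ≤ FF ξ ζ := by
  have ht : 0 < -(ξ + ζ) / 4 := by linarith
  have h1 := MXL.max_le_mm ((ξ - ζ) / (-(ξ + ζ) / 4))
  unfold FF
  have h2 : (-(ξ + ζ) / 4) * ((ξ - ζ) / (-(ξ + ζ) / 4)) = ξ - ζ := by
    rw [mul_comm, div_mul_cancel₀ _ ht.ne']
  have h3 := mul_le_mul_of_nonneg_left ((le_max_left _ _).trans h1) ht.le
  have h4 := mul_le_mul_of_nonneg_left ((le_max_right _ _).trans h1) ht.le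
  rw [h2] at h3
  apply max_le <;> linarith

lemma FF_cone {ξ ζ : ℝ} (h : ξ < 0) (h' : ζ < 0) (h1 : 8 * (ξ - ζ) ≤ -(ξ + ζ))
    (h2 : ξ + ζ ≤ 8 * (ξ - ζ)) : FF ξ ζ ≤ (ξ + ζ) / 4 := by
  have ht : 0 < -(ξ + ζ) / 4 := by linarith
  have hm := MXL.mm_le_max ((ξ - ζ) / (-(ξ + ζ) / 4))
  have hle : (ξ - ζ) / (-(ξ + ζ) / 4) ≤ 1 / 2 := by
    rw [div_le_iff₀ ht]
    linarith
  have hmx : max ((ξ - ζ) / (-(ξ + ζ) / 4)) 0 ≤ 1 / 2 := max_le hle (by norm_num)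
  have h3 := mul_le_mul_of_nonneg_left (hm.trans (by linarith : _ ≤ (3 / 4 : ℝ))) ht.le
  unfold FF
  linarith

lemma FF_cases {ξ ζ : ℝ} (h : ξ < 0) (h' : ζ < 0) :
    FF ξ ζ = ξ ∨ FF ξ ζ = ζ ∨ FF ξ ζ ≤ (ξ + ζ) / 4 := by
  rcases le_total (-(ξ + ζ)) (8 * (ξ - ζ)) with h1 | h1
  · exact Or.inl (FF_left h h' h1)
  rcases le_total (8 * (ξ - ζ)) (ξ + ζ) with h2 | h2
  · exact Or.inr (Or.inl (FF_right h h' h2))
  exact Or.inr (Or.inr (FF_cone h h' h1 h2))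

lemma FF_neg {ξ ζ : ℝ} (h : ξ < 0) (h' : ζ < 0) : FF ξ ζ < 0 := by
  rcases FF_cases h h' with h1 | h1 | h1 <;> linarith

lemma FF_smul {ξ ζ : ℝ} (t : ℝ) (ht : 0 < t) : FF (t * ξ) (t * ζ) = t * FF ξ ζ := by
  unfold FF
  have h1 : (t * ξ - t * ζ) / (-(t * ξ + t * ζ) / 4) = (ξ - ζ) / (-(ξ + ζ) / 4) := by
    have e1 : t * ξ - t * ζ = t * (ξ - ζ) := by ring
    have e2 : -(t * ξ + t * ζ) / 4 = t * (-(ξ + ζ) / 4) := by ring
    rw [e1, e2, mul_div_mul_left _ _ ht.ne']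
  rw [h1]
  ring

/-- the tangent inequality of `mm` -/
lemma mm_tangent (s₀ s : ℝ) : mm s₀ + deriv mm s₀ * (s - s₀) ≤ mm s := by
  have hd2 : ∀ x, 0 ≤ deriv (deriv mm) x := fun x => (MXL.t.2.2.2.2.1 x).2.2
  have hdiff : Differentiable ℝ mm := fun x => (MXL.mm_hasDeriv x).differentiableAt
  have hsm : ContDiff ℝ 2 mm := MXL.mm_smooth.of_le ss_le
  have hd : Differentiable ℝ (deriv mm) := by
    have h1 : ContDiff ℝ 1 (deriv mm) := by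
      have := (contDiff_succ_iff_deriv (𝕜 := ℝ) (n := 1) (f := mm)).1 (by exact_mod_cast hsm)
      exact this.2.2
    exact h1.differentiable (by norm_num)
  have hc : ConvexOn ℝ univ mm := by
    refine convexOn_univ_of_deriv2_nonneg hdiff hd ?_
    intro x
    exact hd2 x
  rcases lt_trichotomy s₀ s with h | h | h
  · have h1 := hc.le_slope_of_hasDerivAt (mem_univ s₀) (mem_univ s) h (hdiff s₀).hasDerivAt
    rw [slope_def_field, le_div_iff₀ (by linarith)] at h1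
    linarith
  · subst h
    simp
  · have h1 := hc.slope_le_of_hasDerivAt (mem_univ s) (mem_univ s₀) h (hdiff s₀).hasDerivAt
    rw [slope_def_field, div_le_iff₀ (by linarith)] at h1
    linarith

/-- supporting linear functions of `FF` -/
lemma FF_support {ξ₀ ζ₀ : ℝ} (h : ξ₀ < 0) (h' : ζ₀ < 0) : ∃ a b : ℝ,
    a * ξ₀ + b * ζ₀ = FF ξ₀ ζ₀ ∧ ∀ ξ ζ : ℝ, ξ < 0 → ζ < 0 → a * ξ + b * ζ ≤ FF ξ ζ := by
  set s₀ := (ξ₀ - ζ₀) / (-(ξ₀ + ζ₀) / 4) with hs₀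
  set m₀ := mm s₀ with hm₀
  set m₁ := deriv mm s₀ with hm₁
  have ht₀ : 0 < -(ξ₀ + ζ₀) / 4 := by linarith
  refine ⟨-(m₀ - s₀ * m₁) / 4 + m₁, 1 - (m₀ - s₀ * m₁) / 4 - m₁, ?_, ?_⟩
  · unfold FF
    rw [← hs₀, ← hm₀]
    have h2 : (-(ξ₀ + ζ₀) / 4) * s₀ = ξ₀ - ζ₀ := by
      rw [hs₀, mul_comm, div_mul_cancel₀ _ ht₀.ne']
    linear_combination (-m₁) * h2
  · intro ξ ζ hξ hζ
    have ht : 0 < -(ξ + ζ) / 4 := by linarith
    have h1 := mm_tangent s₀ ((ξ - ζ) / (-(ξ + ζ) / 4))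
    rw [← hm₀, ← hm₁] at h1
    have h2 : (-(ξ + ζ) / 4) * ((ξ - ζ) / (-(ξ + ζ) / 4)) = ξ - ζ := by
      rw [mul_comm, div_mul_cancel₀ _ ht.ne']
    have h3 := mul_le_mul_of_nonneg_left h1 ht.le
    unfold FF
    have h4 : (-(ξ + ζ) / 4) * (m₀ + m₁ * ((ξ - ζ) / (-(ξ + ζ) / 4) - s₀)) =
        (-(ξ + ζ) / 4) * (m₀ - s₀ * m₁) + m₁ * (ξ - ζ) := by
      linear_combination m₁ * h2
    rw [h4] at h3
    linarith

/-- the homogeneous function -/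
noncomputable def Phi (z : C2) : ℝ :=
  if ‖z 1‖ < ‖z 0‖ ^ 2 then Real.log ‖z 0‖ else
    if ‖z 0‖ < ‖z 1‖ ^ 2 then Real.log ‖z 1‖ else FF (Real.log ‖z 0‖) (Real.log ‖z 1‖)

lemma log_neg_of {x : ℂ} (hx : x ≠ 0) (h : ‖x‖ < 1) : Real.log ‖x‖ < 0 :=
  Real.log_neg (norm_pos_iff.2 hx) h

lemma Phi_eq {z : C2} (hz : z ∈ Om) (h0 : z 0 ≠ 0) (h1 : z 1 ≠ 0) :
    Phi z = FF (Real.log ‖z 0‖) (Real.log ‖z 1‖) := by
  have hx := log_neg_of h0 hz.1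
  have hy := log_neg_of h1 hz.2
  unfold Phi
  split_ifs with h2 h3
  · have h4 : Real.log ‖z 1‖ < 2 * Real.log ‖z 0‖ := by
      have := Real.log_lt_log (norm_pos_iff.2 h1) h2
      rwa [Real.log_pow, Nat.cast_ofNat] at this
    rw [FF_left hx hy (by linarith)]
  · have h4 : Real.log ‖z 0‖ < 2 * Real.log ‖z 1‖ := by
      have := Real.log_lt_log (norm_pos_iff.2 h0) h3
      rwa [Real.log_pow, Nat.cast_ofNat] at this
    rw [FF_right hx hy (by linarith)]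
  · rfl

lemma Om_open : IsOpen Om := by
  have h0 : Continuous fun z : C2 => ‖z 0‖ := by fun_prop
  have h1 : Continuous fun z : C2 => ‖z 1‖ := by fun_prop
  exact (isOpen_lt h0 continuous_const).inter (isOpen_lt h1 continuous_const)

lemma ev_ne (j : Fin 2) {z : C2} (h : z j ≠ 0) : ∀ᶠ w : C2 in 𝓝 z, w j ≠ 0 := by
  have hc : Continuous fun w : C2 => w j := by fun_prop
  exact hc.continuousAt.eventually_ne h

lemma Phi_ev {z : C2} (hz : z ∈ Om) (h0 : z 0 ≠ 0) (h1 : z 1 ≠ 0) :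
    Phi =ᶠ[𝓝 z] fun w => FF (Real.log ‖w 0‖) (Real.log ‖w 1‖) := by
  filter_upwards [Om_open.mem_nhds hz, ev_ne 0 h0, ev_ne 1 h1] with w a b c
  exact Phi_eq a b c

lemma Phi_evl {z : C2} (h1 : ‖z 1‖ < ‖z 0‖ ^ 2) :
    Phi =ᶠ[𝓝 z] fun w => Real.log ‖w 0‖ := by
  have h : ∀ᶠ w : C2 in 𝓝 z, ‖w 1‖ < ‖w 0‖ ^ 2 := by
    have ha : Continuous fun w : C2 => ‖w 1‖ := by fun_prop
    have hb : Continuous fun w : C2 => ‖w 0‖ ^ 2 := by fun_prop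
    exact (isOpen_lt ha hb).mem_nhds h1
  filter_upwards [h] with w hw
  unfold Phi
  rw [if_pos hw]

lemma Phi_evr {z : C2} (hz : z ∈ Om) (h1 : ‖z 0‖ < ‖z 1‖ ^ 2) :
    Phi =ᶠ[𝓝 z] fun w => Real.log ‖w 1‖ := by
  have h : ∀ᶠ w : C2 in 𝓝 z, ‖w 0‖ < ‖w 1‖ ^ 2 := by
    have ha : Continuous fun w : C2 => ‖w 0‖ := by fun_prop
    have hb : Continuous fun w : C2 => ‖w 1‖ ^ 2 := by fun_prop
    exact (isOpen_lt ha hb).mem_nhds h1
  filter_upwards [h, Om_open.mem_nhds hz] with w hw hO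
  unfold Phi
  rw [if_neg, if_pos hw]
  have e0 := norm_nonneg (w 0)
  have e1 := norm_nonneg (w 1)
  have e2 := hO.1
  have e3 := hO.2
  intro hcon
  nlinarith

lemma FF_smooth {z : C2} (hz : z ∈ Om) (h0 : z 0 ≠ 0) (h1 : z 1 ≠ 0) :
    ContDiffAt ℝ ∞ (fun w : C2 => FF (Real.log ‖w 0‖) (Real.log ‖w 1‖)) z := by
  have hx := log_neg_of h0 hz.1
  have hy := log_neg_of h1 hz.2
  have s0 := log_smooth 0 z h0
  have s1 := log_smooth 1 z h1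
  have st : ContDiffAt ℝ ∞ (fun w : C2 => -(Real.log ‖w 0‖ + Real.log ‖w 1‖) / 4) z :=
    ((s0.add s1).neg).div_const 4
  have hne : -(Real.log ‖z 0‖ + Real.log ‖z 1‖) / 4 ≠ 0 := by
    have : 0 < -(Real.log ‖z 0‖ + Real.log ‖z 1‖) / 4 := by linarith
    exact this.ne'
  exact s1.add (st.mul (MXL.mm_smooth.contDiffAt.comp z ((s0.sub s1).div st hne)))

/-- points of the bidisc other than the origin -/
lemma trich {z : C2} (hz : z ≠ 0) : (z 0 ≠ 0 ∧ z 1 ≠ 0) ∨ (z 0 ≠ 0 ∧ z 1 = 0) ∨ (z 0 = 0 ∧ z 1 ≠ 0) := by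
  by_cases h0 : z 0 = 0
  · by_cases h1 : z 1 = 0
    · exact absurd (by ext j; fin_cases j <;> simp [h0, h1]) hz
    · exact Or.inr (Or.inr ⟨h0, h1⟩)
  · by_cases h1 : z 1 = 0
    · exact Or.inr (Or.inl ⟨h0, h1⟩)
    · exact Or.inl ⟨h0, h1⟩

lemma Phi_smooth {z : C2} (hz : z ∈ Om) (hne : z ≠ 0) : ContDiffAt ℝ ∞ Phi z := by
  rcases trich hne with ⟨h0, h1⟩ | ⟨h0, h1⟩ | ⟨h0, h1⟩
  · exact (FF_smooth hz h0 h1).congr_of_eventuallyEq (Phi_ev hz h0 h1)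
  · refine (log_smooth 0 z h0).congr_of_eventuallyEq (Phi_evl ?_)
    rw [h1, norm_zero]
    have := norm_pos_iff.2 h0
    positivity
  · refine (log_smooth 1 z h1).congr_of_eventuallyEq (Phi_evr hz ?_)
    rw [h0, norm_zero]
    have := norm_pos_iff.2 h1
    positivity

end Pool.Agent.H53M.RHO
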