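import Pool.Agent.H53M.RHOB

/-!
# Stub RHO, part C: the complex Hessian of `Phi`
-/

set_option autoImplicit false

open MeasureTheory Metric Set Filter Topology
open scoped ContDiff ComplexOrder

namespace Pool.Agent.H53M.RHO

open Pool.Agent.H53M Pool.Agent.H805R2

lemma pt0 (x y : ℂ) : (pt x y) 0 = x := by simp [pt]

lemma pt1 (x y : ℂ) : (pt x y) 1 = y := by simp [pt]

/-- the curve `(x₀ e^{c ξ₀ t}, y₀ e^{c ζ₀ t})` -/
noncomputable def crv (c : ℂ) (z : C2) (ξ ζ : ℝ) (t : ℝ) : C2 :=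
  pt (z 0 * Complex.exp (c * ξ * t)) (z 1 * Complex.exp (c * ζ * t))

lemma crv_deriv (c : ℂ) (z : C2) (ξ ζ : ℝ) :
    HasDerivAt (crv c z ξ ζ) (c • pt (z 0 * ξ) (z 1 * ζ)) 0 := by
  have h : ∀ (a : ℂ) (r : ℝ), HasDerivAt (fun t : ℝ => a * Complex.exp (c * r * t)) (c * (a * r)) 0 := by
    intro a r
    have h1 : HasDerivAt (fun t : ℝ => c * r * (t : ℂ)) (c * r * 1) (0 : ℝ) :=
      (Complex.ofRealCLM.hasDerivAt (x := (0 : ℝ))).const_mul (c * r)
    have h2 := (h1.cexp).const_mul a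
    refine h2.congr_deriv ?_
    simp
    ring
  have e : crv c z ξ ζ = fun t : ℝ => (z 0 * Complex.exp (c * ξ * t)) • (bas 0 : C2) +
      (z 1 * Complex.exp (c * ζ * t)) • (bas 1 : C2) := by
    funext t
    unfold crv
    ext j
    fin_cases j <;> simp [pt, bas]
  have e2 : (c • pt (z 0 * ξ) (z 1 * ζ) : C2) = (c * (z 0 * ξ)) • (bas 0 : C2) + (c * (z 1 * ζ)) • (bas 1 : C2) := by
    ext j
    fin_cases j <;> simp [pt, bas]
  rw [e, e2]
  exact ((h (z 0) ξ).smul_const _).add ((h (z 1) ζ).smul_const _)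

lemma crv_zero (c : ℂ) (z : C2) (ξ ζ : ℝ) : crv c z ξ ζ 0 = z := by
  unfold crv
  ext j
  fin_cases j <;> simp [pt]

lemma crv_log (c : ℂ) {z : C2} (h0 : z 0 ≠ 0) (h1 : z 1 ≠ 0) (t : ℝ) :
    Real.log ‖(crv c z (Real.log ‖z 0‖) (Real.log ‖z 1‖) t) 0‖ = (1 + c.re * t) * Real.log ‖z 0‖ ∧
    Real.log ‖(crv c z (Real.log ‖z 0‖) (Real.log ‖z 1‖) t) 1‖ = (1 + c.re * t) * Real.log ‖z 1‖ := by
  unfold crv
  rw [pt0, pt1, norm_mul, norm_mul, Complex.norm_exp, Complex.norm_exp,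
    Real.log_mul (norm_ne_zero_iff.2 h0) (Real.exp_pos _).ne',
    Real.log_mul (norm_ne_zero_iff.2 h1) (Real.exp_pos _).ne', Real.log_exp, Real.log_exp]
  constructor
  · simp
    ring
  · simp
    ring

/-- positivity and degeneracy of the complex Hessian of `Phi` off the axes -/
lemma Phi_hess {z : C2} (hz : z ∈ Om) (h0 : z 0 ≠ 0) (h1 : z 1 ≠ 0) :
    (hess Phi z).PosSemidef ∧ (hess Phi z).det = 0 := by
  set ξ := Real.log ‖z 0‖ with hξ
  set ζ := Real.log ‖z 1‖ with hζ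
  have hx : ξ < 0 := log_neg_of h0 hz.1
  have hy : ζ < 0 := log_neg_of h1 hz.2
  obtain ⟨a, b, hab, hsup⟩ := FF_support hx hy
  set p : C2 → ℝ := fun w => a * Real.log ‖w 0‖ + b * Real.log ‖w 1‖ with hp
  have hps : ContDiffAt ℝ ∞ p z :=
    (contDiffAt_const.mul (log_smooth 0 z h0)).add (contDiffAt_const.mul (log_smooth 1 z h1))
  have hne : z ≠ 0 := by
    intro h
    apply h0
    rw [h]
    rfl
  have hPs := Phi_smooth hz hne
  set g : C2 → ℝ := fun w => Phi w + (-1) * p w with hg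
  have hgs : ContDiffAt ℝ ∞ g z := hPs.add (contDiffAt_const.mul hps)
  have hgn : ∀ w ∈ Om, w 0 ≠ 0 → w 1 ≠ 0 → 0 ≤ g w := by
    intro w hw w0 w1
    have := hsup (Real.log ‖w 0‖) (Real.log ‖w 1‖) (log_neg_of w0 hw.1) (log_neg_of w1 hw.2)
    simp only [hg, hp]
    rw [Phi_eq hw w0 w1]
    linarith
  have hgz : ∀ w ∈ Om, w 0 ≠ 0 → w 1 ≠ 0 → g w = 0 → IsLocalMin g w := by
    intro w hw w0 w1 h
    filter_upwards [Om_open.mem_nhds hw, ev_ne 0 w0, ev_ne 1 w1] with u hu u0 u1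
    rw [h]
    exact hgn u hu u0 u1
  have hg0 : g z = 0 := by
    simp only [hg, hp]
    rw [Phi_eq hz h0 h1, ← hab]
    ring
  -- the Hessian of `g` is that of `Phi`
  have hh : hess g z = hess Phi z := by
    rw [hg, HES.h1 Phi (fun w => (-1) * p w) z hPs (contDiffAt_const.mul hps), HES.h2 p (-1) z hps,
      hess_lin a b z h0 h1]
    simp
  rw [← hh]
  refine ⟨psd_min hgs (hgz z hz h0 h1 hg0), ?_⟩
  obtain ⟨G, hG, eG⟩ := HES.glob hgs
  rw [hess_congr eG]
  -- the curves of minima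
  have hcurve : ∀ c : ℂ, ∀ᶠ t in 𝓝 (0 : ℝ), IsLocalMin G (crv c z ξ ζ t) := by
    intro c
    have hcont : ContinuousAt (crv c z ξ ζ) 0 := (crv_deriv c z ξ ζ).continuousAt
    have ht : Tendsto (crv c z ξ ζ) (𝓝 0) (𝓝 z) := by
      have := hcont.tendsto
      rwa [crv_zero] at this
    have ht2 : ∀ᶠ t in 𝓝 (0 : ℝ), 0 < 1 + c.re * t := by
      have hc2 : ContinuousAt (fun t : ℝ => 1 + c.re * t) 0 := by fun_prop
      have := hc2.tendsto.eventually (lt_mem_nhds (show (0 : ℝ) < 1 + c.re * 0 by simp))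
      exact this
    filter_upwards [ht.eventually (Om_open.mem_nhds hz), ht.eventually (ev_ne 0 h0),
      ht.eventually (ev_ne 1 h1), ht.eventually eG.eventually_nhds, ht2] with t a1 a2 a3 a4 a5
    have hlog := crv_log c h0 h1 t
    rw [← hξ, ← hζ] at hlog
    have hgt : g (crv c z ξ ζ t) = 0 := by
      simp only [hg, hp]
      rw [Phi_eq a1 a2 a3, hlog.1, hlog.2, FF_smul _ a5, ← hab]
      ring
    have hmin := hgz _ a1 a2 a3 hgt
    have h0' : g (crv c z ξ ζ t) = G (crv c z ξ ζ t) := a4.self_of_nhds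
    filter_upwards [a4, hmin] with w hw hw2
    rw [← hw, ← h0']
    exact hw2
  have k1 := ker_curve hG (crv_deriv 1 z ξ ζ) (crv_zero 1 z ξ ζ) (hcurve 1)
  have k2 := ker_curve hG (crv_deriv Complex.I z ξ ζ) (crv_zero Complex.I z ξ ζ) (hcurve Complex.I)
  refine det_zero hG (v := pt (z 0 * ξ) (z 1 * ζ)) ?_ (by simpa using k1) k2
  intro h
  have := congrArg (fun w : C2 => w 0) h
  simp only [pt0] at this
  have h3 : z 0 * (ξ : ℂ) = 0 := this
  rcases mul_eq_zero.1 h3 with h4 | h4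
  · exact h0 h4
  · exact hx.ne (Complex.ofReal_eq_zero.1 h4)

lemma Phi_hess_evl {z : C2} (h1 : ‖z 1‖ < ‖z 0‖ ^ 2) : hess Phi z = 0 := by
  have h0 : z 0 ≠ 0 := by
    intro h
    rw [h, norm_zero] at h1
    have := norm_nonneg (z 1)
    linarith [h1, this, (by norm_num : (0 : ℝ) ^ 2 = 0)]
  rw [hess_congr (Phi_evl h1)]
  exact hess_log 0 z h0

lemma Phi_hess_evr {z : C2} (hz : z ∈ Om) (h1 : ‖z 0‖ < ‖z 1‖ ^ 2) : hess Phi z = 0 := by
  have h0 : z 1 ≠ 0 := by
    intro h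
    rw [h, norm_zero] at h1
    have := norm_nonneg (z 0)
    linarith [h1, this, (by norm_num : (0 : ℝ) ^ 2 = 0)]
  rw [hess_congr (Phi_evr hz h1)]
  exact hess_log 1 z h0

lemma Phi_hess' {z : C2} (hz : z ∈ Om) (hne : z ≠ 0) :
    (hess Phi z).PosSemidef ∧ (hess Phi z).det = 0 := by
  rcases trich hne with ⟨h0, h1⟩ | ⟨h0, h1⟩ | ⟨h0, h1⟩
  · exact Phi_hess hz h0 h1
  · have : hess Phi z = 0 := by
      apply Phi_hess_evl
      rw [h1, norm_zero]
      have := norm_pos_iff.2 h0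
      positivity
    rw [this]
    exact ⟨Matrix.PosSemidef.zero, by simp⟩
  · have : hess Phi z = 0 := by
      apply Phi_hess_evr hz
      rw [h0, norm_zero]
      have := norm_pos_iff.2 h1
      positivity
    rw [this]
    exact ⟨Matrix.PosSemidef.zero, by simp⟩

/-- the exhaustion function -/
noncomputable def rho (z : C2) : ℝ :=
  if ‖z 0‖ < Real.exp (-10) ∧ ‖z 1‖ < Real.exp (-10) then -2 else -2 + mm (Phi z + 2)

lemma log_lt_of {x : ℝ} {c : ℝ} (hx : 0 < x) (h : x < Real.exp c) : Real.log x < c :=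
  (Real.log_lt_iff_lt_exp hx).2 h

/-- deep values of `Phi` -/
lemma Phi_deep {z : C2} (hz : z ∈ Om) (hne : z ≠ 0) {c : ℝ} (hc : c ≤ -5)
    (hx : ‖z 0‖ < Real.exp c) (hy : ‖z 1‖ < Real.exp c) : Phi z ≤ -(5 / 2) := by
  rcases trich hne with ⟨h0, h1⟩ | ⟨h0, h1⟩ | ⟨h0, h1⟩
  · rw [Phi_eq hz h0 h1]
    have a1 := log_lt_of (norm_pos_iff.2 h0) hx
    have a2 := log_lt_of (norm_pos_iff.2 h1) hy
    rcases FF_cases (log_neg_of h0 hz.1) (log_neg_of h1 hz.2) with h | h | h <;> linarith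
  · have h : Phi z = Real.log ‖z 0‖ := by
      unfold Phi
      rw [if_pos]
      rw [h1, norm_zero]
      have := norm_pos_iff.2 h0
      positivity
    rw [h]
    have a1 := log_lt_of (norm_pos_iff.2 h0) hx
    linarith
  · have h : Phi z = Real.log ‖z 1‖ := by
      have := (Phi_evr hz (by
        rw [h0, norm_zero]
        have := norm_pos_iff.2 h1
        positivity)).self_of_nhds
      exact this
    rw [h]
    have a1 := log_lt_of (norm_pos_iff.2 h1) hy
    linarith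

lemma rho_eq {z : C2} (hz : z ∈ Om) (hne : z ≠ 0) : rho z = -2 + mm (Phi z + 2) := by
  unfold rho
  split_ifs with h
  · rw [MXL.mm_of_le]
    · ring
    · have := Phi_deep hz hne (by norm_num) h.1 h.2
      linarith
  · rfl

lemma rho_ev {z : C2} (hz : z ∈ Om) (hne : z ≠ 0) : rho =ᶠ[𝓝 z] fun w => -2 + mm (Phi w + 2) := by
  filter_upwards [Om_open.mem_nhds hz, isOpen_ne.mem_nhds hne] with w h1 h2
  exact rho_eq h1 h2

lemma rho_ev0 {z : C2} (h : ‖z 0‖ < Real.exp (-10) ∧ ‖z 1‖ < Real.exp (-10)) :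
    rho =ᶠ[𝓝 z] fun _ => -2 := by
  have h0 : Continuous fun z : C2 => ‖z 0‖ := by fun_prop
  have h1 : Continuous fun z : C2 => ‖z 1‖ := by fun_prop
  filter_upwards [((isOpen_lt h0 continuous_const).inter (isOpen_lt h1 continuous_const)).mem_nhds h]
    with w hw
  unfold rho
  rw [if_pos ⟨hw.1, hw.2⟩]

/-- where `Phi > -3/2` the two functions agree -/
lemma rho_ev1 {z : C2} (hz : z ∈ Om) (hne : z ≠ 0) (h : -(3 / 2) < Phi z) : rho =ᶠ[𝓝 z] Phi := by
  have hc := (Phi_smooth hz hne).continuousAt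
  filter_upwards [rho_ev hz hne, hc.eventually (lt_mem_nhds h)] with w h1 h2
  rw [h1, MXL.mm_of_ge (by linarith)]
  ring

lemma zero_cond : ‖(0 : C2) 0‖ < Real.exp (-10) ∧ ‖(0 : C2) 1‖ < Real.exp (-10) := by
  simp [Real.exp_pos]

lemma rho_smooth {z : C2} (hz : z ∈ Om) : ContDiffAt ℝ ∞ rho z := by
  by_cases hne : z = 0
  · subst hne
    exact contDiffAt_const.congr_of_eventuallyEq (rho_ev0 zero_cond)
  · refine ContDiffAt.congr_of_eventuallyEq ?_ (rho_ev hz hne)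
    exact contDiffAt_const.add (MXL.mm_smooth.contDiffAt.comp z
      ((Phi_smooth hz hne).add contDiffAt_const))

lemma hess_const_eq {z : C2} (h : rho =ᶠ[𝓝 z] fun _ => -2) : hess rho z = 0 := by
  rw [hess_congr h]
  exact hess_const_zero (-2) z

lemma rho_psd {z : C2} (hz : z ∈ Om) : (hess rho z).PosSemidef := by
  by_cases hne : z = 0
  · subst hne
    rw [hess_const_eq (rho_ev0 zero_cond)]
    exact Matrix.PosSemidef.zero
  · rw [hess_congr (rho_ev hz hne)]
    set G : ℝ → ℝ := fun s => -2 + mm (s + 2) with hG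
    have hGs : ContDiff ℝ ∞ G := contDiff_const.add (MXL.mm_smooth.comp (contDiff_id.add contDiff_const))
    have hd : deriv G = fun s => deriv mm (s + 2) := by
      funext s
      have h2 : HasDerivAt (fun s : ℝ => mm (s + 2)) (deriv mm (s + 2)) s :=
        ((MXL.mm_hasDeriv (s + 2)).differentiableAt.hasDerivAt).comp_add_const s 2
      exact (h2.const_add (-2)).deriv
    have hd2 : ∀ s, 0 ≤ deriv (deriv G) s := by
      intro s
      rw [hd]
      have : deriv (fun s => deriv mm (s + 2)) s = deriv (deriv mm) (s + 2) := by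
        exact deriv_comp_add_const (deriv mm) 2 s
      rw [this]
      exact (MXL.t.2.2.2.2.1 (s + 2)).2.2
    have h7 := HES.t.2.2.2.2.2.2.1 G Phi z hGs (Phi_smooth hz hne) (hd2 _)
    have hP := (Phi_hess' hz hne).1
    have hnn : (0 : ℂ) ≤ ((deriv G (Phi z) : ℝ) : ℂ) := by
      have h8 : 0 ≤ deriv G (Phi z) := by
        rw [hd]
        exact (MXL.t.2.2.2.2.1 (Phi z + 2)).1
      exact_mod_cast h8
    have h9 := h7.add (hP.smul hnn)
    have e : (fun w => -2 + mm (Phi w + 2)) = fun w => G (Phi w) := rfl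
    rw [e]
    have e2 : (hess (fun w => G (Phi w)) z - ((deriv G (Phi z) : ℝ) : ℂ) • hess Phi z) +
        ((deriv G (Phi z) : ℝ) : ℂ) • hess Phi z = hess (fun w => G (Phi w)) z := by abel
    rw [e2] at h9
    exact h9

end Pool.Agent.H53M.RHO
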